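import Mathlib

open MeasureTheory Set Filter Topology
open scoped Real Interval

namespace Pool.Agent.H6

lemma integral_edge (T : ℝ) : ∫ t : ℝ, (1 + (T - t) ^ 2)⁻¹ = π := by
  have h := integral_sub_left_eq_self (fun x : ℝ => (1 + x ^ 2)⁻¹) volume T
  rw [h, integral_univ_inv_one_add_sq]

lemma integrable_edge (T : ℝ) : Integrable (fun t : ℝ => (1 + (T - t) ^ 2)⁻¹) := by
  have := integrable_inv_one_add_sq.comp_sub_left T
  exact this

/-- A weighted discrete set of ordinates with local density control. -/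
structure Ordinates (ι : Type*) (γ w : ι → ℝ) (F : ℝ → Finset ι) (CR : ℝ) : Prop where
  w_nonneg : ∀ i, 0 ≤ w i
  mem_F : ∀ T i, i ∈ F T ↔ 0 < γ i ∧ γ i ≤ T
  summable : ∀ t, Summable fun i => w i / (1 + (t - γ i) ^ 2)
  bound : ∀ t, ∑' i, w i / (1 + (t - γ i) ^ 2) ≤ CR * (1 + |t|) ^ (1 / 4 : ℝ)

/-- local density sum -/
noncomputable def RR {ι : Type*} (γ w : ι → ℝ) (t : ℝ) : ℝ := ∑' i, w i / (1 + (t - γ i) ^ 2)

/-- full sum -/
noncomputable def SS {ι : Type*} (γ w : ι → ℝ) (φ : ℝ → ℝ) (L t : ℝ) : ℝ :=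
  ∑' i, w i * φ (L * (t - γ i) / (2 * π))

/-- sum over a finite set of ordinates -/
noncomputable def Sin {ι : Type*} (γ w : ι → ℝ) (F : Finset ι) (φ : ℝ → ℝ) (L t : ℝ) : ℝ :=
  ∑ i ∈ F, w i * φ (L * (t - γ i) / (2 * π))

variable {ι : Type*} {γ w : ι → ℝ} {F : ℝ → Finset ι} {CR : ℝ} {φ : ℝ → ℝ} {C : ℝ}

lemma decay_scale (hC : 0 ≤ C) (hφ : ∀ u, |φ u| ≤ C / (1 + u ^ 2) ^ 2) {L : ℝ} (hL : 2 * π ≤ L) (x : ℝ) :
    |φ (L * x / (2 * π))| ≤ C / (1 + x ^ 2) ^ 2 := by
  refine (hφ _).trans ?_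
  apply div_le_div_of_nonneg_left hC (by positivity)
  apply pow_le_pow_left₀ (by positivity)
  have h1 : 1 ≤ L / (2 * π) := by rw [le_div_iff₀ (by positivity)]; linarith
  have h2 : (L * x / (2 * π)) ^ 2 = (L / (2 * π)) ^ 2 * x ^ 2 := by ring
  rw [h2]
  have h3 : 1 ≤ (L / (2 * π)) ^ 2 := one_le_pow₀ h1
  nlinarith [sq_nonneg x]

lemma decay_scale' (hC : 0 ≤ C) (hφ : ∀ u, |φ u| ≤ C / (1 + u ^ 2) ^ 2) {L : ℝ} (hL : 2 * π ≤ L) (x : ℝ) :
    |φ (L * x / (2 * π))| ≤ C / (1 + x ^ 2) := by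
  refine (decay_scale hC hφ hL x).trans ?_
  apply div_le_div_of_nonneg_left hC (by positivity)
  nlinarith [sq_nonneg x]

namespace Ordinates

variable (O : Ordinates ι γ w F CR)
include O

lemma RR_nonneg (t : ℝ) : 0 ≤ RR γ w t :=
  tsum_nonneg fun i => div_nonneg (O.w_nonneg i) (by positivity)

lemma CR_nonneg : 0 ≤ CR := by
  have h := (O.RR_nonneg 0).trans (O.bound 0)
  simpa using h

lemma RR_le {T t : ℝ} (ht : t ∈ Icc 0 T) : RR γ w t ≤ CR * (1 + T) ^ (1 / 4 : ℝ) := by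
  refine (O.bound t).trans ?_
  apply mul_le_mul_of_nonneg_left _ O.CR_nonneg
  apply Real.rpow_le_rpow (by positivity) _ (by norm_num)
  rw [abs_of_nonneg ht.1]
  linarith [ht.2]

lemma summable_phi (hC : 0 ≤ C) (hφ : ∀ u, |φ u| ≤ C / (1 + u ^ 2) ^ 2) {L : ℝ} (hL : 2 * π ≤ L) (t : ℝ) :
    Summable fun i => |w i * φ (L * (t - γ i) / (2 * π))| := by
  apply Summable.of_nonneg_of_le (fun i => abs_nonneg _) _ ((O.summable t).mul_left C)
  intro i
  rw [abs_mul, abs_of_nonneg (O.w_nonneg i)]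
  calc w i * |φ (L * (t - γ i) / (2 * π))| ≤ w i * (C / (1 + (t - γ i) ^ 2)) :=
        mul_le_mul_of_nonneg_left (decay_scale' hC hφ hL _) (O.w_nonneg i)
    _ = _ := by ring

lemma sum_abs_le (hC : 0 ≤ C) (hφ : ∀ u, |φ u| ≤ C / (1 + u ^ 2) ^ 2) {L : ℝ} (hL : 2 * π ≤ L) (t : ℝ) :
    ∑' i, |w i * φ (L * (t - γ i) / (2 * π))| ≤ C * RR γ w t := by
  unfold RR
  rw [← tsum_mul_left]
  apply Summable.tsum_le_tsum _ (O.summable_phi hC hφ hL t) ((O.summable t).mul_left C)
  intro i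
  rw [abs_mul, abs_of_nonneg (O.w_nonneg i)]
  calc w i * |φ (L * (t - γ i) / (2 * π))| ≤ w i * (C / (1 + (t - γ i) ^ 2)) :=
        mul_le_mul_of_nonneg_left (decay_scale' hC hφ hL _) (O.w_nonneg i)
    _ = _ := by ring

lemma abs_SS_le (hC : 0 ≤ C) (hφ : ∀ u, |φ u| ≤ C / (1 + u ^ 2) ^ 2) {L : ℝ} (hL : 2 * π ≤ L) (t : ℝ) :
    |SS γ w φ L t| ≤ C * RR γ w t := by
  refine le_trans ?_ (O.sum_abs_le hC hφ hL t)
  unfold SS
  have h := norm_tsum_le_tsum_norm (f := fun i => w i * φ (L * (t - γ i) / (2 * π)))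
    (by simpa [Real.norm_eq_abs] using O.summable_phi hC hφ hL t)
  simpa [Real.norm_eq_abs] using h

lemma abs_Sin_le (hC : 0 ≤ C) (hφ : ∀ u, |φ u| ≤ C / (1 + u ^ 2) ^ 2) {L : ℝ} (hL : 2 * π ≤ L) (G : Finset ι) (t : ℝ) :
    |Sin γ w G φ L t| ≤ C * RR γ w t := by
  refine le_trans ?_ (O.sum_abs_le hC hφ hL t)
  unfold Sin
  refine (Finset.abs_sum_le_sum_abs _ _).trans ?_
  exact (O.summable_phi hC hφ hL t).sum_le_tsum _ (fun i _ => abs_nonneg _)

/-- Edge function. -/
lemma abs_Sin_le_edge (hC : 0 ≤ C) (hφ : ∀ u, |φ u| ≤ C / (1 + u ^ 2) ^ 2) {L : ℝ} (hL : 2 * π ≤ L) {T t : ℝ}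
    (ht : t < 0 ∨ T < t) :
    |Sin γ w (F T) φ L t| ≤ C * (RR γ w T * (1 + (T - t) ^ 2)⁻¹ + RR γ w 0 * (1 + (0 - t) ^ 2)⁻¹) := by
  unfold Sin
  refine (Finset.abs_sum_le_sum_abs _ _).trans ?_
  have hT1 : 0 ≤ RR γ w T * (1 + (T - t) ^ 2)⁻¹ := mul_nonneg (O.RR_nonneg T) (by positivity)
  have h01 : 0 ≤ RR γ w 0 * (1 + (0 - t) ^ 2)⁻¹ := mul_nonneg (O.RR_nonneg 0) (by positivity)
  rcases ht with ht | ht
  · calc ∑ i ∈ F T, |w i * φ (L * (t - γ i) / (2 * π))|
        ≤ ∑ i ∈ F T, (C * (1 + (0 - t) ^ 2)⁻¹) * (w i / (1 + (0 - γ i) ^ 2)) := by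
          apply Finset.sum_le_sum
          intro i hi
          have hγ := ((O.mem_F T i).mp hi).1
          rw [abs_mul, abs_of_nonneg (O.w_nonneg i)]
          calc w i * |φ (L * (t - γ i) / (2 * π))| ≤ w i * (C / (1 + (t - γ i) ^ 2) ^ 2) :=
                mul_le_mul_of_nonneg_left (decay_scale hC hφ hL _) (O.w_nonneg i)
            _ ≤ w i * (C / ((1 + (0 - t) ^ 2) * (1 + (0 - γ i) ^ 2))) := by
                apply mul_le_mul_of_nonneg_left _ (O.w_nonneg i)
                apply div_le_div_of_nonneg_left hC (by positivity)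
                rw [sq (1 + (t - γ i) ^ 2)]
                apply mul_le_mul _ _ (by positivity) (by positivity)
                · nlinarith
                · nlinarith
            _ = _ := by
                field_simp
      _ = (C * (1 + (0 - t) ^ 2)⁻¹) * ∑ i ∈ F T, (w i / (1 + (0 - γ i) ^ 2)) := by rw [Finset.mul_sum]
      _ ≤ (C * (1 + (0 - t) ^ 2)⁻¹) * RR γ w 0 := by
          apply mul_le_mul_of_nonneg_left _ (by positivity)
          exact (O.summable 0).sum_le_tsum _ (fun i _ => div_nonneg (O.w_nonneg i) (by positivity))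
      _ ≤ _ := by
          have := mul_le_mul_of_nonneg_left hT1 hC
          nlinarith
  · calc ∑ i ∈ F T, |w i * φ (L * (t - γ i) / (2 * π))|
        ≤ ∑ i ∈ F T, (C * (1 + (T - t) ^ 2)⁻¹) * (w i / (1 + (T - γ i) ^ 2)) := by
          apply Finset.sum_le_sum
          intro i hi
          have hγ := ((O.mem_F T i).mp hi).2
          rw [abs_mul, abs_of_nonneg (O.w_nonneg i)]
          calc w i * |φ (L * (t - γ i) / (2 * π))| ≤ w i * (C / (1 + (t - γ i) ^ 2) ^ 2) :=
                mul_le_mul_of_nonneg_left (decay_scale hC hφ hL _) (O.w_nonneg i)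
            _ ≤ w i * (C / ((1 + (T - t) ^ 2) * (1 + (T - γ i) ^ 2))) := by
                apply mul_le_mul_of_nonneg_left _ (O.w_nonneg i)
                apply div_le_div_of_nonneg_left hC (by positivity)
                rw [sq (1 + (t - γ i) ^ 2)]
                apply mul_le_mul _ _ (by positivity) (by positivity)
                · nlinarith
                · nlinarith
            _ = _ := by
                field_simp
      _ = (C * (1 + (T - t) ^ 2)⁻¹) * ∑ i ∈ F T, (w i / (1 + (T - γ i) ^ 2)) := by rw [Finset.mul_sum]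
      _ ≤ (C * (1 + (T - t) ^ 2)⁻¹) * RR γ w T := by
          apply mul_le_mul_of_nonneg_left _ (by positivity)
          exact (O.summable T).sum_le_tsum _ (fun i _ => div_nonneg (O.w_nonneg i) (by positivity))
      _ ≤ _ := by
          have := mul_le_mul_of_nonneg_left h01 hC
          nlinarith

lemma abs_Sout_le_edge (hC : 0 ≤ C) (hφ : ∀ u, |φ u| ≤ C / (1 + u ^ 2) ^ 2) {L : ℝ} (hL : 2 * π ≤ L) {T t : ℝ}
    (ht : t ∈ Icc 0 T) :
    |SS γ w φ L t - Sin γ w (F T) φ L t|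
      ≤ C * (RR γ w T * (1 + (T - t) ^ 2)⁻¹ + RR γ w 0 * (1 + (0 - t) ^ 2)⁻¹) := by
  classical
  set f : ι → ℝ := fun i => w i * φ (L * (t - γ i) / (2 * π)) with hf
  have hfs : Summable fun i => |f i| := O.summable_phi hC hφ hL t
  have h1 : HasSum f (SS γ w φ L t) := hfs.of_abs.hasSum
  have h2 : HasSum (fun i => if i ∈ F T then f i else 0) (Sin γ w (F T) φ L t) := by
    have : Sin γ w (F T) φ L t = ∑ i ∈ F T, (fun i => if i ∈ F T then f i else 0) i := by
      unfold Sin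
      apply Finset.sum_congr rfl
      intro i hi
      simp [hi, hf]
    rw [this]
    apply hasSum_sum_of_ne_finset_zero
    intro i hi
    simp [hi]
  have h3 := h1.sub h2
  have hbd : ∀ i, |f i - (if i ∈ F T then f i else 0)|
      ≤ (C * (1 + (T - t) ^ 2)⁻¹) * (w i / (1 + (T - γ i) ^ 2)) + (C * (1 + (0 - t) ^ 2)⁻¹) * (w i / (1 + (0 - γ i) ^ 2)) := by
    intro i
    have hw := O.w_nonneg i
    have n1 : 0 ≤ (C * (1 + (T - t) ^ 2)⁻¹) * (w i / (1 + (T - γ i) ^ 2)) := by positivity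
    have n2 : 0 ≤ (C * (1 + (0 - t) ^ 2)⁻¹) * (w i / (1 + (0 - γ i) ^ 2)) := by positivity
    split_ifs with hi
    · simp only [sub_self, abs_zero]
      linarith
    · rw [sub_zero, hf]
      simp only
      rw [O.mem_F T i, not_and_or, not_lt, not_le] at hi
      rw [abs_mul, abs_of_nonneg hw]
      have h4 : w i * |φ (L * (t - γ i) / (2 * π))| ≤ w i * (C / (1 + (t - γ i) ^ 2) ^ 2) :=
        mul_le_mul_of_nonneg_left (decay_scale hC hφ hL _) hw
      refine h4.trans ?_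
      rcases hi with hi | hi
      · have h5 : w i * (C / (1 + (t - γ i) ^ 2) ^ 2) ≤ (C * (1 + (0 - t) ^ 2)⁻¹) * (w i / (1 + (0 - γ i) ^ 2)) := by
          calc w i * (C / (1 + (t - γ i) ^ 2) ^ 2) ≤ w i * (C / ((1 + (0 - t) ^ 2) * (1 + (0 - γ i) ^ 2))) := by
                apply mul_le_mul_of_nonneg_left _ hw
                apply div_le_div_of_nonneg_left hC (by positivity)
                rw [sq (1 + (t - γ i) ^ 2)]
                have := ht.1
                apply mul_le_mul _ _ (by positivity) (by positivity)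
                · nlinarith
                · nlinarith
            _ = _ := by field_simp
        linarith
      · have h5 : w i * (C / (1 + (t - γ i) ^ 2) ^ 2) ≤ (C * (1 + (T - t) ^ 2)⁻¹) * (w i / (1 + (T - γ i) ^ 2)) := by
          calc w i * (C / (1 + (t - γ i) ^ 2) ^ 2) ≤ w i * (C / ((1 + (T - t) ^ 2) * (1 + (T - γ i) ^ 2))) := by
                apply mul_le_mul_of_nonneg_left _ hw
                apply div_le_div_of_nonneg_left hC (by positivity)
                rw [sq (1 + (t - γ i) ^ 2)]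
                have := ht.2
                apply mul_le_mul _ _ (by positivity) (by positivity)
                · nlinarith
                · nlinarith
            _ = _ := by field_simp
        linarith
  have hsum : Summable fun i => (C * (1 + (T - t) ^ 2)⁻¹) * (w i / (1 + (T - γ i) ^ 2))
      + (C * (1 + (0 - t) ^ 2)⁻¹) * (w i / (1 + (0 - γ i) ^ 2)) :=
    ((O.summable T).mul_left _).add ((O.summable 0).mul_left _)
  rw [← h3.tsum_eq]
  have h6 : Summable fun i => |f i - (if i ∈ F T then f i else 0)| :=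
    Summable.of_nonneg_of_le (fun i => abs_nonneg _) hbd hsum
  have h7 := norm_tsum_le_tsum_norm (f := fun i => f i - (if i ∈ F T then f i else 0))
    (by simpa [Real.norm_eq_abs] using h6)
  simp only [Real.norm_eq_abs] at h7
  refine h7.trans ?_
  refine (Summable.tsum_le_tsum hbd h6 hsum).trans (le_of_eq ?_)
  rw [((O.summable T).mul_left _).tsum_add ((O.summable 0).mul_left _), tsum_mul_left, tsum_mul_left]
  unfold RR
  ring

end Ordinates

end Pool.Agent.H6
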