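import Mathlib

open MeasureTheory Set Filter Topology FourierTransform
open scoped Real

namespace Pool.Agent.H6

/-- Cosine transform (the Fourier transform of an even function). -/
noncomputable def cosT (f : ℝ → ℝ) (ξ : ℝ) : ℝ := ∫ u, f u * Real.cos (2 * π * u * ξ)

lemma integrable_mul_cos {f : ℝ → ℝ} (hf : Integrable f) (ξ : ℝ) :
    Integrable (fun u => f u * Real.cos (2 * π * u * ξ)) := by
  apply Integrable.mul_bdd (c := 1) hf
  · exact (by fun_prop : Continuous fun u : ℝ => Real.cos (2 * π * u * ξ)).aestronglyMeasurable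
  · exact ae_of_all _ fun u => by
      rw [Real.norm_eq_abs]; exact Real.abs_cos_le_one _

lemma cosT_neg (f : ℝ → ℝ) (ξ : ℝ) : cosT f (-ξ) = cosT f ξ := by
  unfold cosT
  congr 1
  ext u
  rw [show 2 * π * u * -ξ = -(2 * π * u * ξ) by ring, Real.cos_neg]

lemma abs_cosT_le {f : ℝ → ℝ} (hf : Integrable f) (ξ : ℝ) : |cosT f ξ| ≤ ∫ u, |f u| := by
  unfold cosT
  calc |∫ u, f u * Real.cos (2 * π * u * ξ)| ≤ ∫ u, |f u * Real.cos (2 * π * u * ξ)| :=
        abs_integral_le_integral_abs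
    _ ≤ ∫ u, |f u| := by
        apply integral_mono (integrable_mul_cos hf ξ).abs hf.abs
        intro u
        simp only
        rw [abs_mul]
        exact mul_le_of_le_one_right (abs_nonneg _) (Real.abs_cos_le_one _)

lemma fourier_ofReal_even {f : ℝ → ℝ} (hf : Integrable f) (heven : ∀ u, f (-u) = f u) (ξ : ℝ) :
    𝓕 (fun u => (f u : ℂ)) ξ = (cosT f ξ : ℂ) := by
  have hint : ∀ ξ : ℝ, Integrable (fun u : ℝ => Complex.exp (↑(-2 * π * u * ξ) * Complex.I) • (f u : ℂ)) := by
    intro ξ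
    have h1 : Integrable (fun u : ℝ => (f u : ℂ)) := hf.ofReal
    have h2 := h1.bdd_mul (c := 1) (f := fun u : ℝ => Complex.exp (↑(-2 * π * u * ξ) * Complex.I))
      ((by fun_prop : Continuous fun u : ℝ => Complex.exp (↑(-2 * π * u * ξ) * Complex.I)).aestronglyMeasurable)
      (ae_of_all _ fun u => by rw [Complex.norm_exp_ofReal_mul_I])
    simpa [smul_eq_mul] using h2
  have h1 : ∀ ξ : ℝ, 𝓕 (fun u => (f u : ℂ)) ξ
      = ∫ u, Complex.exp (↑(-2 * π * u * ξ) * Complex.I) • (f u : ℂ) := by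
    intro ξ
    rw [Real.fourier_real_eq_integral_exp_smul]
  have h2 : 𝓕 (fun u => (f u : ℂ)) ξ = ∫ u, Complex.exp (↑(-2 * π * u * (-ξ)) * Complex.I) • (f u : ℂ) := by
    rw [h1, ← integral_neg_eq_self]
    congr 1
    ext u
    rw [heven]
    congr 3
    push_cast
    ring
  have h3 : 2 * 𝓕 (fun u => (f u : ℂ)) ξ = 2 * (cosT f ξ : ℂ) := by
    calc 2 * 𝓕 (fun u => (f u : ℂ)) ξ = 𝓕 (fun u => (f u : ℂ)) ξ + 𝓕 (fun u => (f u : ℂ)) ξ := by ring
      _ = (∫ u, Complex.exp (↑(-2 * π * u * ξ) * Complex.I) • (f u : ℂ))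
          + ∫ u, Complex.exp (↑(-2 * π * u * (-ξ)) * Complex.I) • (f u : ℂ) := by
          rw [← h1 ξ, ← h2]
      _ = ∫ u, (Complex.exp (↑(-2 * π * u * ξ) * Complex.I) • (f u : ℂ)
          + Complex.exp (↑(-2 * π * u * (-ξ)) * Complex.I) • (f u : ℂ)) := by
          rw [integral_add (hint ξ) (hint (-ξ))]
      _ = ∫ u, ((2 * (f u * Real.cos (2 * π * u * ξ)) : ℝ) : ℂ) := by
          congr 1
          ext u
          simp only [smul_eq_mul]
          rw [← add_mul]
          have : Complex.exp (↑(-2 * π * u * ξ) * Complex.I) + Complex.exp (↑(-2 * π * u * -ξ) * Complex.I)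
              = 2 * (Real.cos (2 * π * u * ξ) : ℂ) := by
            rw [Complex.ofReal_cos, Complex.two_cos]
            rw [add_comm]
            congr 2 <;> push_cast <;> ring
          rw [this]
          push_cast
          ring
      _ = 2 * (cosT f ξ : ℂ) := by
          rw [integral_complex_ofReal, integral_const_mul]
          push_cast
          rfl
  exact mul_left_cancel₀ two_ne_zero h3

/-- Inversion for the cosine transform. -/
theorem cosT_cosT {f : ℝ → ℝ} (hc : Continuous f) (hf : Integrable f) (heven : ∀ u, f (-u) = f u)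
    (hg : Integrable (cosT f)) (u : ℝ) : cosT (cosT f) u = f u := by
  have h1 : 𝓕 (fun u => (f u : ℂ)) = fun ξ => (cosT f ξ : ℂ) := by
    ext ξ; exact fourier_ofReal_even hf heven ξ
  have h2 : 𝓕⁻ (𝓕 (fun u => (f u : ℂ))) = fun u => (f u : ℂ) := by
    apply Continuous.fourierInv_fourier_eq
    · fun_prop
    · exact hf.ofReal
    · rw [h1]; exact hg.ofReal
  have h3 : 𝓕⁻ (fun ξ => (cosT f ξ : ℂ)) u = (f u : ℂ) := by
    rw [← h1, h2]
  rw [Real.fourierInv_eq_fourier_neg, fourier_ofReal_even hg (cosT_neg f), cosT_neg] at h3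
  exact_mod_cast h3

end Pool.Agent.H6
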