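import Mathlib
import Pool.Agent.H6.CosT

open MeasureTheory Set Filter Topology
open scoped Real Interval

namespace Pool.Agent.H6

lemma integrable_inv_one_add_sq' : Integrable (fun u : ℝ => (1 + u ^ 2)⁻¹) := integrable_inv_one_add_sq

/-- Test functions: continuous, even, `O((1+u²)⁻²)`, with Fourier transform supported in
`(-s, s)`. -/
structure TestFn (s : ℝ) (φ : ℝ → ℝ) : Prop where
  cont : Continuous φ
  even : ∀ u, φ (-u) = φ u
  decay : ∃ C, 0 ≤ C ∧ ∀ u, |φ u| ≤ C / (1 + u ^ 2) ^ 2
  supp : ∀ ξ, s ≤ |ξ| → cosT φ ξ = 0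

namespace TestFn

variable {s : ℝ} {φ : ℝ → ℝ}

lemma integrable_pow (hφ : TestFn s φ) {k : ℕ} (hk : k ≤ 2) : Integrable (fun u => u ^ k * φ u) := by
  obtain ⟨C, hC0, hC⟩ := hφ.decay
  apply Integrable.mono' (integrable_inv_one_add_sq'.const_mul C)
  · exact ((continuous_pow k).mul hφ.cont).aestronglyMeasurable
  · apply ae_of_all
    intro u
    rw [Real.norm_eq_abs, abs_mul, abs_pow]
    have h1 : |u| ^ k ≤ 1 + u ^ 2 := by
      interval_cases k
      · simp; positivity
      · rw [pow_one]; nlinarith [sq_abs u, abs_nonneg u, sq_nonneg (|u| - 1)]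
      · rw [sq_abs]; linarith
    calc |u| ^ k * |φ u| ≤ (1 + u ^ 2) * (C / (1 + u ^ 2) ^ 2) := by
          apply mul_le_mul h1 (hC u) (abs_nonneg _) (by positivity)
      _ = C * (1 + u ^ 2)⁻¹ := by
          have : (1 + u ^ 2) ≠ 0 := by positivity
          field_simp

lemma integrable (hφ : TestFn s φ) : Integrable φ := by
  simpa using hφ.integrable_pow (k := 0) (by norm_num)

/-- first derivative of the cosine transform -/
noncomputable def d1 (φ : ℝ → ℝ) (ξ : ℝ) : ℝ := ∫ u, (-(2 * π) * (u * φ u)) * Real.sin (2 * π * u * ξ)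

/-- second derivative of the cosine transform -/
noncomputable def d2 (φ : ℝ → ℝ) (ξ : ℝ) : ℝ := ∫ u, (-(2 * π) ^ 2 * (u ^ 2 * φ u)) * Real.cos (2 * π * u * ξ)

lemma hasDerivAt_cosT (hφ : TestFn s φ) (ξ : ℝ) : HasDerivAt (cosT φ) (d1 φ ξ) ξ := by
  unfold d1
  have h1 := hφ.integrable_pow (k := 1) (by norm_num)
  simp only [pow_one] at h1
  have hb : Integrable (fun u => 2 * π * |u * φ u|) := h1.abs.const_mul _
  have := hasDerivAt_integral_of_dominated_loc_of_deriv_le (μ := volume) (𝕜 := ℝ)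
    (F := fun ξ u => φ u * Real.cos (2 * π * u * ξ))
    (F' := fun ξ u => (-(2 * π) * (u * φ u)) * Real.sin (2 * π * u * ξ))
    (x₀ := ξ) (s := univ) (bound := fun u => 2 * π * |u * φ u|) univ_mem
    (Eventually.of_forall fun x => (integrable_mul_cos hφ.integrable x).aestronglyMeasurable)
    (integrable_mul_cos hφ.integrable ξ)
    (by
      have := hφ.cont
      exact (by fun_prop : Continuous fun u : ℝ =>
        (-(2 * π) * (u * φ u)) * Real.sin (2 * π * u * ξ)).aestronglyMeasurable)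
    (ae_of_all _ fun u x _ => by
      rw [Real.norm_eq_abs, abs_mul, abs_mul, abs_neg, abs_of_pos Real.two_pi_pos]
      exact mul_le_of_le_one_right (by positivity) (Real.abs_sin_le_one _))
    hb
    (ae_of_all _ fun u x _ => by
      have h2 : HasDerivAt (fun x : ℝ => 2 * π * u * x) (2 * π * u) x := by
        simpa using (hasDerivAt_id x).const_mul (2 * π * u)
      have h3 := (h2.cos).const_mul (φ u)
      exact h3.congr_deriv (by ring))
  exact this.2

lemma hasDerivAt_d1 (hφ : TestFn s φ) (ξ : ℝ) : HasDerivAt (d1 φ) (d2 φ ξ) ξ := by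
  unfold d2
  have h1 := hφ.integrable_pow (k := 1) (by norm_num)
  have h2 := hφ.integrable_pow (k := 2) (by norm_num)
  simp only [pow_one] at h1
  have hb : Integrable (fun u => (2 * π) ^ 2 * |u ^ 2 * φ u|) := h2.abs.const_mul _
  have hc := hφ.cont
  have hi : ∀ x : ℝ, Integrable (fun u => (-(2 * π) * (u * φ u)) * Real.sin (2 * π * u * x)) := by
    intro x
    apply Integrable.mul_bdd (c := 1) (h1.const_mul _)
    · exact (by fun_prop : Continuous fun u : ℝ => Real.sin (2 * π * u * x)).aestronglyMeasurable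
    · exact ae_of_all _ fun u => by
        rw [Real.norm_eq_abs]; exact Real.abs_sin_le_one _
  have := hasDerivAt_integral_of_dominated_loc_of_deriv_le (μ := volume) (𝕜 := ℝ)
    (F := fun ξ u => (-(2 * π) * (u * φ u)) * Real.sin (2 * π * u * ξ))
    (F' := fun ξ u => (-(2 * π) ^ 2 * (u ^ 2 * φ u)) * Real.cos (2 * π * u * ξ))
    (x₀ := ξ) (s := univ) (bound := fun u => (2 * π) ^ 2 * |u ^ 2 * φ u|) univ_mem
    (Eventually.of_forall fun x => (hi x).aestronglyMeasurable)
    (hi ξ)
    (by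
      exact (by fun_prop : Continuous fun u : ℝ =>
        (-(2 * π) ^ 2 * (u ^ 2 * φ u)) * Real.cos (2 * π * u * ξ)).aestronglyMeasurable)
    (ae_of_all _ fun u x _ => by
      rw [Real.norm_eq_abs, abs_mul, abs_mul, abs_neg, abs_of_pos (by positivity : (0:ℝ) < (2 * π) ^ 2)]
      exact mul_le_of_le_one_right (by positivity) (Real.abs_cos_le_one _))
    hb
    (ae_of_all _ fun u x _ => by
      have h2 : HasDerivAt (fun x : ℝ => 2 * π * u * x) (2 * π * u) x := by
        simpa using (hasDerivAt_id x).const_mul (2 * π * u)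
      have h3 := (h2.sin).const_mul (-(2 * π) * (u * φ u))
      exact h3.congr_deriv (by ring))
  exact this.2

lemma d1_zero (φ : ℝ → ℝ) : d1 φ 0 = 0 := by
  unfold d1; simp

lemma integrable_d2_aux (hφ : TestFn s φ) : Integrable (fun u => -(2 * π) ^ 2 * (u ^ 2 * φ u)) :=
  (hφ.integrable_pow (k := 2) (by norm_num)).const_mul _

lemma continuous_cosT_of_integrable {f : ℝ → ℝ} (hf : Integrable f) : Continuous (cosT f) := by
  unfold cosT
  apply continuous_of_dominated (bound := fun u => |f u|)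
  · intro x
    exact (integrable_mul_cos hf x).aestronglyMeasurable
  · intro x
    exact ae_of_all _ fun u => by
      rw [Real.norm_eq_abs, abs_mul]
      exact mul_le_of_le_one_right (abs_nonneg _) (Real.abs_cos_le_one _)
  · exact hf.abs
  · exact ae_of_all _ fun u => by fun_prop

lemma continuous_d2 (hφ : TestFn s φ) : Continuous (d2 φ) :=
  continuous_cosT_of_integrable hφ.integrable_d2_aux

lemma continuous_d1 (hφ : TestFn s φ) : Continuous (d1 φ) := by
  rw [continuous_iff_continuousAt]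
  exact fun x => (hφ.hasDerivAt_d1 x).continuousAt

lemma continuous_cosT (hφ : TestFn s φ) : Continuous (cosT φ) :=
  continuous_cosT_of_integrable hφ.integrable

lemma d1_eq_zero (hφ : TestFn s φ) {ξ : ℝ} (hξ : s < |ξ|) : d1 φ ξ = 0 := by
  have h1 : cosT φ =ᶠ[𝓝 ξ] fun _ => 0 := by
    have : ∀ᶠ x in 𝓝 ξ, s < |x| := continuous_abs.continuousAt.eventually (lt_mem_nhds hξ)
    filter_upwards [this] with x hx
    exact hφ.supp x hx.le
  have h2 := (hφ.hasDerivAt_cosT ξ).congr_of_eventuallyEq h1.symm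
  exact h2.unique (hasDerivAt_const ξ 0)

lemma d2_eq_zero (hφ : TestFn s φ) {ξ : ℝ} (hξ : s < |ξ|) : d2 φ ξ = 0 := by
  have h1 : d1 φ =ᶠ[𝓝 ξ] fun _ => 0 := by
    have : ∀ᶠ x in 𝓝 ξ, s < |x| := continuous_abs.continuousAt.eventually (lt_mem_nhds hξ)
    filter_upwards [this] with x hx
    exact hφ.d1_eq_zero hx
  have h2 := (hφ.hasDerivAt_d1 ξ).congr_of_eventuallyEq h1.symm
  exact h2.unique (hasDerivAt_const ξ 0)

lemma hasCompactSupport_cosT (hφ : TestFn s φ) : HasCompactSupport (cosT φ) := by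
  apply HasCompactSupport.intro (K := Icc (-s) s) isCompact_Icc
  intro x hx
  apply hφ.supp
  by_contra h
  rw [not_le, abs_lt] at h
  exact hx ⟨h.1.le, h.2.le⟩

lemma integrable_cosT (hφ : TestFn s φ) : Integrable (cosT φ) :=
  hφ.continuous_cosT.integrable_of_hasCompactSupport hφ.hasCompactSupport_cosT

lemma inversion (hφ : TestFn s φ) (u : ℝ) : cosT (cosT φ) u = φ u :=
  cosT_cosT hφ.cont hφ.integrable hφ.even hφ.integrable_cosT u

end TestFn

end Pool.Agent.H6
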