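import Mathlib
import Pool.Agent.H6.TestFn

open MeasureTheory Set Filter Topology
open scoped Real Interval

namespace Pool.Agent.H6

namespace TestFn

variable {s : ℝ} {φ : ℝ → ℝ}

/-- `h(ξ) e^{b|ξ|}` -/
noncomputable def HB (φ : ℝ → ℝ) (b ξ : ℝ) : ℝ := cosT φ ξ * Real.exp (b * |ξ|)

lemma continuous_HB (hφ : TestFn s φ) (b : ℝ) : Continuous (HB φ b) := by
  unfold HB
  have := hφ.continuous_cosT
  fun_prop

lemma HB_even (φ : ℝ → ℝ) (b ξ : ℝ) : HB φ b (-ξ) = HB φ b ξ := by
  unfold HB; rw [cosT_neg, abs_neg]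

lemma hasCompactSupport_HB (hφ : TestFn s φ) (b : ℝ) : HasCompactSupport (HB φ b) :=
  hφ.hasCompactSupport_cosT.mul_right

lemma integrable_HB (hφ : TestFn s φ) (b : ℝ) : Integrable (HB φ b) :=
  (hφ.continuous_HB b).integrable_of_hasCompactSupport (hφ.hasCompactSupport_HB b)

/-- Integral over the line of an even function supported in `[-S, S]`. -/
lemma integral_even {f : ℝ → ℝ} {S : ℝ} (hS : 0 ≤ S) (heven : ∀ x, f (-x) = f x)
    (hsupp : ∀ x, S < x → f x = 0) : ∫ x, f x = 2 * ∫ x in (0 : ℝ)..S, f x := by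
  have h1 : ∀ x, f |x| = f x := by
    intro x
    rcases abs_cases x with ⟨h, _⟩ | ⟨h, _⟩
    · rw [h]
    · rw [h, heven]
  have h2 : ∫ x, f x = ∫ x, f |x| := by simp_rw [h1]
  rw [h2, integral_comp_abs, intervalIntegral.integral_of_le hS]
  congr 1
  rw [← setIntegral_eq_of_subset_of_forall_sdiff_eq_zero measurableSet_Ioi Ioc_subset_Ioi_self]
  intro x hx
  apply hsupp
  simp only [Set.mem_sdiff, mem_Ioi, mem_Ioc, not_and, not_le] at hx
  exact hx.2 hx.1

lemma cosT_HB_eq (hφ : TestFn s φ) (hs : 0 < s) (b y : ℝ) :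
    cosT (HB φ b) y = 2 * (∫ x in (0 : ℝ)..(s + 1),
      (cosT φ x : ℂ) * Complex.exp ((b + 2 * π * y * Complex.I) * x)).re := by
  unfold cosT
  rw [integral_even (S := s + 1) (by linarith)]
  · congr 1
    rw [← Complex.reCLM_apply, ← ContinuousLinearMap.intervalIntegral_comp_comm]
    · apply intervalIntegral.integral_congr
      intro x hx
      rw [uIcc_of_le (by linarith)] at hx
      simp only [Complex.reCLM_apply]
      unfold HB
      rw [abs_of_nonneg hx.1]
      have : ((b : ℂ) + 2 * π * y * Complex.I) * x = ((b * x : ℝ) : ℂ) + ((2 * π * x * y : ℝ) : ℂ) * Complex.I := by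
        push_cast; ring
      rw [this, Complex.re_ofReal_mul, Complex.exp_add, ← Complex.ofReal_exp, Complex.re_ofReal_mul,
        Complex.exp_ofReal_mul_I_re]
      change cosT φ x * _ * _ = cosT φ x * (_ * _)
      ring
    · apply Continuous.intervalIntegrable
      have := hφ.continuous_cosT
      change Continuous fun x : ℝ => (cosT φ x : ℂ) * _
      fun_prop
  · intro x
    rw [HB_even, show 2 * π * (-x) * y = -(2 * π * x * y) by ring, Real.cos_neg]
  · intro x hx
    have : HB φ b x = 0 := by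
      unfold HB
      rw [hφ.supp x (by rw [abs_of_pos (by linarith)]; linarith), zero_mul]
    rw [this, zero_mul]

lemma ibp (hφ : TestFn s φ) (hs : 0 < s) {z : ℂ} (hz : z ≠ 0) :
    ∫ x in (0 : ℝ)..(s + 1), (cosT φ x : ℂ) * Complex.exp (z * x)
      = -(cosT φ 0 : ℂ) / z + (1 / z ^ 2) * ∫ x in (0 : ℝ)..(s + 1), (d2 φ x : ℂ) * Complex.exp (z * x) := by
  have hv : ∀ x : ℝ, HasDerivAt (fun x : ℝ => Complex.exp (z * x) / z) (Complex.exp (z * x)) x := by
    intro x
    have h1 : HasDerivAt (fun x : ℝ => z * (x : ℂ)) z x := by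
      simpa using (hasDerivAt_id x).ofReal_comp.const_mul z
    have h2 := h1.cexp.div_const z
    exact h2.congr_deriv (by field_simp)
  have hcexp : Continuous fun x : ℝ => Complex.exp (z * x) := by fun_prop
  have hc0 : Continuous fun x : ℝ => (cosT φ x : ℂ) := by
    have := hφ.continuous_cosT
    exact Complex.continuous_ofReal.comp this
  have hc1 : Continuous fun x : ℝ => (d1 φ x : ℂ) := Complex.continuous_ofReal.comp hφ.continuous_d1
  have hc2 : Continuous fun x : ℝ => (d2 φ x : ℂ) := Complex.continuous_ofReal.comp hφ.continuous_d2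
  have e1 := intervalIntegral.integral_mul_deriv_eq_deriv_mul (a := 0) (b := s + 1)
    (u := fun x : ℝ => (cosT φ x : ℂ)) (u' := fun x => (d1 φ x : ℂ))
    (v := fun x : ℝ => Complex.exp (z * x) / z) (v' := fun x => Complex.exp (z * x))
    (fun x _ => (hφ.hasDerivAt_cosT x).ofReal_comp) (fun x _ => hv x)
    (hc1.intervalIntegrable _ _) (hcexp.intervalIntegrable _ _)
  have e2 := intervalIntegral.integral_mul_deriv_eq_deriv_mul (a := 0) (b := s + 1)
    (u := fun x : ℝ => (d1 φ x : ℂ)) (u' := fun x => (d2 φ x : ℂ))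
    (v := fun x : ℝ => Complex.exp (z * x) / z) (v' := fun x => Complex.exp (z * x))
    (fun x _ => (hφ.hasDerivAt_d1 x).ofReal_comp) (fun x _ => hv x)
    (hc2.intervalIntegrable _ _) (hcexp.intervalIntegrable _ _)
  have hS : s < |s + 1| := by rw [abs_of_pos (by linarith)]; linarith
  rw [e1]
  have e3 : ∫ x in (0 : ℝ)..(s + 1), (d1 φ x : ℂ) * (Complex.exp (z * x) / z)
      = (1 / z) * ∫ x in (0 : ℝ)..(s + 1), (d1 φ x : ℂ) * Complex.exp (z * x) := by
    rw [← intervalIntegral.integral_const_mul]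
    congr 1
    ext x
    ring
  have e4 : ∫ x in (0 : ℝ)..(s + 1), (d2 φ x : ℂ) * (Complex.exp (z * x) / z)
      = (1 / z) * ∫ x in (0 : ℝ)..(s + 1), (d2 φ x : ℂ) * Complex.exp (z * x) := by
    rw [← intervalIntegral.integral_const_mul]
    congr 1
    ext x
    ring
  rw [e3, e2, e4, hφ.supp (s + 1) hS.le, hφ.d1_eq_zero hS, d1_zero]
  simp
  field_simp

/-- `∫ |h''|` -/
noncomputable def A2 (s : ℝ) (φ : ℝ → ℝ) : ℝ := ∫ x in (0 : ℝ)..(s + 1), |d2 φ x|

lemma A2_nonneg (hs : 0 < s) (φ : ℝ → ℝ) : 0 ≤ A2 s φ :=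
  intervalIntegral.integral_nonneg (by linarith) fun x _ => abs_nonneg _

lemma abs_cosT_HB_le (hφ : TestFn s φ) (hs : 0 < s) {b : ℝ} (hb : 0 < b) (y : ℝ) :
    |cosT (HB φ b) y| ≤ 2 * (|cosT φ 0| * b + Real.exp (b * s) * A2 s φ) / (b ^ 2 + (2 * π * y) ^ 2) := by
  set z : ℂ := b + 2 * π * y * Complex.I with hzdef
  have hzre : z.re = b := by simp [hzdef]
  have hzim : z.im = 2 * π * y := by simp [hzdef]
  have hz : z ≠ 0 := by
    intro h
    rw [h] at hzre
    simp at hzre
    linarith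
  have hns : Complex.normSq z = b ^ 2 + (2 * π * y) ^ 2 := by
    rw [Complex.normSq_apply, hzre, hzim]; ring
  have hnspos : 0 < Complex.normSq z := Complex.normSq_pos.mpr hz
  have hnorm : ‖z‖ ^ 2 = b ^ 2 + (2 * π * y) ^ 2 := by rw [← Complex.normSq_eq_norm_sq, hns]
  rw [hφ.cosT_HB_eq hs, hφ.ibp hs hz]
  rw [Complex.add_re]
  have t1 : |(-(cosT φ 0 : ℂ) / z).re| ≤ |cosT φ 0| * b / (b ^ 2 + (2 * π * y) ^ 2) := by
    rw [Complex.div_re, hzre, hzim, hns]
    simp only [Complex.neg_re, Complex.ofReal_re, Complex.neg_im, Complex.ofReal_im, neg_zero,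
      zero_mul, zero_div, add_zero]
    have hp : 0 < b ^ 2 + (2 * π * y) ^ 2 := by rw [← hns]; exact hnspos
    rw [abs_div, abs_mul, abs_neg, abs_of_pos hb, abs_of_pos hp]
  have t2 : ‖∫ x in (0 : ℝ)..(s + 1), (d2 φ x : ℂ) * Complex.exp (z * x)‖ ≤ Real.exp (b * s) * A2 s φ := by
    calc ‖∫ x in (0 : ℝ)..(s + 1), (d2 φ x : ℂ) * Complex.exp (z * x)‖
        ≤ ∫ x in (0 : ℝ)..(s + 1), ‖(d2 φ x : ℂ) * Complex.exp (z * x)‖ :=
          intervalIntegral.norm_integral_le_integral_norm (by linarith)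
      _ ≤ ∫ x in (0 : ℝ)..(s + 1), Real.exp (b * s) * |d2 φ x| := by
          apply intervalIntegral.integral_mono_on (by linarith)
          · apply Continuous.intervalIntegrable
            have := hφ.continuous_d2
            fun_prop
          · apply Continuous.intervalIntegrable
            have := hφ.continuous_d2
            fun_prop
          · intro x hx
            rw [norm_mul, Complex.norm_real, Real.norm_eq_abs, Complex.norm_exp]
            have hre : (z * x).re = b * x := by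
              rw [mul_comm, Complex.re_ofReal_mul, hzre]; ring
            rw [hre, mul_comm]
            rcases le_or_gt x s with h | h
            · apply mul_le_mul_of_nonneg_right _ (abs_nonneg _)
              apply Real.exp_le_exp.mpr
              exact mul_le_mul_of_nonneg_left h hb.le
            · rw [hφ.d2_eq_zero (by rw [abs_of_pos (by linarith)]; exact h)]
              simp
      _ = Real.exp (b * s) * A2 s φ := by
          rw [intervalIntegral.integral_const_mul]; rfl
  have t3 : |((1 / z ^ 2) * ∫ x in (0 : ℝ)..(s + 1), (d2 φ x : ℂ) * Complex.exp (z * x)).re|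
      ≤ Real.exp (b * s) * A2 s φ / (b ^ 2 + (2 * π * y) ^ 2) := by
    refine (Complex.abs_re_le_norm _).trans ?_
    rw [norm_mul, norm_div, norm_one, norm_pow, hnorm, one_div, inv_mul_eq_div]
    apply div_le_div_of_nonneg_right t2
    positivity
  rw [abs_mul, abs_of_pos (by norm_num : (0:ℝ) < 2)]
  calc 2 * |(-(cosT φ 0 : ℂ) / z).re + ((1 / z ^ 2) * ∫ x in (0 : ℝ)..(s + 1), (d2 φ x : ℂ) * Complex.exp (z * x)).re|
      ≤ 2 * (|cosT φ 0| * b / (b ^ 2 + (2 * π * y) ^ 2) + Real.exp (b * s) * A2 s φ / (b ^ 2 + (2 * π * y) ^ 2)) := by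
        apply mul_le_mul_of_nonneg_left _ (by norm_num)
        exact (abs_add_le _ _).trans (add_le_add t1 t3)
    _ = _ := by ring

end TestFn

end Pool.Agent.H6
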