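import Mathlib
import Pool.Agent.H6.Kernel

open MeasureTheory Set Filter Topology
open scoped Real Interval

namespace Pool.Agent.H6

/-- Poisson kernel `a/(a²+v²)`. -/
noncomputable def pk (a v : ℝ) : ℝ := a / (a ^ 2 + v ^ 2)

lemma pk_nonneg {a : ℝ} (ha : 0 < a) (v : ℝ) : 0 ≤ pk a v := by unfold pk; positivity

lemma continuous_pk {a : ℝ} (ha : 0 < a) : Continuous (pk a) := by
  unfold pk
  apply Continuous.div (by fun_prop) (by fun_prop)
  intro x
  positivity

lemma pk_eq {a : ℝ} (ha : 0 < a) (v : ℝ) :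
    ∫ x in Ioi (0 : ℝ), Real.exp (-(a * x)) * Real.cos (x * v) = pk a v := by
  have h1 := integral_exp_mul_complex_Ioi (a := (-a + v * Complex.I : ℂ)) (by simp [ha]) 0
  have h2 : (∫ x in Ioi (0 : ℝ), Complex.exp ((-a + v * Complex.I : ℂ) * x)).re = pk a v := by
    rw [h1]
    simp only [Complex.ofReal_zero, mul_zero, Complex.exp_zero]
    rw [Complex.div_re, Complex.normSq_apply]
    simp
    unfold pk
    have h3 : a ^ 2 + v ^ 2 ≠ 0 := by positivity
    have : a * a + v * v ≠ 0 := by rw [← sq, ← sq]; exact h3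
    field_simp
  rw [← h2, ← Complex.reCLM_apply, ← ContinuousLinearMap.integral_comp_comm]
  · apply integral_congr_ae
    apply ae_of_all
    intro x
    simp only [Complex.reCLM_apply]
    have : (-a + v * Complex.I : ℂ) * x = ((-(a * x) : ℝ) : ℂ) + ((x * v : ℝ) : ℂ) * Complex.I := by
      push_cast; ring
    rw [this, Complex.exp_add, ← Complex.ofReal_exp, Complex.re_ofReal_mul, Complex.exp_ofReal_mul_I_re]
  · exact integrableOn_exp_mul_complex_Ioi (by simp [ha]) 0

lemma integral_mul_sin_eq_zero {q : ℝ → ℝ} (heven : ∀ u, q (-u) = q u) (x : ℝ) :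
    ∫ u, q u * Real.sin (x * u) = 0 := by
  have h := integral_neg_eq_self (fun u => q u * Real.sin (x * u)) volume
  simp only [heven, mul_neg, Real.sin_neg] at h
  rw [integral_neg] at h
  linarith

lemma integral_mul_cos_sub {q : ℝ → ℝ} (hq : Integrable q) (heven : ∀ u, q (-u) = q u) (x v : ℝ) :
    ∫ u, q u * Real.cos (x * (v - u)) = Real.cos (x * v) * ∫ u, q u * Real.cos (x * u) := by
  have hc : Integrable (fun u => q u * Real.cos (x * u)) := by
    apply Integrable.mul_bdd (c := 1) hq
    · exact (by fun_prop : Continuous fun u : ℝ => Real.cos (x * u)).aestronglyMeasurable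
    · exact ae_of_all _ fun u => by rw [Real.norm_eq_abs]; exact Real.abs_cos_le_one _
  have hs : Integrable (fun u => q u * Real.sin (x * u)) := by
    apply Integrable.mul_bdd (c := 1) hq
    · exact (by fun_prop : Continuous fun u : ℝ => Real.sin (x * u)).aestronglyMeasurable
    · exact ae_of_all _ fun u => by rw [Real.norm_eq_abs]; exact Real.abs_sin_le_one _
  have : (fun u => q u * Real.cos (x * (v - u)))
      = fun u => Real.cos (x * v) * (q u * Real.cos (x * u)) + Real.sin (x * v) * (q u * Real.sin (x * u)) := by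
    ext u
    rw [show x * (v - u) = x * v - x * u by ring, Real.cos_sub]
    ring
  rw [this, integral_add (hc.const_mul _) (hs.const_mul _), integral_const_mul, integral_const_mul,
    integral_mul_sin_eq_zero heven, mul_zero, add_zero]

namespace TestFn

variable {s : ℝ} {φ : ℝ → ℝ}

/-- The kernel `q` with `q * pk a = φ (L · / 2π)`. -/
noncomputable def q (φ : ℝ → ℝ) (a L v : ℝ) : ℝ := (1 / π) * cosT (HB φ (a * L)) (L * v / (2 * π))

lemma q_even (φ : ℝ → ℝ) (a L v : ℝ) : q φ a L (-v) = q φ a L v := by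
  unfold q
  rw [show L * -v / (2 * π) = -(L * v / (2 * π)) by ring, cosT_neg]

lemma continuous_q (hφ : TestFn s φ) (a L : ℝ) : Continuous (q φ a L) := by
  unfold q
  have h := continuous_cosT_of_integrable (hφ.integrable_HB (a * L))
  exact continuous_const.mul (h.comp (by fun_prop))

lemma abs_q_le (hφ : TestFn s φ) (hs : 0 < s) {a L : ℝ} (ha : 0 < a) (hL : 0 < L) (v : ℝ) :
    |q φ a L v| ≤ (2 / π) * (|cosT φ 0| * (a * L) + Real.exp (a * L * s) * A2 s φ) / (L ^ 2 * (a ^ 2 + v ^ 2)) := by
  unfold q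
  rw [abs_mul, abs_of_pos (by positivity : 0 < 1 / π)]
  have h := hφ.abs_cosT_HB_le hs (by positivity : 0 < a * L) (L * v / (2 * π))
  have e : (a * L) ^ 2 + (2 * π * (L * v / (2 * π))) ^ 2 = L ^ 2 * (a ^ 2 + v ^ 2) := by
    field_simp
  rw [e] at h
  calc 1 / π * |cosT (HB φ (a * L)) (L * v / (2 * π))|
      ≤ 1 / π * (2 * (|cosT φ 0| * (a * L) + Real.exp (a * L * s) * A2 s φ) / (L ^ 2 * (a ^ 2 + v ^ 2))) :=
        mul_le_mul_of_nonneg_left h (by positivity)
    _ = _ := by ring

lemma integrable_q (hφ : TestFn s φ) (hs : 0 < s) {a L : ℝ} (ha : 0 < a) (hL : 0 < L) :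
    Integrable (q φ a L) := by
  have h1 : Integrable (fun v : ℝ => ((2 / π) * (|cosT φ 0| * (a * L) + Real.exp (a * L * s) * A2 s φ) / L ^ 2) *
      ((a ^ 2)⁻¹ * (1 + (v / a) ^ 2)⁻¹)) := by
    apply Integrable.const_mul
    apply Integrable.const_mul
    exact integrable_inv_one_add_sq.comp_div ha.ne'
  apply h1.mono' (hφ.continuous_q a L).aestronglyMeasurable
  apply ae_of_all
  intro v
  rw [Real.norm_eq_abs]
  refine (hφ.abs_q_le hs ha hL v).trans (le_of_eq ?_)
  have : 1 + (v / a) ^ 2 ≠ 0 := by positivity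
  have h3 : a ^ 2 + v ^ 2 ≠ 0 := by positivity
  field_simp

lemma integrable_cosT_HB (hφ : TestFn s φ) (hs : 0 < s) {b : ℝ} (hb : 0 < b) :
    Integrable (cosT (HB φ b)) := by
  have h1 : Integrable (fun y : ℝ => (2 * (|cosT φ 0| * b + Real.exp (b * s) * A2 s φ)) *
      ((b ^ 2)⁻¹ * (1 + (y / (b / (2 * π))) ^ 2)⁻¹)) := by
    apply Integrable.const_mul
    apply Integrable.const_mul
    exact integrable_inv_one_add_sq.comp_div (by positivity)
  apply h1.mono' (continuous_cosT_of_integrable (hφ.integrable_HB b)).aestronglyMeasurable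
  apply ae_of_all
  intro y
  rw [Real.norm_eq_abs]
  refine (hφ.abs_cosT_HB_le hs hb y).trans (le_of_eq ?_)
  have h2 : 1 + (y / (b / (2 * π))) ^ 2 ≠ 0 := by positivity
  have h3 : b ^ 2 + (2 * π * y) ^ 2 ≠ 0 := by positivity
  field_simp

lemma integral_q_cos (hφ : TestFn s φ) (hs : 0 < s) {a L : ℝ} (ha : 0 < a) (hL : 0 < L) (ω : ℝ) :
    ∫ v, q φ a L v * Real.cos (ω * v) = (2 / L) * HB φ (a * L) (ω / L) := by
  have hb : 0 < a * L := by positivity
  have hinv := cosT_cosT (hφ.continuous_HB (a * L)) (hφ.integrable_HB (a * L)) (HB_even φ (a * L))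
    (hφ.integrable_cosT_HB hs hb) (ω / L)
  rw [← hinv]
  have h1 : ∀ v : ℝ, q φ a L v * Real.cos (ω * v)
      = (fun y => (1 / π) * (cosT (HB φ (a * L)) y * Real.cos (2 * π * y * (ω / L)))) (L / (2 * π) * v) := by
    intro v
    unfold q
    simp only
    rw [show L / (2 * π) * v = L * v / (2 * π) by ring, mul_assoc]
    congr 3
    field_simp
  rw [integral_congr_ae (ae_of_all _ h1),
    Measure.integral_comp_mul_left (fun y => 1 / π * (cosT (HB φ (a * L)) y * Real.cos (2 * π * y * (ω / L))))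
      (L / (2 * π)), integral_const_mul, smul_eq_mul]
  rw [abs_of_pos (by positivity : 0 < (L / (2 * π))⁻¹)]
  change _ = 2 / L * ∫ y, cosT (HB φ (a * L)) y * Real.cos (2 * π * y * (ω / L))
  generalize (∫ y, cosT (HB φ (a * L)) y * Real.cos (2 * π * y * (ω / L))) = I
  field_simp

/-- `q * pk a = φ (L · / 2π)`. -/
theorem integral_q_pk (hφ : TestFn s φ) (hs : 0 < s) {a L : ℝ} (ha : 0 < a) (hL : 0 < L) (v : ℝ) :
    ∫ u, q φ a L u * pk a (v - u) = φ (L * v / (2 * π)) := by
  have hq := hφ.integrable_q hs ha hL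
  have hexp : Integrable (fun x : ℝ => Real.exp (-(a * x))) (volume.restrict (Ioi 0)) := by
    have h := integrableOn_exp_mul_Ioi (a := -a) (by linarith) 0
    simp only [neg_mul] at h
    exact h
  have h1 : ∀ u, q φ a L u * pk a (v - u)
      = ∫ x in Ioi (0 : ℝ), q φ a L u * (Real.exp (-(a * x)) * Real.cos (x * (v - u))) := by
    intro u
    rw [integral_const_mul, pk_eq ha]
  simp_rw [h1]
  rw [integral_integral_swap]
  · have h2 : ∀ x ∈ Ioi (0 : ℝ), ∫ u, q φ a L u * (Real.exp (-(a * x)) * Real.cos (x * (v - u)))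
        = (2 / L) * (cosT φ (x / L) * Real.cos (x * v)) := by
      intro x hx
      have e : ∀ u, q φ a L u * (Real.exp (-(a * x)) * Real.cos (x * (v - u)))
          = Real.exp (-(a * x)) * (q φ a L u * Real.cos (x * (v - u))) := by intro u; ring
      simp_rw [e]
      rw [integral_const_mul, integral_mul_cos_sub hq (q_even φ a L), hφ.integral_q_cos hs ha hL]
      unfold HB
      rw [abs_of_pos (div_pos hx hL)]
      have e2 : a * L * (x / L) = a * x := by field_simp
      rw [e2]
      have e3 : Real.exp (-(a * x)) * Real.exp (a * x) = 1 := by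
        rw [← Real.exp_add]; simp
      calc Real.exp (-(a * x)) * (Real.cos (x * v) * (2 / L * (cosT φ (x / L) * Real.exp (a * x))))
          = (Real.exp (-(a * x)) * Real.exp (a * x)) * (2 / L * (cosT φ (x / L) * Real.cos (x * v))) := by ring
        _ = _ := by rw [e3, one_mul]
    rw [setIntegral_congr_fun measurableSet_Ioi h2, integral_const_mul]
    have h3 : ∀ x : ℝ, cosT φ (x / L) * Real.cos (x * v)
        = (fun ξ => cosT φ ξ * Real.cos (2 * π * ξ * (L * v / (2 * π)))) (L⁻¹ * x) := by
      intro x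
      simp only
      rw [show L⁻¹ * x = x / L by ring]
      congr 2
      field_simp
    simp_rw [h3]
    rw [integral_comp_mul_left_Ioi (fun ξ => cosT φ ξ * Real.cos (2 * π * ξ * (L * v / (2 * π)))) 0 (inv_pos.mpr hL)]
    rw [mul_zero, inv_inv, smul_eq_mul, ← mul_assoc]
    have h4 := hφ.inversion (L * v / (2 * π))
    have h5 : cosT (cosT φ) (L * v / (2 * π)) = ∫ ξ, (fun ξ => cosT φ ξ * Real.cos (2 * π * ξ * (L * v / (2 * π)))) |ξ| := by
      unfold cosT
      congr 1
      ext ξ
      simp only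
      rcases abs_cases ξ with ⟨h, _⟩ | ⟨h, _⟩
      · rw [h]
      · rw [h]
        have := cosT_neg φ ξ
        unfold cosT at this
        rw [this, show 2 * π * (-ξ) * (L * v / (2 * π)) = -(2 * π * ξ * (L * v / (2 * π))) by ring, Real.cos_neg]
    rw [← h4, h5, integral_comp_abs (f := fun ξ => cosT φ ξ * Real.cos (2 * π * ξ * (L * v / (2 * π))))]
    congr 1
    field_simp
  · have h6 : Integrable (Function.uncurry fun (u x : ℝ) => q φ a L u * Real.exp (-(a * x)))
        (volume.prod (volume.restrict (Ioi 0))) := hq.mul_prod hexp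
    have hcont : Continuous (Function.uncurry fun (u x : ℝ) => q φ a L u * (Real.exp (-(a * x)) * Real.cos (x * (v - u)))) := by
      have := hφ.continuous_q a L
      unfold Function.uncurry
      fun_prop
    apply h6.mono hcont.aestronglyMeasurable
    apply ae_of_all
    rintro ⟨u, x⟩
    simp only [Function.uncurry]
    rw [← mul_assoc, norm_mul (q φ a L u * Real.exp (-(a * x)))]
    apply mul_le_of_le_one_right (norm_nonneg _)
    rw [Real.norm_eq_abs]
    exact Real.abs_cos_le_one _

end TestFn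

end Pool.Agent.H6
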