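import Mathlib
import Pool.Agent.H6.Q

open MeasureTheory Set Filter Topology
open scoped Real Interval

namespace Pool.Agent.H6

lemma integrable_japanese {r : ℝ} (hr : 1 < r) : Integrable (fun u : ℝ => (1 + |u|) ^ (-r)) := by
  have := integrable_one_add_norm (E := ℝ) (μ := volume) (r := r) (by simpa using hr)
  simpa [Real.norm_eq_abs] using this

lemma one_add_abs_sq_le {a : ℝ} (ha : 0 < a) (v : ℝ) :
    (1 + |v|) ^ 2 ≤ 2 * (1 + 1 / a ^ 2) * (a ^ 2 + v ^ 2) := by
  have h1 : (1 + |v|) ^ 2 ≤ 2 * (1 + v ^ 2) := by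
    nlinarith [sq_abs v, sq_nonneg (1 - |v|)]
  have h2 : (1 + 1 / a ^ 2) * (a ^ 2 + v ^ 2) = a ^ 2 + v ^ 2 + 1 + v ^ 2 / a ^ 2 := by
    field_simp
    ring
  have h3 : 0 ≤ v ^ 2 / a ^ 2 := by positivity
  nlinarith [sq_nonneg a]

namespace TestFn

variable {s : ℝ} {φ : ℝ → ℝ}

/-- constant in the decay of `q` -/
noncomputable def Kq (s : ℝ) (φ : ℝ → ℝ) (a : ℝ) : ℝ :=
  (2 / π) * (|cosT φ 0| * a + A2 s φ) * (2 * (1 + 1 / a ^ 2))

lemma Kq_nonneg (hs : 0 < s) (φ : ℝ → ℝ) {a : ℝ} (ha : 0 < a) : 0 ≤ Kq s φ a := by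
  unfold Kq
  have := A2_nonneg hs φ
  positivity

lemma abs_q_le' (hφ : TestFn s φ) (hs : 0 < s) {a L : ℝ} (ha : 0 < a) (hL : 1 ≤ L) (v : ℝ) :
    |q φ a L v| ≤ Kq s φ a * Real.exp (a * L * s) * (1 + |v|) ^ (-(2 : ℝ)) := by
  have hL0 : 0 < L := by linarith
  have hA := A2_nonneg hs φ
  refine (hφ.abs_q_le hs ha hL0 v).trans ?_
  have h1 : (1 + |v|) ^ (-(2 : ℝ)) = ((1 + |v|) ^ 2)⁻¹ := by
    rw [Real.rpow_neg (by positivity)]
    norm_cast
  rw [h1, ← div_eq_mul_inv, div_le_div_iff₀ (by positivity) (by positivity)]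
  have h2 := one_add_abs_sq_le ha v
  have hE : 1 ≤ Real.exp (a * L * s) := Real.one_le_exp (by positivity)
  have h3 : |cosT φ 0| * (a * L) + Real.exp (a * L * s) * A2 s φ
      ≤ (|cosT φ 0| * a + A2 s φ) * Real.exp (a * L * s) * L ^ 2 := by
    have e1 : |cosT φ 0| * (a * L) ≤ |cosT φ 0| * a * (Real.exp (a * L * s) * L ^ 2) := by
      have : L ≤ Real.exp (a * L * s) * L ^ 2 := by nlinarith
      calc |cosT φ 0| * (a * L) = |cosT φ 0| * a * L := by ring
        _ ≤ _ := mul_le_mul_of_nonneg_left this (by positivity)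
    have e2 : Real.exp (a * L * s) * A2 s φ ≤ A2 s φ * (Real.exp (a * L * s) * L ^ 2) := by
      have : Real.exp (a * L * s) ≤ Real.exp (a * L * s) * L ^ 2 :=
        le_mul_of_one_le_right (by positivity) (one_le_pow₀ hL)
      calc Real.exp (a * L * s) * A2 s φ = A2 s φ * Real.exp (a * L * s) := by ring
        _ ≤ _ := mul_le_mul_of_nonneg_left this hA
    calc _ ≤ _ := add_le_add e1 e2
      _ = _ := by ring
  unfold Kq
  calc (2 / π) * (|cosT φ 0| * (a * L) + Real.exp (a * L * s) * A2 s φ) * (1 + |v|) ^ 2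
      ≤ (2 / π) * ((|cosT φ 0| * a + A2 s φ) * Real.exp (a * L * s) * L ^ 2)
        * (2 * (1 + 1 / a ^ 2) * (a ^ 2 + v ^ 2)) := by
        apply mul_le_mul _ h2 (by positivity) (by positivity)
        exact mul_le_mul_of_nonneg_left h3 (by positivity)
    _ = _ := by ring

lemma integrable_q_mul (hφ : TestFn s φ) (hs : 0 < s) {a L : ℝ} (ha : 0 < a) (hL : 1 ≤ L)
    {P : ℝ → ℝ} (hPc : Continuous P) {C : ℝ} (hP : ∀ t, |P t| ≤ C * (1 + |t|) ^ (1 / 2 : ℝ)) (t : ℝ) :
    Integrable (fun u => q φ a L u * P (t - u)) := by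
  have hC : 0 ≤ C := by
    have := (abs_nonneg _).trans (hP 0)
    simpa using this
  have h0 : Integrable (fun u : ℝ => (Kq s φ a * Real.exp (a * L * s) * (C * (1 + |t|) ^ (1 / 2 : ℝ))) *
      (1 + |u|) ^ (-(3 / 2) : ℝ)) := (integrable_japanese (by norm_num)).const_mul _
  apply h0.mono'
  · have := hφ.continuous_q a L
    exact (by fun_prop : Continuous fun u => q φ a L u * P (t - u)).aestronglyMeasurable
  · apply ae_of_all
    intro u
    rw [Real.norm_eq_abs, abs_mul]
    have h1 := hφ.abs_q_le' hs ha hL u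
    have h2 : |P (t - u)| ≤ C * (1 + |t|) ^ (1 / 2 : ℝ) * (1 + |u|) ^ (1 / 2 : ℝ) := by
      refine (hP _).trans ?_
      rw [mul_assoc, ← Real.mul_rpow (by positivity) (by positivity)]
      apply mul_le_mul_of_nonneg_left _ hC
      apply Real.rpow_le_rpow (by positivity) _ (by norm_num)
      have := abs_sub t u
      nlinarith [abs_nonneg t, abs_nonneg u]
    have hK := Kq_nonneg hs φ ha
    calc |q φ a L u| * |P (t - u)| ≤ (Kq s φ a * Real.exp (a * L * s) * (1 + |u|) ^ (-(2 : ℝ)))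
          * (C * (1 + |t|) ^ (1 / 2 : ℝ) * (1 + |u|) ^ (1 / 2 : ℝ)) := by
          apply mul_le_mul h1 h2 (abs_nonneg _) (by positivity)
      _ = (Kq s φ a * Real.exp (a * L * s) * (C * (1 + |t|) ^ (1 / 2 : ℝ)))
          * ((1 + |u|) ^ (-(2 : ℝ)) * (1 + |u|) ^ (1 / 2 : ℝ)) := by ring
      _ = _ := by
          rw [← Real.rpow_add (by positivity)]
          norm_num

/-- Smoothed explicit formula, from the Poisson-kernel identity. -/
theorem hasSum_smooth (hφ : TestFn s φ) (hs : 0 < s) {a L : ℝ} (ha : 0 < a) (hL : 1 ≤ L)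
    {ι : Type*} [Countable ι] {γ w : ι → ℝ} (hw : ∀ i, 0 ≤ w i)
    {P : ℝ → ℝ} (hPc : Continuous P) (hPs : ∀ t, HasSum (fun i => w i * pk a (t - γ i)) (P t))
    {C : ℝ} (hP : ∀ t, |P t| ≤ C * (1 + |t|) ^ (1 / 2 : ℝ)) (t : ℝ) :
    HasSum (fun i => w i * φ (L * (t - γ i) / (2 * π))) (∫ u, q φ a L u * P (t - u)) := by
  have hL0 : 0 < L := by linarith
  have hint : ∀ i, Integrable (fun u => q φ a L u * (w i * pk a (t - u - γ i))) := by
    intro i
    apply Integrable.mul_bdd (c := w i * (1 / a)) (hφ.integrable_q hs ha hL0)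
    · have := continuous_pk ha
      exact (by fun_prop : Continuous fun u => w i * pk a (t - u - γ i)).aestronglyMeasurable
    · apply ae_of_all
      intro u
      rw [Real.norm_eq_abs, abs_mul, abs_of_nonneg (hw i), abs_of_nonneg (pk_nonneg ha _)]
      apply mul_le_mul_of_nonneg_left _ (hw i)
      unfold pk
      rw [div_le_div_iff₀ (by positivity) ha]
      nlinarith [sq_nonneg (t - u - γ i)]
  have hQ := hφ.integrable_q_mul hs ha hL hPc hP t
  have hsum : Summable fun i => ∫ u, ‖q φ a L u * (w i * pk a (t - u - γ i))‖ := by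
    apply summable_of_sum_le (c := ∫ u, |q φ a L u * P (t - u)|)
    · intro i
      exact integral_nonneg fun u => norm_nonneg _
    · intro F
      rw [← integral_finsetSum _ (fun i _ => (hint i).norm)]
      apply integral_mono (integrable_finsetSum _ fun i _ => (hint i).norm) hQ.abs
      intro u
      simp only
      have h1 : ∀ i, ‖q φ a L u * (w i * pk a (t - u - γ i))‖ = |q φ a L u| * (w i * pk a (t - u - γ i)) := by
        intro i
        rw [Real.norm_eq_abs, abs_mul, abs_of_nonneg (mul_nonneg (hw i) (pk_nonneg ha _))]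
      simp_rw [h1]
      rw [← Finset.mul_sum, abs_mul]
      apply mul_le_mul_of_nonneg_left _ (abs_nonneg _)
      refine le_trans ?_ (le_abs_self _)
      exact sum_le_hasSum F (fun i _ => mul_nonneg (hw i) (pk_nonneg ha _)) (hPs (t - u))
  have h := hasSum_integral_of_summable_integral_norm hint hsum
  have e1 : ∀ i, ∫ u, q φ a L u * (w i * pk a (t - u - γ i)) = w i * φ (L * (t - γ i) / (2 * π)) := by
    intro i
    rw [← hφ.integral_q_pk hs ha hL0 (t - γ i), ← integral_const_mul]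
    congr 1
    ext u
    rw [show t - u - γ i = t - γ i - u by ring]
    ring
  have e2 : ∀ u, ∑' i, q φ a L u * (w i * pk a (t - u - γ i)) = q φ a L u * P (t - u) := by
    intro u
    rw [tsum_mul_left, (hPs (t - u)).tsum_eq]
  simp_rw [e1, e2] at h
  exact h

/-- The prime side of the explicit formula. -/
theorem integral_q_dirichlet (hφ : TestFn s φ) (hs : 0 < s) {a L : ℝ} (ha : 0 < a) (hL : 1 ≤ L)
    {c ω : ℕ → ℝ} (hc : Summable fun n => |c n|) (t : ℝ) :
    HasSum (fun n => c n * (Real.cos (t * ω n) * ((2 / L) * HB φ (a * L) (ω n / L))))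
      (∫ u, q φ a L u * ∑' n, c n * Real.cos ((t - u) * ω n)) := by
  have hL0 : 0 < L := by linarith
  have hq := hφ.integrable_q hs ha hL0
  have hint : ∀ n, Integrable (fun u => q φ a L u * (c n * Real.cos ((t - u) * ω n))) := by
    intro n
    apply Integrable.mul_bdd (c := |c n|) hq
    · exact (by fun_prop : Continuous fun u => c n * Real.cos ((t - u) * ω n)).aestronglyMeasurable
    · apply ae_of_all
      intro u
      rw [Real.norm_eq_abs, abs_mul]
      exact mul_le_of_le_one_right (abs_nonneg _) (Real.abs_cos_le_one _)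
  have hsum : Summable fun n => ∫ u, ‖q φ a L u * (c n * Real.cos ((t - u) * ω n))‖ := by
    apply Summable.of_nonneg_of_le (fun n => integral_nonneg fun u => norm_nonneg _) _
      (hc.mul_left (∫ u, |q φ a L u|))
    intro n
    rw [← integral_mul_const]
    apply integral_mono (hint n).norm (hq.abs.mul_const _)
    intro u
    simp only
    rw [Real.norm_eq_abs, abs_mul, abs_mul]
    apply mul_le_mul_of_nonneg_left _ (abs_nonneg _)
    exact mul_le_of_le_one_right (abs_nonneg _) (Real.abs_cos_le_one _)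
  have h := hasSum_integral_of_summable_integral_norm hint hsum
  have e1 : ∀ n, ∫ u, q φ a L u * (c n * Real.cos ((t - u) * ω n))
      = c n * (Real.cos (t * ω n) * ((2 / L) * HB φ (a * L) (ω n / L))) := by
    intro n
    have e : ∀ u, q φ a L u * (c n * Real.cos ((t - u) * ω n))
        = c n * (q φ a L u * Real.cos (ω n * (t - u))) := by
      intro u
      rw [mul_comm (t - u)]
      ring
    simp_rw [e]
    rw [integral_const_mul, integral_mul_cos_sub hq (q_even φ a L), hφ.integral_q_cos hs ha hL0,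
      mul_comm (ω n) t]
  have e2 : ∀ u, ∑' n, q φ a L u * (c n * Real.cos ((t - u) * ω n))
      = q φ a L u * ∑' n, c n * Real.cos ((t - u) * ω n) := by
    intro u
    rw [tsum_mul_left]
  simp_rw [e1, e2] at h
  exact h

lemma integral_q (hφ : TestFn s φ) (hs : 0 < s) {a L : ℝ} (ha : 0 < a) (hL : 0 < L) :
    ∫ v, q φ a L v = (2 / L) * cosT φ 0 := by
  have h := hφ.integral_q_cos hs ha hL 0
  simp only [zero_mul, Real.cos_zero, mul_one] at h
  rw [h]
  unfold HB
  simp

/-- Error of replacing the archimedean convolution by a multiple of the archimedean term. -/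
theorem abs_conv_sub_le (hφ : TestFn s φ) (hs : 0 < s) {a : ℝ} (ha : 0 < a)
    {A : ℝ → ℝ} (hAc : Continuous A) {C0 C : ℝ}
    (hA0 : ∀ t, |A t| ≤ C0 * (1 + |t|) ^ (1 / 2 : ℝ))
    (hA : ∀ t v, |A (t - v) - A t| ≤ C * (1 + |v|) ^ (3 / 4 : ℝ) / (1 + |t|) ^ (1 / 2 : ℝ)) :
    ∃ K, 0 ≤ K ∧ ∀ L, 1 ≤ L → ∀ t,
      |(∫ u, q φ a L u * A (t - u)) - (2 / L) * cosT φ 0 * A t|
        ≤ K * Real.exp (a * L * s) / (1 + |t|) ^ (1 / 2 : ℝ) := by
  have hC : 0 ≤ C := by
    have := (abs_nonneg _).trans (hA 0 0)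
    simpa using this
  have hK := Kq_nonneg hs φ ha
  refine ⟨Kq s φ a * C * ∫ u : ℝ, (1 + |u|) ^ (-(5 / 4) : ℝ), ?_, ?_⟩
  · have : 0 ≤ ∫ u : ℝ, (1 + |u|) ^ (-(5 / 4) : ℝ) := integral_nonneg fun u => by positivity
    positivity
  · intro L hL t
    have hL0 : 0 < L := by linarith
    have hq := hφ.integrable_q hs ha hL0
    have hi1 := hφ.integrable_q_mul hs ha hL hAc hA0 t
    have hi2 : Integrable (fun u => q φ a L u * A t) := hq.mul_const _
    have e1 : (∫ u, q φ a L u * A (t - u)) - (2 / L) * cosT φ 0 * A t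
        = ∫ u, q φ a L u * (A (t - u) - A t) := by
      rw [← hφ.integral_q hs ha hL0, ← integral_mul_const, ← integral_sub hi1 hi2]
      congr 1
      ext u
      ring
    rw [e1]
    have hb : Integrable (fun u : ℝ => (Kq s φ a * Real.exp (a * L * s) * C / (1 + |t|) ^ (1 / 2 : ℝ))
        * (1 + |u|) ^ (-(5 / 4) : ℝ)) := (integrable_japanese (by norm_num)).const_mul _
    calc |∫ u, q φ a L u * (A (t - u) - A t)| ≤ ∫ u, |q φ a L u * (A (t - u) - A t)| :=
          abs_integral_le_integral_abs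
      _ ≤ ∫ u : ℝ, (Kq s φ a * Real.exp (a * L * s) * C / (1 + |t|) ^ (1 / 2 : ℝ))
        * (1 + |u|) ^ (-(5 / 4) : ℝ) := by
          apply integral_mono_of_nonneg (ae_of_all _ fun u => abs_nonneg _) hb
          apply ae_of_all
          intro u
          simp only
          rw [abs_mul]
          calc |q φ a L u| * |A (t - u) - A t|
              ≤ (Kq s φ a * Real.exp (a * L * s) * (1 + |u|) ^ (-(2 : ℝ))) *
                (C * (1 + |u|) ^ (3 / 4 : ℝ) / (1 + |t|) ^ (1 / 2 : ℝ)) := by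
                apply mul_le_mul (hφ.abs_q_le' hs ha hL u) (hA t u) (abs_nonneg _) (by positivity)
            _ = (Kq s φ a * Real.exp (a * L * s) * C / (1 + |t|) ^ (1 / 2 : ℝ)) *
                ((1 + |u|) ^ (-(2 : ℝ)) * (1 + |u|) ^ (3 / 4 : ℝ)) := by ring
            _ = _ := by
                rw [← Real.rpow_add (by positivity)]
                norm_num
      _ = _ := by
          rw [integral_const_mul]
          ring

end TestFn

end Pool.Agent.H6
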