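import Mathlib

open MeasureTheory Set Filter Topology
open scoped Real Interval

namespace Pool.Agent.H6

/-- Average over `[0, T]`. -/
noncomputable def avg (T : ℝ) (f : ℝ → ℝ) : ℝ := (1 / T) * ∫ t in (0 : ℝ)..T, f t

lemma avg_add {T : ℝ} {f g : ℝ → ℝ} (hf : Continuous f) (hg : Continuous g) :
    avg T (fun t => f t + g t) = avg T f + avg T g := by
  unfold avg
  rw [intervalIntegral.integral_add (hf.intervalIntegrable _ _) (hg.intervalIntegrable _ _)]
  ring

lemma avg_const_mul {T : ℝ} {f : ℝ → ℝ} (c : ℝ) :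
    avg T (fun t => c * f t) = c * avg T f := by
  unfold avg
  rw [intervalIntegral.integral_const_mul]
  ring

lemma avg_mono {T : ℝ} (hT : 0 < T) {f g : ℝ → ℝ} (hf : Continuous f) (hg : Continuous g)
    (h : ∀ t ∈ Icc 0 T, f t ≤ g t) : avg T f ≤ avg T g := by
  unfold avg
  apply mul_le_mul_of_nonneg_left _ (by positivity)
  exact intervalIntegral.integral_mono_on hT.le (hf.intervalIntegrable _ _) (hg.intervalIntegrable _ _) h

lemma avg_nonneg {T : ℝ} (hT : 0 < T) {f : ℝ → ℝ} (h : ∀ t, 0 ≤ f t) : 0 ≤ avg T f := by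
  unfold avg
  have : 0 ≤ ∫ t in (0 : ℝ)..T, f t := intervalIntegral.integral_nonneg hT.le fun t _ => h t
  positivity

/-- Cauchy-Schwarz for averages. -/
lemma avg_mul_sq_le {T : ℝ} (hT : 0 < T) {f g : ℝ → ℝ} (hf : Continuous f) (hg : Continuous g) :
    (avg T (fun t => f t * g t)) ^ 2 ≤ avg T (fun t => f t ^ 2) * avg T (fun t => g t ^ 2) := by
  have key : ∀ x : ℝ, 0 ≤ avg T (fun t => f t ^ 2) * (x * x) + (2 * avg T (fun t => f t * g t)) * x
      + avg T (fun t => g t ^ 2) := by
    intro x
    have h1 : avg T (fun t => (x * f t + g t) ^ 2) = avg T (fun t => f t ^ 2) * (x * x)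
        + (2 * avg T (fun t => f t * g t)) * x + avg T (fun t => g t ^ 2) := by
      have e : (fun t => (x * f t + g t) ^ 2) = fun t => (x * x) * (f t ^ 2) + ((2 * x) * (f t * g t) + g t ^ 2) := by
        ext t; ring
      rw [e, avg_add (by fun_prop) (by fun_prop), avg_add (by fun_prop) (by fun_prop), avg_const_mul,
        avg_const_mul]
      ring
    rw [← h1]
    exact avg_nonneg hT fun t => sq_nonneg _
  have := discrim_le_zero key
  unfold discrim at this
  nlinarith

/-- If `S = X + δ` with `avg X² → ℓ` and `avg δ² → 0` then `avg S² → ℓ`. -/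
lemma tendsto_avg_sq {S X δ : ℝ → ℝ → ℝ} {ℓ : ℝ}
    (hX : ∀ᶠ T in atTop, Continuous (X T)) (hδ : ∀ᶠ T in atTop, Continuous (δ T))
    (hS : ∀ᶠ T in atTop, ∀ t ∈ Icc 0 T, S T t = X T t + δ T t)
    (hXl : Tendsto (fun T => avg T (fun t => X T t ^ 2)) atTop (𝓝 ℓ))
    (hδl : Tendsto (fun T => avg T (fun t => δ T t ^ 2)) atTop (𝓝 0)) :
    Tendsto (fun T => avg T (fun t => S T t ^ 2)) atTop (𝓝 ℓ) := by
  have hcross : Tendsto (fun T => avg T (fun t => X T t * δ T t)) atTop (𝓝 0) := by
    have h1 : Tendsto (fun T => (avg T (fun t => X T t * δ T t)) ^ 2) atTop (𝓝 0) := by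
      have h2 : Tendsto (fun T => avg T (fun t => X T t ^ 2) * avg T (fun t => δ T t ^ 2)) atTop (𝓝 0) := by
        simpa using hXl.mul hδl
      apply squeeze_zero' _ _ h2
      · exact Eventually.of_forall fun T => sq_nonneg _
      · filter_upwards [hX, hδ, eventually_gt_atTop 0] with T h1 h2 h3
        exact avg_mul_sq_le h3 h1 h2
    have h3 := h1.sqrt
    simp only [Real.sqrt_sq_eq_abs, Real.sqrt_zero] at h3
    exact (tendsto_zero_iff_abs_tendsto_zero _).mpr h3
  have h4 : Tendsto (fun T => avg T (fun t => X T t ^ 2) + (2 * avg T (fun t => X T t * δ T t)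
      + avg T (fun t => δ T t ^ 2))) atTop (𝓝 ℓ) := by
    have := hXl.add ((hcross.const_mul 2).add hδl)
    simpa using this
  apply h4.congr'
  filter_upwards [hX, hδ, hS, eventually_gt_atTop 0] with T h1 h2 h3 h5
  have e : avg T (fun t => S T t ^ 2) = avg T (fun t => X T t ^ 2 + ((2 * (X T t * δ T t)) + δ T t ^ 2)) := by
    unfold avg
    congr 1
    apply intervalIntegral.integral_congr
    intro t ht
    rw [uIcc_of_le h5.le] at ht
    simp only
    rw [h3 t ht]
    ring
  rw [e, avg_add (by fun_prop) (by fun_prop), avg_add (by fun_prop) (by fun_prop), avg_const_mul]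

/-- If `S = X + δ` with `avg X → ℓ` and `avg δ² → 0` then `avg S → ℓ`. -/
lemma tendsto_avg {S X δ : ℝ → ℝ → ℝ} {ℓ : ℝ}
    (hX : ∀ᶠ T in atTop, Continuous (X T)) (hδ : ∀ᶠ T in atTop, Continuous (δ T))
    (hS : ∀ᶠ T in atTop, ∀ t ∈ Icc 0 T, S T t = X T t + δ T t)
    (hXl : Tendsto (fun T => avg T (X T)) atTop (𝓝 ℓ))
    (hδl : Tendsto (fun T => avg T (fun t => δ T t ^ 2)) atTop (𝓝 0)) :
    Tendsto (fun T => avg T (S T)) atTop (𝓝 ℓ) := by
  have hd : Tendsto (fun T => avg T (δ T)) atTop (𝓝 0) := by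
    have h1 : Tendsto (fun T => (avg T (δ T)) ^ 2) atTop (𝓝 0) := by
      apply squeeze_zero' _ _ hδl
      · exact Eventually.of_forall fun T => sq_nonneg _
      · filter_upwards [hδ, eventually_gt_atTop 0] with T h2 h3
        have := avg_mul_sq_le h3 (continuous_const (y := (1 : ℝ))) h2
        simp only [one_mul, one_pow] at this
        have e : avg T (fun _ => (1 : ℝ)) = 1 := by
          unfold avg
          simp
          field_simp
        rw [e, one_mul] at this
        exact this
    have h3 := h1.sqrt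
    simp only [Real.sqrt_sq_eq_abs, Real.sqrt_zero] at h3
    exact (tendsto_zero_iff_abs_tendsto_zero _).mpr h3
  have h4 : Tendsto (fun T => avg T (X T) + avg T (δ T)) atTop (𝓝 ℓ) := by
    simpa using hXl.add hd
  apply h4.congr'
  filter_upwards [hX, hδ, hS, eventually_gt_atTop 0] with T h1 h2 h3 h5
  rw [← avg_add h1 h2]
  unfold avg
  congr 1
  apply intervalIntegral.integral_congr
  intro t ht
  rw [uIcc_of_le h5.le] at ht
  simp only
  rw [h3 t ht]

/-- A convenient bound for the logarithm. -/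
lemma log_le_four_rpow {x : ℝ} (hx : 0 ≤ x) : Real.log x ≤ 4 * x ^ (1 / 4 : ℝ) := by
  have := Real.log_le_rpow_div hx (by norm_num : (0 : ℝ) < 1 / 4)
  linarith

lemma avg_inv_rpow_half {T : ℝ} (hT : 1 ≤ T) :
    avg T (fun t => (1 + |t|) ^ (-(1 / 2) : ℝ)) ≤ 4 * T ^ (-(1 / 2) : ℝ) := by
  have hT0 : 0 < T := by linarith
  unfold avg
  have h1 : ∫ t in (0 : ℝ)..T, (1 + |t|) ^ (-(1 / 2) : ℝ) = ∫ t in (0 : ℝ)..T, (1 + t) ^ (-(1 / 2) : ℝ) := by
    apply intervalIntegral.integral_congr
    intro t ht
    rw [uIcc_of_le hT0.le] at ht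
    simp only
    rw [abs_of_nonneg ht.1]
  rw [h1]
  have h2 : ∫ t in (0 : ℝ)..T, (1 + t) ^ (-(1 / 2) : ℝ) = 2 * ((1 + T) ^ (1 / 2 : ℝ) - 1) := by
    have := intervalIntegral.integral_comp_add_left (fun x : ℝ => x ^ (-(1 / 2) : ℝ)) (a := 0) (b := T) 1
    rw [this, integral_rpow (Or.inl (by norm_num))]
    norm_num
    ring
  rw [h2]
  have h3 : (1 + T) ^ (1 / 2 : ℝ) ≤ (4 * T) ^ (1 / 2 : ℝ) := by
    apply Real.rpow_le_rpow (by positivity) (by linarith) (by norm_num)
  have h4 : (4 * T) ^ (1 / 2 : ℝ) = 2 * T ^ (1 / 2 : ℝ) := by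
    rw [Real.mul_rpow (by norm_num) (by positivity)]
    congr 1
    rw [show (4 : ℝ) = 2 ^ (2 : ℝ) by norm_num, ← Real.rpow_mul (by norm_num)]
    norm_num
  have h5 : T ^ (-(1 / 2) : ℝ) = (1 / T) * T ^ (1 / 2 : ℝ) := by
    rw [show (1 / T) = T ^ (-1 : ℝ) by rw [Real.rpow_neg_one, one_div], ← Real.rpow_add hT0]
    norm_num
  rw [h5]
  calc 1 / T * (2 * ((1 + T) ^ (1 / 2 : ℝ) - 1)) ≤ 1 / T * (4 * T ^ (1 / 2 : ℝ)) := by
        apply mul_le_mul_of_nonneg_left _ (by positivity)
        linarith
    _ = _ := by ring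

/-- `avg` of the squared error from the convolution. -/
lemma tendsto_avg_err {a s K : ℝ} (has : 2 * a * s < 1)
    {e : ℝ → ℝ → ℝ} (hec : ∀ᶠ T in atTop, Continuous (e T))
    (he : ∀ᶠ T in atTop, ∀ t, |e T t| ≤ K * Real.exp (a * Real.log T * s) / (1 + |t|) ^ (1 / 2 : ℝ)) :
    Tendsto (fun T => avg T (fun t => e T t ^ 2)) atTop (𝓝 0) := by
  -- bound by K² T^{2as} * avg (1+|t|)^{-1}, and (1+|t|)^{-1} is handled by log
  have hb : Tendsto (fun T : ℝ => K ^ 2 * (T ^ (2 * a * s - 1) * Real.log (1 + T))) atTop (𝓝 0) := by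
    have h1 : Tendsto (fun T : ℝ => T ^ (2 * a * s - 1) * Real.log (1 + T)) atTop (𝓝 0) := by
      set η := (1 - 2 * a * s) / 2 with hη
      have hηpos : 0 < η := by rw [hη]; linarith
      have h2 : Tendsto (fun T : ℝ => (2 / η * 2 ^ η) * T ^ (-η)) atTop (𝓝 0) := by
        have := (tendsto_rpow_neg_atTop hηpos).const_mul (2 / η * 2 ^ η)
        simpa using this
      apply squeeze_zero' _ _ h2
      · filter_upwards [eventually_ge_atTop 1] with T hT
        have : 0 ≤ Real.log (1 + T) := Real.log_nonneg (by linarith)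
        positivity
      · filter_upwards [eventually_ge_atTop 1] with T hT
        have hT0 : 0 < T := by linarith
        have h3 : Real.log (1 + T) ≤ (2 / η * 2 ^ η) * T ^ η := by
          calc Real.log (1 + T) ≤ (1 + T) ^ η / η := Real.log_le_rpow_div (by positivity) hηpos
            _ ≤ (2 * T) ^ η / η := by
                apply div_le_div_of_nonneg_right _ hηpos.le
                exact Real.rpow_le_rpow (by positivity) (by linarith) hηpos.le
            _ = (1 / η * 2 ^ η) * T ^ η := by
                rw [Real.mul_rpow (by norm_num) hT0.le]; ring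
            _ ≤ (2 / η * 2 ^ η) * T ^ η := by
                apply mul_le_mul_of_nonneg_right _ (by positivity)
                apply mul_le_mul_of_nonneg_right _ (by positivity)
                apply div_le_div_of_nonneg_right (by norm_num) hηpos.le
        calc T ^ (2 * a * s - 1) * Real.log (1 + T) ≤ T ^ (2 * a * s - 1) * ((2 / η * 2 ^ η) * T ^ η) :=
              mul_le_mul_of_nonneg_left h3 (by positivity)
          _ = (2 / η * 2 ^ η) * (T ^ (2 * a * s - 1) * T ^ η) := by ring
          _ = (2 / η * 2 ^ η) * T ^ (-η) := by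
              rw [← Real.rpow_add hT0]
              congr 2
              rw [hη]; ring
    simpa using h1.const_mul (K ^ 2)
  apply squeeze_zero' _ _ hb
  · filter_upwards [eventually_gt_atTop 0] with T hT
    exact avg_nonneg hT fun t => sq_nonneg _
  · filter_upwards [hec, he, eventually_ge_atTop 1] with T h1 h2 hT
    have hT0 : 0 < T := by linarith
    have hexp : Real.exp (a * Real.log T * s) = T ^ (a * s) := by
      rw [Real.rpow_def_of_pos hT0]; congr 1; ring
    have h3 : avg T (fun t => e T t ^ 2) ≤ avg T (fun t => (K ^ 2 * T ^ (2 * a * s)) * (1 + |t|)⁻¹) := by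
      apply avg_mono hT0 (by fun_prop)
      · apply Continuous.mul continuous_const
        apply Continuous.inv₀ (by fun_prop)
        intro t; positivity
      · intro t _
        have h4 := h2 t
        rw [hexp] at h4
        rw [← sq_abs]
        have h5 : |e T t| ^ 2 ≤ (K * T ^ (a * s) / (1 + |t|) ^ (1 / 2 : ℝ)) ^ 2 :=
          pow_le_pow_left₀ (abs_nonneg _) h4 2
        refine h5.trans (le_of_eq ?_)
        have e1 : ((1 + |t|) ^ (1 / 2 : ℝ)) ^ 2 = 1 + |t| := by
          rw [← Real.rpow_natCast, ← Real.rpow_mul (by positivity)]; norm_num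
        have e2 : (T ^ (a * s)) ^ 2 = T ^ (2 * a * s) := by
          rw [← Real.rpow_natCast, ← Real.rpow_mul hT0.le]; congr 1; push_cast; ring
        rw [div_pow, mul_pow, e1, e2]
        rfl
    refine h3.trans ?_
    rw [avg_const_mul]
    unfold avg
    have h4 : ∫ t in (0 : ℝ)..T, (1 + |t|)⁻¹ = Real.log (1 + T) := by
      have h5 : ∫ t in (0 : ℝ)..T, (1 + |t|)⁻¹ = ∫ t in (0 : ℝ)..T, (1 + t)⁻¹ := by
        apply intervalIntegral.integral_congr
        intro t ht
        rw [uIcc_of_le hT0.le] at ht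
        simp only
        rw [abs_of_nonneg ht.1]
      rw [h5, intervalIntegral.integral_comp_add_left (fun x : ℝ => x⁻¹) 1, integral_inv_of_pos (by norm_num) (by positivity)]
      simp
    rw [h4]
    apply le_of_eq
    have h6 : T ^ (2 * a * s - 1) = T ^ (2 * a * s) * (1 / T) := by
      rw [Real.rpow_sub hT0, Real.rpow_one]; ring
    rw [h6]
    ring

/-- The archimedean main term is `≈ 1` in mean square. -/
lemma tendsto_avg_arch {A : ℝ → ℝ} (hAc : Continuous A) {C : ℝ}
    (hA : ∀ t, |A t - (1 / 2) * Real.log (1 + |t|)| ≤ C) :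
    Tendsto (fun T => avg T (fun t => ((2 / Real.log T) * A t - 1) ^ 2)) atTop (𝓝 0) := by
  have hC : 0 ≤ C := (abs_nonneg _).trans (hA 0)
  have hlog := Real.tendsto_log_atTop
  have hb : Tendsto (fun T : ℝ => (8 * C ^ 2 + 4 + 256) / (Real.log T) ^ 2) atTop (𝓝 0) := by
    apply Tendsto.const_div_atTop
    exact (tendsto_pow_atTop (by norm_num)).comp hlog
  apply squeeze_zero' _ _ hb
  · filter_upwards [eventually_gt_atTop 0] with T hT
    exact avg_nonneg hT fun t => sq_nonneg _
  · filter_upwards [eventually_ge_atTop 1, hlog.eventually_ge_atTop 1] with T hT hL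
    have hT0 : 0 < T := by linarith
    have hL0 : 0 < Real.log T := by linarith
    have h1 : avg T (fun t => ((2 / Real.log T) * A t - 1) ^ 2)
        ≤ avg T (fun t => (1 / (Real.log T) ^ 2) * ((8 * C ^ 2 + 4) + (64 * T ^ (1 / 2 : ℝ)) * (1 + |t|) ^ (-(1 / 2) : ℝ))) := by
      apply avg_mono hT0 (by fun_prop)
      · apply Continuous.mul continuous_const
        apply Continuous.add continuous_const
        apply Continuous.mul continuous_const
        apply Continuous.rpow_const (by fun_prop)
        intro t; left; positivity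
      · intro t ht
        have ht0 : 0 ≤ t := ht.1
        have htT : t ≤ T := ht.2
        have e1 : (2 / Real.log T) * A t - 1
            = (1 / Real.log T) * (2 * (A t - (1 / 2) * Real.log (1 + |t|)) + (Real.log (1 + |t|) - Real.log T)) := by
          field_simp
          ring
        rw [e1, mul_pow, div_pow, one_pow]
        apply mul_le_mul_of_nonneg_left _ (by positivity)
        have h2 := hA t
        have h3 : |Real.log (1 + |t|) - Real.log T| ≤ 1 + 4 * (T / (1 + |t|)) ^ (1 / 4 : ℝ) := by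
          rw [abs_of_nonneg ht0]
          rw [abs_le]
          constructor
          · have h5 : Real.log (T / (1 + t)) ≤ 4 * (T / (1 + t)) ^ (1 / 4 : ℝ) := log_le_four_rpow (by positivity)
            rw [Real.log_div (by positivity) (by positivity)] at h5
            linarith
          · have h5 : Real.log (1 + t) ≤ Real.log (2 * T) := Real.log_le_log (by positivity) (by linarith)
            rw [Real.log_mul (by norm_num) (by positivity)] at h5
            have h6 : Real.log 2 ≤ 1 := by
              have := Real.log_two_lt_d9; linarith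
            have h7 : 0 ≤ 4 * (T / (1 + t)) ^ (1 / 4 : ℝ) := by positivity
            linarith
        set y := (T / (1 + |t|)) ^ (1 / 4 : ℝ) with hy
        have hy0 : 0 ≤ y := by rw [hy]; positivity
        have hy2 : y ^ 2 = T ^ (1 / 2 : ℝ) * (1 + |t|) ^ (-(1 / 2) : ℝ) := by
          rw [hy, ← Real.rpow_natCast, ← Real.rpow_mul (by positivity), Real.div_rpow (by positivity) (by positivity),
            Real.rpow_neg (by positivity), div_eq_mul_inv]
          norm_num
        have h8 : |2 * (A t - (1 / 2) * Real.log (1 + |t|)) + (Real.log (1 + |t|) - Real.log T)|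
            ≤ 2 * C + (1 + 4 * y) := by
          refine (abs_add_le _ _).trans (add_le_add ?_ h3)
          rw [abs_mul, abs_of_pos (by norm_num : (0 : ℝ) < 2)]
          linarith
        rw [← sq_abs]
        calc |2 * (A t - (1 / 2) * Real.log (1 + |t|)) + (Real.log (1 + |t|) - Real.log T)| ^ 2
            ≤ (2 * C + (1 + 4 * y)) ^ 2 := pow_le_pow_left₀ (abs_nonneg _) h8 2
          _ ≤ 8 * C ^ 2 + 4 + 64 * y ^ 2 := by nlinarith [sq_nonneg (2 * C - (1 + 4 * y)), sq_nonneg (1 - 4 * y)]
          _ = _ := by rw [hy2]; ring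
    refine h1.trans ?_
    rw [avg_const_mul, avg_add continuous_const, avg_const_mul]
    · have e2 : avg T (fun _ => 8 * C ^ 2 + 4) = 8 * C ^ 2 + 4 := by
        unfold avg
        simp
        field_simp
      rw [e2]
      have h9 := avg_inv_rpow_half hT
      have h10 : 64 * T ^ (1 / 2 : ℝ) * avg T (fun t => (1 + |t|) ^ (-(1 / 2) : ℝ)) ≤ 256 := by
        calc 64 * T ^ (1 / 2 : ℝ) * avg T (fun t => (1 + |t|) ^ (-(1 / 2) : ℝ))
            ≤ 64 * T ^ (1 / 2 : ℝ) * (4 * T ^ (-(1 / 2) : ℝ)) :=
              mul_le_mul_of_nonneg_left h9 (by positivity)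
          _ = 256 * (T ^ (1 / 2 : ℝ) * T ^ (-(1 / 2) : ℝ)) := by ring
          _ = 256 := by
              rw [← Real.rpow_add hT0]
              norm_num
      rw [div_mul_eq_mul_div, one_mul]
      apply div_le_div_of_nonneg_right _ (by positivity)
      linarith
    · apply Continuous.mul continuous_const
      apply Continuous.rpow_const (by fun_prop)
      intro t; left; positivity

end Pool.Agent.H6
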