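import Mathlib
import Pool.Agent.H6.Edges
import Pool.Agent.H6.Explicit
import Pool.Agent.H6.MeanSq

open MeasureTheory Set Filter Topology
open scoped Real Interval

namespace Pool.Agent.H6

namespace TestFn

variable {s : ℝ} {φ : ℝ → ℝ}

lemma continuous_conv (hφ : TestFn s φ) (hs : 0 < s) {a L : ℝ} (ha : 0 < a) (hL : 1 ≤ L)
    {P : ℝ → ℝ} (hPc : Continuous P) {C : ℝ} (hP : ∀ t, |P t| ≤ C * (1 + |t|) ^ (1 / 2 : ℝ)) :
    Continuous (fun t => ∫ u, q φ a L u * P (t - u)) := by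
  have hC : 0 ≤ C := by
    have := (abs_nonneg _).trans (hP 0)
    simpa using this
  have hK := Kq_nonneg hs φ ha
  have hqc := hφ.continuous_q a L
  rw [continuous_iff_continuousAt]
  intro t0
  apply continuousAt_of_dominated (bound := fun u =>
    (Kq s φ a * Real.exp (a * L * s) * (C * (2 + |t0|) ^ (1 / 2 : ℝ))) * (1 + |u|) ^ (-(3 / 2) : ℝ))
  · apply Eventually.of_forall
    intro t
    exact (by fun_prop : Continuous fun u => q φ a L u * P (t - u)).aestronglyMeasurable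
  · have hnb : ∀ᶠ t in 𝓝 t0, |t - t0| < 1 := by
      have : Continuous fun t : ℝ => |t - t0| := by fun_prop
      have h := this.tendsto t0
      simp only [sub_self, abs_zero] at h
      exact h.eventually (gt_mem_nhds one_pos)
    filter_upwards [hnb] with t ht
    apply ae_of_all
    intro u
    rw [Real.norm_eq_abs, abs_mul]
    have h1 := hφ.abs_q_le' hs ha hL u
    have h2 : |P (t - u)| ≤ C * (2 + |t0|) ^ (1 / 2 : ℝ) * (1 + |u|) ^ (1 / 2 : ℝ) := by
      refine (hP _).trans ?_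
      rw [mul_assoc, ← Real.mul_rpow (by positivity) (by positivity)]
      apply mul_le_mul_of_nonneg_left _ hC
      apply Real.rpow_le_rpow (by positivity) _ (by norm_num)
      have h3 := abs_sub t u
      have h4 : |t| ≤ 1 + |t0| := by
        have := abs_sub_abs_le_abs_sub t t0
        linarith
      nlinarith [abs_nonneg t0, abs_nonneg u]
    calc |q φ a L u| * |P (t - u)| ≤ (Kq s φ a * Real.exp (a * L * s) * (1 + |u|) ^ (-(2 : ℝ)))
          * (C * (2 + |t0|) ^ (1 / 2 : ℝ) * (1 + |u|) ^ (1 / 2 : ℝ)) := by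
          apply mul_le_mul h1 h2 (abs_nonneg _) (by positivity)
      _ = (Kq s φ a * Real.exp (a * L * s) * (C * (2 + |t0|) ^ (1 / 2 : ℝ)))
          * ((1 + |u|) ^ (-(2 : ℝ)) * (1 + |u|) ^ (1 / 2 : ℝ)) := by ring
      _ = _ := by
          rw [← Real.rpow_add (by positivity)]
          norm_num
  · exact (integrable_japanese (by norm_num)).const_mul _
  · apply ae_of_all
    intro u
    fun_prop

end TestFn

/-- The prime polynomial. -/
noncomputable def WW (φ : ℝ → ℝ) (L t : ℝ) : ℝ :=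
  (2 / L) * ∑' n : ℕ, (ArithmeticFunction.vonMangoldt n * (n : ℝ) ^ (-(1 / 2) : ℝ) * cosT φ (Real.log n / L))
    * Real.cos (t * Real.log n)

/-- coefficients -/
noncomputable def bb (φ : ℝ → ℝ) (L : ℝ) (n : ℕ) : ℝ :=
  ArithmeticFunction.vonMangoldt n * (n : ℝ) ^ (-(1 / 2) : ℝ) * cosT φ (Real.log n / L)

lemma bb_eq_zero {s : ℝ} {φ : ℝ → ℝ} (hφ : TestFn s φ) {L : ℝ} (hL : 0 < L) {n : ℕ}
    (hn : n ∉ Finset.Icc 2 ⌊Real.exp (s * L)⌋₊) : bb φ L n = 0 := by
  unfold bb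
  rw [Finset.mem_Icc, not_and_or, not_le, not_le] at hn
  rcases hn with hn | hn
  · interval_cases n <;> simp
  · rw [hφ.supp, mul_zero]
    have h1 : Real.exp (s * L) < n := (Nat.floor_lt (by positivity)).mp hn
    have h2 : s * L < Real.log n := by
      rwa [Real.lt_log_iff_exp_lt (lt_trans (by positivity) h1)]
    have h3 : s ≤ Real.log n / L := by
      rw [le_div_iff₀ hL]; exact h2.le
    exact h3.trans (le_abs_self _)

lemma WW_eq_sum {s : ℝ} {φ : ℝ → ℝ} (hφ : TestFn s φ) {L : ℝ} (hL : 0 < L) (t : ℝ) :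
    WW φ L t = (2 / L) * ∑ n ∈ Finset.Icc 2 ⌊Real.exp (s * L)⌋₊, bb φ L n * Real.cos (t * Real.log n) := by
  unfold WW
  congr 1
  apply tsum_eq_sum
  intro n hn
  have := bb_eq_zero hφ hL hn
  unfold bb at this
  rw [this, zero_mul]

lemma continuous_WW {s : ℝ} {φ : ℝ → ℝ} (hφ : TestFn s φ) {L : ℝ} (hL : 0 < L) : Continuous (WW φ L) := by
  have : WW φ L = fun t => (2 / L) * ∑ n ∈ Finset.Icc 2 ⌊Real.exp (s * L)⌋₊, bb φ L n * Real.cos (t * Real.log n) := by
    ext t; exact WW_eq_sum hφ hL t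
  rw [this]
  fun_prop

/-- Analytic input: the Poisson identity for the zeros for one value of `a`, with the estimates of
the archimedean term. -/
structure PoissonInput {ι : Type*} (γ w : ι → ℝ) (a : ℝ) (A : ℝ → ℝ) : Prop where
  a_pos : 0 < a
  w_nonneg : ∀ i, 0 ≤ w i
  cont : Continuous A
  hasSum : ∀ t, HasSum (fun i => w i * pk a (t - γ i)) (A t - ∑' n : ℕ,
    ArithmeticFunction.vonMangoldt n * (n : ℝ) ^ (-(1 / 2 + a)) * Real.cos (t * Real.log n))
  summable_dir : Summable fun n : ℕ => ArithmeticFunction.vonMangoldt n * (n : ℝ) ^ (-(1 / 2 + a))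
  arch1 : ∃ C, ∀ t, |A t - (1 / 2) * Real.log (1 + |t|)| ≤ C
  arch2 : ∃ C, ∀ t v, |A (t - v) - A t| ≤ C * (1 + |v|) ^ (3 / 4 : ℝ) / (1 + |t|) ^ (1 / 2 : ℝ)

namespace PoissonInput

variable {ι : Type*} {γ w : ι → ℝ} {a : ℝ} {A : ℝ → ℝ}

lemma bound_A (hP : PoissonInput γ w a A) : ∃ C, 0 ≤ C ∧ ∀ t, |A t| ≤ C * (1 + |t|) ^ (1 / 4 : ℝ) := by
  obtain ⟨C, hC⟩ := hP.arch1
  have hC0 : 0 ≤ C := (abs_nonneg _).trans (hC 0)
  refine ⟨C + 2, by linarith, fun t => ?_⟩
  have h1 := hC t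
  have h2 : Real.log (1 + |t|) ≤ 4 * (1 + |t|) ^ (1 / 4 : ℝ) := log_le_four_rpow (by positivity)
  have h3 : 0 ≤ Real.log (1 + |t|) := Real.log_nonneg (by linarith [abs_nonneg t])
  have h4 : 1 ≤ (1 + |t|) ^ (1 / 4 : ℝ) := Real.one_le_rpow (by linarith [abs_nonneg t]) (by norm_num)
  calc |A t| = |(A t - (1 / 2) * Real.log (1 + |t|)) + (1 / 2) * Real.log (1 + |t|)| := by ring_nf
    _ ≤ C + (1 / 2) * Real.log (1 + |t|) := by
        refine (abs_add_le _ _).trans (add_le_add h1 ?_)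
        rw [abs_of_nonneg (by positivity)]
    _ ≤ C * (1 + |t|) ^ (1 / 4 : ℝ) + 2 * (1 + |t|) ^ (1 / 4 : ℝ) := by
        apply add_le_add
        · exact le_mul_of_one_le_right hC0 h4
        · linarith
    _ = _ := by ring

lemma rpow_quarter_le_half (t : ℝ) : (1 + |t|) ^ (1 / 4 : ℝ) ≤ (1 + |t|) ^ (1 / 2 : ℝ) :=
  Real.rpow_le_rpow_of_exponent_le (by linarith [abs_nonneg t]) (by norm_num)

/-- The Dirichlet series part. -/
noncomputable def DD (a t : ℝ) : ℝ := ∑' n : ℕ,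
    ArithmeticFunction.vonMangoldt n * (n : ℝ) ^ (-(1 / 2 + a)) * Real.cos (t * Real.log n)

lemma coeff_nonneg (a : ℝ) (n : ℕ) : 0 ≤ ArithmeticFunction.vonMangoldt n * (n : ℝ) ^ (-(1 / 2 + a)) :=
  mul_nonneg ArithmeticFunction.vonMangoldt_nonneg (by positivity)

lemma abs_DD_le (hP : PoissonInput γ w a A) (t : ℝ) :
    |DD a t| ≤ ∑' n : ℕ, ArithmeticFunction.vonMangoldt n * (n : ℝ) ^ (-(1 / 2 + a)) := by
  unfold DD
  have hb : ∀ n : ℕ, ‖ArithmeticFunction.vonMangoldt n * (n : ℝ) ^ (-(1 / 2 + a)) * Real.cos (t * Real.log n)‖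
      ≤ ArithmeticFunction.vonMangoldt n * (n : ℝ) ^ (-(1 / 2 + a)) := by
    intro n
    rw [Real.norm_eq_abs, abs_mul, abs_of_nonneg (coeff_nonneg a n)]
    exact mul_le_of_le_one_right (coeff_nonneg a n) (Real.abs_cos_le_one _)
  exact tsum_of_norm_bounded hP.summable_dir.hasSum hb

lemma continuous_DD (hP : PoissonInput γ w a A) : Continuous (DD a) := by
  unfold DD
  apply continuous_tsum (u := fun n : ℕ => ArithmeticFunction.vonMangoldt n * (n : ℝ) ^ (-(1 / 2 + a)))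
  · intro n; fun_prop
  · exact hP.summable_dir
  · intro n t
    rw [Real.norm_eq_abs, abs_mul, abs_of_nonneg (coeff_nonneg a n)]
    exact mul_le_of_le_one_right (coeff_nonneg a n) (Real.abs_cos_le_one _)

lemma bound_P (hP : PoissonInput γ w a A) : ∃ C, 0 ≤ C ∧ ∀ t, |A t - DD a t| ≤ C * (1 + |t|) ^ (1 / 4 : ℝ) := by
  obtain ⟨C, hC0, hC⟩ := hP.bound_A
  set M := ∑' n : ℕ, ArithmeticFunction.vonMangoldt n * (n : ℝ) ^ (-(1 / 2 + a)) with hM
  have hM0 : 0 ≤ M := tsum_nonneg (coeff_nonneg a)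
  refine ⟨C + M, by positivity, fun t => ?_⟩
  have h4 : 1 ≤ (1 + |t|) ^ (1 / 4 : ℝ) := Real.one_le_rpow (by linarith [abs_nonneg t]) (by norm_num)
  calc |A t - DD a t| ≤ |A t| + |DD a t| := abs_sub _ _
    _ ≤ C * (1 + |t|) ^ (1 / 4 : ℝ) + M * (1 + |t|) ^ (1 / 4 : ℝ) :=
        add_le_add (hC t) ((hP.abs_DD_le t).trans (le_mul_of_one_le_right hM0 h4))
    _ = _ := by ring

/-- **Explicit formula**. -/
theorem explicit [Countable ι] (hP : PoissonInput γ w a A) {s : ℝ} {φ : ℝ → ℝ} (hφ : TestFn s φ) (hs : 0 < s)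
    {L : ℝ} (hL : 1 ≤ L) (t : ℝ) :
    HasSum (fun i => w i * φ (L * (t - γ i) / (2 * π)))
      ((∫ u, TestFn.q φ a L u * A (t - u)) - WW φ L t) := by
  have hL0 : 0 < L := by linarith
  obtain ⟨C, hC0, hC⟩ := hP.bound_P
  obtain ⟨C', hC0', hC'⟩ := hP.bound_A
  have hPb : ∀ t, |A t - DD a t| ≤ C * (1 + |t|) ^ (1 / 2 : ℝ) := fun t =>
    (hC t).trans (mul_le_mul_of_nonneg_left (rpow_quarter_le_half t) hC0)
  have hAb : ∀ t, |A t| ≤ C' * (1 + |t|) ^ (1 / 2 : ℝ) := fun t =>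
    (hC' t).trans (mul_le_mul_of_nonneg_left (rpow_quarter_le_half t) hC0')
  have hcont : Continuous fun t => A t - DD a t := hP.cont.sub hP.continuous_DD
  have h1 := hφ.hasSum_smooth hs hP.a_pos hL hP.w_nonneg hcont hP.hasSum hPb t
  have h2 := hφ.integral_q_dirichlet hs hP.a_pos hL (c := fun n : ℕ =>
    ArithmeticFunction.vonMangoldt n * (n : ℝ) ^ (-(1 / 2 + a))) (ω := fun n => Real.log n)
    (by simpa only [abs_of_nonneg (coeff_nonneg a _)] using hP.summable_dir) t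
  have hq := hφ.integrable_q hs hP.a_pos hL0
  have hi1 := hφ.integrable_q_mul hs hP.a_pos hL hP.cont hAb t
  have hi2 : Integrable (fun u => TestFn.q φ a L u * DD a (t - u)) := by
    apply Integrable.mul_bdd (c := ∑' n : ℕ, ArithmeticFunction.vonMangoldt n * (n : ℝ) ^ (-(1 / 2 + a))) hq
    · exact (hP.continuous_DD.comp (continuous_const.sub continuous_id)).aestronglyMeasurable
    · exact ae_of_all _ fun u => by rw [Real.norm_eq_abs]; exact hP.abs_DD_le _
  have e1 : ∫ u, TestFn.q φ a L u * (A (t - u) - DD a (t - u))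
      = (∫ u, TestFn.q φ a L u * A (t - u)) - WW φ L t := by
    have : (fun u => TestFn.q φ a L u * (A (t - u) - DD a (t - u)))
        = fun u => TestFn.q φ a L u * A (t - u) - TestFn.q φ a L u * DD a (t - u) := by
      ext u; ring
    rw [this, integral_sub hi1 hi2]
    congr 1
    unfold DD
    rw [← h2.tsum_eq]
    unfold WW
    rw [← tsum_mul_left]
    congr 1
    ext n
    rcases Nat.eq_zero_or_pos n with hn | hn
    · simp [hn]
    · have hn' : (0 : ℝ) < n := by exact_mod_cast hn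
      unfold TestFn.HB
      have e2 : Real.exp (a * L * |Real.log n / L|) = (n : ℝ) ^ a := by
        rw [abs_of_nonneg (div_nonneg (Real.log_natCast_nonneg n) hL0.le), Real.rpow_def_of_pos hn']
        congr 1
        field_simp
      rw [e2]
      have e3 : (n : ℝ) ^ (-(1 / 2 + a)) * (n : ℝ) ^ a = (n : ℝ) ^ (-(1 / 2) : ℝ) := by
        rw [← Real.rpow_add hn']
        congr 1
        ring
      rw [← e3]
      ring
  rw [e1] at h1
  exact h1

lemma SS_eq [Countable ι] (hP : PoissonInput γ w a A) {s : ℝ} {φ : ℝ → ℝ} (hφ : TestFn s φ) (hs : 0 < s)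
    {L : ℝ} (hL : 1 ≤ L) (t : ℝ) :
    SS γ w φ L t = (∫ u, TestFn.q φ a L u * A (t - u)) - WW φ L t :=
  (hP.explicit hφ hs hL t).tsum_eq

lemma continuous_SS [Countable ι] (hP : PoissonInput γ w a A) {s : ℝ} {φ : ℝ → ℝ} (hφ : TestFn s φ) (hs : 0 < s)
    {L : ℝ} (hL : 1 ≤ L) : Continuous (SS γ w φ L) := by
  have h : SS γ w φ L = fun t => (∫ u, TestFn.q φ a L u * A (t - u)) - WW φ L t := by
    ext t; exact hP.SS_eq hφ hs hL t
  rw [h]
  obtain ⟨C', hC0', hC'⟩ := hP.bound_A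
  have hAb : ∀ t, |A t| ≤ C' * (1 + |t|) ^ (1 / 2 : ℝ) := fun t =>
    (hC' t).trans (mul_le_mul_of_nonneg_left (rpow_quarter_le_half t) hC0')
  exact (hφ.continuous_conv hs hP.a_pos hL hP.cont hAb).sub (continuous_WW hφ (by linarith))

/-- Decomposition `S = (c - W) + δ` with small `δ`. -/
lemma exists_delta [Countable ι] (hP : PoissonInput γ w a A) {s : ℝ} {φ : ℝ → ℝ} (hφ : TestFn s φ) (hs : 0 < s)
    (has : 2 * a * s < 1) :
    ∃ δ : ℝ → ℝ → ℝ, (∀ᶠ T in atTop, Continuous (δ T)) ∧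
      (∀ᶠ T in atTop, ∀ t ∈ Icc 0 T, SS γ w φ (Real.log T) t = (cosT φ 0 - WW φ (Real.log T) t) + δ T t) ∧
      Tendsto (fun T => avg T (fun t => δ T t ^ 2)) atTop (𝓝 0) := by
  obtain ⟨C', hC0', hC'⟩ := hP.bound_A
  obtain ⟨C1, hC1⟩ := hP.arch1
  obtain ⟨C2, hC2⟩ := hP.arch2
  have hAb : ∀ t, |A t| ≤ C' * (1 + |t|) ^ (1 / 2 : ℝ) := fun t =>
    (hC' t).trans (mul_le_mul_of_nonneg_left (rpow_quarter_le_half t) hC0')
  obtain ⟨K, hK0, hK⟩ := hφ.abs_conv_sub_le hs hP.a_pos hP.cont hAb hC2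
  set e : ℝ → ℝ → ℝ := fun T t => (∫ u, TestFn.q φ a (Real.log T) u * A (t - u))
    - (2 / Real.log T) * cosT φ 0 * A t with he
  set δ₁ : ℝ → ℝ → ℝ := fun T t => cosT φ 0 * ((2 / Real.log T) * A t - 1) with hδ₁
  have hlog := Real.tendsto_log_atTop
  have hL1 : ∀ᶠ T in atTop, 1 ≤ Real.log T := hlog.eventually_ge_atTop 1
  have hec : ∀ᶠ T in atTop, Continuous (e T) := by
    filter_upwards [hL1] with T hT
    have h1 := hφ.continuous_conv hs hP.a_pos hT hP.cont hAb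
    have h2 := hP.cont
    exact h1.sub (by fun_prop)
  have heb : Tendsto (fun T => avg T (fun t => e T t ^ 2)) atTop (𝓝 0) := by
    apply tendsto_avg_err (a := a) (s := s) (K := K) has hec
    filter_upwards [hL1] with T hT t
    exact hK (Real.log T) hT t
  have hδ₁c : ∀ T, Continuous (δ₁ T) := by
    intro T
    have h2 := hP.cont
    simp only [hδ₁]
    fun_prop
  have hδ₁b : Tendsto (fun T => avg T (fun t => δ₁ T t ^ 2)) atTop (𝓝 0) := by
    have h1 := (tendsto_avg_arch hP.cont hC1).const_mul ((cosT φ 0) ^ 2)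
    rw [mul_zero] at h1
    apply h1.congr
    intro T
    rw [← avg_const_mul]
    congr 1
    ext t
    simp only [hδ₁]
    ring
  refine ⟨fun T t => δ₁ T t + e T t, ?_, ?_, ?_⟩
  · filter_upwards [hec] with T hT
    exact (hδ₁c T).add hT
  · filter_upwards [hL1] with T hT t _
    rw [hP.SS_eq hφ hs hT]
    simp only [he, hδ₁]
    ring
  · exact tendsto_avg_sq (Eventually.of_forall hδ₁c) hec (Eventually.of_forall fun T t _ => rfl) hδ₁b heb

end PoissonInput

end Pool.Agent.H6
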