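import Mathlib
import Pool.Agent.H6.Assembly

open MeasureTheory Set Filter Topology
open scoped Real Interval ContDiff

namespace Pool.Agent.H6

/-- Inputs about prime sums. -/
structure PrimeInput : Prop where
  mean2 : ∃ C : ℝ, 0 ≤ C ∧ ∀ (N : ℕ) (T : ℝ), 0 < T → ∀ b : ℕ → ℝ,
    |(∫ t in (0 : ℝ)..T, (∑ n ∈ Finset.Icc 2 N, b n * Real.cos (t * Real.log n)) ^ 2)
      - (T / 2) * ∑ n ∈ Finset.Icc 2 N, b n ^ 2| ≤ C * (N * (1 + Real.log N)) * ∑ n ∈ Finset.Icc 2 N, b n ^ 2
  mean1 : ∃ C : ℝ, 0 ≤ C ∧ ∀ (N : ℕ) (T : ℝ), 0 < T → ∀ b : ℕ → ℝ,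
    |∫ t in (0 : ℝ)..T, ∑ n ∈ Finset.Icc 2 N, b n * Real.cos (t * Real.log n)|
      ≤ C * ∑ n ∈ Finset.Icc 2 N, |b n|
  mertens : ∀ h : ℝ → ℝ, Continuous h → HasCompactSupport h →
    Tendsto (fun L : ℝ => (1 / L ^ 2) * ∑' n : ℕ, (ArithmeticFunction.vonMangoldt n) ^ 2 / n * h (Real.log n / L))
      atTop (𝓝 (∫ x in Ioi (0 : ℝ), x * h x))

lemma avg_congr {T : ℝ} (hT : 0 ≤ T) {f g : ℝ → ℝ} (h : ∀ t ∈ Icc 0 T, f t = g t) : avg T f = avg T g := by
  unfold avg
  congr 1
  apply intervalIntegral.integral_congr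
  intro t ht
  rw [uIcc_of_le hT] at ht
  exact h t ht

section primes

variable {s : ℝ} {φ : ℝ → ℝ}

lemma sum_bb_sq (hφ : TestFn s φ) {L : ℝ} (hL : 0 < L) :
    ∑ n ∈ Finset.Icc 2 ⌊Real.exp (s * L)⌋₊, bb φ L n ^ 2
      = ∑' n : ℕ, (ArithmeticFunction.vonMangoldt n) ^ 2 / n * (cosT φ (Real.log n / L)) ^ 2 := by
  have e : ∀ n : ℕ, bb φ L n ^ 2 = (ArithmeticFunction.vonMangoldt n) ^ 2 / n * (cosT φ (Real.log n / L)) ^ 2 := by
    intro n
    unfold bb
    rcases Nat.eq_zero_or_pos n with hn | hn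
    · simp [hn]
    · have hn' : (0 : ℝ) < n := by exact_mod_cast hn
      rw [mul_pow, mul_pow]
      have : ((n : ℝ) ^ (-(1 / 2) : ℝ)) ^ 2 = 1 / n := by
        rw [← Real.rpow_natCast, ← Real.rpow_mul hn'.le]
        norm_num
        rw [Real.rpow_neg_one]
      rw [this]
      ring
  simp_rw [← e]
  symm
  apply tsum_eq_sum
  intro n hn
  rw [bb_eq_zero hφ hL hn]
  ring

/-- `(1/L²) Σ b² → ½ ∫ |ξ| h²`. -/
lemma tendsto_sum_bb_sq (P : PrimeInput) (hφ : TestFn s φ) :
    Tendsto (fun L : ℝ => (1 / L ^ 2) * ∑ n ∈ Finset.Icc 2 ⌊Real.exp (s * L)⌋₊, bb φ L n ^ 2) atTop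
      (𝓝 ((1 / 2) * ∫ ξ, |ξ| * (cosT φ ξ) ^ 2)) := by
  have h1 := P.mertens (fun x => (cosT φ x) ^ 2) (hφ.continuous_cosT.pow 2)
    (by
      have := hφ.hasCompactSupport_cosT
      exact this.comp_left (g := fun x : ℝ => x ^ 2) (by simp))
  have e : ∫ x in Ioi (0 : ℝ), x * (cosT φ x) ^ 2 = (1 / 2) * ∫ ξ, |ξ| * (cosT φ ξ) ^ 2 := by
    have h2 : ∀ ξ : ℝ, |ξ| * (cosT φ ξ) ^ 2 = (fun x => x * (cosT φ x) ^ 2) |ξ| := by
      intro ξ
      simp only
      rcases abs_cases ξ with ⟨h, _⟩ | ⟨h, _⟩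
      · rw [h]
      · rw [h, cosT_neg]
    simp_rw [h2]
    rw [integral_comp_abs (f := fun x => x * (cosT φ x) ^ 2)]
    ring
  rw [e] at h1
  apply h1.congr'
  filter_upwards [eventually_gt_atTop 0] with L hL
  rw [sum_bb_sq hφ hL]

lemma tendsto_rpow_mul_log {s : ℝ} (hs1 : s < 1) :
    Tendsto (fun T : ℝ => T ^ (s - 1) * (1 + Real.log T)) atTop (𝓝 0) := by
  set η := (1 - s) / 2 with hη
  have hη0 : 0 < η := by rw [hη]; linarith
  have h2 : Tendsto (fun T : ℝ => (1 + 1 / η) * T ^ (-η)) atTop (𝓝 0) := by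
    simpa using (tendsto_rpow_neg_atTop hη0).const_mul (1 + 1 / η)
  apply squeeze_zero' _ _ h2
  · filter_upwards [eventually_ge_atTop 1] with T hT
    have : 0 ≤ Real.log T := Real.log_nonneg hT
    positivity
  · filter_upwards [eventually_ge_atTop 1] with T hT
    have hT0 : 0 < T := by linarith
    have h3 : 1 + Real.log T ≤ (1 + 1 / η) * T ^ η := by
      have h4 : Real.log T ≤ T ^ η / η := Real.log_le_rpow_div hT0.le hη0
      have h5 : 1 ≤ T ^ η := Real.one_le_rpow hT hη0.le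
      calc 1 + Real.log T ≤ T ^ η + T ^ η / η := add_le_add h5 h4
        _ = _ := by ring
    calc T ^ (s - 1) * (1 + Real.log T) ≤ T ^ (s - 1) * ((1 + 1 / η) * T ^ η) :=
          mul_le_mul_of_nonneg_left h3 (by positivity)
      _ = (1 + 1 / η) * (T ^ (s - 1) * T ^ η) := by ring
      _ = _ := by
          rw [← Real.rpow_add hT0]
          congr 2
          rw [hη]; ring

lemma floor_exp_le {s T : ℝ} (hT : 0 < T) : ((⌊Real.exp (s * Real.log T)⌋₊ : ℕ) : ℝ) ≤ T ^ s := by
  refine (Nat.floor_le (by positivity)).trans (le_of_eq ?_)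
  rw [Real.rpow_def_of_pos hT]
  congr 1
  ring

/-- Mean square of the prime polynomial. -/
lemma tendsto_avg_WW_sq (P : PrimeInput) (hφ : TestFn s φ) (hs : 0 < s) (hs1 : s < 1) :
    Tendsto (fun T => avg T (fun t => (WW φ (Real.log T) t) ^ 2)) atTop
      (𝓝 (∫ ξ, |ξ| * (cosT φ ξ) ^ 2)) := by
  obtain ⟨C, hC0, hC⟩ := P.mean2
  have hlog := Real.tendsto_log_atTop
  have hmain := (tendsto_sum_bb_sq P hφ).comp hlog
  have h1 : Tendsto (fun T : ℝ => 2 * ((1 / (Real.log T) ^ 2) *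
      ∑ n ∈ Finset.Icc 2 ⌊Real.exp (s * Real.log T)⌋₊, bb φ (Real.log T) n ^ 2)) atTop
      (𝓝 (∫ ξ, |ξ| * (cosT φ ξ) ^ 2)) := by
    have := hmain.const_mul 2
    simpa [mul_assoc] using this
  have h2 : Tendsto (fun T : ℝ => (4 * C) * ((T ^ (s - 1) * (1 + Real.log T)) * ((1 / (Real.log T) ^ 2) *
      ∑ n ∈ Finset.Icc 2 ⌊Real.exp (s * Real.log T)⌋₊, bb φ (Real.log T) n ^ 2))) atTop (𝓝 0) := by
    have := ((tendsto_rpow_mul_log hs1).mul hmain).const_mul (4 * C)
    simpa using this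
  rw [tendsto_iff_dist_tendsto_zero] at h1 ⊢
  have h3 := h1.add h2
  rw [add_zero] at h3
  apply squeeze_zero' _ _ h3
  · exact Eventually.of_forall fun T => dist_nonneg
  · filter_upwards [eventually_ge_atTop 1, hlog.eventually_ge_atTop 1] with T hT hL
    have hT0 : 0 < T := by linarith
    have hL0 : 0 < Real.log T := by linarith
    set N := ⌊Real.exp (s * Real.log T)⌋₊ with hN
    set Q2 := ∑ n ∈ Finset.Icc 2 N, bb φ (Real.log T) n ^ 2 with hQ2
    have hQ0 : 0 ≤ Q2 := Finset.sum_nonneg fun n _ => sq_nonneg _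
    refine (dist_triangle _ (2 * ((1 / (Real.log T) ^ 2) * Q2)) _).trans ?_
    rw [add_comm]
    apply add_le_add le_rfl
    rw [Real.dist_eq]
    have e1 : avg T (fun t => (WW φ (Real.log T) t) ^ 2)
        = (4 / (Real.log T) ^ 2) * ((1 / T) * ∫ t in (0 : ℝ)..T,
          (∑ n ∈ Finset.Icc 2 N, bb φ (Real.log T) n * Real.cos (t * Real.log n)) ^ 2) := by
      have e0 : ∫ t in (0 : ℝ)..T, (WW φ (Real.log T) t) ^ 2 = (4 / (Real.log T) ^ 2) * ∫ t in (0 : ℝ)..T,
          (∑ n ∈ Finset.Icc 2 N, bb φ (Real.log T) n * Real.cos (t * Real.log n)) ^ 2 := by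
        rw [← intervalIntegral.integral_const_mul]
        apply intervalIntegral.integral_congr
        intro t _
        simp only
        rw [WW_eq_sum hφ hL0]
        ring
      unfold avg
      rw [e0]
      ring
    rw [e1]
    have h4 := hC N T hT0 (bb φ (Real.log T))
    rw [← hQ2] at h4
    set I := ∫ t in (0 : ℝ)..T, (∑ n ∈ Finset.Icc 2 N, bb φ (Real.log T) n * Real.cos (t * Real.log n)) ^ 2 with hI
    have e2 : 4 / (Real.log T) ^ 2 * (1 / T * I) - 2 * (1 / (Real.log T) ^ 2 * Q2)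
        = (4 / ((Real.log T) ^ 2 * T)) * (I - T / 2 * Q2) := by
      field_simp
      ring
    rw [e2, abs_mul, abs_of_pos (by positivity)]
    have hN1 : (N : ℝ) ≤ T ^ s := floor_exp_le hT0
    have hlogN : Real.log N ≤ Real.log T := by
      rcases Nat.eq_zero_or_pos N with h0 | h0
      · rw [h0]; simp; linarith
      · have : Real.log N ≤ Real.log (T ^ s) := Real.log_le_log (by exact_mod_cast h0) hN1
        rw [Real.log_rpow hT0] at this
        nlinarith
    have hlogN0 : 0 ≤ Real.log N := Real.log_natCast_nonneg N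
    calc 4 / ((Real.log T) ^ 2 * T) * |I - T / 2 * Q2|
        ≤ 4 / ((Real.log T) ^ 2 * T) * (C * (N * (1 + Real.log N)) * Q2) :=
          mul_le_mul_of_nonneg_left h4 (by positivity)
      _ ≤ 4 / ((Real.log T) ^ 2 * T) * (C * (T ^ s * (1 + Real.log T)) * Q2) := by
          apply mul_le_mul_of_nonneg_left _ (by positivity)
          apply mul_le_mul_of_nonneg_right _ hQ0
          apply mul_le_mul_of_nonneg_left _ hC0
          exact mul_le_mul hN1 (by linarith) (by linarith) (by positivity)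
      _ = _ := by
          rw [Real.rpow_sub hT0, Real.rpow_one]
          field_simp

/-- Mean of the prime polynomial. -/
lemma tendsto_avg_WW (P : PrimeInput) (hφ : TestFn s φ) (hs1 : s < 1) :
    Tendsto (fun T => avg T (WW φ (Real.log T))) atTop (𝓝 0) := by
  obtain ⟨C, hC0, hC⟩ := P.mean1
  have hlog := Real.tendsto_log_atTop
  have hmain := (tendsto_sum_bb_sq P hφ).comp hlog
  -- bound: (2C/T) sqrt(T^s * Q2/L²)
  have h2 : Tendsto (fun T : ℝ => (2 * C) * Real.sqrt ((T ^ (s - 1) * (1 + Real.log T)) * ((1 / (Real.log T) ^ 2) *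
      ∑ n ∈ Finset.Icc 2 ⌊Real.exp (s * Real.log T)⌋₊, bb φ (Real.log T) n ^ 2))) atTop (𝓝 0) := by
    have := (((tendsto_rpow_mul_log hs1).mul hmain).sqrt).const_mul (2 * C)
    simpa using this
  rw [tendsto_zero_iff_abs_tendsto_zero]
  apply squeeze_zero' _ _ h2
  · exact Eventually.of_forall fun T => abs_nonneg _
  · filter_upwards [eventually_ge_atTop 1, hlog.eventually_ge_atTop 1] with T hT hL
    have hT0 : 0 < T := by linarith
    have hL0 : 0 < Real.log T := by linarith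
    set N := ⌊Real.exp (s * Real.log T)⌋₊ with hN
    set Q2 := ∑ n ∈ Finset.Icc 2 N, bb φ (Real.log T) n ^ 2 with hQ2
    have hQ0 : 0 ≤ Q2 := Finset.sum_nonneg fun n _ => sq_nonneg _
    have e1 : avg T (WW φ (Real.log T))
        = (2 / Real.log T) * ((1 / T) * ∫ t in (0 : ℝ)..T,
          (∑ n ∈ Finset.Icc 2 N, bb φ (Real.log T) n * Real.cos (t * Real.log n))) := by
      have e0 : ∫ t in (0 : ℝ)..T, (WW φ (Real.log T) t) = (2 / Real.log T) * ∫ t in (0 : ℝ)..T,
          (∑ n ∈ Finset.Icc 2 N, bb φ (Real.log T) n * Real.cos (t * Real.log n)) := by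
        rw [← intervalIntegral.integral_const_mul]
        apply intervalIntegral.integral_congr
        intro t _
        simp only
        rw [WW_eq_sum hφ hL0]
      unfold avg
      rw [e0]
      ring
    simp only [Function.comp]
    rw [e1, abs_mul, abs_mul, abs_of_pos (by positivity : 0 < 2 / Real.log T), abs_of_pos (by positivity : 0 < 1 / T)]
    have h4 := hC N T hT0 (bb φ (Real.log T))
    have h5 : ∑ n ∈ Finset.Icc 2 N, |bb φ (Real.log T) n| ≤ Real.sqrt (N * Q2) := by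
      apply Real.le_sqrt_of_sq_le
      have h6 := Finset.sum_mul_sq_le_sq_mul_sq (Finset.Icc 2 N) (fun _ => (1 : ℝ)) (fun n => |bb φ (Real.log T) n|)
      simp only [one_mul, one_pow, Finset.sum_const, nsmul_eq_mul, mul_one, sq_abs] at h6
      refine h6.trans ?_
      apply mul_le_mul_of_nonneg_right _ hQ0
      have : (Finset.Icc 2 N).card ≤ N := by simp
      exact_mod_cast this
    have hN1 : (N : ℝ) ≤ T ^ s := floor_exp_le hT0
    calc 2 / Real.log T * (1 / T * |∫ t in (0 : ℝ)..T, (∑ n ∈ Finset.Icc 2 N, bb φ (Real.log T) n * Real.cos (t * Real.log n))|)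
        ≤ 2 / Real.log T * (1 / T * (C * Real.sqrt (N * Q2))) := by
          apply mul_le_mul_of_nonneg_left _ (by positivity)
          apply mul_le_mul_of_nonneg_left _ (by positivity)
          exact h4.trans (mul_le_mul_of_nonneg_left h5 hC0)
      _ = 2 * C * Real.sqrt (1 / (Real.log T * T) ^ 2 * (N * Q2)) := by
          have : Real.sqrt (1 / (Real.log T * T) ^ 2 * (N * Q2)) = 1 / (Real.log T * T) * Real.sqrt (N * Q2) := by
            rw [show 1 / (Real.log T * T) ^ 2 = (1 / (Real.log T * T)) ^ 2 by rw [div_pow, one_pow],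
              Real.sqrt_mul (by positivity), Real.sqrt_sq (by positivity)]
          rw [this]
          field_simp
      _ ≤ _ := by
          apply mul_le_mul_of_nonneg_left _ (by positivity)
          apply Real.sqrt_le_sqrt
          have e3 : T ^ (s - 1) * (1 + Real.log T) * (1 / (Real.log T) ^ 2 * Q2)
              = (1 / ((Real.log T) ^ 2 * T)) * ((T ^ s * (1 + Real.log T)) * Q2) := by
            rw [Real.rpow_sub hT0, Real.rpow_one]
            field_simp
          rw [e3]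
          have e4 : 1 / (Real.log T * T) ^ 2 * (N * Q2) = (1 / ((Real.log T) ^ 2 * T)) * ((N / T) * Q2) := by
            field_simp
          rw [e4]
          apply mul_le_mul_of_nonneg_left _ (by positivity)
          apply mul_le_mul_of_nonneg_right _ hQ0
          have h7 : (N : ℝ) / T ≤ T ^ s := by
            rw [div_le_iff₀ hT0]
            calc (N : ℝ) ≤ T ^ s := hN1
              _ ≤ T ^ s * T := le_mul_of_one_le_right (by positivity) hT
          refine h7.trans ?_
          exact le_mul_of_one_le_right (by positivity) (by linarith)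

end primes

end Pool.Agent.H6
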