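import Mathlib

/-!
# Shared definitions for Montgomery's pair correlation conjecture (MP_103a5c_nt)

Everything here is as in the problem file: zeros counted with multiplicity, ordered pairs,
diagonal pairs included.
-/

open Filter Topology

namespace Pool.Agent.PC

/-- The nontrivial zeros `ρ` of the Riemann zeta function with `0 < Im ρ ≤ T`. -/
def zerosUpTo (T : ℝ) : Set ℂ :=
  {ρ | riemannZeta ρ = 0 ∧ 0 < ρ.re ∧ ρ.re < 1 ∧ 0 < ρ.im ∧ ρ.im ≤ T}

/-- The ordered pairs `(ρ, ρ')` of nontrivial zeros with `0 < γ, γ' ≤ T` and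
`2πα / log T ≤ γ - γ' ≤ 2πβ / log T`, where `γ = Im ρ`, `γ' = Im ρ'`. -/
def pairSet (T α β : ℝ) : Set (ℂ × ℂ) :=
  {p | p.1 ∈ zerosUpTo T ∧ p.2 ∈ zerosUpTo T ∧
    2 * Real.pi * α / Real.log T ≤ p.1.im - p.2.im ∧
    p.1.im - p.2.im ≤ 2 * Real.pi * β / Real.log T}

/-- `N(T; α, β)`: the number of pairs in `pairSet T α β`, each pair `(ρ, ρ')` counted with weight
`m(ρ) m(ρ')`, the product of the multiplicities. -/
noncomputable def pairCount (T α β : ℝ) : ℝ :=
  ∑ᶠ p ∈ pairSet T α β,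
    (analyticOrderNatAt riemannZeta p.1 : ℝ) * (analyticOrderNatAt riemannZeta p.2 : ℝ)

/-- The predicted density `∫_α^β (1 - (sin πu / πu)²) du + δ(α, β)`. -/
noncomputable def gue (α β : ℝ) : ℝ :=
  (∫ u in α..β, (1 - (Real.sinc (Real.pi * u)) ^ 2)) + (if α ≤ 0 ∧ 0 ≤ β then 1 else 0)

/-- The normalising factor `(T / 2π) log T`. -/
noncomputable def norm (T : ℝ) : ℝ := T / (2 * Real.pi) * Real.log T

/-- The asymptotic relation of Q1 for one pair `α < β`: the ratio of the two sides tends to `1`. -/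
def PairCorrelation (α β : ℝ) : Prop :=
  Tendsto (fun T : ℝ => pairCount T α β / (gue α β * norm T)) atTop (𝓝 1)

end Pool.Agent.PC

namespace Pool.Agent.PC

/-- Ordinates of the zeros on the critical line (under RH: of all nontrivial zeros). -/
def Z : Set ℝ := {γ | riemannZeta (1 / 2 + γ * Complex.I) = 0}

/-- Multiplicity of the zero `1/2 + iγ`. -/
noncomputable def m (γ : ℝ) : ℕ := analyticOrderNatAt riemannZeta (1 / 2 + γ * Complex.I)

/-- The archimedean term. -/
noncomputable def arch (a t : ℝ) : ℝ :=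
  let s : ℂ := 1 / 2 + a + t * Complex.I
  (1 / s + 1 / (s - 1) + logDeriv Complex.Gammaℝ s).re

/-- The prime sum `Σ Λ(n) n^{-1/2-a} cos (t log n)`. -/
noncomputable def dir (a t : ℝ) : ℝ :=
  ∑' n : ℕ, ArithmeticFunction.vonMangoldt n * (n : ℝ) ^ (-(1 / 2 + a)) * Real.cos (t * Real.log n)

end Pool.Agent.PC
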