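import Mathlib
import Pool.Agent.H6.Edges

open MeasureTheory Set Filter Topology
open scoped Real Interval

namespace Pool.Agent.H6

variable {ι : Type*} {γ w : ι → ℝ} {F : ℝ → Finset ι} {CR : ℝ}

/-- edge majorant -/
noncomputable def BB (γ w : ι → ℝ) (T t : ℝ) : ℝ :=
  RR γ w T * (1 + (T - t) ^ 2)⁻¹ + RR γ w 0 * (1 + (0 - t) ^ 2)⁻¹

lemma continuous_Sin {φ : ℝ → ℝ} (hφ : Continuous φ) (G : Finset ι) (L : ℝ) : Continuous (Sin γ w G φ L) := by
  unfold Sin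
  fun_prop

namespace Ordinates

variable (O : Ordinates ι γ w F CR)
include O

lemma BB_nonneg (T t : ℝ) : 0 ≤ BB γ w T t :=
  add_nonneg (mul_nonneg (O.RR_nonneg T) (by positivity)) (mul_nonneg (O.RR_nonneg 0) (by positivity))

omit O in
lemma integrable_BB (T : ℝ) : Integrable (BB γ w T) :=
  ((integrable_edge T).const_mul _).add ((integrable_edge 0).const_mul _)

omit O in
lemma integral_BB (T : ℝ) : ∫ t, BB γ w T t = π * (RR γ w T + RR γ w 0) := by
  unfold BB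
  rw [integral_add ((integrable_edge T).const_mul _) ((integrable_edge 0).const_mul _),
    integral_const_mul, integral_const_mul, integral_edge, integral_edge]
  ring

lemma RR_T_le {T : ℝ} (hT : 0 ≤ T) : RR γ w T ≤ CR * (1 + T) ^ (1 / 4 : ℝ) :=
  O.RR_le ⟨hT, le_refl T⟩

lemma RR_0_le {T : ℝ} (hT : 0 ≤ T) : RR γ w 0 ≤ CR * (1 + T) ^ (1 / 4 : ℝ) :=
  O.RR_le ⟨le_refl 0, hT⟩

lemma BB_le {T : ℝ} (hT : 0 ≤ T) (t : ℝ) : BB γ w T t ≤ 2 * (CR * (1 + T) ^ (1 / 4 : ℝ)) := by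
  unfold BB
  have h1 : (1 + (T - t) ^ 2)⁻¹ ≤ 1 := inv_le_one_of_one_le₀ (by nlinarith [sq_nonneg (T - t)])
  have h2 : (1 + (0 - t) ^ 2)⁻¹ ≤ 1 := inv_le_one_of_one_le₀ (by nlinarith [sq_nonneg (0 - t)])
  have h3 := mul_le_of_le_one_right (O.RR_nonneg T) h1
  have h4 := mul_le_of_le_one_right (O.RR_nonneg 0) h2
  have h5 := O.RR_T_le hT
  have h6 := O.RR_0_le hT
  linarith

lemma integral_BB_le {T : ℝ} (hT : 0 ≤ T) : ∫ t, BB γ w T t ≤ 2 * π * (CR * (1 + T) ^ (1 / 4 : ℝ)) := by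
  rw [integral_BB]
  have h5 := O.RR_T_le hT
  have h6 := O.RR_0_le hT
  have : RR γ w T + RR γ w 0 ≤ 2 * (CR * (1 + T) ^ (1 / 4 : ℝ)) := by linarith
  have := mul_le_mul_of_nonneg_left this Real.pi_pos.le
  linarith

theorem edge_second {φ₁ φ₂ : ℝ → ℝ} {C₁ C₂ : ℝ} (hφ₁ : Continuous φ₁) (hφ₂ : Continuous φ₂)
    (hC₁ : 0 ≤ C₁) (hC₂ : 0 ≤ C₂)
    (hd₁ : ∀ u, |φ₁ u| ≤ C₁ / (1 + u ^ 2) ^ 2) (hd₂ : ∀ u, |φ₂ u| ≤ C₂ / (1 + u ^ 2) ^ 2)
    {L : ℝ} (hL : 2 * π ≤ L) {T : ℝ} (hT : 0 ≤ T)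
    (hS₁ : Continuous (SS γ w φ₁ L)) (hS₂ : Continuous (SS γ w φ₂ L))
    (hint : Integrable (fun t => Sin γ w (F T) φ₁ L t * Sin γ w (F T) φ₂ L t)) :
    |(∫ t, Sin γ w (F T) φ₁ L t * Sin γ w (F T) φ₂ L t) - ∫ t in (0 : ℝ)..T, SS γ w φ₁ L t * SS γ w φ₂ L t|
      ≤ 4 * π * C₁ * C₂ * CR ^ 2 * (1 + T) ^ (1 / 2 : ℝ) := by
  set G : ℝ := CR * (1 + T) ^ (1 / 4 : ℝ) with hG
  have hG0 : 0 ≤ G := by
    have := O.CR_nonneg
    positivity
  set D : ℝ → ℝ := fun t => Sin γ w (F T) φ₁ L t * Sin γ w (F T) φ₂ L t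
    - (Icc 0 T).indicator (fun t => SS γ w φ₁ L t * SS γ w φ₂ L t) t with hD
  have hind : Integrable ((Icc 0 T).indicator (fun t => SS γ w φ₁ L t * SS γ w φ₂ L t)) := by
    rw [integrable_indicator_iff measurableSet_Icc]
    exact (hS₁.mul hS₂).continuousOn.integrableOn_Icc
  have hDint : ∫ t, D t = (∫ t, Sin γ w (F T) φ₁ L t * Sin γ w (F T) φ₂ L t)
      - ∫ t in (0 : ℝ)..T, SS γ w φ₁ L t * SS γ w φ₂ L t := by
    rw [hD, integral_sub hint hind, integral_indicator measurableSet_Icc,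
      intervalIntegral.integral_of_le hT, integral_Icc_eq_integral_Ioc]
  rw [← hDint]
  have hDb : ∀ t, |D t| ≤ (2 * C₁ * C₂ * G) * BB γ w T t := by
    intro t
    have hB := O.BB_nonneg T t
    by_cases ht : t ∈ Icc 0 T
    · have e : D t = Sin γ w (F T) φ₁ L t * (Sin γ w (F T) φ₂ L t - SS γ w φ₂ L t)
          + SS γ w φ₂ L t * (Sin γ w (F T) φ₁ L t - SS γ w φ₁ L t) := by
        rw [hD]
        simp only [indicator_of_mem ht]
        ring
      rw [e]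
      have b1 : |Sin γ w (F T) φ₁ L t| ≤ C₁ * G :=
        (O.abs_Sin_le hC₁ hd₁ hL _ t).trans (mul_le_mul_of_nonneg_left (O.RR_le ht) hC₁)
      have b2 : |SS γ w φ₂ L t| ≤ C₂ * G :=
        (O.abs_SS_le hC₂ hd₂ hL t).trans (mul_le_mul_of_nonneg_left (O.RR_le ht) hC₂)
      have b3 : |Sin γ w (F T) φ₂ L t - SS γ w φ₂ L t| ≤ C₂ * BB γ w T t := by
        rw [abs_sub_comm]; exact O.abs_Sout_le_edge hC₂ hd₂ hL ht
      have b4 : |Sin γ w (F T) φ₁ L t - SS γ w φ₁ L t| ≤ C₁ * BB γ w T t := by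
        rw [abs_sub_comm]; exact O.abs_Sout_le_edge hC₁ hd₁ hL ht
      calc _ ≤ |Sin γ w (F T) φ₁ L t| * |Sin γ w (F T) φ₂ L t - SS γ w φ₂ L t|
          + |SS γ w φ₂ L t| * |Sin γ w (F T) φ₁ L t - SS γ w φ₁ L t| := by
            refine (abs_add_le _ _).trans ?_
            rw [abs_mul, abs_mul]
        _ ≤ (C₁ * G) * (C₂ * BB γ w T t) + (C₂ * G) * (C₁ * BB γ w T t) := by
            apply add_le_add
            · exact mul_le_mul b1 b3 (abs_nonneg _) (by positivity)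
            · exact mul_le_mul b2 b4 (abs_nonneg _) (by positivity)
        _ = _ := by ring
    · have ht' : t < 0 ∨ T < t := by
        by_contra h
        push Not at h
        exact ht ⟨h.1, h.2⟩
      have e : D t = Sin γ w (F T) φ₁ L t * Sin γ w (F T) φ₂ L t := by
        rw [hD]
        simp only [indicator_of_notMem ht, sub_zero]
      rw [e, abs_mul]
      have b1 := O.abs_Sin_le_edge hC₁ hd₁ hL ht'
      have b2 := O.abs_Sin_le_edge hC₂ hd₂ hL ht'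
      calc |Sin γ w (F T) φ₁ L t| * |Sin γ w (F T) φ₂ L t| ≤ (C₁ * BB γ w T t) * (C₂ * BB γ w T t) :=
            mul_le_mul b1 b2 (abs_nonneg _) (mul_nonneg hC₁ hB)
        _ ≤ (C₁ * BB γ w T t) * (C₂ * (2 * G)) := by
            apply mul_le_mul_of_nonneg_left _ (mul_nonneg hC₁ hB)
            exact mul_le_mul_of_nonneg_left (O.BB_le hT t) hC₂
        _ = _ := by ring
  calc |∫ t, D t| ≤ ∫ t, |D t| := abs_integral_le_integral_abs
    _ ≤ ∫ t, (2 * C₁ * C₂ * G) * BB γ w T t := by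
        apply integral_mono_of_nonneg (ae_of_all _ fun t => abs_nonneg _)
          ((integrable_BB T).const_mul _) (ae_of_all _ hDb)
    _ = (2 * C₁ * C₂ * G) * ∫ t, BB γ w T t := integral_const_mul _ _
    _ ≤ (2 * C₁ * C₂ * G) * (2 * π * G) :=
        mul_le_mul_of_nonneg_left (O.integral_BB_le hT) (by positivity)
    _ = 4 * π * C₁ * C₂ * CR ^ 2 * (((1 + T) ^ (1 / 4 : ℝ)) ^ 2) := by rw [hG]; ring
    _ = _ := by
        have : ((1 + T) ^ (1 / 4 : ℝ)) ^ 2 = (1 + T) ^ (1 / 2 : ℝ) := by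
          rw [← Real.rpow_natCast ((1 + T) ^ (1 / 4 : ℝ)) 2, ← Real.rpow_mul (by positivity)]
          norm_num
        rw [this]

theorem edge_first {φ : ℝ → ℝ} {C : ℝ} (hC : 0 ≤ C)
    (hd : ∀ u, |φ u| ≤ C / (1 + u ^ 2) ^ 2)
    {L : ℝ} (hL : 2 * π ≤ L) {T : ℝ} (hT : 0 ≤ T)
    (hS : Continuous (SS γ w φ L))
    (hint : Integrable (fun t => Sin γ w (F T) φ L t)) :
    |(∫ t, Sin γ w (F T) φ L t) - ∫ t in (0 : ℝ)..T, SS γ w φ L t|
      ≤ 2 * π * C * CR * (1 + T) ^ (1 / 4 : ℝ) := by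
  set G : ℝ := CR * (1 + T) ^ (1 / 4 : ℝ) with hG
  set D : ℝ → ℝ := fun t => Sin γ w (F T) φ L t
    - (Icc 0 T).indicator (fun t => SS γ w φ L t) t with hD
  have hind : Integrable ((Icc 0 T).indicator (fun t => SS γ w φ L t)) := by
    rw [integrable_indicator_iff measurableSet_Icc]
    exact hS.continuousOn.integrableOn_Icc
  have hDint : ∫ t, D t = (∫ t, Sin γ w (F T) φ L t) - ∫ t in (0 : ℝ)..T, SS γ w φ L t := by
    rw [hD, integral_sub hint hind, integral_indicator measurableSet_Icc,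
      intervalIntegral.integral_of_le hT, integral_Icc_eq_integral_Ioc]
  rw [← hDint]
  have hDb : ∀ t, |D t| ≤ C * BB γ w T t := by
    intro t
    by_cases ht : t ∈ Icc 0 T
    · have e : D t = Sin γ w (F T) φ L t - SS γ w φ L t := by
        rw [hD]
        simp only [indicator_of_mem ht]
      rw [e, abs_sub_comm]
      exact O.abs_Sout_le_edge hC hd hL ht
    · have ht' : t < 0 ∨ T < t := by
        by_contra h
        push Not at h
        exact ht ⟨h.1, h.2⟩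
      have e : D t = Sin γ w (F T) φ L t := by
        rw [hD]
        simp only [indicator_of_notMem ht, sub_zero]
      rw [e]
      exact O.abs_Sin_le_edge hC hd hL ht'
  calc |∫ t, D t| ≤ ∫ t, |D t| := abs_integral_le_integral_abs
    _ ≤ ∫ t, C * BB γ w T t := by
        apply integral_mono_of_nonneg (ae_of_all _ fun t => abs_nonneg _)
          ((integrable_BB T).const_mul _) (ae_of_all _ hDb)
    _ = C * ∫ t, BB γ w T t := integral_const_mul _ _
    _ ≤ C * (2 * π * G) :=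
        mul_le_mul_of_nonneg_left (O.integral_BB_le hT) (by positivity)
    _ = _ := by rw [hG]; ring

end Ordinates

end Pool.Agent.H6
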