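import Mathlib
import Pool.Agent.H6.Q
import Pool.Agent.H6.Edges2

open MeasureTheory Set Filter Topology FourierTransform
open scoped Real Interval SchwartzMap ContDiff

namespace Pool.Agent.H6

/-- The cosine transform of a smooth compactly supported even function decays rapidly. -/
lemma cosT_decay {g : ℝ → ℝ} (hg : ContDiff ℝ ∞ g) (hc : HasCompactSupport g) (heven : ∀ x, g (-x) = g x)
    (k : ℕ) : ∃ C, 0 < C ∧ ∀ u, |u| ^ k * |cosT g u| ≤ C := by
  have hcC : HasCompactSupport (fun x => (g x : ℂ)) := hc.comp_left (g := fun x : ℝ => (x : ℂ)) (by simp)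
  have hgC : ContDiff ℝ ∞ (fun x => (g x : ℂ)) := Complex.ofRealCLM.contDiff.comp hg
  have hint : Integrable g := hg.continuous.integrable_of_hasCompactSupport hc
  set f : 𝓢(ℝ, ℂ) := hcC.toSchwartzMap hgC with hf
  obtain ⟨C, hC0, hC⟩ := (𝓕 f).decay k 0
  refine ⟨C, hC0, fun u => ?_⟩
  have h1 := hC u
  rw [norm_iteratedFDeriv_zero, Real.norm_eq_abs] at h1
  have h2 : (𝓕 f : 𝓢(ℝ, ℂ)) u = (cosT g u : ℂ) := by
    rw [SchwartzMap.fourier_coe]
    have : (f : ℝ → ℂ) = fun x => (g x : ℂ) := rfl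
    rw [this, fourier_ofReal_even hint heven]
  rw [h2, Complex.norm_real, Real.norm_eq_abs] at h1
  exact h1

lemma cosT_decay_sq {g : ℝ → ℝ} (hg : ContDiff ℝ ∞ g) (hc : HasCompactSupport g) (heven : ∀ x, g (-x) = g x) :
    ∃ C, 0 ≤ C ∧ ∀ u, |cosT g u| ≤ C / (1 + u ^ 2) ^ 2 := by
  obtain ⟨C0, h0, hC0⟩ := cosT_decay hg hc heven 0
  obtain ⟨C2, h2, hC2⟩ := cosT_decay hg hc heven 2
  obtain ⟨C4, h4, hC4⟩ := cosT_decay hg hc heven 4
  refine ⟨C0 + 2 * C2 + C4, by positivity, fun u => ?_⟩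
  rw [le_div_iff₀ (by positivity)]
  have e0 := hC0 u
  have e2 := hC2 u
  have e4 := hC4 u
  rw [pow_zero, one_mul] at e0
  rw [sq_abs] at e2
  have : |u| ^ 4 = u ^ 4 := by rw [show (4 : ℕ) = 2 * 2 by norm_num, pow_mul, sq_abs, ← pow_mul]
  rw [this] at e4
  calc |cosT g u| * (1 + u ^ 2) ^ 2 = |cosT g u| + 2 * (u ^ 2 * |cosT g u|) + u ^ 4 * |cosT g u| := by ring
    _ ≤ _ := by linarith

/-- The cosine transform of a smooth even function supported in `(-s, s)` is a test function. -/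
lemma testFn_cosT {g : ℝ → ℝ} (hg : ContDiff ℝ ∞ g) (heven : ∀ x, g (-x) = g x) {s : ℝ}
    (hsupp : ∀ x, s ≤ |x| → g x = 0) : TestFn s (cosT g) := by
  have hc : HasCompactSupport g := by
    apply HasCompactSupport.intro (K := Icc (-s) s) isCompact_Icc
    intro x hx
    apply hsupp
    by_contra h
    rw [not_le, abs_lt] at h
    exact hx ⟨h.1.le, h.2.le⟩
  have hint : Integrable g := hg.continuous.integrable_of_hasCompactSupport hc
  obtain ⟨C, hC0, hC⟩ := cosT_decay_sq hg hc heven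
  have hcont : Continuous (cosT g) := TestFn.continuous_cosT_of_integrable hint
  have hint2 : Integrable (cosT g) := by
    apply Integrable.mono' (integrable_inv_one_add_sq.const_mul C) hcont.aestronglyMeasurable
    apply ae_of_all
    intro u
    rw [Real.norm_eq_abs]
    refine (hC u).trans ?_
    rw [← div_eq_mul_inv]
    apply div_le_div_of_nonneg_left hC0 (by positivity)
    nlinarith [sq_nonneg u]
  refine ⟨hcont, cosT_neg g, ⟨C, hC0, hC⟩, ?_⟩
  intro ξ hξ
  rw [cosT_cosT hg.continuous hint heven hint2]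
  exact hsupp ξ hξ

/-- A plateau function. -/
lemma exists_plateau {s s' : ℝ} (hs : 0 < s) (hss : s < s') :
    ∃ g : ℝ → ℝ, ContDiff ℝ ∞ g ∧ (∀ x, g (-x) = g x) ∧ (∀ x, s' ≤ |x| → g x = 0) ∧
      (∀ x, |x| ≤ s → g x = 1) ∧ (∀ x, 0 ≤ g x) ∧ (∀ x, g x ≤ 1) := by
  let b : ContDiffBump (0 : ℝ) := ⟨s, s', hs, hss⟩
  refine ⟨b, b.contDiff, b.neg, ?_, ?_, fun x => b.nonneg, fun x => b.le_one⟩
  · intro x hx
    apply b.zero_of_le_dist
    simpa [Real.dist_eq] using hx
  · intro x hx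
    apply b.one_of_mem_closedBall
    simpa [Real.dist_eq] using hx

namespace TestFn

variable {s : ℝ} {φ : ℝ → ℝ}

lemma cosT_eq_integral_sub (hφ : TestFn s φ) (ξ y : ℝ) :
    ∫ x, φ x * Real.cos (2 * π * (x + y) * ξ) = Real.cos (2 * π * y * ξ) * cosT φ ξ := by
  have h := integral_mul_cos_sub hφ.integrable hφ.even (2 * π * ξ) (-y)
  have e1 : ∀ x, φ x * Real.cos (2 * π * ξ * (-y - x)) = φ x * Real.cos (2 * π * (x + y) * ξ) := by
    intro x
    rw [show 2 * π * ξ * (-y - x) = -(2 * π * (x + y) * ξ) by ring, Real.cos_neg]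
  simp_rw [e1] at h
  rw [h, show 2 * π * ξ * -y = -(2 * π * y * ξ) by ring, Real.cos_neg]
  unfold cosT
  congr 1
  congr 1
  ext x
  rw [show 2 * π * ξ * x = 2 * π * x * ξ by ring]

/-- Reproducing property of plateau functions. -/
lemma conv_plateau (hφ : TestFn s φ) {g : ℝ → ℝ} (hg : Continuous g) (hgi : Integrable g)
    (hg1 : ∀ x, |x| < s → g x = 1) (y : ℝ) :
    ∫ x, φ x * cosT g (x + y) = φ y := by
  unfold cosT
  have h1 : ∀ x, φ x * ∫ u, g u * Real.cos (2 * π * u * (x + y))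
      = ∫ u, φ x * (g u * Real.cos (2 * π * u * (x + y))) := by
    intro x
    rw [integral_const_mul]
  simp_rw [h1]
  rw [integral_integral_swap]
  · have h2 : ∀ u, ∫ x, φ x * (g u * Real.cos (2 * π * u * (x + y))) = cosT φ u * Real.cos (2 * π * u * y) := by
      intro u
      have e : ∀ x, φ x * (g u * Real.cos (2 * π * u * (x + y))) = g u * (φ x * Real.cos (2 * π * (x + y) * u)) := by
        intro x
        rw [show 2 * π * u * (x + y) = 2 * π * (x + y) * u by ring]
        ring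
      simp_rw [e]
      rw [integral_const_mul, hφ.cosT_eq_integral_sub]
      rcases lt_or_ge |u| s with h | h
      · rw [hg1 u h, show 2 * π * y * u = 2 * π * u * y by ring]
        ring
      · rw [hφ.supp u h]
        ring
    simp_rw [h2]
    exact hφ.inversion y
  · have h6 : Integrable (Function.uncurry fun (x u : ℝ) => φ x * g u) (volume.prod volume) :=
      hφ.integrable.mul_prod hgi
    have hcont : Continuous (Function.uncurry fun (x u : ℝ) => φ x * (g u * Real.cos (2 * π * u * (x + y)))) := by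
      have := hφ.cont
      unfold Function.uncurry
      fun_prop
    apply h6.mono hcont.aestronglyMeasurable
    apply ae_of_all
    rintro ⟨x, u⟩
    simp only [Function.uncurry]
    rw [← mul_assoc, norm_mul (φ x * g u)]
    apply mul_le_of_le_one_right (norm_nonneg _)
    rw [Real.norm_eq_abs]
    exact Real.abs_cos_le_one _

end TestFn

/-- integral of a product of two shifted, scaled functions -/
lemma integral_shift {φ₁ φ₂ : ℝ → ℝ} {L : ℝ} (hL : 0 < L) (x y : ℝ) :
    ∫ t, φ₁ (L * (t - x) / (2 * π)) * φ₂ (L * (t - y) / (2 * π))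
      = (2 * π / L) * ∫ u, φ₁ u * φ₂ (u + L * (x - y) / (2 * π)) := by
  have h1 : ∀ t, φ₁ (L * (t - x) / (2 * π)) * φ₂ (L * (t - y) / (2 * π))
      = (fun v => (fun u => φ₁ u * φ₂ (u + L * (x - y) / (2 * π))) (L / (2 * π) * v)) (t - x) := by
    intro t
    simp only
    rw [show L / (2 * π) * (t - x) = L * (t - x) / (2 * π) by ring]
    congr 2
    ring
  rw [integral_congr_ae (ae_of_all _ h1), integral_sub_right_eq_self
    (fun v => (fun u => φ₁ u * φ₂ (u + L * (x - y) / (2 * π))) (L / (2 * π) * v)) x,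
    Measure.integral_comp_mul_left (fun u => φ₁ u * φ₂ (u + L * (x - y) / (2 * π))) (L / (2 * π)),
    smul_eq_mul, abs_of_pos (by positivity), inv_div]

lemma integrable_of_decay {φ : ℝ → ℝ} (hc : Continuous φ) {C : ℝ} (hC : 0 ≤ C)
    (hd : ∀ u, |φ u| ≤ C / (1 + u ^ 2) ^ 2) : Integrable φ := by
  apply Integrable.mono' (integrable_inv_one_add_sq.const_mul C) hc.aestronglyMeasurable
  apply ae_of_all
  intro u
  rw [Real.norm_eq_abs]
  refine (hd u).trans ?_
  rw [← div_eq_mul_inv]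
  apply div_le_div_of_nonneg_left hC (by positivity)
  nlinarith [sq_nonneg u]

lemma integrable_scaled {φ : ℝ → ℝ} (hi : Integrable φ) {L : ℝ} (hL : 0 < L) (x : ℝ) :
    Integrable (fun t => φ (L * (t - x) / (2 * π))) := by
  have h1 : Integrable (fun v => φ (L / (2 * π) * v)) := hi.comp_mul_left' (by positivity)
  have h2 := h1.comp_sub_right x
  apply h2.congr
  apply ae_of_all
  intro t
  simp only
  congr 1
  ring

variable {ι : Type*} {γ w : ι → ℝ}

lemma integrable_Sin {φ : ℝ → ℝ} (hi : Integrable φ) {L : ℝ} (hL : 0 < L) (G : Finset ι) :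
    Integrable (Sin γ w G φ L) := by
  unfold Sin
  apply integrable_finsetSum
  intro i _
  exact (integrable_scaled hi hL _).const_mul _

lemma integral_Sin {φ : ℝ → ℝ} (hi : Integrable φ) {L : ℝ} (hL : 0 < L) (G : Finset ι) :
    ∫ t, Sin γ w G φ L t = (2 * π / L) * (∫ u, φ u) * ∑ i ∈ G, w i := by
  unfold Sin
  rw [integral_finsetSum _ (fun i _ => (integrable_scaled hi hL _).const_mul _), Finset.mul_sum]
  apply Finset.sum_congr rfl
  intro i _
  rw [integral_const_mul]
  have h1 : ∀ t, φ (L * (t - γ i) / (2 * π)) = (fun v => φ (L / (2 * π) * v)) (t - γ i) := by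
    intro t
    simp only
    congr 1
    ring
  rw [integral_congr_ae (ae_of_all _ h1), integral_sub_right_eq_self (fun v => φ (L / (2 * π) * v)),
    Measure.integral_comp_mul_left, smul_eq_mul, abs_of_pos (by positivity), inv_div]
  ring

lemma integrable_Sin_mul {φ₁ φ₂ : ℝ → ℝ} (hc₂ : Continuous φ₂) (hi₁ : Integrable φ₁)
    {C₂ : ℝ} (hb₂ : ∀ u, |φ₂ u| ≤ C₂) {L : ℝ} (hL : 0 < L) (G : Finset ι) :
    Integrable (fun t => Sin γ w G φ₁ L t * Sin γ w G φ₂ L t) := by
  apply Integrable.mul_bdd (c := ∑ i ∈ G, |w i| * C₂) (integrable_Sin hi₁ hL G)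
  · exact (continuous_Sin hc₂ G L).aestronglyMeasurable
  · apply ae_of_all
    intro t
    rw [Real.norm_eq_abs]
    unfold Sin
    refine (Finset.abs_sum_le_sum_abs _ _).trans ?_
    apply Finset.sum_le_sum
    intro i _
    rw [abs_mul]
    exact mul_le_mul_of_nonneg_left (hb₂ _) (abs_nonneg _)

lemma integral_Sin_mul {φ₁ φ₂ : ℝ → ℝ} (hc₂ : Continuous φ₂) (hi₁ : Integrable φ₁)
    {C₂ : ℝ} (hb₂ : ∀ u, |φ₂ u| ≤ C₂) {L : ℝ} (hL : 0 < L) (G : Finset ι) :
    ∫ t, Sin γ w G φ₁ L t * Sin γ w G φ₂ L t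
      = (2 * π / L) * ∑ i ∈ G, ∑ j ∈ G, w i * w j * ∫ u, φ₁ u * φ₂ (u + L * (γ i - γ j) / (2 * π)) := by
  unfold Sin
  simp_rw [Finset.sum_mul_sum]
  have hint : ∀ i j, Integrable (fun t => w i * φ₁ (L * (t - γ i) / (2 * π)) * (w j * φ₂ (L * (t - γ j) / (2 * π)))) := by
    intro i j
    apply Integrable.mul_bdd (c := |w j| * C₂) ((integrable_scaled hi₁ hL _).const_mul _)
    · exact (by fun_prop : Continuous fun t => w j * φ₂ (L * (t - γ j) / (2 * π))).aestronglyMeasurable
    · apply ae_of_all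
      intro t
      rw [Real.norm_eq_abs, abs_mul]
      exact mul_le_mul_of_nonneg_left (hb₂ _) (abs_nonneg _)
  rw [integral_finsetSum _ (fun i _ => integrable_finsetSum _ fun j _ => hint i j), Finset.mul_sum]
  apply Finset.sum_congr rfl
  intro i _
  rw [integral_finsetSum _ (fun j _ => hint i j), Finset.mul_sum]
  apply Finset.sum_congr rfl
  intro j _
  have e : ∀ t, w i * φ₁ (L * (t - γ i) / (2 * π)) * (w j * φ₂ (L * (t - γ j) / (2 * π)))
      = w i * w j * (φ₁ (L * (t - γ i) / (2 * π)) * φ₂ (L * (t - γ j) / (2 * π))) := by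
    intro t; ring
  simp_rw [e]
  rw [integral_const_mul, integral_shift hL]
  ring

end Pool.Agent.H6
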