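import Mathlib
import Pool.Agent.H6.CT
import Pool.Agent.H6.PCDefs
import Pool.Agent.H6.Plateau

open MeasureTheory Set Filter Topology
open scoped Real Interval ContDiff

namespace Pool.Agent.H6

lemma cosT_add {f g : ℝ → ℝ} (hf : Integrable f) (hg : Integrable g) (ξ : ℝ) :
    cosT (fun u => f u + g u) ξ = cosT f ξ + cosT g ξ := by
  unfold cosT
  rw [← integral_add (integrable_mul_cos hf ξ) (integrable_mul_cos hg ξ)]
  congr 1
  ext u
  ring

lemma cosT_sub {f g : ℝ → ℝ} (hf : Integrable f) (hg : Integrable g) (ξ : ℝ) :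
    cosT (fun u => f u - g u) ξ = cosT f ξ - cosT g ξ := by
  unfold cosT
  rw [← integral_sub (integrable_mul_cos hf ξ) (integrable_mul_cos hg ξ)]
  congr 1
  ext u
  ring

namespace TestFn

variable {s s' : ℝ} {φ χ : ℝ → ℝ}

lemma mono (hφ : TestFn s φ) (h : s ≤ s') : TestFn s' φ :=
  ⟨hφ.cont, hφ.even, hφ.decay, fun ξ hξ => hφ.supp ξ (h.trans hξ)⟩

lemma add (hφ : TestFn s φ) (hχ : TestFn s χ) : TestFn s (fun u => φ u + χ u) := by
  obtain ⟨C, hC0, hC⟩ := hφ.decay
  obtain ⟨D, hD0, hD⟩ := hχ.decay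
  refine ⟨hφ.cont.add hχ.cont, fun u => by rw [hφ.even, hχ.even], ⟨C + D, by positivity, fun u => ?_⟩, fun ξ hξ => ?_⟩
  · rw [add_div]
    exact (abs_add_le _ _).trans (add_le_add (hC u) (hD u))
  · rw [cosT_add hφ.integrable hχ.integrable, hφ.supp ξ hξ, hχ.supp ξ hξ, add_zero]

lemma sub (hφ : TestFn s φ) (hχ : TestFn s χ) : TestFn s (fun u => φ u - χ u) := by
  obtain ⟨C, hC0, hC⟩ := hφ.decay
  obtain ⟨D, hD0, hD⟩ := hχ.decay
  refine ⟨hφ.cont.sub hχ.cont, fun u => by rw [hφ.even, hχ.even], ⟨C + D, by positivity, fun u => ?_⟩, fun ξ hξ => ?_⟩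
  · rw [add_div]
    exact (abs_sub _ _).trans (add_le_add (hC u) (hD u))
  · rw [cosT_sub hφ.integrable hχ.integrable, hφ.supp ξ hξ, hχ.supp ξ hξ, sub_zero]

lemma bounded (hφ : TestFn s φ) : ∃ C, 0 ≤ C ∧ ∀ u, |φ u| ≤ C := by
  obtain ⟨C, hC0, hC⟩ := hφ.decay
  refine ⟨C, hC0, fun u => (hC u).trans ?_⟩
  apply div_le_self hC0
  have : 1 ≤ 1 + u ^ 2 := by nlinarith [sq_nonneg u]
  exact one_le_pow₀ this

lemma integrable_abs_mul (hφ : TestFn s φ) (hχ : TestFn s χ) :
    Integrable (fun ξ => |ξ| * (cosT φ ξ * cosT χ ξ)) := by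
  have h1 := hφ.continuous_cosT
  have h2 := hχ.continuous_cosT
  apply Continuous.integrable_of_hasCompactSupport (by fun_prop)
  exact (hφ.hasCompactSupport_cosT.mul_right).mul_left

end TestFn

lemma integral_lin {f g h : ℝ → ℝ} (hf : Integrable f) (hg : Integrable g) (hh : Integrable h) (c : ℝ) :
    ∫ x, (f x + (c * g x + h x)) = (∫ x, f x) + (c * (∫ x, g x) + ∫ x, h x) := by
  have h1 : Integrable (fun x => c * g x + h x) := (hg.const_mul c).add hh
  rw [integral_add hf h1, integral_add (hg.const_mul c) hh, integral_const_mul]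

/-- All analytic inputs. -/
structure Inputs {ι : Type*} (γ w : ι → ℝ) (F : ℝ → Finset ι) (CR : ℝ) : Prop where
  ord : Ordinates ι γ w F CR
  prime : PrimeInput
  poisson : ∀ a : ℝ, 1 / 2 < a → ∃ A : ℝ → ℝ, PoissonInput γ w a A

namespace Inputs

variable {ι : Type*} [Countable ι] {γ w : ι → ℝ} {F : ℝ → Finset ι} {CR : ℝ}
variable {s : ℝ} {φ χ : ℝ → ℝ}

lemma continuous_SS (I : Inputs γ w F CR) (hφ : TestFn s φ) (hs : 0 < s) {L : ℝ} (hL : 1 ≤ L) :
    Continuous (SS γ w φ L) := by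
  obtain ⟨A, hA⟩ := I.poisson 1 (by norm_num)
  exact hA.continuous_SS hφ hs hL

lemma exists_a (hs : 0 < s) (hs1 : s < 1) : ∃ a : ℝ, 1 / 2 < a ∧ 2 * a * s < 1 := by
  refine ⟨1 / (1 + s), ?_, ?_⟩
  · rw [div_lt_div_iff₀ (by norm_num) (by positivity)]; linarith
  · rw [show 2 * (1 / (1 + s)) * s = (2 * s) / (1 + s) by ring, div_lt_one (by positivity)]; linarith

/-- Mean square theorem. -/
theorem meanSq (I : Inputs γ w F CR) (hφ : TestFn s φ) (hs : 0 < s) (hs1 : s < 1) :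
    Tendsto (fun T => avg T (fun t => SS γ w φ (Real.log T) t ^ 2)) atTop
      (𝓝 ((cosT φ 0) ^ 2 + ∫ ξ, |ξ| * (cosT φ ξ) ^ 2)) := by
  obtain ⟨a, ha, has⟩ := exists_a hs hs1
  obtain ⟨A, hA⟩ := I.poisson a ha
  obtain ⟨δ, hδc, hδS, hδ⟩ := hA.exists_delta hφ hs has
  have hlog := Real.tendsto_log_atTop
  have hL0 : ∀ᶠ T in atTop, 0 < Real.log T := hlog.eventually_gt_atTop 0
  have hWc : ∀ᶠ T in atTop, Continuous (fun t => cosT φ 0 - WW φ (Real.log T) t) := by
    filter_upwards [hL0] with T hT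
    exact continuous_const.sub (continuous_WW hφ hT)
  apply tendsto_avg_sq hWc hδc hδS _ hδ
  have h1 := tendsto_avg_WW_sq I.prime hφ hs hs1
  have h2 := tendsto_avg_WW I.prime hφ hs1
  have h3 : Tendsto (fun T => (cosT φ 0) ^ 2 + ((-(2 * cosT φ 0)) * avg T (WW φ (Real.log T))
      + avg T (fun t => (WW φ (Real.log T) t) ^ 2))) atTop (𝓝 ((cosT φ 0) ^ 2 + ∫ ξ, |ξ| * (cosT φ ξ) ^ 2)) := by
    have := ((h2.const_mul (-(2 * cosT φ 0))).add h1).const_add ((cosT φ 0) ^ 2)
    simpa using this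
  apply h3.congr'
  filter_upwards [hL0, eventually_gt_atTop 0] with T hT hT0
  have hc := continuous_WW hφ hT
  have e : (fun t => (cosT φ 0 - WW φ (Real.log T) t) ^ 2)
      = fun t => (cosT φ 0) ^ 2 + ((-(2 * cosT φ 0)) * WW φ (Real.log T) t + (WW φ (Real.log T) t) ^ 2) := by
    ext t; ring
  rw [e, avg_add continuous_const (by fun_prop), avg_add (by fun_prop) (by fun_prop), avg_const_mul]
  congr 1
  unfold avg
  simp
  field_simp

/-- First moment. -/
theorem mean (I : Inputs γ w F CR) (hφ : TestFn s φ) (hs : 0 < s) (hs1 : s < 1) :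
    Tendsto (fun T => avg T (SS γ w φ (Real.log T))) atTop (𝓝 (cosT φ 0)) := by
  obtain ⟨a, ha, has⟩ := exists_a hs hs1
  obtain ⟨A, hA⟩ := I.poisson a ha
  obtain ⟨δ, hδc, hδS, hδ⟩ := hA.exists_delta hφ hs has
  have hlog := Real.tendsto_log_atTop
  have hL0 : ∀ᶠ T in atTop, 0 < Real.log T := hlog.eventually_gt_atTop 0
  have hWc : ∀ᶠ T in atTop, Continuous (fun t => cosT φ 0 - WW φ (Real.log T) t) := by
    filter_upwards [hL0] with T hT
    exact continuous_const.sub (continuous_WW hφ hT)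
  apply tendsto_avg hWc hδc hδS _ hδ
  have h2 := tendsto_avg_WW I.prime hφ hs1
  have h3 : Tendsto (fun T => cosT φ 0 + (-1) * avg T (WW φ (Real.log T))) atTop (𝓝 (cosT φ 0)) := by
    have := (h2.const_mul (-1)).const_add (cosT φ 0)
    simpa using this
  apply h3.congr'
  filter_upwards [hL0, eventually_gt_atTop 0] with T hT hT0
  have hc := continuous_WW hφ hT
  have e : (fun t => cosT φ 0 - WW φ (Real.log T) t) = fun t => cosT φ 0 + (-1) * WW φ (Real.log T) t := by
    ext t; ring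
  rw [e, avg_add continuous_const (by fun_prop), avg_const_mul]
  congr 1
  unfold avg
  simp
  field_simp

omit [Countable ι] in
lemma SS_add (I : Inputs γ w F CR) (hφ : TestFn s φ) (hχ : TestFn s χ) {L : ℝ} (hL : 2 * π ≤ L) (t : ℝ) :
    SS γ w (fun u => φ u + χ u) L t = SS γ w φ L t + SS γ w χ L t := by
  obtain ⟨C, hC0, hC⟩ := hφ.decay
  obtain ⟨D, hD0, hD⟩ := hχ.decay
  unfold SS
  rw [← (I.ord.summable_phi hC0 hC hL t).of_abs.tsum_add (I.ord.summable_phi hD0 hD hL t).of_abs]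
  congr 1
  ext i
  ring

omit [Countable ι] in
lemma SS_sub (I : Inputs γ w F CR) (hφ : TestFn s φ) (hχ : TestFn s χ) {L : ℝ} (hL : 2 * π ≤ L) (t : ℝ) :
    SS γ w (fun u => φ u - χ u) L t = SS γ w φ L t - SS γ w χ L t := by
  obtain ⟨C, hC0, hC⟩ := hφ.decay
  obtain ⟨D, hD0, hD⟩ := hχ.decay
  unfold SS
  rw [← (I.ord.summable_phi hC0 hC hL t).of_abs.tsum_sub (I.ord.summable_phi hD0 hD hL t).of_abs]
  congr 1
  ext i
  ring

/-- Bilinear version of the mean square theorem. -/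
theorem meanMul (I : Inputs γ w F CR) (hφ : TestFn s φ) (hχ : TestFn s χ) (hs : 0 < s) (hs1 : s < 1) :
    Tendsto (fun T => avg T (fun t => SS γ w φ (Real.log T) t * SS γ w χ (Real.log T) t)) atTop
      (𝓝 (cosT φ 0 * cosT χ 0 + ∫ ξ, |ξ| * (cosT φ ξ * cosT χ ξ))) := by
  have h1 := I.meanSq (hφ.add hχ) hs hs1
  have h2 := I.meanSq (hφ.sub hχ) hs hs1
  have h3 := (h1.sub h2).const_mul (1 / 4)
  have hlog := Real.tendsto_log_atTop
  have hL0 : ∀ᶠ T in atTop, 2 * π ≤ Real.log T := hlog.eventually_ge_atTop _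
  have e1 : (1 / 4) * ((cosT (fun u => φ u + χ u) 0 ^ 2 + ∫ ξ, |ξ| * cosT (fun u => φ u + χ u) ξ ^ 2)
      - (cosT (fun u => φ u - χ u) 0 ^ 2 + ∫ ξ, |ξ| * cosT (fun u => φ u - χ u) ξ ^ 2))
      = cosT φ 0 * cosT χ 0 + ∫ ξ, |ξ| * (cosT φ ξ * cosT χ ξ) := by
    simp_rw [cosT_add hφ.integrable hχ.integrable, cosT_sub hφ.integrable hχ.integrable]
    have i1 := hφ.integrable_abs_mul hφ
    have i2 := hχ.integrable_abs_mul hχ
    have i3 := hφ.integrable_abs_mul hχ
    have e2 : ∫ ξ, |ξ| * (cosT φ ξ + cosT χ ξ) ^ 2 = (∫ ξ, |ξ| * (cosT φ ξ * cosT φ ξ))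
        + (2 * (∫ ξ, |ξ| * (cosT φ ξ * cosT χ ξ)) + ∫ ξ, |ξ| * (cosT χ ξ * cosT χ ξ)) := by
      rw [← integral_lin i1 i3 i2 2]
      congr 1
      ext ξ
      ring
    have e3 : ∫ ξ, |ξ| * (cosT φ ξ - cosT χ ξ) ^ 2 = (∫ ξ, |ξ| * (cosT φ ξ * cosT φ ξ))
        + ((-2) * (∫ ξ, |ξ| * (cosT φ ξ * cosT χ ξ)) + ∫ ξ, |ξ| * (cosT χ ξ * cosT χ ξ)) := by
      rw [← integral_lin i1 i3 i2 (-2)]
      congr 1
      ext ξ
      ring
    rw [e2, e3]
    ring
  rw [e1] at h3
  apply h3.congr'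
  filter_upwards [hL0, eventually_gt_atTop 0] with T hT hT0
  have hT1 : 1 ≤ Real.log T := by
    have := Real.pi_gt_three
    linarith
  have c1 := I.continuous_SS hφ hs hT1
  have c2 := I.continuous_SS hχ hs hT1
  have e4 : avg T (fun t => SS γ w (fun u => φ u + χ u) (Real.log T) t ^ 2)
      = avg T (fun t => SS γ w φ (Real.log T) t ^ 2 + (2 * (SS γ w φ (Real.log T) t * SS γ w χ (Real.log T) t)
        + SS γ w χ (Real.log T) t ^ 2)) := by
    congr 1
    ext t
    rw [I.SS_add hφ hχ hT]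
    ring
  have e5 : avg T (fun t => SS γ w (fun u => φ u - χ u) (Real.log T) t ^ 2)
      = avg T (fun t => SS γ w φ (Real.log T) t ^ 2 + ((-2) * (SS γ w φ (Real.log T) t * SS γ w χ (Real.log T) t)
        + SS γ w χ (Real.log T) t ^ 2)) := by
    congr 1
    ext t
    rw [I.SS_sub hφ hχ hT]
    ring
  rw [e4, e5, avg_add (by fun_prop) (by fun_prop), avg_add (by fun_prop) (by fun_prop),
    avg_add (by fun_prop) (by fun_prop), avg_add (by fun_prop) (by fun_prop), avg_const_mul, avg_const_mul]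
  ring

lemma tendsto_rpow_div {p : ℝ} (hp : p < 1) (K : ℝ) :
    Tendsto (fun T : ℝ => (1 / T) * (K * (1 + T) ^ p)) atTop (𝓝 0) := by
  have h1 : Tendsto (fun T : ℝ => (1 + T) ^ (p - 1)) atTop (𝓝 0) := by
    have h2 := tendsto_rpow_neg_atTop (y := 1 - p) (by linarith)
    have h3 : Tendsto (fun T : ℝ => 1 + T) atTop atTop := tendsto_atTop_add_const_left _ _ tendsto_id
    have h4 := h2.comp h3
    simpa [Function.comp_def] using h4
  have h2 : Tendsto (fun T : ℝ => (2 * |K|) * (1 + T) ^ (p - 1)) atTop (𝓝 0) := by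
    simpa using h1.const_mul (2 * |K|)
  apply squeeze_zero_norm' _ h2
  filter_upwards [eventually_ge_atTop 1] with T hT
  have hT0 : 0 < T := by linarith
  rw [Real.norm_eq_abs, abs_mul, abs_mul, abs_of_pos (by positivity : 0 < 1 / T), abs_of_pos (by positivity : 0 < (1 + T) ^ p)]
  have h3 : (1 + T) ^ p = (1 + T) ^ (p - 1) * (1 + T) := by
    rw [Real.rpow_sub (by positivity), Real.rpow_one]
    field_simp
  rw [h3]
  calc 1 / T * (|K| * ((1 + T) ^ (p - 1) * (1 + T))) = (|K| * (1 + T) ^ (p - 1)) * ((1 + T) / T) := by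
        field_simp
    _ ≤ (|K| * (1 + T) ^ (p - 1)) * 2 := by
        apply mul_le_mul_of_nonneg_left _ (by positivity)
        rw [div_le_iff₀ hT0]
        linarith
    _ = _ := by ring

/-- **Montgomery's theorem in test function form** (abstract version). -/
theorem montgomery (I : Inputs γ w F CR) (hφ : TestFn s φ) (hs : 0 < s) (hs1 : s < 1) :
    Tendsto (fun T => (1 / PC.norm T) * ∑ i ∈ F T, ∑ j ∈ F T, w i * w j *
      φ ((γ i - γ j) * Real.log T / (2 * π))) atTop (𝓝 (cosT φ 0 + ∫ ξ, |ξ| * cosT φ ξ)) := by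
  set s' := (1 + s) / 2 with hs'
  have hss' : s < s' := by rw [hs']; linarith
  have hs'1 : s' < 1 := by rw [hs']; linarith
  have hs'0 : 0 < s' := by linarith
  obtain ⟨g, hgs, hge, hg0, hg1, _, _⟩ := exists_plateau hs hss'
  have hχ : TestFn s' (cosT g) := testFn_cosT hgs hge hg0
  have hφ' : TestFn s' φ := hφ.mono hss'.le
  have hgc : HasCompactSupport g := by
    apply HasCompactSupport.intro (K := Icc (-s') s') isCompact_Icc
    intro x hx
    apply hg0
    by_contra h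
    rw [not_le, abs_lt] at h
    exact hx ⟨h.1.le, h.2.le⟩
  have hgi : Integrable g := hgs.continuous.integrable_of_hasCompactSupport hgc
  have hinv : ∀ ξ, cosT (cosT g) ξ = g ξ := fun ξ => cosT_cosT hgs.continuous hgi hge hχ.integrable ξ
  have h1 := I.meanMul hφ' hχ hs'0 hs'1
  have e1 : cosT φ 0 * cosT (cosT g) 0 + ∫ ξ, |ξ| * (cosT φ ξ * cosT (cosT g) ξ)
      = cosT φ 0 + ∫ ξ, |ξ| * cosT φ ξ := by
    have h2 : ∀ ξ, cosT φ ξ * cosT (cosT g) ξ = cosT φ ξ := by
      intro ξ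
      rw [hinv]
      rcases le_or_gt |ξ| s with h | h
      · rw [hg1 ξ h, mul_one]
      · rw [hφ.supp ξ h.le, zero_mul]
    simp_rw [h2]
  rw [e1] at h1
  obtain ⟨C, hC0, hC⟩ := hφ.decay
  obtain ⟨D, hD0, hD⟩ := hχ.decay
  obtain ⟨Db, hDb0, hDb⟩ := hχ.bounded
  have hlog := Real.tendsto_log_atTop
  have hL0 : ∀ᶠ T in atTop, 2 * π ≤ Real.log T := hlog.eventually_ge_atTop _
  -- relation between the double sum and the integral
  have key : ∀ᶠ T in atTop, |(1 / PC.norm T) * (∑ i ∈ F T, ∑ j ∈ F T, w i * w j *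
      φ ((γ i - γ j) * Real.log T / (2 * π))) - avg T (fun t => SS γ w φ (Real.log T) t * SS γ w (cosT g) (Real.log T) t)|
      ≤ (1 / T) * ((4 * π * C * D * CR ^ 2) * (1 + T) ^ (1 / 2 : ℝ)) := by
    filter_upwards [hL0, eventually_gt_atTop 0] with T hT hT0
    have hπ := Real.pi_gt_three
    have hL : 0 < Real.log T := by linarith
    have hT1 : 1 ≤ Real.log T := by linarith
    have h3 := I.ord.edge_second hφ.cont hχ.cont hC0 hD0 hC hD hT hT0.le
      (I.continuous_SS hφ hs hT1) (I.continuous_SS hχ hs'0 hT1)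
      (integrable_Sin_mul hχ.cont hφ.integrable hDb hL (F T))
    have h4 := integral_Sin_mul (γ := γ) (w := w) hχ.cont hφ.integrable hDb hL (F T)
    have h5 : ∀ y, ∫ u, φ u * cosT g (u + y) = φ y :=
      fun y => hφ.conv_plateau hgs.continuous hgi (fun x hx => hg1 x hx.le) y
    simp_rw [h5] at h4
    rw [h4] at h3
    have e2 : (1 / PC.norm T) * (∑ i ∈ F T, ∑ j ∈ F T, w i * w j *
        φ ((γ i - γ j) * Real.log T / (2 * π)))
        = (1 / T) * (2 * π / Real.log T * ∑ i ∈ F T, ∑ j ∈ F T, w i * w j * φ (Real.log T * (γ i - γ j) / (2 * π))) := by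
      unfold PC.norm
      have e3 : ∀ i j, φ ((γ i - γ j) * Real.log T / (2 * π)) = φ (Real.log T * (γ i - γ j) / (2 * π)) := by
        intro i j
        rw [mul_comm]
      simp_rw [e3]
      field_simp
    rw [e2]
    unfold avg
    rw [← mul_sub, abs_mul, abs_of_pos (by positivity : 0 < 1 / T)]
    exact mul_le_mul_of_nonneg_left h3 (by positivity)
  have h6 := tendsto_rpow_div (p := 1 / 2) (by norm_num) (4 * π * C * D * CR ^ 2)
  have h7 : Tendsto (fun T => (1 / PC.norm T) * (∑ i ∈ F T, ∑ j ∈ F T, w i * w j *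
      φ ((γ i - γ j) * Real.log T / (2 * π))) - avg T (fun t => SS γ w φ (Real.log T) t * SS γ w (cosT g) (Real.log T) t))
      atTop (𝓝 0) := by
    apply squeeze_zero_norm' _ h6
    filter_upwards [key] with T hT
    rw [Real.norm_eq_abs]
    exact hT
  have h8 := h7.add h1
  rw [zero_add] at h8
  apply h8.congr
  intro T
  ring

/-- The Riemann–von Mangoldt asymptotics (abstract version). -/
theorem count (I : Inputs γ w F CR) :
    Tendsto (fun T => (1 / PC.norm T) * ∑ i ∈ F T, w i) atTop (𝓝 1) := by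
  obtain ⟨g, hgs, hge, hg0, hg1, _, _⟩ := exists_plateau (s := 1 / 4) (s' := 1 / 2) (by norm_num) (by norm_num)
  have hχ : TestFn (1 / 2) (cosT g) := testFn_cosT hgs hge hg0
  have hgc : HasCompactSupport g := by
    apply HasCompactSupport.intro (K := Icc (-(1 / 2)) (1 / 2)) isCompact_Icc
    intro x hx
    apply hg0
    by_contra h
    rw [not_le, abs_lt] at h
    exact hx ⟨h.1.le, h.2.le⟩
  have hgi : Integrable g := hgs.continuous.integrable_of_hasCompactSupport hgc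
  have hinv : ∀ ξ, cosT (cosT g) ξ = g ξ := fun ξ => cosT_cosT hgs.continuous hgi hge hχ.integrable ξ
  have h1 := I.mean hχ (by norm_num) (by norm_num)
  rw [hinv, hg1 0 (by norm_num)] at h1
  obtain ⟨D, hD0, hD⟩ := hχ.decay
  have hlog := Real.tendsto_log_atTop
  have hL0 : ∀ᶠ T in atTop, 2 * π ≤ Real.log T := hlog.eventually_ge_atTop _
  have hint1 : ∫ u, cosT g u = 1 := by
    have := hinv 0
    unfold cosT at this ⊢
    simpa [hg1 0 (by norm_num)] using this
  have h7 : Tendsto (fun T => (1 / PC.norm T) * (∑ i ∈ F T, w i) - avg T (SS γ w (cosT g) (Real.log T)))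
      atTop (𝓝 0) := by
    apply squeeze_zero_norm' _ (tendsto_rpow_div (p := 1 / 4) (by norm_num) (2 * π * D * CR))
    filter_upwards [hL0, eventually_gt_atTop 0] with T hT hT0
    have hπ := Real.pi_gt_three
    have hL : 0 < Real.log T := by linarith
    have hT1 : 1 ≤ Real.log T := by linarith
    have h3 := I.ord.edge_first hD0 hD hT hT0.le (I.continuous_SS hχ (by norm_num) hT1)
      (integrable_Sin hχ.integrable hL (F T))
    rw [integral_Sin hχ.integrable hL, hint1] at h3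
    have e2 : (1 / PC.norm T) * (∑ i ∈ F T, w i) = (1 / T) * (2 * π / Real.log T * 1 * ∑ i ∈ F T, w i) := by
      unfold PC.norm
      field_simp
    rw [Real.norm_eq_abs, e2]
    unfold avg
    rw [← mul_sub, abs_mul, abs_of_pos (by positivity : 0 < 1 / T)]
    exact mul_le_mul_of_nonneg_left h3 (by positivity)
  have h8 := h7.add h1
  rw [zero_add] at h8
  apply h8.congr
  intro T
  ring

end Inputs

end Pool.Agent.H6
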