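import Mathlib

open MeasureTheory Set Filter Topology
open scoped Real Interval

namespace Pool.Agent.H6

section
variable {ι : Type*}

/-- total weight of the cell `c` -/
noncomputable def cellN (F : Finset ι) (w : ι → ℝ) (c : ι → ℤ) (k : ℤ) : ℝ :=
  ∑ i ∈ F, if c i = k then w i else 0

lemma cellN_eq_zero {F : Finset ι} {w : ι → ℝ} {c : ι → ℤ} {k : ℤ} (h : k ∉ F.image c) :
    cellN F w c k = 0 := by
  unfold cellN
  apply Finset.sum_eq_zero
  intro i hi
  rw [if_neg]
  rintro rfl
  exact h (Finset.mem_image_of_mem c hi)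

lemma sum_sq_cellN_le (F : Finset ι) (w : ι → ℝ) (c : ι → ℤ) (S : Finset ℤ) :
    ∑ k ∈ S, cellN F w c k ^ 2 ≤ ∑ k ∈ F.image c, cellN F w c k ^ 2 := by
  have h1 : ∑ k ∈ S, cellN F w c k ^ 2 ≤ ∑ k ∈ S ∪ F.image c, cellN F w c k ^ 2 := by
    apply Finset.sum_le_sum_of_subset_of_nonneg Finset.subset_union_left
    intro k _ _
    positivity
  refine h1.trans (le_of_eq ?_)
  symm
  apply Finset.sum_subset Finset.subset_union_right
  intro k _ hk
  rw [cellN_eq_zero hk]
  norm_num

lemma sum_mul_cellN (F : Finset ι) (w : ι → ℝ) (c : ι → ℤ) (g : ℤ → ℝ) :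
    ∑ j ∈ F, w j * g (c j) = ∑ k ∈ F.image c, cellN F w c k * g k := by
  unfold cellN
  simp_rw [Finset.sum_mul]
  rw [Finset.sum_comm]
  apply Finset.sum_congr rfl
  intro i hi
  rw [Finset.sum_eq_single (c i)]
  · simp
  · intro b _ hb
    rw [if_neg (Ne.symm hb), zero_mul]
  · intro h
    exact absurd (Finset.mem_image_of_mem c hi) h

lemma sum_shift_le (F : Finset ι) (w : ι → ℝ) (c : ι → ℤ) (d : ℤ) :
    ∑ i ∈ F, ∑ j ∈ F, (if c i - c j = d then w i * w j else 0)
      ≤ ∑ i ∈ F, ∑ j ∈ F, (if c i - c j = 0 then w i * w j else 0) := by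
  have e : ∀ d : ℤ, ∑ i ∈ F, ∑ j ∈ F, (if c i - c j = d then w i * w j else 0)
      = ∑ k ∈ F.image c, cellN F w c k * cellN F w c (k + d) := by
    intro d
    rw [Finset.sum_comm]
    rw [← sum_mul_cellN F w c (fun k => cellN F w c (k + d))]
    apply Finset.sum_congr rfl
    intro j _
    unfold cellN
    rw [Finset.mul_sum]
    apply Finset.sum_congr rfl
    intro i _
    by_cases h : c i - c j = d
    · rw [if_pos h, if_pos (by omega)]; ring
    · rw [if_neg h, if_neg (by omega)]; ring
  rw [e, e]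
  have h1 : ∀ k, cellN F w c k * cellN F w c (k + d) ≤ (1 / 2) * cellN F w c k ^ 2 + (1 / 2) * cellN F w c (k + d) ^ 2 := by
    intro k
    nlinarith [sq_nonneg (cellN F w c k - cellN F w c (k + d))]
  have h2 : ∑ k ∈ F.image c, cellN F w c (k + d) ^ 2 ≤ ∑ k ∈ F.image c, cellN F w c k ^ 2 := by
    have := sum_sq_cellN_le F w c ((F.image c).image (fun k => k + d))
    rw [Finset.sum_image (fun a _ b _ h => by simpa using h)] at this
    exact this
  calc ∑ k ∈ F.image c, cellN F w c k * cellN F w c (k + d)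
      ≤ ∑ k ∈ F.image c, ((1 / 2) * cellN F w c k ^ 2 + (1 / 2) * cellN F w c (k + d) ^ 2) :=
        Finset.sum_le_sum fun k _ => h1 k
    _ = (1 / 2) * ∑ k ∈ F.image c, cellN F w c k ^ 2 + (1 / 2) * ∑ k ∈ F.image c, cellN F w c (k + d) ^ 2 := by
        rw [Finset.sum_add_distrib, Finset.mul_sum, Finset.mul_sum]
    _ ≤ ∑ k ∈ F.image c, cellN F w c k ^ 2 := by linarith
    _ = ∑ k ∈ F.image c, cellN F w c k * cellN F w c (k + 0) := by
        apply Finset.sum_congr rfl
        intro k _
        rw [add_zero, sq]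

/-- Counting close pairs at a larger scale. -/
lemma cells (F : Finset ι) (w x : ι → ℝ) (hw : ∀ i, 0 ≤ w i) {h : ℝ} (hh : 0 < h) (K : ℕ) :
    ∑ i ∈ F, ∑ j ∈ F, (if |x i - x j| ≤ K * h then w i * w j else 0)
      ≤ (2 * K + 1) * ∑ i ∈ F, ∑ j ∈ F, (if |x i - x j| ≤ h then w i * w j else 0) := by
  set c : ι → ℤ := fun i => ⌊x i / h⌋ with hc
  have hfl : ∀ i, (c i : ℝ) ≤ x i / h ∧ x i / h < c i + 1 := fun i => ⟨Int.floor_le _, Int.lt_floor_add_one _⟩
  have h1 : ∀ i j, (if |x i - x j| ≤ K * h then w i * w j else 0)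
      ≤ ∑ d ∈ Finset.Icc (-(K : ℤ)) K, if c i - c j = d then w i * w j else 0 := by
    intro i j
    have hnn : ∀ d ∈ Finset.Icc (-(K : ℤ)) K, 0 ≤ (if c i - c j = d then w i * w j else 0) := by
      intro d _
      split_ifs
      · exact mul_nonneg (hw i) (hw j)
      · exact le_rfl
    split_ifs with hij
    · have h2 : |x i / h - x j / h| ≤ K := by
        rw [← sub_div, abs_div, abs_of_pos hh, div_le_iff₀ hh]
        exact hij
      rw [abs_le] at h2
      have h3 : c i - c j ≤ K := by
        have : ((c i - c j : ℤ) : ℝ) < ((K : ℤ) + 1 : ℤ) := by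
          push_cast
          linarith [(hfl i).1, (hfl j).2]
        have := Int.cast_lt.mp this
        omega
      have h4 : -(K : ℤ) ≤ c i - c j := by
        have : ((-(K : ℤ) - 1 : ℤ) : ℝ) < ((c i - c j : ℤ) : ℝ) := by
          push_cast
          linarith [(hfl i).2, (hfl j).1]
        have := Int.cast_lt.mp this
        omega
      have := Finset.single_le_sum hnn (Finset.mem_Icc.mpr ⟨h4, h3⟩)
      simpa using this
    · exact Finset.sum_nonneg hnn
  calc ∑ i ∈ F, ∑ j ∈ F, (if |x i - x j| ≤ K * h then w i * w j else 0)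
      ≤ ∑ i ∈ F, ∑ j ∈ F, ∑ d ∈ Finset.Icc (-(K : ℤ)) K, (if c i - c j = d then w i * w j else 0) :=
        Finset.sum_le_sum fun i _ => Finset.sum_le_sum fun j _ => h1 i j
    _ = ∑ d ∈ Finset.Icc (-(K : ℤ)) K, ∑ i ∈ F, ∑ j ∈ F, (if c i - c j = d then w i * w j else 0) := by
        rw [Finset.sum_comm]
        rw [Finset.sum_comm]
        simp_rw [Finset.sum_comm (s := F) (t := Finset.Icc (-(K : ℤ)) K)]
    _ ≤ ∑ d ∈ Finset.Icc (-(K : ℤ)) K, ∑ i ∈ F, ∑ j ∈ F, (if c i - c j = 0 then w i * w j else 0) :=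
        Finset.sum_le_sum fun d _ => sum_shift_le F w c d
    _ = (2 * K + 1) * ∑ i ∈ F, ∑ j ∈ F, (if c i - c j = 0 then w i * w j else 0) := by
        rw [Finset.sum_const, nsmul_eq_mul, Int.card_Icc]
        congr 1
        have : ((K : ℤ) + 1 - -(K : ℤ)).toNat = 2 * K + 1 := by omega
        rw [this]
        push_cast
        ring
    _ ≤ (2 * K + 1) * ∑ i ∈ F, ∑ j ∈ F, (if |x i - x j| ≤ h then w i * w j else 0) := by
        apply mul_le_mul_of_nonneg_left _ (by positivity)
        apply Finset.sum_le_sum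
        intro i _
        apply Finset.sum_le_sum
        intro j _
        by_cases hij : c i - c j = 0
        · rw [if_pos hij, if_pos]
          have h5 : c i = c j := by omega
          have h6 : |x i / h - x j / h| ≤ 1 := by
            rw [abs_le]
            constructor
            · have := (hfl i).1
              rw [h5] at this
              linarith [(hfl j).2]
            · have := (hfl i).2
              rw [h5] at this
              linarith [(hfl j).1]
          rw [← sub_div, abs_div, abs_of_pos hh, div_le_iff₀ hh, one_mul] at h6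
          exact h6
        · rw [if_neg hij]
          split_ifs
          · exact mul_nonneg (hw i) (hw j)
          · exact le_rfl

end

end Pool.Agent.H6
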