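import Mathlib
import Pool.Agent.H6.Kernel

open MeasureTheory Set Filter Topology
open scoped Real Interval ContDiff

namespace Pool.Agent.H6

/-- triangle function -/
noncomputable def tri (x : ℝ) : ℝ := max 0 (1 - |x|)

lemma continuous_tri : Continuous tri := by unfold tri; fun_prop

lemma tri_even (x : ℝ) : tri (-x) = tri x := by unfold tri; rw [abs_neg]

lemma tri_eq_zero {x : ℝ} (hx : 1 ≤ |x|) : tri x = 0 := by
  unfold tri; rw [max_eq_left]; linarith

lemma tri_eq {x : ℝ} (hx : |x| ≤ 1) : tri x = 1 - |x| := by
  unfold tri; rw [max_eq_right]; linarith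

lemma tri_nonneg (x : ℝ) : 0 ≤ tri x := le_max_left _ _

lemma hasCompactSupport_tri : HasCompactSupport tri := by
  apply HasCompactSupport.intro (K := Icc (-1) 1) isCompact_Icc
  intro x hx
  apply tri_eq_zero
  by_contra h
  rw [not_le, abs_lt] at h
  exact hx ⟨h.1.le, h.2.le⟩

lemma integrable_tri : Integrable tri := continuous_tri.integrable_of_hasCompactSupport hasCompactSupport_tri

/-- `(sin πu / πu)²` is the cosine transform of the triangle function. -/
lemma cosT_tri (u : ℝ) : cosT tri u = (Real.sinc (π * u)) ^ 2 := by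
  unfold cosT
  rw [TestFn.integral_even (S := 1) (by norm_num)]
  · have h1 : ∫ x in (0 : ℝ)..1, tri x * Real.cos (2 * π * x * u)
        = ∫ x in (0 : ℝ)..1, (1 - x) * Real.cos (2 * π * x * u) := by
      apply intervalIntegral.integral_congr
      intro x hx
      rw [uIcc_of_le (by norm_num)] at hx
      simp only
      rw [tri_eq (by rw [abs_of_nonneg hx.1]; exact hx.2), abs_of_nonneg hx.1]
    rw [h1]
    rcases eq_or_ne u 0 with hu | hu
    · rw [hu]
      have h2 : ∫ x in (0 : ℝ)..1, (1 - x) = 1 / 2 := by
        rw [intervalIntegral.integral_sub (by simp) (by simp), integral_id]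
        norm_num
      simp [h2]
    · have hpu : π * u ≠ 0 := mul_ne_zero Real.pi_ne_zero hu
      have hderiv : ∀ x ∈ uIcc (0 : ℝ) 1, HasDerivAt
          (fun x => (1 - x) * (Real.sin (2 * π * x * u) / (2 * π * u)) - Real.cos (2 * π * x * u) / (2 * π * u) ^ 2)
          ((1 - x) * Real.cos (2 * π * x * u)) x := by
        intro x _
        have e1 : HasDerivAt (fun x : ℝ => 2 * π * x * u) (2 * π * u) x := by
          have := ((hasDerivAt_id x).const_mul (2 * π)).mul_const u
          simpa using this
        have e2 := (e1.sin).div_const (2 * π * u)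
        have e3 := (e1.cos).div_const ((2 * π * u) ^ 2)
        have e4 : HasDerivAt (fun x : ℝ => 1 - x) (-1) x := by
          simpa using (hasDerivAt_id x).const_sub 1
        have e5 := (e4.mul e2).sub e3
        refine e5.congr_deriv ?_
        have : 2 * π * u ≠ 0 := by
          rw [mul_assoc]; exact mul_ne_zero two_ne_zero hpu
        field_simp
        ring
      rw [intervalIntegral.integral_eq_sub_of_hasDerivAt hderiv (by
        apply Continuous.intervalIntegrable; fun_prop)]
      rw [Real.sinc_of_ne_zero hpu]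
      have h2 : Real.cos (2 * π * 1 * u) = 1 - 2 * Real.sin (π * u) ^ 2 := by
        rw [show 2 * π * 1 * u = 2 * (π * u) by ring, Real.cos_two_mul, Real.cos_sq']
        ring
      rw [h2]
      simp
      field_simp
      ring
  · intro x
    rw [tri_even, show 2 * π * (-x) * u = -(2 * π * x * u) by ring, Real.cos_neg]
  · intro x hx
    rw [tri_eq_zero (by rw [abs_of_pos (by linarith)]; exact hx.le), zero_mul]

/-- Multiplication formula for the cosine transform. -/
lemma integral_mul_cosT {f g : ℝ → ℝ} (hf : Integrable f) (hg : Integrable g) (hfc : Continuous f) (hgc : Continuous g) :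
    ∫ x, f x * cosT g x = ∫ x, cosT f x * g x := by
  unfold cosT
  have h1 : ∀ x, f x * ∫ u, g u * Real.cos (2 * π * u * x) = ∫ u, f x * (g u * Real.cos (2 * π * u * x)) := by
    intro x; rw [integral_const_mul]
  simp_rw [h1]
  rw [integral_integral_swap]
  · congr 1
    ext u
    rw [← integral_mul_const]
    congr 1
    ext x
    rw [show 2 * π * u * x = 2 * π * x * u by ring]
    ring
  · have h6 : Integrable (Function.uncurry fun (x u : ℝ) => f x * g u) (volume.prod volume) := hf.mul_prod hg
    have hcont : Continuous (Function.uncurry fun (x u : ℝ) => f x * (g u * Real.cos (2 * π * u * x))) := by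
      unfold Function.uncurry
      fun_prop
    apply h6.mono hcont.aestronglyMeasurable
    apply ae_of_all
    rintro ⟨x, u⟩
    simp only [Function.uncurry]
    rw [← mul_assoc, norm_mul (f x * g u)]
    apply mul_le_of_le_one_right (norm_nonneg _)
    rw [Real.norm_eq_abs]
    exact Real.abs_cos_le_one _

lemma abs_sinc_sq_le (u : ℝ) : (Real.sinc u) ^ 2 ≤ 1 := by
  have h := Real.abs_sinc_le_one u
  rw [← sq_abs]
  exact pow_le_one₀ (abs_nonneg _) h

lemma continuous_sinc_sq : Continuous fun u : ℝ => (Real.sinc (π * u)) ^ 2 := by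
  have := Real.continuous_sinc
  fun_prop

namespace TestFn

variable {s : ℝ} {φ : ℝ → ℝ}

/-- The limit in Montgomery's theorem is the integral against the GUE pair correlation measure. -/
theorem limit_eq (hφ : TestFn s φ) (hs1 : s < 1) :
    cosT φ 0 + ∫ ξ, |ξ| * cosT φ ξ = φ 0 + ∫ u, φ u * (1 - (Real.sinc (π * u)) ^ 2) := by
  have h1 : φ 0 = ∫ ξ, cosT φ ξ := by
    have := hφ.inversion 0
    rw [← this]
    change ∫ ξ, cosT φ ξ * Real.cos (2 * π * ξ * 0) = _
    simp
  have h2 : cosT φ 0 = ∫ u, φ u := by
    unfold cosT; simp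
  have h3 : ∫ u, φ u * (Real.sinc (π * u)) ^ 2 = ∫ x, cosT φ x * tri x := by
    simp_rw [← cosT_tri]
    exact integral_mul_cosT hφ.integrable integrable_tri hφ.cont continuous_tri
  have hi : Integrable (fun u => φ u * (Real.sinc (π * u)) ^ 2) := by
    apply Integrable.mul_bdd (c := 1) hφ.integrable
    · exact continuous_sinc_sq.aestronglyMeasurable
    · exact ae_of_all _ fun u => by
        rw [Real.norm_eq_abs, abs_of_nonneg (sq_nonneg _)]; exact abs_sinc_sq_le _
  have h4 : ∫ u, φ u * (1 - (Real.sinc (π * u)) ^ 2) = (∫ u, φ u) - ∫ u, φ u * (Real.sinc (π * u)) ^ 2 := by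
    rw [← integral_sub hφ.integrable hi]
    congr 1
    ext u
    ring
  have h5 : ∀ x, cosT φ x * tri x = cosT φ x - |x| * cosT φ x := by
    intro x
    rcases le_or_gt |x| 1 with h | h
    · rw [tri_eq h]; ring
    · rw [hφ.supp x (by linarith)]; ring
  have h6 : Integrable (fun ξ => |ξ| * cosT φ ξ) := by
    have := hφ.continuous_cosT
    apply Continuous.integrable_of_hasCompactSupport (by fun_prop)
    exact hφ.hasCompactSupport_cosT.mul_left
  rw [h4, h3, h1, h2]
  simp_rw [h5]
  rw [integral_sub hφ.integrable_cosT h6]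
  ring

end TestFn

end Pool.Agent.H6
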