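import Mathlib
import Pool.Agent.H6.TestFn

open MeasureTheory Set Filter Topology FourierTransform
open scoped Real Interval SchwartzMap ContDiff

namespace Pool.Agent.H6

/-! ### Test functions from odd densities -/

lemma integral_inv_pow_three_le {u : ℝ} (hu : 0 ≤ u) {p : ℝ → ℝ} {C : ℝ} (hC0 : 0 ≤ C)
    (hpi : IntegrableOn p (Ioi u)) (hC : ∀ u, |p u| ≤ C / (1 + u ^ 2) ^ 3) :
    |∫ v in Ioi u, p v| ≤ (π * C) / (1 + u ^ 2) ^ 2 := by
  have h1 : |∫ v in Ioi u, p v| ≤ ∫ v in Ioi u, (C / (1 + u ^ 2) ^ 2) * (1 + v ^ 2)⁻¹ := by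
    refine abs_integral_le_integral_abs.trans ?_
    apply setIntegral_mono_on hpi.abs _ measurableSet_Ioi
    · intro v hv
      have hv' : u < v := hv
      refine (hC v).trans ?_
      rw [div_mul_eq_mul_div, ← div_eq_mul_inv, div_div]
      apply div_le_div_of_nonneg_left hC0 (by positivity)
      have h3 : (1 + u ^ 2) ^ 2 ≤ (1 + v ^ 2) ^ 2 := by
        apply pow_le_pow_left₀ (by positivity)
        nlinarith
      calc (1 + v ^ 2) * (1 + u ^ 2) ^ 2 ≤ (1 + v ^ 2) * (1 + v ^ 2) ^ 2 :=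
            mul_le_mul_of_nonneg_left h3 (by positivity)
        _ = (1 + v ^ 2) ^ 3 := by ring
    · exact (integrable_inv_one_add_sq.const_mul _).integrableOn
  refine h1.trans ?_
  have h2 : ∫ v in Ioi u, (C / (1 + u ^ 2) ^ 2) * (1 + v ^ 2)⁻¹ ≤ ∫ v, (C / (1 + u ^ 2) ^ 2) * (1 + v ^ 2)⁻¹ := by
    apply setIntegral_le_integral (integrable_inv_one_add_sq.const_mul _)
    apply ae_of_all
    intro v
    positivity
  refine h2.trans ?_
  rw [integral_const_mul, integral_univ_inv_one_add_sq]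
  apply le_of_eq
  ring

/-- The test function with density `p`. -/
noncomputable def tail (p : ℝ → ℝ) (u : ℝ) : ℝ := ∫ v in Ioi |u|, p v

section
variable {p : ℝ → ℝ} {C : ℝ}

lemma integrable_of_decay3 (hc : Continuous p) (hC : ∀ u, |p u| ≤ C / (1 + u ^ 2) ^ 3) (hC0 : 0 ≤ C) :
    Integrable p := by
  apply Integrable.mono' (integrable_inv_one_add_sq.const_mul C) hc.aestronglyMeasurable
  apply ae_of_all
  intro u
  rw [Real.norm_eq_abs]
  refine (hC u).trans ?_
  rw [← div_eq_mul_inv]
  apply div_le_div_of_nonneg_left hC0 (by positivity)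
  have : 1 ≤ 1 + u ^ 2 := by nlinarith [sq_nonneg u]
  nlinarith [sq_nonneg (u ^ 2), sq_nonneg u, mul_nonneg (sq_nonneg u) (sq_nonneg (u^2))]

lemma tail_eq (hi : Integrable p) (hodd : ∀ u, p (-u) = -p u) (u : ℝ) :
    tail p u = (∫ v in Ioi 0, p v) - ∫ v in (0 : ℝ)..u, p v := by
  have h1 : ∀ x, 0 ≤ x → ∫ v in Ioi x, p v = (∫ v in Ioi 0, p v) - ∫ v in (0 : ℝ)..x, p v := by
    intro x hx
    rw [intervalIntegral.integral_of_le hx, eq_sub_iff_add_eq]
    rw [add_comm, ← setIntegral_union (Ioc_disjoint_Ioi le_rfl) measurableSet_Ioi hi.integrableOn hi.integrableOn,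
      Ioc_union_Ioi_eq_Ioi hx]
  unfold tail
  rw [h1 _ (abs_nonneg u)]
  rcases abs_choice u with h | h
  · rw [h]
  · rw [h]
    congr 1
    have := intervalIntegral.integral_comp_neg (f := p) (a := 0) (b := u)
    simp only [neg_zero] at this
    rw [intervalIntegral.integral_symm, ← this]
    rw [← intervalIntegral.integral_neg]
    congr 1
    ext v
    rw [hodd]
    ring

lemma hasDerivAt_tail (hc : Continuous p) (hi : Integrable p) (hodd : ∀ u, p (-u) = -p u) (u : ℝ) :
    HasDerivAt (tail p) (-(p u)) u := by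
  have h1 : tail p = fun u => (∫ v in Ioi 0, p v) - ∫ v in (0 : ℝ)..u, p v := by
    ext u; exact tail_eq hi hodd u
  rw [h1]
  have h2 := intervalIntegral.integral_hasDerivAt_right (hc.intervalIntegrable 0 u)
    (hc.stronglyMeasurableAtFilter _ _) hc.continuousAt
  simpa using h2.const_sub (∫ v in Ioi 0, p v)

lemma testFn_tail (hc : Continuous p) (hC0 : 0 ≤ C) (hC : ∀ u, |p u| ≤ C / (1 + u ^ 2) ^ 3)
    (hodd : ∀ u, p (-u) = -p u) {s : ℝ} (hs : 0 < s)
    (hsin : ∀ ξ, s ≤ |ξ| → ∫ u, p u * Real.sin (2 * π * u * ξ) = 0) : TestFn s (tail p) := by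
  have hi := integrable_of_decay3 hc hC hC0
  have hcont : Continuous (tail p) := by
    rw [continuous_iff_continuousAt]
    exact fun x => (hasDerivAt_tail hc hi hodd x).continuousAt
  have hdec : ∀ u, |tail p u| ≤ (π * C) / (1 + u ^ 2) ^ 2 := by
    intro u
    have := integral_inv_pow_three_le (abs_nonneg u) hC0 hi.integrableOn hC
    rwa [sq_abs] at this
  have hti : Integrable (tail p) := by
    apply Integrable.mono' (integrable_inv_one_add_sq.const_mul (π * C)) hcont.aestronglyMeasurable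
    apply ae_of_all
    intro u
    rw [Real.norm_eq_abs]
    refine (hdec u).trans ?_
    rw [← div_eq_mul_inv]
    apply div_le_div_of_nonneg_left (by positivity) (by positivity)
    nlinarith [sq_nonneg u]
  refine ⟨hcont, fun u => by unfold tail; rw [abs_neg], ⟨π * C, by positivity, hdec⟩, ?_⟩
  intro ξ hξ
  have hξ0 : ξ ≠ 0 := by
    rintro rfl
    rw [abs_zero] at hξ
    linarith
  have hd : ∀ u, HasDerivAt (fun u => Real.sin (2 * π * u * ξ) / (2 * π * ξ)) (Real.cos (2 * π * u * ξ)) u := by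
    intro u
    have h1 : HasDerivAt (fun u : ℝ => 2 * π * u * ξ) (2 * π * ξ) u := by
      have := ((hasDerivAt_id u).const_mul (2 * π)).mul_const ξ
      simpa using this
    have h2 := (h1.sin).div_const (2 * π * ξ)
    apply h2.congr_deriv
    have := Real.pi_ne_zero
    field_simp
  have hcosi : Integrable (fun u => tail p u * Real.cos (2 * π * u * ξ)) := integrable_mul_cos hti ξ
  have hsini : ∀ {f : ℝ → ℝ}, Integrable f → Integrable (fun u => f u * (Real.sin (2 * π * u * ξ) / (2 * π * ξ))) := by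
    intro f hf
    apply Integrable.mul_bdd (c := |1 / (2 * π * ξ)|) hf
    · exact (by fun_prop : Continuous fun u : ℝ => Real.sin (2 * π * u * ξ) / (2 * π * ξ)).aestronglyMeasurable
    · exact ae_of_all _ fun u => by
        rw [Real.norm_eq_abs, abs_div, abs_div, abs_one]
        exact div_le_div_of_nonneg_right (Real.abs_sin_le_one _) (abs_nonneg _)
  have h := integral_mul_deriv_eq_deriv_mul_of_integrable (u := tail p) (u' := fun u => -(p u))
    (v := fun u => Real.sin (2 * π * u * ξ) / (2 * π * ξ)) (v' := fun u => Real.cos (2 * π * u * ξ))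
    (fun x _ => hasDerivAt_tail hc hi hodd x) (fun x _ => hd x) hcosi (hsini hi.neg) (hsini hti)
  unfold cosT
  rw [h]
  have h3 : ∀ u, -(p u) * (Real.sin (2 * π * u * ξ) / (2 * π * ξ)) = (-(1 / (2 * π * ξ))) * (p u * Real.sin (2 * π * u * ξ)) := by
    intro u
    ring
  simp_rw [h3]
  rw [integral_const_mul, hsin ξ hξ]
  simp

end

end Pool.Agent.H6
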