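import Mathlib
import Pool.Agent.H6.Plateau
import Pool.Agent.H6.Weights

open MeasureTheory Set Filter Topology FourierTransform
open scoped Real Interval SchwartzMap ContDiff

namespace Pool.Agent.H6

/-- Moments against an even function with compactly supported Fourier transform. -/
lemma integral_pow_mul_sin_eq_zero {f : ℝ → ℝ} (heven : ∀ u, f (-u) = f u)
    (hint : ∀ n : ℕ, Integrable (fun x => x ^ n * f x)) {s : ℝ}
    (hsupp : ∀ ξ, s ≤ |ξ| → cosT f ξ = 0) (n : ℕ) {ξ : ℝ} (hξ : s < |ξ|) :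
    (∫ x, x ^ n * f x * Real.sin (2 * π * x * ξ) = 0) ∧ (∫ x, x ^ n * f x * Real.cos (2 * π * x * ξ) = 0) := by
  have hf : Integrable f := by simpa using hint 0
  have hC : ∀ n : ℕ, Integrable (fun x : ℝ => x ^ n • (f x : ℂ)) := by
    intro n
    have := (hint n).ofReal (𝕜 := ℂ)
    apply this.congr
    apply ae_of_all
    intro x
    simp [Complex.real_smul]
  have h1 := Real.iteratedDeriv_fourier (f := fun x => (f x : ℂ)) (N := ⊤) (n := n) (fun m _ => hC m) le_top
  have h2 : iteratedDeriv n (𝓕 (fun x : ℝ => (f x : ℂ))) ξ = 0 := by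
    have h3 : 𝓕 (fun x : ℝ => (f x : ℂ)) =ᶠ[𝓝 ξ] fun _ => 0 := by
      have : ∀ᶠ x in 𝓝 ξ, s < |x| := continuous_abs.continuousAt.eventually (lt_mem_nhds hξ)
      filter_upwards [this] with x hx
      rw [fourier_ofReal_even hf heven, hsupp x hx.le]
      simp
    rw [h3.iteratedDeriv_eq]
    simp
  rw [h1, Real.fourier_real_eq_integral_exp_smul] at h2
  have h4 : ∀ v : ℝ, Complex.exp (↑(-2 * π * v * ξ) * Complex.I) • ((-2 * π * Complex.I * v) ^ n • (f v : ℂ))
      = (-2 * π * Complex.I) ^ n * (Complex.exp (↑(-2 * π * v * ξ) * Complex.I) * ((v ^ n * f v : ℝ) : ℂ)) := by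
    intro v
    simp only [smul_eq_mul]
    push_cast
    ring
  simp_rw [h4] at h2
  rw [integral_const_mul] at h2
  have h5 : ((-2 * π * Complex.I : ℂ)) ^ n ≠ 0 := by
    apply pow_ne_zero
    simp [Real.pi_ne_zero]
  have h6 := (mul_eq_zero.mp h2).resolve_left h5
  have hint6 : Integrable (fun v : ℝ => Complex.exp (↑(-2 * π * v * ξ) * Complex.I) * ((v ^ n * f v : ℝ) : ℂ)) := by
    have h7 := ((hint n).ofReal (𝕜 := ℂ)).bdd_mul (c := 1) (f := fun v : ℝ => Complex.exp (↑(-2 * π * v * ξ) * Complex.I))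
      ((by fun_prop : Continuous fun u : ℝ => Complex.exp (↑(-2 * π * u * ξ) * Complex.I)).aestronglyMeasurable)
      (ae_of_all _ fun u => by rw [Complex.norm_exp_ofReal_mul_I])
    exact h7
  constructor
  · have h8 := integral_im hint6
    have h9 : ∀ v : ℝ, RCLike.im (Complex.exp (↑(-2 * π * v * ξ) * Complex.I) * ((v ^ n * f v : ℝ) : ℂ))
        = -(v ^ n * f v * Real.sin (2 * π * v * ξ)) := by
      intro v
      have : (Complex.exp (↑(-2 * π * v * ξ) * Complex.I) * ((v ^ n * f v : ℝ) : ℂ)).im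
        = -(v ^ n * f v * Real.sin (2 * π * v * ξ)) := by
        rw [Complex.im_mul_ofReal, Complex.exp_ofReal_mul_I_im, show -2 * π * v * ξ = -(2 * π * v * ξ) by ring,
          Real.sin_neg]
        ring
      exact this
    simp_rw [h9] at h8
    rw [integral_neg] at h8
    have h10 : (0 : ℝ) = RCLike.im (0 : ℂ) := by simp
    have h11 : -∫ v, v ^ n * f v * Real.sin (2 * π * v * ξ) = 0 := by
      rw [h8, h6]; simp
    linarith
  · have h8 := integral_re hint6
    have h9 : ∀ v : ℝ, RCLike.re (Complex.exp (↑(-2 * π * v * ξ) * Complex.I) * ((v ^ n * f v : ℝ) : ℂ))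
        = (v ^ n * f v * Real.cos (2 * π * v * ξ)) := by
      intro v
      have : (Complex.exp (↑(-2 * π * v * ξ) * Complex.I) * ((v ^ n * f v : ℝ) : ℂ)).re
        = (v ^ n * f v * Real.cos (2 * π * v * ξ)) := by
        rw [Complex.re_mul_ofReal, Complex.exp_ofReal_mul_I_re, show -2 * π * v * ξ = -(2 * π * v * ξ) by ring,
          Real.cos_neg]
        ring
      exact this
    simp_rw [h9] at h8
    rw [h8, h6]; simp

/-- The Fourier transform of a square. -/
lemma cosT_sq_eq_zero {g : ℝ → ℝ} (hgc : Continuous g) (hgi : Integrable g) (heven : ∀ x, g (-x) = g x)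
    (hKi : Integrable (cosT g)) {r : ℝ} (hsupp : ∀ x, r ≤ |x| → g x = 0) {ξ : ℝ} (hξ : 2 * r ≤ |ξ|) :
    cosT (fun u => cosT g u ^ 2) ξ = 0 := by
  have hKc : Continuous (cosT g) := TestFn.continuous_cosT_of_integrable hgi
  have h1 : ∀ u, cosT g u ^ 2 * Real.cos (2 * π * u * ξ)
      = ∫ x, (cosT g u * Real.cos (2 * π * u * ξ)) * (g x * Real.cos (2 * π * x * u)) := by
    intro u
    rw [integral_const_mul]
    unfold cosT
    ring
  unfold cosT at h1 ⊢
  simp_rw [h1]
  change ∫ u, ∫ x, (cosT g u * Real.cos (2 * π * u * ξ)) * (g x * Real.cos (2 * π * x * u)) = 0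
  rw [integral_integral_swap]
  · apply integral_eq_zero_of_ae
    apply ae_of_all
    intro x
    simp only [Pi.zero_apply]
    have h2 : ∀ u, (cosT g u * Real.cos (2 * π * u * ξ)) * (g x * Real.cos (2 * π * x * u))
        = g x / 2 * (cosT g u * Real.cos (2 * π * u * (ξ - x)) + cosT g u * Real.cos (2 * π * u * (ξ + x))) := by
      intro u
      have h3 := Real.cos_sub (2 * π * u * ξ) (2 * π * x * u)
      have h4 := Real.cos_add (2 * π * u * ξ) (2 * π * x * u)
      rw [show 2 * π * u * (ξ - x) = 2 * π * u * ξ - 2 * π * x * u by ring,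
        show 2 * π * u * (ξ + x) = 2 * π * u * ξ + 2 * π * x * u by ring, h3, h4]
      ring
    simp_rw [h2]
    rw [integral_const_mul, integral_add (integrable_mul_cos hKi _) (integrable_mul_cos hKi _)]
    change g x / 2 * (cosT (cosT g) (ξ - x) + cosT (cosT g) (ξ + x)) = 0
    rw [cosT_cosT hgc hgi heven hKi, cosT_cosT hgc hgi heven hKi]
    rcases le_or_gt r |x| with h | h
    · rw [hsupp x h]; ring
    · have h5 : r ≤ |ξ - x| := by
        have := abs_sub_abs_le_abs_sub ξ x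
        linarith
      have h6 : r ≤ |ξ + x| := by
        have := abs_sub_abs_le_abs_sub ξ (-x)
        rw [abs_neg, sub_neg_eq_add] at this
        linarith
      rw [hsupp _ h5, hsupp _ h6]; ring
  · have h6 : Integrable (Function.uncurry fun (u x : ℝ) => cosT g u * g x) (volume.prod volume) :=
      hKi.mul_prod hgi
    have hcont : Continuous (Function.uncurry fun (u x : ℝ) =>
        (cosT g u * Real.cos (2 * π * u * ξ)) * (g x * Real.cos (2 * π * x * u))) := by
      unfold Function.uncurry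
      fun_prop
    apply h6.mono hcont.aestronglyMeasurable
    apply ae_of_all
    rintro ⟨u, x⟩
    simp only [Function.uncurry]
    rw [show (cosT g u * Real.cos (2 * π * u * ξ)) * (g x * Real.cos (2 * π * x * u))
      = (cosT g u * g x) * (Real.cos (2 * π * u * ξ) * Real.cos (2 * π * x * u)) by ring, norm_mul]
    apply mul_le_of_le_one_right (norm_nonneg _)
    rw [norm_mul, Real.norm_eq_abs, Real.norm_eq_abs]
    exact mul_le_one₀ (Real.abs_cos_le_one _) (abs_nonneg _) (Real.abs_cos_le_one _)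

lemma cosT_dilate (f : ℝ → ℝ) {R : ℝ} (hR : 0 < R) (ξ : ℝ) :
    cosT (fun u => f (u / R)) ξ = R * cosT f (R * ξ) := by
  unfold cosT
  have h := Measure.integral_comp_div (fun u => f u * Real.cos (2 * π * u * (R * ξ))) R
  rw [abs_of_pos hR, smul_eq_mul] at h
  rw [← h]
  congr 1
  ext u
  congr 2
  field_simp

lemma one_add_pow_le {x : ℝ} (hx : 0 ≤ x) (n : ℕ) : (1 + x) ^ n ≤ 2 ^ n * (1 + x ^ n) := by
  rcases le_or_gt x 1 with h | h
  · calc (1 + x) ^ n ≤ 2 ^ n := by
          apply pow_le_pow_left₀ (by positivity); linarith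
      _ ≤ 2 ^ n * (1 + x ^ n) := by
          have : 0 ≤ x ^ n := by positivity
          have h2 : (0 : ℝ) < 2 ^ n := by positivity
          nlinarith
  · calc (1 + x) ^ n ≤ (2 * x) ^ n := by
          apply pow_le_pow_left₀ (by positivity); linarith
      _ = 2 ^ n * x ^ n := by rw [mul_pow]
      _ ≤ 2 ^ n * (1 + x ^ n) := by
          have h2 : (0 : ℝ) < 2 ^ n := by positivity
          nlinarith

/-- The basic kernel: even, nonnegative, band limited, rapidly decaying. -/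
lemma exists_kappa : ∃ κ : ℝ → ℝ, Continuous κ ∧ (∀ u, 0 ≤ κ u) ∧ (∀ u, κ u ≤ 1) ∧ κ 0 = 1 ∧
    (∀ u, κ (-u) = κ u) ∧ (∀ n : ℕ, ∃ C, 0 ≤ C ∧ ∀ u, κ u ≤ C / (1 + u ^ 2) ^ n) ∧
    (∀ ξ, 1 ≤ |ξ| → cosT κ ξ = 0) := by
  obtain ⟨b, hbs, hbe, hb0, hbpos, hbn⟩ : ∃ b : ℝ → ℝ, ContDiff ℝ ∞ b ∧ (∀ x, b (-x) = b x) ∧
      (∀ x, 1 / 2 ≤ |x| → b x = 0) ∧ 0 < ∫ x, b x ∧ (∀ x, 0 ≤ b x) := by
    let c : ContDiffBump (0 : ℝ) := ⟨1 / 4, 1 / 2, by norm_num, by norm_num⟩
    refine ⟨c, c.contDiff, c.neg, ?_, c.integral_pos, fun x => c.nonneg⟩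
    intro x hx
    apply c.zero_of_le_dist
    rw [dist_zero_right, Real.norm_eq_abs]
    exact hx
  set I := ∫ x, b x with hI
  set g : ℝ → ℝ := fun x => b x / I with hg
  have hgs : ContDiff ℝ ∞ g := hbs.div_const I
  have hge : ∀ x, g (-x) = g x := fun x => by simp only [hg, hbe]
  have hg0 : ∀ x, 1 / 2 ≤ |x| → g x = 0 := fun x hx => by simp only [hg, hb0 x hx, zero_div]
  have hgn : ∀ x, 0 ≤ g x := fun x => div_nonneg (hbn x) hbpos.le
  have hgc : HasCompactSupport g := by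
    apply HasCompactSupport.intro (K := Icc (-(1 / 2)) (1 / 2)) isCompact_Icc
    intro x hx
    apply hg0
    by_contra h
    rw [not_le, abs_lt] at h
    exact hx ⟨h.1.le, h.2.le⟩
  have hgi : Integrable g := hgs.continuous.integrable_of_hasCompactSupport hgc
  have hint1 : ∫ x, g x = 1 := by
    simp only [hg]
    rw [integral_div, ← hI, div_self hbpos.ne']
  have hT := testFn_cosT hgs hge hg0
  refine ⟨fun u => cosT g u ^ 2, hT.cont.pow 2, fun u => sq_nonneg _, ?_, ?_, ?_, ?_, ?_⟩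
  · intro u
    have h1 := abs_cosT_le hgi u
    have h2 : ∫ x, |g x| = 1 := by
      rw [← hint1]
      congr 1
      ext x
      exact abs_of_nonneg (hgn x)
    rw [h2] at h1
    simp only
    rw [← sq_abs]
    exact pow_le_one₀ (abs_nonneg _) h1
  · simp only
    unfold cosT
    simp [hint1]
  · intro u
    simp only [cosT_neg]
  · intro n
    obtain ⟨C0, h0, hC0⟩ := cosT_decay hgs hgc hge 0
    obtain ⟨C2, h2, hC2⟩ := cosT_decay hgs hgc hge (2 * n)
    refine ⟨C0 * (2 ^ n * (C0 + C2)), by positivity, fun u => ?_⟩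
    rw [le_div_iff₀ (by positivity)]
    have e0 := hC0 u
    have e2 := hC2 u
    rw [pow_zero, one_mul] at e0
    rw [pow_mul, sq_abs] at e2
    have h3 := one_add_pow_le (sq_nonneg u) n
    have h4 : cosT g u ^ 2 = |cosT g u| * |cosT g u| := by rw [abs_mul_abs_self, sq]
    simp only [h4]
    calc |cosT g u| * |cosT g u| * (1 + u ^ 2) ^ n ≤ |cosT g u| * |cosT g u| * (2 ^ n * (1 + (u ^ 2) ^ n)) :=
          mul_le_mul_of_nonneg_left h3 (by positivity)
      _ = |cosT g u| * (2 ^ n * (|cosT g u| + (u ^ 2) ^ n * |cosT g u|)) := by ring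
      _ ≤ C0 * (2 ^ n * (C0 + C2)) := by
          apply mul_le_mul e0 _ (by positivity) h0.le
          apply mul_le_mul_of_nonneg_left _ (by positivity)
          linarith
  · intro ξ hξ
    exact cosT_sq_eq_zero hgs.continuous hgi hge hT.integrable hg0 (by linarith)

/-- The weights `x^(2k+1) κ(x/R)` and their integrated test functions. -/
lemma exists_weights : ∃ κ : ℝ → ℝ, Continuous κ ∧ (∀ u, 0 ≤ κ u) ∧ (∀ u, κ u ≤ 1) ∧ κ 0 = 1 ∧
    (∀ u, κ (-u) = κ u) ∧
    (∀ k : ℕ, ∀ R : ℝ, 0 < R → ∃ C, 0 ≤ C ∧ ∀ u, |u ^ k * κ (u / R)| ≤ C / (1 + u ^ 2) ^ 3) ∧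
    (∀ k : ℕ, ∀ R : ℝ, 0 < R → ∀ s, 1 / R < s → TestFn s (tail (fun u => u ^ (2 * k + 1) * κ (u / R)))) := by
  obtain ⟨κ, hκc, hκ0, hκ1, hκz, hκe, hκd, hκs⟩ := exists_kappa
  have hdec : ∀ k : ℕ, ∀ R : ℝ, 0 < R → ∃ C, 0 ≤ C ∧ ∀ u, |u ^ k * κ (u / R)| ≤ C / (1 + u ^ 2) ^ 3 := by
    intro k R hR
    obtain ⟨C, hC0, hC⟩ := hκd (k + 3)
    refine ⟨C * (1 + R ^ 2) ^ (k + 3), by positivity, fun u => ?_⟩
    rw [le_div_iff₀ (by positivity), abs_mul, abs_of_nonneg (hκ0 _)]
    have h1 : |u ^ k| ≤ (1 + u ^ 2) ^ k := by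
      rw [abs_pow]
      apply pow_le_pow_left₀ (abs_nonneg _)
      nlinarith [sq_abs u, sq_nonneg (|u| - 1), abs_nonneg u]
    have h2 := hC (u / R)
    rw [le_div_iff₀ (by positivity)] at h2
    have h3 : 1 + u ^ 2 ≤ (1 + R ^ 2) * (1 + (u / R) ^ 2) := by
      have : R ^ 2 * (u / R) ^ 2 = u ^ 2 := by field_simp
      nlinarith [sq_nonneg (u / R), sq_nonneg R]
    have h4 : (1 + u ^ 2) ^ (k + 3) ≤ (1 + R ^ 2) ^ (k + 3) * (1 + (u / R) ^ 2) ^ (k + 3) := by
      rw [← mul_pow]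
      exact pow_le_pow_left₀ (by positivity) h3 _
    calc |u ^ k| * κ (u / R) * (1 + u ^ 2) ^ 3 ≤ (1 + u ^ 2) ^ k * κ (u / R) * (1 + u ^ 2) ^ 3 := by
          apply mul_le_mul_of_nonneg_right _ (by positivity)
          exact mul_le_mul_of_nonneg_right h1 (hκ0 _)
      _ = κ (u / R) * (1 + u ^ 2) ^ (k + 3) := by ring
      _ ≤ κ (u / R) * ((1 + R ^ 2) ^ (k + 3) * (1 + (u / R) ^ 2) ^ (k + 3)) :=
          mul_le_mul_of_nonneg_left h4 (hκ0 _)
      _ = (κ (u / R) * (1 + (u / R) ^ 2) ^ (k + 3)) * (1 + R ^ 2) ^ (k + 3) := by ring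
      _ ≤ C * (1 + R ^ 2) ^ (k + 3) := mul_le_mul_of_nonneg_right h2 (by positivity)
  refine ⟨κ, hκc, hκ0, hκ1, hκz, hκe, hdec, ?_⟩
  intro k R hR s hs
  obtain ⟨C, hC0, hC⟩ := hdec (2 * k + 1) R hR
  have hs0 : 0 < s := lt_trans (by positivity) hs
  have hcR : Continuous (fun u => κ (u / R)) := hκc.comp (continuous_id.div_const R)
  apply testFn_tail (by fun_prop) hC0 hC _ hs0
  · intro ξ hξ
    have heven : ∀ u, (fun u => κ (u / R)) (-u) = (fun u => κ (u / R)) u := by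
      intro u
      simp only [neg_div, hκe]
    have hint : ∀ n : ℕ, Integrable (fun x => x ^ n * κ (x / R)) := by
      intro n
      obtain ⟨D, hD0, hD⟩ := hdec n R hR
      exact integrable_of_decay3 (by fun_prop) hD hD0
    have hsupp : ∀ ξ, 1 / R ≤ |ξ| → cosT (fun u => κ (u / R)) ξ = 0 := by
      intro ξ hξ
      rw [cosT_dilate κ hR, hκs, mul_zero]
      rw [abs_mul, abs_of_pos hR]
      rw [div_le_iff₀ hR] at hξ
      linarith
    exact (integral_pow_mul_sin_eq_zero heven hint hsupp (2 * k + 1) (lt_of_lt_of_le hs hξ)).1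
  · intro u
    rw [neg_div, hκe, Odd.neg_pow ⟨k, rfl⟩]
    ring

end Pool.Agent.H6
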