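import Mathlib
import Pool.Agent.H6.CT2
import Pool.Agent.H6.Cells
import Pool.Agent.H6.Weights2
import Pool.Agent.H6.Sinc

open MeasureTheory Set Filter Topology
open scoped Real Interval ContDiff

namespace Pool.Agent.H6

/-- Normalised number of pairs at distance at most `β` (in mean spacings). -/
noncomputable def MM {ι : Type*} (γ w : ι → ℝ) (F : ℝ → Finset ι) (T β : ℝ) : ℝ :=
  (1 / PC.norm T) * ∑ i ∈ F T, ∑ j ∈ F T,
    if |(γ i - γ j) * Real.log T / (2 * π)| ≤ β then w i * w j else 0

lemma norm_pos {T : ℝ} (hT : 1 < T) : 0 < PC.norm T := by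
  unfold PC.norm
  have := Real.log_pos hT
  positivity

/-- The GUE mass of `[-β, β]`. -/
noncomputable def G2 (β : ℝ) : ℝ := 1 + ∫ u in (-β)..β, (1 - (Real.sinc (π * u)) ^ 2)

section
variable {ι : Type*} {γ w : ι → ℝ} {F : ℝ → Finset ι} {CR : ℝ}

lemma MM_nonneg (hw : ∀ i, 0 ≤ w i) {T : ℝ} (hT : 1 < T) (β : ℝ) : 0 ≤ MM γ w F T β := by
  unfold MM
  have := norm_pos hT
  apply mul_nonneg (by positivity)
  apply Finset.sum_nonneg
  intro i _
  apply Finset.sum_nonneg
  intro j _
  split_ifs
  · exact mul_nonneg (hw i) (hw j)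
  · exact le_rfl

lemma MM_mono (hw : ∀ i, 0 ≤ w i) {T : ℝ} (hT : 1 < T) : Monotone (MM γ w F T) := by
  intro β β' h
  unfold MM
  have := norm_pos hT
  apply mul_le_mul_of_nonneg_left _ (by positivity)
  apply Finset.sum_le_sum
  intro i _
  apply Finset.sum_le_sum
  intro j _
  split_ifs with h1 h2 h2
  · exact le_rfl
  · exact absurd (h1.trans h) h2
  · exact mul_nonneg (hw i) (hw j)
  · exact le_rfl

/-- Uniform bound for the number of close pairs. -/
theorem MM_bound [Countable ι] (I : Inputs γ w F CR) :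
    ∃ T0 C : ℝ, 1 < T0 ∧ 0 < C ∧ ∀ T, T0 ≤ T → ∀ β, 0 ≤ β → MM γ w F T β ≤ C * (1 + β) := by
  have hw := I.ord.w_nonneg
  obtain ⟨κ, hκc, hκ0, hκ1, hκz, hκe, hκd, hκs⟩ := exists_kappa
  have hφ : TestFn (1 / 2) (fun u => κ (u / 2)) := by
    refine ⟨hκc.comp (continuous_id.div_const 2), fun u => by rw [neg_div, hκe], ?_, ?_⟩
    · obtain ⟨C, hC0, hC⟩ := hκd 2
      refine ⟨16 * C, by positivity, fun u => ?_⟩
      rw [abs_of_nonneg (hκ0 _), le_div_iff₀ (by positivity)]
      have h1 := hC (u / 2)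
      rw [le_div_iff₀ (by positivity)] at h1
      have h2 : (1 + u ^ 2) ^ 2 ≤ 16 * (1 + (u / 2) ^ 2) ^ 2 := by
        have : 1 + u ^ 2 ≤ 4 * (1 + (u / 2) ^ 2) := by nlinarith [sq_nonneg u]
        calc (1 + u ^ 2) ^ 2 ≤ (4 * (1 + (u / 2) ^ 2)) ^ 2 := pow_le_pow_left₀ (by positivity) this 2
          _ = _ := by ring
      calc κ (u / 2) * (1 + u ^ 2) ^ 2 ≤ κ (u / 2) * (16 * (1 + (u / 2) ^ 2) ^ 2) :=
            mul_le_mul_of_nonneg_left h2 (hκ0 _)
        _ = 16 * (κ (u / 2) * (1 + (u / 2) ^ 2) ^ 2) := by ring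
        _ ≤ 16 * C := by linarith
    · intro ξ hξ
      rw [cosT_dilate κ (by norm_num), hκs, mul_zero]
      rw [abs_mul, abs_of_pos (by norm_num : (0 : ℝ) < 2)]
      linarith
  obtain ⟨h, hh0, hh⟩ : ∃ h : ℝ, 0 < h ∧ ∀ u, |u| ≤ h → 1 / 2 ≤ κ (u / 2) := by
    have h1 : ContinuousAt (fun u => κ (u / 2)) 0 := (hκc.comp (continuous_id.div_const 2)).continuousAt
    have h2 : ∀ᶠ u in 𝓝 (0 : ℝ), 1 / 2 < κ (u / 2) := by
      apply h1.eventually
      apply lt_mem_nhds
      simp [hκz]
      norm_num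
    rw [Metric.eventually_nhds_iff] at h2
    obtain ⟨ε, hε, h3⟩ := h2
    refine ⟨ε / 2, by positivity, fun u hu => (h3 ?_).le⟩
    rw [Real.dist_eq, sub_zero]
    linarith
  have hCT := I.montgomery hφ (by norm_num) (by norm_num)
  set ℓ := cosT (fun u => κ (u / 2)) 0 + ∫ ξ, |ξ| * cosT (fun u => κ (u / 2)) ξ with hℓ
  have hev : ∀ᶠ T in atTop, (1 / PC.norm T) * ∑ i ∈ F T, ∑ j ∈ F T, w i * w j *
      κ ((γ i - γ j) * Real.log T / (2 * π) / 2) < ℓ + 1 :=
    hCT.eventually (gt_mem_nhds (by linarith))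
  obtain ⟨T1, hT1⟩ := Filter.eventually_atTop.mp hev
  have hM : ∀ T, max T1 2 ≤ T → MM γ w F T h ≤ 2 * |ℓ + 1| := by
    intro T hT
    have hT1' := (le_max_left _ _).trans hT
    have hT2 : 2 ≤ T := (le_max_right _ _).trans hT
    have hn := norm_pos (T := T) (by linarith)
    have h1 : MM γ w F T h ≤ 2 * ((1 / PC.norm T) * ∑ i ∈ F T, ∑ j ∈ F T, w i * w j *
      κ ((γ i - γ j) * Real.log T / (2 * π) / 2)) := by
      unfold MM
      rw [mul_left_comm]
      apply mul_le_mul_of_nonneg_left _ (by positivity)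
      rw [Finset.mul_sum]
      apply Finset.sum_le_sum
      intro i _
      rw [Finset.mul_sum]
      apply Finset.sum_le_sum
      intro j _
      have hwij := mul_nonneg (hw i) (hw j)
      split_ifs with h2
      · have := hh _ h2
        nlinarith
      · have := hκ0 ((γ i - γ j) * Real.log T / (2 * π) / 2)
        positivity
    have h2 := hT1 T hT1'
    have h3 := le_abs_self (ℓ + 1)
    linarith
  refine ⟨max T1 2, (2 / h + 3) * (2 * |ℓ + 1|) + 1, lt_of_lt_of_le (by norm_num) (le_max_right _ _), by positivity, ?_⟩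
  intro T hT β hβ
  have hT2 : 2 ≤ T := (le_max_right _ _).trans hT
  have hn := norm_pos (T := T) (by linarith)
  set K := ⌈β / h⌉₊ with hK
  have hK1 : β / h ≤ K := Nat.le_ceil _
  have hK2 : (K : ℝ) < β / h + 1 := Nat.ceil_lt_add_one (by positivity)
  have hβK : β ≤ K * h := by rwa [div_le_iff₀ hh0] at hK1
  have h1 : MM γ w F T β ≤ MM γ w F T (K * h) := MM_mono hw (by linarith) hβK
  have h2 : MM γ w F T (K * h) ≤ (2 * K + 1) * MM γ w F T h := by
    unfold MM
    rw [mul_left_comm]
    apply mul_le_mul_of_nonneg_left _ (by positivity)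
    have h3 := cells (F T) w (fun i => γ i * Real.log T / (2 * π)) hw hh0 K
    have e : ∀ i j, γ i * Real.log T / (2 * π) - γ j * Real.log T / (2 * π) = (γ i - γ j) * Real.log T / (2 * π) := by
      intro i j; ring
    simp only [e] at h3
    exact h3
  have h3 := hM T hT
  have h4 : 0 ≤ MM γ w F T h := MM_nonneg hw (by linarith) h
  calc MM γ w F T β ≤ (2 * K + 1) * MM γ w F T h := h1.trans h2
    _ ≤ (2 * (β / h + 1) + 1) * (2 * |ℓ + 1|) := by
        apply mul_le_mul (by linarith) h3 h4 (by positivity)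
    _ ≤ ((2 / h + 3) * (2 * |ℓ + 1|) + 1) * (1 + β) := by
        have h5 : 2 * (β / h + 1) + 1 = 2 / h * β + 3 := by ring
        rw [h5]
        have h6 : 2 / h * β + 3 ≤ (2 / h + 3) * (1 + β) := by
          have : 0 ≤ 2 / h := by positivity
          nlinarith
        calc (2 / h * β + 3) * (2 * |ℓ + 1|) ≤ ((2 / h + 3) * (1 + β)) * (2 * |ℓ + 1|) :=
              mul_le_mul_of_nonneg_right h6 (by positivity)
          _ ≤ _ := by nlinarith

lemma tail_eq_indicator (p : ℝ → ℝ) (u : ℝ) :
    tail p u = ∫ β in Ioi 0, if |u| ≤ β then p β else 0 := by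
  have h0 : tail p u = ∫ β in Ioi 0, (Ioi |u|).indicator p β := by
    unfold tail
    rw [setIntegral_indicator measurableSet_Ioi]
    congr 2
    symm
    apply inter_eq_right.mpr
    exact Ioi_subset_Ioi (abs_nonneg u)
  rw [h0]
  apply setIntegral_congr_ae measurableSet_Ioi
  have h1 : ∀ᵐ β : ℝ, β ≠ |u| := by
    rw [ae_iff]
    simp
  filter_upwards [h1] with β hβ _
  simp only [indicator, mem_Ioi]
  by_cases h : |u| ≤ β
  · rw [if_pos h, if_pos (lt_of_le_of_ne h (Ne.symm hβ))]
  · rw [if_neg h, if_neg (fun h' => h h'.le)]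

/-- Layer cake formula for the double sum. -/
lemma sum_tail_eq {p : ℝ → ℝ} (hp : Integrable p) (T : ℝ) :
    (1 / PC.norm T) * ∑ i ∈ F T, ∑ j ∈ F T, w i * w j * tail p ((γ i - γ j) * Real.log T / (2 * π))
      = ∫ β in Ioi 0, p β * MM γ w F T β := by
  have hint : ∀ u : ℝ, ∀ c : ℝ, IntegrableOn (fun β => c * (if |u| ≤ β then p β else 0)) (Ioi 0) := by
    intro u c
    apply Integrable.const_mul
    have : (fun β => if |u| ≤ β then p β else 0) = (Ici |u|).indicator p := by
      ext β
      simp only [indicator, mem_Ici]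
    rw [this]
    exact (hp.integrableOn (s := Ioi 0)).indicator measurableSet_Ici
  have h1 : ∀ i j, w i * w j * tail p ((γ i - γ j) * Real.log T / (2 * π))
      = ∫ β in Ioi 0, (w i * w j) * (if |(γ i - γ j) * Real.log T / (2 * π)| ≤ β then p β else 0) := by
    intro i j
    rw [tail_eq_indicator, integral_const_mul]
  simp_rw [h1]
  have h2 : ∀ i, ∑ j ∈ F T, ∫ β in Ioi 0, (w i * w j) * (if |(γ i - γ j) * Real.log T / (2 * π)| ≤ β then p β else 0)
      = ∫ β in Ioi 0, ∑ j ∈ F T, (w i * w j) * (if |(γ i - γ j) * Real.log T / (2 * π)| ≤ β then p β else 0) := by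
    intro i
    rw [integral_finsetSum]
    intro j _
    exact hint _ _
  simp_rw [h2]
  rw [← integral_finsetSum]
  · rw [← integral_const_mul]
    congr 1
    ext β
    unfold MM
    rw [mul_left_comm (p β), Finset.mul_sum (a := p β)]
    congr 1
    apply Finset.sum_congr rfl
    intro i _
    rw [Finset.mul_sum]
    apply Finset.sum_congr rfl
    intro j _
    split_ifs <;> ring
  · intro i _
    apply integrable_finsetSum
    intro j _
    exact hint _ _

end

lemma one_sub_sinc_nonneg (u : ℝ) : 0 ≤ 1 - (Real.sinc (π * u)) ^ 2 := by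
  have := abs_sinc_sq_le (π * u)
  linarith

lemma G2_eq {β : ℝ} (hβ : 0 ≤ β) : G2 β = PC.gue (-β) β := by
  unfold G2 PC.gue
  rw [if_pos ⟨by linarith, hβ⟩]
  ring

lemma continuous_G2 : Continuous G2 := by
  have hc : Continuous (fun u : ℝ => 1 - (Real.sinc (π * u)) ^ 2) := continuous_const.sub continuous_sinc_sq
  have h1 : ∀ β, G2 β = 1 + ((∫ u in (0 : ℝ)..β, (1 - (Real.sinc (π * u)) ^ 2)) - ∫ u in (0 : ℝ)..(-β), (1 - (Real.sinc (π * u)) ^ 2)) := by
    intro β
    unfold G2
    rw [intervalIntegral.integral_interval_sub_left (hc.intervalIntegrable _ _) (hc.intervalIntegrable _ _)]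
  have h2 : Continuous fun β => ∫ u in (0 : ℝ)..β, (1 - (Real.sinc (π * u)) ^ 2) :=
    intervalIntegral.continuous_primitive (fun a b => hc.intervalIntegrable a b) 0
  rw [show G2 = fun β => 1 + ((∫ u in (0 : ℝ)..β, (1 - (Real.sinc (π * u)) ^ 2)) - ∫ u in (0 : ℝ)..(-β), (1 - (Real.sinc (π * u)) ^ 2)) from funext h1]
  exact continuous_const.add (h2.sub (h2.comp continuous_neg))

lemma G2_bounds {β : ℝ} (hβ : 0 ≤ β) : 0 ≤ G2 β ∧ G2 β ≤ 2 * (1 + β) := by
  have hc : Continuous (fun u : ℝ => 1 - (Real.sinc (π * u)) ^ 2) := continuous_const.sub continuous_sinc_sq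
  unfold G2
  constructor
  · have : 0 ≤ ∫ u in (-β)..β, (1 - (Real.sinc (π * u)) ^ 2) :=
      intervalIntegral.integral_nonneg (by linarith) fun u _ => one_sub_sinc_nonneg u
    linarith
  · have : ∫ u in (-β)..β, (1 - (Real.sinc (π * u)) ^ 2) ≤ ∫ u in (-β)..β, (1 : ℝ) := by
      apply intervalIntegral.integral_mono_on (by linarith) (hc.intervalIntegrable _ _) (by simp)
      intro u _
      have := sq_nonneg (Real.sinc (π * u))
      linarith
    rw [intervalIntegral.integral_const, smul_eq_mul] at this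
    linarith

/-- The limit in Montgomery's theorem in layer cake form. -/
lemma limit_tail {p : ℝ → ℝ} {C s : ℝ} (hc : Continuous p) (hC0 : 0 ≤ C) (hC : ∀ u, |p u| ≤ C / (1 + u ^ 2) ^ 3)
    (hφ : TestFn s (tail p)) (hs1 : s < 1) :
    cosT (tail p) 0 + ∫ ξ, |ξ| * cosT (tail p) ξ = ∫ β in Ioi 0, p β * G2 β := by
  have hi := integrable_of_decay3 hc hC hC0
  rw [hφ.limit_eq hs1]
  have hcs : Continuous (fun u : ℝ => 1 - (Real.sinc (π * u)) ^ 2) := continuous_const.sub continuous_sinc_sq
  have h0 : tail p 0 = ∫ β in Ioi 0, p β := by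
    unfold tail; rw [abs_zero]
  have hpb : Integrable (fun β => p β * β) := by
    apply Integrable.mono' (integrable_inv_one_add_sq.const_mul C) (hc.mul continuous_id).aestronglyMeasurable
    apply ae_of_all
    intro β
    simp only [Pi.mul_apply, id]
    rw [Real.norm_eq_abs, abs_mul]
    have h1 : |β| ≤ 1 + β ^ 2 := by nlinarith [sq_abs β, sq_nonneg (|β| - 1), abs_nonneg β]
    calc |p β| * |β| ≤ (C / (1 + β ^ 2) ^ 3) * (1 + β ^ 2) := mul_le_mul (hC β) h1 (abs_nonneg _) (by positivity)
      _ = C / (1 + β ^ 2) ^ 2 := by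
          have : 1 + β ^ 2 ≠ 0 := by positivity
          field_simp
      _ ≤ C * (1 + β ^ 2)⁻¹ := by
          rw [← div_eq_mul_inv]
          apply div_le_div_of_nonneg_left hC0 (by positivity)
          nlinarith [sq_nonneg β]
  have h1 : ∫ u, tail p u * (1 - (Real.sinc (π * u)) ^ 2)
      = ∫ u, ∫ β in Ioi 0, (if |u| ≤ β then p β else 0) * (1 - (Real.sinc (π * u)) ^ 2) := by
    congr 1
    ext u
    rw [tail_eq_indicator, integral_mul_const]
  have hmeas : MeasurableSet {q : ℝ × ℝ | |q.1| ≤ q.2} :=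
    measurableSet_le (continuous_abs.comp continuous_fst).measurable measurable_snd
  have hF : AEStronglyMeasurable (Function.uncurry fun (u β : ℝ) =>
      (if |u| ≤ β then p β else 0) * (1 - (Real.sinc (π * u)) ^ 2)) (volume.prod (volume.restrict (Ioi (0 : ℝ)))) := by
    have e : (Function.uncurry fun (u β : ℝ) =>
      (if |u| ≤ β then p β else 0) * (1 - (Real.sinc (π * u)) ^ 2))
      = fun q : ℝ × ℝ => ({q : ℝ × ℝ | |q.1| ≤ q.2}.indicator (fun q => p q.2) q) * (1 - (Real.sinc (π * q.1)) ^ 2) := by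
      ext ⟨u, β⟩
      simp only [Function.uncurry, indicator, mem_ofPred_eq]
    rw [e]
    apply Measurable.aestronglyMeasurable
    apply Measurable.mul
    · exact Measurable.indicator (by fun_prop) hmeas
    · exact (hcs.comp continuous_fst).measurable
  have hint : Integrable (Function.uncurry fun (u β : ℝ) =>
      (if |u| ≤ β then p β else 0) * (1 - (Real.sinc (π * u)) ^ 2)) (volume.prod (volume.restrict (Ioi (0 : ℝ)))) := by
    rw [integrable_prod_iff' hF]
    constructor
    · apply ae_of_all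
      intro β
      simp only [Function.uncurry]
      have e : (fun u : ℝ => (if |u| ≤ β then p β else 0) * (1 - (Real.sinc (π * u)) ^ 2))
          = (Icc (-β) β).indicator (fun u => p β * (1 - (Real.sinc (π * u)) ^ 2)) := by
        ext u
        simp only [indicator, mem_Icc, abs_le]
        split_ifs <;> ring
      rw [e, integrable_indicator_iff measurableSet_Icc]
      exact (continuous_const.mul hcs).integrableOn_Icc
    · simp only [Function.uncurry]
      have hb : ∀ β : ℝ, 0 < β → ∫ u, ‖(if |u| ≤ β then p β else 0) * (1 - (Real.sinc (π * u)) ^ 2)‖ ≤ 2 * |p β * β| := by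
        intro β hβ
        have e : ∀ u : ℝ, ‖(if |u| ≤ β then p β else 0) * (1 - (Real.sinc (π * u)) ^ 2)‖
            ≤ (Icc (-β) β).indicator (fun _ => |p β|) u := by
          intro u
          simp only [indicator, mem_Icc, ← abs_le]
          split_ifs
          · rw [Real.norm_eq_abs, abs_mul, abs_of_nonneg (one_sub_sinc_nonneg u)]
            apply mul_le_of_le_one_right (abs_nonneg _)
            have := sq_nonneg (Real.sinc (π * u))
            linarith
          · simp
        have h2 : ∫ u, (Icc (-β) β).indicator (fun _ => |p β|) u = 2 * |p β * β| := by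
          rw [integral_indicator measurableSet_Icc, setIntegral_const, smul_eq_mul, Measure.real,
            Real.volume_Icc, ENNReal.toReal_ofReal (by linarith), abs_mul, abs_of_pos hβ]
          ring
        rw [← h2]
        apply integral_mono_of_nonneg (ae_of_all _ fun u => norm_nonneg _) _ (ae_of_all _ e)
        rw [integrable_indicator_iff measurableSet_Icc]
        exact continuous_const.integrableOn_Icc
      have hmeas2 := hF.norm.integral_prod_right'
      have hF2 : AEStronglyMeasurable (fun β => ∫ u, ‖(if |u| ≤ β then p β else 0) * (1 - (Real.sinc (π * u)) ^ 2)‖)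
          (volume.restrict (Ioi (0 : ℝ))) := by
        have := (hF.norm.prod_swap).integral_prod_right'
        exact this
      apply Integrable.mono' ((hpb.abs.const_mul 2).integrableOn (s := Ioi 0)) hF2
      filter_upwards [ae_restrict_mem measurableSet_Ioi] with β hβ
      rw [Real.norm_eq_abs, abs_of_nonneg (integral_nonneg fun u => norm_nonneg _)]
      exact hb β hβ
  rw [h0, h1, integral_integral_swap hint, ← integral_add hi.integrableOn]
  · apply setIntegral_congr_fun measurableSet_Ioi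
    intro β hβ
    have hβ' : 0 < β := hβ
    simp only
    have e : ∀ u : ℝ, (if |u| ≤ β then p β else 0) * (1 - (Real.sinc (π * u)) ^ 2)
          = (Icc (-β) β).indicator (fun u => p β * (1 - (Real.sinc (π * u)) ^ 2)) u := by
        intro u
        simp only [indicator, mem_Icc, abs_le]
        split_ifs <;> ring
    simp_rw [e]
    rw [integral_indicator measurableSet_Icc, integral_const_mul]
    unfold G2
    rw [intervalIntegral.integral_of_le (by linarith), integral_Icc_eq_integral_Ioc]
    ring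
  · have := hint.integral_prod_right
    exact this

end Pool.Agent.H6
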