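import Mathlib

open MeasureTheory Set Filter Topology
open scoped Real Interval

namespace Pool.Agent.H6

/-- Asymptotic upper bound for a window. -/
def UB (m : ℝ → ℝ → ℝ) (a b : ℝ) : Prop :=
  ∀ ε > 0, ∀ᶠ T in atTop, ∫ u in a..b, m T u ≤ (∫ u in a..b, min u 1) + ε

/-- Asymptotic lower bound for a window. -/
def LB (m : ℝ → ℝ → ℝ) (a b : ℝ) : Prop :=
  ∀ ε > 0, ∀ᶠ T in atTop, (∫ u in a..b, min u 1) - ε ≤ ∫ u in a..b, m T u

/-- Families of locally integrable nonnegative densities on `(0, ∞)`. -/
structure Dns (m : ℝ → ℝ → ℝ) : Prop where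
  nonneg : ∀ᶠ T in atTop, ∀ u, 0 < u → 0 ≤ m T u
  int : ∀ᶠ T in atTop, ∀ a b, 0 < a → a ≤ b → IntervalIntegrable (m T) volume a b

variable {m : ℝ → ℝ → ℝ}

theorem ub_cont (hm : Dns m) (hU : ∀ a b, 0 < a → a < b → UB m a b) {g : ℝ → ℝ} (hg : Continuous g) {a b : ℝ}
    (ha : 0 < a) (hab : a < b) (hg0 : ∀ u ∈ Icc a b, 0 ≤ g u) {ε : ℝ} (hε : 0 < ε) :
    ∀ᶠ T in atTop, ∫ u in a..b, g u * m T u ≤ (∫ u in a..b, g u * min u 1) + ε := by
  have hmin : Continuous fun u : ℝ => min u 1 := by fun_prop
  set J := ∫ u in a..b, min u 1 with hJ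
  have hJ0 : 0 ≤ J := by
    apply intervalIntegral.integral_nonneg hab.le
    intro u hu
    exact le_min (by linarith [hu.1]) zero_le_one
  set δ : ℝ := ε / (8 * (J + 1)) with hδ
  have hδ0 : 0 < δ := by positivity
  have huc := (isCompact_Icc (a := a) (b := b)).uniformContinuousOn_of_continuous hg.continuousOn
  rw [Metric.uniformContinuousOn_iff] at huc
  obtain ⟨η, hη0, hη⟩ := huc δ hδ0
  obtain ⟨N, hN⟩ := exists_nat_gt ((b - a) / η)
  have hba : 0 < b - a := by linarith
  have hN0 : (0 : ℝ) < N := lt_trans (by positivity) hN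
  set h := (b - a) / N with hh
  have hh0 : 0 < h := by positivity
  have hhη : h < η := by
    rw [hh, div_lt_iff₀ hN0]
    rw [div_lt_iff₀ hη0] at hN
    linarith
  set x : ℕ → ℝ := fun i => a + i * h with hx
  have hx0 : x 0 = a := by simp [hx]
  have hxN : x N = b := by simp only [hx, hh]; field_simp; ring
  have hxs : ∀ i, x (i + 1) = x i + h := by intro i; simp only [hx]; push_cast; ring
  have hxle : ∀ i, x i ≤ x (i + 1) := by intro i; rw [hxs]; linarith
  have hxpos : ∀ i, a ≤ x i := by
    intro i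
    simp only [hx]
    have : 0 ≤ (i : ℝ) * h := by positivity
    linarith
  have hxb : ∀ i, i ≤ N → x i ≤ b := by
    intro i hi
    rw [← hxN]
    simp only [hx]
    have : (i : ℝ) ≤ N := by exact_mod_cast hi
    have := mul_le_mul_of_nonneg_right this hh0.le
    linarith
  have hcell : ∀ i < N, ∀ u ∈ Icc (x i) (x (i + 1)), |g u - g (x i)| ≤ δ := by
    intro i hi u hu
    have hu1 : u ∈ Icc a b := ⟨(hxpos i).trans hu.1, hu.2.trans (hxb (i + 1) hi)⟩
    have hu2 : x i ∈ Icc a b := ⟨hxpos i, hxb i hi.le⟩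
    have := hη u hu1 (x i) hu2 (by
      rw [Real.dist_eq, abs_of_nonneg (by linarith [hu.1])]
      have := hu.2
      rw [hxs] at this
      linarith)
    rw [Real.dist_eq] at this
    exact this.le
  set G : ℕ → ℝ := fun i => g (x i) + δ with hG
  have hGpos : ∀ i < N, 0 < G i := by
    intro i hi
    have := hg0 (x i) ⟨hxpos i, hxb i hi.le⟩
    simp only [hG]
    linarith
  -- cell estimates
  have hev : ∀ᶠ T in atTop, ∀ i < N, ∫ u in (x i)..(x (i + 1)), m T u
      ≤ (∫ u in (x i)..(x (i + 1)), min u 1) + ε / (4 * N * (G i + 1)) := by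
    have h1 : ∀ i ∈ Finset.range N, ∀ᶠ T in atTop, ∫ u in (x i)..(x (i + 1)), m T u
      ≤ (∫ u in (x i)..(x (i + 1)), min u 1) + ε / (4 * N * (G i + 1)) := by
      intro i hi
      rw [Finset.mem_range] at hi
      have hGi := hGpos i hi
      exact hU (x i) (x (i + 1)) (by linarith [hxpos i]) (by rw [hxs]; linarith) _ (by positivity)
    have h2 := (Finset.eventually_all (l := atTop) (Finset.range N)).mpr h1
    filter_upwards [h2] with T hT i hi
    exact hT i (Finset.mem_range.mpr hi)
  filter_upwards [hm.nonneg, hm.int, hev] with T h0 hi hT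
  have hint : ∀ i, IntervalIntegrable (m T) volume (x i) (x (i + 1)) := fun i =>
    hi _ _ (by linarith [hxpos i]) (hxle i)
  have hgint : ∀ i, IntervalIntegrable (fun u => g u * m T u) volume (x i) (x (i + 1)) := fun i =>
    (hint i).continuousOn_mul hg.continuousOn
  have hgm : Continuous fun u => g u * min u 1 := hg.mul hmin
  have e1 : ∫ u in a..b, g u * m T u = ∑ i ∈ Finset.range N, ∫ u in (x i)..(x (i + 1)), g u * m T u := by
    rw [intervalIntegral.sum_integral_adjacent_intervals (fun k _ => hgint k), hx0, hxN]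
  have e2 : ∫ u in a..b, g u * min u 1 = ∑ i ∈ Finset.range N, ∫ u in (x i)..(x (i + 1)), g u * min u 1 := by
    rw [intervalIntegral.sum_integral_adjacent_intervals (fun k _ => hgm.intervalIntegrable _ _), hx0, hxN]
  have e3 : J = ∑ i ∈ Finset.range N, ∫ u in (x i)..(x (i + 1)), min u 1 := by
    rw [intervalIntegral.sum_integral_adjacent_intervals (fun k _ => hmin.intervalIntegrable _ _), hx0, hxN]
  have hstep : ∀ i ∈ Finset.range N, ∫ u in (x i)..(x (i + 1)), g u * m T u
      ≤ (∫ u in (x i)..(x (i + 1)), g u * min u 1) + (2 * δ * (∫ u in (x i)..(x (i + 1)), min u 1) + ε / (4 * N)) := by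
    intro i hi
    rw [Finset.mem_range] at hi
    have hGi := hGpos i hi
    have a1 : ∫ u in (x i)..(x (i + 1)), g u * m T u ≤ ∫ u in (x i)..(x (i + 1)), G i * m T u := by
      apply intervalIntegral.integral_mono_on (hxle i) (hgint i) ((hint i).const_mul _)
      intro u hu
      apply mul_le_mul_of_nonneg_right _ (h0 u (by linarith [hxpos i, hu.1]))
      have := (abs_le.mp (hcell i hi u hu)).2
      simp only [hG]
      linarith
    rw [intervalIntegral.integral_const_mul] at a1
    have a2 := mul_le_mul_of_nonneg_left (hT i hi) hGi.le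
    have a3 : G i * (ε / (4 * N * (G i + 1))) ≤ ε / (4 * N) := by
      have : G i * (ε / (4 * N * (G i + 1))) = (ε / (4 * N)) * (G i / (G i + 1)) := by
        field_simp
      rw [this]
      apply mul_le_of_le_one_right (by positivity)
      rw [div_le_one (by positivity)]
      linarith
    have a4 : G i * ∫ u in (x i)..(x (i + 1)), min u 1
        ≤ (∫ u in (x i)..(x (i + 1)), g u * min u 1) + 2 * δ * ∫ u in (x i)..(x (i + 1)), min u 1 := by
      rw [← intervalIntegral.integral_const_mul, ← intervalIntegral.integral_const_mul,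
        ← intervalIntegral.integral_add (hgm.intervalIntegrable _ _) ((hmin.intervalIntegrable _ _).const_mul _)]
      apply intervalIntegral.integral_mono_on (hxle i)
      · exact (hmin.intervalIntegrable _ _).const_mul _
      · exact (hgm.intervalIntegrable _ _).add ((hmin.intervalIntegrable _ _).const_mul _)
      · intro u hu
        have hu0 : 0 ≤ min u 1 := le_min (by linarith [hxpos i, hu.1]) zero_le_one
        have := (abs_le.mp (hcell i hi u hu)).1
        have h5 : G i ≤ g u + 2 * δ := by simp only [hG]; linarith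
        calc G i * min u 1 ≤ (g u + 2 * δ) * min u 1 := mul_le_mul_of_nonneg_right h5 hu0
          _ = _ := by ring
    nlinarith
  rw [e1]
  refine (Finset.sum_le_sum hstep).trans ?_
  rw [Finset.sum_add_distrib, Finset.sum_add_distrib, ← e2, ← Finset.mul_sum, ← e3, Finset.sum_const, Finset.card_range,
    nsmul_eq_mul]
  have f1 : (N : ℝ) * (ε / (4 * N)) = ε / 4 := by field_simp
  have f2 : 2 * δ * J ≤ ε / 4 := by
    have : δ * (8 * (J + 1)) = ε := by rw [hδ]; field_simp
    nlinarith
  rw [f1]
  linarith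

/-- **Abstract rigidity**: asymptotic upper bounds plus nearly sharp global lower bounds give the
lower bounds for all windows. -/
theorem rigidity_abs (hm : Dns m) (hU : ∀ a b, 0 < a → a < b → UB m a b)
    (hL : ∀ a b, 0 < a → a < b → ∃ c > 0, ∀ δ > 0, ∃ (g : ℝ → ℝ) (a' b' : ℝ), Continuous g ∧ 0 < a' ∧ a' < a ∧ b < b' ∧
      (∀ u ∈ Icc a' b', 0 ≤ g u) ∧ (∀ u ∈ Icc a b, c ≤ g u) ∧
      ∀ᶠ T in atTop, (∫ u in a'..b', g u * min u 1) - δ ≤ ∫ u in a'..b', g u * m T u)
    {a b : ℝ} (ha : 0 < a) (hab : a < b) : LB m a b := by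
  intro ε hε
  obtain ⟨c, hc, hLc⟩ := hL a b ha hab
  obtain ⟨g, a', b', hg, ha', haa', hbb', hg0, hgc, hev⟩ := hLc (c * ε / 4) (by positivity)
  have hmin : Continuous fun u : ℝ => min u 1 := by fun_prop
  have hgm : Continuous fun u => g u * min u 1 := hg.mul hmin
  have hε' : 0 < c * ε / 4 := by positivity
  have u1 := ub_cont hm hU hg ha' haa' (fun u hu => hg0 u ⟨hu.1, by linarith [hu.2]⟩) hε'
  have u2 := ub_cont hm hU (g := fun u => g u - c) (by fun_prop) ha hab (fun u hu => by
    have := hgc u hu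
    linarith) hε'
  have u3 := ub_cont hm hU hg (by linarith : 0 < b) hbb' (fun u hu => hg0 u ⟨by linarith [hu.1], hu.2⟩) hε'
  filter_upwards [hm.int, hev, u1, u2, u3] with T hi h1 h2 h3 h4
  have i1 : IntervalIntegrable (fun u => g u * m T u) volume a' a := (hi _ _ ha' haa'.le).continuousOn_mul hg.continuousOn
  have i2 : IntervalIntegrable (fun u => g u * m T u) volume a b := (hi _ _ ha hab.le).continuousOn_mul hg.continuousOn
  have i3 : IntervalIntegrable (fun u => g u * m T u) volume b b' := (hi _ _ (by linarith) hbb'.le).continuousOn_mul hg.continuousOn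
  have j1 := hgm.intervalIntegrable (μ := volume) a' a
  have j2 := hgm.intervalIntegrable (μ := volume) a b
  have j3 := hgm.intervalIntegrable (μ := volume) b b'
  rw [← intervalIntegral.integral_add_adjacent_intervals i1 (i2.trans i3),
    ← intervalIntegral.integral_add_adjacent_intervals i2 i3,
    ← intervalIntegral.integral_add_adjacent_intervals j1 (j2.trans j3),
    ← intervalIntegral.integral_add_adjacent_intervals j2 j3] at h1
  have e1 : ∫ u in a..b, (g u - c) * m T u = (∫ u in a..b, g u * m T u) - c * ∫ u in a..b, m T u := by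
    rw [← intervalIntegral.integral_const_mul, ← intervalIntegral.integral_sub i2 ((hi _ _ ha hab.le).const_mul _)]
    congr 1
    ext u
    ring
  have e2 : ∫ u in a..b, (g u - c) * min u 1 = (∫ u in a..b, g u * min u 1) - c * ∫ u in a..b, min u 1 := by
    rw [← intervalIntegral.integral_const_mul, ← intervalIntegral.integral_sub j2 ((hmin.intervalIntegrable _ _).const_mul _)]
    congr 1
    ext u
    ring
  simp only [e1, e2] at h3
  have h5 : c * ((∫ u in a..b, min u 1) - ε) ≤ c * ∫ u in a..b, m T u := by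
    have e : c * ((∫ u in a..b, min u 1) - ε) = c * (∫ u in a..b, min u 1) - 4 * (c * ε / 4) := by ring
    rw [e]
    linarith
  exact le_of_mul_le_mul_left h5 hc

end Pool.Agent.H6
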