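import Mathlib

open MeasureTheory Set Filter Topology
open scoped Real Interval

namespace Pool.Agent.H6

/-- Riemann sum estimate. -/
lemma riemann_step {κ g : ℝ → ℝ} (hκ : Continuous κ) (hg : Continuous g) (hg0 : ∀ y, 0 ≤ g y) {R ε : ℝ} (hR : 0 < R)
    {N : ℕ} (hN : 0 < N)
    (hω : ∀ x ∈ Icc 0 R, ∀ y ∈ Icc 0 R, |x - y| ≤ R / N → |κ x - κ y| ≤ ε) :
    |(∫ y in (0 : ℝ)..R, κ y * g y) - ∑ i ∈ Finset.range N, κ (i * (R / N)) * ∫ y in (i * (R / N))..((i + 1 : ℕ) * (R / N)), g y|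
      ≤ ε * ∫ y in (0 : ℝ)..R, g y := by
  have hN0 : (0 : ℝ) < N := by exact_mod_cast hN
  have hh : 0 < R / N := by positivity
  set a : ℕ → ℝ := fun i => (i : ℝ) * (R / N) with ha
  have haN : a N = R := by simp only [ha]; field_simp
  have ha0 : a 0 = 0 := by simp [ha]
  have hmem : ∀ i < N, ∀ y ∈ Icc (a i) (a (i + 1)), y ∈ Icc 0 R := by
    intro i hi y hy
    constructor
    · refine le_trans ?_ hy.1
      simp only [ha]; positivity
    · refine hy.2.trans ?_
      rw [← haN]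
      simp only [ha]
      apply mul_le_mul_of_nonneg_right _ hh.le
      exact_mod_cast hi
  have hle : ∀ i, a i ≤ a (i + 1) := by
    intro i
    simp only [ha]
    apply mul_le_mul_of_nonneg_right _ hh.le
    push_cast
    linarith
  have h1 : ∫ y in (0 : ℝ)..R, κ y * g y = ∑ i ∈ Finset.range N, ∫ y in (a i)..(a (i + 1)), κ y * g y := by
    have hc : Continuous fun y => κ y * g y := hκ.mul hg
    rw [intervalIntegral.sum_integral_adjacent_intervals (fun k _ => hc.intervalIntegrable _ _), ha0, haN]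
  have h2 : ∫ y in (0 : ℝ)..R, g y = ∑ i ∈ Finset.range N, ∫ y in (a i)..(a (i + 1)), g y := by
    rw [intervalIntegral.sum_integral_adjacent_intervals (fun k _ => hg.intervalIntegrable _ _), ha0, haN]
  rw [h1, h2, Finset.mul_sum]
  change |(∑ i ∈ Finset.range N, ∫ y in (a i)..(a (i + 1)), κ y * g y)
    - ∑ i ∈ Finset.range N, κ (a i) * ∫ y in (a i)..(a (i + 1)), g y| ≤ _
  rw [← Finset.sum_sub_distrib]
  refine (Finset.abs_sum_le_sum_abs _ _).trans ?_
  apply Finset.sum_le_sum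
  intro i hi
  rw [Finset.mem_range] at hi
  have hc : Continuous fun y => κ y * g y := hκ.mul hg
  have hc2 : Continuous fun y => κ (a i) * g y := continuous_const.mul hg
  rw [← intervalIntegral.integral_const_mul, ← intervalIntegral.integral_const_mul,
    ← intervalIntegral.integral_sub (hc.intervalIntegrable _ _) (hc2.intervalIntegrable _ _)]
  refine (intervalIntegral.abs_integral_le_integral_abs (hle i)).trans ?_
  apply intervalIntegral.integral_mono_on (hle i)
  · apply Continuous.intervalIntegrable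
    fun_prop
  · exact (hg.const_smul ε).intervalIntegrable _ _
  · intro y hy
    rw [← sub_mul, abs_mul, abs_of_nonneg (hg0 y)]
    apply mul_le_mul_of_nonneg_right _ (hg0 y)
    apply hω y (hmem i hi y hy) (a i) (hmem i hi (a i) ⟨le_rfl, hle i⟩)
    rw [abs_of_nonneg (by linarith [hy.1])]
    have : a (i + 1) = a i + R / N := by simp only [ha]; push_cast; ring
    linarith [hy.2]

/-- Convergence of distribution functions implies convergence of integrals on compact intervals. -/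
theorem tendsto_integral_compact {l : Filter ℝ} {g : ℝ → ℝ → ℝ} {ℓ : ℝ}
    (hg : ∀ᶠ T in l, Continuous (g T)) (hg0 : ∀ T y, 0 ≤ g T y)
    (hlim : ∀ y, 0 < y → Tendsto (fun T => ∫ x in (0 : ℝ)..y, g T x) l (𝓝 (ℓ * y)))
    {κ : ℝ → ℝ} (hκ : Continuous κ) {R : ℝ} (hR : 0 < R) :
    Tendsto (fun T => ∫ y in (0 : ℝ)..R, κ y * g T y) l (𝓝 (ℓ * ∫ y in (0 : ℝ)..R, κ y)) := by
  rcases l.eq_or_neBot with hl | hl
  · rw [hl]; exact tendsto_bot
  have hℓ : 0 ≤ ℓ := by
    have h1 := hlim 1 one_pos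
    rw [mul_one] at h1
    exact ge_of_tendsto' h1 fun T => intervalIntegral.integral_nonneg zero_le_one fun y _ => hg0 T y
  have hlim' : ∀ y, 0 ≤ y → Tendsto (fun T => ∫ x in (0 : ℝ)..y, g T x) l (𝓝 (ℓ * y)) := by
    intro y hy
    rcases hy.eq_or_lt with h | h
    · rw [← h]; simp
    · exact hlim y h
  rw [Metric.tendsto_nhds]
  intro ε hε
  set δ : ℝ := ε / (2 * (ℓ * R + 1) + 1) / 2 with hδ
  have hℓR : 0 ≤ ℓ * R := by positivity
  have hδ0 : 0 < δ := by positivity
  -- uniform continuity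
  have huc := (isCompact_Icc (a := (0 : ℝ)) (b := R)).uniformContinuousOn_of_continuous hκ.continuousOn
  rw [Metric.uniformContinuousOn_iff] at huc
  obtain ⟨η, hη0, hη⟩ := huc δ hδ0
  obtain ⟨N, hN⟩ := exists_nat_gt (R / η)
  have hN0 : (0 : ℝ) < N := lt_trans (by positivity) hN
  have hNpos : 0 < N := by exact_mod_cast hN0
  have hω : ∀ x ∈ Icc 0 R, ∀ y ∈ Icc 0 R, |x - y| ≤ R / N → |κ x - κ y| ≤ δ := by
    intro x hx y hy hxy
    have h1 : R / N < η := by
      rw [div_lt_iff₀ hN0]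
      rw [div_lt_iff₀ hη0] at hN
      linarith
    have := hη x hx y hy (by rw [Real.dist_eq]; linarith)
    rw [Real.dist_eq] at this
    exact this.le
  -- step sums converge
  have hstep : Tendsto (fun T => ∑ i ∈ Finset.range N, κ (i * (R / N)) * ∫ y in (i * (R / N))..((i + 1 : ℕ) * (R / N)), g T y) l
      (𝓝 (∑ i ∈ Finset.range N, κ (i * (R / N)) * ∫ y in (i * (R / N))..((i + 1 : ℕ) * (R / N)), ℓ)) := by
    apply tendsto_finsetSum
    intro i _
    apply Tendsto.const_mul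
    have h1 := (hlim' (((i + 1 : ℕ) : ℝ) * (R / N)) (by positivity)).sub (hlim' ((i : ℝ) * (R / N)) (by positivity))
    have e : ℓ * (((i + 1 : ℕ) : ℝ) * (R / N)) - ℓ * ((i : ℝ) * (R / N)) = ∫ y in ((i : ℝ) * (R / N))..(((i + 1 : ℕ) : ℝ) * (R / N)), ℓ := by
      rw [intervalIntegral.integral_const, smul_eq_mul]; ring
    rw [e] at h1
    apply h1.congr'
    filter_upwards [hg] with T hT
    rw [intervalIntegral.integral_interval_sub_left (hT.intervalIntegrable _ _) (hT.intervalIntegrable _ _)]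
  rw [Metric.tendsto_nhds] at hstep
  have hR1 := hlim R hR
  rw [Metric.tendsto_nhds] at hR1
  have h2 := riemann_step hκ (continuous_const (y := ℓ)) (fun _ => hℓ) hR hNpos hω
  filter_upwards [hg, hstep δ hδ0, hR1 1 one_pos] with T hT h3 h4
  have h1 := riemann_step hκ hT (hg0 T) hR hNpos hω
  rw [Real.dist_eq] at h3 h4 ⊢
  have e1 : ∫ y in (0 : ℝ)..R, κ y * ℓ = ℓ * ∫ y in (0 : ℝ)..R, κ y := by
    rw [intervalIntegral.integral_mul_const]; ring
  have e2 : ∫ y in (0 : ℝ)..R, ℓ = ℓ * R := by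
    rw [intervalIntegral.integral_const, smul_eq_mul]; ring
  rw [e1, e2] at h2
  set S1 := ∑ i ∈ Finset.range N, κ (i * (R / N)) * ∫ y in (i * (R / N))..((i + 1 : ℕ) * (R / N)), g T y
  set S2 := ∑ i ∈ Finset.range N, κ (i * (R / N)) * ∫ y in (i * (R / N))..((i + 1 : ℕ) * (R / N)), ℓ
  set A := ∫ y in (0 : ℝ)..R, κ y * g T y
  set B := ℓ * ∫ y in (0 : ℝ)..R, κ y
  have h5 : ∫ y in (0 : ℝ)..R, g T y ≤ ℓ * R + 1 := by
    have := (abs_lt.mp h4).2
    linarith
  have h6 : δ * ∫ y in (0 : ℝ)..R, g T y ≤ δ * (ℓ * R + 1) := mul_le_mul_of_nonneg_left h5 hδ0.le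
  have h7 : |A - B| ≤ |A - S1| + |S1 - S2| + |B - S2| := by
    have e : A - B = (A - S1) + (S1 - S2) + -(B - S2) := by ring
    rw [e]
    refine (abs_add_le _ _).trans ?_
    rw [abs_neg]
    have := abs_add_le (A - S1) (S1 - S2)
    linarith
  have h8 : δ * (ℓ * R + 1) + δ + δ * (ℓ * R) < ε := by
    have h9 : δ * (2 * (ℓ * R + 1) + 1) = ε / 2 := by
      rw [hδ]
      field_simp
    nlinarith
  calc |A - B| ≤ |A - S1| + |S1 - S2| + |B - S2| := h7
    _ ≤ δ * (ℓ * R + 1) + δ + δ * (ℓ * R) := by linarith [h1, h3.le, h2]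
    _ < ε := h8

end Pool.Agent.H6
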