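import Mathlib
import Pool.Agent.H6.Taub

open MeasureTheory Set Filter Topology
open scoped Real Interval

namespace Pool.Agent.H6

/-- Asymptotically equidistributed families on the half line with controlled tails. -/
structure EquiTail (l : Filter ℝ) (g : ℝ → ℝ → ℝ) : Prop where
  cont : ∀ᶠ T in l, Continuous (g T)
  nonneg : ∀ T y, 0 ≤ g T y
  tail : ∃ C, 0 ≤ C ∧ ∀ R, 1 ≤ R → ∀ᶠ T in l, IntegrableOn (fun y => g T y / y ^ 2) (Ioi R) ∧
    ∫ y in Ioi R, g T y / y ^ 2 ≤ C / R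

lemma integrableOn_of_sq {κ g : ℝ → ℝ} (hκ : Continuous κ) (hg : Continuous g) (hg0 : ∀ y, 0 ≤ g y) {D R : ℝ}
    (hR : 1 ≤ R) (hD : ∀ y, |κ y| * y ^ 2 ≤ D) (hi : IntegrableOn (fun y => g y / y ^ 2) (Ioi R)) :
    IntegrableOn (fun y => κ y * g y) (Ioi R) ∧ |∫ y in Ioi R, κ y * g y| ≤ D * ∫ y in Ioi R, g y / y ^ 2 := by
  have hle : ∀ y ∈ Ioi R, |κ y * g y| ≤ D * (g y / y ^ 2) := by
    intro y hy
    have hy' : R < y := hy
    have hy0 : 0 < y := by linarith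
    rw [abs_mul, abs_of_nonneg (hg0 y)]
    calc |κ y| * g y = (|κ y| * y ^ 2) * (g y / y ^ 2) := by field_simp
      _ ≤ D * (g y / y ^ 2) := mul_le_mul_of_nonneg_right (hD y) (div_nonneg (hg0 y) (by positivity))
  have h1 : IntegrableOn (fun y => κ y * g y) (Ioi R) := by
    apply Integrable.mono' (hi.const_mul D) (hκ.mul hg).aestronglyMeasurable.restrict
    filter_upwards [ae_restrict_mem measurableSet_Ioi] with y hy
    rw [Real.norm_eq_abs]
    exact hle y hy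
  refine ⟨h1, ?_⟩
  refine abs_integral_le_integral_abs.trans ?_
  rw [← integral_const_mul]
  exact setIntegral_mono_on h1.abs (hi.const_mul D) measurableSet_Ioi hle

lemma integrableOn_inv_sq {R : ℝ} (hR : 0 < R) :
    IntegrableOn (fun y : ℝ => 1 / y ^ 2) (Ioi R) ∧ ∫ y in Ioi R, 1 / y ^ 2 = 1 / R := by
  have e : ∀ y ∈ Ioi R, (1 : ℝ) / y ^ 2 = y ^ (-2 : ℝ) := by
    intro y hy
    have hy' : R < y := hy
    have : 0 < y := by linarith
    rw [Real.rpow_neg this.le, one_div]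
    norm_num
  constructor
  · have h := integrableOn_Ioi_rpow_of_lt (a := -2) (by norm_num) hR
    exact h.congr_fun (fun y hy => (e y hy).symm) measurableSet_Ioi
  · rw [setIntegral_congr_fun measurableSet_Ioi e, integral_Ioi_rpow_of_lt (by norm_num) hR]
    norm_num
    rw [Real.rpow_neg_one]

theorem EquiTail.tendsto {l : Filter ℝ} {g : ℝ → ℝ → ℝ} (hE : EquiTail l g) {ℓ : ℝ}
    (hlim : ∀ y, 0 < y → Tendsto (fun T => ∫ x in (0 : ℝ)..y, g T x) l (𝓝 (ℓ * y)))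
    {κ : ℝ → ℝ} (hκ : Continuous κ) {D : ℝ} (hD0 : 0 ≤ D) (hD : ∀ y, |κ y| * y ^ 2 ≤ D) :
    Tendsto (fun T => ∫ y in Ioi 0, κ y * g T y) l (𝓝 (ℓ * ∫ y in Ioi 0, κ y)) := by
  obtain ⟨C, hC0, hC⟩ := hE.tail
  rw [Metric.tendsto_nhds]
  intro ε hε
  obtain ⟨R0, hR0⟩ := exists_gt (4 * D * (C + |ℓ| + 1) / ε)
  set R := max 1 R0 with hR
  have hR1 : 1 ≤ R := le_max_left _ _
  have hRpos : 0 < R := by linarith
  have hRR : 4 * D * (C + |ℓ| + 1) / ε < R := hR0.trans_le (le_max_right _ _)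
  have hsmall : D * (C + |ℓ| + 1) / R < ε / 4 + 0 := by
    rw [add_zero, div_lt_iff₀ hRpos]
    rw [div_lt_iff₀ hε] at hRR
    linarith
  have hcomp := tendsto_integral_compact hE.cont hE.nonneg hlim hκ hRpos
  rw [Metric.tendsto_nhds] at hcomp
  obtain ⟨hi1, hi2⟩ := integrableOn_inv_sq hRpos
  have hκR := integrableOn_of_sq hκ (continuous_const (y := (1 : ℝ))) (fun _ => zero_le_one) hR1 hD (by simpa using hi1)
  simp only [mul_one] at hκR
  rw [hi2] at hκR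
  have hκ0 : IntegrableOn κ (Ioc 0 R) := (hκ.integrableOn_Icc (a := 0) (b := R)).mono_set Ioc_subset_Icc_self
  have e1 : ∫ y in Ioi 0, κ y = (∫ y in (0 : ℝ)..R, κ y) + ∫ y in Ioi R, κ y := by
    rw [intervalIntegral.integral_of_le hRpos.le, ← setIntegral_union (Ioc_disjoint_Ioi le_rfl) measurableSet_Ioi
      hκ0 hκR.1, Ioc_union_Ioi_eq_Ioi hRpos.le]
  filter_upwards [hE.cont, hC R hR1, hcomp (ε / 2) (by positivity)] with T hT h1 h2
  have hgR := integrableOn_of_sq hκ hT (hE.nonneg T) hR1 hD h1.1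
  have hg0 : IntegrableOn (fun y => κ y * g T y) (Ioc 0 R) :=
    ((hκ.mul hT).integrableOn_Icc (a := 0) (b := R)).mono_set Ioc_subset_Icc_self
  have e2 : ∫ y in Ioi 0, κ y * g T y = (∫ y in (0 : ℝ)..R, κ y * g T y) + ∫ y in Ioi R, κ y * g T y := by
    rw [intervalIntegral.integral_of_le hRpos.le, ← setIntegral_union (Ioc_disjoint_Ioi le_rfl) measurableSet_Ioi
      hg0 hgR.1, Ioc_union_Ioi_eq_Ioi hRpos.le]
  rw [Real.dist_eq] at h2 ⊢
  rw [e1, e2]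
  have h3 : |∫ y in Ioi R, κ y * g T y| ≤ D * (C / R) :=
    hgR.2.trans (mul_le_mul_of_nonneg_left h1.2 hD0)
  have h4 : |ℓ * ∫ y in Ioi R, κ y| ≤ |ℓ| * (D * (1 / R)) := by
    rw [abs_mul]
    exact mul_le_mul_of_nonneg_left hκR.2 (abs_nonneg _)
  have e3 : (∫ y in (0 : ℝ)..R, κ y * g T y) + (∫ y in Ioi R, κ y * g T y)
      - ℓ * ((∫ y in (0 : ℝ)..R, κ y) + ∫ y in Ioi R, κ y)
      = ((∫ y in (0 : ℝ)..R, κ y * g T y) - ℓ * ∫ y in (0 : ℝ)..R, κ y)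
        + ((∫ y in Ioi R, κ y * g T y) - ℓ * ∫ y in Ioi R, κ y) := by ring
  rw [e3]
  have h5 : D * (C / R) + |ℓ| * (D * (1 / R)) ≤ D * (C + |ℓ| + 1) / R := by
    have : D * (C + |ℓ| + 1) / R = D * (C / R) + |ℓ| * (D * (1 / R)) + D / R := by ring
    rw [this]
    have : 0 ≤ D / R := by positivity
    linarith
  calc _ ≤ |(∫ y in (0 : ℝ)..R, κ y * g T y) - ℓ * ∫ y in (0 : ℝ)..R, κ y|
        + (|∫ y in Ioi R, κ y * g T y| + |ℓ * ∫ y in Ioi R, κ y|) := by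
          refine (abs_add_le _ _).trans (add_le_add le_rfl ?_)
          exact abs_sub _ _
    _ < ε := by linarith

lemma EquiTail.integrable {l : Filter ℝ} {g : ℝ → ℝ → ℝ} (hE : EquiTail l g)
    {κ : ℝ → ℝ} (hκ : Continuous κ) {D : ℝ} (hD : ∀ y, |κ y| * y ^ 2 ≤ D) :
    ∀ᶠ T in l, IntegrableOn (fun y => κ y * g T y) (Ioi 0) := by
  obtain ⟨C, hC0, hC⟩ := hE.tail
  filter_upwards [hE.cont, hC 1 le_rfl] with T hT h1
  have hgR := integrableOn_of_sq hκ hT (hE.nonneg T) le_rfl hD h1.1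
  have hg0 : IntegrableOn (fun y => κ y * g T y) (Ioc 0 1) :=
    ((hκ.mul hT).integrableOn_Icc (a := 0) (b := 1)).mono_set Ioc_subset_Icc_self
  rw [← Ioc_union_Ioi_eq_Ioi zero_le_one]
  exact hg0.union hgR.1

end Pool.Agent.H6
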