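import Mathlib
import Pool.Agent.H6.Taub2

open MeasureTheory Set Filter Topology
open scoped Real Interval

namespace Pool.Agent.H6

theorem tendsto_compact_diff {l : Filter ℝ} {g h : ℝ → ℝ → ℝ}
    (hgc : ∀ᶠ T in l, Continuous (g T)) (hg0 : ∀ T y, 0 ≤ g T y)
    (hhc : ∀ᶠ T in l, Continuous (h T)) (hh0 : ∀ T y, 0 ≤ h T y)
    (hlim : ∀ y, 0 < y → Tendsto (fun T => (∫ x in (0 : ℝ)..y, g T x) - ∫ x in (0 : ℝ)..y, h T x) l (𝓝 0))
    {κ : ℝ → ℝ} (hκ : Continuous κ) {R : ℝ} (hR : 0 < R) {B : ℝ}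
    (hb : ∀ᶠ T in l, (∫ y in (0 : ℝ)..R, g T y) + ∫ y in (0 : ℝ)..R, h T y ≤ B) :
    Tendsto (fun T => (∫ y in (0 : ℝ)..R, κ y * g T y) - ∫ y in (0 : ℝ)..R, κ y * h T y) l (𝓝 0) := by
  have hlim' : ∀ y, 0 ≤ y → Tendsto (fun T => (∫ x in (0 : ℝ)..y, g T x) - ∫ x in (0 : ℝ)..y, h T x) l (𝓝 0) := by
    intro y hy
    rcases hy.eq_or_lt with h | h
    · rw [← h]; simp [tendsto_const_nhds]
    · exact hlim y h
  rw [Metric.tendsto_nhds]
  intro ε hε
  set δ : ℝ := ε / (|B| + 1) / 2 with hδ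
  have hB1 : 0 < |B| + 1 := by positivity
  have hδ0 : 0 < δ := by positivity
  have huc := (isCompact_Icc (a := (0 : ℝ)) (b := R)).uniformContinuousOn_of_continuous hκ.continuousOn
  rw [Metric.uniformContinuousOn_iff] at huc
  obtain ⟨η, hη0, hη⟩ := huc δ hδ0
  obtain ⟨N, hN⟩ := exists_nat_gt (R / η)
  have hN0 : (0 : ℝ) < N := lt_trans (by positivity) hN
  have hNpos : 0 < N := by exact_mod_cast hN0
  have hω : ∀ x ∈ Icc 0 R, ∀ y ∈ Icc 0 R, |x - y| ≤ R / N → |κ x - κ y| ≤ δ := by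
    intro x hx y hy hxy
    have h1 : R / N < η := by
      rw [div_lt_iff₀ hN0]
      rw [div_lt_iff₀ hη0] at hN
      linarith
    have := hη x hx y hy (by rw [Real.dist_eq]; linarith)
    rw [Real.dist_eq] at this
    exact this.le
  have hstep : Tendsto (fun T => ∑ i ∈ Finset.range N, κ (i * (R / N)) *
      ((∫ y in (i * (R / N))..((i + 1 : ℕ) * (R / N)), g T y) - ∫ y in (i * (R / N))..((i + 1 : ℕ) * (R / N)), h T y)) l
      (𝓝 (∑ i ∈ Finset.range N, κ (i * (R / N)) * 0)) := by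
    apply tendsto_finsetSum
    intro i _
    apply Tendsto.const_mul
    have h1 := (hlim' (((i + 1 : ℕ) : ℝ) * (R / N)) (by positivity)).sub (hlim' ((i : ℝ) * (R / N)) (by positivity))
    rw [sub_zero] at h1
    apply h1.congr'
    filter_upwards [hgc, hhc] with T hT hT'
    rw [← intervalIntegral.integral_interval_sub_left (hT.intervalIntegrable 0 (((i + 1 : ℕ) : ℝ) * (R / N)))
      (hT.intervalIntegrable 0 ((i : ℝ) * (R / N))),
      ← intervalIntegral.integral_interval_sub_left (hT'.intervalIntegrable 0 (((i + 1 : ℕ) : ℝ) * (R / N)))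
      (hT'.intervalIntegrable 0 ((i : ℝ) * (R / N)))]
    ring
  simp only [mul_zero, Finset.sum_const_zero] at hstep
  rw [Metric.tendsto_nhds] at hstep
  filter_upwards [hgc, hhc, hstep (ε / 2) (by positivity), hb] with T hT hT' h3 h4
  have h1 := riemann_step hκ hT (hg0 T) hR hNpos hω
  have h2 := riemann_step hκ hT' (hh0 T) hR hNpos hω
  rw [Real.dist_eq, sub_zero] at h3 ⊢
  simp_rw [mul_sub] at h3
  rw [Finset.sum_sub_distrib] at h3
  set S1 := ∑ i ∈ Finset.range N, κ (i * (R / N)) * ∫ y in (i * (R / N))..((i + 1 : ℕ) * (R / N)), g T y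
  set S2 := ∑ i ∈ Finset.range N, κ (i * (R / N)) * ∫ y in (i * (R / N))..((i + 1 : ℕ) * (R / N)), h T y
  set A := ∫ y in (0 : ℝ)..R, κ y * g T y
  set B' := ∫ y in (0 : ℝ)..R, κ y * h T y
  have h5 : |A - B'| ≤ |A - S1| + |S1 - S2| + |B' - S2| := by
    have e : A - B' = (A - S1) + (S1 - S2) + -(B' - S2) := by ring
    rw [e]
    refine (abs_add_le _ _).trans ?_
    rw [abs_neg]
    have := abs_add_le (A - S1) (S1 - S2)
    linarith
  have h6 : δ * (∫ y in (0 : ℝ)..R, g T y) + δ * (∫ y in (0 : ℝ)..R, h T y) < ε / 2 := by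
    rw [← mul_add]
    have h7 : (∫ y in (0 : ℝ)..R, g T y) + (∫ y in (0 : ℝ)..R, h T y) < |B| + 1 := by
      have := le_abs_self B
      linarith
    calc δ * ((∫ y in (0 : ℝ)..R, g T y) + ∫ y in (0 : ℝ)..R, h T y) < δ * (|B| + 1) :=
          mul_lt_mul_of_pos_left h7 hδ0
      _ = ε / 2 := by rw [hδ]; field_simp
  linarith

/-- Two asymptotically equal families have asymptotically equal smoothed averages. -/
theorem EquiTail.diff {l : Filter ℝ} {g h : ℝ → ℝ → ℝ} (hg : EquiTail l g) (hh : EquiTail l h)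
    (hb : ∀ R, 0 < R → ∃ B, ∀ᶠ T in l, (∫ y in (0 : ℝ)..R, g T y) + ∫ y in (0 : ℝ)..R, h T y ≤ B)
    (hlim : ∀ y, 0 < y → Tendsto (fun T => (∫ x in (0 : ℝ)..y, g T x) - ∫ x in (0 : ℝ)..y, h T x) l (𝓝 0))
    {κ : ℝ → ℝ} (hκ : Continuous κ) {D : ℝ} (hD0 : 0 ≤ D) (hD : ∀ y, |κ y| * y ^ 2 ≤ D) :
    Tendsto (fun T => (∫ y in Ioi 0, κ y * g T y) - ∫ y in Ioi 0, κ y * h T y) l (𝓝 0) := by
  obtain ⟨C, hC0, hC⟩ := hg.tail
  obtain ⟨C', hC'0, hC'⟩ := hh.tail
  rw [Metric.tendsto_nhds]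
  intro ε hε
  obtain ⟨R0, hR0⟩ := exists_gt (4 * D * (C + C' + 1) / ε)
  set R := max 1 R0 with hR
  have hR1 : 1 ≤ R := le_max_left _ _
  have hRpos : 0 < R := by linarith
  have hRR : 4 * D * (C + C' + 1) / ε < R := hR0.trans_le (le_max_right _ _)
  have hsmall : D * (C + C' + 1) / R < ε / 4 + 0 := by
    rw [add_zero, div_lt_iff₀ hRpos]
    rw [div_lt_iff₀ hε] at hRR
    linarith
  obtain ⟨B, hB⟩ := hb R hRpos
  have hcomp := tendsto_compact_diff hg.cont hg.nonneg hh.cont hh.nonneg hlim hκ hRpos hB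
  rw [Metric.tendsto_nhds] at hcomp
  filter_upwards [hg.cont, hh.cont, hC R hR1, hC' R hR1, hcomp (ε / 2) (by positivity)] with T hT hT' h1 h1' h2
  have hgR := integrableOn_of_sq hκ hT (hg.nonneg T) hR1 hD h1.1
  have hhR := integrableOn_of_sq hκ hT' (hh.nonneg T) hR1 hD h1'.1
  have hsplit : ∀ {f : ℝ → ℝ}, Continuous f → IntegrableOn (fun y => κ y * f y) (Ioi R) →
      ∫ y in Ioi 0, κ y * f y = (∫ y in (0 : ℝ)..R, κ y * f y) + ∫ y in Ioi R, κ y * f y := by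
    intro f hf hi
    have hg0 : IntegrableOn (fun y => κ y * f y) (Ioc 0 R) :=
      ((hκ.mul hf).integrableOn_Icc (a := 0) (b := R)).mono_set Ioc_subset_Icc_self
    rw [intervalIntegral.integral_of_le hRpos.le, ← setIntegral_union (Ioc_disjoint_Ioi le_rfl) measurableSet_Ioi
      hg0 hi, Ioc_union_Ioi_eq_Ioi hRpos.le]
  rw [Real.dist_eq, sub_zero] at h2 ⊢
  rw [hsplit hT hgR.1, hsplit hT' hhR.1]
  have h3 : |∫ y in Ioi R, κ y * g T y| ≤ D * (C / R) :=
    hgR.2.trans (mul_le_mul_of_nonneg_left h1.2 hD0)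
  have h4 : |∫ y in Ioi R, κ y * h T y| ≤ D * (C' / R) :=
    hhR.2.trans (mul_le_mul_of_nonneg_left h1'.2 hD0)
  have h5 : D * (C / R) + D * (C' / R) ≤ D * (C + C' + 1) / R := by
    have : D * (C + C' + 1) / R = D * (C / R) + D * (C' / R) + D / R := by ring
    rw [this]
    have : 0 ≤ D / R := by positivity
    linarith
  have e3 : (∫ y in (0 : ℝ)..R, κ y * g T y) + (∫ y in Ioi R, κ y * g T y)
      - ((∫ y in (0 : ℝ)..R, κ y * h T y) + ∫ y in Ioi R, κ y * h T y)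
      = ((∫ y in (0 : ℝ)..R, κ y * g T y) - ∫ y in (0 : ℝ)..R, κ y * h T y)
        + ((∫ y in Ioi R, κ y * g T y) - ∫ y in Ioi R, κ y * h T y) := by ring
  rw [e3]
  calc _ ≤ |(∫ y in (0 : ℝ)..R, κ y * g T y) - ∫ y in (0 : ℝ)..R, κ y * h T y|
        + (|∫ y in Ioi R, κ y * g T y| + |∫ y in Ioi R, κ y * h T y|) := by
          refine (abs_add_le _ _).trans (add_le_add le_rfl ?_)
          exact abs_sub _ _
    _ < ε := by linarith

lemma EquiTail.add {l : Filter ℝ} {g h : ℝ → ℝ → ℝ} (hg : EquiTail l g) (hh : EquiTail l h) :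
    EquiTail l (fun T y => g T y + h T y) := by
  obtain ⟨C, hC0, hC⟩ := hg.tail
  obtain ⟨C', hC'0, hC'⟩ := hh.tail
  refine ⟨?_, fun T y => add_nonneg (hg.nonneg T y) (hh.nonneg T y), C + C', by positivity, fun R hR => ?_⟩
  · filter_upwards [hg.cont, hh.cont] with T h1 h2
    exact h1.add h2
  · filter_upwards [hC R hR, hC' R hR] with T h1 h2
    have e : ∀ y, (g T y + h T y) / y ^ 2 = g T y / y ^ 2 + h T y / y ^ 2 := by intro y; ring
    simp_rw [e]
    refine ⟨h1.1.add h2.1, ?_⟩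
    rw [integral_add h1.1 h2.1]
    have : (C + C') / R = C / R + C' / R := by ring
    rw [this]
    linarith [h1.2, h2.2]

end Pool.Agent.H6
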