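import Mathlib
import Pool.Agent.H6.Sinc

open MeasureTheory Set Filter Topology
open scoped Real Interval

namespace Pool.Agent.H6

/-- The kernel `(sin (ηt/2) / (t/2))²`. -/
noncomputable def KK (η t : ℝ) : ℝ := η ^ 2 * (Real.sinc (η * t / 2)) ^ 2

lemma KK_nonneg (η t : ℝ) : 0 ≤ KK η t := by unfold KK; positivity

lemma continuous_KK (η : ℝ) : Continuous (KK η) := by
  unfold KK
  have := Real.continuous_sinc
  fun_prop

lemma KK_even (η t : ℝ) : KK η (-t) = KK η t := by
  unfold KK
  rw [show η * -t / 2 = -(η * t / 2) by ring, Real.sinc_neg]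

lemma KK_eq_cosT (η t : ℝ) : KK η t = η ^ 2 * cosT tri (η * t / (2 * π)) := by
  unfold KK
  rw [cosT_tri]
  congr 3
  field_simp

lemma KK_le_sq (η t : ℝ) : KK η t ≤ η ^ 2 := by
  unfold KK
  have := abs_sinc_sq_le (η * t / 2)
  exact mul_le_of_le_one_right (sq_nonneg _) this

lemma KK_mul_sq_le (η t : ℝ) : KK η t * t ^ 2 ≤ 4 := by
  unfold KK
  rcases eq_or_ne (η * t) 0 with h | h
  · have : η ^ 2 * Real.sinc (η * t / 2) ^ 2 * t ^ 2 = (η * t) ^ 2 * Real.sinc (η * t / 2) ^ 2 := by ring
    rw [this, h]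
    norm_num
  · have h2 : η * t / 2 ≠ 0 := by
      intro h'
      apply h
      linarith
    rw [Real.sinc_of_ne_zero h2]
    have : η ^ 2 * (Real.sin (η * t / 2) / (η * t / 2)) ^ 2 * t ^ 2 = 4 * Real.sin (η * t / 2) ^ 2 := by
      have h3 : η ≠ 0 := left_ne_zero_of_mul h
      have h4 : t ≠ 0 := right_ne_zero_of_mul h
      field_simp
      ring
    rw [this]
    have := Real.sin_sq_le_one (η * t / 2)
    linarith

/-- `K_η(t) ≤ (η² + 4) / (1 + t²)`. -/
lemma KK_le (η t : ℝ) : KK η t ≤ (η ^ 2 + 4) / (1 + t ^ 2) := by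
  rw [le_div_iff₀ (by positivity)]
  have h1 := KK_le_sq η t
  have h2 := KK_mul_sq_le η t
  nlinarith

lemma integrable_KK (η : ℝ) : Integrable (KK η) := by
  apply Integrable.mono' (integrable_inv_one_add_sq.const_mul (η ^ 2 + 4)) (continuous_KK η).aestronglyMeasurable
  apply ae_of_all
  intro t
  rw [Real.norm_eq_abs, abs_of_nonneg (KK_nonneg η t)]
  exact KK_le η t

lemma integrable_cosT_tri : Integrable (cosT tri) := by
  have h : cosT tri = fun u => (Real.sinc (π * u)) ^ 2 := by ext u; exact cosT_tri u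
  rw [h]
  have h2 := (integrable_KK 1).comp_mul_left' (R := 2 * π) (by positivity)
  apply h2.congr
  apply ae_of_all
  intro u
  unfold KK
  simp only
  rw [one_pow, one_mul]
  congr 2
  ring

/-- Fourier transform of the kernel. -/
theorem integral_KK_cos {η : ℝ} (hη : 0 < η) (r : ℝ) :
    ∫ t, KK η t * Real.cos (r * t) = 2 * π * max 0 (η - |r|) := by
  have hinv := cosT_cosT continuous_tri integrable_tri tri_even integrable_cosT_tri (r / η)
  have h1 : ∀ t : ℝ, KK η t * Real.cos (r * t)
      = (fun y => η ^ 2 * (cosT tri y * Real.cos (2 * π * y * (r / η)))) (η / (2 * π) * t) := by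
    intro t
    simp only
    rw [KK_eq_cosT, show η / (2 * π) * t = η * t / (2 * π) by ring, mul_assoc]
    congr 3
    field_simp
  rw [integral_congr_ae (ae_of_all _ h1),
    Measure.integral_comp_mul_left (fun y => η ^ 2 * (cosT tri y * Real.cos (2 * π * y * (r / η))))
      (η / (2 * π)), integral_const_mul, smul_eq_mul, abs_of_pos (by positivity)]
  have h2 : ∫ y, cosT tri y * Real.cos (2 * π * y * (r / η)) = tri (r / η) := by
    rw [← hinv]; rfl
  rw [h2]
  unfold tri
  rw [abs_div, abs_of_pos hη]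
  have h3 : max 0 (η - |r|) = η * max 0 (1 - |r| / η) := by
    rw [mul_max_of_nonneg _ _ hη.le, mul_zero]
    congr 1
    field_simp
  rw [h3]
  field_simp

lemma integral_KK {η : ℝ} (hη : 0 < η) : ∫ t, KK η t = 2 * π * η := by
  have h := integral_KK_cos hη 0
  simp only [zero_mul, Real.cos_zero, mul_one, abs_zero, sub_zero] at h
  rw [h, max_eq_right hη.le]

lemma integral_KK_cos_cos {η : ℝ} (hη : 0 < η) (x y : ℝ) :
    ∫ t, KK η t * (Real.cos (t * x) * Real.cos (t * y))
      = π * (max 0 (η - |x - y|) + max 0 (η - |x + y|)) := by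
  have h1 : ∀ t, KK η t * (Real.cos (t * x) * Real.cos (t * y))
      = (1 / 2) * (KK η t * Real.cos ((x - y) * t)) + (1 / 2) * (KK η t * Real.cos ((x + y) * t)) := by
    intro t
    have e1 : (x - y) * t = t * x - t * y := by ring
    have e2 : (x + y) * t = t * x + t * y := by ring
    rw [e1, e2, Real.cos_sub, Real.cos_add]
    ring
  have hi : ∀ r : ℝ, Integrable (fun t => KK η t * Real.cos (r * t)) := by
    intro r
    apply Integrable.mul_bdd (c := 1) (integrable_KK η)
    · exact (by fun_prop : Continuous fun t : ℝ => Real.cos (r * t)).aestronglyMeasurable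
    · exact ae_of_all _ fun t => by rw [Real.norm_eq_abs]; exact Real.abs_cos_le_one _
  simp_rw [h1]
  rw [integral_add ((hi _).const_mul _) ((hi _).const_mul _), integral_const_mul, integral_const_mul,
    integral_KK_cos hη, integral_KK_cos hη]
  ring

end Pool.Agent.H6
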