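import Mathlib
import Pool.Agent.H6.KKernel
import Pool.Agent.H6.Weights2

open MeasureTheory Set Filter Topology
open scoped Real Interval

namespace Pool.Agent.H6

/-- Fejer type kernel `(1/16) sinc(πu/4)⁴`. -/
noncomputable def k4 (u : ℝ) : ℝ := (cosT (fun x => tri (x / (1 / 4))) u) ^ 2

lemma k4_eq (u : ℝ) : k4 u = (1 / 16) * Real.sinc (π * u / 4) ^ 4 := by
  unfold k4
  rw [cosT_dilate tri (by norm_num), cosT_tri]
  rw [show π * (1 / 4 * u) = π * u / 4 by ring]
  ring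

lemma continuous_k4 : Continuous k4 := by
  have h : k4 = fun u => (1 / 16) * Real.sinc (π * u / 4) ^ 4 := by ext u; exact k4_eq u
  rw [h]
  have := Real.continuous_sinc
  fun_prop

lemma k4_nonneg (u : ℝ) : 0 ≤ k4 u := by unfold k4; positivity

lemma k4_even (u : ℝ) : k4 (-u) = k4 u := by
  unfold k4; rw [cosT_neg]

lemma sinc_mul_self (x : ℝ) : Real.sinc x * x = Real.sin x := by
  rcases eq_or_ne x 0 with h | h
  · rw [h]; simp
  · rw [Real.sinc_of_ne_zero h]; field_simp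

lemma k4_mul (u : ℝ) : k4 u * (π * u / 4) ^ 4 = (1 / 16) * Real.sin (π * u / 4) ^ 4 := by
  rw [k4_eq, mul_assoc, ← mul_pow, sinc_mul_self]

lemma k4_le (u : ℝ) : k4 u ≤ 1 / (1 + u ^ 2) ^ 2 := by
  have h1 : k4 u ≤ 1 / 16 := by
    rw [k4_eq]
    have h := abs_sinc_sq_le (π * u / 4)
    have h2 : Real.sinc (π * u / 4) ^ 4 = (Real.sinc (π * u / 4) ^ 2) ^ 2 := by ring
    rw [h2]
    have h3 : (Real.sinc (π * u / 4) ^ 2) ^ 2 ≤ 1 := pow_le_one₀ (sq_nonneg _) h
    linarith
  have h2 : k4 u * u ^ 4 ≤ 1 / 4 := by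
    have h := k4_mul u
    have h3 : Real.sin (π * u / 4) ^ 4 ≤ 1 := by
      have h4 := Real.sin_sq_le_one (π * u / 4)
      have h5 : Real.sin (π * u / 4) ^ 4 = (Real.sin (π * u / 4) ^ 2) ^ 2 := by ring
      rw [h5]
      exact pow_le_one₀ (sq_nonneg _) h4
    have h4 : (π * u / 4) ^ 4 = (π / 4) ^ 4 * u ^ 4 := by ring
    rw [h4] at h
    have h5 : (3 / 4 : ℝ) ^ 4 ≤ (π / 4) ^ 4 := by
      apply pow_le_pow_left₀ (by norm_num)
      linarith [Real.pi_gt_three]
    have h6 : 0 ≤ k4 u * u ^ 4 := mul_nonneg (k4_nonneg u) (by positivity)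
    have h7 : (3 / 4 : ℝ) ^ 4 * (k4 u * u ^ 4) ≤ (π / 4) ^ 4 * (k4 u * u ^ 4) :=
      mul_le_mul_of_nonneg_right h5 h6
    have h8 : (π / 4) ^ 4 * (k4 u * u ^ 4) ≤ 1 / 16 := by
      calc (π / 4) ^ 4 * (k4 u * u ^ 4) = k4 u * ((π / 4) ^ 4 * u ^ 4) := by ring
        _ = 1 / 16 * Real.sin (π * u / 4) ^ 4 := h
        _ ≤ 1 / 16 := by linarith
    norm_num at h7
    nlinarith
  rw [le_div_iff₀ (by positivity)]
  have h3 : (1 + u ^ 2) ^ 2 ≤ 2 + 2 * u ^ 4 := by nlinarith [sq_nonneg (u ^ 2 - 1)]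
  calc k4 u * (1 + u ^ 2) ^ 2 ≤ k4 u * (2 + 2 * u ^ 4) := mul_le_mul_of_nonneg_left h3 (k4_nonneg u)
    _ = 2 * k4 u + 2 * (k4 u * u ^ 4) := by ring
    _ ≤ 1 := by linarith

lemma integrable_k4 : Integrable k4 := by
  apply Integrable.mono' integrable_inv_one_add_sq continuous_k4.aestronglyMeasurable
  apply ae_of_all
  intro u
  rw [Real.norm_eq_abs, abs_of_nonneg (k4_nonneg u)]
  refine (k4_le u).trans ?_
  rw [one_div]
  apply inv_anti₀ (by positivity)
  nlinarith [sq_nonneg u]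

lemma cosT_k4 {ξ : ℝ} (hξ : 1 / 2 ≤ |ξ|) : cosT k4 ξ = 0 := by
  have hc : Continuous fun x : ℝ => tri (x / (1 / 4)) := continuous_tri.comp (continuous_id.div_const _)
  have hs : HasCompactSupport fun x : ℝ => tri (x / (1 / 4)) := by
    apply HasCompactSupport.intro (K := Icc (-1) 1) isCompact_Icc
    intro x hx
    apply tri_eq_zero
    rw [abs_div, abs_of_pos (by norm_num : (0 : ℝ) < 1 / 4), le_div_iff₀ (by norm_num)]
    by_contra h
    rw [not_le] at h
    have : |x| < 1 := by linarith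
    rw [abs_lt] at this
    exact hx ⟨this.1.le, this.2.le⟩
  have hi := hc.integrable_of_hasCompactSupport (μ := volume) hs
  have hK : Integrable (cosT fun x : ℝ => tri (x / (1 / 4))) := by
    have e : (cosT fun x : ℝ => tri (x / (1 / 4))) = fun ξ => (1 / 4) * cosT tri (1 / 4 * ξ) := by
      ext ξ
      exact cosT_dilate tri (by norm_num) ξ
    rw [e]
    exact (integrable_cosT_tri.comp_mul_left' (by norm_num)).const_mul _
  unfold k4
  apply cosT_sq_eq_zero hc hi _ hK (r := 1 / 4) _ (by linarith)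
  · intro x
    rw [neg_div, tri_even]
  · intro x hx
    apply tri_eq_zero
    rw [abs_div, abs_of_pos (by norm_num : (0 : ℝ) < 1 / 4), le_div_iff₀ (by norm_num)]
    linarith

/-- A positive band limited majorant. -/
noncomputable def Maj (u : ℝ) : ℝ := k4 u + (1 / 2) * (k4 (u - 2) + k4 (u + 2))

lemma Maj_nonneg (u : ℝ) : 0 ≤ Maj u := by
  unfold Maj
  have := k4_nonneg u
  have := k4_nonneg (u - 2)
  have := k4_nonneg (u + 2)
  positivity

lemma Maj_ge (u : ℝ) : (1 / 2048) / (1 + u ^ 2) ^ 2 ≤ Maj u := by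
  have hpi4 := Real.pi_le_four
  have hpi0 := Real.pi_pos
  set D : ℝ := (|u| + 2) ^ 4 with hD
  have hb : ∀ v : ℝ, |v| ≤ |u| + 2 → (π * v / 4) ^ 4 ≤ D := by
    intro v hv
    have h1 : |π * v / 4| ≤ |u| + 2 := by
      rw [abs_div, abs_mul, abs_of_pos hpi0, abs_of_pos (by norm_num : (0 : ℝ) < 4), div_le_iff₀ (by norm_num)]
      nlinarith [abs_nonneg v]
    have h2 : (π * v / 4) ^ 4 = |π * v / 4| ^ 4 := by
      rw [show (4 : ℕ) = 2 * 2 by norm_num, pow_mul, pow_mul, sq_abs]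
    rw [h2]
    exact pow_le_pow_left₀ (abs_nonneg _) h1 4
  have hk : ∀ v : ℝ, |v| ≤ |u| + 2 → (1 / 16) * Real.sin (π * v / 4) ^ 4 ≤ k4 v * D := by
    intro v hv
    rw [← k4_mul]
    exact mul_le_mul_of_nonneg_left (hb v hv) (k4_nonneg v)
  have h0 := hk u (by linarith)
  have h1 := hk (u - 2) (by have := abs_sub u 2; rw [abs_of_pos (by norm_num : (0:ℝ) < 2)] at this; exact this)
  have h2 := hk (u + 2) (by have := abs_add_le u 2; rw [abs_of_pos (by norm_num : (0:ℝ) < 2)] at this; exact this)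
  have e1 : Real.sin (π * (u - 2) / 4) = -Real.cos (π * u / 4) := by
    rw [show π * (u - 2) / 4 = π * u / 4 - π / 2 by ring, Real.sin_sub_pi_div_two]
  have e2 : Real.sin (π * (u + 2) / 4) = Real.cos (π * u / 4) := by
    rw [show π * (u + 2) / 4 = π * u / 4 + π / 2 by ring, Real.sin_add_pi_div_two]
  rw [e1] at h1
  rw [e2] at h2
  have h3 : (1 / 32 : ℝ) ≤ Maj u * D := by
    unfold Maj
    have h4 : (1 / 2 : ℝ) ≤ Real.sin (π * u / 4) ^ 4 + Real.cos (π * u / 4) ^ 4 := by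
      have h5 := Real.sin_sq_add_cos_sq (π * u / 4)
      have h6 : Real.cos (π * u / 4) ^ 2 = 1 - Real.sin (π * u / 4) ^ 2 := by linarith
      have h7 : Real.cos (π * u / 4) ^ 4 = (1 - Real.sin (π * u / 4) ^ 2) ^ 2 := by
        rw [← h6]; ring
      rw [h7]
      nlinarith [sq_nonneg (2 * Real.sin (π * u / 4) ^ 2 - 1)]
    have h8 : (-Real.cos (π * u / 4)) ^ 4 = Real.cos (π * u / 4) ^ 4 := by ring
    rw [h8] at h1
    calc (1 / 32 : ℝ) ≤ (1 / 16) * (Real.sin (π * u / 4) ^ 4 + Real.cos (π * u / 4) ^ 4) := by linarith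
      _ ≤ (k4 u + (1 / 2) * (k4 (u - 2) + k4 (u + 2))) * D := by linarith
  have h9 : D ≤ 64 * (1 + u ^ 2) ^ 2 := by
    have h10 : (|u| + 2) ^ 2 ≤ 8 * (1 + u ^ 2) := by
      nlinarith [sq_abs u, sq_nonneg (|u| - 2), sq_nonneg u]
    calc D = ((|u| + 2) ^ 2) ^ 2 := by rw [hD]; ring
      _ ≤ (8 * (1 + u ^ 2)) ^ 2 := pow_le_pow_left₀ (by positivity) h10 2
      _ = _ := by ring
  rw [div_le_iff₀ (by positivity)]
  have h11 : Maj u * D ≤ Maj u * (64 * (1 + u ^ 2) ^ 2) := mul_le_mul_of_nonneg_left h9 (Maj_nonneg u)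
  nlinarith

lemma continuous_Maj : Continuous Maj := by
  unfold Maj
  have := continuous_k4
  fun_prop

lemma k4_shift_le {u v : ℝ} (h : |u - v| ≤ 2) : k4 v ≤ 81 / (1 + u ^ 2) ^ 2 := by
  refine (k4_le v).trans ?_
  rw [div_le_div_iff₀ (by positivity) (by positivity), one_mul]
  have h1 : 1 + u ^ 2 ≤ 9 * (1 + v ^ 2) := by
    have h2 : (u - v) ^ 2 ≤ 4 := by
      rw [← sq_abs]
      nlinarith [abs_nonneg (u - v)]
    nlinarith [sq_nonneg (u - 2 * v), sq_nonneg v]
  calc (1 + u ^ 2) ^ 2 ≤ (9 * (1 + v ^ 2)) ^ 2 := pow_le_pow_left₀ (by positivity) h1 2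
    _ = _ := by ring

lemma testFn_Maj : TestFn (1 / 2) Maj := by
  refine ⟨continuous_Maj, ?_, ⟨162, by norm_num, ?_⟩, ?_⟩
  · intro u
    unfold Maj
    rw [k4_even, show -u - 2 = -(u + 2) by ring, k4_even, show -u + 2 = -(u - 2) by ring, k4_even]
    ring
  · intro u
    rw [abs_of_nonneg (Maj_nonneg u)]
    unfold Maj
    have h0 := k4_le u
    have h1 := k4_shift_le (u := u) (v := u - 2) (by norm_num)
    have h2 := k4_shift_le (u := u) (v := u + 2) (by
      rw [show u - (u + 2) = -2 by ring, abs_neg]; norm_num)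
    have h3 : (162 : ℝ) / (1 + u ^ 2) ^ 2 = 1 / (1 + u ^ 2) ^ 2 + 81 / (1 + u ^ 2) ^ 2 + 80 / (1 + u ^ 2) ^ 2 := by ring
    have h4 : 0 ≤ 80 / (1 + u ^ 2) ^ 2 := by positivity
    rw [h3]
    linarith
  · intro ξ hξ
    have hk := cosT_k4 hξ
    have h1 : ∫ u, (1 / 2) * (k4 (u - 2) + k4 (u + 2)) * Real.cos (2 * π * u * ξ) = 0 := by
      have i1 : Integrable (fun u => k4 (u - 2) * Real.cos (2 * π * u * ξ)) :=
        integrable_mul_cos (integrable_k4.comp_sub_right 2) ξ
      have i2 : Integrable (fun u => k4 (u + 2) * Real.cos (2 * π * u * ξ)) :=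
        integrable_mul_cos (integrable_k4.comp_add_right 2) ξ
      have e : ∀ u, (1 / 2) * (k4 (u - 2) + k4 (u + 2)) * Real.cos (2 * π * u * ξ)
          = (1 / 2) * (k4 (u - 2) * Real.cos (2 * π * u * ξ) + k4 (u + 2) * Real.cos (2 * π * u * ξ)) := by
        intro u; ring
      simp_rw [e]
      rw [integral_const_mul, integral_add i1 i2]
      have e1 : ∫ u, k4 (u - 2) * Real.cos (2 * π * u * ξ) = ∫ v, k4 v * Real.cos (2 * π * (v + 2) * ξ) := by
        have := integral_sub_right_eq_self (fun v => k4 v * Real.cos (2 * π * (v + 2) * ξ)) (2 : ℝ) (μ := volume)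
        rw [← this]
        congr 1
        ext u
        congr 3
        ring
      have e2 : ∫ u, k4 (u + 2) * Real.cos (2 * π * u * ξ) = ∫ v, k4 v * Real.cos (2 * π * (v - 2) * ξ) := by
        have := integral_add_right_eq_self (fun v => k4 v * Real.cos (2 * π * (v - 2) * ξ)) (2 : ℝ) (μ := volume)
        rw [← this]
        congr 1
        ext u
        congr 3
        ring
      rw [e1, e2]
      have i3 : Integrable (fun v => k4 v * Real.cos (2 * π * (v + 2) * ξ)) := by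
        apply Integrable.mul_bdd (c := 1) integrable_k4
        · exact (by fun_prop : Continuous fun v : ℝ => Real.cos (2 * π * (v + 2) * ξ)).aestronglyMeasurable
        · exact ae_of_all _ fun v => by rw [Real.norm_eq_abs]; exact Real.abs_cos_le_one _
      have i4 : Integrable (fun v => k4 v * Real.cos (2 * π * (v - 2) * ξ)) := by
        apply Integrable.mul_bdd (c := 1) integrable_k4
        · exact (by fun_prop : Continuous fun v : ℝ => Real.cos (2 * π * (v - 2) * ξ)).aestronglyMeasurable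
        · exact ae_of_all _ fun v => by rw [Real.norm_eq_abs]; exact Real.abs_cos_le_one _
      rw [← integral_add i3 i4]
      have e3 : ∀ v, k4 v * Real.cos (2 * π * (v + 2) * ξ) + k4 v * Real.cos (2 * π * (v - 2) * ξ)
          = (2 * Real.cos (4 * π * ξ)) * (k4 v * Real.cos (2 * π * v * ξ)) := by
        intro v
        rw [show 2 * π * (v + 2) * ξ = 2 * π * v * ξ + 4 * π * ξ by ring,
          show 2 * π * (v - 2) * ξ = 2 * π * v * ξ - 4 * π * ξ by ring, Real.cos_add, Real.cos_sub]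
        ring
      simp_rw [e3]
      rw [integral_const_mul]
      change (1 / 2) * ((2 * Real.cos (4 * π * ξ)) * cosT k4 ξ) = 0
      rw [hk]
      ring
    unfold cosT Maj
    have e4 : ∀ u, (k4 u + 1 / 2 * (k4 (u - 2) + k4 (u + 2))) * Real.cos (2 * π * u * ξ)
        = k4 u * Real.cos (2 * π * u * ξ) + (1 / 2) * (k4 (u - 2) + k4 (u + 2)) * Real.cos (2 * π * u * ξ) := by
      intro u; ring
    simp_rw [e4]
    rw [integral_add (integrable_mul_cos integrable_k4 ξ), h1, add_zero]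
    · exact hk
    · apply integrable_mul_cos
      exact ((integrable_k4.comp_sub_right 2).add (integrable_k4.comp_add_right 2)).const_mul _

end Pool.Agent.H6
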