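import Mathlib
import Pool.Agent.H6.Major

open MeasureTheory Set Filter Topology
open scoped Real Interval

namespace Pool.Agent.H6

section
variable {ι : Type*} [Countable ι] {γ w : ι → ℝ} {F : ℝ → Finset ι} {CR : ℝ}

omit [Countable ι] in
/-- Domination between sums. -/
lemma SS_dom (hw : ∀ i, 0 ≤ w i) {φ ψ : ℝ → ℝ} {L L' K t : ℝ}
    (hφ : Summable fun i => |w i * φ (L * (t - γ i) / (2 * π))|)
    (hψ : Summable fun i => |w i * ψ (L' * (t - γ i) / (2 * π))|)
    (h : ∀ x, |φ (L * x / (2 * π))| ≤ K * ψ (L' * x / (2 * π))) :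
    |SS γ w φ L t| ≤ K * SS γ w ψ L' t := by
  unfold SS
  have h1 := norm_tsum_le_tsum_norm (f := fun i => w i * φ (L * (t - γ i) / (2 * π)))
    (by simpa [Real.norm_eq_abs] using hφ)
  simp only [Real.norm_eq_abs] at h1
  refine h1.trans ?_
  rw [← tsum_mul_left]
  apply Summable.tsum_le_tsum _ hφ (hψ.of_abs.mul_left K)
  intro i
  rw [abs_mul, abs_of_nonneg (hw i)]
  calc w i * |φ (L * (t - γ i) / (2 * π))| ≤ w i * (K * ψ (L' * (t - γ i) / (2 * π))) :=
        mul_le_mul_of_nonneg_left (h _) (hw i)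
    _ = _ := by ring

/-- `Maj` dominates all functions of fourth order decay, at comparable scales. -/
lemma maj_dom {φ : ℝ → ℝ} {C : ℝ} (hC : 0 ≤ C) (hφ : ∀ u, |φ u| ≤ C / (1 + u ^ 2) ^ 2) {L L' : ℝ} (hL' : 0 ≤ L')
    (h : L' ≤ 4 * L) (x : ℝ) :
    |φ (L * x / (2 * π))| ≤ (524288 * C) * Maj (L' * x / (2 * π)) := by
  have h1 := Maj_ge (L' * x / (2 * π))
  refine (hφ _).trans ?_
  have hL0 : 0 ≤ L := by linarith
  have h2 : 1 + (L' * x / (2 * π)) ^ 2 ≤ 16 * (1 + (L * x / (2 * π)) ^ 2) := by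
    have e1 : (L' * x / (2 * π)) ^ 2 = L' ^ 2 * (x / (2 * π)) ^ 2 := by ring
    have e2 : (L * x / (2 * π)) ^ 2 = L ^ 2 * (x / (2 * π)) ^ 2 := by ring
    rw [e1, e2]
    have h3 : L' ^ 2 ≤ 16 * L ^ 2 := by nlinarith
    nlinarith [mul_le_mul_of_nonneg_right h3 (sq_nonneg (x / (2 * π)))]
  have h4 : (1 + (L' * x / (2 * π)) ^ 2) ^ 2 ≤ 256 * (1 + (L * x / (2 * π)) ^ 2) ^ 2 := by
    calc (1 + (L' * x / (2 * π)) ^ 2) ^ 2 ≤ (16 * (1 + (L * x / (2 * π)) ^ 2)) ^ 2 :=
          pow_le_pow_left₀ (by positivity) h2 2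
      _ = _ := by ring
  have h5 : C / (1 + (L * x / (2 * π)) ^ 2) ^ 2 ≤ (524288 * C) * ((1 / 2048) / (1 + (L' * x / (2 * π)) ^ 2) ^ 2) := by
    rw [← mul_div_assoc, div_le_div_iff₀ (by positivity) (by positivity)]
    calc C * (1 + (L' * x / (2 * π)) ^ 2) ^ 2 ≤ C * (256 * (1 + (L * x / (2 * π)) ^ 2) ^ 2) :=
          mul_le_mul_of_nonneg_left h4 hC
      _ = _ := by ring
  exact h5.trans (mul_le_mul_of_nonneg_left h1 (by positivity))

namespace Ordinates

variable (O : Ordinates ι γ w F CR)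
include O

omit [Countable ι] in
lemma SS_Maj_nonneg (L t : ℝ) : 0 ≤ SS γ w Maj L t := by
  unfold SS
  exact tsum_nonneg fun i => mul_nonneg (O.w_nonneg i) (Maj_nonneg _)

omit [Countable ι] in
lemma abs_SS_le_Maj {φ : ℝ → ℝ} {C : ℝ} (hC : 0 ≤ C) (hφ : ∀ u, |φ u| ≤ C / (1 + u ^ 2) ^ 2) {L L' : ℝ}
    (hL : 2 * π ≤ L) (hL' : 2 * π ≤ L') (h : L' ≤ 4 * L) (t : ℝ) :
    |SS γ w φ L t| ≤ (524288 * C) * SS γ w Maj L' t := by
  obtain ⟨D, hD0, hD⟩ := testFn_Maj.decay
  have hπ := Real.pi_pos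
  exact SS_dom O.w_nonneg (O.summable_phi hC hφ hL t) (O.summable_phi hD0 hD hL' t)
    (maj_dom hC hφ (by linarith) h)

end Ordinates

/-- Regular test functions: stable under small dilations. -/
structure Reg (s : ℝ) (φ : ℝ → ℝ) : Prop where
  test : TestFn s φ
  dil : ∃ C, 0 ≤ C ∧ ∀ c, 1 / 2 ≤ c → c ≤ 2 → ∀ u, |φ (c * u) - φ u| ≤ C * |c - 1| / (1 + u ^ 2) ^ 2

omit [Countable ι] in
/-- Changing the scale slightly. -/
lemma Ordinates.scale_sq (O : Ordinates ι γ w F CR) {s : ℝ} {φ : ℝ → ℝ} (hφ : Reg s φ) :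
    ∃ K, 0 ≤ K ∧ ∀ c L, 1 / 2 ≤ c → c ≤ 2 → 2 * π ≤ L → 2 * π ≤ c * L → ∀ t,
      |SS γ w φ (c * L) t ^ 2 - SS γ w φ L t ^ 2| ≤ K * |c - 1| * SS γ w Maj L t ^ 2 := by
  obtain ⟨C, hC0, hC⟩ := hφ.test.decay
  obtain ⟨D, hD0, hD⟩ := hφ.dil
  refine ⟨(524288 * D) * (2 * (524288 * C)), by positivity, fun c L hc1 hc2 hL hcL t => ?_⟩
  have hπ := Real.pi_pos
  have hL0 : 0 < L := by linarith
  have hM := O.SS_Maj_nonneg L t
  -- difference
  have h1 : SS γ w φ (c * L) t - SS γ w φ L t = SS γ w (fun u => φ (c * u) - φ u) L t := by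
    have s1 := (O.summable_phi hC0 hC hcL t).of_abs
    have s2 := (O.summable_phi hC0 hC hL t).of_abs
    unfold SS
    rw [← s1.tsum_sub s2]
    congr 1
    ext i
    have e : c * (L * (t - γ i) / (2 * π)) = c * L * (t - γ i) / (2 * π) := by ring
    simp only [e]
    ring
  have h2 : |SS γ w φ (c * L) t - SS γ w φ L t| ≤ (524288 * D) * |c - 1| * SS γ w Maj L t := by
    rw [h1]
    have h3 := O.abs_SS_le_Maj (φ := fun u => φ (c * u) - φ u) (C := D * |c - 1|) (by positivity)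
      (fun u => hD c hc1 hc2 u) hL hL (by linarith) t
    refine h3.trans (le_of_eq (by ring))
  have h4 : |SS γ w φ (c * L) t| ≤ (524288 * C) * SS γ w Maj L t :=
    O.abs_SS_le_Maj hC0 hC hcL hL (by nlinarith) t
  have h5 : |SS γ w φ L t| ≤ (524288 * C) * SS γ w Maj L t :=
    O.abs_SS_le_Maj hC0 hC hL hL (by linarith) t
  have h6 : |SS γ w φ (c * L) t + SS γ w φ L t| ≤ 2 * (524288 * C) * SS γ w Maj L t := by
    refine (abs_add_le _ _).trans ?_
    linarith
  rw [sq_sub_sq, abs_mul, mul_comm]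
  calc |SS γ w φ (c * L) t - SS γ w φ L t| * |SS γ w φ (c * L) t + SS γ w φ L t|
      ≤ ((524288 * D) * |c - 1| * SS γ w Maj L t) * (2 * (524288 * C) * SS γ w Maj L t) :=
        mul_le_mul h2 h6 (abs_nonneg _) (by positivity)
    _ = _ := by ring

/-- Integration by parts bound for tails. -/
lemma tail_by_parts {f : ℝ → ℝ} (hf : Continuous f) {a b C : ℝ} (ha : 0 < a) (hab : a ≤ b) (hC0 : 0 ≤ C)
    (hf0 : ∀ t, 0 ≤ f t)
    (hC : ∀ τ ∈ Icc a b, ∫ t in (0 : ℝ)..τ, f t ≤ C * τ) :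
    ∫ t in a..b, f t / t ^ 2 ≤ 3 * C / a := by
  set A : ℝ → ℝ := fun τ => ∫ t in (0 : ℝ)..τ, f t with hA
  have hAd : ∀ t, HasDerivAt A (f t) t := fun t =>
    intervalIntegral.integral_hasDerivAt_right (hf.intervalIntegrable _ _) (hf.stronglyMeasurableAtFilter _ _) hf.continuousAt
  have hAc : Continuous A := by
    rw [continuous_iff_continuousAt]
    exact fun t => (hAd t).continuousAt
  have hpos : ∀ t ∈ uIcc a b, 0 < t := by
    intro t ht
    rw [uIcc_of_le hab] at ht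
    linarith [ht.1]
  have hvd : ∀ t ∈ uIcc a b, HasDerivAt (fun t : ℝ => (t ^ 2)⁻¹) (-(2 * t) / (t ^ 2) ^ 2) t := by
    intro t ht
    have h0 := (hpos t ht).ne'
    have h1 : HasDerivAt (fun t : ℝ => (t ^ 2)⁻¹) _ t := (hasDerivAt_pow 2 t).inv (pow_ne_zero 2 h0)
    apply h1.congr_deriv
    norm_num
  have hcont : ContinuousOn (fun t : ℝ => -(2 * t) / (t ^ 2) ^ 2) (uIcc a b) := by
    apply ContinuousOn.div (by fun_prop) (by fun_prop)
    intro t ht
    have := hpos t ht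
    positivity
  have hibp := intervalIntegral.integral_mul_deriv_eq_deriv_mul (u := A) (v := fun t : ℝ => (t ^ 2)⁻¹)
    (u' := f) (v' := fun t : ℝ => -(2 * t) / (t ^ 2) ^ 2) (a := a) (b := b)
    (fun t _ => hAd t) hvd (hf.intervalIntegrable _ _) (hcont.intervalIntegrable)
  have e1 : ∫ t in a..b, f t / t ^ 2 = A b * (b ^ 2)⁻¹ - A a * (a ^ 2)⁻¹
      + ∫ t in a..b, A t * (2 * t / (t ^ 2) ^ 2) := by
    have e2 : ∫ t in a..b, A t * (-(2 * t) / (t ^ 2) ^ 2) = -∫ t in a..b, A t * (2 * t / (t ^ 2) ^ 2) := by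
      rw [← intervalIntegral.integral_neg]
      congr 1
      ext t
      ring
    rw [e2] at hibp
    have e3 : ∫ t in a..b, f t / t ^ 2 = ∫ t in a..b, f t * (t ^ 2)⁻¹ := by
      congr 1
    rw [e3]
    linarith
  have hA0 : 0 ≤ A a := intervalIntegral.integral_nonneg ha.le fun t _ => hf0 t
  have hAb : A b ≤ C * b := hC b ⟨hab, le_rfl⟩
  have hb0 : 0 < b := by linarith
  have h3 : ∫ t in a..b, A t * (2 * t / (t ^ 2) ^ 2) ≤ ∫ t in a..b, (2 * C) * (t ^ 2)⁻¹ := by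
    apply intervalIntegral.integral_mono_on hab
    · apply ContinuousOn.intervalIntegrable
      apply hAc.continuousOn.mul
      apply ContinuousOn.div (by fun_prop) (by fun_prop)
      intro t ht
      have := hpos t ht
      positivity
    · apply ContinuousOn.intervalIntegrable
      apply continuousOn_const.mul
      apply ContinuousOn.inv₀ (by fun_prop)
      intro t ht
      have := hpos t ht
      positivity
    · intro t ht
      have ht0 : 0 < t := by linarith [ht.1]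
      have h4 := hC t ht
      calc A t * (2 * t / (t ^ 2) ^ 2) ≤ (C * t) * (2 * t / (t ^ 2) ^ 2) :=
            mul_le_mul_of_nonneg_right h4 (by positivity)
        _ = _ := by field_simp
  have h4 : ∫ t in a..b, (2 * C) * (t ^ 2)⁻¹ = 2 * C * (1 / a - 1 / b) := by
    rw [intervalIntegral.integral_const_mul]
    congr 1
    have h5 := intervalIntegral.integral_eq_sub_of_hasDerivAt (f := fun t : ℝ => -(t⁻¹)) (f' := fun t : ℝ => (t ^ 2)⁻¹)
      (a := a) (b := b) (by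
        intro t ht
        have h0 := (hpos t ht).ne'
        have h1 : HasDerivAt (fun t : ℝ => -(t⁻¹)) _ t := (hasDerivAt_inv h0).neg
        apply h1.congr_deriv
        simp) (by
        apply ContinuousOn.intervalIntegrable
        apply ContinuousOn.inv₀ (by fun_prop)
        intro t ht
        have := hpos t ht
        positivity)
    rw [h5]
    ring
  rw [e1]
  have h6 : A b * (b ^ 2)⁻¹ ≤ C / b := by
    calc A b * (b ^ 2)⁻¹ ≤ (C * b) * (b ^ 2)⁻¹ := mul_le_mul_of_nonneg_right hAb (by positivity)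
      _ = _ := by field_simp
  have h7 : 0 ≤ A a * (a ^ 2)⁻¹ := by positivity
  have h8 : 3 * C / a = C / a + 2 * C * (1 / a) := by ring
  have h9 : C / b ≤ 2 * C * (1 / b) := by
    rw [mul_one_div]
    apply div_le_div_of_nonneg_right _ hb0.le
    linarith
  have h10 : 0 ≤ C / a := by positivity
  rw [h8]
  have : 2 * C * (1 / a - 1 / b) = 2 * C * (1 / a) - 2 * C * (1 / b) := by ring
  linarith

end

end Pool.Agent.H6
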