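import Mathlib
import Pool.Agent.H6.Apriori
import Pool.Agent.H6.CT2

open MeasureTheory Set Filter Topology
open scoped Real Interval

namespace Pool.Agent.H6

section
variable {ι : Type*} [Countable ι] {γ w : ι → ℝ} {F : ℝ → Finset ι} {CR : ℝ}

lemma rpow_half_sq {x : ℝ} (hx : 0 ≤ x) : (x ^ (1 / 4 : ℝ)) ^ 2 = x ^ (1 / 2 : ℝ) := by
  rw [← Real.rpow_natCast, ← Real.rpow_mul hx]
  norm_num

omit [Countable ι] in
lemma Ordinates.SS_sq_le (O : Ordinates ι γ w F CR) {φ : ℝ → ℝ} {C : ℝ} (hC : 0 ≤ C)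
    (hφ : ∀ u, |φ u| ≤ C / (1 + u ^ 2) ^ 2) {L : ℝ} (hL : 2 * π ≤ L) (t : ℝ) :
    SS γ w φ L t ^ 2 ≤ (C * CR) ^ 2 * (1 + |t|) ^ (1 / 2 : ℝ) := by
  have h1 := (O.abs_SS_le hC hφ hL t).trans (mul_le_mul_of_nonneg_left (O.bound t) hC)
  rw [← sq_abs]
  calc |SS γ w φ L t| ^ 2 ≤ (C * (CR * (1 + |t|) ^ (1 / 4 : ℝ))) ^ 2 := pow_le_pow_left₀ (abs_nonneg _) h1 2
    _ = (C * CR) ^ 2 * ((1 + |t|) ^ (1 / 4 : ℝ)) ^ 2 := by ring
    _ = _ := by rw [rpow_half_sq (by positivity)]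

/-- Crude tail estimate. -/
lemma crude_tail {f : ℝ → ℝ} (hf : Continuous f) (hf0 : ∀ t, 0 ≤ f t) {D : ℝ} (hD : 0 ≤ D)
    (hb : ∀ t, f t ≤ D * (1 + |t|) ^ (1 / 2 : ℝ)) {b : ℝ} (hb1 : 1 ≤ b) :
    IntegrableOn (fun t => f t / t ^ 2) (Ioi b) ∧ ∫ t in Ioi b, f t / t ^ 2 ≤ 4 * D * b ^ (-(1 / 2) : ℝ) := by
  have hb0 : 0 < b := by linarith
  have hle : ∀ t ∈ Ioi b, f t / t ^ 2 ≤ (2 * D) * t ^ (-(3 / 2) : ℝ) := by
    intro t ht
    have ht' : b < t := ht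
    have ht0 : 0 < t := by linarith
    have ht1 : 1 ≤ t := by linarith
    rw [div_le_iff₀ (by positivity)]
    refine (hb t).trans ?_
    have h1 : (1 + |t|) ^ (1 / 2 : ℝ) ≤ 2 * t ^ (1 / 2 : ℝ) := by
      rw [abs_of_pos ht0]
      calc (1 + t) ^ (1 / 2 : ℝ) ≤ (4 * t) ^ (1 / 2 : ℝ) := Real.rpow_le_rpow (by positivity) (by linarith) (by norm_num)
        _ = 2 * t ^ (1 / 2 : ℝ) := by
          rw [Real.mul_rpow (by norm_num) ht0.le]
          congr 1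
          rw [show (4 : ℝ) = 2 ^ (2 : ℝ) by norm_num, ← Real.rpow_mul (by norm_num)]
          norm_num
    have h2 : t ^ (-(3 / 2) : ℝ) * t ^ 2 = t ^ (1 / 2 : ℝ) := by
      rw [← Real.rpow_natCast t 2, ← Real.rpow_add ht0]
      norm_num
    calc D * (1 + |t|) ^ (1 / 2 : ℝ) ≤ D * (2 * t ^ (1 / 2 : ℝ)) := mul_le_mul_of_nonneg_left h1 hD
      _ = 2 * D * (t ^ (-(3 / 2) : ℝ) * t ^ 2) := by rw [h2]; ring
      _ = _ := by ring
  have hi : IntegrableOn (fun t : ℝ => (2 * D) * t ^ (-(3 / 2) : ℝ)) (Ioi b) :=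
    (integrableOn_Ioi_rpow_of_lt (by norm_num) hb0).const_mul _
  have hi2 : IntegrableOn (fun t => f t / t ^ 2) (Ioi b) := by
    apply Integrable.mono' hi
    · apply ContinuousOn.aestronglyMeasurable _ measurableSet_Ioi
      apply ContinuousOn.div hf.continuousOn (by fun_prop)
      intro t ht
      have ht' : b < t := ht
      have : 0 < t := by linarith
      positivity
    · filter_upwards [ae_restrict_mem measurableSet_Ioi] with t ht
      have ht' : b < t := ht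
      have ht0 : 0 < t := by linarith
      rw [Real.norm_eq_abs, abs_of_nonneg (div_nonneg (hf0 t) (by positivity))]
      exact hle t ht
  refine ⟨hi2, ?_⟩
  calc ∫ t in Ioi b, f t / t ^ 2 ≤ ∫ t in Ioi b, (2 * D) * t ^ (-(3 / 2) : ℝ) :=
        setIntegral_mono_on hi2 hi measurableSet_Ioi hle
    _ = 4 * D * b ^ (-(1 / 2) : ℝ) := by
        rw [integral_const_mul, integral_Ioi_rpow_of_lt (by norm_num) hb0]
        norm_num
        ring

namespace Inputs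

lemma maj_int (I : Inputs γ w F CR) : ∃ C T1, 0 < C ∧ 1 ≤ T1 ∧ ∀ L τ, 2 * π ≤ L → T1 ≤ τ → Real.log τ ≤ 4 * L →
    ∫ t in (0 : ℝ)..τ, SS γ w Maj L t ^ 2 ≤ C * τ := by
  have h1 := I.meanSq testFn_Maj (by norm_num) (by norm_num)
  set ℓ := (cosT Maj 0) ^ 2 + ∫ ξ, |ξ| * (cosT Maj ξ) ^ 2 with hℓ
  have hlog := Real.tendsto_log_atTop
  obtain ⟨T1, hT1⟩ := eventually_atTop.mp ((h1.eventually (gt_mem_nhds (by linarith : ℓ < |ℓ| + 1 + (ℓ - |ℓ|) ))).and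
    ((hlog.eventually_ge_atTop (2 * π)).and (eventually_ge_atTop 1)))
  set K : ℝ := 524288 * 162 with hK
  refine ⟨K ^ 2 * (|ℓ| + 1), T1 ⊔ 1, by positivity, le_sup_right, fun L τ hL hτ hlτ => ?_⟩
  obtain ⟨h2, h3, h4⟩ := hT1 τ (le_trans le_sup_left hτ)
  have hτ0 : 0 < τ := by linarith
  have hπ := Real.pi_gt_three
  obtain ⟨D, hD0, hD⟩ := testFn_Maj.decay
  have hdec : ∀ u, |Maj u| ≤ 162 / (1 + u ^ 2) ^ 2 := by
    intro u
    rw [abs_of_nonneg (Maj_nonneg u)]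
    unfold Maj
    have h0 := k4_le u
    have h1 := k4_shift_le (u := u) (v := u - 2) (by norm_num)
    have h2 := k4_shift_le (u := u) (v := u + 2) (by
      rw [show u - (u + 2) = -2 by ring, abs_neg]; norm_num)
    have h3 : (162 : ℝ) / (1 + u ^ 2) ^ 2 = 1 / (1 + u ^ 2) ^ 2 + 81 / (1 + u ^ 2) ^ 2 + 80 / (1 + u ^ 2) ^ 2 := by ring
    have h4 : 0 ≤ 80 / (1 + u ^ 2) ^ 2 := by positivity
    rw [h3]
    linarith
  have hc := I.continuous_SS testFn_Maj (by norm_num) (L := Real.log τ) (by linarith)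
  have hcL := I.continuous_SS testFn_Maj (by norm_num) (L := L) (by linarith)
  have h5 : ∫ t in (0 : ℝ)..τ, SS γ w Maj L t ^ 2 ≤ ∫ t in (0 : ℝ)..τ, K ^ 2 * SS γ w Maj (Real.log τ) t ^ 2 := by
    apply intervalIntegral.integral_mono_on hτ0.le
    · exact (hcL.pow 2).intervalIntegrable _ _
    · exact ((hc.pow 2).const_smul (K ^ 2)).intervalIntegrable _ _
    · intro t _
      have h6 := I.ord.abs_SS_le_Maj (by norm_num) hdec hL h3 hlτ t
      rw [← mul_pow, ← sq_abs (SS γ w Maj L t)]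
      exact pow_le_pow_left₀ (abs_nonneg _) h6 2
  refine h5.trans ?_
  rw [intervalIntegral.integral_const_mul]
  have h7 : ∫ t in (0 : ℝ)..τ, SS γ w Maj (Real.log τ) t ^ 2 ≤ (|ℓ| + 1) * τ := by
    have h8 : avg τ (fun t => SS γ w Maj (Real.log τ) t ^ 2) ≤ |ℓ| + 1 := by
      have := le_abs_self ℓ
      linarith
    unfold avg at h8
    rw [one_div, inv_mul_le_iff₀ hτ0] at h8
    linarith
  calc K ^ 2 * ∫ t in (0 : ℝ)..τ, SS γ w Maj (Real.log τ) t ^ 2 ≤ K ^ 2 * ((|ℓ| + 1) * τ) :=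
        mul_le_mul_of_nonneg_left h7 (by positivity)
    _ = _ := by ring

lemma maj_tail (I : Inputs γ w F CR) : ∃ C T1, 0 < C ∧ 1 ≤ T1 ∧ ∀ L T R, 2 * π ≤ L → T1 ≤ T → 3 * Real.log T ≤ 4 * L →
    1 ≤ R → IntegrableOn (fun t => SS γ w Maj L t ^ 2 / t ^ 2) (Ioi (R * T)) ∧
    T * ∫ t in Ioi (R * T), SS γ w Maj L t ^ 2 / t ^ 2 ≤ C / R + C * T ^ (-(1 / 2) : ℝ) := by
  obtain ⟨C, T1, hC0, hT1, hC⟩ := I.maj_int
  obtain ⟨D, hD0, hD⟩ := testFn_Maj.decay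
  set E : ℝ := (D * CR) ^ 2 with hE
  have hE0 : 0 ≤ E := by positivity
  refine ⟨3 * C + 4 * E, T1, by positivity, hT1, fun L T R hL hT hLT hR => ?_⟩
  have hT1' : 1 ≤ T := hT1.trans hT
  have hT0 : 0 < T := by linarith
  have hπ := Real.pi_gt_three
  have hc := I.continuous_SS testFn_Maj (by norm_num) (L := L) (by linarith)
  have hcr : ∀ {b : ℝ}, 1 ≤ b → IntegrableOn (fun t => SS γ w Maj L t ^ 2 / t ^ 2) (Ioi b) ∧
      ∫ t in Ioi b, SS γ w Maj L t ^ 2 / t ^ 2 ≤ 4 * E * b ^ (-(1 / 2) : ℝ) := fun {b} hb =>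
    crude_tail (f := fun t => SS γ w Maj L t ^ 2) (hc.pow 2) (fun t => sq_nonneg _) hE0
      (fun t => I.ord.SS_sq_le hD0 hD hL t) hb
  have hRT : 1 ≤ R * T := by nlinarith
  have hi := (hcr hRT).1
  refine ⟨hi, ?_⟩
  have hT3 : 1 ≤ T ^ 3 := one_le_pow₀ hT1'
  have hlast : T * ∫ t in Ioi (T ^ 3), SS γ w Maj L t ^ 2 / t ^ 2 ≤ 4 * E * T ^ (-(1 / 2) : ℝ) := by
    have h1 := (hcr hT3).2
    calc T * ∫ t in Ioi (T ^ 3), SS γ w Maj L t ^ 2 / t ^ 2 ≤ T * (4 * E * (T ^ 3) ^ (-(1 / 2) : ℝ)) :=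
          mul_le_mul_of_nonneg_left h1 hT0.le
      _ = 4 * E * (T * (T ^ 3) ^ (-(1 / 2) : ℝ)) := by ring
      _ = 4 * E * T ^ (-(1 / 2) : ℝ) := by
          congr 1
          rw [← Real.rpow_natCast T 3, ← Real.rpow_mul hT0.le]
          nth_rewrite 1 [← Real.rpow_one T]
          rw [← Real.rpow_add hT0]
          norm_num
  have hnn : ∀ t ∈ Ioi (R * T), 0 ≤ SS γ w Maj L t ^ 2 / t ^ 2 := fun t _ => by positivity
  have hCR : 0 ≤ C / R := by positivity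
  have hTn : 0 ≤ T ^ (-(1 / 2) : ℝ) := by positivity
  rcases le_total (R * T) (T ^ 3) with h | h
  · have hsplit : ∫ t in Ioi (R * T), SS γ w Maj L t ^ 2 / t ^ 2
        = (∫ t in (R * T)..(T ^ 3), SS γ w Maj L t ^ 2 / t ^ 2) + ∫ t in Ioi (T ^ 3), SS γ w Maj L t ^ 2 / t ^ 2 := by
      rw [intervalIntegral.integral_of_le h, ← setIntegral_union (Ioc_disjoint_Ioi le_rfl) measurableSet_Ioi
        (hi.mono_set Ioc_subset_Ioi_self) (hcr hT3).1, Ioc_union_Ioi_eq_Ioi h]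
    rw [hsplit, mul_add]
    have h2 : ∫ t in (R * T)..(T ^ 3), SS γ w Maj L t ^ 2 / t ^ 2 ≤ 3 * C / (R * T) := by
      apply tail_by_parts (hc.pow 2) (by positivity) h hC0.le (fun t => sq_nonneg _)
      intro τ hτ
      apply hC L τ hL
      · exact hT.trans (le_trans (by nlinarith) hτ.1)
      · have h3 : Real.log τ ≤ Real.log (T ^ 3) := by
          apply Real.log_le_log _ hτ.2
          have := hτ.1
          nlinarith
        rw [Real.log_pow] at h3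
        push_cast at h3
        linarith
    have h3 : T * (3 * C / (R * T)) = 3 * (C / R) := by
      field_simp
    have h4 : T * ∫ t in (R * T)..(T ^ 3), SS γ w Maj L t ^ 2 / t ^ 2 ≤ 3 * (C / R) := by
      rw [← h3]
      exact mul_le_mul_of_nonneg_left h2 hT0.le
    have h5 : (3 * C + 4 * E) / R = 3 * (C / R) + 4 * E / R := by ring
    have h6 : 0 ≤ 4 * E / R := by positivity
    have h7 : 0 ≤ 3 * C * T ^ (-(1 / 2) : ℝ) := by positivity
    rw [h5]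
    nlinarith
  · have h2 : ∫ t in Ioi (R * T), SS γ w Maj L t ^ 2 / t ^ 2 ≤ ∫ t in Ioi (T ^ 3), SS γ w Maj L t ^ 2 / t ^ 2 := by
      apply setIntegral_mono_set (hcr hT3).1
      · exact ae_of_all _ fun t => by simp only [Pi.zero_apply]; positivity
      · exact (Ioi_subset_Ioi h).eventuallyLE
    have h3 := mul_le_mul_of_nonneg_left h2 hT0.le
    have h5 : 0 ≤ (3 * C + 4 * E) / R := by positivity
    have h7 : 0 ≤ 3 * C * T ^ (-(1 / 2) : ℝ) := by positivity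
    nlinarith

end Inputs

end

end Pool.Agent.H6
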