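import Mathlib
import Pool.Agent.H6.Apriori2

open MeasureTheory Set Filter Topology
open scoped Real Interval

namespace Pool.Agent.H6

lemma integral_Ioi_comp_mul {f : ℝ → ℝ} {T a : ℝ} (hT : 0 < T) :
    ∫ y in Ioi a, f (T * y) = (1 / T) * ∫ t in Ioi (T * a), f t := by
  have h := integral_comp_mul_left_Ioi f a hT
  rw [h, smul_eq_mul, one_div]

lemma integrableOn_Ioi_comp_mul {f : ℝ → ℝ} {T a : ℝ} (hT : 0 < T) :
    IntegrableOn (fun y => f (T * y)) (Ioi a) ↔ IntegrableOn f (Ioi (T * a)) := by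
  exact integrableOn_Ioi_comp_mul_left_iff f a hT

lemma intervalIntegral_comp_mul {f : ℝ → ℝ} {T y : ℝ} (hT : 0 < T) :
    ∫ x in (0 : ℝ)..y, f (T * x) = (1 / T) * ∫ t in (0 : ℝ)..(T * y), f t := by
  have h := intervalIntegral.integral_comp_mul_left f (a := 0) (b := y) hT.ne'
  rw [mul_zero] at h
  rw [h, smul_eq_mul, one_div]

section
variable {ι : Type*} [Countable ι] {γ w : ι → ℝ} {F : ℝ → Finset ι} {CR : ℝ}

namespace Inputs

/-- uniform bound for the majorant -/
lemma majFam (I : Inputs γ w F CR) : ∃ B T2, 0 < B ∧ 1 ≤ T2 ∧ ∀ L T, 2 * π ≤ L → T2 ≤ T → 3 * Real.log T ≤ 4 * L →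
    IntegrableOn (fun y => SS γ w Maj L (T * y) ^ 2 / (1 + y ^ 2)) (Ioi 0) ∧
    ∫ y in Ioi 0, SS γ w Maj L (T * y) ^ 2 / (1 + y ^ 2) ≤ B := by
  obtain ⟨C, T1, hC0, hT1, hC⟩ := I.maj_int
  obtain ⟨C', T1', hC0', hT1', hC'⟩ := I.maj_tail
  refine ⟨C + 2 * C', T1 ⊔ T1', by positivity, le_trans hT1 le_sup_left, fun L T hL hT hLT => ?_⟩
  have hTT1 : T1 ≤ T := le_sup_left.trans hT
  have hTT1' : T1' ≤ T := le_sup_right.trans hT
  have hT0 : 0 < T := by linarith
  have hTone : 1 ≤ T := by linarith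
  have hπ := Real.pi_gt_three
  have hc := I.continuous_SS testFn_Maj (by norm_num) (L := L) (by linarith)
  have hgc : Continuous (fun y => SS γ w Maj L (T * y) ^ 2 / (1 + y ^ 2)) := by
    apply Continuous.div
    · exact (hc.comp (continuous_const.mul continuous_id)).pow 2
    · fun_prop
    · intro y; positivity
  have hlogT : Real.log T ≤ 4 * L := by
    have := Real.log_nonneg hTone
    linarith
  have h1 : ∫ x in (0 : ℝ)..1, SS γ w Maj L (T * x) ^ 2 ≤ C := by
    have e := intervalIntegral_comp_mul (f := fun t => SS γ w Maj L t ^ 2) (T := T) (y := 1) hT0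
    simp only [mul_one] at e
    rw [e]
    have h2 := hC L T hL hTT1 hlogT
    calc 1 / T * ∫ t in (0 : ℝ)..T, SS γ w Maj L t ^ 2 ≤ 1 / T * (C * T) := mul_le_mul_of_nonneg_left h2 (by positivity)
      _ = C := by field_simp
  obtain ⟨hi, htl⟩ := hC' L T 1 hL hTT1' hLT le_rfl
  rw [one_mul] at hi htl
  -- tail after scaling
  have hi2 : IntegrableOn (fun y => SS γ w Maj L (T * y) ^ 2 / y ^ 2) (Ioi 1) := by
    have h3 := (integrableOn_Ioi_comp_mul (f := fun t => SS γ w Maj L t ^ 2 / t ^ 2) (T := T) (a := 1) hT0).mpr (by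
      rw [mul_one]; exact hi)
    have h4 : IntegrableOn (fun y => T ^ 2 * (SS γ w Maj L (T * y) ^ 2 / (T * y) ^ 2)) (Ioi 1) := h3.const_mul (T ^ 2)
    apply h4.congr_fun _ measurableSet_Ioi
    intro y hy
    have hy' : 1 < y := hy
    have hy0 : 0 < y := by linarith
    simp only
    field_simp
  have h5 : ∫ y in Ioi 1, SS γ w Maj L (T * y) ^ 2 / y ^ 2 ≤ 2 * C' := by
    have e : ∫ y in Ioi 1, SS γ w Maj L (T * y) ^ 2 / y ^ 2
        = T ^ 2 * ∫ y in Ioi 1, (fun t => SS γ w Maj L t ^ 2 / t ^ 2) (T * y) := by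
      rw [← integral_const_mul]
      apply setIntegral_congr_fun measurableSet_Ioi
      intro y hy
      have hy' : 1 < y := hy
      have hy0 : 0 < y := by linarith
      simp only
      field_simp
    rw [e, integral_Ioi_comp_mul (f := fun t => SS γ w Maj L t ^ 2 / t ^ 2) hT0, mul_one]
    have h6 : T ^ 2 * (1 / T * ∫ t in Ioi T, SS γ w Maj L t ^ 2 / t ^ 2) = T * ∫ t in Ioi T, SS γ w Maj L t ^ 2 / t ^ 2 := by
      field_simp
    rw [h6]
    have h7 : T ^ (-(1 / 2) : ℝ) ≤ 1 := Real.rpow_le_one_of_one_le_of_nonpos hTone (by norm_num)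
    calc T * ∫ t in Ioi T, SS γ w Maj L t ^ 2 / t ^ 2 ≤ C' / 1 + C' * T ^ (-(1 / 2) : ℝ) := htl
      _ ≤ 2 * C' := by nlinarith
  have hle1 : ∀ y ∈ Ioi (1 : ℝ), SS γ w Maj L (T * y) ^ 2 / (1 + y ^ 2) ≤ SS γ w Maj L (T * y) ^ 2 / y ^ 2 := by
    intro y hy
    have hy' : 1 < y := hy
    have hy0 : 0 < y := by linarith
    apply div_le_div_of_nonneg_left (sq_nonneg _) (by positivity)
    linarith
  have hi3 : IntegrableOn (fun y => SS γ w Maj L (T * y) ^ 2 / (1 + y ^ 2)) (Ioi 1) := by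
    apply Integrable.mono' hi2 hgc.aestronglyMeasurable.restrict
    filter_upwards [ae_restrict_mem measurableSet_Ioi] with y hy
    rw [Real.norm_eq_abs, abs_of_nonneg (by positivity)]
    exact hle1 y hy
  have hi4 : IntegrableOn (fun y => SS γ w Maj L (T * y) ^ 2 / (1 + y ^ 2)) (Ioc 0 1) :=
    hgc.integrableOn_Icc.mono_set Ioc_subset_Icc_self
  have hU : Ioc (0 : ℝ) 1 ∪ Ioi 1 = Ioi 0 := Ioc_union_Ioi_eq_Ioi zero_le_one
  constructor
  · rw [← hU]; exact hi4.union hi3
  · rw [← hU, setIntegral_union (Ioc_disjoint_Ioi le_rfl) measurableSet_Ioi hi4 hi3]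
    apply add_le_add
    · calc ∫ y in Ioc 0 1, SS γ w Maj L (T * y) ^ 2 / (1 + y ^ 2) ≤ ∫ y in Ioc 0 1, SS γ w Maj L (T * y) ^ 2 := by
            apply setIntegral_mono_on hi4 _ measurableSet_Ioc
            · intro y _
              apply div_le_self (sq_nonneg _)
              nlinarith [sq_nonneg y]
            · exact ((hc.comp (continuous_const.mul continuous_id)).pow 2).integrableOn_Icc.mono_set Ioc_subset_Icc_self
        _ ≤ C := by rw [← intervalIntegral.integral_of_le zero_le_one]; exact h1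
    · exact (setIntegral_mono_on hi3 hi2 measurableSet_Ioi hle1).trans h5

lemma KK_one_le (y : ℝ) : KK 1 y ≤ 5 / (1 + y ^ 2) := by
  have := KK_le 1 y
  norm_num at this
  exact this

/-- Changing the scale in the smoothed mean square. -/
theorem mix_scale (I : Inputs γ w F CR) {s : ℝ} {φ : ℝ → ℝ} (hφ : Reg s φ) (hs : 0 < s) {α : Type*} {l : Filter α}
    {A Lf : α → ℝ} (hA : Tendsto A l atTop) (hL : Tendsto (fun x => Lf x / Real.log (A x)) l (𝓝 1)) :
    Tendsto (fun x => (∫ y in Ioi 0, KK 1 y * SS γ w φ (Lf x) (A x * y) ^ 2)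
      - ∫ y in Ioi 0, KK 1 y * SS γ w φ (Real.log (A x)) (A x * y) ^ 2) l (𝓝 0) := by
  obtain ⟨K, hK0, hK⟩ := I.ord.scale_sq hφ
  obtain ⟨C, hC0, hC⟩ := hφ.test.decay
  obtain ⟨B, T2, hB0, hT2, hB⟩ := I.majFam
  have hlog : Tendsto (fun x => Real.log (A x)) l atTop := Real.tendsto_log_atTop.comp hA
  have h1 : Tendsto (fun x => (5 * K * B) * |Lf x / Real.log (A x) - 1|) l (𝓝 0) := by
    have h2 := (hL.sub_const 1).abs.const_mul (5 * K * B)
    simpa using h2
  apply squeeze_zero_norm' _ h1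
  have hπ := Real.pi_gt_three
  filter_upwards [hA.eventually_ge_atTop T2, hlog.eventually_ge_atTop (4 * π), hL.eventually (lt_mem_nhds (by norm_num : (1/2 : ℝ) < 1)),
    hL.eventually (gt_mem_nhds (by norm_num : (1 : ℝ) < 2))] with x hx1 hx2 hx3 hx4
  set T := A x with hTdef
  set L := Real.log T with hLdef
  set c := Lf x / L with hc
  have hL0 : 0 < L := by linarith
  have hLf : Lf x = c * L := by rw [hc]; field_simp
  have hcL : 2 * π ≤ c * L := by nlinarith
  have hLL : 2 * π ≤ L := by linarith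
  have hT0 : 0 < T := by linarith
  have hcont1 := I.continuous_SS hφ.test hs (L := c * L) (by linarith)
  have hcont2 := I.continuous_SS hφ.test hs (L := L) (by linarith)
  obtain ⟨hi, hb⟩ := hB L T hLL hx1 (by linarith)
  -- integrability of both pieces
  have hint : ∀ L', 2 * π ≤ L' → L ≤ 4 * L' → Continuous (SS γ w φ L') →
      IntegrableOn (fun y => KK 1 y * SS γ w φ L' (T * y) ^ 2) (Ioi 0) := by
    intro L' hL' hLL' hc'
    apply Integrable.mono' (hi.const_mul (5 * (524288 * C) ^ 2))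
    · have h5 := continuous_KK 1
      exact (h5.mul ((hc'.comp (continuous_const.mul continuous_id)).pow 2)).aestronglyMeasurable.restrict
    · apply ae_of_all
      intro y
      have h6 := I.ord.abs_SS_le_Maj hC0 hC hL' hLL hLL' (T * y)
      have h7 : SS γ w φ L' (T * y) ^ 2 ≤ (524288 * C) ^ 2 * SS γ w Maj L (T * y) ^ 2 := by
        rw [← mul_pow, ← sq_abs (SS γ w φ L' (T * y))]
        exact pow_le_pow_left₀ (abs_nonneg _) h6 2
      rw [Real.norm_eq_abs, abs_of_nonneg (mul_nonneg (KK_nonneg _ _) (sq_nonneg _))]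
      calc KK 1 y * SS γ w φ L' (T * y) ^ 2 ≤ (5 / (1 + y ^ 2)) * ((524288 * C) ^ 2 * SS γ w Maj L (T * y) ^ 2) :=
            mul_le_mul (KK_one_le y) h7 (sq_nonneg _) (by positivity)
        _ = _ := by ring
  rw [Real.norm_eq_abs, hLf, ← integral_sub (hint (c * L) hcL (by nlinarith) hcont1) (hint L hLL (by linarith) hcont2)]
  refine abs_integral_le_integral_abs.trans ?_
  have h8 : ∫ y in Ioi 0, |KK 1 y * SS γ w φ (c * L) (T * y) ^ 2 - KK 1 y * SS γ w φ L (T * y) ^ 2|
      ≤ ∫ y in Ioi 0, (5 * K * |c - 1|) * (SS γ w Maj L (T * y) ^ 2 / (1 + y ^ 2)) := by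
    apply integral_mono_of_nonneg (ae_of_all _ fun y => abs_nonneg _) (hi.const_mul _)
    apply ae_of_all
    intro y
    simp only
    rw [← mul_sub, abs_mul, abs_of_nonneg (KK_nonneg _ _)]
    have h9 := hK c L hx3.le hx4.le hLL hcL (T * y)
    calc KK 1 y * |SS γ w φ (c * L) (T * y) ^ 2 - SS γ w φ L (T * y) ^ 2|
        ≤ (5 / (1 + y ^ 2)) * (K * |c - 1| * SS γ w Maj L (T * y) ^ 2) :=
          mul_le_mul (KK_one_le y) h9 (abs_nonneg _) (by positivity)
      _ = _ := by ring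
  refine h8.trans ?_
  rw [integral_const_mul]
  calc (5 * K * |c - 1|) * ∫ y in Ioi 0, SS γ w Maj L (T * y) ^ 2 / (1 + y ^ 2) ≤ (5 * K * |c - 1|) * B :=
        mul_le_mul_of_nonneg_left hb (by positivity)
    _ = _ := by ring

/-- Changing the scale in the sharp mean square. -/
theorem avg_scale (I : Inputs γ w F CR) {s : ℝ} {φ : ℝ → ℝ} (hφ : Reg s φ) (hs : 0 < s) {α : Type*} {l : Filter α}
    {A Lf : α → ℝ} (hA : Tendsto A l atTop) (hL : Tendsto (fun x => Lf x / Real.log (A x)) l (𝓝 1)) :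
    Tendsto (fun x => avg (A x) (fun t => SS γ w φ (Lf x) t ^ 2)
      - avg (A x) (fun t => SS γ w φ (Real.log (A x)) t ^ 2)) l (𝓝 0) := by
  obtain ⟨K, hK0, hK⟩ := I.ord.scale_sq hφ
  obtain ⟨B, T2, hB0, hT2, hB⟩ := I.maj_int
  have hlog : Tendsto (fun x => Real.log (A x)) l atTop := Real.tendsto_log_atTop.comp hA
  have h1 : Tendsto (fun x => (K * B) * |Lf x / Real.log (A x) - 1|) l (𝓝 0) := by
    have h2 := (hL.sub_const 1).abs.const_mul (K * B)
    simpa using h2
  apply squeeze_zero_norm' _ h1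
  have hπ := Real.pi_gt_three
  filter_upwards [hA.eventually_ge_atTop T2, hlog.eventually_ge_atTop (4 * π), hL.eventually (lt_mem_nhds (by norm_num : (1/2 : ℝ) < 1)),
    hL.eventually (gt_mem_nhds (by norm_num : (1 : ℝ) < 2))] with x hx1 hx2 hx3 hx4
  set T := A x with hTdef
  set L := Real.log T with hLdef
  set c := Lf x / L with hc
  have hL0 : 0 < L := by linarith
  have hLf : Lf x = c * L := by rw [hc]; field_simp
  have hcL : 2 * π ≤ c * L := by nlinarith
  have hLL : 2 * π ≤ L := by linarith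
  have hT0 : 0 < T := by linarith
  have hcont1 := I.continuous_SS hφ.test hs (L := c * L) (by linarith)
  have hcont2 := I.continuous_SS hφ.test hs (L := L) (by linarith)
  have hcont3 := I.continuous_SS testFn_Maj (by norm_num) (L := L) (by linarith)
  rw [Real.norm_eq_abs, hLf]
  unfold avg
  have i1 : IntervalIntegrable (fun t => SS γ w φ (c * L) t ^ 2) volume 0 T := (hcont1.pow 2).intervalIntegrable _ _
  have i2 : IntervalIntegrable (fun t => SS γ w φ L t ^ 2) volume 0 T := (hcont2.pow 2).intervalIntegrable _ _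
  rw [← mul_sub, ← intervalIntegral.integral_sub i1 i2, abs_mul, abs_of_pos (by positivity : 0 < 1 / T)]
  have h8 : |∫ t in (0 : ℝ)..T, (SS γ w φ (c * L) t ^ 2 - SS γ w φ L t ^ 2)|
      ≤ ∫ t in (0 : ℝ)..T, (K * |c - 1|) * SS γ w Maj L t ^ 2 := by
    refine (intervalIntegral.abs_integral_le_integral_abs hT0.le).trans ?_
    apply intervalIntegral.integral_mono_on hT0.le
    · exact (i1.sub i2).abs
    · exact ((hcont3.pow 2).const_smul (K * |c - 1|)).intervalIntegrable _ _
    · intro t _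
      exact hK c L hx3.le hx4.le hLL hcL t
  rw [intervalIntegral.integral_const_mul] at h8
  have h9 := hB L T hLL hx1 (by linarith)
  calc 1 / T * |∫ t in (0 : ℝ)..T, (SS γ w φ (c * L) t ^ 2 - SS γ w φ L t ^ 2)|
      ≤ 1 / T * ((K * |c - 1|) * (B * T)) := by
        apply mul_le_mul_of_nonneg_left _ (by positivity)
        exact h8.trans (mul_le_mul_of_nonneg_left h9 (by positivity))
    _ = _ := by field_simp

end Inputs

end

end Pool.Agent.H6
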