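import Mathlib
import Pool.Agent.H6.KKernel
import Pool.Agent.H6.Taub2

open MeasureTheory Set Filter Topology
open scoped Real Interval

namespace Pool.Agent.H6

lemma KK_eq_sin (η y : ℝ) : KK η y * (y / 2) ^ 2 = Real.sin (η * y / 2) ^ 2 := by
  unfold KK
  rcases eq_or_ne (η * y / 2) 0 with h | h
  · rw [h]
    simp
    have : η * y = 0 := by linarith
    rcases mul_eq_zero.mp this with h1 | h1
    · left; exact h1
    · right; exact h1
  · rw [Real.sinc_of_ne_zero h]
    have h3 : η ≠ 0 := by rintro rfl; simp at h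
    have h4 : y ≠ 0 := by rintro rfl; simp at h
    field_simp

/-- Product formula for the kernels. -/
lemma cos_mul_KK (s r y : ℝ) :
    Real.cos (s * y) * KK r y = -KK s y + (1 / 2) * KK (s + r) y + (1 / 2) * KK (s - r) y := by
  rcases eq_or_ne y 0 with h | h
  · rw [h]
    unfold KK
    simp
    ring
  · have h2 : (y / 2) ^ 2 ≠ 0 := by positivity
    apply mul_right_cancel₀ h2
    have e : (-KK s y + (1 / 2) * KK (s + r) y + (1 / 2) * KK (s - r) y) * (y / 2) ^ 2
        = -(KK s y * (y / 2) ^ 2) + (1 / 2) * (KK (s + r) y * (y / 2) ^ 2) + (1 / 2) * (KK (s - r) y * (y / 2) ^ 2) := by ring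
    rw [e, mul_assoc, KK_eq_sin, KK_eq_sin, KK_eq_sin, KK_eq_sin]
    have h3 : ∀ x : ℝ, Real.sin (x / 2) ^ 2 = (1 - Real.cos x) / 2 := by
      intro x
      have := Real.cos_sq (x / 2)
      rw [show 2 * (x / 2) = x by ring] at this
      have h4 := Real.sin_sq_add_cos_sq (x / 2)
      linarith
    rw [h3, h3, h3, h3, show (s + r) * y = s * y + r * y by ring, show (s - r) * y = s * y - r * y by ring,
      Real.cos_add, Real.cos_sub]
    ring

lemma KK_zero (y : ℝ) : KK 0 y = 0 := by unfold KK; simp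

lemma KK_neg (η y : ℝ) : KK (-η) y = KK η y := by
  unfold KK
  rw [show -η * y / 2 = -(η * y / 2) by ring, Real.sinc_neg]
  ring

lemma KK_bound (η : ℝ) : ∀ y, |KK η y| * y ^ 2 ≤ 4 := fun y => by
  rw [abs_of_nonneg (KK_nonneg η y)]; exact KK_mul_sq_le η y

lemma integral_Ioi_KK (η : ℝ) : ∫ y in Ioi 0, KK η y = π * |η| := by
  have h : ∀ η, 0 < η → ∫ y in Ioi 0, KK η y = π * η := by
    intro η hη
    have h1 := integral_KK hη
    have h2 : ∫ t, KK η t = ∫ t, KK η |t| := by
      congr 1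
      ext t
      rcases abs_choice t with h | h <;> rw [h]
      rw [KK_even]
    rw [h2, integral_comp_abs (f := KK η)] at h1
    linarith
  rcases lt_trichotomy η 0 with h0 | h0 | h0
  · rw [abs_of_neg h0, ← h (-η) (by linarith)]
    congr 1
    ext y
    rw [KK_neg]
  · rw [h0]; simp [KK_zero]
  · rw [abs_of_pos h0, h η h0]

section
variable {g : ℝ → ℝ → ℝ} {ℓ : ℝ}

lemma tendsto_KK_all (h : ∀ r, 0 < r → Tendsto (fun T => ∫ y in Ioi 0, KK r y * g T y) atTop (𝓝 (ℓ * (π * r)))) (s : ℝ) :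
    Tendsto (fun T => ∫ y in Ioi 0, KK s y * g T y) atTop (𝓝 (ℓ * (π * |s|))) := by
  rcases lt_trichotomy s 0 with h0 | h0 | h0
  · rw [abs_of_neg h0]
    have := h (-s) (by linarith)
    simpa only [KK_neg] using this
  · rw [h0]
    simp [KK_zero]
  · rw [abs_of_pos h0]
    exact h s h0

lemma integrable_KK_cos (s r : ℝ) : IntegrableOn (fun y => Real.cos (s * y) * KK r y) (Ioi 0) := by
  have h : Integrable (fun y => KK r y * Real.cos (s * y)) := by
    apply Integrable.mul_bdd (c := 1) (integrable_KK r)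
    · exact (by fun_prop : Continuous fun y : ℝ => Real.cos (s * y)).aestronglyMeasurable
    · exact ae_of_all _ fun y => by rw [Real.norm_eq_abs]; exact Real.abs_cos_le_one _
  have h2 := h.integrableOn (s := Ioi 0)
  apply h2.congr_fun _ measurableSet_Ioi
  intro y _
  ring

lemma integral_Ioi_cos_KK (s r : ℝ) :
    ∫ y in Ioi 0, Real.cos (s * y) * KK r y = π * (-|s| + (1 / 2) * |s + r| + (1 / 2) * |s - r|) := by
  have i := fun η => (integrable_KK η).integrableOn (s := Ioi (0 : ℝ))
  simp_rw [cos_mul_KK]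
  have i1 : IntegrableOn (fun y => -KK s y) (Ioi 0) := (i s).neg
  have i2 : IntegrableOn (fun y => (1 / 2) * KK (s + r) y) (Ioi 0) := (i _).const_mul _
  have i3 : IntegrableOn (fun y => (1 / 2) * KK (s - r) y) (Ioi 0) := (i _).const_mul _
  have i12 : IntegrableOn (fun y => -KK s y + (1 / 2) * KK (s + r) y) (Ioi 0) := i1.add i2
  rw [integral_add i12 i3, integral_add i1 i2, integral_neg, integral_const_mul, integral_const_mul,
    integral_Ioi_KK, integral_Ioi_KK, integral_Ioi_KK]
  ring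

lemma tendsto_cos_KK (hE : EquiTail atTop g)
    (h : ∀ r, 0 < r → Tendsto (fun T => ∫ y in Ioi 0, KK r y * g T y) atTop (𝓝 (ℓ * (π * r)))) (s r : ℝ) :
    Tendsto (fun T => ∫ y in Ioi 0, Real.cos (s * y) * (KK r y * g T y)) atTop
      (𝓝 (ℓ * ∫ y in Ioi 0, Real.cos (s * y) * KK r y)) := by
  rw [integral_Ioi_cos_KK]
  have hh := tendsto_KK_all h
  have h1 := ((hh s).neg.add ((hh (s + r)).const_mul (1 / 2))).add ((hh (s - r)).const_mul (1 / 2))
  have e : -(ℓ * (π * |s|)) + (1 / 2) * (ℓ * (π * |s + r|)) + (1 / 2) * (ℓ * (π * |s - r|))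
      = ℓ * (π * (-|s| + (1 / 2) * |s + r| + (1 / 2) * |s - r|)) := by ring
  rw [e] at h1
  apply h1.congr'
  filter_upwards [hE.integrable (continuous_KK s) (KK_bound s), hE.integrable (continuous_KK (s + r)) (KK_bound _),
    hE.integrable (continuous_KK (s - r)) (KK_bound _)] with T i1 i2 i3
  have e2 : ∀ y, Real.cos (s * y) * (KK r y * g T y)
      = (-(KK s y * g T y) + (1 / 2) * (KK (s + r) y * g T y)) + (1 / 2) * (KK (s - r) y * g T y) := by
    intro y
    rw [← mul_assoc, cos_mul_KK]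
    ring
  simp_rw [e2]
  have j1 : IntegrableOn (fun y => -(KK s y * g T y)) (Ioi 0) := i1.neg
  have j2 : IntegrableOn (fun y => (1 / 2) * (KK (s + r) y * g T y)) (Ioi 0) := i2.const_mul _
  have j3 : IntegrableOn (fun y => (1 / 2) * (KK (s - r) y * g T y)) (Ioi 0) := i3.const_mul _
  have j12 : IntegrableOn (fun y => -(KK s y * g T y) + (1 / 2) * (KK (s + r) y * g T y)) (Ioi 0) := j1.add j2
  rw [integral_add j12 j3, integral_add j1 j2, integral_neg, integral_const_mul, integral_const_mul]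

end

end Pool.Agent.H6
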