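import Mathlib
import Pool.Agent.H6.Q
import Pool.Agent.H6.Taub3

open MeasureTheory Set Filter Topology ProbabilityTheory
open scoped Real Interval BoundedContinuousFunction

namespace Pool.Agent.H6

/-- measure with density -/
noncomputable def densM (ρ : ℝ → ℝ) : Measure ℝ := volume.withDensity fun y => ENNReal.ofReal (ρ y)

lemma integral_densM {ρ : ℝ → ℝ} (hm : Measurable ρ) (h0 : ∀ y, 0 ≤ ρ y) {E : Type*} [NormedAddCommGroup E]
    [NormedSpace ℝ E] (f : ℝ → E) : ∫ y, f y ∂(densM ρ) = ∫ y, ρ y • f y := by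
  unfold densM
  rw [integral_withDensity_eq_integral_toReal_smul (by fun_prop) (ae_of_all _ fun y => ENNReal.ofReal_lt_top)]
  congr 1
  ext y
  rw [ENNReal.toReal_ofReal (h0 y)]

lemma prob_densM {ρ : ℝ → ℝ} (h0 : ∀ y, 0 ≤ ρ y) (hi : Integrable ρ) (h1 : ∫ y, ρ y = 1) :
    IsProbabilityMeasure (densM ρ) := by
  constructor
  unfold densM
  rw [withDensity_apply _ MeasurableSet.univ, setLIntegral_univ,
    ← ofReal_integral_eq_lintegral_ofReal hi (ae_of_all _ h0), h1, ENNReal.ofReal_one]

lemma integrable_even {f : ℝ → ℝ} (heven : ∀ y, f (-y) = f y) (hi : IntegrableOn f (Ioi 0)) : Integrable f := by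
  have h1 : IntegrableOn f (Iio 0) := by
    have h2 := ((Measure.measurePreserving_neg (volume : Measure ℝ)).integrableOn_comp_preimage
      (MeasurableEquiv.neg ℝ).measurableEmbedding (f := f) (s := Ioi 0)).mpr hi
    have e1 : f ∘ Neg.neg = f := by ext y; exact heven y
    have e2 : (Neg.neg ⁻¹' (Ioi (0 : ℝ))) = Iio 0 := by ext y; simp
    rw [e1, e2] at h2
    exact h2
  rw [← integrableOn_univ, ← Iic_union_Ioi (a := (0 : ℝ))]
  exact ((integrableOn_Iic_iff_integrableOn_Iio (μ := volume) (f := f) (b := (0:ℝ))).mpr h1).union hi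

lemma integral_even_eq {f : ℝ → ℝ} (heven : ∀ y, f (-y) = f y) : ∫ y, f y = 2 * ∫ y in Ioi 0, f y := by
  rw [← integral_comp_abs (f := f)]
  congr 1
  ext t
  rcases abs_choice t with h | h <;> rw [h]
  rw [heven]

lemma charFun_densM {ρ : ℝ → ℝ} (hm : Measurable ρ) (h0 : ∀ y, 0 ≤ ρ y) (hi : Integrable ρ)
    (heven : ∀ y, ρ (-y) = ρ y) (t : ℝ) :
    charFun (densM ρ) t = ((2 * ∫ y in Ioi 0, Real.cos (t * y) * ρ y : ℝ) : ℂ) := by
  rw [charFun_apply_real, integral_densM hm h0]
  have ic : Integrable (fun y => ρ y * Real.cos (t * y)) := by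
    apply Integrable.mul_bdd (c := 1) hi
    · exact (by fun_prop : Continuous fun y : ℝ => Real.cos (t * y)).aestronglyMeasurable
    · exact ae_of_all _ fun y => by rw [Real.norm_eq_abs]; exact Real.abs_cos_le_one _
  have is : Integrable (fun y => ρ y * Real.sin (t * y)) := by
    apply Integrable.mul_bdd (c := 1) hi
    · exact (by fun_prop : Continuous fun y : ℝ => Real.sin (t * y)).aestronglyMeasurable
    · exact ae_of_all _ fun y => by rw [Real.norm_eq_abs]; exact Real.abs_sin_le_one _
  have e : ∀ y : ℝ, ρ y • Complex.exp (t * y * Complex.I)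
      = ((ρ y * Real.cos (t * y) : ℝ) : ℂ) + ((ρ y * Real.sin (t * y) : ℝ) : ℂ) * Complex.I := by
    intro y
    rw [Complex.real_smul, show (t * y * Complex.I : ℂ) = ((t * y : ℝ) : ℂ) * Complex.I by push_cast; ring,
      Complex.exp_mul_I, ← Complex.ofReal_cos, ← Complex.ofReal_sin]
    push_cast
    ring
  simp_rw [e]
  rw [integral_add ic.ofReal (is.ofReal.mul_const _), integral_mul_const, integral_complex_ofReal,
    integral_complex_ofReal]
  have hs : ∫ y, ρ y * Real.sin (t * y) = 0 := integral_mul_sin_eq_zero heven t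
  rw [hs]
  simp only [Complex.ofReal_zero, zero_mul, add_zero]
  congr 1
  rw [integral_even_eq (f := fun y => ρ y * Real.cos (t * y))]
  · congr 1
    congr 1
    ext y
    ring
  · intro y
    rw [heven, show t * -y = -(t * y) by ring, Real.cos_neg]

section
variable {g : ℝ → ℝ → ℝ} {ℓ : ℝ}

/-- Weak convergence from convergence of characteristic functions. -/
lemma weak_even {G : ℕ → ℝ → ℝ} (hGc : ∀ n, Continuous (G n)) (hG0 : ∀ n y, 0 ≤ G n y) {r : ℝ} (hr : 0 < r)
    (hℓ : 0 < ℓ) (hi : ∀ n, IntegrableOn (fun y => KK r y * G n y) (Ioi 0))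
    (hm : ∀ n, 0 < ∫ y in Ioi 0, KK r y * G n y)
    (hcos : ∀ s, Tendsto (fun n => ∫ y in Ioi 0, Real.cos (s * y) * (KK r y * G n y)) atTop
      (𝓝 (ℓ * ∫ y in Ioi 0, Real.cos (s * y) * KK r y)))
    (H : ℝ →ᵇ ℝ) (hH : ∀ y, H (-y) = H y) :
    Tendsto (fun n => ∫ y in Ioi 0, H y * (KK r y * G n y)) atTop (𝓝 (ℓ * ∫ y in Ioi 0, H y * KK r y)) := by
  set m : ℕ → ℝ := fun n => ∫ y in Ioi 0, KK r y * G n y with hmdef
  set ρ : ℕ → ℝ → ℝ := fun n y => KK r y * G n |y| / (2 * m n) with hρ
  set ρ0 : ℝ → ℝ := fun y => KK r y / (2 * (π * r)) with hρ0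
  have hKc := continuous_KK r
  have hπr : 0 < π * r := by positivity
  have hρc : ∀ n, Continuous (ρ n) := by
    intro n
    have := hGc n
    simp only [hρ]
    fun_prop
  have hρ0c : Continuous ρ0 := by simp only [hρ0]; fun_prop
  have hρnn : ∀ n y, 0 ≤ ρ n y := fun n y => by
    have := hm n
    exact div_nonneg (mul_nonneg (KK_nonneg _ _) (hG0 _ _)) (by positivity)
  have hρ0nn : ∀ y, 0 ≤ ρ0 y := fun y => div_nonneg (KK_nonneg _ _) (by positivity)
  have hρe : ∀ n y, ρ n (-y) = ρ n y := fun n y => by simp only [hρ, KK_even, abs_neg]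
  have hρ0e : ∀ y, ρ0 (-y) = ρ0 y := fun y => by simp only [hρ0, KK_even]
  have hρi : ∀ n, Integrable (ρ n) := by
    intro n
    have h1 : Integrable (fun y => KK r |y| * G n |y|) := by
      apply integrable_even (fun y => by simp only [abs_neg])
      apply (hi n).congr_fun _ measurableSet_Ioi
      intro y hy
      have hy' : 0 < y := hy
      simp only [abs_of_pos hy']
    have h2 := h1.div_const (2 * m n)
    apply h2.congr
    apply ae_of_all
    intro y
    simp only [hρ]
    congr 2
    rcases abs_choice y with h | h <;> rw [h]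
    rw [KK_even]
  have hρ0i : Integrable ρ0 := (integrable_KK r).div_const _
  have hρ1 : ∀ n, ∫ y, ρ n y = 1 := by
    intro n
    rw [integral_even_eq (hρe n)]
    have e : ∫ y in Ioi 0, ρ n y = (∫ y in Ioi 0, KK r y * G n y) / (2 * m n) := by
      rw [← integral_div]
      apply setIntegral_congr_fun measurableSet_Ioi
      intro y hy
      have hy' : 0 < y := hy
      simp only [hρ, abs_of_pos hy']
    rw [e]
    have hmn : m n ≠ 0 := (hm n).ne'
    change 2 * (m n / (2 * m n)) = 1
    field_simp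
  have hρ01 : ∫ y, ρ0 y = 1 := by
    simp only [hρ0]
    rw [integral_div, integral_KK hr]
    field_simp
  have P : ∀ n, IsProbabilityMeasure (densM (ρ n)) := fun n => prob_densM (hρnn n) (hρi n) (hρ1 n)
  have P0 : IsProbabilityMeasure (densM ρ0) := prob_densM hρ0nn hρ0i hρ01
  set μ : ℕ → ProbabilityMeasure ℝ := fun n => ⟨densM (ρ n), P n⟩ with hμ
  set μ0 : ProbabilityMeasure ℝ := ⟨densM ρ0, P0⟩ with hμ0
  have hmt : Tendsto m atTop (𝓝 (ℓ * (π * r))) := by
    have h := hcos 0
    simp only [zero_mul, Real.cos_zero, one_mul] at h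
    rw [integral_Ioi_KK, abs_of_pos hr] at h
    exact h
  have hne : ℓ * (π * r) ≠ 0 := by positivity
  have hconv : Tendsto μ atTop (𝓝 μ0) := by
    apply ProbabilityMeasure.tendsto_of_tendsto_charFun
    intro t
    have e1 : ∀ n, charFun (densM (ρ n)) t = (((∫ y in Ioi 0, Real.cos (t * y) * (KK r y * G n y)) / m n : ℝ) : ℂ) := by
      intro n
      rw [charFun_densM (hρc n).measurable (hρnn n) (hρi n) (hρe n)]
      congr 1
      have e : ∫ y in Ioi 0, Real.cos (t * y) * ρ n y = (∫ y in Ioi 0, Real.cos (t * y) * (KK r y * G n y)) / (2 * m n) := by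
        rw [← integral_div]
        apply setIntegral_congr_fun measurableSet_Ioi
        intro y hy
        have hy' : 0 < y := hy
        simp only [hρ, abs_of_pos hy']
        ring
      rw [e]
      have := (hm n).ne'
      field_simp
    have e2 : charFun (densM ρ0) t = (((∫ y in Ioi 0, Real.cos (t * y) * KK r y) / (π * r) : ℝ) : ℂ) := by
      rw [charFun_densM hρ0c.measurable hρ0nn hρ0i hρ0e]
      congr 1
      have e : ∫ y in Ioi 0, Real.cos (t * y) * ρ0 y = (∫ y in Ioi 0, Real.cos (t * y) * KK r y) / (2 * (π * r)) := by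
        rw [← integral_div]
        congr 1
        ext y
        simp only [hρ0]
        ring
      rw [e]
      field_simp
    simp only [hμ, hμ0, ProbabilityMeasure.coe_mk]
    simp_rw [e1]
    rw [e2]
    apply (Complex.continuous_ofReal.tendsto _).comp
    have h3 := (hcos t).div hmt hne
    have e3 : ℓ * (∫ y in Ioi 0, Real.cos (t * y) * KK r y) / (ℓ * (π * r))
        = (∫ y in Ioi 0, Real.cos (t * y) * KK r y) / (π * r) := by
      field_simp
    rw [e3] at h3
    exact h3
  have h4 := (ProbabilityMeasure.tendsto_iff_forall_integral_tendsto.mp hconv) H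
  simp only [hμ, hμ0, ProbabilityMeasure.coe_mk] at h4
  have e5 : ∀ n, ∫ y, H y ∂(densM (ρ n)) = (∫ y in Ioi 0, H y * (KK r y * G n y)) / m n := by
    intro n
    rw [integral_densM (hρc n).measurable (hρnn n)]
    simp only [smul_eq_mul]
    rw [integral_even_eq (f := fun y => ρ n y * H y) (fun y => by rw [hρe, hH])]
    have e : ∫ y in Ioi 0, ρ n y * H y = (∫ y in Ioi 0, H y * (KK r y * G n y)) / (2 * m n) := by
      rw [← integral_div]
      apply setIntegral_congr_fun measurableSet_Ioi
      intro y hy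
      have hy' : 0 < y := hy
      simp only [hρ, abs_of_pos hy']
      ring
    rw [e]
    have := (hm n).ne'
    field_simp
  have e6 : ∫ y, H y ∂(densM ρ0) = (∫ y in Ioi 0, H y * KK r y) / (π * r) := by
    rw [integral_densM hρ0c.measurable hρ0nn]
    simp only [smul_eq_mul]
    rw [integral_even_eq (f := fun y => ρ0 y * H y) (fun y => by rw [hρ0e, hH])]
    have e : ∫ y in Ioi 0, ρ0 y * H y = (∫ y in Ioi 0, H y * KK r y) / (2 * (π * r)) := by
      rw [← integral_div]
      congr 1
      ext y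
      simp only [hρ0]
      ring
    rw [e]
    field_simp
  simp_rw [e5] at h4
  rw [e6] at h4
  have h7 := h4.mul hmt
  have e8 : (∫ y in Ioi 0, H y * KK r y) / (π * r) * (ℓ * (π * r)) = ℓ * ∫ y in Ioi 0, H y * KK r y := by
    field_simp
  rw [e8] at h7
  apply h7.congr
  intro n
  have hmn : m n ≠ 0 := (hm n).ne'
  exact div_mul_cancel₀ _ hmn

end

end Pool.Agent.H6
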