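import Mathlib
import Pool.Agent.H6.Taub4

open MeasureTheory Set Filter Topology
open scoped Real Interval BoundedContinuousFunction

namespace Pool.Agent.H6

/-- trapezoid -/
noncomputable def trap (a b y : ℝ) : ℝ := max 0 (min 1 ((b - |y|) / (b - a)))

lemma continuous_trap (a b : ℝ) : Continuous (trap a b) := by unfold trap; fun_prop

lemma trap_nonneg (a b y : ℝ) : 0 ≤ trap a b y := le_max_left _ _

lemma trap_le_one (a b y : ℝ) : trap a b y ≤ 1 := max_le zero_le_one (min_le_left _ _)

lemma trap_even (a b y : ℝ) : trap a b (-y) = trap a b y := by unfold trap; rw [abs_neg]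

lemma trap_eq_one {a b y : ℝ} (hab : a < b) (hy : |y| ≤ a) : trap a b y = 1 := by
  unfold trap
  have h : 1 ≤ (b - |y|) / (b - a) := by rw [le_div_iff₀ (by linarith)]; linarith
  rw [min_eq_left h, max_eq_right zero_le_one]

lemma trap_eq_zero {a b y : ℝ} (hab : a < b) (hy : b ≤ |y|) : trap a b y = 0 := by
  unfold trap
  have h : (b - |y|) / (b - a) ≤ 0 := div_nonpos_of_nonpos_of_nonneg (by linarith) (by linarith)
  rw [max_eq_left]
  exact (min_le_right _ _).trans h

lemma KK_ge {r y : ℝ} (hr : 0 < r) (hy : r * |y| ≤ π) : 4 * r ^ 2 / π ^ 2 ≤ KK r y := by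
  have hπ := Real.pi_pos
  have hπ3 := Real.pi_gt_three
  rcases eq_or_ne y 0 with h | h
  · rw [h]
    unfold KK
    simp
    rw [div_le_iff₀ (by positivity)]
    have h9 : 4 ≤ π ^ 2 := by nlinarith
    nlinarith [mul_le_mul_of_nonneg_left h9 (sq_nonneg r)]
  · have hy0 : 0 < |y| := abs_pos.mpr h
    have h1 : KK r y = KK r |y| := by
      rcases abs_choice y with h | h <;> rw [h]
      rw [KK_even]
    rw [h1]
    have h2 := KK_eq_sin r |y|
    have h3 : 2 / π * (r * |y| / 2) ≤ Real.sin (r * |y| / 2) :=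
      Real.mul_le_sin (by positivity) (by linarith)
    have h4 : (2 / π * (r * |y| / 2)) ^ 2 ≤ Real.sin (r * |y| / 2) ^ 2 :=
      pow_le_pow_left₀ (by positivity) h3 2
    rw [← h2] at h4
    have h5 : 4 * r ^ 2 / π ^ 2 * (|y| / 2) ^ 2 = (2 / π * (r * |y| / 2)) ^ 2 := by
      field_simp
      ring
    rw [← h5] at h4
    exact le_of_mul_le_mul_right h4 (by positivity)

section
variable {g : ℝ → ℝ → ℝ} {ℓ : ℝ}

lemma tendsto_trap {G : ℕ → ℝ → ℝ} (hGc : ∀ n, Continuous (G n)) (hG0 : ∀ n y, 0 ≤ G n y) {r : ℝ} (hr : 0 < r)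
    (hℓ : 0 < ℓ) (hi : ∀ n, IntegrableOn (fun y => KK r y * G n y) (Ioi 0))
    (hm : ∀ n, 0 < ∫ y in Ioi 0, KK r y * G n y)
    (hcos : ∀ s, Tendsto (fun n => ∫ y in Ioi 0, Real.cos (s * y) * (KK r y * G n y)) atTop
      (𝓝 (ℓ * ∫ y in Ioi 0, Real.cos (s * y) * KK r y))) {a b : ℝ} (hab : a < b) (hb : r * b ≤ π) :
    Tendsto (fun n => ∫ y in Ioi 0, trap a b y * G n y) atTop (𝓝 (ℓ * ∫ y in Ioi 0, trap a b y)) := by
  have hπ := Real.pi_pos
  set c : ℝ := 4 * r ^ 2 / π ^ 2 with hc
  have hc0 : 0 < c := by positivity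
  have hcont : Continuous (fun y => trap a b y / max (KK r y) c) := by
    apply (continuous_trap a b).div
    · exact (continuous_KK r).max continuous_const
    · intro y
      exact (lt_max_of_lt_right hc0).ne'
  have hbd : ∀ y, ‖trap a b y / max (KK r y) c‖ ≤ 1 / c := by
    intro y
    rw [Real.norm_eq_abs, abs_of_nonneg (div_nonneg (trap_nonneg _ _ _) (le_max_of_le_right hc0.le))]
    exact div_le_div₀ zero_le_one (trap_le_one _ _ _) hc0 (le_max_right _ _)
  set H : ℝ →ᵇ ℝ := BoundedContinuousFunction.ofNormedAddCommGroup _ hcont (1 / c) hbd with hH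
  have hHe : ∀ y, H (-y) = H y := by
    intro y
    change trap a b (-y) / max (KK r (-y)) c = trap a b y / max (KK r y) c
    rw [trap_even, KK_even]
  have h1 := weak_even hGc hG0 hr hℓ hi hm hcos H hHe
  have key : ∀ y, H y * KK r y = trap a b y := by
    intro y
    change trap a b y / max (KK r y) c * KK r y = trap a b y
    rcases le_or_gt b |y| with h | h
    · rw [trap_eq_zero hab h]; simp
    · have h2 : c ≤ KK r y := KK_ge hr (by nlinarith)
      rw [max_eq_left h2]
      have : KK r y ≠ 0 := by linarith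
      field_simp
  have e1 : ∀ n, ∫ y in Ioi 0, H y * (KK r y * G n y) = ∫ y in Ioi 0, trap a b y * G n y := by
    intro n
    congr 1
    ext y
    rw [← mul_assoc, key]
  simp_rw [e1] at h1
  simp_rw [key] at h1
  exact h1

lemma trap_sandwich {a b : ℝ} (ha : 0 ≤ a) (hab : a < b) {f : ℝ → ℝ} (hf : Continuous f) (hf0 : ∀ y, 0 ≤ f y) :
    (∫ y in (0 : ℝ)..a, f y ≤ ∫ y in Ioi 0, trap a b y * f y) ∧
      ∫ y in Ioi 0, trap a b y * f y ≤ ∫ y in (0 : ℝ)..b, f y := by
  have hb : 0 < b := by linarith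
  have e : ∫ y in Ioi 0, trap a b y * f y = ∫ y in Ioc 0 b, trap a b y * f y := by
    rw [← Ioc_union_Ioi_eq_Ioi hb.le, setIntegral_union (Ioc_disjoint_Ioi le_rfl) measurableSet_Ioi]
    · have : ∫ y in Ioi b, trap a b y * f y = 0 := by
        rw [setIntegral_congr_fun (g := fun _ => (0 : ℝ)) measurableSet_Ioi]
        · simp
        · intro y hy
          have hy' : b < y := hy
          simp only
          rw [trap_eq_zero hab (by rw [abs_of_pos (by linarith)]; linarith), zero_mul]
      rw [this, add_zero]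
    · exact ((continuous_trap a b).mul hf).integrableOn_Icc.mono_set Ioc_subset_Icc_self
    · apply (integrableOn_zero (s := Ioi b) (μ := volume) (ε' := ℝ)).congr_fun _ measurableSet_Ioi
      intro y hy
      have hy' : b < y := hy
      simp only
      rw [trap_eq_zero hab (by rw [abs_of_pos (by linarith)]; linarith), zero_mul]
  rw [e]
  have hi : IntegrableOn (fun y => trap a b y * f y) (Ioc 0 b) :=
    ((continuous_trap a b).mul hf).integrableOn_Icc.mono_set Ioc_subset_Icc_self
  have hf' : IntegrableOn f (Ioc 0 b) := hf.integrableOn_Icc.mono_set Ioc_subset_Icc_self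
  constructor
  · rw [intervalIntegral.integral_of_le ha]
    calc ∫ y in Ioc 0 a, f y = ∫ y in Ioc 0 a, trap a b y * f y := by
          apply setIntegral_congr_fun measurableSet_Ioc
          intro y hy
          simp only
          rw [trap_eq_one hab (by rw [abs_of_pos hy.1]; exact hy.2), one_mul]
      _ ≤ ∫ y in Ioc 0 b, trap a b y * f y := by
          apply setIntegral_mono_set hi
          · exact ae_of_all _ fun y => mul_nonneg (trap_nonneg _ _ _) (hf0 y)
          · exact (Ioc_subset_Ioc_right hab.le).eventuallyLE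
  · rw [intervalIntegral.integral_of_le hb.le]
    apply setIntegral_mono_on hi hf' measurableSet_Ioc
    intro y _
    exact mul_le_of_le_one_left (hf0 y) (trap_le_one _ _ _)

lemma integral_trap_bounds {a b : ℝ} (ha : 0 ≤ a) (hab : a < b) :
    a ≤ ∫ y in Ioi 0, trap a b y ∧ ∫ y in Ioi 0, trap a b y ≤ b := by
  have h1 := trap_sandwich ha hab (continuous_const (y := (1 : ℝ))) (fun _ => zero_le_one)
  simp only [mul_one, intervalIntegral.integral_const, smul_eq_mul, sub_zero] at h1
  exact h1

/-- **Tauberian theorem** for the kernels `(sin (ry/2) / (y/2))²`. -/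
theorem EquiTail.equi_of_kernels (hE : EquiTail atTop g) (hℓ : 0 ≤ ℓ)
    (h : ∀ r, 0 < r → Tendsto (fun T => ∫ y in Ioi 0, KK r y * g T y) atTop (𝓝 (ℓ * (π * r)))) {y0 : ℝ} (hy0 : 0 < y0) :
    Tendsto (fun T => ∫ y in (0 : ℝ)..y0, g T y) atTop (𝓝 (ℓ * y0)) := by
  have hπ := Real.pi_pos
  set r : ℝ := π / (2 * y0) with hr
  have hr0 : 0 < r := by positivity
  have hr2 : r * (2 * y0) = π := by rw [hr]; field_simp
  rcases hℓ.eq_or_lt with hℓ0 | hℓ0
  · -- case `ℓ = 0`
    rw [← hℓ0, zero_mul]
    have h1 := (h r hr0).const_mul (π ^ 2 / (4 * r ^ 2))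
    rw [← hℓ0] at h1
    simp only [zero_mul, mul_zero] at h1
    apply squeeze_zero' _ _ h1
    · exact Eventually.of_forall fun T => intervalIntegral.integral_nonneg hy0.le fun y _ => hE.nonneg T y
    · filter_upwards [hE.cont, hE.integrable (continuous_KK r) (KK_bound r)] with T hT hi
      rw [intervalIntegral.integral_of_le hy0.le, ← integral_const_mul]
      calc ∫ y in Ioc 0 y0, g T y ≤ ∫ y in Ioc 0 y0, π ^ 2 / (4 * r ^ 2) * (KK r y * g T y) := by
            apply setIntegral_mono_on (hT.integrableOn_Icc.mono_set Ioc_subset_Icc_self)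
              ((hi.mono_set Ioc_subset_Ioi_self).const_mul _) measurableSet_Ioc
            intro y hy
            have h2 : 4 * r ^ 2 / π ^ 2 ≤ KK r y := KK_ge hr0 (by rw [abs_of_pos hy.1]; nlinarith [hy.2])
            rw [← mul_assoc]
            have h3 : 1 ≤ π ^ 2 / (4 * r ^ 2) * KK r y := by
              calc (1 : ℝ) = π ^ 2 / (4 * r ^ 2) * (4 * r ^ 2 / π ^ 2) := by field_simp
                _ ≤ _ := mul_le_mul_of_nonneg_left h2 (by positivity)
            exact le_mul_of_one_le_left (hE.nonneg T y) h3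
        _ ≤ ∫ y in Ioi 0, π ^ 2 / (4 * r ^ 2) * (KK r y * g T y) := by
            apply setIntegral_mono_set (hi.const_mul _)
            · exact ae_of_all _ fun y => by
                have := KK_nonneg r y
                have := hE.nonneg T y
                simp only [Pi.zero_apply]
                positivity
            · exact Ioc_subset_Ioi_self.eventuallyLE
  · -- case `0 < ℓ`
    apply tendsto_of_seq_tendsto
    intro x hx
    have hmt : Tendsto (fun T => ∫ y in Ioi 0, KK r y * g T y) atTop (𝓝 (ℓ * (π * r))) := h r hr0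
    have hev : ∀ᶠ T in atTop, Continuous (g T) ∧ IntegrableOn (fun y => KK r y * g T y) (Ioi 0) ∧
        0 < ∫ y in Ioi 0, KK r y * g T y := by
      filter_upwards [hE.cont, hE.integrable (continuous_KK r) (KK_bound r),
        hmt.eventually (lt_mem_nhds (by positivity))] with T h1 h2 h3
      exact ⟨h1, h2, h3⟩
    obtain ⟨N, hN⟩ := eventually_atTop.mp (hx.eventually hev)
    rw [← tendsto_add_atTop_iff_nat N]
    set G : ℕ → ℝ → ℝ := fun n => g (x (n + N)) with hG
    have hx' : Tendsto (fun n => x (n + N)) atTop atTop := hx.comp (tendsto_add_atTop_nat N)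
    have hGc : ∀ n, Continuous (G n) := fun n => (hN (n + N) (by omega)).1
    have hG0 : ∀ n y, 0 ≤ G n y := fun n y => hE.nonneg _ _
    have hGi : ∀ n, IntegrableOn (fun y => KK r y * G n y) (Ioi 0) := fun n => (hN (n + N) (by omega)).2.1
    have hGm : ∀ n, 0 < ∫ y in Ioi 0, KK r y * G n y := fun n => (hN (n + N) (by omega)).2.2
    have hcos : ∀ s, Tendsto (fun n => ∫ y in Ioi 0, Real.cos (s * y) * (KK r y * G n y)) atTop
        (𝓝 (ℓ * ∫ y in Ioi 0, Real.cos (s * y) * KK r y)) := fun s => (tendsto_cos_KK hE h s r).comp hx'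
    change Tendsto (fun n => ∫ y in (0 : ℝ)..y0, G n y) atTop (𝓝 (ℓ * y0))
    rw [tendsto_order]
    constructor
    · intro c hc
      -- lower bound: use trap (y0 - ε) y0
      obtain ⟨a, ha0, hay, hac⟩ : ∃ a, 0 ≤ a ∧ a < y0 ∧ c < ℓ * a := by
        have h1 : c / ℓ < y0 := by rw [div_lt_iff₀ hℓ0]; linarith
        obtain ⟨a, ha1, ha2⟩ := exists_between (max_lt h1 hy0)
        refine ⟨a, ((le_max_right _ _).trans_lt ha1).le, ha2, ?_⟩
        have := (le_max_left _ _).trans_lt ha1
        rw [div_lt_iff₀ hℓ0] at this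
        linarith
      have h1 := tendsto_trap hGc hG0 hr0 hℓ0 hGi hGm hcos hay (by nlinarith)
      have h2 := integral_trap_bounds ha0 hay
      have h3 : c < ℓ * ∫ y in Ioi 0, trap a y0 y := lt_of_lt_of_le hac (mul_le_mul_of_nonneg_left h2.1 hℓ0.le)
      filter_upwards [h1.eventually (lt_mem_nhds h3)] with n hn
      exact hn.trans_le (trap_sandwich ha0 hay (hGc n) (hG0 n)).2
    · intro c hc
      obtain ⟨b, hby, hb2, hbc⟩ : ∃ b, y0 < b ∧ b < 2 * y0 ∧ ℓ * b < c := by
        have h1 : y0 < c / ℓ := by rw [lt_div_iff₀ hℓ0]; linarith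
        obtain ⟨b, hb1, hb2⟩ := exists_between (lt_min h1 (by linarith : y0 < 2 * y0))
        refine ⟨b, hb1, hb2.trans_le (min_le_right _ _), ?_⟩
        have := hb2.trans_le (min_le_left _ _)
        rw [lt_div_iff₀ hℓ0] at this
        linarith
      have h1 := tendsto_trap hGc hG0 hr0 hℓ0 hGi hGm hcos hby (by nlinarith)
      have h2 := integral_trap_bounds hy0.le hby
      have h3 : ℓ * ∫ y in Ioi 0, trap y0 b y < c := lt_of_le_of_lt (mul_le_mul_of_nonneg_left h2.2 hℓ0.le) hbc
      filter_upwards [h1.eventually (gt_mem_nhds h3)] with n hn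
      exact lt_of_le_of_lt (trap_sandwich hy0.le hby (hGc n) (hG0 n)).1 hn

end

end Pool.Agent.H6
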