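import Mathlib
import Pool.Agent.H6.Mix
import Pool.Agent.H6.Taub5

open MeasureTheory Set Filter Topology
open scoped Real Interval

namespace Pool.Agent.H6

lemma tendsto_log_ratio {c : ℝ} (hc : 0 < c) : Tendsto (fun T : ℝ => Real.log T / Real.log (c * T)) atTop (𝓝 1) := by
  have hlog := Real.tendsto_log_atTop
  have h1 : Tendsto (fun T : ℝ => Real.log c / Real.log T) atTop (𝓝 0) := hlog.const_div_atTop _
  have h2 : Tendsto (fun T : ℝ => (1 + Real.log c / Real.log T)⁻¹) atTop (𝓝 1) := by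
    have h3 := (h1.const_add 1)
    rw [add_zero] at h3
    have h4 := h3.inv₀ one_ne_zero
    rwa [inv_one] at h4
  apply h2.congr'
  filter_upwards [eventually_gt_atTop 1] with T hT
  have hT0 : 0 < T := by linarith
  have hl : 0 < Real.log T := Real.log_pos hT
  rw [Real.log_mul hc.ne' hT0.ne']
  rw [inv_eq_iff_eq_inv, inv_div]
  field_simp
  ring

section
variable {ι : Type*} [Countable ι] {γ w : ι → ℝ} {F : ℝ → Finset ι} {CR : ℝ}

/-- Sharp mean square asymptotics. -/
def Sharp (γ w : ι → ℝ) (φ : ℝ → ℝ) (ℓ : ℝ) : Prop :=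
  Tendsto (fun T => avg T (fun t => SS γ w φ (Real.log T) t ^ 2)) atTop (𝓝 ℓ)

/-- Smoothed mean square asymptotics. -/
def MixK (γ w : ι → ℝ) (φ : ℝ → ℝ) (ℓ : ℝ) : Prop :=
  Tendsto (fun T => ∫ y in Ioi 0, KK 1 y * SS γ w φ (Real.log T) (T * y) ^ 2) atTop (𝓝 (ℓ * π))

namespace Inputs

theorem equiTail (I : Inputs γ w F CR) {s : ℝ} {φ : ℝ → ℝ} (hφ : TestFn s φ) (hs : 0 < s) :
    EquiTail atTop (fun T y => SS γ w φ (Real.log T) (T * y) ^ 2) := by
  obtain ⟨D, hD0, hD⟩ := hφ.decay
  obtain ⟨C, T1, hC0, hT1, hC⟩ := I.maj_tail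
  have hlog := Real.tendsto_log_atTop
  have hπ := Real.pi_gt_three
  refine ⟨?_, fun T y => sq_nonneg _, (524288 * D) ^ 2 * (2 * C), by positivity, fun R hR => ?_⟩
  · filter_upwards [hlog.eventually_ge_atTop 1] with T hT
    exact ((I.continuous_SS hφ hs hT).comp (continuous_const.mul continuous_id)).pow 2
  · have hR0 : 0 < R := by linarith
    have hsmall : ∀ᶠ T : ℝ in atTop, T ^ (-(1 / 2) : ℝ) ≤ 1 / R :=
      (tendsto_rpow_neg_atTop (by norm_num : (0 : ℝ) < 1 / 2)).eventually_le_const (by positivity)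
    filter_upwards [eventually_ge_atTop T1, hlog.eventually_ge_atTop (2 * π), hsmall] with T hT hL hsm
    have hT0 : 0 < T := by linarith
    have hL1 : 1 ≤ Real.log T := by linarith
    obtain ⟨hi, hb⟩ := hC (Real.log T) T R hL hT (by linarith) hR
    have hcφ := I.continuous_SS hφ hs hL1
    have hle : ∀ t, SS γ w φ (Real.log T) t ^ 2 / t ^ 2 ≤ (524288 * D) ^ 2 * (SS γ w Maj (Real.log T) t ^ 2 / t ^ 2) := by
      intro t
      rw [← mul_div_assoc]
      apply div_le_div_of_nonneg_right _ (sq_nonneg t)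
      rw [← mul_pow, ← sq_abs (SS γ w φ (Real.log T) t)]
      exact pow_le_pow_left₀ (abs_nonneg _) (I.ord.abs_SS_le_Maj hD0 hD hL hL (by linarith) t) 2
    have hi1 : IntegrableOn (fun t => SS γ w φ (Real.log T) t ^ 2 / t ^ 2) (Ioi (T * R)) := by
      rw [mul_comm T R]
      apply Integrable.mono' (hi.const_mul ((524288 * D) ^ 2))
      · apply ContinuousOn.aestronglyMeasurable _ measurableSet_Ioi
        apply ContinuousOn.div (hcφ.pow 2).continuousOn (by fun_prop)
        intro t ht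
        have ht' : R * T < t := ht
        have : 0 < t := lt_trans (by positivity) ht'
        positivity
      · apply ae_of_all
        intro t
        rw [Real.norm_eq_abs, abs_of_nonneg (by positivity)]
        exact hle t
    have e1 : ∀ y ∈ Ioi R, SS γ w φ (Real.log T) (T * y) ^ 2 / y ^ 2
        = T ^ 2 * (fun t => SS γ w φ (Real.log T) t ^ 2 / t ^ 2) (T * y) := by
      intro y hy
      have hy' : R < y := hy
      have hy0 : 0 < y := by linarith
      simp only
      field_simp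
    constructor
    · have h3 := (integrableOn_Ioi_comp_mul (f := fun t => SS γ w φ (Real.log T) t ^ 2 / t ^ 2) (T := T) (a := R) hT0).mpr hi1
      have h4 : IntegrableOn (fun y => T ^ 2 * (fun t => SS γ w φ (Real.log T) t ^ 2 / t ^ 2) (T * y)) (Ioi R) :=
        h3.const_mul (T ^ 2)
      exact h4.congr_fun (fun y hy => (e1 y hy).symm) measurableSet_Ioi
    · rw [setIntegral_congr_fun measurableSet_Ioi e1, integral_const_mul,
        integral_Ioi_comp_mul (f := fun t => SS γ w φ (Real.log T) t ^ 2 / t ^ 2) hT0]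
      have h6 : T ^ 2 * (1 / T * ∫ t in Ioi (T * R), SS γ w φ (Real.log T) t ^ 2 / t ^ 2)
          = T * ∫ t in Ioi (T * R), SS γ w φ (Real.log T) t ^ 2 / t ^ 2 := by field_simp
      rw [h6, mul_comm T R]
      rw [mul_comm T R] at hi1
      have h7 : ∫ t in Ioi (R * T), SS γ w φ (Real.log T) t ^ 2 / t ^ 2
          ≤ (524288 * D) ^ 2 * ∫ t in Ioi (R * T), SS γ w Maj (Real.log T) t ^ 2 / t ^ 2 := by
        rw [← integral_const_mul]
        exact setIntegral_mono_on hi1 (hi.const_mul _) measurableSet_Ioi (fun t _ => hle t)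
      calc T * ∫ t in Ioi (R * T), SS γ w φ (Real.log T) t ^ 2 / t ^ 2
          ≤ T * ((524288 * D) ^ 2 * ∫ t in Ioi (R * T), SS γ w Maj (Real.log T) t ^ 2 / t ^ 2) :=
            mul_le_mul_of_nonneg_left h7 hT0.le
        _ = (524288 * D) ^ 2 * (T * ∫ t in Ioi (R * T), SS γ w Maj (Real.log T) t ^ 2 / t ^ 2) := by ring
        _ ≤ (524288 * D) ^ 2 * (C / R + C * T ^ (-(1 / 2) : ℝ)) := mul_le_mul_of_nonneg_left hb (by positivity)
        _ ≤ (524288 * D) ^ 2 * (C / R + C * (1 / R)) := by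
            apply mul_le_mul_of_nonneg_left _ (by positivity)
            have := mul_le_mul_of_nonneg_left hsm hC0.le
            linarith
        _ = _ := by ring

/-- From the sharp mean square to the distribution function. -/
lemma sharp_lim (I : Inputs γ w F CR) {s : ℝ} {φ : ℝ → ℝ} (hφ : Reg s φ) (hs : 0 < s) {ℓ : ℝ} (h : Sharp γ w φ ℓ)
    {y : ℝ} (hy : 0 < y) :
    Tendsto (fun T => ∫ x in (0 : ℝ)..y, SS γ w φ (Real.log T) (T * x) ^ 2) atTop (𝓝 (ℓ * y)) := by
  have hA : Tendsto (fun T : ℝ => y * T) atTop atTop := tendsto_id.const_mul_atTop hy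
  have h1 := I.avg_scale hφ hs hA (tendsto_log_ratio hy)
  have h2 := h1.add (h.comp hA)
  simp only [Function.comp, sub_add_cancel, zero_add] at h2
  have h3 := h2.mul_const y
  apply h3.congr'
  filter_upwards [eventually_gt_atTop 0] with T hT
  rw [intervalIntegral_comp_mul (f := fun t => SS γ w φ (Real.log T) t ^ 2) hT]
  unfold avg
  rw [mul_comm y T]
  field_simp

theorem mixK_of_sharp (I : Inputs γ w F CR) {s : ℝ} {φ : ℝ → ℝ} (hφ : Reg s φ) (hs : 0 < s) {ℓ : ℝ} (h : Sharp γ w φ ℓ) :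
    MixK γ w φ ℓ := by
  have h1 := (I.equiTail hφ.test hs).tendsto (ℓ := ℓ) (fun y hy => I.sharp_lim hφ hs h hy) (continuous_KK 1)
    (by norm_num : (0 : ℝ) ≤ 4) (KK_bound 1)
  rw [integral_Ioi_KK, abs_one, mul_one] at h1
  exact h1

lemma KK_scale (r y : ℝ) : KK r y = r ^ 2 * KK 1 (r * y) := by
  unfold KK
  rw [one_pow, one_mul, one_mul]

theorem sharp_of_mixK (I : Inputs γ w F CR) {s : ℝ} {φ : ℝ → ℝ} (hφ : Reg s φ) (hs : 0 < s) {ℓ : ℝ} (hℓ : 0 ≤ ℓ)
    (h : MixK γ w φ ℓ) : Sharp γ w φ ℓ := by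
  have hk : ∀ r, 0 < r → Tendsto (fun T => ∫ y in Ioi 0, KK r y * (SS γ w φ (Real.log T) (T * y) ^ 2)) atTop
      (𝓝 (ℓ * (π * r))) := by
    intro r hr
    have hr1 : 0 < r⁻¹ := by positivity
    have hA : Tendsto (fun T : ℝ => r⁻¹ * T) atTop atTop := tendsto_id.const_mul_atTop hr1
    have h1 := I.mix_scale hφ hs hA (tendsto_log_ratio hr1)
    have h2 := h1.add (h.comp hA)
    simp only [Function.comp, sub_add_cancel, zero_add] at h2
    have h3 := h2.const_mul r
    rw [show r * (ℓ * π) = ℓ * (π * r) by ring] at h3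
    apply h3.congr'
    filter_upwards [eventually_gt_atTop 0] with T hT
    have e1 : ∀ y : ℝ, KK r y * SS γ w φ (Real.log T) (T * y) ^ 2
        = r ^ 2 * (fun x => KK 1 x * SS γ w φ (Real.log T) (r⁻¹ * T * x) ^ 2) (r * y) := by
      intro y
      simp only
      rw [KK_scale r y]
      have e : r⁻¹ * T * (r * y) = T * y := by field_simp
      rw [e]
      ring
    simp_rw [e1]
    rw [integral_const_mul, integral_Ioi_comp_mul (f := fun x => KK 1 x * SS γ w φ (Real.log T) (r⁻¹ * T * x) ^ 2) hr,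
      mul_zero]
    field_simp
  have h4 := (I.equiTail hφ.test hs).equi_of_kernels hℓ hk one_pos
  rw [mul_one] at h4
  unfold Sharp
  apply h4.congr'
  filter_upwards [eventually_gt_atTop 0] with T hT
  rw [intervalIntegral_comp_mul (f := fun t => SS γ w φ (Real.log T) t ^ 2) hT, mul_one]
  rfl

end Inputs

end

end Pool.Agent.H6
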