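import Mathlib
import Pool.Agent.H6.Apriori

open MeasureTheory Set Filter Topology FourierTransform
open scoped Real Interval SchwartzMap ContDiff

namespace Pool.Agent.H6

/-- Smooth even compactly supported functions. -/
structure Nice (χ : ℝ → ℝ) : Prop where
  smooth : ContDiff ℝ ∞ χ
  even : ∀ x, χ (-x) = χ x
  supp : ∃ s, 0 < s ∧ ∀ x, s ≤ |x| → χ x = 0

lemma hasCompactSupport_of_supp {χ : ℝ → ℝ} {s : ℝ} (h : ∀ x, s ≤ |x| → χ x = 0) : HasCompactSupport χ := by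
  apply HasCompactSupport.intro (K := Icc (-s) s) isCompact_Icc
  intro x hx
  apply h
  by_contra h
  rw [not_le, abs_lt] at h
  exact hx ⟨h.1.le, h.2.le⟩

/-- Dilation estimate for cosine transforms of nice functions. -/
lemma cosT_dil {g : ℝ → ℝ} (hg : ContDiff ℝ ∞ g) (hc : HasCompactSupport g) (heven : ∀ x, g (-x) = g x) :
    ∃ C, 0 ≤ C ∧ ∀ c, 1 / 2 ≤ c → c ≤ 2 → ∀ u, |cosT g (c * u) - cosT g u| ≤ C * |c - 1| / (1 + u ^ 2) ^ 2 := by
  have hcC : HasCompactSupport (fun x => (g x : ℂ)) := hc.comp_left (g := fun x : ℝ => (x : ℂ)) (by simp)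
  have hgC : ContDiff ℝ ∞ (fun x => (g x : ℂ)) := Complex.ofRealCLM.contDiff.comp hg
  have hint : Integrable g := hg.continuous.integrable_of_hasCompactSupport hc
  set f : 𝓢(ℝ, ℂ) := hcC.toSchwartzMap hgC with hf
  set Fs : 𝓢(ℝ, ℂ) := 𝓕 f with hFs
  obtain ⟨D0, hD00, hD0⟩ := Fs.decay 0 1
  obtain ⟨D6, hD60, hD6⟩ := Fs.decay 6 1
  have hval : ∀ u, Fs u = (cosT g u : ℂ) := by
    intro u
    rw [hFs, SchwartzMap.fourier_coe]
    have : (f : ℝ → ℂ) = fun x => (g x : ℂ) := rfl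
    rw [this, fourier_ofReal_even hint heven]
  refine ⟨4 * D0 + 256 * D6, by positivity, fun c hc1 hc2 u => ?_⟩
  rw [le_div_iff₀ (by positivity)]
  have hseg : ∀ x ∈ uIcc u (c * u), |u| / 2 ≤ |x| := by
    intro x hx
    rcases le_total 0 u with hu | hu
    · have h1 : min u (c * u) ≤ x := hx.1
      have h2 : u / 2 ≤ min u (c * u) := le_min (by linarith) (by nlinarith)
      rw [abs_of_nonneg hu, abs_of_nonneg (by linarith)]
      linarith
    · have h1 : x ≤ max u (c * u) := hx.2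
      have h2 : max u (c * u) ≤ u / 2 := max_le (by linarith) (by nlinarith)
      rw [abs_of_nonpos hu, abs_of_nonpos (by linarith)]
      linarith
  have hbound : ∀ x ∈ uIcc u (c * u), ‖fderiv ℝ Fs x‖ * (|u| * (1 + u ^ 2) ^ 2) ≤ 4 * D0 + 256 * D6 := by
    intro x hx
    have h0 := hD0 x
    have h6 := hD6 x
    rw [pow_zero, one_mul, norm_iteratedFDeriv_one] at h0
    rw [norm_iteratedFDeriv_one, Real.norm_eq_abs] at h6
    have hx' := hseg x hx
    have hn := norm_nonneg (fderiv ℝ Fs x)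
    rcases le_total |u| 1 with hu | hu
    · have h1 : |u| * (1 + u ^ 2) ^ 2 ≤ 4 := by
        have h2 : u ^ 2 ≤ 1 := by rw [← sq_abs]; exact pow_le_one₀ (abs_nonneg _) hu
        have h3 : (1 + u ^ 2) ^ 2 ≤ 4 := by nlinarith [sq_nonneg u]
        calc |u| * (1 + u ^ 2) ^ 2 ≤ 1 * 4 := mul_le_mul hu h3 (by positivity) (by norm_num)
          _ = 4 := by norm_num
      calc ‖fderiv ℝ Fs x‖ * (|u| * (1 + u ^ 2) ^ 2) ≤ D0 * 4 := mul_le_mul h0 h1 (by positivity) hD00.le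
        _ ≤ _ := by linarith
    · have h1 : |u| * (1 + u ^ 2) ^ 2 ≤ 256 * |x| ^ 6 := by
        have h2 : (1 : ℝ) ≤ u ^ 2 := by rw [← sq_abs]; exact one_le_pow₀ hu
        have h3 : (1 + u ^ 2) ^ 2 ≤ 4 * |u| ^ 4 := by
          have : |u| ^ 4 = u ^ 4 := by rw [show (4 : ℕ) = 2 * 2 by norm_num, pow_mul, sq_abs, ← pow_mul]
          rw [this]
          nlinarith
        calc |u| * (1 + u ^ 2) ^ 2 ≤ |u| * (4 * |u| ^ 4) := mul_le_mul_of_nonneg_left h3 (abs_nonneg _)
          _ = 4 * |u| ^ 5 * 1 := by ring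
          _ ≤ 4 * |u| ^ 5 * |u| := mul_le_mul_of_nonneg_left hu (by positivity)
          _ = 256 * (|u| / 2) ^ 6 := by ring
          _ ≤ 256 * |x| ^ 6 := by
              apply mul_le_mul_of_nonneg_left _ (by norm_num)
              exact pow_le_pow_left₀ (by positivity) hx' 6
      calc ‖fderiv ℝ Fs x‖ * (|u| * (1 + u ^ 2) ^ 2) ≤ ‖fderiv ℝ Fs x‖ * (256 * |x| ^ 6) :=
            mul_le_mul_of_nonneg_left h1 hn
        _ = 256 * (|x| ^ 6 * ‖fderiv ℝ Fs x‖) := by ring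
        _ ≤ _ := by linarith
  rcases eq_or_ne u 0 with rfl | hu0
  · simp only [mul_zero, sub_self, abs_zero, zero_mul]
    positivity
  · have hpos : 0 < |u| * (1 + u ^ 2) ^ 2 := by
      have := abs_pos.mpr hu0
      positivity
    have hmv := Convex.norm_image_sub_le_of_norm_fderiv_le (𝕜 := ℝ) (f := Fs) (s := uIcc u (c * u)) (x := u) (y := c * u)
      (C := (4 * D0 + 256 * D6) / (|u| * (1 + u ^ 2) ^ 2))
      (fun x _ => Fs.differentiableAt) (fun x hx => by
        rw [le_div_iff₀ hpos]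
        exact hbound x hx) (convex_uIcc _ _) left_mem_uIcc right_mem_uIcc
    rw [hval, hval, ← Complex.ofReal_sub, Complex.norm_real, Real.norm_eq_abs, Real.norm_eq_abs] at hmv
    have e : |c * u - u| = |c - 1| * |u| := by
      rw [← abs_mul]; congr 1; ring
    rw [e] at hmv
    calc |cosT g (c * u) - cosT g u| * (1 + u ^ 2) ^ 2
        ≤ ((4 * D0 + 256 * D6) / (|u| * (1 + u ^ 2) ^ 2) * (|c - 1| * |u|)) * (1 + u ^ 2) ^ 2 :=
          mul_le_mul_of_nonneg_right hmv (by positivity)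
      _ = (4 * D0 + 256 * D6) * |c - 1| := by
          have := abs_pos.mpr hu0
          field_simp

namespace Nice

variable {χ χ' : ℝ → ℝ}

lemma continuous (h : Nice χ) : Continuous χ := h.smooth.continuous

lemma hasCompactSupport (h : Nice χ) : HasCompactSupport χ := by
  obtain ⟨s, _, hs⟩ := h.supp
  exact hasCompactSupport_of_supp hs

lemma integrable (h : Nice χ) : Integrable χ :=
  h.continuous.integrable_of_hasCompactSupport h.hasCompactSupport

lemma bounded (h : Nice χ) : ∃ B, 0 ≤ B ∧ ∀ x, |χ x| ≤ B := by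
  obtain ⟨B, hB⟩ := h.continuous.bounded_above_of_compact_support h.hasCompactSupport
  exact ⟨B, (norm_nonneg _).trans (hB 0), hB⟩

lemma reg (h : Nice χ) {s : ℝ} (hs : ∀ x, s ≤ |x| → χ x = 0) : Reg s (cosT χ) :=
  ⟨testFn_cosT h.smooth h.even hs, cosT_dil h.smooth h.hasCompactSupport h.even⟩

lemma inv (h : Nice χ) (ξ : ℝ) : cosT (cosT χ) ξ = χ ξ := by
  obtain ⟨s, _, hs⟩ := h.supp
  exact cosT_cosT h.continuous h.integrable h.even (h.reg hs).test.integrable ξ

lemma add (h : Nice χ) (h' : Nice χ') : Nice (fun x => χ x + χ' x) := by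
  obtain ⟨s, hs0, hs⟩ := h.supp
  obtain ⟨s', hs0', hs'⟩ := h'.supp
  refine ⟨h.smooth.add h'.smooth, fun x => by rw [h.even, h'.even], max s s', lt_max_of_lt_left hs0, fun x hx => ?_⟩
  rw [hs x ((le_max_left _ _).trans hx), hs' x ((le_max_right _ _).trans hx), add_zero]

lemma const_mul (h : Nice χ) (c : ℝ) : Nice (fun x => c * χ x) := by
  obtain ⟨s, hs0, hs⟩ := h.supp
  exact ⟨contDiff_const.mul h.smooth, fun x => by rw [h.even], s, hs0, fun x hx => by rw [hs x hx, mul_zero]⟩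

lemma sub (h : Nice χ) (h' : Nice χ') : Nice (fun x => χ x - χ' x) := by
  have := h.add (h'.const_mul (-1))
  simpa [sub_eq_add_neg] using this

lemma mul (h : Nice χ) {θ : ℝ → ℝ} (hθ : ContDiff ℝ ∞ θ) (hθe : ∀ x, θ (-x) = θ x) : Nice (fun x => χ x * θ x) := by
  obtain ⟨s, hs0, hs⟩ := h.supp
  exact ⟨h.smooth.mul hθ, fun x => by rw [h.even, hθe], s, hs0, fun x hx => by rw [hs x hx, zero_mul]⟩

lemma sq (h : Nice χ) : Nice (fun x => χ x ^ 2) := by
  have := h.mul h.smooth h.even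
  simpa [pow_two] using this

lemma comp_div (h : Nice χ) {β : ℝ} (hβ : 0 < β) : Nice (fun x => χ (x / β)) := by
  obtain ⟨s, hs0, hs⟩ := h.supp
  refine ⟨h.smooth.comp (contDiff_id.div_const β), fun x => by rw [neg_div, h.even], s * β, by positivity, fun x hx => ?_⟩
  apply hs
  rw [abs_div, abs_of_pos hβ, le_div_iff₀ hβ]
  exact hx

end Nice

/-- Nice plateau functions. -/
lemma exists_nice_plateau {s s' : ℝ} (hs : 0 < s) (hss : s < s') :
    ∃ g : ℝ → ℝ, Nice g ∧ (∀ x, s' ≤ |x| → g x = 0) ∧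
      (∀ x, |x| ≤ s → g x = 1) ∧ (∀ x, 0 ≤ g x) ∧ (∀ x, g x ≤ 1) := by
  obtain ⟨g, h1, h2, h3, h4, h5, h6⟩ := exists_plateau hs hss
  exact ⟨g, ⟨h1, h2, s', by linarith, h3⟩, h3, h4, h5, h6⟩

end Pool.Agent.H6
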