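import Mathlib
import Pool.Agent.H6.Diff
import Pool.Agent.H6.Mix2
import Pool.Agent.H6.Nice

open MeasureTheory Set Filter Topology
open scoped Real Interval ContDiff

namespace Pool.Agent.H6

namespace TestFn

/-- Convolution of test functions. -/
lemma conv_general {s : ℝ} {φ g : ℝ → ℝ} (hφ : TestFn s φ) (hg : Continuous g) (hgi : Integrable g) (y : ℝ) :
    ∫ x, φ x * cosT g (x + y) = cosT (fun ξ => g ξ * cosT φ ξ) y := by
  have h1 : ∀ x, φ x * cosT g (x + y) = ∫ u, φ x * (g u * Real.cos (2 * π * u * (x + y))) := by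
    intro x
    rw [integral_const_mul]
    rfl
  simp_rw [h1]
  rw [integral_integral_swap]
  · unfold cosT
    congr 1
    ext u
    have e : ∀ x, φ x * (g u * Real.cos (2 * π * u * (x + y))) = g u * (φ x * Real.cos (2 * π * (x + y) * u)) := by
      intro x
      rw [show 2 * π * u * (x + y) = 2 * π * (x + y) * u by ring]
      ring
    simp_rw [e]
    rw [integral_const_mul, hφ.cosT_eq_integral_sub]
    unfold cosT
    rw [show 2 * π * y * u = 2 * π * u * y by ring]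
    ring
  · have h6 : Integrable (Function.uncurry fun (x u : ℝ) => φ x * g u) (volume.prod volume) :=
      hφ.integrable.mul_prod hgi
    have hcont : Continuous (Function.uncurry fun (x u : ℝ) => φ x * (g u * Real.cos (2 * π * u * (x + y)))) := by
      have := hφ.cont
      unfold Function.uncurry
      fun_prop
    apply h6.mono hcont.aestronglyMeasurable
    apply ae_of_all
    rintro ⟨x, u⟩
    simp only [Function.uncurry]
    rw [← mul_assoc, norm_mul (φ x * g u)]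
    apply mul_le_of_le_one_right (norm_nonneg _)
    rw [Real.norm_eq_abs]
    exact Real.abs_cos_le_one _

end TestFn

/-- Pair sum with an arbitrary test function. -/
noncomputable def PS {ι : Type*} (γ w : ι → ℝ) (G : Finset ι) (L : ℝ) (φ : ℝ → ℝ) : ℝ :=
  ∑ i ∈ G, ∑ j ∈ G, w i * w j * φ (L * (γ i - γ j) / (2 * π))

section
variable {ι : Type*} [Countable ι] {γ w : ι → ℝ} {F : ℝ → Finset ι} {CR : ℝ}

/-- Sharp second moment in terms of pair sums. -/
theorem Inputs.sharp_mul (I : Inputs γ w F CR) {χ₁ χ₂ : ℝ → ℝ} (h₁ : Nice χ₁) (h₂ : Nice χ₂) :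
    ∃ K, 0 ≤ K ∧ ∀ L, 2 * π ≤ L → ∀ τ, 0 ≤ τ →
      |(∫ t in (0 : ℝ)..τ, SS γ w (cosT χ₁) L t * SS γ w (cosT χ₂) L t)
        - (2 * π / L) * PS γ w (F τ) L (cosT (fun ξ => χ₁ ξ * χ₂ ξ))| ≤ K * (1 + τ) ^ (1 / 2 : ℝ) := by
  obtain ⟨s₁, hs₁0, hs₁⟩ := h₁.supp
  obtain ⟨s₂, hs₂0, hs₂⟩ := h₂.supp
  have hφ₁ := (h₁.reg hs₁).test
  have hφ₂ := (h₂.reg hs₂).test
  obtain ⟨C₁, hC₁0, hC₁⟩ := hφ₁.decay
  obtain ⟨C₂, hC₂0, hC₂⟩ := hφ₂.decay
  obtain ⟨B₂, hB₂0, hB₂⟩ := hφ₂.bounded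
  have hCR := I.ord.CR_nonneg
  refine ⟨4 * π * C₁ * C₂ * CR ^ 2, by positivity, fun L hL τ hτ => ?_⟩
  have hπ := Real.pi_gt_three
  have hL0 : 0 < L := by linarith
  have hL1 : 1 ≤ L := by linarith
  have h3 := I.ord.edge_second hφ₁.cont hφ₂.cont hC₁0 hC₂0 hC₁ hC₂ hL hτ
    (I.continuous_SS hφ₁ hs₁0 hL1) (I.continuous_SS hφ₂ hs₂0 hL1)
    (integrable_Sin_mul hφ₂.cont hφ₁.integrable hB₂ hL0 (F τ))
  have h4 := integral_Sin_mul (γ := γ) (w := w) hφ₂.cont hφ₁.integrable hB₂ hL0 (F τ)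
  have h5 : ∀ y, ∫ u, cosT χ₁ u * cosT χ₂ (u + y) = cosT (fun ξ => χ₁ ξ * χ₂ ξ) y := by
    intro y
    rw [hφ₁.conv_general h₂.continuous h₂.integrable y]
    congr 1
    ext ξ
    rw [h₁.inv, mul_comm]
  simp_rw [h5] at h4
  rw [h4, abs_sub_comm] at h3
  exact h3

/-- The smoothed quadratic functional. -/
noncomputable def KQ (γ w : ι → ℝ) (φ : ℝ → ℝ) (T : ℝ) : ℝ :=
  ∫ y in Ioi 0, KK 1 y * SS γ w φ (Real.log T) (T * y) ^ 2

omit [Countable ι] in
lemma PS_add {G : Finset ι} {L : ℝ} {φ ψ : ℝ → ℝ} : PS γ w G L (fun u => φ u + ψ u) = PS γ w G L φ + PS γ w G L ψ := by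
  unfold PS
  rw [← Finset.sum_add_distrib]
  apply Finset.sum_congr rfl
  intro i _
  rw [← Finset.sum_add_distrib]
  apply Finset.sum_congr rfl
  intro j _
  ring

/-- bounded masses -/
lemma Inputs.mass_bound (I : Inputs γ w F CR) {s : ℝ} {φ : ℝ → ℝ} (hφ : TestFn s φ) (hs : 0 < s) {R : ℝ} (hR : 0 < R) :
    ∃ B, ∀ᶠ T in atTop, ∫ y in (0 : ℝ)..R, SS γ w φ (Real.log T) (T * y) ^ 2 ≤ B := by
  obtain ⟨B, T2, hB0, hT2, hB⟩ := I.majFam
  obtain ⟨D, hD0, hD⟩ := hφ.decay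
  have hlog := Real.tendsto_log_atTop
  have hπ := Real.pi_gt_three
  refine ⟨(524288 * D) ^ 2 * (1 + R ^ 2) * B, ?_⟩
  filter_upwards [eventually_ge_atTop T2, hlog.eventually_ge_atTop (2 * π)] with T hT hL
  obtain ⟨hi, hb⟩ := hB (Real.log T) T hL hT (by linarith)
  have hc := I.continuous_SS hφ hs (L := Real.log T) (by linarith)
  have hc2 : Continuous fun y => SS γ w φ (Real.log T) (T * y) ^ 2 := (hc.comp (continuous_const.mul continuous_id)).pow 2
  rw [intervalIntegral.integral_of_le hR.le]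
  have h1 : ∫ y in Ioc 0 R, SS γ w φ (Real.log T) (T * y) ^ 2
      ≤ ∫ y in Ioc 0 R, ((524288 * D) ^ 2 * (1 + R ^ 2)) * (SS γ w Maj (Real.log T) (T * y) ^ 2 / (1 + y ^ 2)) := by
    apply setIntegral_mono_on
    · exact hc2.integrableOn_Icc.mono_set Ioc_subset_Icc_self
    · exact (hi.mono_set Ioc_subset_Ioi_self).const_mul _
    · exact measurableSet_Ioc
    · intro y hy
      have h6 := I.ord.abs_SS_le_Maj hD0 hD hL hL (by linarith) (T * y)
      have h7 : SS γ w φ (Real.log T) (T * y) ^ 2 ≤ (524288 * D) ^ 2 * SS γ w Maj (Real.log T) (T * y) ^ 2 := by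
        rw [← mul_pow, ← sq_abs (SS γ w φ _ _)]
        exact pow_le_pow_left₀ (abs_nonneg _) h6 2
      have h8 : SS γ w Maj (Real.log T) (T * y) ^ 2
          ≤ (1 + R ^ 2) * (SS γ w Maj (Real.log T) (T * y) ^ 2 / (1 + y ^ 2)) := by
        rw [← mul_div_assoc, le_div_iff₀ (by positivity), mul_comm]
        apply mul_le_mul_of_nonneg_right _ (sq_nonneg _)
        have : y ^ 2 ≤ R ^ 2 := pow_le_pow_left₀ hy.1.le hy.2 2
        linarith
      calc SS γ w φ (Real.log T) (T * y) ^ 2 ≤ (524288 * D) ^ 2 * SS γ w Maj (Real.log T) (T * y) ^ 2 := h7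
        _ ≤ (524288 * D) ^ 2 * ((1 + R ^ 2) * (SS γ w Maj (Real.log T) (T * y) ^ 2 / (1 + y ^ 2))) :=
            mul_le_mul_of_nonneg_left h8 (by positivity)
        _ = _ := by ring
  refine h1.trans ?_
  rw [integral_const_mul]
  apply mul_le_mul_of_nonneg_left _ (by positivity)
  refine le_trans ?_ hb
  apply setIntegral_mono_set hi
  · exact ae_of_all _ fun y => by simp only [Pi.zero_apply]; positivity
  · exact Ioc_subset_Ioi_self.eventuallyLE

/-- Splitting of the smoothed quadratic functional. -/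
theorem Inputs.KQ_split (I : Inputs γ w F CR) {χ χ₁ χ₂ : ℝ → ℝ} (h : Nice χ) (h₁ : Nice χ₁) (h₂ : Nice χ₂)
    (heq : ∀ ξ, χ ξ ^ 2 = χ₁ ξ ^ 2 + χ₂ ξ ^ 2) :
    Tendsto (fun T => KQ γ w (cosT χ) T - (KQ γ w (cosT χ₁) T + KQ γ w (cosT χ₂) T)) atTop (𝓝 0) := by
  obtain ⟨s, hs0, hs⟩ := h.supp
  obtain ⟨s₁, hs₁0, hs₁⟩ := h₁.supp
  obtain ⟨s₂, hs₂0, hs₂⟩ := h₂.supp
  have hφ := (h.reg hs).test
  have hφ₁ := (h₁.reg hs₁).test
  have hφ₂ := (h₂.reg hs₂).test
  have E := I.equiTail hφ hs0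
  have E₁ := I.equiTail hφ₁ hs₁0
  have E₂ := I.equiTail hφ₂ hs₂0
  have hlog := Real.tendsto_log_atTop
  have hπ := Real.pi_gt_three
  obtain ⟨K, hK0, hK⟩ := I.sharp_mul h h
  obtain ⟨K₁, hK₁0, hK₁⟩ := I.sharp_mul h₁ h₁
  obtain ⟨K₂, hK₂0, hK₂⟩ := I.sharp_mul h₂ h₂
  have hKK : ∀ y, |KK 1 y| * y ^ 2 ≤ 4 := KK_bound 1
  have key := E.diff (E₁.add E₂) ?_ ?_ (continuous_KK 1) (by norm_num : (0 : ℝ) ≤ 4) hKK
  · apply key.congr'
    filter_upwards [E₁.integrable (continuous_KK 1) hKK, E₂.integrable (continuous_KK 1) hKK] with T i1 i2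
    unfold KQ
    congr 1
    rw [← integral_add i1 i2]
    congr 1
    ext y
    ring
  · -- masses
    intro R hR
    obtain ⟨B, hB⟩ := I.mass_bound hφ hs0 hR
    obtain ⟨B₁, hB₁⟩ := I.mass_bound hφ₁ hs₁0 hR
    obtain ⟨B₂, hB₂⟩ := I.mass_bound hφ₂ hs₂0 hR
    refine ⟨B + (B₁ + B₂), ?_⟩
    filter_upwards [hB, hB₁, hB₂, E₁.cont, E₂.cont] with T b b1 b2 c1 c2
    rw [intervalIntegral.integral_add (c1.intervalIntegrable _ _) (c2.intervalIntegrable _ _)]
    linarith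
  · -- sharp averages
    intro y hy
    have hbound : Tendsto (fun T : ℝ => (1 / T) * ((K + (K₁ + K₂)) * (1 + y * T) ^ (1 / 2 : ℝ))) atTop (𝓝 0) := by
      have h1 := Inputs.tendsto_rpow_div (p := 1 / 2) (by norm_num) (K + (K₁ + K₂))
      have h2 : Tendsto (fun T : ℝ => y * T) atTop atTop := tendsto_id.const_mul_atTop hy
      have h3 := (h1.comp h2).const_mul y
      rw [mul_zero] at h3
      apply h3.congr'
      filter_upwards [eventually_gt_atTop 0] with T hT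
      simp only [Function.comp]
      field_simp
    apply squeeze_zero_norm' _ hbound
    filter_upwards [eventually_gt_atTop 0, hlog.eventually_ge_atTop (2 * π), E₁.cont, E₂.cont] with T hT hL c1 c2
    have hT0 : (0 : ℝ) < T := hT
    have hTy : 0 ≤ T * y := by positivity
    rw [intervalIntegral.integral_add (c1.intervalIntegrable _ _) (c2.intervalIntegrable _ _)]
    rw [intervalIntegral_comp_mul (f := fun t => SS γ w (cosT χ) (Real.log T) t ^ 2) hT0,
      intervalIntegral_comp_mul (f := fun t => SS γ w (cosT χ₁) (Real.log T) t ^ 2) hT0,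
      intervalIntegral_comp_mul (f := fun t => SS γ w (cosT χ₂) (Real.log T) t ^ 2) hT0]
    have a0 := hK (Real.log T) hL (T * y) hTy
    have a1 := hK₁ (Real.log T) hL (T * y) hTy
    have a2 := hK₂ (Real.log T) hL (T * y) hTy
    simp_rw [← sq] at a0 a1 a2
    have e : PS γ w (F (T * y)) (Real.log T) (cosT fun ξ => χ ξ ^ 2)
        = PS γ w (F (T * y)) (Real.log T) (cosT fun ξ => χ₁ ξ ^ 2) + PS γ w (F (T * y)) (Real.log T) (cosT fun ξ => χ₂ ξ ^ 2) := by
      rw [← PS_add]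
      congr 1
      ext u
      simp_rw [heq]
      exact cosT_add h₁.sq.integrable h₂.sq.integrable u
    rw [e] at a0
    rw [Real.norm_eq_abs, ← mul_add, ← mul_sub, abs_mul, abs_of_pos (by positivity : 0 < 1 / T)]
    apply mul_le_mul_of_nonneg_left _ (by positivity)
    rw [mul_comm y T]
    rw [abs_le] at a0 a1 a2 ⊢
    constructor <;> nlinarith [a0.1, a0.2, a1.1, a1.2, a2.1, a2.2]

end

end Pool.Agent.H6
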