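import Mathlib
import Pool.Agent.H6.Bound
import Pool.Agent.H6.Rig
import Pool.Agent.H6.Split

open MeasureTheory Set Filter Topology
open scoped Real Interval ContDiff

namespace Pool.Agent.H6

/-- Montgomery's weight. -/
noncomputable def Wt (u : ℝ) : ℝ := 4 / (4 + u ^ 2)

lemma Wt_eq (u : ℝ) : Wt u = 2 * pk 2 u := by
  unfold Wt pk
  norm_num
  ring

lemma Wt_nonneg (u : ℝ) : 0 ≤ Wt u := by unfold Wt; positivity

lemma one_sub_Wt (u : ℝ) : 0 ≤ 1 - Wt u ∧ 1 - Wt u ≤ u ^ 2 := by
  unfold Wt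
  have h : 0 < 4 + u ^ 2 := by positivity
  have e : 1 - 4 / (4 + u ^ 2) = u ^ 2 / (4 + u ^ 2) := by field_simp; ring
  rw [e]
  refine ⟨by positivity, ?_⟩
  apply div_le_self (sq_nonneg u)
  nlinarith [sq_nonneg u]

section
variable {ι : Type*} {γ w : ι → ℝ} {F : ℝ → Finset ι} {CR : ℝ}

/-- The form factor. -/
noncomputable def FF (γ w : ι → ℝ) (F : ℝ → Finset ι) (T α : ℝ) : ℝ :=
  (1 / PC.norm T) * ∑ i ∈ F T, ∑ j ∈ F T, w i * w j * (Real.cos (α * Real.log T * (γ i - γ j)) * Wt (γ i - γ j))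

lemma continuous_FF (T : ℝ) : Continuous (FF γ w F T) := by
  unfold FF
  fun_prop

lemma FF_even (T α : ℝ) : FF γ w F T (-α) = FF γ w F T α := by
  unfold FF
  congr 1
  apply Finset.sum_congr rfl
  intro i _
  apply Finset.sum_congr rfl
  intro j _
  rw [show -α * Real.log T * (γ i - γ j) = -(α * Real.log T * (γ i - γ j)) by ring, Real.cos_neg]

lemma double_cos_nonneg (G : Finset ι) (γ w : ι → ℝ) (y : ℝ) :
    0 ≤ ∑ i ∈ G, ∑ j ∈ G, w i * w j * Real.cos (y * (γ i - γ j)) := by
  have e : ∑ i ∈ G, ∑ j ∈ G, w i * w j * Real.cos (y * (γ i - γ j))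
      = (∑ i ∈ G, w i * Real.cos (y * γ i)) ^ 2 + (∑ i ∈ G, w i * Real.sin (y * γ i)) ^ 2 := by
    rw [pow_two, pow_two, Finset.sum_mul_sum, Finset.sum_mul_sum, ← Finset.sum_add_distrib]
    apply Finset.sum_congr rfl
    intro i _
    rw [← Finset.sum_add_distrib]
    apply Finset.sum_congr rfl
    intro j _
    rw [show y * (γ i - γ j) = y * γ i - y * γ j by ring, Real.cos_sub]
    ring
  rw [e]
  positivity

lemma integrable_exp_cos (a v : ℝ) (ha : 0 < a) (c : ℝ) :
    IntegrableOn (fun x : ℝ => Real.exp (-(a * x)) * (c * Real.cos (x * v))) (Ioi 0) := by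
  have h0 : IntegrableOn (fun x : ℝ => Real.exp (-(a * x))) (Ioi 0) := by
    have := exp_neg_integrableOn_Ioi 0 ha
    simpa [neg_mul] using this
  apply Integrable.mul_bdd (c := |c|) h0
  · exact (by fun_prop : Continuous fun x : ℝ => c * Real.cos (x * v)).aestronglyMeasurable
  · apply ae_of_all
    intro x
    rw [Real.norm_eq_abs, abs_mul]
    exact mul_le_of_le_one_right (abs_nonneg _) (Real.abs_cos_le_one _)

/-- Positivity of the form factor. -/
lemma FF_nonneg {T : ℝ} (hT : 1 < T) (α : ℝ) : 0 ≤ FF γ w F T α := by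
  unfold FF
  have hn := norm_pos hT
  apply mul_nonneg (by positivity)
  set c := α * Real.log T with hc
  have h1 : ∀ i j, w i * w j * (Real.cos (c * (γ i - γ j)) * Wt (γ i - γ j))
      = ∫ x in Ioi (0 : ℝ), Real.exp (-(2 * x)) * ((w i * w j * (2 * Real.cos (c * (γ i - γ j)))) * Real.cos (x * (γ i - γ j))) := by
    intro i j
    have e : ∀ x : ℝ, Real.exp (-(2 * x)) * ((w i * w j * (2 * Real.cos (c * (γ i - γ j)))) * Real.cos (x * (γ i - γ j)))
        = (w i * w j * (2 * Real.cos (c * (γ i - γ j)))) * (Real.exp (-(2 * x)) * Real.cos (x * (γ i - γ j))) := by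
      intro x; ring
    simp_rw [e]
    rw [integral_const_mul, pk_eq (by norm_num : (0 : ℝ) < 2), Wt_eq]
    ring
  simp_rw [h1]
  have hint : ∀ i j, IntegrableOn (fun x : ℝ => Real.exp (-(2 * x)) *
      ((w i * w j * (2 * Real.cos (c * (γ i - γ j)))) * Real.cos (x * (γ i - γ j)))) (Ioi 0) := fun i j =>
    integrable_exp_cos 2 _ (by norm_num) _
  have h2 : ∑ i ∈ F T, ∑ j ∈ F T, ∫ x in Ioi (0 : ℝ), Real.exp (-(2 * x)) *
      ((w i * w j * (2 * Real.cos (c * (γ i - γ j)))) * Real.cos (x * (γ i - γ j)))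
      = ∫ x in Ioi (0 : ℝ), ∑ i ∈ F T, ∑ j ∈ F T, Real.exp (-(2 * x)) *
      ((w i * w j * (2 * Real.cos (c * (γ i - γ j)))) * Real.cos (x * (γ i - γ j))) := by
    rw [integral_finsetSum]
    · apply Finset.sum_congr rfl
      intro i _
      rw [integral_finsetSum]
      intro j _
      exact hint i j
    · intro i _
      apply integrable_finsetSum
      intro j _
      exact hint i j
  rw [h2]
  apply integral_nonneg
  intro x
  simp only [Pi.zero_apply]
  have e : ∑ i ∈ F T, ∑ j ∈ F T, Real.exp (-(2 * x)) *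
      ((w i * w j * (2 * Real.cos (c * (γ i - γ j)))) * Real.cos (x * (γ i - γ j)))
      = Real.exp (-(2 * x)) * ((∑ i ∈ F T, ∑ j ∈ F T, w i * w j * Real.cos ((c + x) * (γ i - γ j)))
        + ∑ i ∈ F T, ∑ j ∈ F T, w i * w j * Real.cos ((c - x) * (γ i - γ j))) := by
    rw [← Finset.sum_add_distrib, Finset.mul_sum]
    apply Finset.sum_congr rfl
    intro i _
    rw [← Finset.sum_add_distrib, Finset.mul_sum]
    apply Finset.sum_congr rfl
    intro j _
    rw [show (c + x) * (γ i - γ j) = c * (γ i - γ j) + x * (γ i - γ j) by ring,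
      show (c - x) * (γ i - γ j) = c * (γ i - γ j) - x * (γ i - γ j) by ring, Real.cos_add, Real.cos_sub]
    ring
  rw [e]
  have := double_cos_nonneg (F T) γ w (c + x)
  have := double_cos_nonneg (F T) γ w (c - x)
  positivity

lemma dns_FF : Dns (FF γ w F) := by
  constructor
  · filter_upwards [eventually_gt_atTop 1] with T hT u _
    exact FF_nonneg hT u
  · apply Eventually.of_forall
    intro T a b _ _
    exact (continuous_FF T).intervalIntegrable _ _

/-- Fourier pairing of the form factor. -/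
lemma FF_pair {g : ℝ → ℝ} (ng : Nice g) (T : ℝ) :
    ∫ α, g α * FF γ w F T α = (1 / PC.norm T) * ∑ i ∈ F T, ∑ j ∈ F T, w i * w j *
      (cosT g (Real.log T * (γ i - γ j) / (2 * π)) * Wt (γ i - γ j)) := by
  have hπ := Real.pi_ne_zero
  have h1 : ∀ i j, ∫ α, g α * Real.cos (α * Real.log T * (γ i - γ j)) = cosT g (Real.log T * (γ i - γ j) / (2 * π)) := by
    intro i j
    unfold cosT
    congr 1
    ext α
    congr 2
    field_simp
  have hi : ∀ i j, Integrable (fun α => g α * Real.cos (α * Real.log T * (γ i - γ j))) := by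
    intro i j
    have := integrable_mul_cos ng.integrable (Real.log T * (γ i - γ j) / (2 * π))
    apply this.congr
    apply ae_of_all
    intro α
    simp only
    congr 2
    field_simp
  have e : ∀ α, g α * FF γ w F T α = ∑ i ∈ F T, ∑ j ∈ F T, ((1 / PC.norm T) * (w i * w j * Wt (γ i - γ j))) *
      (g α * Real.cos (α * Real.log T * (γ i - γ j))) := by
    intro α
    unfold FF
    rw [mul_left_comm, Finset.mul_sum, Finset.mul_sum]
    apply Finset.sum_congr rfl
    intro i _
    rw [Finset.mul_sum, Finset.mul_sum]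
    apply Finset.sum_congr rfl
    intro j _
    ring
  simp_rw [e]
  rw [integral_finsetSum _ (fun i _ => integrable_finsetSum _ fun j _ => (hi i j).const_mul _), Finset.mul_sum]
  apply Finset.sum_congr rfl
  intro i _
  rw [integral_finsetSum _ (fun j _ => (hi i j).const_mul _), Finset.mul_sum]
  apply Finset.sum_congr rfl
  intro j _
  rw [integral_const_mul, h1]
  ring

end

section
variable {ι : Type*} [Countable ι] {γ w : ι → ℝ} {F : ℝ → Finset ι} {CR : ℝ}

/-- The weight can be removed. -/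
theorem FF_sub_PS (I : Inputs γ w F CR) {g : ℝ → ℝ} (ng : Nice g) :
    Tendsto (fun T => (∫ α, g α * FF γ w F T α) - (1 / PC.norm T) * PS γ w (F T) (Real.log T) (cosT g)) atTop (𝓝 0) := by
  have hw := I.ord.w_nonneg
  obtain ⟨C0, hC00, hC0⟩ := cosT_decay ng.smooth ng.hasCompactSupport ng.even 0
  obtain ⟨C6, hC60, hC6⟩ := cosT_decay ng.smooth ng.hasCompactSupport ng.even 6
  have hdec : ∀ u, u ^ 2 * |cosT g u| ≤ 8 * (C0 + C6) * (2048 * Maj u) := by
    intro u
    have h1 : |cosT g u| * (1 + u ^ 2) ^ 3 ≤ 8 * (C0 + C6) := by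
      have h0 := hC0 u
      have h6 := hC6 u
      rw [pow_zero, one_mul] at h0
      have h7 := one_add_pow_le (sq_nonneg u) 3
      have h8 : (u ^ 2) ^ 3 = |u| ^ 6 := by rw [← sq_abs, ← pow_mul]
      rw [h8] at h7
      calc |cosT g u| * (1 + u ^ 2) ^ 3 ≤ |cosT g u| * (2 ^ 3 * (1 + |u| ^ 6)) :=
            mul_le_mul_of_nonneg_left h7 (abs_nonneg _)
        _ = 8 * (|cosT g u| + |u| ^ 6 * |cosT g u|) := by ring
        _ ≤ _ := by linarith
    have h2 := Maj_ge u
    have h3 : (1 : ℝ) / (1 + u ^ 2) ^ 2 ≤ 2048 * Maj u := by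
      have : (1 : ℝ) / (1 + u ^ 2) ^ 2 = 2048 * ((1 / 2048) / (1 + u ^ 2) ^ 2) := by ring
      rw [this]
      linarith
    calc u ^ 2 * |cosT g u| ≤ (1 + u ^ 2) * |cosT g u| := mul_le_mul_of_nonneg_right (by linarith) (abs_nonneg _)
      _ = (|cosT g u| * (1 + u ^ 2) ^ 3) * (1 / (1 + u ^ 2) ^ 2) := by
          have : 1 + u ^ 2 ≠ 0 := by positivity
          field_simp
      _ ≤ (8 * (C0 + C6)) * (2048 * Maj u) := mul_le_mul h1 h3 (by positivity) (by positivity)
  have hM := I.montgomery testFn_Maj (by norm_num) (by norm_num)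
  have hlog := Real.tendsto_log_atTop
  have hz : Tendsto (fun T : ℝ => (2 * π / Real.log T) ^ 2) atTop (𝓝 0) := by
    have := (hlog.const_div_atTop (2 * π)).pow 2
    simpa using this
  have hb := (hz.mul hM).const_mul (8 * (C0 + C6) * 2048)
  rw [zero_mul, mul_zero] at hb
  apply squeeze_zero_norm' _ hb
  filter_upwards [eventually_gt_atTop 1] with T hT
  have hn := norm_pos hT
  have hL := Real.log_pos hT
  have hπ := Real.pi_pos
  rw [FF_pair ng]
  unfold PS
  rw [← mul_sub, ← Finset.sum_sub_distrib, Real.norm_eq_abs, abs_mul, abs_of_pos (by positivity : 0 < 1 / PC.norm T)]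
  have hsum : |∑ i ∈ F T, ((∑ j ∈ F T, w i * w j * (cosT g (Real.log T * (γ i - γ j) / (2 * π)) * Wt (γ i - γ j)))
      - ∑ j ∈ F T, w i * w j * cosT g (Real.log T * (γ i - γ j) / (2 * π)))|
      ≤ ∑ i ∈ F T, ∑ j ∈ F T, (8 * (C0 + C6) * 2048 * (2 * π / Real.log T) ^ 2) * (w i * w j * Maj ((γ i - γ j) * Real.log T / (2 * π))) := by
    refine (Finset.abs_sum_le_sum_abs _ _).trans ?_
    apply Finset.sum_le_sum
    intro i _
    rw [← Finset.sum_sub_distrib]
    refine (Finset.abs_sum_le_sum_abs _ _).trans ?_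
    apply Finset.sum_le_sum
    intro j _
    set x := γ i - γ j with hx
    have e1 : w i * w j * (cosT g (Real.log T * x / (2 * π)) * Wt x) - w i * w j * cosT g (Real.log T * x / (2 * π))
        = -((w i * w j) * (cosT g (Real.log T * x / (2 * π)) * (1 - Wt x))) := by ring
    rw [e1, abs_neg, abs_mul (w i * w j), abs_of_nonneg (mul_nonneg (hw i) (hw j)), abs_mul (cosT g _),
      abs_of_nonneg (one_sub_Wt x).1]
    have h1 := (one_sub_Wt x).2
    have h2 := hdec (Real.log T * x / (2 * π))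
    have e2 : x ^ 2 = (2 * π / Real.log T) ^ 2 * (Real.log T * x / (2 * π)) ^ 2 := by
      field_simp
    have h3 : |cosT g (Real.log T * x / (2 * π))| * (1 - Wt x)
        ≤ (8 * (C0 + C6) * 2048 * (2 * π / Real.log T) ^ 2) * Maj (Real.log T * x / (2 * π)) := by
      calc |cosT g (Real.log T * x / (2 * π))| * (1 - Wt x) ≤ |cosT g (Real.log T * x / (2 * π))| * x ^ 2 :=
            mul_le_mul_of_nonneg_left h1 (abs_nonneg _)
        _ = (2 * π / Real.log T) ^ 2 * ((Real.log T * x / (2 * π)) ^ 2 * |cosT g (Real.log T * x / (2 * π))|) := by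
            rw [e2]
            ring
        _ ≤ (2 * π / Real.log T) ^ 2 * (8 * (C0 + C6) * (2048 * Maj (Real.log T * x / (2 * π)))) :=
            mul_le_mul_of_nonneg_left h2 (by positivity)
        _ = _ := by ring
    rw [mul_comm x (Real.log T)]
    calc w i * w j * (|cosT g (Real.log T * x / (2 * π))| * (1 - Wt x))
        ≤ w i * w j * ((8 * (C0 + C6) * 2048 * (2 * π / Real.log T) ^ 2) * Maj (Real.log T * x / (2 * π))) :=
          mul_le_mul_of_nonneg_left h3 (mul_nonneg (hw i) (hw j))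
      _ = _ := by ring
  calc 1 / PC.norm T * |_| ≤ 1 / PC.norm T * _ := mul_le_mul_of_nonneg_left hsum (by positivity)
    _ = _ := by
      simp_rw [← Finset.mul_sum]
      ring

end

end Pool.Agent.H6
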