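import Mathlib
import Pool.Agent.H4.Arch
import Pool.Agent.H4.MeanValue
import Pool.Agent.H4.Mertens
import Pool.Agent.H6.CT2

open MeasureTheory Set Filter Topology
open scoped Real Interval ContDiff

namespace Pool.Agent.H6

theorem primeInput : PrimeInput where
  mean2 := ⟨3, by norm_num, fun N T _ b => H4.meanValue_cos (Finset.Icc 2 N)
    (fun n hn => by simpa using hn) b T⟩
  mean1 := ⟨2, by norm_num, fun N T _ b => H4.abs_integral_sum_cos_le (Finset.Icc 2 N)
    (fun n hn => by simp at hn; exact hn.1) b T⟩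
  mertens := fun _ hc hs => H4.mertens_two hc hs

/-- Facts about the zeros of zeta needed here (valid under RH). -/
structure ZetaFacts : Prop where
  countable : PC.Z.Countable
  hasSum : ∀ a : ℝ, 1 / 2 < a → ∀ t : ℝ, HasSum (fun g : PC.Z => (PC.m g : ℝ) * (a / (a ^ 2 + (t - g) ^ 2)))
    (PC.arch a t - PC.dir a t)

/-- ordinates -/
noncomputable def gZ (i : PC.Z) : ℝ := i
/-- multiplicities -/
noncomputable def wZ (i : PC.Z) : ℝ := PC.m i

lemma wZ_nonneg (i : PC.Z) : 0 ≤ wZ i := by unfold wZ; positivity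

lemma poissonInput (H : ZetaFacts) {a : ℝ} (ha : 1 / 2 < a) : PoissonInput gZ wZ a (PC.arch a) where
  a_pos := by linarith
  w_nonneg := wZ_nonneg
  cont := H4.continuous_arch ha
  hasSum := fun t => H.hasSum a ha t
  summable_dir := by
    have h := ArithmeticFunction.LSeriesSummable_vonMangoldt (s := ((1 / 2 + a : ℝ) : ℂ)) (by
      rw [Complex.ofReal_re]; linarith)
    have h2 := h.norm
    apply h2.congr
    intro n
    rcases Nat.eq_zero_or_pos n with hn | hn
    · simp [hn]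
    · have hn' : (0 : ℝ) < n := by exact_mod_cast hn
      rw [LSeries.norm_term_eq, if_neg hn.ne', Complex.norm_real, Real.norm_eq_abs,
        abs_of_nonneg ArithmeticFunction.vonMangoldt_nonneg, Complex.ofReal_re, Real.rpow_neg hn'.le]
      rfl
  arch1 := by
    obtain ⟨C, _, hC⟩ := H4.arch_bound ha
    exact ⟨C, hC⟩
  arch2 := by
    obtain ⟨C, _, hC⟩ := H4.arch_diff_bound ha
    refine ⟨C, fun t v => ?_⟩
    have := hC t v
    rwa [mul_div_assoc]

lemma finite_ordinates (T : ℝ) : {i : PC.Z | 0 < (i : ℝ) ∧ (i : ℝ) ≤ T}.Finite := by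
  have hinj : Function.Injective (fun i : PC.Z => (1 / 2 + ((i : ℝ) : ℂ) * Complex.I)) := by
    intro i j h
    apply Subtype.ext
    have := congrArg Complex.im h
    simpa using this
  have hK : IsCompact (Metric.closedBall (0 : ℂ) (1 + |T|)) := isCompact_closedBall _ _
  have hfin := hK.inter_riemannZetaZeros_finite
  apply Set.Finite.of_finite_image _ hinj.injOn
  apply hfin.subset
  rintro z ⟨i, hi, rfl⟩
  refine ⟨?_, i.2⟩
  rw [mem_closedBall_zero_iff]
  have h1 : ‖(1 / 2 : ℂ)‖ = 1 / 2 := by norm_num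
  calc ‖(1 / 2 : ℂ) + ((i : ℝ) : ℂ) * Complex.I‖ ≤ ‖(1 / 2 : ℂ)‖ + ‖((i : ℝ) : ℂ) * Complex.I‖ := norm_add_le _ _
    _ ≤ 1 + |T| := by
        rw [h1, norm_mul, Complex.norm_I, mul_one, Complex.norm_real, Real.norm_eq_abs,
          abs_of_pos hi.1]
        have := hi.2
        have := le_abs_self T
        linarith

/-- The zeros with ordinate in `(0, T]`. -/
noncomputable def FZ (T : ℝ) : Finset PC.Z := (finite_ordinates T).toFinset

lemma mem_FZ (T : ℝ) (i : PC.Z) : i ∈ FZ T ↔ 0 < gZ i ∧ gZ i ≤ T := by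
  unfold FZ
  rw [Set.Finite.mem_toFinset]
  rfl

theorem inputs (H : ZetaFacts) : ∃ CR, Inputs gZ wZ FZ CR := by
  have hP := poissonInput H (a := 1) (by norm_num)
  obtain ⟨C, hC0, hC⟩ := hP.bound_P
  have e : ∀ t i, wZ i * pk 1 (t - gZ i) = wZ i / (1 + (t - gZ i) ^ 2) := by
    intro t i
    unfold pk
    rw [one_pow]
    ring
  have hs : ∀ t, HasSum (fun i => wZ i / (1 + (t - gZ i) ^ 2)) (PC.arch 1 t - PoissonInput.DD 1 t) := by
    intro t
    have := hP.hasSum t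
    simp_rw [e] at this
    exact this
  refine ⟨C, ⟨⟨wZ_nonneg, mem_FZ, fun t => (hs t).summable, fun t => ?_⟩, primeInput, fun a ha => ⟨_, poissonInput H ha⟩⟩⟩
  rw [(hs t).tsum_eq]
  exact (le_abs_self _).trans (hC t)

/-- Under RH the nontrivial zeros are on the critical line. -/
lemma re_eq_half (RH : RiemannHypothesis) {ρ : ℂ} (h0 : riemannZeta ρ = 0) (h1 : 0 < ρ.re) (h2 : ρ.re < 1) :
    ρ = 1 / 2 + (ρ.im : ℂ) * Complex.I := by
  have h3 := RH ρ h0 (by
    rintro ⟨n, hn⟩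
    have := congrArg Complex.re hn
    simp at this
    have h4 : (0 : ℝ) ≤ n := by positivity
    nlinarith) (by
    intro h
    rw [h] at h2
    simp at h2)
  apply Complex.ext
  · simp [h3]
  · simp

/-- the pair of complex zeros attached to a pair of ordinates -/
noncomputable def toPair (p : PC.Z × PC.Z) : ℂ × ℂ :=
  (1 / 2 + ((p.1 : ℝ) : ℂ) * Complex.I, 1 / 2 + ((p.2 : ℝ) : ℂ) * Complex.I)

lemma toPair_injective : Function.Injective toPair := by
  rintro ⟨i, j⟩ ⟨i', j'⟩ h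
  unfold toPair at h
  simp only [Prod.mk.injEq] at h
  have h1 := congrArg Complex.im h.1
  have h2 := congrArg Complex.im h.2
  simp at h1 h2
  rw [Prod.mk.injEq]
  exact ⟨Subtype.ext h1, Subtype.ext h2⟩

open Classical in
lemma pairSet_eq (RH : RiemannHypothesis) (T α β : ℝ) :
    PC.pairSet T α β = toPair '' (((FZ T ×ˢ FZ T).filter (fun p : PC.Z × PC.Z =>
      2 * π * α / Real.log T ≤ gZ p.1 - gZ p.2 ∧ gZ p.1 - gZ p.2 ≤ 2 * π * β / Real.log T) : Finset (PC.Z × PC.Z)) : Set (PC.Z × PC.Z)) := by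
  ext ⟨ρ, ρ'⟩
  simp only [PC.pairSet, Set.mem_ofPred_eq, Set.mem_image, Finset.coe_filter, Finset.mem_product, mem_FZ]
  constructor
  · rintro ⟨h1, h2, h3, h4⟩
    obtain ⟨a1, a2, a3, a4, a5⟩ := h1
    obtain ⟨b1, b2, b3, b4, b5⟩ := h2
    have e1 := re_eq_half RH a1 a2 a3
    have e2 := re_eq_half RH b1 b2 b3
    have z1 : ρ.im ∈ PC.Z := by unfold PC.Z; simp only [Set.mem_ofPred_eq]; rw [← e1]; exact a1
    have z2 : ρ'.im ∈ PC.Z := by unfold PC.Z; simp only [Set.mem_ofPred_eq]; rw [← e2]; exact b1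
    refine ⟨(⟨ρ.im, z1⟩, ⟨ρ'.im, z2⟩), ⟨⟨⟨a4, a5⟩, ⟨b4, b5⟩⟩, h3, h4⟩, ?_⟩
    unfold toPair
    simp only
    rw [← e1, ← e2]
  · rintro ⟨⟨i, j⟩, ⟨⟨⟨a1, a2⟩, ⟨b1, b2⟩⟩, h3, h4⟩, h⟩
    unfold toPair at h
    simp only [Prod.mk.injEq] at h
    obtain ⟨rfl, rfl⟩ := h
    have him : ∀ i : PC.Z, ((1 / 2 : ℂ) + ((i : ℝ) : ℂ) * Complex.I).im = gZ i := by
      intro i; simp [gZ]
    have hre : ∀ i : PC.Z, ((1 / 2 : ℂ) + ((i : ℝ) : ℂ) * Complex.I).re = 1 / 2 := by
      intro i; simp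
    refine ⟨⟨i.2, ?_, ?_, ?_, ?_⟩, ⟨j.2, ?_, ?_, ?_, ?_⟩, ?_, ?_⟩
    · rw [hre]; norm_num
    · rw [hre]; norm_num
    · rw [him]; exact a1
    · rw [him]; exact a2
    · rw [hre]; norm_num
    · rw [hre]; norm_num
    · rw [him]; exact b1
    · rw [him]; exact b2
    · rw [him, him]; exact h3
    · rw [him, him]; exact h4

open Classical in
/-- `N(T; α, β)` as a double sum over ordinates. -/
theorem pairCount_eq (RH : RiemannHypothesis) (T α β : ℝ) :
    PC.pairCount T α β = ∑ i ∈ FZ T, ∑ j ∈ FZ T,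
      if 2 * π * α / Real.log T ≤ gZ i - gZ j ∧ gZ i - gZ j ≤ 2 * π * β / Real.log T then wZ i * wZ j else 0 := by
  unfold PC.pairCount
  rw [pairSet_eq RH, finsum_mem_image toPair_injective.injOn, finsum_mem_coe_finset, Finset.sum_filter,
    Finset.sum_product]
  rfl

end Pool.Agent.H6
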