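import Mathlib
import Pool.Agent.H4.Arch
import Pool.Agent.H6.Q

open MeasureTheory Set Filter Topology
open scoped Real Interval

namespace Pool.Agent.H6

/-- The Poisson parameters of the archimedean factor. -/
noncomputable def bj (a : ℝ) (j : ℕ) : ℝ := 2 * ((j : ℝ) + 1) + 1 / 2 + a

lemma bj_pos {a : ℝ} (ha : 1 / 2 < a) (j : ℕ) : 0 < bj a j := by
  unfold bj; positivity

/-- The nonnegative summands. -/
noncomputable def pd (a : ℝ) (j : ℕ) (t : ℝ) : ℝ := pk (bj a j) 0 - pk (bj a j) t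

lemma pd_nonneg {a : ℝ} (ha : 1 / 2 < a) (j : ℕ) (t : ℝ) : 0 ≤ pd a j t := by
  unfold pd pk
  have h := bj_pos ha j
  rw [sub_nonneg]
  apply div_le_div_of_nonneg_left h.le (by positivity)
  nlinarith [sq_nonneg t]

lemma continuous_pd {a : ℝ} (ha : 1 / 2 < a) (j : ℕ) : Continuous (pd a j) := by
  unfold pd
  have := continuous_pk (bj_pos ha j)
  fun_prop

lemma re_inv_half {a t : ℝ} (j : ℕ) :
    ((H4.sp a t / 2 + j)⁻¹ : ℂ).re = 2 * pk (1 / 2 + a + 2 * j) t := by
  have h1 : (H4.sp a t / 2 + j : ℂ) = (((1 / 2 + a + 2 * j) / 2 : ℝ) : ℂ) + ((t / 2 : ℝ) : ℂ) * Complex.I := by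
    unfold H4.sp
    push_cast
    ring
  rw [h1, Complex.inv_re, Complex.normSq_add_mul_I]
  simp only [Complex.add_re, Complex.ofReal_re, Complex.mul_re, Complex.I_re, mul_zero, Complex.ofReal_im,
    Complex.I_im, mul_one, sub_self, add_zero]
  unfold pk
  rcases eq_or_ne ((1 / 2 + a + 2 * (j : ℝ)) ^ 2 + t ^ 2) 0 with h | h
  · have : ((1 / 2 + a + 2 * (j : ℝ)) / 2) ^ 2 + (t / 2) ^ 2 = 0 := by
      have : ((1 / 2 + a + 2 * (j : ℝ)) / 2) ^ 2 + (t / 2) ^ 2 = ((1 / 2 + a + 2 * (j : ℝ)) ^ 2 + t ^ 2) / 4 := by ring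
      rw [this, h]; simp
    rw [this, h]; simp
  · have h2 : ((1 / 2 + a + 2 * (j : ℝ)) / 2) ^ 2 + (t / 2) ^ 2 = ((1 / 2 + a + 2 * (j : ℝ)) ^ 2 + t ^ 2) / 4 := by ring
    rw [h2]
    field_simp
    ring

/-- The constant in the expansion. -/
noncomputable def ka (a : ℝ) : ℝ :=
  -Real.log π / 2 + (Complex.digamma (H4.sp a 0 / 2)).re / 2 + pk (1 / 2 + a) 0

theorem arch_tendsto {a : ℝ} (ha : 1 / 2 < a) (t : ℝ) :
    Tendsto (fun n : ℕ => ∑ j ∈ Finset.range n, pd a j t) atTop
      (𝓝 (PC.arch a t - ka a - pk (a - 1 / 2) t)) := by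
  have hs : ∀ t, 0 < (H4.sp a t / 2).re := by
    intro t
    have : (H4.sp a t / 2).re = (1 / 2 + a) / 2 := by
      rw [Complex.div_ofNat_re, H4.sp_re]
    rw [this]; linarith
  have hre : ∀ t, Tendsto (fun n : ℕ => Real.log n - ∑ j ∈ Finset.range (n + 1), 2 * pk (1 / 2 + a + 2 * j) t) atTop
      (𝓝 (Complex.digamma (H4.sp a t / 2)).re) := by
    intro t
    have h1 := (Complex.continuous_re.tendsto _).comp (H4.digamma_tendsto (hs t))
    apply h1.congr
    intro n
    simp only [Function.comp, Complex.sub_re, Complex.re_sum]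
    congr 1
    · rw [← Complex.natCast_log, Complex.ofReal_re]
    · apply Finset.sum_congr rfl
      intro j _
      exact re_inv_half j
  have h2 := ((hre t).sub (hre 0)).const_mul (1 / 2)
  have h3 : ∀ n : ℕ, (1 / 2) * ((Real.log n - ∑ j ∈ Finset.range (n + 1), 2 * pk (1 / 2 + a + 2 * j) t)
      - (Real.log n - ∑ j ∈ Finset.range (n + 1), 2 * pk (1 / 2 + a + 2 * j) 0))
      = (∑ j ∈ Finset.range n, pd a j t) + (pk (1 / 2 + a) 0 - pk (1 / 2 + a) t) := by
    intro n
    rw [← Finset.mul_sum, ← Finset.mul_sum, Finset.sum_range_succ', Finset.sum_range_succ']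
    unfold pd bj
    rw [Finset.sum_sub_distrib]
    have e : ∀ x, ∑ j ∈ Finset.range n, pk (1 / 2 + a + 2 * ((j + 1 : ℕ) : ℝ)) x
        = ∑ j ∈ Finset.range n, pk (2 * ((j : ℝ) + 1) + 1 / 2 + a) x := by
      intro x
      apply Finset.sum_congr rfl
      intro j _
      congr 1
      push_cast
      ring
    rw [e, e]
    simp only [Nat.cast_zero, mul_zero, add_zero]
    ring
  simp_rw [h3] at h2
  have h4 := h2.sub_const (pk (1 / 2 + a) 0 - pk (1 / 2 + a) t)
  simp only [add_sub_cancel_right] at h4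
  convert h4 using 2
  rw [H4.arch_eq ha]
  have e1 : (1 / H4.sp a t).re = pk (1 / 2 + a) t := by
    have h1 : (H4.sp a t : ℂ) = ((1 / 2 + a : ℝ) : ℂ) + (t : ℂ) * Complex.I := by
      unfold H4.sp; push_cast; ring
    rw [one_div, h1, Complex.inv_re, Complex.normSq_add_mul_I]
    simp [pk]
  have e2 : (1 / (H4.sp a t - 1)).re = pk (a - 1 / 2) t := by
    have h1 : (H4.sp a t - 1 : ℂ) = ((a - 1 / 2 : ℝ) : ℂ) + (t : ℂ) * Complex.I := by
      unfold H4.sp; push_cast; ring
    rw [one_div, h1, Complex.inv_re, Complex.normSq_add_mul_I]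
    simp [pk]
  rw [e1, e2]
  unfold ka
  ring

namespace TestFn

variable {s : ℝ} {φ : ℝ → ℝ}

/-- `q * pk b` for arbitrary `b > 0`. -/
lemma integral_q_pk' (hφ : TestFn s φ) (hs : 0 < s) {a L : ℝ} (ha : 0 < a) (hL : 0 < L) {b : ℝ} (hb : 0 < b) (t : ℝ) :
    ∫ u, q φ a L u * pk b (t - u)
      = (2 / L) * ∫ v in Ioi (0 : ℝ), Real.exp (-(b * v)) * (HB φ (a * L) (v / L) * Real.cos (v * t)) := by
  have hq := hφ.integrable_q hs ha hL
  have hqc := hφ.continuous_q a L
  have h1 : ∀ u, q φ a L u * pk b (t - u)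
      = ∫ v in Ioi (0 : ℝ), q φ a L u * (Real.exp (-(b * v)) * Real.cos (v * (t - u))) := by
    intro u
    rw [integral_const_mul, pk_eq hb]
  simp_rw [h1]
  have hexp : Integrable (fun v : ℝ => Real.exp (-(b * v))) (volume.restrict (Ioi 0)) := by
    have := exp_neg_integrableOn_Ioi 0 hb
    simp only [neg_mul] at this
    exact this
  rw [integral_integral_swap, ← integral_const_mul]
  · congr 1
    ext v
    have e : ∀ u, q φ a L u * (Real.exp (-(b * v)) * Real.cos (v * (t - u)))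
        = Real.exp (-(b * v)) * (q φ a L u * Real.cos (v * (t - u))) := by
      intro u; ring
    simp_rw [e]
    rw [integral_const_mul, integral_mul_cos_sub hq (q_even φ a L), hφ.integral_q_cos hs ha hL]
    ring
  · have hb' : Integrable (fun p : ℝ × ℝ => ‖q φ a L p.1‖ * Real.exp (-(b * p.2))) (volume.prod (volume.restrict (Ioi 0))) :=
      hq.norm.mul_prod hexp
    apply hb'.mono'
    · have hc : Continuous (Function.uncurry fun (u v : ℝ) => q φ a L u * (Real.exp (-(b * v)) * Real.cos (v * (t - u)))) := by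
        unfold Function.uncurry
        fun_prop
      exact hc.aestronglyMeasurable
    · apply ae_of_all
      rintro ⟨u, v⟩
      simp only [Function.uncurry]
      rw [norm_mul, norm_mul, Real.norm_of_nonneg (Real.exp_pos _).le]
      apply mul_le_mul_of_nonneg_left _ (norm_nonneg _)
      apply mul_le_of_le_one_right (Real.exp_pos _).le
      rw [Real.norm_eq_abs]
      exact Real.abs_cos_le_one _

end TestFn

end Pool.Agent.H6
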