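import Mathlib

open MeasureTheory Set Filter Topology
open scoped Real

namespace Pool.Agent.H6

/-- Helly's selection theorem. -/
theorem helly {M : ℕ → ℝ → ℝ} (hmono : ∀ n, Monotone (M n)) (hb : ∀ β, ∃ B, ∀ n, |M n β| ≤ B) :
    ∃ (L : ℝ → ℝ) (φ : ℕ → ℕ), StrictMono φ ∧ Monotone L ∧
      (∀ β, ContinuousAt L β → Tendsto (fun n => M (φ n) β) atTop (𝓝 (L β))) ∧
      (∀ᵐ β, Tendsto (fun n => M (φ n) β) atTop (𝓝 (L β))) := by
  choose B hB using hb
  have hK : IsCompact (Set.pi univ (fun q : ℚ => Icc (-(B q)) (B q))) :=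
    isCompact_univ_pi fun q => isCompact_Icc
  have hx : ∀ n, (fun q : ℚ => M n q) ∈ Set.pi univ (fun q : ℚ => Icc (-(B q)) (B q)) := by
    intro n q _
    exact abs_le.mp (hB q n)
  obtain ⟨a, _, φ, hφ, hlim⟩ := hK.tendsto_subseq hx
  rw [tendsto_pi_nhds] at hlim
  have hlim' : ∀ q : ℚ, Tendsto (fun n => M (φ n) q) atTop (𝓝 (a q)) := hlim
  have ha : Monotone a := by
    intro q q' h
    exact le_of_tendsto_of_tendsto' (hlim' q) (hlim' q') (fun n => hmono _ (by exact_mod_cast h))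
  set L : ℝ → ℝ := fun β => sInf (a '' {q : ℚ | β < q}) with hL
  have hbdd : ∀ β : ℝ, BddBelow (a '' {q : ℚ | β < q}) := by
    intro β
    obtain ⟨q0, hq0⟩ := exists_rat_lt β
    refine ⟨a q0, ?_⟩
    rintro _ ⟨q, hq, rfl⟩
    apply ha
    have : (q0 : ℝ) < q := hq0.trans hq
    exact_mod_cast this.le
  have hne : ∀ β : ℝ, (a '' {q : ℚ | β < q}).Nonempty := by
    intro β
    obtain ⟨q0, hq0⟩ := exists_rat_gt β
    exact ⟨a q0, q0, hq0, rfl⟩
  have hLmono : Monotone L := by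
    intro β β' h
    apply csInf_le_csInf (hbdd β) (hne β')
    apply image_mono
    intro q hq
    exact lt_of_le_of_lt h hq
  have hLle : ∀ β : ℝ, ∀ q : ℚ, β < q → L β ≤ a q := fun β q h => csInf_le (hbdd β) ⟨q, h, rfl⟩
  have hconv : ∀ β, ContinuousAt L β → Tendsto (fun n => M (φ n) β) atTop (𝓝 (L β)) := by
    intro β hc
    rw [Metric.tendsto_atTop]
    intro ε hε
    -- upper
    obtain ⟨_, ⟨q', hq', rfl⟩, hq'2⟩ := exists_lt_of_csInf_lt (hne β) (show sInf (a '' {q : ℚ | β < q}) < L β + ε / 2 by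
      change L β < L β + ε / 2; linarith)
    -- lower
    rw [Metric.continuousAt_iff] at hc
    obtain ⟨δ, hδ, hc⟩ := hc (ε / 2) (by positivity)
    have h1 := hc (x := β - δ / 2) (by rw [Real.dist_eq]; rw [abs_lt]; constructor <;> linarith)
    rw [Real.dist_eq, abs_lt] at h1
    obtain ⟨q, hq1, hq2⟩ := exists_rat_btwn (show β - δ / 2 < β by linarith)
    have h2 := hLle _ q hq1
    have h3 := hlim' q
    have h4 := hlim' q'
    have h5 : ∀ᶠ n in atTop, a q - ε / 2 < M (φ n) q := h3.eventually (lt_mem_nhds (by linarith))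
    have h6 : ∀ᶠ n in atTop, M (φ n) q' < a q' + ε / 2 := h4.eventually (gt_mem_nhds (by linarith))
    obtain ⟨N, hN⟩ := eventually_atTop.mp (h5.and h6)
    refine ⟨N, fun n hn => ?_⟩
    obtain ⟨h7, h8⟩ := hN n hn
    have h9 := hmono (φ n) hq2.le
    have h10 := hmono (φ n) (show β ≤ q' from (show β < (q' : ℝ) from hq').le)
    rw [Real.dist_eq, abs_lt]
    constructor <;> linarith
  refine ⟨L, φ, hφ, hLmono, hconv, ?_⟩
  have hcount := hLmono.countable_not_continuousAt
  have := hcount.ae_notMem volume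
  filter_upwards [this] with β hβ
  apply hconv
  by_contra h
  exact hβ h

end Pool.Agent.H6
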