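import Mathlib

open MeasureTheory ProbabilityTheory Set Filter Topology
open scoped ENNReal

namespace Pool.Agent.H6

/-- The Taylor series of `2 cosh` as an `ENNReal`-valued sum. -/
lemma tsum_cosh (y : ℝ) :
    ENNReal.ofReal (2 * Real.cosh y)
      = ∑' k : ℕ, ENNReal.ofReal (2 / ((2 * k).factorial : ℝ)) * ENNReal.ofReal (y ^ (2 * k)) := by
  have h := (Real.hasSum_cosh y).mul_left 2
  have hnn : ∀ k : ℕ, 0 ≤ 2 * (y ^ (2 * k) / ((2 * k).factorial : ℝ)) := by
    intro k
    have : 0 ≤ y ^ (2 * k) := by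
      rw [pow_mul]; positivity
    positivity
  rw [← h.tsum_eq, ENNReal.ofReal_tsum_of_nonneg hnn h.summable]
  congr 1
  ext k
  rw [← ENNReal.ofReal_mul (by positivity)]
  congr 1
  ring

lemma lintegral_cosh (μ : Measure ℝ) (t : ℝ) :
    ∫⁻ x, ENNReal.ofReal (2 * Real.cosh (t * x)) ∂μ
      = ∑' k : ℕ, ENNReal.ofReal (2 / ((2 * k).factorial : ℝ)) * (ENNReal.ofReal (t ^ (2 * k)) *
          ∫⁻ x, ENNReal.ofReal (x ^ (2 * k)) ∂μ) := by
  simp_rw [tsum_cosh]
  rw [lintegral_tsum]
  · congr 1
    ext k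
    rw [lintegral_const_mul _ (by fun_prop)]
    congr 1
    rw [← lintegral_const_mul _ (by fun_prop)]
    congr 1
    ext x
    have : 0 ≤ t ^ (2 * k) := by rw [pow_mul]; positivity
    rw [← ENNReal.ofReal_mul this, mul_pow]
  · intro k
    fun_prop

/-- symmetrised measure -/
noncomputable def symm (μ : Measure ℝ) : Measure ℝ := μ + μ.map Neg.neg

instance (μ : Measure ℝ) [IsFiniteMeasure μ] : IsFiniteMeasure (symm μ) := by
  unfold symm; infer_instance

lemma lintegral_exp_symm (μ : Measure ℝ) (t : ℝ) :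
    ∫⁻ x, ENNReal.ofReal (Real.exp (t * x)) ∂(symm μ)
      = ∫⁻ x, ENNReal.ofReal (2 * Real.cosh (t * x)) ∂μ := by
  unfold symm
  rw [lintegral_add_measure, lintegral_map (by fun_prop) (by fun_prop), ← lintegral_add_left (by fun_prop)]
  congr 1
  ext x
  rw [← ENNReal.ofReal_add (by positivity) (by positivity), Real.cosh_eq]
  congr 1
  ring_nf

/-- Two finite measures on the positive half line with the same even moments, one of which
integrates some `cosh (c x)`, are equal. -/
theorem eq_of_even_moments {μ ν : Measure ℝ} [IsFiniteMeasure μ] [IsFiniteMeasure ν]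
    (hμ0 : μ (Iic 0) = 0) (hν0 : ν (Iic 0) = 0)
    (hmom : ∀ k : ℕ, ∫⁻ x, ENNReal.ofReal (x ^ (2 * k)) ∂μ = ∫⁻ x, ENNReal.ofReal (x ^ (2 * k)) ∂ν)
    {c : ℝ} (hc : 0 < c) (hexp : ∫⁻ x, ENNReal.ofReal (2 * Real.cosh (c * x)) ∂μ ≠ ⊤) : μ = ν := by
  have key : ∀ t, ∫⁻ x, ENNReal.ofReal (Real.exp (t * x)) ∂(symm μ)
      = ∫⁻ x, ENNReal.ofReal (Real.exp (t * x)) ∂(symm ν) := by
    intro t
    rw [lintegral_exp_symm, lintegral_exp_symm, lintegral_cosh, lintegral_cosh]
    congr 1
    ext k
    rw [hmom k]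
  have hmgf : mgf id (symm μ) = mgf id (symm ν) := by
    ext t
    unfold mgf
    rw [integral_eq_lintegral_of_nonneg_ae (ae_of_all _ fun x => by positivity)
      (by fun_prop), integral_eq_lintegral_of_nonneg_ae (ae_of_all _ fun x => by positivity)
      (by fun_prop)]
    simp only [id]
    rw [key t]
  have hzero : symm μ = 0 ↔ symm ν = 0 := by
    have h0 := key 0
    simp only [zero_mul, Real.exp_zero, ENNReal.ofReal_one, lintegral_const, one_mul] at h0
    rw [← Measure.measure_univ_eq_zero, h0, Measure.measure_univ_eq_zero]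
  have hsub : Ioo (-c) c ⊆ integrableExpSet id (symm μ) := by
    intro t ht
    simp only [integrableExpSet, Set.mem_ofPred_eq, id]
    refine ⟨by fun_prop, ?_⟩
    rw [hasFiniteIntegral_iff_ofReal (ae_of_all _ fun x => by positivity), lintegral_exp_symm]
    refine lt_of_le_of_lt (lintegral_mono fun x => ?_) (lt_top_iff_ne_top.mpr hexp)
    apply ENNReal.ofReal_le_ofReal
    have : Real.cosh (t * x) ≤ Real.cosh (c * x) := by
      rw [Real.cosh_le_cosh, abs_mul, abs_mul]
      apply mul_le_mul_of_nonneg_right _ (abs_nonneg x)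
      rw [abs_of_pos hc]
      exact (abs_lt.mpr ht).le
    linarith
  have h0int : (0 : ℝ) ∈ interior (integrableExpSet id (symm μ)) := by
    apply mem_interior.mpr
    exact ⟨Ioo (-c) c, hsub, isOpen_Ioo, by simp [hc]⟩
  have hEq := eqOn_complexMGF_of_mgf' hmgf hzero
  have hchar : charFun (symm μ) = charFun (symm ν) := by
    ext t
    have h1 : complexMGF id (symm μ) (t * Complex.I) = complexMGF id (symm ν) (t * Complex.I) := by
      apply hEq
      simpa using h0int
    rwa [complexMGF_id_mul_I, complexMGF_id_mul_I] at h1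
  have hsymm : symm μ = symm ν := Measure.ext_of_charFun hchar
  have hres : ∀ ρ : Measure ℝ, ρ (Iic 0) = 0 → ∀ A, MeasurableSet A → ρ A = symm ρ (A ∩ Ioi 0) := by
    intro ρ hρ A hA
    unfold symm
    rw [Measure.add_apply, Measure.map_apply (by fun_prop) (hA.inter measurableSet_Ioi)]
    have h1 : ρ (Neg.neg ⁻¹' (A ∩ Ioi 0)) = 0 := by
      apply measure_mono_null _ hρ
      intro x hx
      simp only [mem_preimage, mem_inter_iff, mem_Ioi] at hx
      simp only [mem_Iic]
      linarith [hx.2]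
    rw [h1, add_zero]
    apply le_antisymm
    · calc ρ A ≤ ρ ((A ∩ Ioi 0) ∪ Iic 0) := by
            apply measure_mono
            intro x hx
            rcases lt_or_ge 0 x with h | h
            · left; exact ⟨hx, h⟩
            · right; exact h
        _ ≤ ρ (A ∩ Ioi 0) + ρ (Iic 0) := measure_union_le _ _
        _ = ρ (A ∩ Ioi 0) := by rw [hρ, add_zero]
    · exact measure_mono inter_subset_left
  ext A hA
  rw [hres μ hμ0 A hA, hres ν hν0 A hA, hsymm]

end Pool.Agent.H6
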