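import Mathlib
import Pool.Agent.H6.Moments

open MeasureTheory ProbabilityTheory Set Filter Topology
open scoped ENNReal

namespace Pool.Agent.H6

/-- Lebesgue measure on the positive half line. -/
noncomputable abbrev vpos : Measure ℝ := volume.restrict (Ioi (0 : ℝ))

lemma lintegral_pos_neg_eq {w E : ℝ → ℝ}
    (hw0 : ∀ x, 0 < x → 0 ≤ w x) (hint : Integrable (fun x => w x * E x) vpos)
    (hzero : ∫ x, w x * E x ∂vpos = 0) :
    ∫⁻ x, ENNReal.ofReal (w x) * ENNReal.ofReal (E x) ∂vpos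
      = ∫⁻ x, ENNReal.ofReal (w x) * ENNReal.ofReal (-(E x)) ∂vpos := by
  have h1 : ∫⁻ x, ENNReal.ofReal (w x) * ENNReal.ofReal (E x) ∂vpos
      = ∫⁻ x, ENNReal.ofReal (w x * E x) ∂vpos := by
    apply lintegral_congr_ae
    filter_upwards [ae_restrict_mem measurableSet_Ioi] with x hx
    rw [ENNReal.ofReal_mul (hw0 x hx)]
  have h2 : ∫⁻ x, ENNReal.ofReal (w x) * ENNReal.ofReal (-(E x)) ∂vpos
      = ∫⁻ x, ENNReal.ofReal (-(w x * E x)) ∂vpos := by
    apply lintegral_congr_ae
    filter_upwards [ae_restrict_mem measurableSet_Ioi] with x hx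
    rw [← mul_neg, ENNReal.ofReal_mul (hw0 x hx)]
  rw [h1, h2]
  have h3 := integral_eq_lintegral_pos_part_sub_lintegral_neg_part hint
  rw [hzero] at h3
  have hf1 : ∫⁻ x, ENNReal.ofReal (w x * E x) ∂vpos ≠ ⊤ := by
    have := hint.lintegral_lt_top
    exact this.ne
  have hf2 : ∫⁻ x, ENNReal.ofReal (-(w x * E x)) ∂vpos ≠ ⊤ := by
    have := hint.neg.lintegral_lt_top
    exact this.ne
  rw [← ENNReal.toReal_eq_toReal_iff' hf1 hf2]
  linarith

lemma moments_le {κ E : ℝ → ℝ} (hκc : Continuous κ) (hκ0 : ∀ x, 0 ≤ κ x) (hκ1 : ∀ x, κ x ≤ 1)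
    (hκz : κ 0 = 1) (k : ℕ) {R0 : ℝ} {A B : ℝ → ℝ≥0∞} (hA : Measurable A)
    (hK : ∀ R, R0 ≤ R → ∫⁻ x, ENNReal.ofReal (x ^ (2 * k) * κ (x / R)) * A x ∂vpos
      = ∫⁻ x, ENNReal.ofReal (x ^ (2 * k) * κ (x / R)) * B x ∂vpos) :
    ∫⁻ x, ENNReal.ofReal (x ^ (2 * k)) * A x ∂vpos ≤ ∫⁻ x, ENNReal.ofReal (x ^ (2 * k)) * B x ∂vpos := by
  have hlim : ∀ x : ℝ, Tendsto (fun n : ℕ => ENNReal.ofReal (x ^ (2 * k) * κ (x / (R0 + n))) * A x)
      atTop (𝓝 (ENNReal.ofReal (x ^ (2 * k)) * A x)) := by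
    intro x
    have h1 : Tendsto (fun n : ℕ => x / (R0 + n)) atTop (𝓝 0) := by
      apply Tendsto.const_div_atTop
      exact tendsto_atTop_add_const_left _ _ tendsto_natCast_atTop_atTop
    have h2 : Tendsto (fun n : ℕ => κ (x / (R0 + n))) atTop (𝓝 1) := by
      rw [← hκz]
      exact (hκc.tendsto 0).comp h1
    have h3 : Tendsto (fun n : ℕ => x ^ (2 * k) * κ (x / (R0 + n))) atTop (𝓝 (x ^ (2 * k))) := by
      simpa using h2.const_mul (x ^ (2 * k))
    have h4 := ENNReal.tendsto_ofReal h3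
    by_cases hx : x ^ (2 * k) = 0
    · simp [hx]
    · apply ENNReal.Tendsto.mul_const h4
      left
      simp only [ne_eq, ENNReal.ofReal_eq_zero, not_le]
      have : 0 ≤ x ^ (2 * k) := by rw [pow_mul]; positivity
      exact lt_of_le_of_ne this (Ne.symm hx)
  calc ∫⁻ x, ENNReal.ofReal (x ^ (2 * k)) * A x ∂vpos
      = ∫⁻ x, liminf (fun n : ℕ => ENNReal.ofReal (x ^ (2 * k) * κ (x / (R0 + n))) * A x) atTop ∂vpos := by
        congr 1
        ext x
        rw [(hlim x).liminf_eq]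
    _ ≤ liminf (fun n : ℕ => ∫⁻ x, ENNReal.ofReal (x ^ (2 * k) * κ (x / (R0 + n))) * A x ∂vpos) atTop := by
        apply lintegral_liminf_le
        intro n
        fun_prop
    _ ≤ liminf (fun n : ℕ => ∫⁻ x, ENNReal.ofReal (x ^ (2 * k)) * B x ∂vpos) atTop := by
        apply liminf_le_liminf
        · filter_upwards with n
          rw [hK (R0 + n) (by simp)]
          apply lintegral_mono
          intro x
          apply mul_le_mul_left
          apply ENNReal.ofReal_le_ofReal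
          have : 0 ≤ x ^ (2 * k) := by rw [pow_mul]; positivity
          exact mul_le_of_le_one_right this (hκ1 _)
        · isBoundedDefault
        · isBoundedDefault
    _ = ∫⁻ x, ENNReal.ofReal (x ^ (2 * k)) * B x ∂vpos := by simp

/-- **Rigidity lemma.** A function on the positive half line of moderate growth which is
orthogonal to all `x^(2k) κ(x/R)` (large `R`) and whose positive part is exponentially small,
vanishes almost everywhere. -/
theorem rigidity {κ E : ℝ → ℝ} (hκc : Continuous κ) (hκ0 : ∀ x, 0 ≤ κ x) (hκ1 : ∀ x, κ x ≤ 1)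
    (hκz : κ 0 = 1) (hE : Measurable E) {R0 : ℝ}
    (hint : ∀ k : ℕ, ∀ R, R0 ≤ R → Integrable (fun x => (x ^ (2 * k) * κ (x / R)) * E x) vpos)
    (hK : ∀ k : ℕ, ∀ R, R0 ≤ R → ∫ x, (x ^ (2 * k) * κ (x / R)) * E x ∂vpos = 0)
    {C c : ℝ} (hc : 0 < c) (hup : ∀ᵐ x ∂vpos, E x ≤ C * Real.exp (-(c * x))) :
    E =ᵐ[vpos] 0 := by
  set μ : Measure ℝ := vpos.withDensity (fun x => ENNReal.ofReal (E x)) with hμ
  set ν : Measure ℝ := vpos.withDensity (fun x => ENNReal.ofReal (-(E x))) with hν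
  have hmE : Measurable (fun x => ENNReal.ofReal (E x)) := by fun_prop
  have hmE' : Measurable (fun x => ENNReal.ofReal (-(E x))) := by fun_prop
  have hbase : ∀ k : ℕ, ∀ R, R0 ≤ R →
      ∫⁻ x, ENNReal.ofReal (x ^ (2 * k) * κ (x / R)) * ENNReal.ofReal (E x) ∂vpos
      = ∫⁻ x, ENNReal.ofReal (x ^ (2 * k) * κ (x / R)) * ENNReal.ofReal (-(E x)) ∂vpos := by
    intro k R hR
    apply lintegral_pos_neg_eq _ (hint k R hR) (hK k R hR)
    · intro x hx
      have : 0 ≤ x ^ (2 * k) := by rw [pow_mul]; positivity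
      exact mul_nonneg this (hκ0 _)
  have hmom : ∀ k : ℕ, ∫⁻ x, ENNReal.ofReal (x ^ (2 * k)) ∂μ
      = ∫⁻ x, ENNReal.ofReal (x ^ (2 * k)) ∂ν := by
    intro k
    rw [hμ, hν, lintegral_withDensity_eq_lintegral_mul _ hmE (by fun_prop),
      lintegral_withDensity_eq_lintegral_mul _ hmE' (by fun_prop)]
    have e1 : ∀ F : ℝ → ℝ≥0∞, ∫⁻ x, (F * fun x => ENNReal.ofReal (x ^ (2 * k))) x ∂vpos
        = ∫⁻ x, ENNReal.ofReal (x ^ (2 * k)) * F x ∂vpos := by
      intro F
      congr 1
      ext x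
      simp [mul_comm]
    rw [e1, e1]
    apply le_antisymm
    · exact moments_le (E := E) hκc hκ0 hκ1 hκz k hmE (fun R hR => hbase k R hR)
    · exact moments_le (E := E) hκc hκ0 hκ1 hκz k hmE' (fun R hR => (hbase k R hR).symm)
  have hC : 0 ≤ |C| := abs_nonneg C
  have hexpint : ∀ b : ℝ, b < c → ∫⁻ x, ENNReal.ofReal (Real.exp (b * x)) * ENNReal.ofReal (E x) ∂vpos < ⊤ := by
    intro b hb
    have h1 : Integrable (fun x => |C| * Real.exp (-(c - b) * x)) vpos := by
      apply Integrable.const_mul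
      exact integrableOn_exp_mul_Ioi (by linarith) 0
    calc ∫⁻ x, ENNReal.ofReal (Real.exp (b * x)) * ENNReal.ofReal (E x) ∂vpos
        ≤ ∫⁻ x, ENNReal.ofReal (|C| * Real.exp (-(c - b) * x)) ∂vpos := by
          apply lintegral_mono_ae
          filter_upwards [hup] with x h2
          rw [← ENNReal.ofReal_mul (by positivity)]
          apply ENNReal.ofReal_le_ofReal
          have h3 : E x ≤ |C| * Real.exp (-(c * x)) :=
            h2.trans (mul_le_mul_of_nonneg_right (le_abs_self C) (by positivity))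
          calc Real.exp (b * x) * E x ≤ Real.exp (b * x) * (|C| * Real.exp (-(c * x))) := by
                exact mul_le_mul_of_nonneg_left h3 (by positivity)
            _ = |C| * (Real.exp (b * x) * Real.exp (-(c * x))) := by ring
            _ = |C| * Real.exp (-(c - b) * x) := by
                rw [← Real.exp_add]; congr 2; ring
      _ < ⊤ := h1.lintegral_lt_top
  have hfinμ : μ univ < ⊤ := by
    rw [hμ, withDensity_apply _ MeasurableSet.univ, Measure.restrict_univ]
    have := hexpint 0 hc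
    simpa using this
  have : IsFiniteMeasure μ := ⟨hfinμ⟩
  have hfinν : ν univ < ⊤ := by
    have h0 := hmom 0
    simp only [mul_zero, pow_zero, ENNReal.ofReal_one, lintegral_const, one_mul] at h0
    rw [← h0]; exact hfinμ
  have : IsFiniteMeasure ν := ⟨hfinν⟩
  have hac : ∀ F : ℝ → ℝ≥0∞, (vpos.withDensity F) (Iic 0) = 0 := by
    intro F
    have h0 : vpos (Iic (0 : ℝ)) = 0 := by
      rw [Measure.restrict_apply measurableSet_Iic, Iic_inter_Ioi, Ioc_self, measure_empty]
    exact withDensity_absolutelyContinuous _ _ h0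
  have hcosh : ∫⁻ x, ENNReal.ofReal (2 * Real.cosh (c / 2 * x)) ∂μ ≠ ⊤ := by
    rw [hμ, lintegral_withDensity_eq_lintegral_mul _ hmE (by fun_prop)]
    apply ne_of_lt
    calc ∫⁻ x, ((fun x => ENNReal.ofReal (E x)) * fun x => ENNReal.ofReal (2 * Real.cosh (c / 2 * x))) x ∂vpos
        = ∫⁻ x, (ENNReal.ofReal (Real.exp (c / 2 * x)) * ENNReal.ofReal (E x)
            + ENNReal.ofReal (Real.exp (-(c / 2) * x)) * ENNReal.ofReal (E x)) ∂vpos := by
          congr 1
          ext x
          simp only [Pi.mul_apply]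
          rw [← add_mul, ← ENNReal.ofReal_add (by positivity) (by positivity), mul_comm, Real.cosh_eq]
          congr 2
          ring_nf
      _ = _ := lintegral_add_left (by fun_prop) _
      _ < ⊤ := ENNReal.add_lt_top.mpr ⟨hexpint _ (by linarith), hexpint _ (by linarith)⟩
  have heq : μ = ν := eq_of_even_moments (hac _) (hac _) hmom (half_pos hc) hcosh
  have h5 : (fun x => ENNReal.ofReal (E x)) =ᵐ[vpos] (fun x => ENNReal.ofReal (-(E x))) := by
    rw [← withDensity_eq_iff hmE.aemeasurable hmE'.aemeasurable]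
    · exact heq
    · have := hexpint 0 hc
      simp only [zero_mul, Real.exp_zero, ENNReal.ofReal_one, one_mul] at this
      exact this.ne
  filter_upwards [h5] with x hx
  simp only [Pi.zero_apply]
  rcases lt_trichotomy (E x) 0 with h | h | h
  · rw [ENNReal.ofReal_of_nonpos h.le] at hx
    have := ENNReal.ofReal_eq_zero.mp hx.symm
    linarith
  · exact h
  · rw [ENNReal.ofReal_of_nonpos (by linarith : -(E x) ≤ 0)] at hx
    have := ENNReal.ofReal_eq_zero.mp hx
    linarith

end Pool.Agent.H6
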