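import Mathlib
import Pool.Agent.H6.Bound
import Pool.Agent.H6.Helly
import Pool.Agent.H6.Rigidity

open MeasureTheory Set Filter Topology
open scoped Real Interval ContDiff

namespace Pool.Agent.H6

section
variable {ι : Type*} {γ w : ι → ℝ} {F : ℝ → Finset ι} {CR : ℝ}

/-- Admissible densities. -/
structure Dens (p : ℝ → ℝ) : Prop where
  cont : Continuous p
  decay : ∃ C, 0 ≤ C ∧ ∀ u, |p u| ≤ C / (1 + u ^ 2) ^ 3
  test : ∃ s, 0 < s ∧ s < 1 ∧ TestFn s (tail p)

lemma Dens.integrable {p : ℝ → ℝ} (hp : Dens p) : Integrable p := by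
  obtain ⟨C, hC0, hC⟩ := hp.decay
  exact integrable_of_decay3 hp.cont hC hC0

lemma Dens.integrable_mul {p : ℝ → ℝ} (hp : Dens p) {f : ℝ → ℝ} {K : ℝ}
    (hf : AEStronglyMeasurable f vpos) (hK : ∀ β, 0 < β → |f β| ≤ K * (1 + β)) :
    Integrable (fun β => p β * f β) vpos := by
  obtain ⟨C, hC0, hC⟩ := hp.decay
  apply Integrable.mono' (integrable_inv_one_add_sq.const_mul (2 * C * |K|)).restrict
    ((hp.cont.aestronglyMeasurable.restrict).mul hf)
  filter_upwards [ae_restrict_mem measurableSet_Ioi] with β hβ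
  have hβ' : 0 < β := hβ
  simp only [Pi.mul_apply]
  rw [Real.norm_eq_abs, abs_mul]
  have h1 : |f β| ≤ |K| * (2 * (1 + β ^ 2)) := by
    refine (hK β hβ).trans ?_
    calc K * (1 + β) ≤ |K| * (1 + β) := mul_le_mul_of_nonneg_right (le_abs_self K) (by positivity)
      _ ≤ |K| * (2 * (1 + β ^ 2)) := by
        apply mul_le_mul_of_nonneg_left _ (abs_nonneg _)
        nlinarith [sq_nonneg (β - 1)]
  calc |p β| * |f β| ≤ (C / (1 + β ^ 2) ^ 3) * (|K| * (2 * (1 + β ^ 2))) :=
        mul_le_mul (hC β) h1 (abs_nonneg _) (by positivity)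
    _ = (2 * C * |K|) / (1 + β ^ 2) ^ 2 := by
        have : 1 + β ^ 2 ≠ 0 := by positivity
        field_simp
    _ ≤ (2 * C * |K|) * (1 + β ^ 2)⁻¹ := by
        rw [← div_eq_mul_inv]
        apply div_le_div_of_nonneg_left (by positivity) (by positivity)
        nlinarith [sq_nonneg β]

theorem tendsto_dens [Countable ι] (I : Inputs γ w F CR) {p : ℝ → ℝ} (hp : Dens p) :
    Tendsto (fun T => ∫ β in Ioi 0, p β * MM γ w F T β) atTop (𝓝 (∫ β in Ioi 0, p β * G2 β)) := by
  obtain ⟨C, hC0, hC⟩ := hp.decay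
  obtain ⟨s, hs0, hs1, hT⟩ := hp.test
  have h1 := I.montgomery hT hs0 hs1
  rw [limit_tail hp.cont hC0 hC hT hs1] at h1
  simp_rw [sum_tail_eq hp.integrable] at h1
  exact h1

/-- The weights used in the rigidity lemma are admissible. -/
lemma exists_dens : ∃ κ : ℝ → ℝ, Continuous κ ∧ (∀ u, 0 ≤ κ u) ∧ (∀ u, κ u ≤ 1) ∧ κ 0 = 1 ∧
    (∀ k : ℕ, ∀ R : ℝ, 2 ≤ R → Dens (fun u => u ^ (2 * k + 1) * κ (u / R))) := by
  obtain ⟨κ, hκc, hκ0, hκ1, hκz, hκe, hdec, htest⟩ := exists_weights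
  refine ⟨κ, hκc, hκ0, hκ1, hκz, fun k R hR => ⟨?_, hdec _ R (by linarith), ⟨3 / 4, by norm_num, by norm_num, ?_⟩⟩⟩
  · exact (continuous_pow _).mul (hκc.comp (continuous_id.div_const R))
  · apply htest k R (by linarith)
    have : 1 / R ≤ 1 / 2 := one_div_le_one_div_of_le (by norm_num) hR
    linarith

/-- Subsequential limits of the pair counting functions. -/
structure IsLimit (γ w : ι → ℝ) (F : ℝ → Finset ι) (ns : ℕ → ℝ) (L : ℝ → ℝ) : Prop where
  mono : Monotone L
  conv : ∀ β, ContinuousAt L β → Tendsto (fun n => MM γ w F (ns n) β) atTop (𝓝 (L β))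
  ae : ∀ᵐ β, Tendsto (fun n => MM γ w F (ns n) β) atTop (𝓝 (L β))
  growth : ∃ C, 0 < C ∧ ∀ β, 0 ≤ β → |L β| ≤ C * (1 + β)
  ge_one : ∀ β, 0 < β → 1 ≤ L β
  orth : ∀ p, Dens p → ∫ β in Ioi 0, p β * (L β - G2 β) = 0

lemma MM_zero_ge (hw1 : ∀ i, 1 ≤ w i) {T : ℝ} (hT : 1 < T) :
    (1 / PC.norm T) * ∑ i ∈ F T, w i ≤ MM γ w F T 0 := by
  unfold MM
  have hn := norm_pos hT
  apply mul_le_mul_of_nonneg_left _ (by positivity)
  apply Finset.sum_le_sum
  intro i hi
  have h0 : ∀ i, 0 ≤ w i := fun i => by linarith [hw1 i]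
  have h1 : ∀ j ∈ F T, 0 ≤ (if |(γ i - γ j) * Real.log T / (2 * π)| ≤ 0 then w i * w j else 0) := by
    intro j _
    split_ifs
    · exact mul_nonneg (h0 i) (h0 j)
    · exact le_rfl
  refine le_trans ?_ (Finset.single_le_sum h1 hi)
  rw [if_pos (by simp)]
  nlinarith [hw1 i]

theorem exists_limit [Countable ι] (I : Inputs γ w F CR) (hw1 : ∀ i, 1 ≤ w i) {ns : ℕ → ℝ} (hns : Tendsto ns atTop atTop) :
    ∃ (φ : ℕ → ℕ) (L : ℝ → ℝ), StrictMono φ ∧ IsLimit γ w F (ns ∘ φ) L := by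
  obtain ⟨T0, C, hT0, hC0, hC⟩ := MM_bound I
  have hw := I.ord.w_nonneg
  -- shift so that all terms are at least T0
  obtain ⟨N, hN⟩ := eventually_atTop.mp (hns.eventually_ge_atTop T0)
  have hN' : ∀ n, T0 ≤ ns (n + N) := fun n => hN _ (by omega)
  have hneg : ∀ T β, β < 0 → MM γ w F T β = 0 := by
    intro T β hβ
    unfold MM
    rw [Finset.sum_eq_zero, mul_zero]
    intro i _
    apply Finset.sum_eq_zero
    intro j _
    rw [if_neg]
    intro h
    have := abs_nonneg ((γ i - γ j) * Real.log T / (2 * π))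
    linarith
  have hb : ∀ β, ∃ B, ∀ n, |MM γ w F (ns (n + N)) β| ≤ B := by
    intro β
    refine ⟨C * (1 + |β|), fun n => ?_⟩
    have hT1 : 1 < ns (n + N) := lt_of_lt_of_le hT0 (hN' n)
    rw [abs_of_nonneg (MM_nonneg hw hT1 β)]
    rcases lt_or_ge β 0 with h | h
    · rw [hneg _ _ h]; positivity
    · rw [abs_of_nonneg h]; exact hC _ (hN' n) β h
  obtain ⟨L, φ, hφ, hL, hconv, hae⟩ := helly (M := fun n => MM γ w F (ns (n + N)))
    (fun n => MM_mono hw (lt_of_lt_of_le hT0 (hN' n))) hb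
  have hφ' : StrictMono (fun n => φ n + N) := fun a b h => by have := hφ h; simp only; omega
  have hns' : Tendsto (fun n => ns (φ n + N)) atTop atTop := hns.comp hφ'.tendsto_atTop
  have hcl : ∀ β, 0 < β → ∀ K1 K2 : ℝ, (∀ᶠ n in atTop, K1 ≤ MM γ w F (ns (φ n + N)) β) →
      (∀ᶠ n in atTop, MM γ w F (ns (φ n + N)) β ≤ K2) → ContinuousAt L β → K1 ≤ L β ∧ L β ≤ K2 := by
    intro β hβ K1 K2 h1 h2 hc
    exact ⟨ge_of_tendsto (hconv β hc) h1, le_of_tendsto (hconv β hc) h2⟩
  have hdense : ∀ a b : ℝ, a < b → ∃ c, a < c ∧ c < b ∧ ContinuousAt L c := by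
    intro a b hab
    have hcount := hL.countable_not_continuousAt
    by_contra h
    push Not at h
    have hsub : Ioo a b ⊆ {x | ¬ContinuousAt L x} := fun x hx => h x hx.1 hx.2
    have := hcount.mono hsub
    exact (Cardinal.Real.Ioo_countable_iff.mp this).not_gt hab
  have hgrow : ∀ β, 0 ≤ β → |L β| ≤ (2 * C) * (1 + β) := by
    intro β hβ
    obtain ⟨c, hc1, hc2, hc3⟩ := hdense (β) (β + 1) (by linarith)
    obtain ⟨d, hd1, hd2, hd3⟩ := hdense (-1) 0 (by norm_num)
    have h1 : L c ≤ C * (1 + c) := by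
      apply le_of_tendsto (hconv c hc3)
      exact Eventually.of_forall fun n => hC _ (hN' _) c (by linarith)
    have h2 : 0 ≤ L d := by
      apply ge_of_tendsto (hconv d hd3)
      exact Eventually.of_forall fun n => MM_nonneg hw (lt_of_lt_of_le hT0 (hN' _)) d
    have h3 : 0 ≤ L β := h2.trans (hL (by linarith))
    rw [abs_of_nonneg h3]
    calc L β ≤ L c := hL hc1.le
      _ ≤ C * (1 + c) := h1
      _ ≤ (2 * C) * (1 + β) := by nlinarith
  have hge1 : ∀ β, 0 < β → 1 ≤ L β := by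
    intro β hβ
    obtain ⟨c, hc1, hc2, hc3⟩ := hdense 0 β hβ
    have h1 : 1 ≤ L c := by
      apply le_of_tendsto_of_tendsto (I.count.comp hns') (hconv c hc3)
      filter_upwards with n
      have hT1 : 1 < ns (φ n + N) := lt_of_lt_of_le hT0 (hN' _)
      exact (MM_zero_ge hw1 hT1).trans (MM_mono hw hT1 hc1.le)
    exact h1.trans (hL hc2.le)
  refine ⟨fun n => φ n + N, L, hφ', hL, hconv, hae, ⟨2 * C, by positivity, hgrow⟩, hge1, ?_⟩
  intro p hp
  have hLm : AEStronglyMeasurable L vpos := hL.measurable.aestronglyMeasurable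
  have hGm : AEStronglyMeasurable G2 vpos := continuous_G2.aestronglyMeasurable
  have i1 : Integrable (fun β => p β * L β) vpos := hp.integrable_mul hLm (fun β hβ => hgrow β hβ.le)
  have i2 : Integrable (fun β => p β * G2 β) vpos := by
    apply hp.integrable_mul (K := 2) hGm
    intro β hβ
    have := G2_bounds hβ.le
    rw [abs_of_nonneg this.1]
    exact this.2
  have h1 : Tendsto (fun n => ∫ β in Ioi 0, p β * MM γ w F (ns (φ n + N)) β) atTop (𝓝 (∫ β in Ioi 0, p β * G2 β)) :=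
    (tendsto_dens I hp).comp hns'
  have h2 : Tendsto (fun n => ∫ β in Ioi 0, p β * MM γ w F (ns (φ n + N)) β) atTop (𝓝 (∫ β in Ioi 0, p β * L β)) := by
    have hbi : Integrable (fun β => |p β * (C * (1 + β))|) vpos := by
      apply Integrable.abs
      apply hp.integrable_mul (K := C) (by fun_prop)
      intro β hβ
      rw [abs_of_nonneg (by positivity)]
    apply tendsto_integral_of_dominated_convergence (fun β => |p β * (C * (1 + β))|) _ hbi
    · intro n
      filter_upwards [ae_restrict_mem measurableSet_Ioi] with β hβ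
      have hβ' : 0 < β := hβ
      rw [Real.norm_eq_abs, abs_mul, abs_mul]
      apply mul_le_mul_of_nonneg_left _ (abs_nonneg _)
      rw [abs_of_nonneg (MM_nonneg hw (lt_of_lt_of_le hT0 (hN' _)) β), abs_of_nonneg (by positivity : 0 ≤ C * (1 + β))]
      exact hC _ (hN' _) β hβ'.le
    · filter_upwards [ae_restrict_of_ae hae] with β hβ
      exact hβ.const_mul (p β)
    · intro n
      exact (hp.cont.aestronglyMeasurable.restrict).mul
        (MM_mono hw (lt_of_lt_of_le hT0 (hN' _))).measurable.aestronglyMeasurable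
  have h3 := tendsto_nhds_unique h1 h2
  have e : ∀ β, p β * (L β - G2 β) = p β * L β - p β * G2 β := fun β => by ring
  simp_rw [e]
  rw [integral_sub i1 i2, h3, sub_self]

end

end Pool.Agent.H6
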