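import Mathlib
import Pool.Agent.H6.Limit

open MeasureTheory Set Filter Topology
open scoped Real Interval ContDiff

namespace Pool.Agent.H6

section
variable {ι : Type*} {γ w : ι → ℝ} {F : ℝ → Finset ι} {CR : ℝ} {ns : ℕ → ℝ} {L : ℝ → ℝ}

namespace IsLimit

lemma measurable_D (hL : IsLimit γ w F ns L) : Measurable (fun x => L x - G2 x) :=
  hL.mono.measurable.sub continuous_G2.measurable

lemma abs_D_le (hL : IsLimit γ w F ns L) : ∃ C, 0 < C ∧ ∀ β, 0 ≤ β → |L β - G2 β| ≤ C * (1 + β) := by
  obtain ⟨C, hC0, hC⟩ := hL.growth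
  refine ⟨C + 2, by positivity, fun β hβ => ?_⟩
  have h1 := G2_bounds hβ
  calc |L β - G2 β| ≤ |L β| + |G2 β| := abs_sub _ _
    _ ≤ C * (1 + β) + 2 * (1 + β) := by
        apply add_le_add (hC β hβ)
        rw [abs_of_nonneg h1.1]
        exact h1.2
    _ = _ := by ring

/-- Rigidity, upper bound version. -/
theorem eq_of_le_exp (hL : IsLimit γ w F ns L) {C c : ℝ} (hc : 0 < c)
    (hup : ∀ᵐ β ∂vpos, L β - G2 β ≤ C * Real.exp (-(c * β))) : ∀ᵐ β ∂vpos, L β = G2 β := by
  obtain ⟨κ, hκc, hκ0, hκ1, hκz, hdens⟩ := exists_dens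
  obtain ⟨K, hK0, hK⟩ := hL.abs_D_le
  have hm := hL.measurable_D
  have e : ∀ (k : ℕ) (R x : ℝ), (x ^ (2 * k) * κ (x / R)) * (x * (L x - G2 x))
      = (x ^ (2 * k + 1) * κ (x / R)) * (L x - G2 x) := by
    intro k R x; ring
  have h := rigidity (κ := κ) (E := fun x => x * (L x - G2 x)) hκc hκ0 hκ1 hκz
    (measurable_id.mul hm) (R0 := 2)
    (fun k R hR => by
      simp_rw [e]
      exact (hdens k R hR).integrable_mul hm.aestronglyMeasurable (fun β hβ => hK β hβ.le))
    (fun k R hR => by
      simp_rw [e]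
      exact hL.orth _ (hdens k R hR))
    (C := |C| * (2 / c)) (c := c / 2) (half_pos hc) (by
      filter_upwards [hup, ae_restrict_mem measurableSet_Ioi] with x hx hx0
      have hx0' : 0 < x := hx0
      have h1 : x ≤ 2 / c * Real.exp (c / 2 * x) := by
        have h2 := Real.add_one_le_exp (c / 2 * x)
        have h3 : c / 2 * x ≤ Real.exp (c / 2 * x) := by linarith
        calc x = 2 / c * (c / 2 * x) := by field_simp
          _ ≤ 2 / c * Real.exp (c / 2 * x) := mul_le_mul_of_nonneg_left h3 (by positivity)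
      calc x * (L x - G2 x) ≤ x * (|C| * Real.exp (-(c * x))) := by
            apply mul_le_mul_of_nonneg_left _ hx0'.le
            exact hx.trans (mul_le_mul_of_nonneg_right (le_abs_self C) (by positivity))
        _ ≤ (2 / c * Real.exp (c / 2 * x)) * (|C| * Real.exp (-(c * x))) :=
            mul_le_mul_of_nonneg_right h1 (by positivity)
        _ = |C| * (2 / c) * (Real.exp (c / 2 * x) * Real.exp (-(c * x))) := by ring
        _ = |C| * (2 / c) * Real.exp (-(c / 2 * x)) := by
            rw [← Real.exp_add]; congr 2; ring)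
  filter_upwards [h, ae_restrict_mem measurableSet_Ioi] with x hx hx0
  have hx0' : 0 < x := hx0
  simp only [Pi.zero_apply] at hx
  rcases mul_eq_zero.mp hx with h1 | h1
  · exact absurd h1 hx0'.ne'
  · linarith

/-- Rigidity, lower bound version. -/
theorem eq_of_ge_exp (hL : IsLimit γ w F ns L) {C c : ℝ} (hc : 0 < c)
    (hup : ∀ᵐ β ∂vpos, G2 β - L β ≤ C * Real.exp (-(c * β))) : ∀ᵐ β ∂vpos, L β = G2 β := by
  obtain ⟨κ, hκc, hκ0, hκ1, hκz, hdens⟩ := exists_dens
  obtain ⟨K, hK0, hK⟩ := hL.abs_D_le
  have hm := hL.measurable_D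
  have e : ∀ (k : ℕ) (R x : ℝ), (x ^ (2 * k) * κ (x / R)) * (x * (-(L x - G2 x)))
      = -((x ^ (2 * k + 1) * κ (x / R)) * (L x - G2 x)) := by
    intro k R x; ring
  have h := rigidity (κ := κ) (E := fun x => x * (-(L x - G2 x))) hκc hκ0 hκ1 hκz
    (measurable_id.mul hm.neg) (R0 := 2)
    (fun k R hR => by
      simp_rw [e]
      exact ((hdens k R hR).integrable_mul hm.aestronglyMeasurable (fun β hβ => hK β hβ.le)).neg)
    (fun k R hR => by
      simp_rw [e]
      rw [integral_neg, neg_eq_zero]
      exact hL.orth _ (hdens k R hR))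
    (C := |C| * (2 / c)) (c := c / 2) (half_pos hc) (by
      filter_upwards [hup, ae_restrict_mem measurableSet_Ioi] with x hx hx0
      have hx0' : 0 < x := hx0
      have h1 : x ≤ 2 / c * Real.exp (c / 2 * x) := by
        have h2 := Real.add_one_le_exp (c / 2 * x)
        have h3 : c / 2 * x ≤ Real.exp (c / 2 * x) := by linarith
        calc x = 2 / c * (c / 2 * x) := by field_simp
          _ ≤ 2 / c * Real.exp (c / 2 * x) := mul_le_mul_of_nonneg_left h3 (by positivity)
      calc x * (-(L x - G2 x)) ≤ x * (|C| * Real.exp (-(c * x))) := by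
            apply mul_le_mul_of_nonneg_left _ hx0'.le
            rw [neg_sub]
            exact hx.trans (mul_le_mul_of_nonneg_right (le_abs_self C) (by positivity))
        _ ≤ (2 / c * Real.exp (c / 2 * x)) * (|C| * Real.exp (-(c * x))) :=
            mul_le_mul_of_nonneg_right h1 (by positivity)
        _ = |C| * (2 / c) * (Real.exp (c / 2 * x) * Real.exp (-(c * x))) := by ring
        _ = |C| * (2 / c) * Real.exp (-(c / 2 * x)) := by
            rw [← Real.exp_add]; congr 2; ring)
  filter_upwards [h, ae_restrict_mem measurableSet_Ioi] with x hx hx0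
  have hx0' : 0 < x := hx0
  simp only [Pi.zero_apply] at hx
  rcases mul_eq_zero.mp hx with h1 | h1
  · exact absurd h1 hx0'.ne'
  · linarith

/-- The weighted averages of the discrepancy cannot be bounded away from zero. -/
theorem not_bounded_away (hL : IsLimit γ w F ns L) {B δ σ : ℝ} (hB : 0 ≤ B) (hδ : 0 < δ)
    (hσ : |σ| = 1) (h : ∀ᵐ β ∂vpos, B < β → δ ≤ σ * (L β - G2 β)) : False := by
  obtain ⟨κ, hκc, hκ0, hκ1, hκz, hdens⟩ := exists_dens
  obtain ⟨K, hK0, hK⟩ := hL.abs_D_le
  have hm := hL.measurable_D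
  obtain ⟨η, hη0, hη⟩ : ∃ η : ℝ, 0 < η ∧ ∀ u, |u| ≤ η → 1 / 2 ≤ κ u := by
    have h2 : ∀ᶠ u in 𝓝 (0 : ℝ), 1 / 2 < κ u := by
      apply hκc.continuousAt.eventually
      apply lt_mem_nhds
      rw [hκz]
      norm_num
    rw [Metric.eventually_nhds_iff] at h2
    obtain ⟨ε, hε, h3⟩ := h2
    refine ⟨ε / 2, by positivity, fun u hu => (h3 ?_).le⟩
    rw [Real.dist_eq, sub_zero]
    linarith
  -- lower bound for the integral
  have key : ∀ R, 2 ≤ R → B ≤ η * R → (δ + K * (1 + B)) * B ^ 2 + K * (1 + B) * B ^ 2 + δ / 4 * ((η * R) ^ 2 - B ^ 2) ≤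
      2 * (δ + K * (1 + B)) * B ^ 2 + 2 * K * (1 + B) * B ^ 2 := by
    intro R hR hBR
    have h0 := hL.orth _ (hdens 0 R hR)
    have hi := (hdens 0 R hR).integrable_mul hm.aestronglyMeasurable (fun β hβ => hK β hβ.le)
    have h1 : 0 = ∫ β in Ioi 0, (β ^ (2 * 0 + 1) * κ (β / R)) * (σ * (L β - G2 β)) := by
      have e : ∀ β : ℝ, (β ^ (2 * 0 + 1) * κ (β / R)) * (σ * (L β - G2 β))
        = σ * ((β ^ (2 * 0 + 1) * κ (β / R)) * (L β - G2 β)) := fun β => by ring
      simp_rw [e]
      rw [integral_const_mul, h0, mul_zero]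
    have hlow : ∫ β in Ioi 0, ((Ioc 0 B).indicator (fun β => -(K * (1 + B)) * β) β
        + (Ioc B (η * R)).indicator (fun β => δ / 2 * β) β)
        ≤ ∫ β in Ioi 0, (β ^ (2 * 0 + 1) * κ (β / R)) * (σ * (L β - G2 β)) := by
      apply integral_mono_ae
      · apply Integrable.add
        · apply Integrable.restrict
          rw [integrable_indicator_iff measurableSet_Ioc]
          exact (by fun_prop : Continuous fun β : ℝ => -(K * (1 + B)) * β).integrableOn_Ioc
        · apply Integrable.restrict
          rw [integrable_indicator_iff measurableSet_Ioc]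
          exact (by fun_prop : Continuous fun β : ℝ => δ / 2 * β).integrableOn_Ioc
      · have e : (fun β : ℝ => (β ^ (2 * 0 + 1) * κ (β / R)) * (σ * (L β - G2 β)))
          = fun β => σ * ((β ^ (2 * 0 + 1) * κ (β / R)) * (L β - G2 β)) := by ext β; ring
        rw [e]
        exact hi.const_mul σ
      · filter_upwards [h, ae_restrict_mem measurableSet_Ioi] with β hβ hβ0
        have hβ0' : 0 < β := hβ0
        have hk0 := hκ0 (β / R)
        have hk1 := hκ1 (β / R)
        simp only [indicator, mem_Ioc, mul_zero, zero_add, pow_one]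
        rcases le_or_gt β B with h2 | h2
        · rw [if_pos ⟨hβ0', h2⟩, if_neg (fun h' => absurd h'.1 (not_lt.mpr h2)), add_zero]
          have h3 : |σ * (L β - G2 β)| ≤ K * (1 + B) := by
            rw [abs_mul, hσ, one_mul]
            exact (hK β hβ0'.le).trans (mul_le_mul_of_nonneg_left (by linarith) hK0.le)
          have h4 := (abs_le.mp h3).1
          have h5 : 0 ≤ K * (1 + B) := by positivity
          calc -(K * (1 + B)) * β ≤ β * κ (β / R) * (-(K * (1 + B))) := by
                have : β * κ (β / R) ≤ β := mul_le_of_le_one_right hβ0'.le hk1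
                nlinarith
            _ ≤ β * κ (β / R) * (σ * (L β - G2 β)) :=
                mul_le_mul_of_nonneg_left h4 (mul_nonneg hβ0'.le hk0)
        · rw [if_neg (fun h' => absurd h'.2 (not_le.mpr h2)), zero_add]
          have h3 := hβ h2
          by_cases h4 : β ≤ η * R
          · rw [if_pos ⟨h2, h4⟩]
            have h5 : 1 / 2 ≤ κ (β / R) := by
              apply hη
              rw [abs_of_nonneg (by positivity), div_le_iff₀ (by linarith)]
              exact h4
            calc δ / 2 * β = β * (1 / 2) * δ := by ring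
              _ ≤ β * κ (β / R) * δ := by
                  apply mul_le_mul_of_nonneg_right _ hδ.le
                  exact mul_le_mul_of_nonneg_left h5 hβ0'.le
              _ ≤ β * κ (β / R) * (σ * (L β - G2 β)) :=
                  mul_le_mul_of_nonneg_left h3 (mul_nonneg hβ0'.le hk0)
          · rw [if_neg (fun h' => h4 h'.2)]
            exact mul_nonneg (mul_nonneg hβ0'.le hk0) (hδ.le.trans h3)
    have hval : ∫ β in Ioi 0, ((Ioc 0 B).indicator (fun β => -(K * (1 + B)) * β) β
        + (Ioc B (η * R)).indicator (fun β => δ / 2 * β) β)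
        = -(K * (1 + B)) * (B ^ 2 / 2) + δ / 2 * (((η * R) ^ 2 - B ^ 2) / 2) := by
      rw [integral_add]
      · congr 1
        · rw [setIntegral_indicator measurableSet_Ioc, inter_eq_right.mpr (fun x hx => hx.1),
            integral_const_mul, ← intervalIntegral.integral_of_le hB, integral_id]
          ring
        · have hsub : Ioc B (η * R) ⊆ Ioi 0 := fun x hx => lt_of_le_of_lt hB hx.1
          rw [setIntegral_indicator measurableSet_Ioc, inter_eq_right.mpr hsub,
            integral_const_mul, ← intervalIntegral.integral_of_le hBR, integral_id]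
      · apply Integrable.restrict
        rw [integrable_indicator_iff measurableSet_Ioc]
        exact (by fun_prop : Continuous fun β : ℝ => -(K * (1 + B)) * β).integrableOn_Ioc
      · apply Integrable.restrict
        rw [integrable_indicator_iff measurableSet_Ioc]
        exact (by fun_prop : Continuous fun β : ℝ => δ / 2 * β).integrableOn_Ioc
    rw [hval, ← h1] at hlow
    nlinarith [mul_nonneg hK0.le (mul_nonneg (by linarith : 0 ≤ 1 + B) (sq_nonneg B)), mul_nonneg hδ.le (sq_nonneg B)]
  -- contradiction for large R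
  set M := 2 * (δ + K * (1 + B)) * B ^ 2 + 2 * K * (1 + B) * B ^ 2 with hM
  set R := 2 + B / η + (|M| + δ * B ^ 2 + 1) * 4 / (δ * η ^ 2) + 1 with hR
  have hRpos : 2 ≤ R := by
    rw [hR]
    have : 0 ≤ B / η := by positivity
    have : 0 ≤ (|M| + δ * B ^ 2 + 1) * 4 / (δ * η ^ 2) := by positivity
    linarith
  have hBR : B ≤ η * R := by
    have h1 : B / η ≤ R := by
      rw [hR]
      have : 0 ≤ (|M| + δ * B ^ 2 + 1) * 4 / (δ * η ^ 2) := by positivity
      linarith
    rw [div_le_iff₀ hη0] at h1
    linarith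
  have h1 := key R hRpos hBR
  have h2 : (|M| + δ * B ^ 2 + 1) * 4 / (δ * η ^ 2) ≤ R := by
    rw [hR]
    have : 0 ≤ B / η := by positivity
    linarith
  rw [div_le_iff₀ (by positivity)] at h2
  have h3 : R * (δ * η ^ 2) ≤ R ^ 2 * (δ * η ^ 2) := by
    apply mul_le_mul_of_nonneg_right _ (by positivity)
    nlinarith
  have h4 : 0 ≤ (δ + K * (1 + B)) * B ^ 2 + K * (1 + B) * B ^ 2 := by positivity
  have h5 := le_abs_self M
  have h6 : 0 ≤ |M| := abs_nonneg M
  nlinarith [mul_nonneg hδ.le (sq_nonneg B)]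

end IsLimit

end

end Pool.Agent.H6
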