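import Mathlib
import Pool.Agent.H6.Limit

open MeasureTheory Set Filter Topology
open scoped Real Interval ContDiff

namespace Pool.Agent.H6

section
variable {ι : Type*} {γ w : ι → ℝ} {F : ℝ → Finset ι} {CR : ℝ}

/-- Normalised double sum of a function over pairs. -/
noncomputable def SF (γ w : ι → ℝ) (F : ℝ → Finset ι) (T : ℝ) (f : ℝ → ℝ) : ℝ :=
  (1 / PC.norm T) * ∑ i ∈ F T, ∑ j ∈ F T, w i * w j * f ((γ i - γ j) * Real.log T / (2 * π))

lemma SF_add (T : ℝ) (f g : ℝ → ℝ) : SF γ w F T (fun x => f x + g x) = SF γ w F T f + SF γ w F T g := by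
  unfold SF
  rw [← mul_add, ← Finset.sum_add_distrib]
  congr 1
  apply Finset.sum_congr rfl
  intro i _
  rw [← Finset.sum_add_distrib]
  apply Finset.sum_congr rfl
  intro j _
  ring

lemma SF_neg (T : ℝ) (f : ℝ → ℝ) : SF γ w F T (fun x => f (-x)) = SF γ w F T f := by
  unfold SF
  rw [Finset.sum_comm]
  congr 1
  apply Finset.sum_congr rfl
  intro i _
  apply Finset.sum_congr rfl
  intro j _
  simp only
  rw [show -((γ j - γ i) * Real.log T / (2 * π)) = (γ i - γ j) * Real.log T / (2 * π) by ring]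
  ring

lemma SF_mono (hw : ∀ i, 0 ≤ w i) {T : ℝ} (hT : 1 < T) {f g : ℝ → ℝ} (h : ∀ x, f x ≤ g x) :
    SF γ w F T f ≤ SF γ w F T g := by
  unfold SF
  have := norm_pos hT
  apply mul_le_mul_of_nonneg_left _ (by positivity)
  apply Finset.sum_le_sum
  intro i _
  apply Finset.sum_le_sum
  intro j _
  exact mul_le_mul_of_nonneg_left (h _) (mul_nonneg (hw i) (hw j))

/-- Normalised number of pairs in the window `[α, β]`. -/
noncomputable def PW (γ w : ι → ℝ) (F : ℝ → Finset ι) (T α β : ℝ) : ℝ :=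
  SF γ w F T (fun x => if α ≤ x ∧ x ≤ β then 1 else 0)

/-- Normalised number of pairs in the window `(0, β]`. -/
noncomputable def HW (γ w : ι → ℝ) (F : ℝ → Finset ι) (T β : ℝ) : ℝ :=
  SF γ w F T (fun x => if 0 < x ∧ x ≤ β then 1 else 0)

lemma MM_eq_SF (T β : ℝ) : MM γ w F T β = SF γ w F T (fun x => if |x| ≤ β then 1 else 0) := by
  unfold MM SF
  congr 1
  apply Finset.sum_congr rfl
  intro i _
  apply Finset.sum_congr rfl
  intro j _
  by_cases h : |(γ i - γ j) * Real.log T / (2 * π)| ≤ β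
  · simp only [if_pos h, mul_one]
  · simp only [if_neg h, mul_zero]

lemma MM_eq_HW (T : ℝ) {β : ℝ} (hβ : 0 ≤ β) : MM γ w F T β = MM γ w F T 0 + 2 * HW γ w F T β := by
  have h1 : SF γ w F T (fun x => if 0 < -x ∧ -x ≤ β then 1 else 0) = HW γ w F T β :=
    SF_neg T (fun x => if 0 < x ∧ x ≤ β then 1 else 0)
  have h2 : (fun x : ℝ => if |x| ≤ β then (1 : ℝ) else 0) = fun x => (if |x| ≤ 0 then 1 else 0) +
      ((if 0 < x ∧ x ≤ β then 1 else 0) + (if 0 < -x ∧ -x ≤ β then 1 else 0)) := by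
    ext x
    rcases lt_trichotomy x 0 with h | h | h
    · have e1 : ¬ (|x| ≤ 0) := by rw [abs_nonpos_iff]; exact h.ne
      have e2 : ¬ (0 < x ∧ x ≤ β) := fun h' => absurd h'.1 (not_lt.mpr h.le)
      rw [if_neg e1, if_neg e2, abs_of_neg h]
      simp [h]
    · subst h
      simp [hβ]
    · have e1 : ¬ (|x| ≤ 0) := by rw [abs_nonpos_iff]; exact h.ne'
      have e2 : ¬ (0 < -x ∧ -x ≤ β) := fun h' => by linarith [h'.1]
      rw [if_neg e1, if_neg e2, abs_of_pos h]
      simp [h]
  rw [MM_eq_SF, h2, SF_add, SF_add, h1, ← MM_eq_SF]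
  unfold HW
  ring

lemma HW_le_PW_sub (hw : ∀ i, 0 ≤ w i) {T : ℝ} (hT : 1 < T) (α β : ℝ) :
    HW γ w F T β ≤ HW γ w F T α + PW γ w F T α β := by
  unfold HW PW
  rw [← SF_add]
  apply SF_mono hw hT
  intro x
  by_cases h : 0 < x ∧ x ≤ β
  · rw [if_pos h]
    by_cases h' : x ≤ α
    · rw [if_pos ⟨h.1, h'⟩]
      split_ifs <;> norm_num
    · rw [if_neg (fun h'' => h' h''.2), if_pos ⟨(not_le.mp h').le, h.2⟩]
      norm_num
  · rw [if_neg h]
    split_ifs <;> norm_num

lemma PW_le_HW_sub (hw : ∀ i, 0 ≤ w i) {T : ℝ} (hT : 1 < T) {α' α β : ℝ} (hα' : 0 ≤ α') (hα : α' < α) (hαβ : α ≤ β) :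
    HW γ w F T α' + PW γ w F T α β ≤ HW γ w F T β := by
  unfold HW PW
  rw [← SF_add]
  apply SF_mono hw hT
  intro x
  by_cases h : 0 < x ∧ x ≤ β
  · rw [if_pos h]
    by_cases h' : x ≤ α'
    · rw [if_pos ⟨h.1, h'⟩, if_neg (fun h'' => by linarith [h''.1])]
      norm_num
    · rw [if_neg (fun h'' => h' h''.2)]
      split_ifs <;> norm_num
  · rw [if_neg h, if_neg, if_neg]
    · norm_num
    · rintro ⟨h1, h2⟩
      exact h ⟨by linarith, h2⟩
    · rintro ⟨h1, h2⟩
      exact h ⟨h1, by linarith⟩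

lemma PW_symm (T α β : ℝ) : PW γ w F T (-β) (-α) = PW γ w F T α β := by
  unfold PW
  rw [← SF_neg T (fun x => if α ≤ x ∧ x ≤ β then 1 else 0)]
  congr 1
  ext x
  have : (-β ≤ x ∧ x ≤ -α) ↔ (α ≤ -x ∧ -x ≤ β) := by
    constructor
    · rintro ⟨h1, h2⟩; constructor <;> linarith
    · rintro ⟨h1, h2⟩; constructor <;> linarith
  simp only [this]

lemma PW_zero_left (T : ℝ) {β : ℝ} (hβ : 0 ≤ β) : PW γ w F T 0 β = MM γ w F T 0 + HW γ w F T β := by
  rw [MM_eq_SF]
  unfold PW HW
  rw [← SF_add]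
  congr 1
  ext x
  rcases lt_trichotomy x 0 with h | h | h
  · have e1 : ¬ (|x| ≤ 0) := by rw [abs_nonpos_iff]; exact h.ne
    rw [if_neg e1, if_neg (fun h' => by linarith [h'.1]), if_neg (fun h' => by linarith [h'.1])]
    norm_num
  · subst h; simp [hβ]
  · have e1 : ¬ (|x| ≤ 0) := by rw [abs_nonpos_iff]; exact h.ne'
    rw [if_neg e1, zero_add]
    simp only [h, h.le, true_and]

lemma PW_straddle (T : ℝ) {α β : ℝ} (hα : α ≤ 0) (hβ : 0 ≤ β) :
    PW γ w F T α β = MM γ w F T 0 + (HW γ w F T β + HW γ w F T (-α)) := by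
  have h1 : SF γ w F T (fun x => if 0 < -x ∧ -x ≤ -α then 1 else 0) = HW γ w F T (-α) :=
    SF_neg T (fun x => if 0 < x ∧ x ≤ -α then 1 else 0)
  rw [← h1, MM_eq_SF]
  unfold PW HW
  rw [← SF_add, ← SF_add]
  congr 1
  ext x
  rcases lt_trichotomy x 0 with h | h | h
  · have e1 : ¬ (|x| ≤ 0) := by rw [abs_nonpos_iff]; exact h.ne
    rw [if_neg e1, if_neg (fun h' : 0 < x ∧ x ≤ β => by linarith [h'.1])]
    have e3 : (α ≤ x ∧ x ≤ β) ↔ (0 < -x ∧ -x ≤ -α) := by
      constructor
      · rintro ⟨h1, h2⟩; constructor <;> linarith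
      · rintro ⟨h1, h2⟩; constructor <;> linarith
    simp only [e3]
    ring
  · subst h; simp [hβ, hα]
  · have e1 : ¬ (|x| ≤ 0) := by rw [abs_nonpos_iff]; exact h.ne'
    rw [if_neg e1, if_neg (fun h' : 0 < -x ∧ -x ≤ -α => by linarith [h'.1])]
    have e3 : (α ≤ x ∧ x ≤ β) ↔ (0 < x ∧ x ≤ β) := by
      constructor
      · rintro ⟨h1, h2⟩; constructor <;> linarith
      · rintro ⟨h1, h2⟩; constructor <;> linarith
    simp only [e3]
    ring

/-- `∫_0^β (1 - sinc²)`. -/
noncomputable def gg (β : ℝ) : ℝ := ∫ u in (0 : ℝ)..β, (1 - (Real.sinc (π * u)) ^ 2)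

lemma intervalIntegrable_gue (a b : ℝ) : IntervalIntegrable (fun u : ℝ => 1 - (Real.sinc (π * u)) ^ 2) volume a b :=
  (continuous_const.sub continuous_sinc_sq : Continuous (fun u : ℝ => 1 - (Real.sinc (π * u)) ^ 2)).intervalIntegrable _ _

lemma gg_neg (β : ℝ) : gg (-β) = -gg β := by
  unfold gg
  have := intervalIntegral.integral_comp_neg (f := fun u : ℝ => 1 - (Real.sinc (π * u)) ^ 2) (a := 0) (b := β)
  simp only [neg_zero] at this
  rw [intervalIntegral.integral_symm, ← this]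
  congr 1
  apply intervalIntegral.integral_congr
  intro u _
  simp only [mul_neg, Real.sinc_neg]

lemma gg_sub (α β : ℝ) : ∫ u in α..β, (1 - (Real.sinc (π * u)) ^ 2) = gg β - gg α := by
  unfold gg
  rw [intervalIntegral.integral_interval_sub_left (intervalIntegrable_gue _ _) (intervalIntegrable_gue _ _)]

lemma G2_eq_gg (β : ℝ) : G2 β = 1 + 2 * gg β := by
  unfold G2
  rw [gg_sub, gg_neg]
  ring

lemma gg_zero : gg 0 = 0 := by unfold gg; simp

lemma continuous_gg : Continuous gg := by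
  have h1 : gg = fun β => (G2 β - 1) / 2 := by
    ext β; rw [G2_eq_gg]; ring
  rw [h1]
  exact (continuous_G2.sub continuous_const).div_const 2

lemma gue_eq (α β : ℝ) : PC.gue α β = gg β - gg α + (if α ≤ 0 ∧ 0 ≤ β then 1 else 0) := by
  unfold PC.gue
  rw [gg_sub]

/-- Convergence of the cumulative counts implies convergence for all windows. -/
theorem tendsto_windows_filter [Countable ι] (I : Inputs γ w F CR) (hw1 : ∀ i, 1 ≤ w i)
    {l : Filter ℝ} (hl : l ≤ atTop)
    (h : ∀ β, 0 < β → Tendsto (fun T => MM γ w F T β) l (𝓝 (G2 β))) {α β : ℝ} (hαβ : α < β) :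
    Tendsto (fun T => PW γ w F T α β) l (𝓝 (PC.gue α β)) := by
  have hw := I.ord.w_nonneg
  have hgt1 : ∀ᶠ T in l, 1 < T := hl (eventually_gt_atTop 1)
  -- the diagonal term
  have h0 : Tendsto (fun T => MM γ w F T 0) l (𝓝 1) := by
    rw [tendsto_order]
    constructor
    · intro a ha
      filter_upwards [(I.count.mono_left hl).eventually (lt_mem_nhds ha), hgt1] with T h1 h2
      exact lt_of_lt_of_le h1 (MM_zero_ge hw1 h2)
    · intro a ha
      have h2 : ∃ β, 0 < β ∧ G2 β < a := by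
        have h3 : Tendsto G2 (𝓝 0) (𝓝 1) := by
          have := continuous_G2.tendsto 0
          rwa [G2_eq_gg, gg_zero, mul_zero, add_zero] at this
        have h4 := h3.eventually (gt_mem_nhds ha)
        obtain ⟨ε, hε, h5⟩ := Metric.eventually_nhds_iff.mp h4
        exact ⟨ε / 2, by positivity, h5 (by rw [Real.dist_eq, sub_zero, abs_of_pos (by positivity)]; linarith)⟩
      obtain ⟨β, hβ, h3⟩ := h2
      filter_upwards [(h β hβ).eventually (gt_mem_nhds h3), hgt1] with T h4 h5
      exact lt_of_le_of_lt (MM_mono hw h5 hβ.le) h4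
  have hH : ∀ β, 0 ≤ β → Tendsto (fun T => HW γ w F T β) l (𝓝 (gg β)) := by
    intro β hβ
    rcases eq_or_lt_of_le hβ with h1 | h1
    · subst h1
      rw [gg_zero]
      apply tendsto_const_nhds.congr
      intro T
      have := MM_eq_HW (γ := γ) (w := w) (F := F) T (le_refl (0 : ℝ))
      linarith
    · have h2 := ((h β h1).sub h0).div_const 2
      have e : (G2 β - 1) / 2 = gg β := by rw [G2_eq_gg]; ring
      rw [e] at h2
      apply h2.congr
      intro T
      rw [MM_eq_HW T hβ]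
      ring
  -- positive windows
  have hpos : ∀ α β : ℝ, 0 < α → α < β → Tendsto (fun T => PW γ w F T α β) l (𝓝 (PC.gue α β)) := by
    intro α β hα hαβ
    rw [gue_eq, if_neg (fun h' => by linarith [h'.1]), add_zero, tendsto_order]
    constructor
    · intro a ha
      have h1 := (hH β (by linarith)).sub (hH α hα.le)
      filter_upwards [h1.eventually (lt_mem_nhds ha), hgt1] with T h2 h3
      have := HW_le_PW_sub (γ := γ) (w := w) (F := F) hw h3 α β
      linarith
    · intro a ha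
      have h2 : ∃ α', 0 < α' ∧ α' < α ∧ gg β - gg α' < a := by
        have h3 : Tendsto (fun x => gg β - gg x) (𝓝 α) (𝓝 (gg β - gg α)) :=
          (continuous_const.sub continuous_gg).tendsto α
        have h4 := h3.eventually (gt_mem_nhds ha)
        obtain ⟨ε, hε, h5⟩ := Metric.eventually_nhds_iff.mp h4
        refine ⟨max (α / 2) (α - ε / 2), ?_, ?_, ?_⟩
        · exact lt_max_of_lt_left (by positivity)
        · exact max_lt (by linarith) (by linarith)
        · apply h5
          rw [Real.dist_eq, abs_lt]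
          constructor
          · have := le_max_right (α / 2) (α - ε / 2)
            linarith
          · have : max (α / 2) (α - ε / 2) < α := max_lt (by linarith) (by linarith)
            linarith
      obtain ⟨α', h3, h4, h5⟩ := h2
      have h1 := (hH β (by linarith)).sub (hH α' h3.le)
      filter_upwards [h1.eventually (gt_mem_nhds h5), hgt1] with T h6 h7
      have := PW_le_HW_sub (γ := γ) (w := w) (F := F) hw h7 h3.le h4 hαβ.le
      linarith
  rcases lt_or_ge 0 α with h1 | h1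
  · exact hpos α β h1 hαβ
  · rcases lt_or_ge β 0 with h2 | h2
    · have h3 := hpos (-β) (-α) (by linarith) (by linarith)
      simp_rw [PW_symm] at h3
      rw [gue_eq, if_neg (fun h' => by linarith [h'.2]), add_zero]
      rw [gue_eq, if_neg (fun h' => by linarith [h'.1]), add_zero, gg_neg, gg_neg] at h3
      rwa [show -gg α - -gg β = gg β - gg α by ring] at h3
    · simp_rw [PW_straddle _ h1 h2]
      rw [gue_eq, if_pos ⟨h1, h2⟩]
      have h3 := h0.add ((hH β h2).add (hH (-α) (by linarith)))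
      rw [gg_neg] at h3
      rwa [show 1 + (gg β + -gg α) = gg β - gg α + 1 by ring] at h3

theorem tendsto_windows [Countable ι] (I : Inputs γ w F CR) (hw1 : ∀ i, 1 ≤ w i)
    (h : ∀ β, 0 < β → Tendsto (fun T => MM γ w F T β) atTop (𝓝 (G2 β))) {α β : ℝ} (hαβ : α < β) :
    Tendsto (fun T => PW γ w F T α β) atTop (𝓝 (PC.gue α β)) :=
  tendsto_windows_filter I hw1 le_rfl h hαβ

/-- If all subsequential limits along a filter are GUE, then the counts converge. -/
theorem tendsto_of_limits_filter [Countable ι] (I : Inputs γ w F CR) (hw1 : ∀ i, 1 ≤ w i)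
    {l : Filter ℝ} [l.IsCountablyGenerated] (hl : l ≤ atTop)
    (H : ∀ ns L, Tendsto ns atTop l → IsLimit γ w F ns L → ∀ᵐ β ∂vpos, L β = G2 β) :
    ∀ β, 0 < β → Tendsto (fun T => MM γ w F T β) l (𝓝 (G2 β)) := by
  intro β hβ
  apply tendsto_of_subseq_tendsto
  intro ns hns
  obtain ⟨φ, L, hφ, hL⟩ := exists_limit I hw1 (hns.mono_right hl)
  refine ⟨φ, ?_⟩
  have hae := H _ L (hns.comp hφ.tendsto_atTop) hL
  rw [ae_restrict_iff' measurableSet_Ioi] at hae
  have hdense : ∀ a b : ℝ, 0 ≤ a → a < b → ∃ c, a < c ∧ c < b ∧ L c = G2 c := by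
    intro a b ha hab
    by_contra hcon
    push Not at hcon
    have hsub : Ioo a b ⊆ {x | ¬ (x ∈ Ioi (0 : ℝ) → L x = G2 x)} := by
      intro x hx hx2
      exact hcon x hx.1 hx.2 (hx2 (lt_of_le_of_lt ha hx.1))
    have h1 : volume (Ioo a b) = 0 := measure_mono_null hsub hae
    rw [Real.volume_Ioo, ENNReal.ofReal_eq_zero] at h1
    linarith
  have hEq : ∀ x, 0 < x → L x = G2 x := by
    intro x hx
    have hc := continuous_G2.continuousAt (x := x)
    rw [Metric.continuousAt_iff] at hc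
    apply le_antisymm
    · apply le_of_forall_pos_le_add
      intro ε hε
      obtain ⟨δ, hδ, h1⟩ := hc ε hε
      obtain ⟨c, hc1, hc2, hc3⟩ := hdense x (x + δ) hx.le (by linarith)
      have h2 := hL.mono hc1.le
      have h3 := h1 (x := c) (by rw [Real.dist_eq, abs_lt]; constructor <;> linarith)
      rw [Real.dist_eq, abs_lt] at h3
      linarith [h3.2]
    · apply le_of_forall_pos_le_add
      intro ε hε
      obtain ⟨δ, hδ, h1⟩ := hc ε hε
      obtain ⟨c, hc1, hc2, hc3⟩ := hdense (max 0 (x - δ)) x (le_max_left _ _) (max_lt hx (by linarith))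
      have h2 := hL.mono hc2.le
      have hc1' := lt_of_le_of_lt (le_max_right _ _) hc1
      have h3 := h1 (x := c) (by rw [Real.dist_eq, abs_lt]; constructor <;> linarith)
      rw [Real.dist_eq, abs_lt] at h3
      linarith [h3.1]
  have hcont : ContinuousAt L β := by
    have h1 : L =ᶠ[𝓝 β] G2 := by
      filter_upwards [lt_mem_nhds hβ] with x hx
      exact hEq x hx
    exact continuous_G2.continuousAt.congr h1.symm
  have := hL.conv β hcont
  rw [hEq β hβ] at this
  exact this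

theorem tendsto_of_limits [Countable ι] (I : Inputs γ w F CR) (hw1 : ∀ i, 1 ≤ w i)
    (H : ∀ ns L, Tendsto ns atTop atTop → IsLimit γ w F ns L → ∀ᵐ β ∂vpos, L β = G2 β) :
    ∀ β, 0 < β → Tendsto (fun T => MM γ w F T β) atTop (𝓝 (G2 β)) :=
  tendsto_of_limits_filter I hw1 le_rfl H

end

end Pool.Agent.H6
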