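import Mathlib
import Pool.Agent.H6.OneSided
import Pool.Agent.H6.Windows

open MeasureTheory Set Filter Topology
open scoped Real Interval ContDiff

namespace Pool.Agent.H6

section
variable {ι : Type*} {γ w : ι → ℝ} {F : ℝ → Finset ι} {CR : ℝ} {ns : ℕ → ℝ} {L : ℝ → ℝ}

namespace IsLimit

lemma ae_cont (hL : IsLimit γ w F ns L) : ∀ᵐ β ∂vpos, ContinuousAt L β := by
  apply ae_restrict_of_ae
  filter_upwards [hL.mono.countable_not_continuousAt.ae_notMem volume] with β hβ
  by_contra h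
  exact hβ h

lemma exp_aux {B K x : ℝ} (hK : 0 ≤ K) (hB : 0 ≤ B) (hx : 0 < x) (hxB : x ≤ B) {y : ℝ} (hy : y ≤ K * (1 + x)) :
    y ≤ (K * (1 + B) * Real.exp B) * Real.exp (-(1 * x)) := by
  have h1 : 1 ≤ Real.exp B * Real.exp (-(1 * x)) := by
    rw [← Real.exp_add]
    apply Real.one_le_exp
    linarith
  calc y ≤ K * (1 + x) := hy
    _ ≤ K * (1 + B) := mul_le_mul_of_nonneg_left (by linarith) hK
    _ ≤ K * (1 + B) * (Real.exp B * Real.exp (-(1 * x))) := le_mul_of_one_le_right (by positivity) h1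
    _ = _ := by ring

theorem eq_of_windows_le (hL : IsLimit γ w F ns L) {B : ℝ} (hB : 0 ≤ B)
    (h : ∀ c d, B < c → c < d → ContinuousAt L c → ContinuousAt L d → L d - L c ≤ G2 d - G2 c) :
    ∀ᵐ β ∂vpos, L β = G2 β := by
  have hge : ∀ c, B < c → ContinuousAt L c → G2 c ≤ L c := by
    intro c hc hcc
    by_contra hcon
    rw [not_le] at hcon
    apply hL.not_bounded_away (B := c) (δ := G2 c - L c) (σ := -1) (by linarith) (by linarith) (by norm_num)
    filter_upwards [hL.ae_cont] with β hβ hcβ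
    have := h c β hc hcβ hcc hβ
    linarith
  obtain ⟨K, hK0, hK⟩ := hL.abs_D_le
  apply hL.eq_of_ge_exp (C := K * (1 + B) * Real.exp B) (c := 1) one_pos
  filter_upwards [hL.ae_cont, ae_restrict_mem measurableSet_Ioi] with x hx hx0
  have hx0' : 0 < x := hx0
  rcases le_or_gt x B with h1 | h1
  · apply exp_aux hK0.le hB hx0' h1
    have := (abs_le.mp (hK x hx0'.le)).1
    linarith
  · have := hge x h1 hx
    have h2 : 0 ≤ (K * (1 + B) * Real.exp B) * Real.exp (-(1 * x)) := by positivity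
    linarith

theorem eq_of_windows_ge (hL : IsLimit γ w F ns L) {B : ℝ} (hB : 0 ≤ B)
    (h : ∀ c d, B < c → c < d → ContinuousAt L c → ContinuousAt L d → G2 d - G2 c ≤ L d - L c) :
    ∀ᵐ β ∂vpos, L β = G2 β := by
  have hge : ∀ c, B < c → ContinuousAt L c → L c ≤ G2 c := by
    intro c hc hcc
    by_contra hcon
    rw [not_le] at hcon
    apply hL.not_bounded_away (B := c) (δ := L c - G2 c) (σ := 1) (by linarith) (by linarith) (by norm_num)
    filter_upwards [hL.ae_cont] with β hβ hcβ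
    have := h c β hc hcβ hcc hβ
    linarith
  obtain ⟨K, hK0, hK⟩ := hL.abs_D_le
  apply hL.eq_of_le_exp (C := K * (1 + B) * Real.exp B) (c := 1) one_pos
  filter_upwards [hL.ae_cont, ae_restrict_mem measurableSet_Ioi] with x hx hx0
  have hx0' : 0 < x := hx0
  rcases le_or_gt x B with h1 | h1
  · apply exp_aux hK0.le hB hx0' h1
    have := (abs_le.mp (hK x hx0'.le)).2
    linarith
  · have := hge x h1 hx
    have h2 : 0 ≤ (K * (1 + B) * Real.exp B) * Real.exp (-(1 * x)) := by positivity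
    linarith

theorem eq_of_le_exp' (hL : IsLimit γ w F ns L) {B C c : ℝ} (hB : 0 ≤ B) (hc : 0 < c)
    (hup : ∀ β, B ≤ β → ContinuousAt L β → L β - G2 β ≤ C * Real.exp (-(c * β))) : ∀ᵐ β ∂vpos, L β = G2 β := by
  obtain ⟨K, hK0, hK⟩ := hL.abs_D_le
  apply hL.eq_of_le_exp (C := |C| + K * (1 + B) * Real.exp B) (c := min c 1) (lt_min hc one_pos)
  filter_upwards [hL.ae_cont, ae_restrict_mem measurableSet_Ioi] with x hx hx0
  have hx0' : 0 < x := hx0
  have e1 : Real.exp (-(c * x)) ≤ Real.exp (-(min c 1 * x)) := by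
    apply Real.exp_le_exp.mpr
    have := mul_le_mul_of_nonneg_right (min_le_left c 1) hx0'.le
    linarith
  have e2 : Real.exp (-(1 * x)) ≤ Real.exp (-(min c 1 * x)) := by
    apply Real.exp_le_exp.mpr
    have := mul_le_mul_of_nonneg_right (min_le_right c 1) hx0'.le
    linarith
  have e3 : 0 ≤ K * (1 + B) * Real.exp B := by positivity
  rcases le_or_gt x B with h1 | h1
  · have := exp_aux hK0.le hB hx0' h1 (y := L x - G2 x) (abs_le.mp (hK x hx0'.le)).2
    calc L x - G2 x ≤ (K * (1 + B) * Real.exp B) * Real.exp (-(1 * x)) := this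
      _ ≤ (|C| + K * (1 + B) * Real.exp B) * Real.exp (-(min c 1 * x)) := by
        apply mul_le_mul _ e2 (by positivity) (by positivity)
        linarith [abs_nonneg C]
  · calc L x - G2 x ≤ C * Real.exp (-(c * x)) := hup x h1.le hx
      _ ≤ |C| * Real.exp (-(c * x)) := mul_le_mul_of_nonneg_right (le_abs_self C) (by positivity)
      _ ≤ (|C| + K * (1 + B) * Real.exp B) * Real.exp (-(min c 1 * x)) := by
        apply mul_le_mul _ e1 (by positivity) (by positivity)
        linarith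

theorem eq_of_ge_exp' (hL : IsLimit γ w F ns L) {B C c : ℝ} (hB : 0 ≤ B) (hc : 0 < c)
    (hup : ∀ β, B ≤ β → ContinuousAt L β → G2 β - L β ≤ C * Real.exp (-(c * β))) : ∀ᵐ β ∂vpos, L β = G2 β := by
  obtain ⟨K, hK0, hK⟩ := hL.abs_D_le
  apply hL.eq_of_ge_exp (C := |C| + K * (1 + B) * Real.exp B) (c := min c 1) (lt_min hc one_pos)
  filter_upwards [hL.ae_cont, ae_restrict_mem measurableSet_Ioi] with x hx hx0
  have hx0' : 0 < x := hx0
  have e1 : Real.exp (-(c * x)) ≤ Real.exp (-(min c 1 * x)) := by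
    apply Real.exp_le_exp.mpr
    have := mul_le_mul_of_nonneg_right (min_le_left c 1) hx0'.le
    linarith
  have e2 : Real.exp (-(1 * x)) ≤ Real.exp (-(min c 1 * x)) := by
    apply Real.exp_le_exp.mpr
    have := mul_le_mul_of_nonneg_right (min_le_right c 1) hx0'.le
    linarith
  have e3 : 0 ≤ K * (1 + B) * Real.exp B := by positivity
  rcases le_or_gt x B with h1 | h1
  · have := exp_aux hK0.le hB hx0' h1 (y := G2 x - L x) (by
      have := (abs_le.mp (hK x hx0'.le)).1
      linarith)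
    calc G2 x - L x ≤ (K * (1 + B) * Real.exp B) * Real.exp (-(1 * x)) := this
      _ ≤ (|C| + K * (1 + B) * Real.exp B) * Real.exp (-(min c 1 * x)) := by
        apply mul_le_mul _ e2 (by positivity) (by positivity)
        linarith [abs_nonneg C]
  · calc G2 x - L x ≤ C * Real.exp (-(c * x)) := hup x h1.le hx
      _ ≤ |C| * Real.exp (-(c * x)) := mul_le_mul_of_nonneg_right (le_abs_self C) (by positivity)
      _ ≤ (|C| + K * (1 + B) * Real.exp B) * Real.exp (-(min c 1 * x)) := by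
        apply mul_le_mul _ e1 (by positivity) (by positivity)
        linarith

end IsLimit

/-! ### From bounds on the counts to the conjecture -/

/-- pair correlation for all windows, abstract form -/
def AllWindows (γ w : ι → ℝ) (F : ℝ → Finset ι) : Prop :=
  ∀ α β : ℝ, α < β → Tendsto (fun T => PW γ w F T α β) atTop (𝓝 (PC.gue α β))

theorem allWindows_of_limits [Countable ι] (I : Inputs γ w F CR) (hw1 : ∀ i, 1 ≤ w i)
    (H : ∀ ns L, Tendsto ns atTop atTop → IsLimit γ w F ns L → ∀ᵐ β ∂vpos, L β = G2 β) : AllWindows γ w F :=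
  fun _ _ h => tendsto_windows I hw1 (tendsto_of_limits I hw1 H) h

lemma PW_symm_eq_MM (T β : ℝ) : PW γ w F T (-β) β = MM γ w F T β := by
  rw [MM_eq_SF]
  unfold PW
  simp only [abs_le]

theorem allWindows_of_le_exp [Countable ι] (I : Inputs γ w F CR) (hw1 : ∀ i, 1 ≤ w i) {B C c : ℝ} (hc : 0 < c)
    (h : ∀ β, B ≤ β → 0 < β → ∀ ε : ℝ, 0 < ε → ∀ᶠ T in atTop,
      PW γ w F T (-β) β ≤ PC.gue (-β) β + C * Real.exp (-(c * β)) + ε) : AllWindows γ w F := by
  apply allWindows_of_limits I hw1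
  intro ns L hns hL
  apply hL.eq_of_le_exp' (B := max B 1) (C := C) (c := c) (by positivity) hc
  intro β hβ hcont
  have hβ0 : 0 < β := lt_of_lt_of_le (by positivity) hβ
  apply le_of_forall_pos_le_add
  intro ε hε
  have h1 := hns.eventually (h β ((le_max_left _ _).trans hβ) hβ0 ε hε)
  simp_rw [PW_symm_eq_MM] at h1
  have h2 := le_of_tendsto (hL.conv β hcont) h1
  rw [← G2_eq hβ0.le] at h2
  linarith

theorem allWindows_of_ge_exp [Countable ι] (I : Inputs γ w F CR) (hw1 : ∀ i, 1 ≤ w i) {B C c : ℝ} (hc : 0 < c)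
    (h : ∀ β, B ≤ β → 0 < β → ∀ ε : ℝ, 0 < ε → ∀ᶠ T in atTop,
      PC.gue (-β) β - C * Real.exp (-(c * β)) - ε ≤ PW γ w F T (-β) β) : AllWindows γ w F := by
  apply allWindows_of_limits I hw1
  intro ns L hns hL
  apply hL.eq_of_ge_exp' (B := max B 1) (C := C) (c := c) (by positivity) hc
  intro β hβ hcont
  have hβ0 : 0 < β := lt_of_lt_of_le (by positivity) hβ
  apply le_of_forall_pos_le_add
  intro ε hε
  have h1 := hns.eventually (h β ((le_max_left _ _).trans hβ) hβ0 ε hε)
  simp_rw [PW_symm_eq_MM] at h1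
  have h2 := ge_of_tendsto (hL.conv β hcont) h1
  rw [← G2_eq hβ0.le] at h2
  linarith

lemma G2_sub_eq {c d : ℝ} (hc : 0 < c) : G2 d - G2 c = 2 * PC.gue c d := by
  rw [G2_eq_gg, G2_eq_gg, gue_eq, if_neg (fun h => by linarith [h.1])]
  ring

theorem allWindows_of_windows_le [Countable ι] (I : Inputs γ w F CR) (hw1 : ∀ i, 1 ≤ w i) {B : ℝ} (hB : 0 ≤ B)
    (h : ∀ α β, B < α → α < β → ∀ ε : ℝ, 0 < ε → ∀ᶠ T in atTop,
      PW γ w F T α β ≤ PC.gue α β + ε) : AllWindows γ w F := by
  apply allWindows_of_limits I hw1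
  intro ns L hns hL
  apply hL.eq_of_windows_le hB
  intro c d hc hcd hcc hcd'
  have hw := I.ord.w_nonneg
  apply le_of_forall_pos_le_add
  intro ε hε
  have h1 := hns.eventually (h c d hc hcd (ε / 2) (by positivity))
  have h2 : ∀ᶠ n in atTop, MM γ w F (ns n) d - MM γ w F (ns n) c ≤ 2 * PC.gue c d + ε := by
    filter_upwards [h1, hns.eventually_gt_atTop 1] with n h3 h4
    have h5 := HW_le_PW_sub (γ := γ) (w := w) (F := F) hw h4 c d
    have h6 := MM_eq_HW (γ := γ) (w := w) (F := F) (ns n) (β := c) (by linarith)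
    have h7 := MM_eq_HW (γ := γ) (w := w) (F := F) (ns n) (β := d) (by linarith)
    linarith
  have h3 := le_of_tendsto ((hL.conv d hcd').sub (hL.conv c hcc)) h2
  rw [G2_sub_eq (by linarith)]
  exact h3

theorem allWindows_of_windows_ge [Countable ι] (I : Inputs γ w F CR) (hw1 : ∀ i, 1 ≤ w i) {B : ℝ} (hB : 0 ≤ B)
    (h : ∀ α β, B < α → α < β → ∀ ε : ℝ, 0 < ε → ∀ᶠ T in atTop,
      PC.gue α β - ε ≤ PW γ w F T α β) : AllWindows γ w F := by
  apply allWindows_of_limits I hw1
  intro ns L hns hL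
  apply hL.eq_of_windows_ge hB
  intro c d hc hcd hcc hcd'
  have hw := I.ord.w_nonneg
  -- inequality for all α between c and d
  have key : ∀ α, c < α → α < d → G2 d - G2 α ≤ L d - L c := by
    intro α hα hαd
    apply le_of_forall_pos_le_add
    intro ε hε
    have h1 := hns.eventually (h α d (by linarith) hαd (ε / 2) (by positivity))
    have h2 : ∀ᶠ n in atTop, 2 * PC.gue α d - ε ≤ MM γ w F (ns n) d - MM γ w F (ns n) c := by
      filter_upwards [h1, hns.eventually_gt_atTop 1] with n h3 h4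
      have h5 := PW_le_HW_sub (γ := γ) (w := w) (F := F) hw h4 (by linarith : 0 ≤ c) hα hαd.le
      have h6 := MM_eq_HW (γ := γ) (w := w) (F := F) (ns n) (β := c) (by linarith)
      have h7 := MM_eq_HW (γ := γ) (w := w) (F := F) (ns n) (β := d) (by linarith)
      linarith
    have h3 := ge_of_tendsto ((hL.conv d hcd').sub (hL.conv c hcc)) h2
    rw [G2_sub_eq (by linarith)]
    linarith
  have hlim : Tendsto (fun α => G2 d - G2 α) (𝓝[>] c) (𝓝 (G2 d - G2 c)) :=
    ((continuous_const.sub continuous_G2).tendsto c).mono_left nhdsWithin_le_nhds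
  apply le_of_tendsto hlim
  have h4 : ∀ᶠ α in 𝓝[>] c, α < d := nhdsWithin_le_nhds (gt_mem_nhds hcd)
  filter_upwards [self_mem_nhdsWithin, h4] with α h1 h2
  exact key α h1 h2

end

end Pool.Agent.H6
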