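import Mathlib
import Pool.Agent.H6.OneSided2
import Pool.Agent.H6.Glue
import Pool.Agent.H5.ModuleA

open MeasureTheory Set Filter Topology
open scoped Real Interval ContDiff

namespace Pool.Agent.H6

/-- All facts about the zeros follow from RH. -/
theorem zetaFacts (RH : RiemannHypothesis) : ZetaFacts :=
  ⟨H5.Z_countable, fun _ ha t => H5.hasSum_poisson RH ha t⟩

instance : Countable PC.Z := H5.Z_countable.to_subtype

theorem exists_inputs (RH : RiemannHypothesis) : ∃ CR, Inputs gZ wZ FZ CR := inputs (zetaFacts RH)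

lemma one_le_wZ (i : PC.Z) : 1 ≤ wZ i := by
  unfold wZ
  exact_mod_cast H5.one_le_m i.2

lemma one_sub_sinc_pos {u : ℝ} (hu : u ≠ 0) : 0 < 1 - (Real.sinc (π * u)) ^ 2 := by
  have h0 : π * u ≠ 0 := mul_ne_zero Real.pi_ne_zero hu
  rw [Real.sinc_of_ne_zero h0, div_pow]
  have h1 := Real.sin_sq_lt_sq h0
  have h2 : 0 < (π * u) ^ 2 := by positivity
  have h3 : Real.sin (π * u) ^ 2 / (π * u) ^ 2 < 1 := by
    rw [div_lt_one h2]; exact h1
  linarith

lemma gue_pos {α β : ℝ} (h : α < β) : 0 < PC.gue α β := by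
  unfold PC.gue
  by_cases h0 : α ≤ 0 ∧ 0 ≤ β
  · rw [if_pos h0]
    have : 0 ≤ ∫ u in α..β, (1 - (Real.sinc (π * u)) ^ 2) :=
      intervalIntegral.integral_nonneg h.le fun u _ => one_sub_sinc_nonneg u
    linarith
  · rw [if_neg h0, add_zero]
    apply intervalIntegral.intervalIntegral_pos_of_pos_on (intervalIntegrable_gue _ _) _ h
    intro x hx
    apply one_sub_sinc_pos
    rintro rfl
    exact h0 ⟨hx.1.le, hx.2.le⟩

/-- The abstract window count is the normalised count of the problem. -/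
theorem PW_eq (RH : RiemannHypothesis) {T : ℝ} (hT : 1 < T) (α β : ℝ) :
    PW gZ wZ FZ T α β = PC.pairCount T α β / PC.norm T := by
  rw [pairCount_eq RH, PW, SF, one_div, mul_comm, ← div_eq_mul_inv]
  congr 1
  apply Finset.sum_congr rfl
  intro i _
  apply Finset.sum_congr rfl
  intro j _
  have hl := Real.log_pos hT
  have hiff : (α ≤ (gZ i - gZ j) * Real.log T / (2 * π) ∧ (gZ i - gZ j) * Real.log T / (2 * π) ≤ β) ↔
      (2 * π * α / Real.log T ≤ gZ i - gZ j ∧ gZ i - gZ j ≤ 2 * π * β / Real.log T) := by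
    rw [le_div_iff₀ (by positivity), div_le_iff₀ (by positivity), div_le_iff₀ hl, le_div_iff₀ hl,
      mul_comm α, mul_comm β]
  simp only [hiff]
  split_ifs <;> ring

theorem pairCorrelation_iff (RH : RiemannHypothesis) {α β : ℝ} (h : α < β) :
    PC.PairCorrelation α β ↔ Tendsto (fun T => PW gZ wZ FZ T α β) atTop (𝓝 (PC.gue α β)) := by
  have hg := gue_pos h
  unfold PC.PairCorrelation
  constructor
  · intro h1
    have h2 := h1.mul_const (PC.gue α β)
    rw [one_mul] at h2
    apply h2.congr'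
    filter_upwards [eventually_gt_atTop 1] with T hT
    have hn := norm_pos hT
    rw [PW_eq RH hT]
    field_simp
  · intro h1
    have h2 := h1.div_const (PC.gue α β)
    rw [div_self hg.ne'] at h2
    apply h2.congr'
    filter_upwards [eventually_gt_atTop 1] with T hT
    have hn := norm_pos hT
    rw [PW_eq RH hT]
    field_simp

theorem allWindows_iff (RH : RiemannHypothesis) :
    (∀ α β : ℝ, α < β → PC.PairCorrelation α β) ↔ AllWindows gZ wZ FZ :=
  ⟨fun h α β hab => (pairCorrelation_iff RH hab).mp (h α β hab),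
    fun h α β hab => (pairCorrelation_iff RH hab).mpr (h α β hab)⟩

lemma le_iff (RH : RiemannHypothesis) {α β K : ℝ} :
    (∀ᶠ T in atTop, PC.pairCount T α β ≤ K * PC.norm T) ↔ (∀ᶠ T in atTop, PW gZ wZ FZ T α β ≤ K) := by
  apply eventually_congr
  filter_upwards [eventually_gt_atTop 1] with T hT
  rw [PW_eq RH hT, div_le_iff₀ (norm_pos hT)]

lemma ge_iff (RH : RiemannHypothesis) {α β K : ℝ} :
    (∀ᶠ T in atTop, K * PC.norm T ≤ PC.pairCount T α β) ↔ (∀ᶠ T in atTop, K ≤ PW gZ wZ FZ T α β) := by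
  apply eventually_congr
  filter_upwards [eventually_gt_atTop 1] with T hT
  rw [PW_eq RH hT, le_div_iff₀ (norm_pos hT)]

end Pool.Agent.H6
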