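import Mathlib
import Pool.Agent.H6.Assembly
import Pool.Agent.H6.Gam

open MeasureTheory Set Filter Topology
open scoped Real Interval

namespace Pool.Agent.H6

namespace TestFn

variable {s : ℝ} {φ : ℝ → ℝ}

lemma exists_bound_cosT (hφ : TestFn s φ) : ∃ C, 0 ≤ C ∧ ∀ ξ, |cosT φ ξ| ≤ C :=
  ⟨∫ u, |φ u|, integral_nonneg fun _ => abs_nonneg _, fun ξ => abs_cosT_le hφ.integrable ξ⟩

lemma integrable_q_mul_bdd (hφ : TestFn s φ) (hs : 0 < s) {a L : ℝ} (ha : 0 < a) (hL : 0 < L)
    {f : ℝ → ℝ} (hf : Continuous f) {B : ℝ} (hB : ∀ t, |f t| ≤ B) (t : ℝ) :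
    Integrable (fun u => q φ a L u * f (t - u)) := by
  apply Integrable.mul_bdd (c := B) (hφ.integrable_q hs ha hL)
  · exact (hf.comp (continuous_const.sub continuous_id)).aestronglyMeasurable
  · exact ae_of_all _ fun u => by rw [Real.norm_eq_abs]; exact hB _

lemma pk_le_inv {b : ℝ} (hb : 0 < b) (t : ℝ) : |pk b t| ≤ 1 / b := by
  rw [abs_of_nonneg (pk_nonneg hb t)]
  unfold pk
  rw [div_le_div_iff₀ (by positivity) hb]
  nlinarith [sq_nonneg t]

lemma integral_q_pd (hφ : TestFn s φ) (hs : 0 < s) (hz : cosT φ 0 = 0) {a L : ℝ} (ha : 1 / 2 < a) (hL : 0 < L)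
    (j : ℕ) (t : ℝ) :
    ∫ u, q φ a L u * pd a j (t - u)
      = -((2 / L) * ∫ v in Ioi (0 : ℝ), Real.exp (-(bj a j * v)) * (HB φ (a * L) (v / L) * Real.cos (v * t))) := by
  have ha0 : 0 < a := by linarith
  have hb := bj_pos ha j
  unfold pd
  have e : ∀ u, q φ a L u * (pk (bj a j) 0 - pk (bj a j) (t - u))
      = pk (bj a j) 0 * q φ a L u - q φ a L u * pk (bj a j) (t - u) := by
    intro u; ring
  simp_rw [e]
  rw [integral_sub ((hφ.integrable_q hs ha0 hL).const_mul _)
    (hφ.integrable_q_mul_bdd hs ha0 hL (continuous_pk hb) (pk_le_inv hb) t), integral_const_mul,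
    hφ.integral_q hs ha0 hL, hz, hφ.integral_q_pk' hs ha0 hL hb]
  ring

lemma abs_integral_q_pd_le (hφ : TestFn s φ) (hs : 0 < s) {c : ℝ} (hc : 0 < c)
    (hz : ∀ ξ, |ξ| ≤ c → cosT φ ξ = 0) {B : ℝ} (hB : ∀ ξ, |cosT φ ξ| ≤ B) {a L : ℝ} (ha : 1 / 2 < a) (hL : 1 ≤ L)
    (j : ℕ) (t : ℝ) :
    |∫ u, q φ a L u * pd a j (t - u)| ≤ 2 * B * Real.exp (-(c * L / 2)) * Real.exp (-((2 * j + 1) * c)) := by
  have hL0 : 0 < L := by linarith
  have hB0 : 0 ≤ B := (abs_nonneg _).trans (hB 0)
  rw [hφ.integral_q_pd hs (hz 0 (by simp; exact hc.le)) ha hL0, abs_neg, abs_mul, abs_of_pos (by positivity : 0 < 2 / L)]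
  have hexp : Integrable (fun v : ℝ => Real.exp (-v)) (volume.restrict (Ioi 0)) := by
    have := exp_neg_integrableOn_Ioi 0 (one_pos)
    simp only [neg_mul, one_mul] at this
    exact this
  have h1 : |∫ v in Ioi (0 : ℝ), Real.exp (-(bj a j * v)) * (HB φ (a * L) (v / L) * Real.cos (v * t))|
      ≤ ∫ v in Ioi (0 : ℝ), (B * Real.exp (-(c * L / 2)) * Real.exp (-((2 * j + 1) * c))) * Real.exp (-v) := by
    refine abs_integral_le_integral_abs.trans ?_
    apply integral_mono_of_nonneg (ae_of_all _ fun _ => abs_nonneg _) (hexp.const_mul _)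
    filter_upwards [ae_restrict_mem measurableSet_Ioi] with v hv
    have hv0 : 0 < v := hv
    unfold HB
    rw [abs_mul, abs_mul, abs_mul, abs_of_pos (Real.exp_pos _), abs_of_pos (Real.exp_pos _)]
    rcases le_or_gt v (c * L) with h | h
    · rw [hz (v / L)]
      · simp only [abs_zero, zero_mul, mul_zero]
        positivity
      · rw [abs_of_pos (by positivity), div_le_iff₀ hL0]
        exact h
    · have e1 : Real.exp (a * L * |v / L|) = Real.exp (a * v) := by
        rw [abs_of_pos (by positivity)]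
        congr 1
        field_simp
      rw [e1]
      have e2 : Real.exp (-(bj a j * v)) * Real.exp (a * v) ≤
          Real.exp (-(c * L / 2)) * Real.exp (-((2 * j + 1) * c)) * Real.exp (-v) := by
        rw [← Real.exp_add, ← Real.exp_add, ← Real.exp_add]
        apply Real.exp_le_exp.mpr
        unfold bj
        have hcv : c ≤ v := by nlinarith
        have hj : (0 : ℝ) ≤ j := by positivity
        nlinarith [mul_le_mul_of_nonneg_left hcv hj]
      calc Real.exp (-(bj a j * v)) * (|cosT φ (v / L)| * Real.exp (a * v) * |Real.cos (v * t)|)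
          = (Real.exp (-(bj a j * v)) * Real.exp (a * v)) * (|cosT φ (v / L)| * |Real.cos (v * t)|) := by ring
        _ ≤ (Real.exp (-(c * L / 2)) * Real.exp (-((2 * j + 1) * c)) * Real.exp (-v)) * (B * 1) := by
            apply mul_le_mul e2 _ (by positivity) (by positivity)
            exact mul_le_mul (hB _) (Real.abs_cos_le_one _) (abs_nonneg _) hB0
        _ = _ := by ring
  rw [integral_const_mul, integral_exp_neg_Ioi_zero, mul_one] at h1
  have h2 : 2 / L ≤ 2 := by
    rw [div_le_iff₀ hL0]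
    linarith
  calc 2 / L * |∫ v in Ioi (0 : ℝ), Real.exp (-(bj a j * v)) * (HB φ (a * L) (v / L) * Real.cos (v * t))|
      ≤ 2 * (B * Real.exp (-(c * L / 2)) * Real.exp (-((2 * j + 1) * c))) :=
        mul_le_mul h2 h1 (abs_nonneg _) (by norm_num)
    _ = _ := by ring

/-- The smooth main term of the explicit formula (from the pole). -/
noncomputable def PM (φ : ℝ → ℝ) (L t : ℝ) : ℝ :=
  (2 / L) * ∫ v in Ioi (0 : ℝ), Real.exp (v / 2) * (cosT φ (v / L) * Real.cos (t * v))

/-- Explicit formula for test functions whose transform vanishes near `0`. -/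
theorem exists_away (hφ : TestFn s φ) (hs : 0 < s) {c : ℝ} (hc : 0 < c)
    (hz : ∀ ξ, |ξ| ≤ c → cosT φ ξ = 0) {γ w : PC.Z → ℝ} {a : ℝ} (ha : 1 / 2 < a)
    [Countable PC.Z] (hP : PoissonInput γ w a (PC.arch a)) :
    ∃ C, 0 ≤ C ∧ ∀ L, 1 ≤ L → ∀ t, |SS γ w φ L t - (PM φ L t - WW φ L t)| ≤ C * Real.exp (-(c * L / 2)) := by
  obtain ⟨B, hB0, hB⟩ := hφ.exists_bound_cosT
  obtain ⟨C', hC0', hC'⟩ := hP.bound_A
  have ha0 : 0 < a := by linarith
  have hr0 : 0 ≤ Real.exp (-(2 * c)) := (Real.exp_pos _).le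
  have hr1 : Real.exp (-(2 * c)) < 1 := by
    rw [Real.exp_lt_one_iff]; linarith
  refine ⟨2 * B * (1 - Real.exp (-(2 * c)))⁻¹, by
    have : 0 < 1 - Real.exp (-(2 * c)) := by linarith
    positivity, fun L hL t => ?_⟩
  have hL0 : 0 < L := by linarith
  rw [hP.SS_eq hφ hs hL]
  set f : ℝ → ℝ := fun t => PC.arch a t - ka a - pk (a - 1 / 2) t with hf
  have hb' : 0 < a - 1 / 2 := by linarith
  have hfc : Continuous f := by
    have h1 := hP.cont
    have h2 := continuous_pk hb'
    simp only [hf]
    fun_prop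
  have hq := hφ.integrable_q hs ha0 hL0
  -- integrability of q f
  have hAb : ∀ t, |PC.arch a t| ≤ C' * (1 + |t|) ^ (1 / 2 : ℝ) := fun t =>
    (hC' t).trans (mul_le_mul_of_nonneg_left (PoissonInput.rpow_quarter_le_half t) hC0')
  have i1 := hφ.integrable_q_mul hs ha0 hL hP.cont hAb t
  have i2 := hφ.integrable_q_mul_bdd hs ha0 hL0 (continuous_pk hb') (pk_le_inv hb') t
  have i3 : Integrable (fun u => ka a * q φ a L u) := hq.const_mul _
  have hqf : Integrable (fun u => q φ a L u * f (t - u)) := by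
    have := (i1.sub i3).sub i2
    apply this.congr
    apply ae_of_all
    intro u
    simp only [hf, Pi.sub_apply]
    ring
  have hconv : ∫ u, q φ a L u * PC.arch a (t - u) = (∫ u, q φ a L u * f (t - u)) + PM φ L t := by
    have e : ∀ u, q φ a L u * PC.arch a (t - u)
        = q φ a L u * f (t - u) + (ka a * q φ a L u + q φ a L u * pk (a - 1 / 2) (t - u)) := by
      intro u; simp only [hf]; ring
    simp_rw [e]
    have i23 : Integrable (fun u => ka a * q φ a L u + q φ a L u * pk (a - 1 / 2) (t - u)) := i3.add i2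
    rw [integral_add hqf i23, integral_add i3 i2, integral_const_mul, hφ.integral_q hs ha0 hL0,
      hz 0 (by simp; exact hc.le), hφ.integral_q_pk' hs ha0 hL0 hb']
    have e2 : ∫ v in Ioi (0 : ℝ), Real.exp (-((a - 1 / 2) * v)) * (HB φ (a * L) (v / L) * Real.cos (v * t))
        = ∫ v in Ioi (0 : ℝ), Real.exp (v / 2) * (cosT φ (v / L) * Real.cos (t * v)) := by
      apply setIntegral_congr_fun measurableSet_Ioi
      intro v hv
      have hv0 : 0 < v := hv
      simp only
      unfold HB
      have e1 : Real.exp (a * L * |v / L|) = Real.exp (a * v) := by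
        rw [abs_of_pos (by positivity)]
        congr 1
        field_simp
      rw [e1]
      have e3 : Real.exp (v / 2) = Real.exp (-((a - 1 / 2) * v)) * Real.exp (a * v) := by
        rw [← Real.exp_add]; congr 1; ring
      rw [e3, mul_comm v t]
      ring
    rw [e2]
    unfold PM
    ring
  rw [hconv]
  have e4 : (∫ u, q φ a L u * f (t - u)) + PM φ L t - WW φ L t - (PM φ L t - WW φ L t)
      = ∫ u, q φ a L u * f (t - u) := by ring
  rw [e4]
  -- the tail as a limit
  have hpart : ∀ n : ℕ, |∫ u, q φ a L u * ∑ j ∈ Finset.range n, pd a j (t - u)|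
      ≤ 2 * B * (1 - Real.exp (-(2 * c)))⁻¹ * Real.exp (-(c * L / 2)) := by
    intro n
    have hpd : ∀ j, Integrable (fun u => q φ a L u * pd a j (t - u)) := by
      intro j
      have hbj := bj_pos ha j
      apply hφ.integrable_q_mul_bdd hs ha0 hL0 (continuous_pd ha j) (B := 1 / bj a j + 1 / bj a j)
      intro t
      unfold pd
      exact (abs_sub _ _).trans (add_le_add (pk_le_inv hbj _) (pk_le_inv hbj _))
    simp_rw [Finset.mul_sum]
    rw [integral_finsetSum _ (fun j _ => hpd j)]
    calc |∑ j ∈ Finset.range n, ∫ u, q φ a L u * pd a j (t - u)|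
        ≤ ∑ j ∈ Finset.range n, |∫ u, q φ a L u * pd a j (t - u)| := Finset.abs_sum_le_sum_abs _ _
      _ ≤ ∑ j ∈ Finset.range n, (2 * B * Real.exp (-(c * L / 2))) * (Real.exp (-(2 * c))) ^ j := by
          apply Finset.sum_le_sum
          intro j _
          refine (hφ.abs_integral_q_pd_le hs hc hz hB ha hL j t).trans ?_
          apply mul_le_mul_of_nonneg_left _ (by positivity)
          rw [← Real.exp_nat_mul]
          apply Real.exp_le_exp.mpr
          nlinarith
      _ = (2 * B * Real.exp (-(c * L / 2))) * ∑ j ∈ Finset.range n, (Real.exp (-(2 * c))) ^ j := by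
          rw [Finset.mul_sum]
      _ ≤ (2 * B * Real.exp (-(c * L / 2))) * (1 - Real.exp (-(2 * c)))⁻¹ := by
          apply mul_le_mul_of_nonneg_left _ (by positivity)
          rw [← tsum_geometric_of_lt_one hr0 hr1]
          exact (summable_geometric_of_lt_one hr0 hr1).sum_le_tsum _ (fun i _ => pow_nonneg hr0 i)
      _ = _ := by ring
  have hlim : Tendsto (fun n : ℕ => ∫ u, q φ a L u * ∑ j ∈ Finset.range n, pd a j (t - u)) atTop
      (𝓝 (∫ u, q φ a L u * f (t - u))) := by
    apply tendsto_integral_of_dominated_convergence (fun u => |q φ a L u * f (t - u)|) _ hqf.abs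
    · intro n
      apply ae_of_all
      intro u
      rw [Real.norm_eq_abs, abs_mul, abs_mul]
      apply mul_le_mul_of_nonneg_left _ (abs_nonneg _)
      have h0 : 0 ≤ ∑ j ∈ Finset.range n, pd a j (t - u) := Finset.sum_nonneg fun j _ => pd_nonneg ha j _
      rw [abs_of_nonneg h0]
      have hmono : Monotone (fun n : ℕ => ∑ j ∈ Finset.range n, pd a j (t - u)) := by
        apply monotone_nat_of_le_succ
        intro k
        rw [Finset.sum_range_succ]
        linarith [pd_nonneg ha k (t - u)]
      have := hmono.ge_of_tendsto (arch_tendsto ha (t - u)) n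
      exact this.trans (le_abs_self _)
    · apply ae_of_all
      intro u
      exact (arch_tendsto ha (t - u)).const_mul _
    · intro n
      have h1 : Continuous fun u => q φ a L u * ∑ j ∈ Finset.range n, pd a j (t - u) := by
        have h2 := hφ.continuous_q a L
        have h3 := fun j => continuous_pd ha j
        apply h2.mul
        apply continuous_finsetSum
        intro j _
        exact (h3 j).comp (continuous_const.sub continuous_id)
      exact h1.aestronglyMeasurable
  exact le_of_tendsto hlim.abs (Eventually.of_forall hpart)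

end TestFn

end Pool.Agent.H6
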