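import Mathlib
import Pool.Agent.H6.Nice

open MeasureTheory Set Filter Topology FourierTransform
open scoped Real Interval SchwartzMap ContDiff

namespace Pool.Agent.H6

lemma integrable_pow_of_decay {κ : ℝ → ℝ} (hc : Continuous κ)
    (hd : ∀ n : ℕ, ∃ C, 0 ≤ C ∧ ∀ u, |κ u| ≤ C / (1 + u ^ 2) ^ n) (n : ℕ) :
    Integrable (fun u => |u| ^ n * |κ u|) := by
  obtain ⟨C, hC0, hC⟩ := hd (n + 1)
  apply Integrable.mono' (integrable_inv_one_add_sq.const_mul C)
  · exact (by fun_prop : Continuous fun u => |u| ^ n * |κ u|).aestronglyMeasurable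
  · apply ae_of_all
    intro u
    rw [Real.norm_eq_abs, abs_of_nonneg (by positivity)]
    have h1 : |u| ^ n ≤ (1 + u ^ 2) ^ n := by
      apply pow_le_pow_left₀ (abs_nonneg _)
      nlinarith [sq_abs u, sq_nonneg (|u| - 1), abs_nonneg u]
    calc |u| ^ n * |κ u| ≤ (1 + u ^ 2) ^ n * (C / (1 + u ^ 2) ^ (n + 1)) :=
          mul_le_mul h1 (hC u) (abs_nonneg _) (by positivity)
      _ = C * (1 + u ^ 2)⁻¹ := by
          have : (1 + u ^ 2) ≠ 0 := by positivity
          rw [pow_succ]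
          field_simp
          ring

/-- The cosine transform of a rapidly decaying band limited even function is nice. -/
lemma nice_cosT {κ : ℝ → ℝ} (hc : Continuous κ) (heven : ∀ u, κ (-u) = κ u)
    (hd : ∀ n : ℕ, ∃ C, 0 ≤ C ∧ ∀ u, |κ u| ≤ C / (1 + u ^ 2) ^ n) {s : ℝ} (hs0 : 0 < s)
    (hs : ∀ ξ, s ≤ |ξ| → cosT κ ξ = 0) : Nice (cosT κ) ∧ ∀ u, cosT (cosT κ) u = κ u := by
  have hi : Integrable κ := by
    have := integrable_pow_of_decay hc hd 0
    simp only [pow_zero, one_mul] at this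
    exact (integrable_norm_iff hc.aestronglyMeasurable).mp this
  have hF : ContDiff ℝ ∞ (𝓕 (fun u => (κ u : ℂ))) := by
    apply Real.contDiff_fourier
    intro n _
    have := integrable_pow_of_decay hc hd n
    simpa [Complex.norm_real] using this
  have heq : cosT κ = fun ξ => (𝓕 (fun u => (κ u : ℂ)) ξ).re := by
    ext ξ
    rw [fourier_ofReal_even hi heven, Complex.ofReal_re]
  have hsm : ContDiff ℝ ∞ (cosT κ) := by
    rw [heq]
    exact Complex.reCLM.contDiff.comp hF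
  refine ⟨⟨hsm, cosT_neg κ, s, hs0, hs⟩, fun u => ?_⟩
  apply cosT_cosT hc hi heven
  exact hsm.continuous.integrable_of_hasCompactSupport (hasCompactSupport_of_supp hs)

lemma cosT_const_mul (c : ℝ) (f : ℝ → ℝ) (u : ℝ) : cosT (fun ξ => c * f ξ) u = c * cosT f u := by
  unfold cosT
  rw [← integral_const_mul]
  congr 1
  ext ξ
  ring

/-- A nice function with nonnegative cosine transform and value `1` at the origin. -/
lemma exists_posdef : ∃ χ : ℝ → ℝ, Nice χ ∧ (∀ u, 0 ≤ cosT χ u) ∧ χ 0 = 1 := by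
  obtain ⟨κ, hκc, hκ0, hκ1, hκz, hκe, hκd, hκs⟩ := exists_kappa
  have hd : ∀ n : ℕ, ∃ C, 0 ≤ C ∧ ∀ u, |κ u| ≤ C / (1 + u ^ 2) ^ n := by
    intro n
    obtain ⟨C, hC0, hC⟩ := hκd n
    exact ⟨C, hC0, fun u => by rw [abs_of_nonneg (hκ0 u)]; exact hC u⟩
  obtain ⟨hn, hinv⟩ := nice_cosT hκc hκe hd one_pos hκs
  have hi : Integrable κ := by
    have := integrable_pow_of_decay hκc hd 0
    simp only [pow_zero, one_mul] at this
    exact (integrable_norm_iff hκc.aestronglyMeasurable).mp this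
  have hpos : 0 < cosT κ 0 := by
    have h1 : cosT κ 0 = ∫ u, κ u := by unfold cosT; simp
    rw [h1]
    rw [integral_pos_iff_support_of_nonneg hκ0 hi]
    apply IsOpen.measure_pos
    · exact hκc.isOpen_support
    · exact ⟨0, by simp [hκz]⟩
  refine ⟨fun ξ => (cosT κ 0)⁻¹ * cosT κ ξ, hn.const_mul _, fun u => ?_, ?_⟩
  · have h2 : cosT (fun ξ => (cosT κ 0)⁻¹ * cosT κ ξ) u = (cosT κ 0)⁻¹ * κ u := by
      rw [← hinv u, cosT_const_mul]
    rw [h2]
    exact mul_nonneg (inv_nonneg.mpr hpos.le) (hκ0 u)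
  · simp only
    field_simp

end Pool.Agent.H6
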