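import Mathlib
import Pool.Agent.H6.NiceFT
import Pool.Agent.H6.Split

open MeasureTheory Set Filter Topology FourierTransform
open scoped Real Interval ContDiff SchwartzMap

namespace Pool.Agent.H6

/-- The cosine transform of a nice function is smooth. -/
lemma Nice.contDiff_cosT {g : ℝ → ℝ} (ng : Nice g) : ContDiff ℝ ∞ (cosT g) := by
  have hint := ng.integrable
  have hcC : HasCompactSupport (fun x => (g x : ℂ)) := ng.hasCompactSupport.comp_left (g := fun x : ℝ => (x : ℂ)) (by simp)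
  have hgC : ContDiff ℝ ∞ (fun x => (g x : ℂ)) := Complex.ofRealCLM.contDiff.comp ng.smooth
  set f : 𝓢(ℝ, ℂ) := hcC.toSchwartzMap hgC with hf
  set Fs : 𝓢(ℝ, ℂ) := 𝓕 f with hFs
  have hval : ∀ u, Fs u = (cosT g u : ℂ) := by
    intro u
    rw [hFs, SchwartzMap.fourier_coe]
    have : (f : ℝ → ℂ) = fun x => (g x : ℂ) := rfl
    rw [this, fourier_ofReal_even hint ng.even]
  have heq : cosT g = fun ξ => (Fs ξ).re := by
    ext ξ
    rw [hval, Complex.ofReal_re]
  rw [heq]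
  exact Complex.reCLM.contDiff.comp (Fs.smooth ⊤)

lemma Nice.cosT_test {χ : ℝ → ℝ} (h : Nice χ) : ∃ s, 0 < s ∧ TestFn s (cosT χ) := by
  obtain ⟨s, hs0, hs⟩ := h.supp
  exact ⟨s, hs0, (h.reg hs).test⟩

/-- Positive definite functions are bounded by their value at the origin. -/
lemma Nice.abs_le_of_pos {χ : ℝ → ℝ} (h : Nice χ) (hpos : ∀ u, 0 ≤ cosT χ u) (x : ℝ) : |χ x| ≤ χ 0 := by
  obtain ⟨s, _, hφ⟩ := h.cosT_test
  rw [← h.inv x]
  refine (abs_cosT_le hφ.integrable x).trans (le_of_eq ?_)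
  rw [← h.inv 0]
  conv_rhs => unfold cosT
  congr 1
  ext u
  rw [abs_of_nonneg (hpos u)]
  change cosT χ u = cosT χ u * Real.cos (2 * π * u * 0)
  simp

lemma cosT_zero_eq (f : ℝ → ℝ) : cosT f 0 = ∫ x, f x := by unfold cosT; simp

/-- Test functions localised in both variables. -/
lemma exists_local : ∃ C₀ c₀ : ℝ, 0 < C₀ ∧ 0 < c₀ ∧ ∀ β B ε : ℝ, 0 < β → 0 < B → β * B ≤ c₀ → 0 < ε →
    ∃ χ : ℝ → ℝ, Nice χ ∧ (∀ u, 0 ≤ cosT χ u) ∧ χ 0 = 1 ∧ (∀ x, |χ x| ≤ 1) ∧ (∀ x, |x| ≤ B → 1 / 2 ≤ χ x) ∧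
      (∫ x, χ x ^ 2) ≤ C₀ / β ∧
      ∀ u, cosT (fun x => χ x ^ 2) u ≤ (if |u| ≤ β then ∫ x, χ x ^ 2 else 0) + ε * Maj u := by
  obtain ⟨ψ, nψ, zψ, oψ, pψ, lψ⟩ := exists_nice_plateau (s := 1 / 8) (s' := 1 / 4) (by norm_num) (by norm_num)
  obtain ⟨χ₀, n0, hpos0, h00⟩ := exists_posdef
  set m₀ := ∫ x, ψ x with hm₀
  have hm0 : 0 < m₀ := by
    rw [hm₀, integral_pos_iff_support_of_nonneg pψ nψ.integrable]
    apply IsOpen.measure_pos
    · exact nψ.continuous.isOpen_support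
    · exact ⟨0, by simp [oψ 0 (by norm_num)]⟩
  have hψt := (nψ.reg zψ).test
  set Ψ : ℝ → ℝ := fun x => m₀⁻¹ * cosT ψ x with hΨ
  have hΨc : Continuous Ψ := by
    have := hψt.cont
    simp only [hΨ]
    fun_prop
  have hΨs : ContDiff ℝ ∞ Ψ := contDiff_const.mul nψ.contDiff_cosT
  have hΨe : ∀ x, Ψ (-x) = Ψ x := by intro x; simp only [hΨ]; rw [cosT_neg]
  have hΨi : Integrable Ψ := hψt.integrable.const_mul _
  have hΨ0 : Ψ 0 = 1 := by
    simp only [hΨ]
    rw [cosT_zero_eq, ← hm₀]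
    field_simp
  have hΨ1 : ∀ x, |Ψ x| ≤ 1 := by
    intro x
    simp only [hΨ]
    rw [abs_mul, abs_of_pos (by positivity), inv_mul_le_iff₀ hm0, mul_one]
    refine (abs_cosT_le nψ.integrable x).trans (le_of_eq ?_)
    rw [hm₀]
    congr 1
    ext u
    rw [abs_of_nonneg (pψ u)]
  have hcΨ : ∀ u, cosT Ψ u = m₀⁻¹ * ψ u := by
    intro u
    simp only [hΨ]
    rw [cosT_const_mul, nψ.inv]
  have hΨsqi : Integrable (fun x => Ψ x ^ 2) := by
    have : (fun x => Ψ x ^ 2) = fun x => Ψ x * Ψ x := by ext x; ring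
    rw [this]
    apply Integrable.mul_bdd (c := 1) hΨi hΨc.aestronglyMeasurable
    exact ae_of_all _ fun x => by rw [Real.norm_eq_abs]; exact hΨ1 x
  set S := ∫ x, Ψ x ^ 2 with hS
  have hS0 : 0 ≤ S := integral_nonneg fun x => sq_nonneg _
  -- support of the transform of the square
  have hΨsq : ∀ z, 1 / 2 ≤ |z| → cosT (fun x => Ψ x ^ 2) z = 0 := by
    intro z hz
    have h1 := cosT_sq_eq_zero nψ.continuous nψ.integrable nψ.even hψt.integrable zψ (ξ := z) (by linarith)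
    have e : (fun x => Ψ x ^ 2) = fun x => (m₀⁻¹ ^ 2) * cosT ψ x ^ 2 := by
      ext x
      simp only [hΨ]
      ring
    rw [e, cosT_const_mul, h1, mul_zero]
  -- continuity constants
  have hc1 := hΨc.continuousAt (x := 0)
  rw [Metric.continuousAt_iff] at hc1
  obtain ⟨r1, hr1, hr1'⟩ := hc1 (1 / 4) (by norm_num)
  have hc2 := n0.continuous.continuousAt (x := 0)
  rw [Metric.continuousAt_iff] at hc2
  obtain ⟨r2, hr2, hr2'⟩ := hc2 (1 / 4) (by norm_num)
  have n0sq := n0.sq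
  obtain ⟨D0, hD00, hD0⟩ := cosT_decay n0sq.smooth n0sq.hasCompactSupport n0sq.even 0
  obtain ⟨D6, hD60, hD6⟩ := cosT_decay n0sq.smooth n0sq.hasCompactSupport n0sq.even 6
  have hdec : ∀ v, |cosT (fun x => χ₀ x ^ 2) v| * (1 + v ^ 2) ^ 3 ≤ 8 * (D0 + D6) := by
    intro v
    have h0 := hD0 v
    have h6 := hD6 v
    rw [pow_zero, one_mul] at h0
    have h7 := one_add_pow_le (sq_nonneg v) 3
    have h8 : (v ^ 2) ^ 3 = |v| ^ 6 := by rw [← sq_abs, ← pow_mul]
    rw [h8] at h7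
    calc |cosT (fun x => χ₀ x ^ 2) v| * (1 + v ^ 2) ^ 3 ≤ |cosT (fun x => χ₀ x ^ 2) v| * (2 ^ 3 * (1 + |v| ^ 6)) :=
          mul_le_mul_of_nonneg_left h7 (abs_nonneg _)
      _ = 8 * (|cosT (fun x => χ₀ x ^ 2) v| + |v| ^ 6 * |cosT (fun x => χ₀ x ^ 2) v|) := by ring
      _ ≤ _ := by linarith
  set C₁ := 8 * (D0 + D6) with hC₁
  have hC₁0 : 0 < C₁ := by positivity
  refine ⟨S + 1, r1 / 2, by positivity, by positivity, fun β B ε hβ hB hβB hε => ?_⟩
  set A := max 1 (max (2 * B / r2) (64 * 2048 * C₁ * S / (ε * β ^ 2))) with hA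
  have hA1 : 1 ≤ A := le_max_left _ _
  have hA0 : 0 < A := by linarith
  have hA2 : 2 * B / r2 ≤ A := (le_max_left _ _).trans (le_max_right _ _)
  have hA3 : 64 * 2048 * C₁ * S / (ε * β ^ 2) ≤ A := (le_max_right _ _).trans (le_max_right _ _)
  have hR : 0 < 1 / β := by positivity
  have nA := n0.comp_div hA0
  have gsm : ContDiff ℝ ∞ (fun x => Ψ (x / (1 / β))) := hΨs.comp (contDiff_id.div_const _)
  have gev : ∀ x, Ψ (-x / (1 / β)) = Ψ (x / (1 / β)) := fun x => by rw [neg_div, hΨe]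
  have gint : Integrable (fun x => Ψ (x / (1 / β))) := hΨi.comp_div hR.ne'
  have gsqint : Integrable (fun x => Ψ (x / (1 / β)) ^ 2) := hΨsqi.comp_div hR.ne'
  have gc : Continuous (fun x => Ψ (x / (1 / β))) := gsm.continuous
  have nχ : Nice (fun x => χ₀ (x / A) * Ψ (x / (1 / β))) := nA.mul gsm gev
  obtain ⟨s, hs0, hφ⟩ := nA.cosT_test
  have habs0 := n0.abs_le_of_pos hpos0
  have hsqle : ∀ x, (χ₀ (x / A) * Ψ (x / (1 / β))) ^ 2 ≤ Ψ (x / (1 / β)) ^ 2 := by
    intro x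
    rw [mul_pow]
    apply mul_le_of_le_one_left (sq_nonneg _)
    have := habs0 (x / A)
    rw [h00] at this
    rw [← sq_abs]
    exact pow_le_one₀ (abs_nonneg _) this
  have hgS : ∫ x, Ψ (x / (1 / β)) ^ 2 = S / β := by
    rw [Measure.integral_comp_div (fun x => Ψ x ^ 2) (1 / β), abs_of_pos hR, smul_eq_mul, ← hS]
    ring
  refine ⟨fun x => χ₀ (x / A) * Ψ (x / (1 / β)), nχ, fun y => ?_, ?_, fun x => ?_, fun x hx => ?_, ?_, fun u => ?_⟩
  · have e : (fun x => χ₀ (x / A) * Ψ (x / (1 / β))) = fun ξ => Ψ (ξ / (1 / β)) * cosT (cosT (fun x => χ₀ (x / A))) ξ := by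
      ext ξ
      rw [nA.inv, mul_comm]
    rw [e, ← hφ.conv_general gc gint y]
    apply integral_nonneg
    intro x
    simp only [Pi.zero_apply]
    rw [cosT_dilate χ₀ hA0, cosT_dilate Ψ hR, hcΨ]
    have := hpos0 (A * x)
    have := pψ (1 / β * (x + y))
    positivity
  · simp only [zero_div, h00, hΨ0, mul_one]
  · rw [abs_mul]
    have h1 := habs0 (x / A)
    rw [h00] at h1
    have h2 := hΨ1 (x / (1 / β))
    exact mul_le_one₀ h1 (abs_nonneg _) h2
  · have h1 : dist (x / (1 / β)) 0 < r1 := by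
      rw [Real.dist_eq, sub_zero, abs_div, abs_of_pos hR, div_lt_iff₀ hR]
      have h3 : |x| * β ≤ B * β := mul_le_mul_of_nonneg_right hx hβ.le
      have h4 : |x| * β < r1 := by linarith
      calc |x| = (|x| * β) / β := by field_simp
        _ < r1 / β := by
            apply div_lt_div_of_pos_right h4 hβ
        _ = r1 * (1 / β) := by ring
    have h2 : dist (x / A) 0 < r2 := by
      rw [Real.dist_eq, sub_zero, abs_div, abs_of_pos hA0, div_lt_iff₀ hA0]
      rw [div_le_iff₀ hr2] at hA2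
      linarith
    have h3 := hr1' h1
    have h4 := hr2' h2
    rw [hΨ0, Real.dist_eq, abs_lt] at h3
    rw [h00, Real.dist_eq, abs_lt] at h4
    have h5 : 3 / 4 ≤ Ψ (x / (1 / β)) := by linarith [h3.1]
    have h6 : 3 / 4 ≤ χ₀ (x / A) := by linarith [h4.1]
    have h7 : (3 / 4 : ℝ) * (3 / 4) ≤ χ₀ (x / A) * Ψ (x / (1 / β)) := mul_le_mul h6 h5 (by norm_num) (by linarith)
    simp only
    linarith
  · have h1 : ∫ x, (χ₀ (x / A) * Ψ (x / (1 / β))) ^ 2 ≤ ∫ x, Ψ (x / (1 / β)) ^ 2 :=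
      integral_mono nχ.sq.integrable gsqint hsqle
    refine h1.trans ?_
    rw [hgS]
    apply div_le_div_of_nonneg_right _ hβ.le
    linarith
  · split_ifs with hu
    · have h1 : cosT (fun x => (χ₀ (x / A) * Ψ (x / (1 / β))) ^ 2) u ≤ ∫ x, (χ₀ (x / A) * Ψ (x / (1 / β))) ^ 2 := by
        refine (le_abs_self _).trans ((abs_cosT_le nχ.sq.integrable u).trans (le_of_eq ?_))
        congr 1
        ext x
        rw [abs_of_nonneg (sq_nonneg _)]
      have h2 := mul_nonneg hε.le (Maj_nonneg u)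
      linarith
    · rw [not_le] at hu
      rw [zero_add]
      have nA2 := nA.sq
      obtain ⟨s', hs0', hφ'⟩ := nA2.cosT_test
      have e : (fun x => (χ₀ (x / A) * Ψ (x / (1 / β))) ^ 2)
          = fun ξ => Ψ (ξ / (1 / β)) ^ 2 * cosT (cosT (fun x => χ₀ (x / A) ^ 2)) ξ := by
        ext ξ
        rw [nA2.inv]
        ring
      have gc2 : Continuous (fun x => Ψ (x / (1 / β)) ^ 2) := gc.pow 2
      rw [e, ← hφ'.conv_general gc2 gsqint u]
      -- bounds on the two factors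
      have hg1 : ∀ z, |cosT (fun x => Ψ (x / (1 / β)) ^ 2) z| ≤ S / β := by
        intro z
        refine (abs_cosT_le gsqint z).trans (le_of_eq ?_)
        rw [← hgS]
        congr 1
        ext x
        rw [abs_of_nonneg (sq_nonneg _)]
      have hg2 : ∀ z, β / 2 ≤ |z| → cosT (fun x => Ψ (x / (1 / β)) ^ 2) z = 0 := by
        intro z hz
        rw [cosT_dilate (fun x => Ψ x ^ 2) hR, hΨsq, mul_zero]
        rw [abs_mul, abs_of_pos hR]
        calc (1 / 2 : ℝ) = (1 / β) * (β / 2) := by field_simp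
          _ ≤ 1 / β * |z| := mul_le_mul_of_nonneg_left hz hR.le
      have hu2 : 0 < (1 + u ^ 2) ^ 2 := by positivity
      have hf1 : ∀ x, |x + u| ≤ β / 2 → |cosT (fun x => χ₀ (x / A) ^ 2) x| ≤ 64 * C₁ / (A * β ^ 2) * (1 / (1 + u ^ 2) ^ 2) := by
        intro x hx
        rw [cosT_dilate (fun x => χ₀ x ^ 2) hA0, abs_mul, abs_of_pos hA0]
        have h1 := hdec (A * x)
        have hxu : |u| / 2 ≤ |x| := by
          have h2 : |u| - |x| ≤ |x + u| := by
            have := abs_sub_abs_le_abs_sub u (-x)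
            rw [abs_neg, sub_neg_eq_add, add_comm u x] at this
            exact this
          linarith
        have hx2 : u ^ 2 / 4 ≤ x ^ 2 := by
          rw [← sq_abs u, ← sq_abs x]
          have h3 : (|u| / 2) ^ 2 ≤ |x| ^ 2 := pow_le_pow_left₀ (by positivity) hxu 2
          nlinarith
        have hβx : β ^ 2 / 4 ≤ x ^ 2 := by
          have h3 : β ^ 2 ≤ u ^ 2 := by
            rw [← sq_abs u]
            exact pow_le_pow_left₀ hβ.le hu.le 2
          linarith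
        have hAx : x ^ 2 ≤ (A * x) ^ 2 := by
          rw [mul_pow]
          have : 1 ≤ A ^ 2 := one_le_pow₀ hA1
          nlinarith [sq_nonneg x]
        have h4 : (1 + u ^ 2) / 4 ≤ 1 + (A * x) ^ 2 := by nlinarith
        have h5 : A ^ 2 * β ^ 2 / 4 ≤ 1 + (A * x) ^ 2 := by
          rw [mul_pow]
          have : A ^ 2 * (β ^ 2 / 4) ≤ A ^ 2 * x ^ 2 := mul_le_mul_of_nonneg_left hβx (by positivity)
          linarith
        have h6 : (A ^ 2 * β ^ 2 / 4) * ((1 + u ^ 2) / 4) ^ 2 ≤ (1 + (A * x) ^ 2) ^ 3 := by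
          have h7 : ((1 + u ^ 2) / 4) ^ 2 ≤ (1 + (A * x) ^ 2) ^ 2 := pow_le_pow_left₀ (by positivity) h4 2
          calc (A ^ 2 * β ^ 2 / 4) * ((1 + u ^ 2) / 4) ^ 2 ≤ (1 + (A * x) ^ 2) * (1 + (A * x) ^ 2) ^ 2 :=
                mul_le_mul h5 h7 (by positivity) (by positivity)
            _ = _ := by ring
        have h8 : |cosT (fun x => χ₀ x ^ 2) (A * x)| * ((A ^ 2 * β ^ 2 / 4) * ((1 + u ^ 2) / 4) ^ 2) ≤ C₁ :=
          (mul_le_mul_of_nonneg_left h6 (abs_nonneg _)).trans h1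
        have h9 : A * |cosT (fun x => χ₀ x ^ 2) (A * x)| * (A * β ^ 2 * (1 + u ^ 2) ^ 2) ≤ 64 * C₁ := by
          nlinarith
        rw [div_mul_div_comm, mul_one, le_div_iff₀ (by positivity)]
        exact h9
      have hset : ∫ x, cosT (fun x => χ₀ (x / A) ^ 2) x * cosT (fun x => Ψ (x / (1 / β)) ^ 2) (x + u)
          = ∫ x in Icc (-u - β / 2) (-u + β / 2), cosT (fun x => χ₀ (x / A) ^ 2) x * cosT (fun x => Ψ (x / (1 / β)) ^ 2) (x + u) := by
        rw [setIntegral_eq_integral_of_forall_compl_eq_zero]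
        intro x hx
        rw [hg2 (x + u), mul_zero]
        by_contra h
        rw [not_le, abs_lt] at h
        exact hx ⟨by linarith [h.1], by linarith [h.2]⟩
      rw [hset]
      refine (le_abs_self _).trans ?_
      have hb := norm_setIntegral_le_of_norm_le_const (μ := volume) (s := Icc (-u - β / 2) (-u + β / 2))
        (f := fun x => cosT (fun x => χ₀ (x / A) ^ 2) x * cosT (fun x => Ψ (x / (1 / β)) ^ 2) (x + u))
        (C := (64 * C₁ / (A * β ^ 2) * (1 / (1 + u ^ 2) ^ 2)) * (S / β)) (by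
          rw [Real.volume_Icc]; exact ENNReal.ofReal_lt_top) (by
          intro x hx
          rw [Real.norm_eq_abs, abs_mul]
          apply mul_le_mul (hf1 x _) (hg1 _) (abs_nonneg _) (by positivity)
          rw [abs_le]
          exact ⟨by linarith [hx.1], by linarith [hx.2]⟩)
      rw [Real.norm_eq_abs, Measure.real, Real.volume_Icc, ENNReal.toReal_ofReal (by linarith)] at hb
      refine hb.trans ?_
      have hM := Maj_ge u
      have h10 : (64 * C₁ / (A * β ^ 2) * (1 / (1 + u ^ 2) ^ 2)) * (S / β) * (-u + β / 2 - (-u - β / 2))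
          = (64 * 2048 * C₁ * S / (A * β ^ 2)) * ((1 / 2048) / (1 + u ^ 2) ^ 2) := by
        field_simp
        ring
      rw [h10]
      have h11 : 64 * 2048 * C₁ * S / (A * β ^ 2) ≤ ε := by
        rw [div_le_iff₀ (by positivity)] at hA3 ⊢
        nlinarith
      exact mul_le_mul h11 hM (by positivity) hε.le

end Pool.Agent.H6
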