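import Mathlib
import Pool.Agent.H6.KKernel

open MeasureTheory Set Filter Topology
open scoped Real Interval

namespace Pool.Agent.H6

/-- cosine integral against a measure -/
noncomputable def CI (μ : Measure ℝ) (g : ℝ → ℝ) (t : ℝ) : ℝ := ∫ v, g v * Real.cos (t * v) ∂μ

/-- mass of an interval of length `η` -/
noncomputable def BI (η : ℝ) (μ : Measure ℝ) (g : ℝ → ℝ) (y : ℝ) : ℝ := ∫ v in Ioc y (y + η), g v ∂μ

section
variable {μ ν : Measure ℝ} [IsFiniteMeasure μ] [IsFiniteMeasure ν] {g h : ℝ → ℝ} {A B : ℝ}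

omit [IsFiniteMeasure ν] in
lemma integrable_of_bdd (hg : Measurable g) (hA : ∀ v, |g v| ≤ A) : Integrable g μ :=
  (integrable_const A).mono' hg.aestronglyMeasurable (ae_of_all _ fun v => by
    rw [Real.norm_eq_abs]; exact hA v)

/-- First Plancherel identity. -/
theorem integral_KK_CI {η : ℝ} (hη : 0 < η) (hg : Measurable g) (hh : Measurable h)
    (hA : ∀ v, |g v| ≤ A) (hB : ∀ v, |h v| ≤ B) :
    ∫ t, KK η t * (CI μ g t * CI ν h t)
      = π * ∫ z, g z.1 * h z.2 * (max 0 (η - |z.1 - z.2|) + max 0 (η - |z.1 + z.2|)) ∂(μ.prod ν) := by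
  have hA0 : 0 ≤ A := (abs_nonneg _).trans (hA 0)
  have hB0 : 0 ≤ B := (abs_nonneg _).trans (hB 0)
  have h1 : ∀ t, KK η t * (CI μ g t * CI ν h t)
      = ∫ z, KK η t * ((g z.1 * Real.cos (t * z.1)) * (h z.2 * Real.cos (t * z.2))) ∂(μ.prod ν) := by
    intro t
    rw [integral_const_mul, integral_prod_mul (fun v => g v * Real.cos (t * v)) (fun v => h v * Real.cos (t * v))]
    rfl
  simp_rw [h1]
  rw [integral_integral_swap]
  · rw [← integral_const_mul]
    congr 1
    ext z
    have e : ∀ t, KK η t * ((g z.1 * Real.cos (t * z.1)) * (h z.2 * Real.cos (t * z.2)))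
        = (g z.1 * h z.2) * (KK η t * (Real.cos (t * z.1) * Real.cos (t * z.2))) := by
      intro t; ring
    simp_rw [e]
    rw [integral_const_mul, integral_KK_cos_cos hη]
    ring
  · have hb : Integrable (fun p : ℝ × (ℝ × ℝ) => KK η p.1 * (A * B)) (volume.prod (μ.prod ν)) :=
      (integrable_KK η).mul_prod (integrable_const (A * B))
    apply hb.mono'
    · have := continuous_KK η
      apply Measurable.aestronglyMeasurable
      unfold Function.uncurry
      fun_prop
    · apply ae_of_all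
      rintro ⟨t, z⟩
      simp only [Function.uncurry]
      rw [Real.norm_eq_abs, abs_mul, abs_of_nonneg (KK_nonneg η t)]
      apply mul_le_mul_of_nonneg_left _ (KK_nonneg η t)
      rw [abs_mul, abs_mul, abs_mul]
      have c1 : |g z.1| * |Real.cos (t * z.1)| ≤ A :=
        (mul_le_of_le_one_right (abs_nonneg _) (Real.abs_cos_le_one _)).trans (hA _)
      have c2 : |h z.2| * |Real.cos (t * z.2)| ≤ B :=
        (mul_le_of_le_one_right (abs_nonneg _) (Real.abs_cos_le_one _)).trans (hB _)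
      exact mul_le_mul c1 c2 (by positivity) hA0

omit [IsFiniteMeasure μ] [IsFiniteMeasure ν] in
/-- indicator of `(0, η]` -/
noncomputable def Jn (η x : ℝ) : ℝ := (Ioc 0 η).indicator (fun _ => (1 : ℝ)) x

lemma Jn_nonneg (η x : ℝ) : 0 ≤ Jn η x := by
  unfold Jn; exact indicator_nonneg (fun _ _ => zero_le_one) x

lemma Jn_le_one (η x : ℝ) : Jn η x ≤ 1 := by
  unfold Jn
  exact indicator_le_self' (fun _ _ => zero_le_one) x

lemma measurable_Jn (η : ℝ) : Measurable (Jn η) := by
  unfold Jn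
  exact measurable_const.indicator measurableSet_Ioc

lemma BI_eq (η : ℝ) (μ : Measure ℝ) (g : ℝ → ℝ) (y : ℝ) : BI η μ g y = ∫ v, g v * Jn η (v - y) ∂μ := by
  unfold BI
  rw [← integral_indicator measurableSet_Ioc]
  congr 1
  ext v
  unfold Jn
  by_cases h : v ∈ Ioc y (y + η)
  · have h2 : v - y ∈ Ioc 0 η := ⟨by linarith [h.1], by linarith [h.2]⟩
    rw [indicator_of_mem h, indicator_of_mem h2, mul_one]
  · have h2 : v - y ∉ Ioc 0 η := fun h' => h ⟨by linarith [h'.1], by linarith [h'.2]⟩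
    rw [indicator_of_notMem h, indicator_of_notMem h2, mul_zero]

lemma integral_Jn_mul (η v w : ℝ) :
    ∫ y, Jn η (v - y) * Jn η (w - y) = max 0 (η - |v - w|) := by
  have h1 : ∀ y, Jn η (v - y) * Jn η (w - y)
      = (Ico (max (v - η) (w - η)) (min v w)).indicator (fun _ => (1 : ℝ)) y := by
    intro y
    unfold Jn
    by_cases h : y ∈ Ico (max (v - η) (w - η)) (min v w)
    · have h' := h
      rw [mem_Ico, max_le_iff, lt_min_iff] at h'
      rw [indicator_of_mem h, indicator_of_mem, indicator_of_mem, mul_one]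
      · exact ⟨by linarith [h'.2.2], by linarith [h'.1.2]⟩
      · exact ⟨by linarith [h'.2.1], by linarith [h'.1.1]⟩
    · rw [indicator_of_notMem h]
      by_contra hne
      have h3 : (Ioc 0 η).indicator (fun _ => (1 : ℝ)) (v - y) ≠ 0 := left_ne_zero_of_mul hne
      have h4 : (Ioc 0 η).indicator (fun _ => (1 : ℝ)) (w - y) ≠ 0 := right_ne_zero_of_mul hne
      have h5 := mem_of_indicator_ne_zero h3
      have h6 := mem_of_indicator_ne_zero h4
      apply h
      rw [mem_Ico, max_le_iff, lt_min_iff]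
      exact ⟨⟨by linarith [h5.2], by linarith [h6.2]⟩, by linarith [h5.1], by linarith [h6.1]⟩
  simp_rw [h1]
  rw [integral_indicator measurableSet_Ico, setIntegral_const, smul_eq_mul, mul_one, measureReal_def,
    Real.volume_Ico, ENNReal.toReal_ofReal', max_comm]
  congr 1
  rcases le_total v w with h | h
  · rw [min_eq_left h, max_eq_right (by linarith), abs_of_nonpos (by linarith)]
    ring
  · rw [min_eq_right h, max_eq_left (by linarith), abs_of_nonneg (by linarith)]
    ring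

lemma measurable_BI_prod (η : ℝ) (hg : Measurable g) (hh : Measurable h) :
    Measurable (Function.uncurry fun (y : ℝ) (z : ℝ × ℝ) =>
      (g z.1 * Jn η (z.1 - y)) * (h z.2 * Jn η (z.2 - y))) := by
  have := measurable_Jn η
  unfold Function.uncurry
  fun_prop

lemma integrable_BI_prod (η : ℝ) (hg : Measurable g) (hh : Measurable h)
    (hA : ∀ v, |g v| ≤ A) (hB : ∀ v, |h v| ≤ B) :
    Integrable (Function.uncurry fun (y : ℝ) (z : ℝ × ℝ) =>
      (g z.1 * Jn η (z.1 - y)) * (h z.2 * Jn η (z.2 - y))) (volume.prod (μ.prod ν)) := by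
  have hA0 : 0 ≤ A := (abs_nonneg _).trans (hA 0)
  have hB0 : 0 ≤ B := (abs_nonneg _).trans (hB 0)
  have hm := measurable_BI_prod (g := g) (h := h) η hg hh
  rw [integrable_prod_iff' hm.aestronglyMeasurable]
  have hb : ∀ z : ℝ × ℝ, Integrable (fun y => (A * B) * (Ico (z.1 - η) z.1).indicator (fun _ => (1 : ℝ)) y) := by
    intro z
    apply Integrable.const_mul
    apply (integrable_indicator_iff measurableSet_Ico).mpr
    exact integrableOn_const (by simp)
  have hle : ∀ (z : ℝ × ℝ) (y : ℝ), ‖(g z.1 * Jn η (z.1 - y)) * (h z.2 * Jn η (z.2 - y))‖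
      ≤ (A * B) * (Ico (z.1 - η) z.1).indicator (fun _ => (1 : ℝ)) y := by
    intro z y
    rw [Real.norm_eq_abs, abs_mul, abs_mul, abs_mul, abs_of_nonneg (Jn_nonneg _ _), abs_of_nonneg (Jn_nonneg _ _)]
    have e1 : (Ico (z.1 - η) z.1).indicator (fun _ => (1 : ℝ)) y = Jn η (z.1 - y) := by
      unfold Jn
      by_cases hy : y ∈ Ico (z.1 - η) z.1
      · rw [indicator_of_mem hy, indicator_of_mem]
        exact ⟨by linarith [hy.2], by linarith [hy.1]⟩
      · rw [indicator_of_notMem hy, indicator_of_notMem]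
        intro h'
        exact hy ⟨by linarith [h'.2], by linarith [h'.1]⟩
    rw [e1]
    have j1 := Jn_nonneg η (z.1 - y)
    have j2 := Jn_nonneg η (z.2 - y)
    have j3 := Jn_le_one η (z.2 - y)
    calc |g z.1| * Jn η (z.1 - y) * (|h z.2| * Jn η (z.2 - y))
        ≤ (A * Jn η (z.1 - y)) * (B * 1) := by
          apply mul_le_mul _ _ (by positivity) (by positivity)
          · exact mul_le_mul_of_nonneg_right (hA _) j1
          · exact mul_le_mul (hB _) j3 j2 hB0
      _ = _ := by ring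
  constructor
  · apply ae_of_all
    intro z
    apply (hb z).mono' _ (ae_of_all _ (hle z))
    exact (hm.comp (measurable_id.prodMk measurable_const)).aestronglyMeasurable
  · apply (integrable_const (μ := μ.prod ν) ((A * B) * max 0 η)).mono'
    · have h0 := hm.norm.stronglyMeasurable.integral_prod_left' (μ := (volume : Measure ℝ))
      exact h0.aestronglyMeasurable
    · apply ae_of_all
      intro z
      rw [Real.norm_eq_abs, abs_of_nonneg (integral_nonneg fun y => norm_nonneg _)]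
      calc ∫ y, ‖(g z.1 * Jn η (z.1 - y)) * (h z.2 * Jn η (z.2 - y))‖
          ≤ ∫ y, (A * B) * (Ico (z.1 - η) z.1).indicator (fun _ => (1 : ℝ)) y :=
            integral_mono_of_nonneg (ae_of_all _ fun y => norm_nonneg _) (hb z) (ae_of_all _ (hle z))
        _ = (A * B) * max 0 η := by
            rw [integral_const_mul, integral_indicator measurableSet_Ico, setIntegral_const, smul_eq_mul, mul_one,
              measureReal_def, Real.volume_Ico, ENNReal.toReal_ofReal', max_comm]
            congr 2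
            ring

lemma BI_mul_eq (η : ℝ) (y : ℝ) : BI η μ g y * BI η ν h y
    = ∫ z, (g z.1 * Jn η (z.1 - y)) * (h z.2 * Jn η (z.2 - y)) ∂(μ.prod ν) := by
  rw [integral_prod_mul (fun v => g v * Jn η (v - y)) (fun v => h v * Jn η (v - y)), BI_eq, BI_eq]

lemma integrable_BI_mul (η : ℝ) (hg : Measurable g) (hh : Measurable h)
    (hA : ∀ v, |g v| ≤ A) (hB : ∀ v, |h v| ≤ B) : Integrable (fun y => BI η μ g y * BI η ν h y) := by
  have h1 := (integrable_BI_prod (μ := μ) (ν := ν) η hg hh hA hB).integral_prod_left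
  apply h1.congr
  apply ae_of_all
  intro y
  exact (BI_mul_eq η y).symm

/-- Second Plancherel identity. -/
theorem integral_BI_mul (η : ℝ) (hg : Measurable g) (hh : Measurable h)
    (hA : ∀ v, |g v| ≤ A) (hB : ∀ v, |h v| ≤ B) :
    ∫ y, BI η μ g y * BI η ν h y
      = ∫ z, g z.1 * h z.2 * max 0 (η - |z.1 - z.2|) ∂(μ.prod ν) := by
  simp_rw [BI_mul_eq]
  rw [integral_integral_swap (integrable_BI_prod (μ := μ) (ν := ν) η hg hh hA hB)]
  congr 1
  ext z
  have e : ∀ y, (g z.1 * Jn η (z.1 - y)) * (h z.2 * Jn η (z.2 - y))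
      = (g z.1 * h z.2) * (Jn η (z.1 - y) * Jn η (z.2 - y)) := by
    intro y; ring
  simp_rw [e]
  rw [integral_const_mul, integral_Jn_mul]

/-- Plancherel for measures away from `0`. -/
theorem integral_KK_CI_eq_BI {η c : ℝ} (hη : 0 < η) (hc : η ≤ 2 * c) (hg : Measurable g) (hh : Measurable h)
    (hA : ∀ v, |g v| ≤ A) (hB : ∀ v, |h v| ≤ B) (hμ : ∀ᵐ v ∂μ, g v ≠ 0 → c ≤ v) (hν : ∀ᵐ v ∂ν, h v ≠ 0 → c ≤ v) :
    ∫ t, KK η t * (CI μ g t * CI ν h t) = π * ∫ y, BI η μ g y * BI η ν h y := by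
  rw [integral_KK_CI hη hg hh hA hB, integral_BI_mul η hg hh hA hB]
  congr 1
  apply integral_congr_ae
  have h1 : ∀ᵐ z ∂(μ.prod ν), g z.1 ≠ 0 → c ≤ z.1 := Measure.quasiMeasurePreserving_fst.ae hμ
  have h2 : ∀ᵐ z ∂(μ.prod ν), h z.2 ≠ 0 → c ≤ z.2 := Measure.quasiMeasurePreserving_snd.ae hν
  filter_upwards [h1, h2] with z hz1 hz2
  by_cases g1 : g z.1 = 0
  · rw [g1]; simp
  by_cases g2 : h z.2 = 0
  · rw [g2]; simp
  have hz1' := hz1 g1
  have hz2' := hz2 g2
  have h3 : max 0 (η - |z.1 + z.2|) = 0 := by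
    apply max_eq_left
    have := le_abs_self (z.1 + z.2)
    linarith
  rw [h3, add_zero]

/-- Orthogonality for measures with separated supports. -/
theorem integral_KK_CI_eq_zero {η : ℝ} (hη : 0 < η) (hg : Measurable g) (hh : Measurable h)
    (hA : ∀ v, |g v| ≤ A) (hB : ∀ v, |h v| ≤ B) {a b : ℝ} (hab : a + η ≤ b)
    (hμ : ∀ᵐ v ∂μ, g v ≠ 0 → 0 ≤ v ∧ v ≤ a) (hν : ∀ᵐ v ∂ν, h v ≠ 0 → b ≤ v) :
    ∫ t, KK η t * (CI μ g t * CI ν h t) = 0 := by
  rw [integral_KK_CI hη hg hh hA hB, integral_eq_zero_of_ae, mul_zero]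
  have h1 : ∀ᵐ z ∂(μ.prod ν), g z.1 ≠ 0 → 0 ≤ z.1 ∧ z.1 ≤ a := Measure.quasiMeasurePreserving_fst.ae hμ
  have h2 : ∀ᵐ z ∂(μ.prod ν), h z.2 ≠ 0 → b ≤ z.2 := Measure.quasiMeasurePreserving_snd.ae hν
  filter_upwards [h1, h2] with z hz1 hz2
  by_cases g1 : g z.1 = 0
  · rw [g1]; simp
  by_cases g2 : h z.2 = 0
  · rw [g2]; simp
  have hz1' := hz1 g1
  have hz2' := hz2 g2
  have h3 : max 0 (η - |z.1 + z.2|) = 0 := by
    apply max_eq_left
    have := le_abs_self (z.1 + z.2)
    linarith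
  have h4 : max 0 (η - |z.1 - z.2|) = 0 := by
    apply max_eq_left
    have := neg_abs_le (z.1 - z.2)
    linarith
  rw [h3, h4]
  simp

end

end Pool.Agent.H6
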