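import Mathlib
import Pool.Agent.H6.PL

open MeasureTheory Set Filter Topology
open scoped Real Interval

namespace Pool.Agent.H6

section
variable {μ : Measure ℝ} [IsFiniteMeasure μ] {g : ℝ → ℝ} {A : ℝ}

/-- Summation by parts on a short interval. -/
lemma BI_weight (hg : Measurable g) (hA : ∀ v, |g v| ≤ A) {ρ ρ' : ℝ → ℝ} {y η C1 : ℝ} (hη : 0 < η)
    (hd : ∀ u ∈ Icc y (y + η), HasDerivAt ρ (ρ' u) u) (hc : Continuous ρ') (h0 : ρ y = 0)
    (hC : ∀ u ∈ Icc y (y + η), |ρ' u| ≤ C1) :
    |∫ v in Ioc y (y + η), ρ v * g v ∂μ| ≤ C1 * ∫ r in Ioc 0 η, |BI (η - r) μ g (y + r)| := by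
  have hA0 : 0 ≤ A := (abs_nonneg _).trans (hA 0)
  have hC0 : 0 ≤ C1 := (abs_nonneg _).trans (hC y ⟨le_rfl, by linarith⟩)
  classical
  set k : ℝ → ℝ → ℝ := fun v u => ρ' u * (if u < v then (1 : ℝ) else 0) * g v with hk
  have hrep : ∀ v ∈ Ioc y (y + η), ρ v * g v = ∫ u in Ioc y (y + η), k v u := by
    intro v hv
    have h1 : ρ v = ∫ u in y..v, ρ' u := by
      rw [intervalIntegral.integral_eq_sub_of_hasDerivAt (f := ρ)]
      · rw [h0, sub_zero]
      · intro u hu
        rw [uIcc_of_le hv.1.le] at hu
        exact hd u ⟨hu.1, hu.2.trans hv.2⟩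
      · exact hc.intervalIntegrable _ _
    simp only [hk]
    rw [integral_mul_const, h1, intervalIntegral.integral_of_le hv.1.le]
    congr 1
    have e1 : ∀ u, ρ' u * (if u < v then (1 : ℝ) else 0) = (Iio v).indicator ρ' u := by
      intro u
      by_cases h : u < v
      · rw [if_pos h, indicator_of_mem (by exact h), mul_one]
      · rw [if_neg h, indicator_of_notMem (by exact h), mul_zero]
    simp_rw [e1]
    rw [setIntegral_indicator measurableSet_Iio]
    have e2 : Ioc y (y + η) ∩ Iio v = Ioo y v := by
      ext u
      simp only [mem_inter_iff, mem_Ioc, mem_Iio, mem_Ioo]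
      constructor
      · rintro ⟨⟨h1, _⟩, h3⟩; exact ⟨h1, h3⟩
      · rintro ⟨h1, h2⟩; exact ⟨⟨h1, by linarith [hv.2]⟩, h2⟩
    rw [e2, integral_Ioc_eq_integral_Ioo]
  rw [setIntegral_congr_fun measurableSet_Ioc hrep]
  have hmeas : Measurable (Function.uncurry k) := by
    have h1 : Measurable fun p : ℝ × ℝ => (if p.2 < p.1 then (1 : ℝ) else 0) :=
      Measurable.ite (measurableSet_lt measurable_snd measurable_fst) measurable_const measurable_const
    have h2 := hc.measurable
    simp only [hk]
    unfold Function.uncurry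
    exact ((h2.comp measurable_snd).mul h1).mul (hg.comp measurable_fst)
  rw [integral_integral_swap]
  · have e3 : ∀ u ∈ Ioc y (y + η), ∫ v in Ioc y (y + η), k v u ∂μ = ρ' u * BI (y + η - u) μ g u := by
      intro u hu
      simp only [hk]
      have e4 : ∀ v, ρ' u * (if u < v then (1 : ℝ) else 0) * g v = ρ' u * (Ioi u).indicator g v := by
        intro v
        by_cases h : u < v
        · rw [if_pos h, indicator_of_mem (by exact h), mul_one]
        · rw [if_neg h, indicator_of_notMem (by exact h)]; ring
      simp_rw [e4]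
      rw [integral_const_mul, setIntegral_indicator measurableSet_Ioi]
      unfold BI
      congr 2
      have e5 : Ioc y (y + η) ∩ Ioi u = Ioc u (u + (y + η - u)) := by
        ext v
        simp only [mem_inter_iff, mem_Ioc, mem_Ioi]
        constructor
        · rintro ⟨⟨_, h2⟩, h3⟩; exact ⟨h3, by linarith⟩
        · rintro ⟨h1, h2⟩; exact ⟨⟨by linarith [hu.1], by linarith⟩, h1⟩
      rw [e5]
    rw [setIntegral_congr_fun measurableSet_Ioc e3]
    rw [← intervalIntegral.integral_of_le (by linarith : y ≤ y + η),
      ← intervalIntegral.integral_of_le hη.le]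
    have h2 := intervalIntegral.integral_comp_add_left (fun u => ρ' u * BI (y + η - u) μ g u) (a := 0) (b := η) y
    rw [add_zero] at h2
    rw [← h2]
    have e6 : ∀ r, BI (y + η - (y + r)) μ g (y + r) = BI (η - r) μ g (y + r) := by
      intro r; congr 1; ring
    simp_rw [e6]
    refine (intervalIntegral.abs_integral_le_integral_abs hη.le).trans ?_
    rw [← intervalIntegral.integral_const_mul]
    -- the bounding function is integrable
    have hm2 : Measurable fun r : ℝ => BI (η - r) μ g (y + r) := by
      have h3 : Measurable (Function.uncurry fun (r v : ℝ) => g v * Jn (η - r) (v - (y + r))) := by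
        have h4 : Measurable fun p : ℝ × ℝ => Jn (η - p.1) (p.2 - (y + p.1)) := by
          have h5 : (fun p : ℝ × ℝ => Jn (η - p.1) (p.2 - (y + p.1)))
              = fun p : ℝ × ℝ => if (0 < p.2 - (y + p.1) ∧ p.2 - (y + p.1) ≤ η - p.1) then (1 : ℝ) else 0 := by
            ext p
            unfold Jn
            by_cases h : 0 < p.2 - (y + p.1) ∧ p.2 - (y + p.1) ≤ η - p.1
            · rw [if_pos h, indicator_of_mem]
              exact h
            · rw [if_neg h, indicator_of_notMem]
              exact h
          rw [h5]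
          apply Measurable.ite _ measurable_const measurable_const
          have m1 : Measurable fun p : ℝ × ℝ => p.2 - (y + p.1) := by fun_prop
          have m2 : Measurable fun p : ℝ × ℝ => η - p.1 := by fun_prop
          exact (measurableSet_lt measurable_const m1).inter (measurableSet_le m1 m2)
        exact (hg.comp measurable_snd).mul h4
      have h6 := h3.stronglyMeasurable.integral_prod_right (ν := μ)
      have h7 : (fun r : ℝ => BI (η - r) μ g (y + r)) = fun r => ∫ v, g v * Jn (η - r) (v - (y + r)) ∂μ := by
        ext r; rw [BI_eq]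
      rw [h7]
      exact h6.measurable
    have hbd : ∀ r, |BI (η - r) μ g (y + r)| ≤ A * μ.real univ := by
      intro r
      unfold BI
      refine abs_integral_le_integral_abs.trans ?_
      calc ∫ v in Ioc (y + r) (y + r + (η - r)), |g v| ∂μ ≤ ∫ v in Ioc (y + r) (y + r + (η - r)), A ∂μ := by
            apply integral_mono_of_nonneg (ae_of_all _ fun _ => abs_nonneg _) (integrable_const A)
            exact ae_of_all _ fun v => hA v
        _ ≤ A * μ.real univ := by
            rw [setIntegral_const, smul_eq_mul, mul_comm]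
            apply mul_le_mul_of_nonneg_left _ hA0
            exact measureReal_mono (subset_univ _)
    have hi3 : IntervalIntegrable (fun r => |BI (η - r) μ g (y + r)|) volume 0 η := by
      rw [intervalIntegrable_iff_integrableOn_Ioc_of_le hη.le]
      apply Measure.integrableOn_of_bounded (M := A * μ.real univ) (by simp) hm2.abs.aestronglyMeasurable
      exact ae_of_all _ fun r => by rw [Real.norm_eq_abs, abs_abs]; exact hbd r
    apply intervalIntegral.integral_mono_on hη.le
    · rw [intervalIntegrable_iff_integrableOn_Ioc_of_le hη.le]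
      have hm3 : Measurable fun r : ℝ => |ρ' (y + r) * BI (η - r) μ g (y + r)| := by
        have := hc.measurable
        exact ((this.comp (measurable_const.add measurable_id)).mul hm2).abs
      apply Measure.integrableOn_of_bounded (M := C1 * (A * μ.real univ)) (by simp) hm3.aestronglyMeasurable
      filter_upwards [ae_restrict_mem measurableSet_Ioc] with r hr
      rw [Real.norm_eq_abs, abs_abs, abs_mul]
      exact mul_le_mul (hC _ ⟨by linarith [hr.1], by linarith [hr.2]⟩) (hbd r) (abs_nonneg _) hC0
    · exact hi3.const_mul C1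
    · intro r hr
      rw [abs_mul]
      exact mul_le_mul_of_nonneg_right (hC _ ⟨by linarith [hr.1], by linarith [hr.2]⟩) (abs_nonneg _)
  · -- integrability on the product
    have hfin : IsFiniteMeasure (μ.restrict (Ioc y (y + η))) := inferInstance
    have hfin2 : IsFiniteMeasure ((volume : Measure ℝ).restrict (Ioc y (y + η))) :=
      ⟨by rw [Measure.restrict_apply_univ, Real.volume_Ioc]; exact ENNReal.ofReal_lt_top⟩
    apply (integrable_const (C1 * A)).mono' hmeas.aestronglyMeasurable
    have h1 : ∀ᵐ p ∂((μ.restrict (Ioc y (y + η))).prod ((volume : Measure ℝ).restrict (Ioc y (y + η)))), p.2 ∈ Ioc y (y + η) :=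
      Measure.quasiMeasurePreserving_snd.ae (ae_restrict_mem measurableSet_Ioc)
    filter_upwards [h1] with p hp
    simp only [Function.uncurry, hk]
    rw [Real.norm_eq_abs, abs_mul, abs_mul]
    have h2 : |if p.2 < p.1 then (1 : ℝ) else 0| ≤ 1 := by split_ifs <;> simp
    calc |ρ' p.2| * |if p.2 < p.1 then (1 : ℝ) else 0| * |g p.1| ≤ (C1 * 1) * A := by
          apply mul_le_mul _ (hA _) (abs_nonneg _) (by positivity)
          exact mul_le_mul (hC _ ⟨hp.1.le, hp.2⟩) h2 (abs_nonneg _) hC0
      _ = _ := by ring

end

end Pool.Agent.H6
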