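import Mathlib
import Pool.Agent.H6.PL

open MeasureTheory Set Filter Topology
open scoped Real Interval

namespace Pool.Agent.H6

/-- the set of logarithms of natural numbers -/
def logs : Set ℝ := range fun n : ℕ => Real.log n

lemma countable_logs : logs.Countable := countable_range _

open Classical in
/-- sign: `1` on the logarithms, `-1` elsewhere -/
noncomputable def sg (v : ℝ) : ℝ := if v ∈ logs then 1 else -1

lemma measurable_sg : Measurable sg := by
  unfold sg
  exact Measurable.ite countable_logs.measurableSet measurable_const measurable_const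

lemma sg_log (n : ℕ) : sg (Real.log n) = 1 := by
  unfold sg
  rw [if_pos ⟨n, rfl⟩]

lemma abs_sg (v : ℝ) : |sg v| = 1 := by
  unfold sg
  split_ifs <;> simp

lemma sg_ae : ∀ᵐ v : ℝ, sg v = -1 := by
  have h : ∀ᵐ v : ℝ, v ∉ logs := by
    rw [ae_iff]
    simp only [not_not]
    exact countable_logs.measure_zero volume
  filter_upwards [h] with v hv
  unfold sg
  rw [if_neg hv]

/-- coefficients `Λ(n) n^{-1/2}` -/
noncomputable def lam (n : ℕ) : ℝ := ArithmeticFunction.vonMangoldt n * (n : ℝ) ^ (-(1 / 2) : ℝ)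

lemma lam_nonneg (n : ℕ) : 0 ≤ lam n :=
  mul_nonneg ArithmeticFunction.vonMangoldt_nonneg (by positivity)

/-- the prime part -/
noncomputable def muA (R : ℝ) : Measure ℝ :=
  ∑ n ∈ Finset.Icc 2 ⌊Real.exp R⌋₊, ENNReal.ofReal (lam n) • Measure.dirac (Real.log n)

/-- the main term -/
noncomputable def muC (R : ℝ) : Measure ℝ :=
  (volume.restrict (Ioc 0 R)).withDensity (fun v => ENNReal.ofReal (Real.exp (v / 2)))

/-- the total measure -/
noncomputable def mu (R : ℝ) : Measure ℝ := muA R + muC R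

instance (R : ℝ) : IsFiniteMeasure (muA R) := by
  unfold muA
  constructor
  rw [Measure.finsetSum_apply]
  apply ENNReal.sum_lt_top.mpr
  intro n _
  rw [Measure.smul_apply, smul_eq_mul]
  exact ENNReal.mul_lt_top ENNReal.ofReal_lt_top (measure_lt_top _ _)

instance (R : ℝ) : IsFiniteMeasure (muC R) := by
  unfold muC
  apply isFiniteMeasure_withDensity_ofReal
  have h : IntegrableOn (fun v : ℝ => Real.exp (v / 2)) (Icc 0 R) := by
    apply ContinuousOn.integrableOn_Icc
    fun_prop
  exact (h.mono_set Ioc_subset_Icc_self).2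

instance (R : ℝ) : IsFiniteMeasure (mu R) := by unfold mu; infer_instance

lemma integral_muA (R : ℝ) {g : ℝ → ℝ} :
    ∫ v, g v ∂(muA R) = ∑ n ∈ Finset.Icc 2 ⌊Real.exp R⌋₊, lam n * g (Real.log n) := by
  unfold muA
  rw [integral_finsetSum_measure]
  · apply Finset.sum_congr rfl
    intro n _
    rw [integral_smul_measure, integral_dirac, ENNReal.toReal_ofReal (lam_nonneg n), smul_eq_mul]
  · intro n _
    apply Integrable.smul_measure _ ENNReal.ofReal_ne_top
    exact integrable_dirac (by simp)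

lemma integral_muC (R : ℝ) (g : ℝ → ℝ) :
    ∫ v, g v ∂(muC R) = ∫ v in Ioc 0 R, Real.exp (v / 2) * g v := by
  unfold muC
  rw [integral_withDensity_eq_integral_toReal_smul]
  · congr 1
    ext v
    rw [ENNReal.toReal_ofReal (Real.exp_pos _).le, smul_eq_mul]
  · fun_prop
  · exact ae_of_all _ fun v => ENNReal.ofReal_lt_top

lemma muC_absolutelyContinuous (R : ℝ) : muC R ≪ volume :=
  (withDensity_absolutelyContinuous _ _).trans Measure.absolutelyContinuous_restrict

lemma ae_muC (R : ℝ) : ∀ᵐ v ∂(muC R), 0 < v ∧ v ≤ R := by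
  have h : ∀ᵐ v ∂(volume.restrict (Ioc 0 R)), v ∈ Ioc 0 R := ae_restrict_mem measurableSet_Ioc
  exact (withDensity_absolutelyContinuous _ _).ae_le h

lemma ae_muA (R : ℝ) : ∀ᵐ v ∂(muA R), 0 < v ∧ v ≤ R := by
  unfold muA
  rw [ae_iff, Measure.finsetSum_apply]
  apply Finset.sum_eq_zero
  intro n hn
  rw [Finset.mem_Icc] at hn
  rw [Measure.smul_apply, Measure.dirac_apply', indicator_of_notMem, smul_zero]
  · simp only [mem_setOf_eq, not_not]
    have h1 : (2 : ℝ) ≤ n := by exact_mod_cast hn.1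
    refine ⟨Real.log_pos (by linarith), ?_⟩
    have h2 : (n : ℝ) ≤ Real.exp R := (Nat.le_floor_iff (Real.exp_pos R).le).mp hn.2
    rw [Real.log_le_iff_le_exp (by linarith)]
    exact h2
  · have : {x : ℝ | ¬(0 < x ∧ x ≤ R)} = (Ioc 0 R)ᶜ := by ext; simp [Ioc]
    rw [this]
    exact measurableSet_Ioc.compl

lemma ae_mu (R : ℝ) : ∀ᵐ v ∂(mu R), 0 < v ∧ v ≤ R := by
  unfold mu
  rw [ae_add_measure_iff]
  exact ⟨ae_muA R, ae_muC R⟩

/-- The signed integral. -/
lemma integral_mu_sg (R : ℝ) {g : ℝ → ℝ} (hg : Measurable g) {A : ℝ} (hA : ∀ v, |g v| ≤ A) :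
    ∫ v, g v * sg v ∂(mu R)
      = (∑ n ∈ Finset.Icc 2 ⌊Real.exp R⌋₊, lam n * g (Real.log n)) - ∫ v in Ioc 0 R, Real.exp (v / 2) * g v := by
  have hm : Measurable fun v => g v * sg v := hg.mul measurable_sg
  have hb : ∀ v, |g v * sg v| ≤ A := by
    intro v
    rw [abs_mul, abs_sg, mul_one]
    exact hA v
  unfold mu
  rw [integral_add_measure (integrable_of_bdd hm hb) (integrable_of_bdd hm hb), integral_muA]
  have h1 : ∫ v, g v * sg v ∂(muC R) = ∫ v, -(g v) ∂(muC R) := by
    apply integral_congr_ae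
    have := (muC_absolutelyContinuous R).ae_le sg_ae
    filter_upwards [this] with v hv
    rw [hv]
    ring
  rw [h1, integral_neg, integral_muC, ← sub_eq_add_neg]
  congr 1
  apply Finset.sum_congr rfl
  intro n _
  rw [sg_log, mul_one]

end Pool.Agent.H6
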