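import Mathlib
import Pool.Agent.H6.Away
import Pool.Agent.H6.PMeas

open MeasureTheory Set Filter Topology
open scoped Real Interval

namespace Pool.Agent.H6

namespace TestFn

variable {s : ℝ} {φ : ℝ → ℝ}

/-- the weight attached to a test function -/
noncomputable def gw (φ : ℝ → ℝ) (L v : ℝ) : ℝ := cosT φ (v / L) * sg v

lemma measurable_gw (hφ : TestFn s φ) (L : ℝ) : Measurable (gw φ L) := by
  unfold gw
  have h1 := hφ.continuous_cosT.measurable
  exact (h1.comp (measurable_id.div_const L)).mul measurable_sg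

lemma abs_gw_le {B : ℝ} (hB : ∀ ξ, |cosT φ ξ| ≤ B) (L v : ℝ) : |gw φ L v| ≤ B := by
  unfold gw
  rw [abs_mul, abs_sg, mul_one]
  exact hB _

/-- The prime measure side of the explicit formula. -/
theorem CI_mu (hφ : TestFn s φ) {L R : ℝ} (hL : 0 < L) (hs : 0 < s) (hR : s * L ≤ R) (t : ℝ) :
    CI (mu R) (gw φ L) t = -(L / 2) * (PM φ L t - WW φ L t) := by
  obtain ⟨B, hB0, hB⟩ := hφ.exists_bound_cosT
  have hc := hφ.continuous_cosT
  set g : ℝ → ℝ := fun v => cosT φ (v / L) * Real.cos (t * v) with hg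
  have hgm : Measurable g := by
    have : Continuous g := by simp only [hg]; fun_prop
    exact this.measurable
  have hgB : ∀ v, |g v| ≤ B := by
    intro v
    simp only [hg]
    rw [abs_mul]
    calc |cosT φ (v / L)| * |Real.cos (t * v)| ≤ B * 1 :=
          mul_le_mul (hB _) (Real.abs_cos_le_one _) (abs_nonneg _) hB0
      _ = B := mul_one B
  have h1 : CI (mu R) (gw φ L) t = ∫ v, g v * sg v ∂(mu R) := by
    unfold CI
    congr 1
    ext v
    simp only [hg]
    unfold gw
    ring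
  rw [h1, integral_mu_sg R hgm hgB]
  have h2 : ∑ n ∈ Finset.Icc 2 ⌊Real.exp R⌋₊, lam n * g (Real.log n) = (L / 2) * WW φ L t := by
    unfold WW
    rw [← mul_assoc, show L / 2 * (2 / L) = 1 by field_simp, one_mul]
    rw [tsum_eq_sum (s := Finset.Icc 2 ⌊Real.exp R⌋₊)]
    · apply Finset.sum_congr rfl
      intro n _
      simp only [hg]
      unfold lam
      ring
    · intro n hn
      have h3 : n ∉ Finset.Icc 2 ⌊Real.exp (s * L)⌋₊ := by
        intro h
        apply hn
        rw [Finset.mem_Icc] at h ⊢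
        exact ⟨h.1, h.2.trans (Nat.floor_le_floor (Real.exp_le_exp.mpr hR))⟩
      have := bb_eq_zero hφ hL h3
      unfold bb at this
      rw [this, zero_mul]
  have h3 : ∫ v in Ioc 0 R, Real.exp (v / 2) * g v = (L / 2) * PM φ L t := by
    unfold PM
    rw [← mul_assoc, show L / 2 * (2 / L) = 1 by field_simp, one_mul]
    simp only [hg]
    symm
    apply setIntegral_eq_of_subset_of_forall_diff_eq_zero measurableSet_Ioi Ioc_subset_Ioi_self
    intro v hv
    have hv1 : 0 < v := hv.1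
    have hv2 : R < v := by
      by_contra h
      exact hv.2 ⟨hv1, not_lt.mp h⟩
    rw [hφ.supp (v / L), zero_mul, mul_zero]
    rw [abs_of_pos (by positivity), le_div_iff₀ hL]
    linarith
  rw [h2, h3]
  ring

lemma ae_gw_supp {c : ℝ} (hc : 0 < c) (hz : ∀ ξ, |ξ| ≤ c → cosT φ ξ = 0) {L R : ℝ} (hL : 0 < L) :
    ∀ᵐ v ∂(mu R), gw φ L v ≠ 0 → c * L ≤ v := by
  filter_upwards [ae_mu R] with v hv hne
  by_contra h
  rw [not_le] at h
  apply hne
  unfold gw
  rw [hz, zero_mul]
  rw [abs_of_pos (by have := hv.1; positivity), div_le_iff₀ hL]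
  exact h.le

/-- Plancherel for the prime measure. -/
theorem integral_KK_X (hφ : TestFn s φ) (hs : 0 < s) {c : ℝ} (hc : 0 < c)
    (hz : ∀ ξ, |ξ| ≤ c → cosT φ ξ = 0) {L R r : ℝ} (hL : 0 < L) (hR : s * L ≤ R) (hr : 0 < r) (hrc : r ≤ 2 * (c * L)) :
    (L ^ 2 / 4) * ∫ t, KK r t * (PM φ L t - WW φ L t) ^ 2 = π * ∫ y, BI r (mu R) (gw φ L) y ^ 2 := by
  obtain ⟨B, hB0, hB⟩ := hφ.exists_bound_cosT
  have h := integral_KK_CI_eq_BI (μ := mu R) (ν := mu R) hr hrc (hφ.measurable_gw L) (hφ.measurable_gw L)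
    (abs_gw_le hB L) (abs_gw_le hB L) (ae_gw_supp hc hz hL) (ae_gw_supp hc hz hL)
  simp_rw [hφ.CI_mu hL hs hR] at h
  simp_rw [← sq] at h
  rw [← h, ← integral_const_mul]
  congr 1
  ext t
  ring

lemma continuous_PM (hφ : TestFn s φ) {L : ℝ} (hL : 0 < L) (hs : 0 < s) : Continuous (PM φ L) := by
  have hc := hφ.continuous_cosT
  have h1 : PM φ L = fun t => (2 / L) * ∫ v in Ioc 0 (s * L), Real.exp (v / 2) * (cosT φ (v / L) * Real.cos (t * v)) := by
    ext t
    unfold PM
    congr 1
    apply setIntegral_eq_of_subset_of_forall_diff_eq_zero measurableSet_Ioi Ioc_subset_Ioi_self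
    intro v hv
    have hv1 : 0 < v := hv.1
    have hv2 : s * L < v := by
      by_contra h
      exact hv.2 ⟨hv1, not_lt.mp h⟩
    rw [hφ.supp (v / L), zero_mul, mul_zero]
    rw [abs_of_pos (by positivity), le_div_iff₀ hL]
    linarith
  rw [h1]
  apply continuous_const.mul
  have hsL : 0 ≤ s * L := by positivity
  simp_rw [← intervalIntegral.integral_of_le hsL]
  apply intervalIntegral.continuous_parametric_intervalIntegral_of_continuous'
  unfold Function.uncurry
  fun_prop

end TestFn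

end Pool.Agent.H6
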