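import Mathlib
import Pool.Agent.H6.Apriori2
import Pool.Agent.H6.Bridge2

open MeasureTheory Set Filter Topology
open scoped Real Interval

namespace Pool.Agent.H6

lemma integrable_sqrt_div : Integrable (fun t : ℝ => (1 + |t|) ^ (1 / 2 : ℝ) / (1 + t ^ 2)) := by
  have h := (integrable_japanese (r := 3 / 2) (by norm_num)).const_mul 2
  apply Integrable.mono' h
  · apply Continuous.aestronglyMeasurable
    apply Continuous.div
    · apply Continuous.rpow_const (by fun_prop)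
      intro x
      left
      positivity
    · fun_prop
    · intro x; positivity
  · apply ae_of_all
    intro t
    rw [Real.norm_eq_abs, abs_of_nonneg (by positivity), div_le_iff₀ (by positivity)]
    have h1 : (1 + |t|) ^ 2 ≤ 2 * (1 + t ^ 2) := by
      nlinarith [sq_abs t, sq_nonneg (1 - |t|)]
    have h2 : (1 + |t|) ^ (1 / 2 : ℝ) = (1 + |t|) ^ (-(3 / 2) : ℝ) * (1 + |t|) ^ 2 := by
      rw [← Real.rpow_natCast (1 + |t|) 2, ← Real.rpow_add (by positivity)]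
      norm_num
    rw [h2]
    calc (1 + |t|) ^ (-(3 / 2) : ℝ) * (1 + |t|) ^ 2 ≤ (1 + |t|) ^ (-(3 / 2) : ℝ) * (2 * (1 + t ^ 2)) :=
          mul_le_mul_of_nonneg_left h1 (by positivity)
      _ = _ := by ring

/-- the prime side of the explicit formula -/
noncomputable def XX (φ : ℝ → ℝ) (L t : ℝ) : ℝ := TestFn.PM φ L t - WW φ L t

lemma continuous_XX {s : ℝ} {φ : ℝ → ℝ} (hφ : TestFn s φ) (hs : 0 < s) {L : ℝ} (hL : 0 < L) :
    Continuous (XX φ L) := (hφ.continuous_PM hL hs).sub (continuous_WW hφ hL)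

section
variable {F : ℝ → Finset PC.Z} {CR : ℝ} {γ w : PC.Z → ℝ} [Countable PC.Z]

/-- Crude bound for the prime side. -/
theorem crude_X (I : Inputs γ w F CR) {a : ℝ} (ha : 1 / 2 < a) (hP : PoissonInput γ w a (PC.arch a))
    {s : ℝ} {φ : ℝ → ℝ} (hφ : TestFn s φ) (hs : 0 < s) {c : ℝ} (hc : 0 < c)
    (hz : ∀ ξ, |ξ| ≤ c → cosT φ ξ = 0) :
    ∃ C, 0 ≤ C ∧ ∀ L, 2 * π ≤ L → ∀ r, 0 < r → r ≤ 1 →
      Integrable (fun t => KK r t * XX φ L t ^ 2) ∧ ∫ t, KK r t * XX φ L t ^ 2 ≤ C := by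
  obtain ⟨C1, hC10, hC1⟩ := hφ.exists_away hs hc hz ha hP
  obtain ⟨D, hD0, hD⟩ := hφ.decay
  set E : ℝ := 2 * (D * CR) ^ 2 + 2 * C1 ^ 2 with hE
  have hE0 : 0 ≤ E := by positivity
  have hint := integrable_sqrt_div
  have hint2 : Integrable (fun t : ℝ => (5 * E) * ((1 + |t|) ^ (1 / 2 : ℝ) / (1 + t ^ 2))) := hint.const_mul _
  refine ⟨∫ t : ℝ, (5 * E) * ((1 + |t|) ^ (1 / 2 : ℝ) / (1 + t ^ 2)), integral_nonneg fun t => by positivity, ?_⟩
  intro L hL r hr0 hr1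
  have hπ := Real.pi_gt_three
  have hL0 : 0 < L := by linarith
  have hXc := continuous_XX hφ hs hL0
  have hpt : ∀ t, KK r t * XX φ L t ^ 2 ≤ (5 * E) * ((1 + |t|) ^ (1 / 2 : ℝ) / (1 + t ^ 2)) := by
    intro t
    have h1 := hC1 L (by linarith) t
    have h2 := I.ord.SS_sq_le hD0 hD hL t
    have h3 : Real.exp (-(c * L / 2)) ≤ 1 := by
      rw [Real.exp_le_one_iff]
      have : 0 ≤ c * L / 2 := by positivity
      linarith
    have h4 : |SS γ w φ L t - XX φ L t| ≤ C1 := h1.trans (mul_le_of_le_one_right hC10 h3)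
    have h5 : 1 ≤ (1 + |t|) ^ (1 / 2 : ℝ) := Real.one_le_rpow (by linarith [abs_nonneg t]) (by norm_num)
    have h6 : XX φ L t ^ 2 ≤ E * (1 + |t|) ^ (1 / 2 : ℝ) := by
      have h7 : (SS γ w φ L t - XX φ L t) ^ 2 ≤ C1 ^ 2 := by
        rw [← sq_abs]
        exact pow_le_pow_left₀ (abs_nonneg _) h4 2
      have h8 : XX φ L t ^ 2 ≤ 2 * SS γ w φ L t ^ 2 + 2 * (SS γ w φ L t - XX φ L t) ^ 2 := by
        nlinarith [sq_nonneg (2 * SS γ w φ L t - XX φ L t)]
      have h9 : C1 ^ 2 ≤ C1 ^ 2 * (1 + |t|) ^ (1 / 2 : ℝ) := le_mul_of_one_le_right (by positivity) h5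
      calc XX φ L t ^ 2 ≤ 2 * SS γ w φ L t ^ 2 + 2 * (SS γ w φ L t - XX φ L t) ^ 2 := h8
        _ ≤ 2 * ((D * CR) ^ 2 * (1 + |t|) ^ (1 / 2 : ℝ)) + 2 * (C1 ^ 2 * (1 + |t|) ^ (1 / 2 : ℝ)) := by
            linarith
        _ = _ := by rw [hE]; ring
    have h10 : KK r t ≤ 5 / (1 + t ^ 2) := by
      refine (KK_le r t).trans ?_
      apply div_le_div_of_nonneg_right _ (by positivity)
      nlinarith
    calc KK r t * XX φ L t ^ 2 ≤ (5 / (1 + t ^ 2)) * (E * (1 + |t|) ^ (1 / 2 : ℝ)) :=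
          mul_le_mul h10 h6 (sq_nonneg _) (by positivity)
      _ = _ := by ring
  have hi : Integrable (fun t => KK r t * XX φ L t ^ 2) := by
    apply Integrable.mono' hint2
    · exact ((continuous_KK r).mul (hXc.pow 2)).aestronglyMeasurable
    · apply ae_of_all
      intro t
      rw [Real.norm_eq_abs, abs_of_nonneg (mul_nonneg (KK_nonneg _ _) (sq_nonneg _))]
      exact hpt t
  exact ⟨hi, integral_mono hi hint2 hpt⟩

/-- Mean square of the prime measure on short intervals: crude bound. -/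
theorem crude_BI (I : Inputs γ w F CR) {a : ℝ} (ha : 1 / 2 < a) (hP : PoissonInput γ w a (PC.arch a))
    {s : ℝ} {φ : ℝ → ℝ} (hφ : TestFn s φ) (hs : 0 < s) {c : ℝ} (hc : 0 < c)
    (hz : ∀ ξ, |ξ| ≤ c → cosT φ ξ = 0) :
    ∃ C, 0 ≤ C ∧ ∀ L, 2 * π ≤ L → 1 ≤ 2 * (c * L) → ∀ R, s * L ≤ R → ∀ r, 0 ≤ r → r ≤ 1 →
      Integrable (fun y => BI r (mu R) (TestFn.gw φ L) y ^ 2) ∧
      ∫ y, BI r (mu R) (TestFn.gw φ L) y ^ 2 ≤ C * L ^ 2 := by
  obtain ⟨C, hC0, hC⟩ := crude_X I ha hP hφ hs hc hz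
  obtain ⟨B, hB0, hB⟩ := hφ.exists_bound_cosT
  refine ⟨C / (4 * π), by positivity, fun L hL hcL R hR r hr0 hr1 => ?_⟩
  have hπ := Real.pi_gt_three
  have hL0 : 0 < L := by linarith
  have hi : Integrable (fun y => BI r (mu R) (TestFn.gw φ L) y ^ 2) := by
    have := integrable_BI_mul (μ := mu R) (ν := mu R) r (hφ.measurable_gw L) (hφ.measurable_gw L)
      (TestFn.abs_gw_le hB L) (TestFn.abs_gw_le hB L)
    simp_rw [← sq] at this
    exact this
  refine ⟨hi, ?_⟩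
  rcases eq_or_lt_of_le hr0 with h | h
  · subst h
    have : ∀ y, BI 0 (mu R) (TestFn.gw φ L) y ^ 2 = 0 := by
      intro y
      unfold BI
      simp
    simp_rw [this]
    rw [integral_zero]
    positivity
  · have h1 := hφ.integral_KK_X hs hc hz hL0 hR h (hr1.trans hcL)
    have h2 := (hC L hL r h hr1).2
    unfold XX at h2
    have h3 : ∫ y, BI r (mu R) (TestFn.gw φ L) y ^ 2 = (L ^ 2 / (4 * π)) * ∫ t, KK r t * (TestFn.PM φ L t - WW φ L t) ^ 2 := by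
      have h4 : π * ∫ y, BI r (mu R) (TestFn.gw φ L) y ^ 2 = π * ((L ^ 2 / (4 * π)) * ∫ t, KK r t * (TestFn.PM φ L t - WW φ L t) ^ 2) := by
        rw [← h1]
        field_simp
      exact mul_left_cancel₀ Real.pi_ne_zero h4
    rw [h3]
    calc L ^ 2 / (4 * π) * ∫ t, KK r t * (TestFn.PM φ L t - WW φ L t) ^ 2 ≤ L ^ 2 / (4 * π) * C :=
          mul_le_mul_of_nonneg_left h2 (by positivity)
      _ = _ := by ring

end

end Pool.Agent.H6
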