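import Mathlib
import Pool.Agent.H6.PL

open MeasureTheory Set Filter Topology
open scoped Real Interval ContDiff

namespace Pool.Agent.H6

section
variable {μ : Measure ℝ} [IsFiniteMeasure μ]

lemma measurable_setIntegral_Ioc {α : Type*} [MeasurableSpace α] {a b : α → ℝ} (ha : Measurable a) (hb : Measurable b)
    {k : α → ℝ → ℝ} (hk : Measurable (Function.uncurry k)) :
    Measurable fun p => ∫ v in Ioc (a p) (b p), k p v ∂μ := by
  have h1 : ∀ p, ∫ v in Ioc (a p) (b p), k p v ∂μ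
      = ∫ v, ({q : α × ℝ | a q.1 < q.2 ∧ q.2 ≤ b q.1}.indicator (Function.uncurry k)) (p, v) ∂μ := by
    intro p
    rw [← integral_indicator measurableSet_Ioc]
    congr 1
  simp_rw [h1]
  have hset : MeasurableSet {q : α × ℝ | a q.1 < q.2 ∧ q.2 ≤ b q.1} :=
    (measurableSet_lt (ha.comp measurable_fst) measurable_snd).inter
      (measurableSet_le measurable_snd (hb.comp measurable_fst))
  have h2 : StronglyMeasurable ({q : α × ℝ | a q.1 < q.2 ∧ q.2 ≤ b q.1}.indicator (Function.uncurry k)) :=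
    (hk.indicator hset).stronglyMeasurable
  exact (h2.integral_prod_right' (ν := μ)).measurable

lemma sq_integral_le {f : ℝ → ℝ} {η : ℝ} (hη : 0 < η) (hi : IntegrableOn f (Ioc 0 η))
    (hi2 : IntegrableOn (fun r => f r ^ 2) (Ioc 0 η)) :
    (∫ r in Ioc 0 η, f r) ^ 2 ≤ η * ∫ r in Ioc 0 η, f r ^ 2 := by
  set m := (∫ r in Ioc 0 η, f r) / η with hm
  have h1 : 0 ≤ ∫ r in Ioc 0 η, (f r - m) ^ 2 := integral_nonneg fun r => sq_nonneg _
  have ic : IntegrableOn (fun _ : ℝ => m ^ 2) (Ioc 0 η) := integrableOn_const (by simp)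
  have h2 : ∫ r in Ioc 0 η, (f r - m) ^ 2 = (∫ r in Ioc 0 η, f r ^ 2) - 2 * m * (∫ r in Ioc 0 η, f r) + η * m ^ 2 := by
    have e : ∀ r, (f r - m) ^ 2 = f r ^ 2 - (2 * m) * f r + m ^ 2 := by intro r; ring
    simp_rw [e]
    have i3 : IntegrableOn (fun r => (2 * m) * f r) (Ioc 0 η) := hi.const_mul _
    have i4 : IntegrableOn (fun r => f r ^ 2 - (2 * m) * f r) (Ioc 0 η) := hi2.sub i3
    rw [integral_add i4 ic, integral_sub hi2 i3, integral_const_mul,
      setIntegral_const, smul_eq_mul, measureReal_def, Real.volume_Ioc, sub_zero, ENNReal.toReal_ofReal hη.le]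
  rw [h2] at h1
  have h3 : ∫ r in Ioc 0 η, f r = m * η := by rw [hm]; field_simp
  rw [h3] at h1 ⊢
  nlinarith

/-- Double integral bound. -/
lemma double_BI {g : ℝ → ℝ} (hg : Measurable g) {A : ℝ} (hA : ∀ v, |g v| ≤ A) {η M : ℝ} (hη : 0 < η) (hM : 0 ≤ M)
    (hb : ∀ r, 0 ≤ r → r ≤ η → Integrable (fun y => BI r μ g y ^ 2) ∧ ∫ y, BI r μ g y ^ 2 ≤ M)
    {C1 : ℝ} (hC1 : 0 ≤ C1) {E : ℝ → ℝ} (hEm : Measurable E)
    (hE : ∀ y, |E y| ≤ C1 * ∫ r in Ioc 0 η, |BI (η - r) μ g (y + r)|) :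
    Integrable (fun y => E y ^ 2) ∧ ∫ y, E y ^ 2 ≤ C1 ^ 2 * η ^ 2 * M := by
  have hA0 : 0 ≤ A := (abs_nonneg _).trans (hA 0)
  -- joint measurability
  have hm : Measurable fun p : ℝ × ℝ => BI (η - p.2) μ g (p.1 + p.2) := by
    unfold BI
    apply measurable_setIntegral_Ioc (by fun_prop) (by fun_prop) (k := fun _ v => g v)
    exact hg.comp measurable_snd
  have hbd : ∀ r y, |BI r μ g y| ≤ A * μ.real univ := by
    intro r y
    unfold BI
    refine abs_integral_le_integral_abs.trans ?_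
    calc ∫ v in Ioc y (y + r), |g v| ∂μ ≤ ∫ v in Ioc y (y + r), A ∂μ := by
          apply integral_mono_of_nonneg (ae_of_all _ fun _ => abs_nonneg _) (integrable_const A)
          exact ae_of_all _ fun v => hA v
      _ ≤ A * μ.real univ := by
          rw [setIntegral_const, smul_eq_mul, mul_comm]
          apply mul_le_mul_of_nonneg_left _ hA0
          exact measureReal_mono (subset_univ _)
  have hmr : ∀ y, Measurable fun r : ℝ => BI (η - r) μ g (y + r) := fun y =>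
    hm.comp (measurable_const.prodMk measurable_id)
  have hmy : ∀ r, Measurable fun y : ℝ => BI (η - r) μ g (y + r) := fun r =>
    hm.comp (measurable_id.prodMk measurable_const)
  have hi1 : ∀ y, IntegrableOn (fun r => |BI (η - r) μ g (y + r)|) (Ioc 0 η) := by
    intro y
    apply Measure.integrableOn_of_bounded (M := A * μ.real univ) (by simp) (hmr y).abs.aestronglyMeasurable
    exact ae_of_all _ fun r => by rw [Real.norm_eq_abs, abs_abs]; exact hbd _ _
  have hi2 : ∀ y, IntegrableOn (fun r => |BI (η - r) μ g (y + r)| ^ 2) (Ioc 0 η) := by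
    intro y
    apply Measure.integrableOn_of_bounded (M := (A * μ.real univ) ^ 2) (by simp) ((hmr y).abs.pow_const 2).aestronglyMeasurable
    exact ae_of_all _ fun r => by
      rw [Real.norm_eq_abs, abs_pow, abs_abs]
      exact pow_le_pow_left₀ (abs_nonneg _) (hbd _ _) 2
  -- pointwise bound
  have hpt : ∀ y, ENNReal.ofReal (E y ^ 2) ≤ ENNReal.ofReal (C1 ^ 2 * η)
      * ∫⁻ r in Ioc 0 η, ENNReal.ofReal (BI (η - r) μ g (y + r) ^ 2) := by
    intro y
    have h1 := hE y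
    have h2 : E y ^ 2 ≤ (C1 ^ 2 * η) * ∫ r in Ioc 0 η, |BI (η - r) μ g (y + r)| ^ 2 := by
      rw [← sq_abs]
      calc |E y| ^ 2 ≤ (C1 * ∫ r in Ioc 0 η, |BI (η - r) μ g (y + r)|) ^ 2 := pow_le_pow_left₀ (abs_nonneg _) h1 2
        _ = C1 ^ 2 * (∫ r in Ioc 0 η, |BI (η - r) μ g (y + r)|) ^ 2 := by ring
        _ ≤ C1 ^ 2 * (η * ∫ r in Ioc 0 η, |BI (η - r) μ g (y + r)| ^ 2) :=
            mul_le_mul_of_nonneg_left (sq_integral_le hη (hi1 y) (hi2 y)) (sq_nonneg _)
        _ = _ := by ring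
    refine (ENNReal.ofReal_le_ofReal h2).trans ?_
    rw [ENNReal.ofReal_mul (by positivity), ofReal_integral_eq_lintegral_ofReal (hi2 y)
      (ae_of_all _ fun r => by simp only [Pi.zero_apply]; positivity)]
    simp_rw [sq_abs]
    exact le_rfl
  have hM2 : Measurable fun p : ℝ × ℝ => ENNReal.ofReal (BI (η - p.2) μ g (p.1 + p.2) ^ 2) :=
    (hm.pow_const 2).ennreal_ofReal
  have hl : ∫⁻ y, ENNReal.ofReal (E y ^ 2) ≤ ENNReal.ofReal (C1 ^ 2 * η ^ 2 * M) := by
    calc ∫⁻ y, ENNReal.ofReal (E y ^ 2)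
        ≤ ∫⁻ y, ENNReal.ofReal (C1 ^ 2 * η) * ∫⁻ r in Ioc 0 η, ENNReal.ofReal (BI (η - r) μ g (y + r) ^ 2) :=
          lintegral_mono hpt
      _ = ENNReal.ofReal (C1 ^ 2 * η) * ∫⁻ y, ∫⁻ r in Ioc 0 η, ENNReal.ofReal (BI (η - r) μ g (y + r) ^ 2) := by
          rw [lintegral_const_mul]
          exact hM2.lintegral_prod_right'
      _ = ENNReal.ofReal (C1 ^ 2 * η) * ∫⁻ r in Ioc 0 η, ∫⁻ y, ENNReal.ofReal (BI (η - r) μ g (y + r) ^ 2) := by
          rw [lintegral_lintegral_swap]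
          exact hM2.aemeasurable
      _ ≤ ENNReal.ofReal (C1 ^ 2 * η) * ∫⁻ r in Ioc 0 η, ENNReal.ofReal M := by
          apply mul_le_mul_right
          apply setLIntegral_mono measurable_const
          intro r hr
          obtain ⟨h1, h2⟩ := hb (η - r) (by linarith [hr.2]) (by linarith [hr.1])
          have h3 : ∫⁻ y, ENNReal.ofReal (BI (η - r) μ g (y + r) ^ 2) = ∫⁻ y, ENNReal.ofReal (BI (η - r) μ g y ^ 2) :=
            lintegral_add_right_eq_self (fun y => ENNReal.ofReal (BI (η - r) μ g y ^ 2)) r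
          rw [h3, ← ofReal_integral_eq_lintegral_ofReal h1 (ae_of_all _ fun y => sq_nonneg _)]
          exact ENNReal.ofReal_le_ofReal h2
      _ = ENNReal.ofReal (C1 ^ 2 * η ^ 2 * M) := by
          rw [setLIntegral_const, Real.volume_Ioc, sub_zero, ← ENNReal.ofReal_mul hM, ← ENNReal.ofReal_mul (by positivity)]
          congr 1
          ring
  have hi : Integrable (fun y => E y ^ 2) := by
    refine ⟨(hEm.pow_const 2).aestronglyMeasurable, ?_⟩
    rw [hasFiniteIntegral_iff_ofReal (ae_of_all _ fun y => sq_nonneg _)]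
    exact hl.trans_lt ENNReal.ofReal_lt_top
  refine ⟨hi, ?_⟩
  rw [← ofReal_integral_eq_lintegral_ofReal hi (ae_of_all _ fun y => sq_nonneg _)] at hl
  exact (ENNReal.ofReal_le_ofReal_iff (by positivity)).mp hl

end

end Pool.Agent.H6
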