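import Mathlib
import Pool.Agent.H6.Bridge1
import Pool.Agent.H6.Bridge2
import Pool.Agent.H6.Nice

open MeasureTheory Set Filter Topology
open scoped Real Interval ContDiff

namespace Pool.Agent.H6

/-- weighted mass of a short interval -/
noncomputable def Gm (η : ℝ) (μ : Measure ℝ) (y : ℝ) : ℝ := ∫ v in Ioc y (y + η), Real.exp ((v - y) / 2) * sg v ∂μ

/-- A two sided plateau. -/
lemma exists_annulus {a b c d : ℝ} (ha : 0 < a) (hab : a < b) (hbc : b ≤ c) (hcd : c < d) :
    ∃ θ : ℝ → ℝ, Nice θ ∧ (∀ x, d ≤ |x| → θ x = 0) ∧ (∀ x, |x| ≤ a → θ x = 0) ∧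
      (∀ x, b ≤ |x| → |x| ≤ c → θ x = 1) ∧ (∀ x, 0 ≤ θ x) ∧ (∀ x, θ x ≤ 1) := by
  obtain ⟨g1, n1, z1, o1, p1, l1⟩ := exists_nice_plateau ha hab
  obtain ⟨g2, n2, z2, o2, p2, l2⟩ := exists_nice_plateau (s := c) (s' := d) (by linarith) hcd
  refine ⟨fun x => g2 x - g1 x, n2.sub n1, ?_, ?_, ?_, ?_, ?_⟩
  · intro x hx
    simp only [z2 x hx, z1 x (by linarith), sub_zero]
  · intro x hx
    simp only [o2 x (by linarith), o1 x hx, sub_self]
  · intro x h1 h2
    simp only [o2 x h2, z1 x h1, sub_zero]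
  · intro x
    simp only
    rcases le_total b |x| with h | h
    · rw [z1 x h, sub_zero]; exact p2 x
    · rw [o2 x (by linarith)]
      linarith [l1 x]
  · intro x
    simp only
    linarith [p1 x, l2 x]

lemma Nice.deriv_bounded {χ : ℝ → ℝ} (h : Nice χ) : ∃ B, 0 ≤ B ∧ ∀ x, |deriv χ x| ≤ B := by
  have h1 : Continuous (deriv χ) := h.smooth.continuous_deriv (by norm_num)
  obtain ⟨B, hB⟩ := h1.bounded_above_of_compact_support h.hasCompactSupport.deriv
  exact ⟨B, (norm_nonneg _).trans (hB 0), hB⟩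

/-- Comparison of two normalisations, pointwise. -/
lemma E_pointwise {χ : ℝ → ℝ} (hχ : Nice χ) {c s : ℝ} (hc : 0 < c) (hcs : c ≤ s)
    (hz : ∀ ξ, |ξ| ≤ c → χ ξ = 0) (hsupp : ∀ ξ, s ≤ |ξ| → χ ξ = 0) :
    ∃ θ C1, Nice θ ∧ (∀ ξ, |ξ| ≤ c / 4 → θ ξ = 0) ∧ (∀ ξ, 3 * s ≤ |ξ| → θ ξ = 0) ∧ 0 ≤ C1 ∧
      ∀ L η : ℝ, 1 ≤ L → 0 < η → η ≤ 1 → η ≤ c * L / 2 → ∀ (μ : Measure ℝ) [IsFiniteMeasure μ], ∀ y,
        |χ (y / L) * Gm η μ y - BI η μ (TestFn.gw (cosT χ) L) y|
          ≤ C1 * ∫ r in Ioc 0 η, |BI (η - r) μ (TestFn.gw (cosT θ) L) (y + r)| := by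
  obtain ⟨B, hB0, hB⟩ := hχ.bounded
  obtain ⟨B', hB'0, hB'⟩ := hχ.deriv_bounded
  obtain ⟨θ, nθ, z1, z2, o, p, l⟩ := exists_annulus (a := c / 4) (b := c / 2) (c := 2 * s) (d := 3 * s)
    (by linarith) (by linarith) (by linarith) (by linarith)
  refine ⟨θ, 2 * B + B', nθ, z2, z1, by positivity, fun L η hL hη hη1 hηc μ _ y => ?_⟩
  have hL0 : 0 < L := by linarith
  have hχc := hχ.continuous
  obtain ⟨Bθ, hBθ0, hBθ⟩ := nθ.bounded
  have hgwm : Measurable (TestFn.gw (cosT θ) L) := (nθ.reg z1).test.measurable_gw L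
  have hgwb : ∀ v, |TestFn.gw (cosT θ) L v| ≤ Bθ := TestFn.abs_gw_le (fun ξ => by rw [nθ.inv]; exact hBθ ξ) L
  have hgwm2 : Measurable (TestFn.gw (cosT χ) L) := (hχ.reg hsupp).test.measurable_gw L
  have hgwb2 : ∀ v, |TestFn.gw (cosT χ) L v| ≤ B := TestFn.abs_gw_le (fun ξ => by rw [hχ.inv]; exact hB ξ) L
  set ρ : ℝ → ℝ := fun v => χ (y / L) * Real.exp ((v - y) / 2) - χ (v / L) with hρ
  set ρ' : ℝ → ℝ := fun v => χ (y / L) * (Real.exp ((v - y) / 2) / 2) - deriv χ (v / L) / L with hρ'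
  have hdc : Continuous (deriv χ) := hχ.smooth.continuous_deriv (by norm_num)
  have hd : ∀ u ∈ Icc y (y + η), HasDerivAt ρ (ρ' u) u := by
    intro u _
    have h1 : HasDerivAt (fun v : ℝ => Real.exp ((v - y) / 2)) (Real.exp ((u - y) / 2) * (1 / 2)) u := by
      have h2 : HasDerivAt (fun v : ℝ => (v - y) / 2) (1 / 2) u := ((hasDerivAt_id u).sub_const y).div_const 2
      exact h2.exp
    have h3 : HasDerivAt (fun v : ℝ => χ (v / L)) (deriv χ (u / L) * (1 / L)) u := by
      have h4 : HasDerivAt χ (deriv χ (u / L)) (u / L) :=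
        (hχ.smooth.differentiable (by norm_num) _).hasDerivAt
      exact h4.comp u ((hasDerivAt_id u).div_const L)
    have h5 := (h1.const_mul (χ (y / L))).sub h3
    apply h5.congr_deriv
    simp only [hρ']
    ring
  have hρ'c : Continuous ρ' := by simp only [hρ']; fun_prop
  have h0 : ρ y = 0 := by simp only [hρ]; simp
  have hC : ∀ u ∈ Icc y (y + η), |ρ' u| ≤ 2 * B + B' := by
    intro u hu
    simp only [hρ']
    refine (abs_sub _ _).trans ?_
    have e1 : |χ (y / L) * (Real.exp ((u - y) / 2) / 2)| ≤ 2 * B := by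
      rw [abs_mul, abs_of_pos (by positivity : 0 < Real.exp ((u - y) / 2) / 2)]
      have h2 : Real.exp ((u - y) / 2) ≤ Real.exp 1 := Real.exp_le_exp.mpr (by linarith [hu.2])
      have h3 := Real.exp_one_lt_d9
      have h4 : Real.exp ((u - y) / 2) / 2 ≤ 2 := by linarith
      calc |χ (y / L)| * (Real.exp ((u - y) / 2) / 2) ≤ B * 2 := mul_le_mul (hB _) h4 (by positivity) hB0
        _ = 2 * B := by ring
    have e2 : |deriv χ (u / L) / L| ≤ B' := by
      rw [abs_div, abs_of_pos hL0, div_le_iff₀ hL0]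
      calc |deriv χ (u / L)| ≤ B' * 1 := by rw [mul_one]; exact hB' _
        _ ≤ B' * L := mul_le_mul_of_nonneg_left hL hB'0
    exact add_le_add e1 e2
  have hmain := BI_weight (μ := μ) hgwm hgwb hη hd hρ'c h0 hC
  -- the left side
  have hleft : χ (y / L) * Gm η μ y - BI η μ (TestFn.gw (cosT χ) L) y
      = ∫ v in Ioc y (y + η), ρ v * TestFn.gw (cosT θ) L v ∂μ := by
    unfold Gm BI
    have ig : IntegrableOn (fun v => Real.exp ((v - y) / 2) * sg v) (Ioc y (y + η)) μ := by
      apply Measure.integrableOn_of_bounded (M := Real.exp 1) (measure_ne_top _ _)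
      · have h1 : Measurable fun v : ℝ => Real.exp ((v - y) / 2) := by fun_prop
        exact (h1.mul measurable_sg).aestronglyMeasurable
      · filter_upwards [ae_restrict_mem measurableSet_Ioc] with v hv
        rw [Real.norm_eq_abs, abs_mul, abs_sg, mul_one, abs_of_pos (Real.exp_pos _)]
        exact Real.exp_le_exp.mpr (by linarith [hv.2])
    have ig2 : IntegrableOn (TestFn.gw (cosT χ) L) (Ioc y (y + η)) μ :=
      (integrable_of_bdd hgwm2 hgwb2).integrableOn
    rw [← integral_const_mul, ← integral_sub (ig.const_mul _) ig2]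
    apply setIntegral_congr_fun measurableSet_Ioc
    intro v hv
    simp only
    unfold TestFn.gw
    rw [hχ.inv, nθ.inv]
    have hvy : |v / L - y / L| ≤ c / 2 := by
      rw [← sub_div, abs_div, abs_of_pos hL0, div_le_iff₀ hL0, abs_of_nonneg (by linarith [hv.1])]
      linarith [hv.2]
    have hvy2 : |y / L| ≤ |v / L| + c / 2 := by
      have : |y / L| ≤ |v / L| + |v / L - y / L| := by
        have := abs_sub_abs_le_abs_sub (y / L) (v / L)
        rw [abs_sub_comm] at this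
        linarith
      linarith
    have hvy3 : |v / L| - c / 2 ≤ |y / L| := by
      have := abs_sub_abs_le_abs_sub (v / L) (y / L)
      linarith
    have key : ρ v * θ (v / L) = ρ v := by
      rcases le_total |v / L| (c / 2) with h | h
      · have h1 : χ (v / L) = 0 := hz _ (by linarith)
        have h2 : χ (y / L) = 0 := hz _ (by linarith)
        simp only [hρ, h1, h2]
        ring
      · rcases le_total |v / L| (2 * s) with h' | h'
        · rw [o _ h h', mul_one]
        · have h1 : χ (v / L) = 0 := hsupp _ (by linarith)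
          have h2 : χ (y / L) = 0 := hsupp _ (by linarith)
          simp only [hρ, h1, h2]
          ring
    have e3 : ρ v * (θ (v / L) * sg v) = ρ v * sg v := by
      rw [← mul_assoc, key]
    rw [e3]
    simp only [hρ]
    ring
  rw [hleft]
  exact hmain

end Pool.Agent.H6
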