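import Mathlib
import Pool.Agent.H6.Gam
import Pool.Agent.H6.Mix2

open MeasureTheory Set Filter Topology
open scoped Real Interval

namespace Pool.Agent.H6

/-- `η(T) = log (1 + 1/T)` -/
noncomputable def eta (T : ℝ) : ℝ := Real.log (1 + 1 / T)

lemma eta_pos {T : ℝ} (hT : 0 < T) : 0 < eta T := by
  unfold eta
  apply Real.log_pos
  have : 0 < 1 / T := by positivity
  linarith

lemma eta_le {T : ℝ} (hT : 0 < T) : eta T ≤ 1 / T := by
  unfold eta
  have := Real.log_le_sub_one_of_pos (show 0 < 1 + 1 / T by positivity)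
  linarith

lemma tendsto_mul_eta : Tendsto (fun T => T * eta T) atTop (𝓝 1) := by
  have := Real.tendsto_mul_log_one_add_div_atTop 1
  exact this

lemma pk_even (a t : ℝ) : pk a (-t) = pk a t := by unfold pk; rw [neg_sq]

lemma arch_even {a : ℝ} (ha : 1 / 2 < a) (t : ℝ) : PC.arch a (-t) = PC.arch a t := by
  have h1 := arch_tendsto ha t
  have h2 := arch_tendsto ha (-t)
  have e : ∀ n : ℕ, ∑ j ∈ Finset.range n, pd a j (-t) = ∑ j ∈ Finset.range n, pd a j t := by
    intro n
    apply Finset.sum_congr rfl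
    intro j _
    unfold pd
    rw [pk_even]
  simp_rw [e, pk_even] at h2
  have := tendsto_nhds_unique h1 h2
  linarith

lemma SS_even {γ w : PC.Z → ℝ} [Countable PC.Z] {a : ℝ} (ha : 1 / 2 < a) (hP : PoissonInput γ w a (PC.arch a))
    {s : ℝ} {φ : ℝ → ℝ} (hφ : TestFn s φ) (hs : 0 < s) {L : ℝ} (hL : 1 ≤ L) (t : ℝ) :
    SS γ w φ L (-t) = SS γ w φ L t := by
  rw [hP.SS_eq hφ hs hL, hP.SS_eq hφ hs hL]
  have h1 : ∫ u, TestFn.q φ a L u * PC.arch a (-t - u) = ∫ u, TestFn.q φ a L u * PC.arch a (t - u) := by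
    rw [← integral_neg_eq_self]
    congr 1
    ext u
    rw [TestFn.q_even, show -t - -u = -(t - u) by ring, arch_even ha]
  have h2 : WW φ L (-t) = WW φ L t := by
    unfold WW
    congr 2
    ext n
    rw [show -t * Real.log n = -(t * Real.log n) by ring, Real.cos_neg]
  rw [h1, h2]

/-- The smoothed mean square attached to the variance of primes. -/
noncomputable def MV (γ w : PC.Z → ℝ) (φ : ℝ → ℝ) (T : ℝ) : ℝ :=
  T / (4 * π) * ∫ t, KK (eta T) t * SS γ w φ (Real.log T) t ^ 2

lemma MV_eq {γ w : PC.Z → ℝ} [Countable PC.Z] {a : ℝ} (ha : 1 / 2 < a) (hP : PoissonInput γ w a (PC.arch a))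
    {s : ℝ} {φ : ℝ → ℝ} (hφ : TestFn s φ) (hs : 0 < s) {T : ℝ} (hT : 0 < T) (hL : 1 ≤ Real.log T) :
    MV γ w φ T = (T * eta T) / (2 * π) * ∫ y in Ioi 0, KK 1 y * SS γ w φ (Real.log T) ((eta T)⁻¹ * y) ^ 2 := by
  unfold MV
  have hη := eta_pos hT
  rw [integral_even_eq (f := fun t => KK (eta T) t * SS γ w φ (Real.log T) t ^ 2)
    (fun t => by rw [KK_even, SS_even ha hP hφ hs hL])]
  have e1 : ∀ t : ℝ, KK (eta T) t * SS γ w φ (Real.log T) t ^ 2
      = (eta T) ^ 2 * (fun x => KK 1 x * SS γ w φ (Real.log T) ((eta T)⁻¹ * x) ^ 2) (eta T * t) := by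
    intro t
    simp only
    rw [Inputs.KK_scale]
    have e : (eta T)⁻¹ * (eta T * t) = t := by field_simp
    rw [e]
    ring
  simp_rw [e1]
  rw [integral_const_mul, integral_Ioi_comp_mul (f := fun x => KK 1 x * SS γ w φ (Real.log T) ((eta T)⁻¹ * x) ^ 2) hη,
    mul_zero]
  field_simp
  ring

lemma tendsto_inv_eta : Tendsto (fun T => (eta T)⁻¹) atTop atTop := by
  apply tendsto_atTop_mono' _ _ tendsto_id
  filter_upwards [eventually_gt_atTop 0] with T hT
  rw [id, le_inv_comm₀ hT (eta_pos hT), ← one_div]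
  exact eta_le hT

/-- logarithms of asymptotically equal quantities -/
lemma tendsto_log_div_log {α : Type*} {l : Filter α} {A B : α → ℝ} (hA : Tendsto A l atTop)
    (hAB : Tendsto (fun x => B x / A x) l (𝓝 1)) : Tendsto (fun x => Real.log (B x) / Real.log (A x)) l (𝓝 1) := by
  have hlog : Tendsto (fun x => Real.log (A x)) l atTop := Real.tendsto_log_atTop.comp hA
  have h1 : Tendsto (fun x => Real.log (B x / A x)) l (𝓝 0) := by
    have := (Real.continuousAt_log one_ne_zero).tendsto.comp hAB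
    rwa [Real.log_one] at this
  have h2 : Tendsto (fun x => 1 + Real.log (B x / A x) / Real.log (A x)) l (𝓝 1) := by
    have h3 := h1.div_atTop hlog
    simpa using h3.const_add 1
  apply h2.congr'
  filter_upwards [hA.eventually_gt_atTop 1, hAB.eventually (lt_mem_nhds (by norm_num : (0 : ℝ) < 1))] with x hx1 hx2
  have hA0 : 0 < A x := by linarith
  have hB0 : 0 < B x := by
    by_contra h
    rw [not_lt] at h
    have := div_nonpos_of_nonpos_of_nonneg h hA0.le
    linarith
  have hl : 0 < Real.log (A x) := Real.log_pos hx1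
  rw [Real.log_div hB0.ne' hA0.ne']
  field_simp
  ring

section
variable {F : ℝ → Finset PC.Z} {CR : ℝ} {γ w : PC.Z → ℝ} [Countable PC.Z]

theorem MV_of_mixK (I : Inputs γ w F CR) {a : ℝ} (ha : 1 / 2 < a) (hP : PoissonInput γ w a (PC.arch a))
    {s : ℝ} {φ : ℝ → ℝ} (hφ : Reg s φ) (hs : 0 < s) {ℓ : ℝ} (h : MixK γ w φ ℓ) :
    Tendsto (MV γ w φ) atTop (𝓝 (ℓ / 2)) := by
  have hA := tendsto_inv_eta
  have hratio : Tendsto (fun T => Real.log T / Real.log ((eta T)⁻¹)) atTop (𝓝 1) := by
    apply tendsto_log_div_log hA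
    apply tendsto_mul_eta.congr
    intro T
    rw [div_inv_eq_mul]
  have h1 := I.mix_scale hφ hs hA hratio
  have h2 := h1.add (h.comp hA)
  simp only [Function.comp, sub_add_cancel, zero_add] at h2
  have h3 := (tendsto_mul_eta.div_const (2 * π)).mul h2
  have e : 1 / (2 * π) * (ℓ * π) = ℓ / 2 := by
    have := Real.pi_ne_zero
    field_simp
  rw [e] at h3
  apply h3.congr'
  filter_upwards [eventually_gt_atTop 0, Real.tendsto_log_atTop.eventually_ge_atTop 1] with T hT hL
  rw [MV_eq ha hP hφ.test hs hT hL]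

/-- inverse of `T ↦ 1/η(T)` -/
noncomputable def Bf (x : ℝ) : ℝ := 1 / (Real.exp (1 / x) - 1)

lemma eta_Bf {x : ℝ} (hx : 0 < x) : eta (Bf x) = 1 / x := by
  unfold eta Bf
  rw [one_div_one_div, add_sub_cancel, Real.log_exp]

lemma Bf_pos {x : ℝ} (hx : 0 < x) : 0 < Bf x := by
  unfold Bf
  have : 1 < Real.exp (1 / x) := Real.one_lt_exp_iff.mpr (by positivity)
  apply one_div_pos.mpr
  linarith

lemma tendsto_Bf : Tendsto Bf atTop atTop := by
  unfold Bf
  have h1 : Tendsto (fun x : ℝ => Real.exp (1 / x) - 1) atTop (𝓝[>] 0) := by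
    rw [tendsto_nhdsWithin_iff]
    constructor
    · have h2 : Tendsto (fun x : ℝ => 1 / x) atTop (𝓝 0) := tendsto_const_nhds.div_atTop tendsto_id
      have h3 := (Real.continuous_exp.tendsto 0).comp h2
      rw [Real.exp_zero] at h3
      have h4 := h3.sub_const 1
      simpa using h4
    · filter_upwards [eventually_gt_atTop 0] with x hx
      have : 1 < Real.exp (1 / x) := Real.one_lt_exp_iff.mpr (by positivity)
      simp only [mem_Ioi]
      linarith
  simp_rw [one_div]
  simp_rw [one_div] at h1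
  exact tendsto_inv_nhdsGT_zero.comp h1

theorem mixK_of_MV (I : Inputs γ w F CR) {a : ℝ} (ha : 1 / 2 < a) (hP : PoissonInput γ w a (PC.arch a))
    {s : ℝ} {φ : ℝ → ℝ} (hφ : Reg s φ) (hs : 0 < s) {ℓ : ℝ} (h : Tendsto (MV γ w φ) atTop (𝓝 (ℓ / 2))) :
    MixK γ w φ ℓ := by
  -- first the limit of the integral along T
  have h1 : Tendsto (fun T => ∫ y in Ioi 0, KK 1 y * SS γ w φ (Real.log T) ((eta T)⁻¹ * y) ^ 2) atTop (𝓝 (ℓ * π)) := by
    have h2 := (h.const_mul (2 * π)).div tendsto_mul_eta one_ne_zero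
    rw [div_one, show 2 * π * (ℓ / 2) = ℓ * π by ring] at h2
    apply h2.congr'
    filter_upwards [eventually_gt_atTop 0, Real.tendsto_log_atTop.eventually_ge_atTop 1] with T hT hL
    have hη := eta_pos hT
    rw [Pi.div_apply, MV_eq ha hP hφ.test hs hT hL]
    have := Real.pi_ne_zero
    field_simp
  have h3 := h1.comp tendsto_Bf
  have hratio : Tendsto (fun x => Real.log (Bf x) / Real.log x) atTop (𝓝 1) := by
    apply tendsto_log_div_log tendsto_id
    have h4 := tendsto_mul_eta.comp tendsto_Bf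
    apply h4.congr'
    filter_upwards [eventually_gt_atTop 0] with x hx
    simp only [Function.comp, id]
    rw [eta_Bf hx]
    ring
  have h5 := I.mix_scale hφ hs tendsto_id hratio
  simp only [id] at h5
  have h6 := h3.sub h5
  rw [sub_zero] at h6
  unfold MixK
  apply h6.congr'
  filter_upwards [eventually_gt_atTop 0] with x hx
  simp only [Function.comp]
  rw [eta_Bf hx, one_div, inv_inv]
  ring

end

end Pool.Agent.H6
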