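import Mathlib
import Pool.Agent.H6.Bridge3
import Pool.Agent.H6.MV

open MeasureTheory Set Filter Topology
open scoped Real Interval ContDiff

namespace Pool.Agent.H6

section
variable {F : ℝ → Finset PC.Z} {CR : ℝ} {γ w : PC.Z → ℝ} [Countable PC.Z]

/-- crude integrability -/
lemma integrable_KK_SS (I : Inputs γ w F CR) {s : ℝ} {φ : ℝ → ℝ} (hφ : TestFn s φ) (hs : 0 < s)
    {L r : ℝ} (hL : 2 * π ≤ L) (hr0 : 0 < r) (hr1 : r ≤ 1) : Integrable (fun t => KK r t * SS γ w φ L t ^ 2) := by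
  obtain ⟨D, hD0, hD⟩ := hφ.decay
  have hπ := Real.pi_gt_three
  apply Integrable.mono' (integrable_sqrt_div.const_mul (5 * (D * CR) ^ 2))
  · exact ((continuous_KK r).mul ((I.continuous_SS hφ hs (by linarith)).pow 2)).aestronglyMeasurable
  · apply ae_of_all
    intro t
    rw [Real.norm_eq_abs, abs_of_nonneg (mul_nonneg (KK_nonneg _ _) (sq_nonneg _))]
    have h10 : KK r t ≤ 5 / (1 + t ^ 2) := by
      refine (KK_le r t).trans ?_
      apply div_le_div_of_nonneg_right _ (by positivity)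
      nlinarith
    calc KK r t * SS γ w φ L t ^ 2 ≤ (5 / (1 + t ^ 2)) * ((D * CR) ^ 2 * (1 + |t|) ^ (1 / 2 : ℝ)) :=
          mul_le_mul h10 (I.ord.SS_sq_le hD0 hD hL t) (sq_nonneg _) (by positivity)
      _ = _ := by ring

omit [Countable PC.Z] in
lemma inv_eta_le {T : ℝ} (hT : 1 ≤ T) : (eta T)⁻¹ ≤ 2 * T := by
  have hT0 : 0 < T := by linarith
  have h1 : 1 / (T + 1) ≤ eta T := by
    unfold eta
    have h2 := Real.one_sub_inv_le_log_of_pos (show 0 < 1 + 1 / T by positivity)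
    have h3 : 1 - (1 + 1 / T)⁻¹ = 1 / (T + 1) := by field_simp; ring
    rw [h3] at h2
    exact h2
  calc (eta T)⁻¹ ≤ (1 / (T + 1))⁻¹ := inv_anti₀ (by positivity) h1
    _ = T + 1 := by rw [one_div, inv_inv]
    _ ≤ 2 * T := by linarith

/-- The smoothed mean squares are bounded. -/
theorem MV_bound (I : Inputs γ w F CR) {a : ℝ} (ha : 1 / 2 < a) (hP : PoissonInput γ w a (PC.arch a))
    {s : ℝ} {φ : ℝ → ℝ} (hφ : TestFn s φ) (hs : 0 < s) :
    ∃ C, 0 ≤ C ∧ ∀ᶠ T in atTop, MV γ w φ T ≤ C := by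
  obtain ⟨B, T2, hB0, hT2, hB⟩ := I.majFam
  obtain ⟨D, hD0, hD⟩ := hφ.decay
  refine ⟨(1 / (2 * π)) * ((5 * (524288 * D) ^ 2) * B), by positivity, ?_⟩
  have hπ := Real.pi_gt_three
  have hlog := Real.tendsto_log_atTop
  filter_upwards [eventually_ge_atTop 1, hlog.eventually_ge_atTop (2 * π), tendsto_inv_eta.eventually_ge_atTop T2]
    with T hT1 hL hT2'
  have hT0 : 0 < T := by linarith
  have hη := eta_pos hT0
  rw [MV_eq ha hP hφ hs hT0 (by linarith)]
  have hlog2 : Real.log 2 ≤ 1 := by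
    have := Real.log_two_lt_d9
    linarith
  have h3 : 3 * Real.log ((eta T)⁻¹) ≤ 4 * Real.log T := by
    have h4 : Real.log ((eta T)⁻¹) ≤ Real.log (2 * T) := Real.log_le_log (by positivity) (inv_eta_le hT1)
    rw [Real.log_mul (by norm_num) hT0.ne'] at h4
    linarith
  obtain ⟨hi, hb⟩ := hB (Real.log T) ((eta T)⁻¹) hL hT2' h3
  have hTη : T * eta T ≤ 1 := by
    have := eta_le hT0
    calc T * eta T ≤ T * (1 / T) := mul_le_mul_of_nonneg_left this hT0.le
      _ = 1 := by field_simp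
  have h5 : ∫ y in Ioi 0, KK 1 y * SS γ w φ (Real.log T) ((eta T)⁻¹ * y) ^ 2
      ≤ ∫ y in Ioi 0, (5 * (524288 * D) ^ 2) * (SS γ w Maj (Real.log T) ((eta T)⁻¹ * y) ^ 2 / (1 + y ^ 2)) := by
    apply integral_mono_of_nonneg (ae_of_all _ fun y => mul_nonneg (KK_nonneg _ _) (sq_nonneg _)) (hi.const_mul _)
    apply ae_of_all
    intro y
    simp only
    have h6 := I.ord.abs_SS_le_Maj hD0 hD hL hL (by linarith) ((eta T)⁻¹ * y)
    have h7 : SS γ w φ (Real.log T) ((eta T)⁻¹ * y) ^ 2 ≤ (524288 * D) ^ 2 * SS γ w Maj (Real.log T) ((eta T)⁻¹ * y) ^ 2 := by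
      rw [← mul_pow, ← sq_abs (SS γ w φ _ _)]
      exact pow_le_pow_left₀ (abs_nonneg _) h6 2
    calc KK 1 y * SS γ w φ (Real.log T) ((eta T)⁻¹ * y) ^ 2
        ≤ (5 / (1 + y ^ 2)) * ((524288 * D) ^ 2 * SS γ w Maj (Real.log T) ((eta T)⁻¹ * y) ^ 2) :=
          mul_le_mul (Inputs.KK_one_le y) h7 (sq_nonneg _) (by positivity)
      _ = _ := by ring
  rw [integral_const_mul] at h5
  have h8 : 0 ≤ ∫ y in Ioi 0, KK 1 y * SS γ w φ (Real.log T) ((eta T)⁻¹ * y) ^ 2 :=
    integral_nonneg fun y => mul_nonneg (KK_nonneg _ _) (sq_nonneg _)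
  calc T * eta T / (2 * π) * ∫ y in Ioi 0, KK 1 y * SS γ w φ (Real.log T) ((eta T)⁻¹ * y) ^ 2
      ≤ (1 / (2 * π)) * ((5 * (524288 * D) ^ 2) * B) := by
        apply mul_le_mul
        · exact div_le_div_of_nonneg_right hTη (by positivity)
        · exact h5.trans (mul_le_mul_of_nonneg_left hb (by positivity))
        · exact h8
        · positivity

/-- Comparison with the prime side. -/
theorem MV_sub_X (I : Inputs γ w F CR) {a : ℝ} (ha : 1 / 2 < a) (hP : PoissonInput γ w a (PC.arch a))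
    {s : ℝ} {φ : ℝ → ℝ} (hφ : TestFn s φ) (hs : 0 < s) {c : ℝ} (hc : 0 < c)
    (hz : ∀ ξ, |ξ| ≤ c → cosT φ ξ = 0) :
    Tendsto (fun T => MV γ w φ T - T / (4 * π) * ∫ t, KK (eta T) t * XX φ (Real.log T) t ^ 2) atTop (𝓝 0) := by
  obtain ⟨C, hC0, hC⟩ := MV_bound I ha hP hφ hs
  obtain ⟨C1, hC10, hC1⟩ := hφ.exists_away hs hc hz ha hP
  obtain ⟨C2, hC20, hC2⟩ := crude_X I ha hP hφ hs hc hz
  have hlog := Real.tendsto_log_atTop
  have hlim : Tendsto (fun T : ℝ => (C + C1 ^ 2) * Real.exp (-(c * Real.log T / 2))) atTop (𝓝 0) := by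
    have h1 : Tendsto (fun T : ℝ => c * Real.log T / 2) atTop atTop :=
      (hlog.const_mul_atTop hc).atTop_div_const (by norm_num)
    have h2 := (Real.tendsto_exp_neg_atTop_nhds_zero.comp h1).const_mul (C + C1 ^ 2)
    simpa [Function.comp_def] using h2
  apply squeeze_zero_norm' _ hlim
  have hπ := Real.pi_gt_three
  filter_upwards [eventually_ge_atTop 1, hlog.eventually_ge_atTop (2 * π), hC] with T hT1 hL hMV
  have hT0 : 0 < T := by linarith
  have hη := eta_pos hT0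
  have hηT := eta_le hT0
  have hη1 : eta T ≤ 1 := hηT.trans (by rw [div_le_iff₀ hT0]; linarith)
  set L := Real.log T with hLdef
  set e := Real.exp (-(c * L / 2)) with he
  have he0 : 0 < e := Real.exp_pos _
  have he1 : e ≤ 1 := by
    rw [he, Real.exp_le_one_iff]
    have : 0 ≤ c * L / 2 := by
      have : 0 < L := by linarith
      positivity
    linarith
  have i1 := integrable_KK_SS I hφ hs hL hη hη1
  have i2 := (hC2 L hL (eta T) hη hη1).1
  have i3 : Integrable (fun t => KK (eta T) t) := integrable_KK (eta T)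
  have hpt : ∀ t, |KK (eta T) t * SS γ w φ L t ^ 2 - KK (eta T) t * XX φ L t ^ 2|
      ≤ e * (KK (eta T) t * SS γ w φ L t ^ 2) + (2 * C1 ^ 2 * e) * KK (eta T) t := by
    intro t
    have h1 : |SS γ w φ L t - XX φ L t| ≤ C1 * e := hC1 L (by linarith) t
    set S := SS γ w φ L t
    set X := XX φ L t
    set δ := S - X with hδ
    have hX : X = S - δ := by rw [hδ]; ring
    have hδ2 : δ ^ 2 ≤ C1 ^ 2 * e ^ 2 := by
      rw [← mul_pow, ← sq_abs δ]
      exact pow_le_pow_left₀ (abs_nonneg _) h1 2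
    have h2 : |S ^ 2 - X ^ 2| ≤ e * S ^ 2 + 2 * C1 ^ 2 * e := by
      rw [hX, show S ^ 2 - (S - δ) ^ 2 = 2 * S * δ - δ ^ 2 by ring]
      have h3 : |2 * S * δ| ≤ e * S ^ 2 + C1 ^ 2 * e := by
        have h4 : 2 * |S| * |δ| ≤ e * S ^ 2 + δ ^ 2 / e := by
          have h5 : 0 ≤ (e * |S| - |δ|) ^ 2 / e := by positivity
          have h6 : (e * |S| - |δ|) ^ 2 / e = e * |S| ^ 2 - 2 * |S| * |δ| + |δ| ^ 2 / e := by
            field_simp
            ring
          rw [h6, sq_abs, sq_abs] at h5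
          linarith
        have h7 : δ ^ 2 / e ≤ C1 ^ 2 * e := by
          rw [div_le_iff₀ he0]
          calc δ ^ 2 ≤ C1 ^ 2 * e ^ 2 := hδ2
            _ = _ := by ring
        rw [abs_mul, abs_mul, abs_two]
        linarith
      have h8 : e ^ 2 ≤ e := by
        rw [pow_two]
        exact mul_le_of_le_one_right he0.le he1
      have h9 : C1 ^ 2 * e ^ 2 ≤ C1 ^ 2 * e := mul_le_mul_of_nonneg_left h8 (sq_nonneg _)
      calc |2 * S * δ - δ ^ 2| ≤ |2 * S * δ| + |δ ^ 2| := abs_sub _ _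
        _ ≤ (e * S ^ 2 + C1 ^ 2 * e) + C1 ^ 2 * e := by
            rw [abs_of_nonneg (sq_nonneg δ)]
            linarith
        _ = _ := by ring
    rw [← mul_sub, abs_mul, abs_of_nonneg (KK_nonneg _ _)]
    calc KK (eta T) t * |S ^ 2 - X ^ 2| ≤ KK (eta T) t * (e * S ^ 2 + 2 * C1 ^ 2 * e) :=
          mul_le_mul_of_nonneg_left h2 (KK_nonneg _ _)
      _ = _ := by ring
  unfold MV at hMV ⊢
  rw [Real.norm_eq_abs, ← mul_sub, ← integral_sub i1 i2, abs_mul, abs_of_pos (by positivity : 0 < T / (4 * π))]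
  have h10 : |∫ t, (KK (eta T) t * SS γ w φ L t ^ 2 - KK (eta T) t * XX φ L t ^ 2)|
      ≤ e * (∫ t, KK (eta T) t * SS γ w φ L t ^ 2) + (2 * C1 ^ 2 * e) * (2 * π * eta T) := by
    refine abs_integral_le_integral_abs.trans ?_
    rw [← integral_KK hη, ← integral_const_mul, ← integral_const_mul, ← integral_add (i1.const_mul _) (i3.const_mul _)]
    exact integral_mono (i1.sub i2).abs ((i1.const_mul _).add (i3.const_mul _)) hpt
  have hTη : T * eta T ≤ 1 := by
    calc T * eta T ≤ T * (1 / T) := mul_le_mul_of_nonneg_left hηT hT0.le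
      _ = 1 := by field_simp
  calc T / (4 * π) * |∫ t, (KK (eta T) t * SS γ w φ L t ^ 2 - KK (eta T) t * XX φ L t ^ 2)|
      ≤ T / (4 * π) * (e * (∫ t, KK (eta T) t * SS γ w φ L t ^ 2) + (2 * C1 ^ 2 * e) * (2 * π * eta T)) :=
        mul_le_mul_of_nonneg_left h10 (by positivity)
    _ = e * (T / (4 * π) * ∫ t, KK (eta T) t * SS γ w φ L t ^ 2) + (C1 ^ 2 * e) * (T * eta T) := by
        field_simp
        ring
    _ ≤ e * C + (C1 ^ 2 * e) * 1 := by
        apply add_le_add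
        · exact mul_le_mul_of_nonneg_left hMV he0.le
        · exact mul_le_mul_of_nonneg_left hTη (by positivity)
    _ = (C + C1 ^ 2) * e := by ring

end

end Pool.Agent.H6
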