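import Mathlib
import Pool.Agent.H6.Bridge5
import Pool.Agent.H6.MV

open MeasureTheory Set Filter Topology
open scoped Real Interval ContDiff

namespace Pool.Agent.H6

/-- The normalised error term of the prime number theorem in the interval `(x, x + x/T]`, `x = e^y`. -/
noncomputable def Gpsi (T y : ℝ) : ℝ :=
  Real.exp (-y / 2) * (Chebyshev.psi (Real.exp (y + eta T)) - Chebyshev.psi (Real.exp y)
    - (Real.exp (y + eta T) - Real.exp y))

lemma lam_mul_exp {n : ℕ} (hn : 0 < n) (y : ℝ) :
    lam n * Real.exp ((Real.log n - y) / 2) = ArithmeticFunction.vonMangoldt n * Real.exp (-y / 2) := by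
  have hn' : (0 : ℝ) < n := by exact_mod_cast hn
  unfold lam
  have h1 : (n : ℝ) ^ (-(1 / 2) : ℝ) = Real.exp (-(Real.log n) / 2) := by
    rw [Real.rpow_def_of_pos hn']
    congr 1
    ring
  rw [h1, mul_assoc, ← Real.exp_add]
  congr 2
  ring

lemma Gm_eq {η R y : ℝ} (hη : 0 < η) (hy : 0 < y) (hR : y + η ≤ R) :
    Gm η (mu R) y = Real.exp (-y / 2) * (Chebyshev.psi (Real.exp (y + η)) - Chebyshev.psi (Real.exp y)
      - (Real.exp (y + η) - Real.exp y)) := by
  set g : ℝ → ℝ := (Ioc y (y + η)).indicator (fun v => Real.exp ((v - y) / 2)) with hg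
  have hgm : Measurable g := by
    have h1 : Measurable fun v : ℝ => Real.exp ((v - y) / 2) := by fun_prop
    exact h1.indicator measurableSet_Ioc
  have hgb : ∀ v, |g v| ≤ Real.exp (η / 2) := by
    intro v
    simp only [hg]
    by_cases hv : v ∈ Ioc y (y + η)
    · rw [indicator_of_mem hv, abs_of_pos (Real.exp_pos _)]
      exact Real.exp_le_exp.mpr (by linarith [hv.2])
    · rw [indicator_of_notMem hv, abs_zero]
      positivity
  have h1 : Gm η (mu R) y = ∫ v, g v * sg v ∂(mu R) := by
    unfold Gm
    rw [← integral_indicator measurableSet_Ioc]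
    congr 1
    ext v
    simp only [hg]
    by_cases hv : v ∈ Ioc y (y + η)
    · rw [indicator_of_mem hv, indicator_of_mem hv]
    · rw [indicator_of_notMem hv, indicator_of_notMem hv, zero_mul]
  rw [h1, integral_mu_sg R hgm hgb]
  have hfl : ⌊Real.exp y⌋₊ ≤ ⌊Real.exp (y + η)⌋₊ := Nat.floor_le_floor (Real.exp_le_exp.mpr (by linarith))
  have h2 : ∑ n ∈ Finset.Icc 2 ⌊Real.exp R⌋₊, lam n * g (Real.log n)
      = Real.exp (-y / 2) * (Chebyshev.psi (Real.exp (y + η)) - Chebyshev.psi (Real.exp y)) := by
    have h3 : Chebyshev.psi (Real.exp (y + η)) - Chebyshev.psi (Real.exp y)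
        = ∑ n ∈ Finset.Ioc ⌊Real.exp y⌋₊ ⌊Real.exp (y + η)⌋₊, ArithmeticFunction.vonMangoldt n := by
      unfold Chebyshev.psi
      rw [← Finset.sum_Ioc_consecutive _ (Nat.zero_le _) hfl]
      ring
    rw [h3, Finset.mul_sum]
    symm
    apply Finset.sum_subset_zero_on_sdiff
    · intro n hn
      rw [Finset.mem_Ioc] at hn
      rw [Finset.mem_Icc]
      constructor
      · have h4 : 1 ≤ ⌊Real.exp y⌋₊ := by
          rw [Nat.one_le_floor_iff]
          exact (Real.one_le_exp hy.le)
        omega
      · exact hn.2.trans (Nat.floor_le_floor (Real.exp_le_exp.mpr hR))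
    · intro n hn
      rw [Finset.mem_sdiff, Finset.mem_Icc, Finset.mem_Ioc] at hn
      have hn0 : (0 : ℝ) < n := by
        have : 2 ≤ n := hn.1.1
        exact_mod_cast (by omega : 0 < n)
      simp only [hg]
      rw [indicator_of_notMem, mul_zero]
      intro h5
      apply hn.2
      constructor
      · rw [Nat.floor_lt (Real.exp_pos _).le]
        exact (Real.lt_log_iff_exp_lt hn0).mp h5.1
      · rw [Nat.le_floor_iff (Real.exp_pos _).le]
        exact (Real.log_le_iff_le_exp hn0).mp h5.2
    · intro n hn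
      rw [Finset.mem_Ioc] at hn
      have hn0 : 0 < n := by omega
      have hn0' : (0 : ℝ) < n := by exact_mod_cast hn0
      simp only [hg]
      rw [indicator_of_mem, lam_mul_exp hn0]
      · ring
      · constructor
        · rw [Real.lt_log_iff_exp_lt hn0']
          exact (Nat.floor_lt (Real.exp_pos _).le).mp hn.1
        · rw [Real.log_le_iff_le_exp hn0']
          exact (Nat.le_floor_iff (Real.exp_pos _).le).mp hn.2
  have h3 : ∫ v in Ioc 0 R, Real.exp (v / 2) * g v = Real.exp (-y / 2) * (Real.exp (y + η) - Real.exp y) := by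
    have e1 : ∀ v, Real.exp (v / 2) * g v = (Ioc y (y + η)).indicator (fun v => Real.exp (-y / 2) * Real.exp v) v := by
      intro v
      simp only [hg]
      by_cases hv : v ∈ Ioc y (y + η)
      · rw [indicator_of_mem hv, indicator_of_mem hv, ← Real.exp_add, ← Real.exp_add]
        congr 1
        ring
      · rw [indicator_of_notMem hv, indicator_of_notMem hv, mul_zero]
    simp_rw [e1]
    rw [setIntegral_indicator measurableSet_Ioc]
    have e2 : Ioc 0 R ∩ Ioc y (y + η) = Ioc y (y + η) := by
      apply inter_eq_right.mpr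
      exact Ioc_subset_Ioc hy.le hR
    rw [e2, ← intervalIntegral.integral_of_le (by linarith), intervalIntegral.integral_const_mul, integral_exp]
  rw [h2, h3]
  ring

end Pool.Agent.H6
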