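import Mathlib
import Pool.Agent.H6.Bridge4
import Pool.Agent.H6.Bridge6
import Pool.Agent.H6.Bridge7

open MeasureTheory Set Filter Topology
open scoped Real Interval ContDiff

namespace Pool.Agent.H6

/-- The smoothed variance functional. -/
noncomputable def UT (h : ℝ → ℝ) (T : ℝ) : ℝ :=
  T / (Real.log T) ^ 2 * ∫ y in Ioi 0, h (y / Real.log T) * Gpsi T y ^ 2

/-- Perturbation of `L²` norms. -/
lemma L2_perturb {G b : ℝ → ℝ} (hGm : Measurable G) (hb : Integrable (fun y => b y ^ 2))
    (hE : Integrable (fun y => (G y - b y) ^ 2)) {κ : ℝ} (hκ : 0 < κ) :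
    Integrable (fun y => G y ^ 2) ∧ |(∫ y, G y ^ 2) - ∫ y, b y ^ 2| ≤ κ * (∫ y, b y ^ 2) + (1 / κ + 1) * ∫ y, (G y - b y) ^ 2 := by
  have hpt : ∀ y, |G y ^ 2 - b y ^ 2| ≤ κ * b y ^ 2 + (1 / κ + 1) * (G y - b y) ^ 2 := by
    intro y
    set e := G y - b y with he
    have hG : G y = b y + e := by rw [he]; ring
    rw [hG, show (b y + e) ^ 2 - b y ^ 2 = 2 * b y * e + e ^ 2 by ring]
    have h4 : 2 * |b y| * |e| ≤ κ * b y ^ 2 + 1 / κ * e ^ 2 := by
      have h5 : 0 ≤ (κ * |b y| - |e|) ^ 2 / κ := by positivity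
      have h6 : (κ * |b y| - |e|) ^ 2 / κ = κ * |b y| ^ 2 - 2 * |b y| * |e| + 1 / κ * |e| ^ 2 := by
        field_simp
        ring
      rw [h6, sq_abs, sq_abs] at h5
      linarith
    calc |2 * b y * e + e ^ 2| ≤ |2 * b y * e| + |e ^ 2| := abs_add_le _ _
      _ = 2 * |b y| * |e| + e ^ 2 := by rw [abs_mul, abs_mul, abs_two, abs_of_nonneg (sq_nonneg e)]
      _ ≤ _ := by linarith
  have hi : Integrable (fun y => G y ^ 2) := by
    apply Integrable.mono' (((hb.const_mul κ).add (hE.const_mul (1 / κ + 1))).add hb) (hGm.pow_const 2).aestronglyMeasurable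
    apply ae_of_all
    intro y
    have h1 := hpt y
    have h2 := (abs_le.mp h1).2
    rw [Real.norm_eq_abs, abs_of_nonneg (sq_nonneg _)]
    simp only [Pi.add_apply]
    linarith
  refine ⟨hi, ?_⟩
  rw [← integral_sub hi hb, ← integral_const_mul, ← integral_const_mul, ← integral_add (hb.const_mul _) (hE.const_mul _)]
  refine abs_integral_le_integral_abs.trans ?_
  exact integral_mono (hi.sub hb).abs ((hb.const_mul _).add (hE.const_mul _)) hpt

lemma Gm_eq_zero {η R y : ℝ} (hy : y + η ≤ 0) : Gm η (mu R) y = 0 := by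
  unfold Gm
  have h : (mu R) (Ioc y (y + η)) = 0 := by
    have h1 := ae_mu R
    rw [ae_iff] at h1
    apply measure_mono_null _ h1
    intro v hv
    simp only [mem_setOf_eq]
    intro h2
    linarith [hv.2, h2.1]
  rw [Measure.restrict_eq_zero.mpr h, integral_zero_measure]

section
variable {F : ℝ → Finset PC.Z} {CR : ℝ} {γ w : PC.Z → ℝ} [Countable PC.Z]

/-- **Bridge theorem**: variance of primes in short intervals versus mean squares over zeros. -/
theorem bridge (I : Inputs γ w F CR) {a : ℝ} (ha : 1 / 2 < a) (hP : PoissonInput γ w a (PC.arch a))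
    {χ : ℝ → ℝ} (hχ : Nice χ) {c : ℝ} (hc : 0 < c) (hz : ∀ ξ, |ξ| ≤ c → χ ξ = 0) :
    Tendsto (fun T => UT (fun ξ => χ ξ ^ 2) T - MV γ w (cosT χ) T) atTop (𝓝 0) := by
  obtain ⟨s0, hs00, hs0⟩ := hχ.supp
  set s := max s0 c with hsdef
  have hcs : c ≤ s := le_max_right _ _
  have hs : 0 < s := by linarith
  have hsupp : ∀ ξ, s ≤ |ξ| → χ ξ = 0 := fun ξ h => hs0 ξ ((le_max_left _ _).trans h)
  obtain ⟨θ, C1, nθ, zθ, sθ, hC10, hE⟩ := E_pointwise hχ hc hcs hz hsupp
  have hφ := (hχ.reg hsupp).test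
  have hφθ := (nθ.reg sθ).test
  have hz' : ∀ ξ, |ξ| ≤ c → cosT (cosT χ) ξ = 0 := fun ξ h => by rw [hχ.inv]; exact hz ξ h
  have hzθ : ∀ ξ, |ξ| ≤ c / 4 → cosT (cosT θ) ξ = 0 := fun ξ h => by rw [nθ.inv]; exact zθ ξ h
  obtain ⟨C3, hC30, hC3⟩ := crude_BI I ha hP hφθ (by positivity) (by positivity : 0 < c / 4) hzθ
  obtain ⟨C4, hC40, hC4⟩ := crude_BI I ha hP hφ hs hc hz'
  obtain ⟨C, hC0, hC⟩ := MV_bound I ha hP hφ hs
  have hMX := MV_sub_X I ha hP hφ hs hc hz'
  obtain ⟨Bθ, hBθ0, hBθ⟩ := nθ.bounded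
  have hlog := Real.tendsto_log_atTop
  have hπ := Real.pi_gt_three
  -- it suffices to compare with the X side
  suffices h : Tendsto (fun T => UT (fun ξ => χ ξ ^ 2) T - T / (4 * π) * ∫ t, KK (eta T) t * XX (cosT χ) (Real.log T) t ^ 2)
      atTop (𝓝 0) by
    have h1 := h.sub hMX
    rw [sub_zero] at h1
    apply h1.congr
    intro T
    ring
  have hlogT : Tendsto (fun T : ℝ => Real.log T / T) atTop (𝓝 0) := by
    have := Real.isLittleO_log_id_atTop.tendsto_div_nhds_zero
    exact this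
  have hlim : Tendsto (fun T : ℝ => (C + 1) * (1 / Real.log T) + (C1 ^ 2 * C3) * ((Real.log T + 1) / T)) atTop (𝓝 0) := by
    have h1 : Tendsto (fun T : ℝ => 1 / Real.log T) atTop (𝓝 0) := hlog.const_div_atTop 1
    have h2 : Tendsto (fun T : ℝ => (Real.log T + 1) / T) atTop (𝓝 0) := by
      have h3 : Tendsto (fun T : ℝ => 1 / T) atTop (𝓝 0) := tendsto_id.const_div_atTop 1
      have h4 := hlogT.add h3
      rw [add_zero] at h4
      apply h4.congr
      intro T
      ring
    have h5 := (h1.const_mul (C + 1)).add (h2.const_mul (C1 ^ 2 * C3))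
    simpa using h5
  apply squeeze_zero_norm' _ hlim
  filter_upwards [eventually_ge_atTop 1, hlog.eventually_ge_atTop (2 * π), hlog.eventually_ge_atTop (2 / c), hC,
    hMX.eventually (gt_mem_nhds (by norm_num : (0 : ℝ) < 1)), hMX.eventually (lt_mem_nhds (by norm_num : (-1 : ℝ) < 0))]
    with T hT1 hL hLc hMV hM1 hM2
  have hT0 : 0 < T := by linarith
  have hη := eta_pos hT0
  have hηT := eta_le hT0
  have hη1 : eta T ≤ 1 := hηT.trans (by rw [div_le_iff₀ hT0]; linarith)
  set L := Real.log T with hLdef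
  set η := eta T with hηdef
  have hL0 : 0 < L := by linarith
  have hcL : 2 ≤ c * L := by
    rw [div_le_iff₀ hc] at hLc
    linarith
  set R := 3 * s * L + 1 with hR
  have hsL : s * L ≤ R := by
    rw [hR]
    have : 0 < s * L := by positivity
    nlinarith
  have hsL3 : 3 * s * L ≤ R := by rw [hR]; linarith
  set μ := mu R with hμ
  set b : ℝ → ℝ := fun y => BI η μ (TestFn.gw (cosT χ) L) y with hb
  set G : ℝ → ℝ := fun y => χ (y / L) * Gm η μ y with hG
  have hbm : Measurable b := by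
    simp only [hb]
    unfold BI
    apply measurable_setIntegral_Ioc (by fun_prop) (by fun_prop) (k := fun _ v => TestFn.gw (cosT χ) L v)
    exact (hφ.measurable_gw L).comp measurable_snd
  have hGm : Measurable G := by
    simp only [hG]
    apply Measurable.mul
    · exact hχ.continuous.measurable.comp (measurable_id.div_const L)
    · unfold Gm
      apply measurable_setIntegral_Ioc (by fun_prop) (by fun_prop) (k := fun y v => Real.exp ((v - y) / 2) * sg v)
      have h1 : Measurable fun p : ℝ × ℝ => Real.exp ((p.2 - p.1) / 2) := by fun_prop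
      exact h1.mul (measurable_sg.comp measurable_snd)
  have hbi : Integrable (fun y => b y ^ 2) := (hC4 L hL (by linarith) R hsL η hη.le hη1).1
  obtain ⟨hEi, hEb⟩ := double_BI (μ := μ) (hφθ.measurable_gw L)
    (TestFn.abs_gw_le (fun ξ => by rw [nθ.inv]; exact hBθ ξ) L) hη (by positivity : 0 ≤ C3 * L ^ 2)
    (fun r hr0 hr1 => hC3 L hL (by linarith) R hsL3 r hr0 (hr1.trans hη1)) hC10 (hGm.sub hbm)
    (fun y => hE L η (by linarith) hη hη1 (by linarith) μ y)
  simp only [Pi.sub_apply] at hEi hEb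
  obtain ⟨hGi, hGb⟩ := L2_perturb hGm hbi hEi (κ := 1 / L) (by positivity)
  -- identification of UT
  have hUT : UT (fun ξ => χ ξ ^ 2) T = T / L ^ 2 * ∫ y, G y ^ 2 := by
    unfold UT
    rw [← hLdef]
    congr 1
    rw [← integral_indicator measurableSet_Ioi]
    congr 1
    ext y
    by_cases hy : y ∈ Ioi (0 : ℝ)
    · rw [indicator_of_mem hy]
      have hy0 : 0 < y := hy
      simp only [hG]
      rw [mul_pow]
      rcases le_or_gt (s * L) y with h | h
      · rw [hsupp (y / L)]
        · ring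
        · rw [abs_of_pos (by positivity), le_div_iff₀ hL0]
          exact h
      · have : Gpsi T y = Gm η μ y := by
          rw [hμ, Gm_eq hη hy0]
          · rfl
          · rw [hR]
            have : 0 < s * L := by positivity
            nlinarith
        rw [this]
    · rw [indicator_of_notMem hy]
      have hy0 : y ≤ 0 := not_lt.mp hy
      simp only [hG]
      rcases le_or_gt |y / L| c with h | h
      · rw [hz _ h]
        ring
      · have : Gm η μ y = 0 := by
          apply Gm_eq_zero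
          rw [abs_div, abs_of_pos hL0, lt_div_iff₀ hL0, abs_of_nonpos hy0] at h
          linarith
        rw [this]
        ring
  have hX : T / (4 * π) * ∫ t, KK η t * XX (cosT χ) L t ^ 2 = T / L ^ 2 * ∫ y, b y ^ 2 := by
    have h1 := hφ.integral_KK_X hs hc hz' hL0 hsL hη (by linarith : η ≤ 2 * (c * L))
    have h2 : ∫ y, b y ^ 2 = (L ^ 2 / (4 * π)) * ∫ t, KK η t * XX (cosT χ) L t ^ 2 := by
      have h4 : π * ∫ y, b y ^ 2 = π * ((L ^ 2 / (4 * π)) * ∫ t, KK η t * XX (cosT χ) L t ^ 2) := by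
        simp only [hb, hμ]
        rw [← h1]
        unfold XX
        field_simp
      exact mul_left_cancel₀ Real.pi_ne_zero h4
    rw [h2]
    field_simp
  rw [Real.norm_eq_abs, hUT, hX, ← mul_sub, abs_mul, abs_of_pos (by positivity : 0 < T / L ^ 2)]
  have hbM : T / L ^ 2 * ∫ y, b y ^ 2 ≤ C + 1 := by
    rw [← hX]
    linarith
  have hTη : T * η ^ 2 ≤ 1 / T := by
    have h1 : η ^ 2 ≤ (1 / T) ^ 2 := pow_le_pow_left₀ hη.le hηT 2
    calc T * η ^ 2 ≤ T * (1 / T) ^ 2 := mul_le_mul_of_nonneg_left h1 hT0.le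
      _ = 1 / T := by field_simp
  calc T / L ^ 2 * |(∫ y, G y ^ 2) - ∫ y, b y ^ 2|
      ≤ T / L ^ 2 * (1 / L * (∫ y, b y ^ 2) + (1 / (1 / L) + 1) * (C1 ^ 2 * η ^ 2 * (C3 * L ^ 2))) := by
        apply mul_le_mul_of_nonneg_left _ (by positivity)
        refine hGb.trans ?_
        apply add_le_add le_rfl
        exact mul_le_mul_of_nonneg_left hEb (by positivity)
    _ = (1 / L) * (T / L ^ 2 * ∫ y, b y ^ 2) + (C1 ^ 2 * C3) * ((L + 1) * (T * η ^ 2)) := by
        field_simp
    _ ≤ (1 / L) * (C + 1) + (C1 ^ 2 * C3) * ((L + 1) * (1 / T)) := by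
        apply add_le_add
        · exact mul_le_mul_of_nonneg_left hbM (by positivity)
        · apply mul_le_mul_of_nonneg_left _ (by positivity)
          exact mul_le_mul_of_nonneg_left hTη (by positivity)
    _ = _ := by ring

end

end Pool.Agent.H6
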