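import Mathlib
import Pool.Agent.H6.Bridge8
import Pool.Agent.H6.Split

open MeasureTheory Set Filter Topology
open scoped Real Interval ContDiff

namespace Pool.Agent.H6

/-- A smooth partition `p² + q² = 1`. -/
lemma exists_pq {a b : ℝ} (ha : 0 < a) (hab : a < b) :
    ∃ p q : ℝ → ℝ, ContDiff ℝ ∞ p ∧ ContDiff ℝ ∞ q ∧ (∀ x, p (-x) = p x) ∧ (∀ x, q (-x) = q x) ∧
      (∀ x, p x ^ 2 + q x ^ 2 = 1) ∧ (∀ x, |x| ≤ a → p x = 1) ∧ (∀ x, |x| ≤ a → q x = 0) ∧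
      (∀ x, b ≤ |x| → p x = 0) ∧ (∀ x, b ≤ |x| → q x = 1) := by
  obtain ⟨g, h1, h2, h3, h4, h5, h6⟩ := exists_plateau ha hab
  refine ⟨fun x => Real.cos (π / 2 * (1 - g x)), fun x => Real.sin (π / 2 * (1 - g x)), ?_, ?_, ?_, ?_, ?_, ?_, ?_, ?_, ?_⟩
  · exact Real.contDiff_cos.comp (contDiff_const.mul (contDiff_const.sub h1))
  · exact Real.contDiff_sin.comp (contDiff_const.mul (contDiff_const.sub h1))
  · intro x; simp only [h2]
  · intro x; simp only [h2]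
  · intro x
    simp only
    exact Real.cos_sq_add_sin_sq _
  · intro x hx
    simp only [h4 x hx, sub_self, mul_zero, Real.cos_zero]
  · intro x hx
    simp only [h4 x hx, sub_self, mul_zero, Real.sin_zero]
  · intro x hx
    simp only [h3 x hx, sub_zero, mul_one, Real.cos_pi_div_two]
  · intro x hx
    simp only [h3 x hx, sub_zero, mul_one, Real.sin_pi_div_two]

section
variable {F : ℝ → Finset PC.Z} {CR : ℝ} {γ w : PC.Z → ℝ} [Countable PC.Z]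

lemma MV_nonneg (φ : ℝ → ℝ) {T : ℝ} (hT : 0 < T) : 0 ≤ MV γ w φ T := by
  unfold MV
  apply mul_nonneg (by positivity)
  exact integral_nonneg fun t => mul_nonneg (KK_nonneg _ _) (sq_nonneg _)

/-- `MV` in terms of the functional `KQ`. -/
theorem MV_sub_KQ (I : Inputs γ w F CR) {a : ℝ} (ha : 1 / 2 < a) (hP : PoissonInput γ w a (PC.arch a))
    {s : ℝ} {φ : ℝ → ℝ} (hφ : Reg s φ) (hs : 0 < s) :
    Tendsto (fun T => MV γ w φ T - (1 / (2 * π)) * KQ γ w φ ((eta T)⁻¹)) atTop (𝓝 0) := by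
  obtain ⟨C, hC0, hC⟩ := MV_bound I ha hP hφ.test hs
  have hA := tendsto_inv_eta
  have hratio : Tendsto (fun T => Real.log T / Real.log ((eta T)⁻¹)) atTop (𝓝 1) := by
    apply tendsto_log_div_log hA
    apply tendsto_mul_eta.congr
    intro T
    rw [div_inv_eq_mul]
  have h1 := I.mix_scale hφ hs hA hratio
  have h2 := h1.const_mul (1 / (2 * π))
  rw [mul_zero] at h2
  -- the first error
  have h3 : Tendsto (fun T => MV γ w φ T * (1 - (T * eta T)⁻¹)) atTop (𝓝 0) := by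
    have h4 : Tendsto (fun T => C * |1 - (T * eta T)⁻¹|) atTop (𝓝 0) := by
      have h5 := ((tendsto_mul_eta.inv₀ one_ne_zero).const_sub 1).abs.const_mul C
      simpa using h5
    apply squeeze_zero_norm' _ h4
    filter_upwards [eventually_gt_atTop 0, hC] with T hT hT2
    rw [Real.norm_eq_abs, abs_mul, abs_of_nonneg (MV_nonneg φ hT)]
    exact mul_le_mul_of_nonneg_right hT2 (abs_nonneg _)
  have h6 := h3.add h2
  rw [add_zero] at h6
  apply h6.congr'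
  filter_upwards [eventually_gt_atTop 0, Real.tendsto_log_atTop.eventually_ge_atTop 1] with T hT hL
  have hη := eta_pos hT
  rw [MV_eq ha hP hφ.test hs hT hL]
  unfold KQ
  field_simp
  ring

/-- Splitting of `MV`. -/
theorem MV_split (I : Inputs γ w F CR) {a : ℝ} (ha : 1 / 2 < a) (hP : PoissonInput γ w a (PC.arch a))
    {χ χ₁ χ₂ : ℝ → ℝ} (h : Nice χ) (h₁ : Nice χ₁) (h₂ : Nice χ₂)
    (heq : ∀ ξ, χ ξ ^ 2 = χ₁ ξ ^ 2 + χ₂ ξ ^ 2) :
    Tendsto (fun T => MV γ w (cosT χ) T - (MV γ w (cosT χ₁) T + MV γ w (cosT χ₂) T)) atTop (𝓝 0) := by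
  obtain ⟨s, hs0, hs⟩ := h.supp
  obtain ⟨s₁, hs₁0, hs₁⟩ := h₁.supp
  obtain ⟨s₂, hs₂0, hs₂⟩ := h₂.supp
  have a0 := MV_sub_KQ I ha hP (h.reg hs) hs0
  have a1 := MV_sub_KQ I ha hP (h₁.reg hs₁) hs₁0
  have a2 := MV_sub_KQ I ha hP (h₂.reg hs₂) hs₂0
  have b := ((I.KQ_split h h₁ h₂ heq).comp tendsto_inv_eta).const_mul (1 / (2 * π))
  have c := (a0.sub (a1.add a2)).add b
  simp only [mul_zero, add_zero, sub_zero] at c
  apply c.congr
  intro T
  simp only [Function.comp]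
  ring

/-- Montgomery's theorem for `MV`. -/
theorem MV_inside (I : Inputs γ w F CR) {a : ℝ} (ha : 1 / 2 < a) (hP : PoissonInput γ w a (PC.arch a))
    {χ : ℝ → ℝ} (h : Nice χ) {s : ℝ} (hs0 : 0 < s) (hs1 : s < 1) (hs : ∀ ξ, s ≤ |ξ| → χ ξ = 0) :
    Tendsto (fun T => MV γ w (cosT χ) T) atTop (𝓝 ((χ 0 ^ 2 + ∫ ξ, |ξ| * χ ξ ^ 2) / 2)) := by
  have hreg := h.reg hs
  have h1 := I.meanSq hreg.test hs0 hs1
  simp_rw [h.inv] at h1
  exact MV_of_mixK I ha hP hreg hs0 (I.mixK_of_sharp hreg hs0 h1)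

/-- The decomposition of the mean square. -/
theorem MV_decomp (I : Inputs γ w F CR) {a : ℝ} (ha : 1 / 2 < a) (hP : PoissonInput γ w a (PC.arch a))
    {χ : ℝ → ℝ} (h : Nice χ) {p q : ℝ → ℝ} (hp : ContDiff ℝ ∞ p) (hq : ContDiff ℝ ∞ q)
    (hpe : ∀ x, p (-x) = p x) (hqe : ∀ x, q (-x) = q x) (hpq : ∀ x, p x ^ 2 + q x ^ 2 = 1)
    {c b : ℝ} (hc : 0 < c) (hcb : c < b) (hb : b < 1) (hp1 : ∀ x, |x| ≤ c → p x = 1) (hq0 : ∀ x, |x| ≤ c → q x = 0)
    (hp0 : ∀ x, b ≤ |x| → p x = 0) :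
    Tendsto (fun T => MV γ w (cosT χ) T - UT (fun ξ => (χ ξ * q ξ) ^ 2) T) atTop
      (𝓝 ((χ 0 ^ 2 + ∫ ξ, |ξ| * (χ ξ * p ξ) ^ 2) / 2)) := by
  have n1 := h.mul hp hpe
  have n2 := h.mul hq hqe
  have b0 : 0 < b := by linarith
  have h1 := MV_split I ha hP h n1 n2 (fun ξ => by
    rw [mul_pow, mul_pow, ← mul_add, hpq, mul_one])
  have h2 := MV_inside I ha hP n1 b0 hb (fun ξ hξ => by rw [hp0 ξ hξ, mul_zero])
  have h3 := bridge I ha hP n2 hc (fun ξ hξ => by rw [hq0 ξ hξ, mul_zero])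
  have h4 := (h1.add h2).sub h3
  rw [hp1 0 (by simpa using hc.le), mul_one, zero_add, sub_zero] at h4
  apply h4.congr
  intro T
  ring

end

end Pool.Agent.H6
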