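import Mathlib
import Pool.Agent.H6.Split2

open MeasureTheory Set Filter Topology
open scoped Real Interval ContDiff

namespace Pool.Agent.H6

lemma Nice.testFn_sq {χ : ℝ → ℝ} (h : Nice χ) {s : ℝ} (hs0 : 0 < s) (hs : ∀ x, s ≤ |x| → χ x = 0) :
    TestFn (2 * s) (fun u => cosT χ u ^ 2) := by
  have hφ := (h.reg hs).test
  obtain ⟨C, hC0, hC⟩ := hφ.decay
  refine ⟨hφ.cont.pow 2, fun u => by rw [hφ.even], ⟨C ^ 2, by positivity, fun u => ?_⟩, fun ξ hξ => ?_⟩
  · rw [abs_of_nonneg (sq_nonneg _), ← sq_abs]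
    calc |cosT χ u| ^ 2 ≤ (C / (1 + u ^ 2) ^ 2) ^ 2 := pow_le_pow_left₀ (abs_nonneg _) (hC u) 2
      _ = C ^ 2 / ((1 + u ^ 2) ^ 2 * (1 + u ^ 2) ^ 2) := by rw [div_pow]; ring
      _ ≤ C ^ 2 / (1 + u ^ 2) ^ 2 := by
          apply div_le_div_of_nonneg_left (by positivity) (by positivity)
          have : 1 ≤ (1 + u ^ 2) ^ 2 := one_le_pow₀ (by nlinarith [sq_nonneg u])
          nlinarith [sq_nonneg (1 + u ^ 2)]
  · exact cosT_sq_eq_zero h.continuous h.integrable h.even hφ.integrable hs hξ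

lemma Nice.plancherel {χ : ℝ → ℝ} (h : Nice χ) : ∫ u, cosT χ u ^ 2 = ∫ ξ, χ ξ ^ 2 := by
  obtain ⟨s, hs0, hs⟩ := h.supp
  have hφ := (h.reg hs).test
  have h1 := integral_mul_cosT hφ.integrable h.integrable hφ.cont h.continuous
  simp_rw [h.inv] at h1
  simp_rw [pow_two]
  exact h1

section
variable {ι : Type*} [Countable ι] {γ w : ι → ℝ} {F : ℝ → Finset ι} {CR : ℝ}

omit [Countable ι] in
lemma SS_sq_ge (O : Ordinates ι γ w F CR) (hw1 : ∀ i, 1 ≤ w i) {φ : ℝ → ℝ} (hφ0 : ∀ u, 0 ≤ φ u) {C : ℝ} (hC : 0 ≤ C)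
    (hφ : ∀ u, |φ u| ≤ C / (1 + u ^ 2) ^ 2) {L : ℝ} (hL : 2 * π ≤ L) (t : ℝ) :
    SS γ w (fun u => φ u ^ 2) L t ≤ SS γ w φ L t ^ 2 := by
  have hsum := (O.summable_phi hC hφ hL t).of_abs
  have h0 : ∀ i, 0 ≤ w i * φ (L * (t - γ i) / (2 * π)) := fun i => mul_nonneg (O.w_nonneg i) (hφ0 _)
  have hle : ∀ i, w i * φ (L * (t - γ i) / (2 * π)) ≤ SS γ w φ L t := fun i => hsum.le_tsum i (fun j _ => h0 j)
  have hpt : ∀ i, w i * φ (L * (t - γ i) / (2 * π)) ^ 2 ≤ (w i * φ (L * (t - γ i) / (2 * π))) * SS γ w φ L t := by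
    intro i
    have h1 : φ (L * (t - γ i) / (2 * π)) ≤ w i * φ (L * (t - γ i) / (2 * π)) :=
      le_mul_of_one_le_left (hφ0 _) (hw1 i)
    calc w i * φ (L * (t - γ i) / (2 * π)) ^ 2
        = (w i * φ (L * (t - γ i) / (2 * π))) * φ (L * (t - γ i) / (2 * π)) := by ring
      _ ≤ (w i * φ (L * (t - γ i) / (2 * π))) * SS γ w φ L t :=
          mul_le_mul_of_nonneg_left (h1.trans (hle i)) (h0 i)
  have hs2 : Summable fun i => (w i * φ (L * (t - γ i) / (2 * π))) * SS γ w φ L t := hsum.mul_right _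
  have hs1 : Summable fun i => w i * φ (L * (t - γ i) / (2 * π)) ^ 2 :=
    Summable.of_nonneg_of_le (fun i => mul_nonneg (O.w_nonneg i) (sq_nonneg _)) hpt hs2
  calc SS γ w (fun u => φ u ^ 2) L t = ∑' i, w i * φ (L * (t - γ i) / (2 * π)) ^ 2 := rfl
    _ ≤ ∑' i, (w i * φ (L * (t - γ i) / (2 * π))) * SS γ w φ L t := hs1.tsum_le_tsum hpt hs2
    _ = SS γ w φ L t ^ 2 := by
        rw [tsum_mul_right, pow_two]
        rfl

/-- First moment for arbitrary test functions. -/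
theorem Inputs.mean_dist (I : Inputs γ w F CR) {s : ℝ} {ψ : ℝ → ℝ} (hψ : TestFn s ψ) (hs : 0 < s) {y : ℝ} (hy : 0 < y) :
    Tendsto (fun T => ∫ x in (0 : ℝ)..y, SS γ w ψ (Real.log T) (T * x)) atTop (𝓝 ((∫ u, ψ u) * y)) := by
  obtain ⟨C, hC0, hC⟩ := hψ.decay
  have hlog := Real.tendsto_log_atTop
  have hπ := Real.pi_gt_three
  have hA : Tendsto (fun T : ℝ => T * y) atTop atTop := tendsto_id.atTop_mul_const hy
  -- the counting function
  have h1 := I.count.comp hA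
  have h2 : Tendsto (fun T : ℝ => (Real.log (T * y) / Real.log T)) atTop (𝓝 1) := by
    have h3 := (tendsto_log_ratio hy).inv₀ one_ne_zero
    rw [inv_one] at h3
    apply h3.congr
    intro T
    rw [inv_div, mul_comm]
  have h4 : Tendsto (fun T : ℝ => (1 / T) * ((2 * π / Real.log T) * (∫ u, ψ u) * ∑ i ∈ F (T * y), w i)) atTop
      (𝓝 ((∫ u, ψ u) * y)) := by
    have h5 := ((h1.mul h2).mul_const ((∫ u, ψ u) * y))
    rw [one_mul, one_mul] at h5
    apply h5.congr'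
    filter_upwards [eventually_gt_atTop 0, hlog.eventually_gt_atTop 0, (hlog.comp hA).eventually_gt_atTop 0] with T hT hL hL2
    simp only [Function.comp] at hL2 ⊢
    unfold PC.norm
    field_simp
  have h6 : Tendsto (fun T : ℝ => (1 / T) * ((2 * π * C * CR) * (1 + y * T) ^ (1 / 4 : ℝ))) atTop (𝓝 0) := by
    have h1 := Inputs.tendsto_rpow_div (p := 1 / 4) (by norm_num) (2 * π * C * CR)
    have h2 : Tendsto (fun T : ℝ => y * T) atTop atTop := tendsto_id.const_mul_atTop hy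
    have h3 := (h1.comp h2).const_mul y
    rw [mul_zero] at h3
    apply h3.congr'
    filter_upwards [eventually_gt_atTop 0] with T hT
    simp only [Function.comp]
    field_simp
  have h7 : Tendsto (fun T => (1 / T) * ((2 * π / Real.log T) * (∫ u, ψ u) * ∑ i ∈ F (T * y), w i)
      - ∫ x in (0 : ℝ)..y, SS γ w ψ (Real.log T) (T * x)) atTop (𝓝 0) := by
    apply squeeze_zero_norm' _ h6
    filter_upwards [eventually_gt_atTop 0, hlog.eventually_ge_atTop (2 * π)] with T hT hL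
    have hT0 : (0 : ℝ) < T := hT
    have hL0 : 0 < Real.log T := by linarith
    have h8 := I.ord.edge_first hC0 hC hL (T := T * y) (by positivity) (I.continuous_SS hψ hs (by linarith))
      (integrable_Sin hψ.integrable hL0 (F (T * y)))
    rw [integral_Sin hψ.integrable hL0] at h8
    rw [intervalIntegral_comp_mul (f := fun t => SS γ w ψ (Real.log T) t) hT0, Real.norm_eq_abs, ← mul_sub, abs_mul,
      abs_of_pos (by positivity : 0 < 1 / T)]
    apply mul_le_mul_of_nonneg_left _ (by positivity)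
    rw [mul_comm y T]
    exact h8
  have h9 := h4.sub h7
  rw [sub_zero] at h9
  apply h9.congr
  intro T
  ring

/-- Lower bound for the smoothed mean square. -/
theorem Inputs.KQ_lower (I : Inputs γ w F CR) (hw1 : ∀ i, 1 ≤ w i) {χ : ℝ → ℝ} (h : Nice χ) (hpos : ∀ u, 0 ≤ cosT χ u) :
    ∃ m : ℝ → ℝ, Tendsto m atTop (𝓝 ((∫ ξ, χ ξ ^ 2) * π)) ∧ ∀ᶠ T in atTop, m T ≤ KQ γ w (cosT χ) T := by
  obtain ⟨s, hs0, hs⟩ := h.supp
  have hφ := (h.reg hs).test
  have hψ := h.testFn_sq hs0 hs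
  obtain ⟨C, hC0, hC⟩ := hφ.decay
  have hlog := Real.tendsto_log_atTop
  have hπ := Real.pi_gt_three
  have E := I.equiTail hφ hs0
  obtain ⟨C', hC'0, hC'⟩ := E.tail
  have hKK : ∀ y, |KK 1 y| * y ^ 2 ≤ 4 := KK_bound 1
  have hcψ : ∀ᶠ T in atTop, Continuous fun y => SS γ w (fun u => cosT χ u ^ 2) (Real.log T) (T * y) := by
    filter_upwards [hlog.eventually_ge_atTop 1] with T hT
    exact (I.continuous_SS hψ (by positivity) hT).comp (continuous_const.mul continuous_id)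
  have hnn : ∀ T y, 0 ≤ SS γ w (fun u => cosT χ u ^ 2) (Real.log T) (T * y) := fun T y =>
    tsum_nonneg fun i => mul_nonneg (I.ord.w_nonneg i) (sq_nonneg _)
  have E2 : EquiTail atTop (fun T y => SS γ w (fun u => cosT χ u ^ 2) (Real.log T) (T * y)) := by
    refine ⟨hcψ, hnn, C', hC'0, fun R hR => ?_⟩
    filter_upwards [hC' R hR, hcψ, hlog.eventually_ge_atTop (2 * π)] with T h1 h2 hL
    have hle : ∀ y ∈ Ioi R, SS γ w (fun u => cosT χ u ^ 2) (Real.log T) (T * y) / y ^ 2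
        ≤ SS γ w (cosT χ) (Real.log T) (T * y) ^ 2 / y ^ 2 := fun y _ =>
      div_le_div_of_nonneg_right (SS_sq_ge I.ord hw1 hpos hC0 hC hL _) (sq_nonneg _)
    have hi : IntegrableOn (fun y => SS γ w (fun u => cosT χ u ^ 2) (Real.log T) (T * y) / y ^ 2) (Ioi R) := by
      apply Integrable.mono' h1.1
      · apply ContinuousOn.aestronglyMeasurable _ measurableSet_Ioi
        apply ContinuousOn.div h2.continuousOn (by fun_prop)
        intro y hy
        have hy' : R < y := hy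
        have : 0 < y := by linarith
        positivity
      · filter_upwards [ae_restrict_mem measurableSet_Ioi] with y hy
        rw [Real.norm_eq_abs, abs_of_nonneg (div_nonneg (hnn T y) (sq_nonneg _))]
        exact hle y hy
    exact ⟨hi, (setIntegral_mono_on hi h1.1 measurableSet_Ioi hle).trans h1.2⟩
  have h3 := E2.tendsto (ℓ := ∫ u, cosT χ u ^ 2) (fun y hy => I.mean_dist hψ (by positivity) hy) (continuous_KK 1)
    (by norm_num : (0 : ℝ) ≤ 4) hKK
  rw [integral_Ioi_KK, abs_one, mul_one, h.plancherel] at h3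
  refine ⟨_, h3, ?_⟩
  filter_upwards [E.integrable (continuous_KK 1) hKK, E2.integrable (continuous_KK 1) hKK,
    hlog.eventually_ge_atTop (2 * π)] with T i1 i2 hL
  unfold KQ
  apply setIntegral_mono_on i2 i1 measurableSet_Ioi
  intro y _
  exact mul_le_mul_of_nonneg_left (SS_sq_ge I.ord hw1 hpos hC0 hC hL _) (KK_nonneg _ _)

end

section
variable {F : ℝ → Finset PC.Z} {CR : ℝ} {γ w : PC.Z → ℝ} [Countable PC.Z]

theorem MV_lower (I : Inputs γ w F CR) (hw1 : ∀ i, 1 ≤ w i) {a : ℝ} (ha : 1 / 2 < a)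
    (hP : PoissonInput γ w a (PC.arch a)) {χ : ℝ → ℝ} (h : Nice χ) (hpos : ∀ u, 0 ≤ cosT χ u) :
    ∃ m : ℝ → ℝ, Tendsto m atTop (𝓝 ((∫ ξ, χ ξ ^ 2) / 2)) ∧ ∀ᶠ T in atTop, m T ≤ MV γ w (cosT χ) T := by
  obtain ⟨s, hs0, hs⟩ := h.supp
  obtain ⟨m, hm, hm2⟩ := I.KQ_lower hw1 h hpos
  have h1 := MV_sub_KQ I ha hP (h.reg hs) hs0
  have h2 := (hm.comp tendsto_inv_eta).const_mul (1 / (2 * π))
  have h3 := h1.add h2
  rw [zero_add] at h3
  have e : 1 / (2 * π) * ((∫ ξ, χ ξ ^ 2) * π) = (∫ ξ, χ ξ ^ 2) / 2 := by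
    have := Real.pi_ne_zero
    field_simp
  rw [e] at h3
  refine ⟨_, h3, ?_⟩
  filter_upwards [tendsto_inv_eta.eventually hm2] with T hT
  simp only [Function.comp]
  have : 1 / (2 * π) * m ((eta T)⁻¹) ≤ 1 / (2 * π) * KQ γ w (cosT χ) ((eta T)⁻¹) :=
    mul_le_mul_of_nonneg_left hT (by positivity)
  linarith

end

end Pool.Agent.H6
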