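import Mathlib
import Pool.Agent.H6.Bridge8
import Pool.Agent.H6.Rig

open MeasureTheory Set Filter Topology
open scoped Real Interval ContDiff

namespace Pool.Agent.H6

/-- The density of the variance of primes in the logarithmic scale. -/
noncomputable def mV (T u : ℝ) : ℝ := T / Real.log T * Gpsi T (Real.log T * u) ^ 2

lemma UT_eq (h : ℝ → ℝ) {T : ℝ} (hL : 0 < Real.log T) : UT h T = ∫ u in Ioi 0, h u * mV T u := by
  unfold UT mV
  have h1 := integral_Ioi_comp_mul (f := fun y => h (y / Real.log T) * Gpsi T y ^ 2) (a := 0) hL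
  rw [mul_zero] at h1
  have e : ∀ u : ℝ, h u * (T / Real.log T * Gpsi T (Real.log T * u) ^ 2)
      = (T / Real.log T) * (h (Real.log T * u / Real.log T) * Gpsi T (Real.log T * u) ^ 2) := by
    intro u
    rw [show Real.log T * u / Real.log T = u by field_simp]
    ring
  simp_rw [e]
  rw [integral_const_mul, h1]
  field_simp

lemma measurable_psi : Measurable Chebyshev.psi := Chebyshev.psi_mono.measurable

lemma measurable_Gpsi (T : ℝ) : Measurable (Gpsi T) := by
  unfold Gpsi
  have h1 : Measurable fun y : ℝ => Chebyshev.psi (Real.exp (y + eta T)) := measurable_psi.comp (by fun_prop)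
  have h2 : Measurable fun y : ℝ => Chebyshev.psi (Real.exp y) := measurable_psi.comp (by fun_prop)
  fun_prop

lemma psi_nonneg' (x : ℝ) : 0 ≤ Chebyshev.psi x := Chebyshev.psi_nonneg x

lemma dns_mV : Dns mV := by
  constructor
  · filter_upwards [eventually_gt_atTop 1] with T hT u _
    unfold mV
    have := Real.log_pos hT
    positivity
  · filter_upwards [eventually_gt_atTop 1] with T hT a b ha hab
    have hL := Real.log_pos hT
    have hη := eta_pos (show 0 < T by linarith)
    rw [intervalIntegrable_iff_integrableOn_Ioc_of_le hab]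
    unfold mV
    apply Integrable.const_mul
    set y1 := Real.log T * b + eta T with hy1
    set M := Chebyshev.psi (Real.exp y1) + Real.exp y1 with hM
    refine Measure.integrableOn_of_bounded (M := (2 * M) ^ 2) (by simp) ?_ ?_
    · have hm : Measurable fun u : ℝ => Gpsi T (Real.log T * u) ^ 2 := by
        have h1 : Measurable fun u : ℝ => Real.log T * u := by fun_prop
        exact ((measurable_Gpsi T).comp h1).pow_const 2
      exact hm.aestronglyMeasurable
    · filter_upwards [ae_restrict_mem measurableSet_Ioc] with u hu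
      rw [Real.norm_eq_abs, abs_pow]
      apply pow_le_pow_left₀ (abs_nonneg _)
      unfold Gpsi
      have hu0 : 0 < u := by linarith [hu.1]
      have hLu : 0 < Real.log T * u := by positivity
      have hle : Real.log T * u ≤ Real.log T * b := mul_le_mul_of_nonneg_left hu.2 hL.le
      have a1 : Real.exp (Real.log T * u + eta T) ≤ Real.exp y1 := Real.exp_le_exp.mpr (by rw [hy1]; linarith)
      have a2 : Real.exp (Real.log T * u) ≤ Real.exp y1 := Real.exp_le_exp.mpr (by rw [hy1]; linarith)
      have b1 := Chebyshev.psi_mono a1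
      have b2 := Chebyshev.psi_mono a2
      have c1 := psi_nonneg' (Real.exp (Real.log T * u + eta T))
      have c2 := psi_nonneg' (Real.exp (Real.log T * u))
      have d1 := Real.exp_pos (Real.log T * u + eta T)
      have d2 := Real.exp_pos (Real.log T * u)
      have e1 : Real.exp (-(Real.log T * u) / 2) ≤ 1 := by
        rw [Real.exp_le_one_iff]
        linarith
      rw [abs_mul, abs_of_pos (Real.exp_pos _)]
      have f1 : |Chebyshev.psi (Real.exp (Real.log T * u + eta T)) - Chebyshev.psi (Real.exp (Real.log T * u))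
          - (Real.exp (Real.log T * u + eta T) - Real.exp (Real.log T * u))| ≤ 2 * M := by
        rw [abs_le]
        constructor <;> linarith
      calc _ ≤ 1 * (2 * M) := mul_le_mul e1 f1 (abs_nonneg _) zero_le_one
        _ = 2 * M := one_mul _

/-- Change of variables to the logarithmic scale. -/
theorem V_eq {T a b : ℝ} (hT : 1 < T) (hab : a ≤ b) :
    T / (Real.log T) ^ 2 * ∫ x in (T ^ a)..(T ^ b),
      (Chebyshev.psi (x + x / T) - Chebyshev.psi x - x / T) ^ 2 / x ^ 2 = ∫ u in a..b, mV T u := by
  have hT0 : 0 < T := by linarith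
  have hL := Real.log_pos hT
  set L := Real.log T with hLdef
  have hTa : ∀ c : ℝ, T ^ c = Real.exp (L * c) := fun c => by rw [Real.rpow_def_of_pos hT0]
  have hle : T ^ a ≤ T ^ b := Real.rpow_le_rpow_of_exponent_le hT.le hab
  rw [intervalIntegral.integral_of_le hle, intervalIntegral.integral_of_le hab]
  have himg : Ioc (T ^ a) (T ^ b) = (fun u : ℝ => Real.exp (L * u)) '' Ioc a b := by
    ext x
    rw [hTa, hTa]
    simp only [mem_Ioc, mem_image]
    constructor
    · rintro ⟨h1, h2⟩
      have hx : 0 < x := lt_trans (Real.exp_pos _) h1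
      refine ⟨Real.log x / L, ⟨?_, ?_⟩, ?_⟩
      · rw [lt_div_iff₀ hL, mul_comm]
        exact (Real.lt_log_iff_exp_lt hx).mpr h1
      · rw [div_le_iff₀ hL, mul_comm]
        exact (Real.log_le_iff_le_exp hx).mpr h2
      · rw [mul_div_cancel₀ _ hL.ne', Real.exp_log hx]
    · rintro ⟨u, ⟨h1, h2⟩, rfl⟩
      exact ⟨Real.exp_lt_exp.mpr (mul_lt_mul_of_pos_left h1 hL), Real.exp_le_exp.mpr (mul_le_mul_of_nonneg_left h2 hL.le)⟩
  rw [himg, integral_image_eq_integral_abs_deriv_smul (f' := fun u => L * Real.exp (L * u)) measurableSet_Ioc]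
  · rw [← integral_const_mul]
    congr 1
    ext u
    have hx := Real.exp_pos (L * u)
    rw [smul_eq_mul, abs_of_pos (by positivity)]
    unfold mV Gpsi
    rw [← hLdef]
    have e1 : Real.exp (L * u + eta T) = Real.exp (L * u) + Real.exp (L * u) / T := by
      rw [Real.exp_add]
      unfold eta
      rw [Real.exp_log (by positivity)]
      ring
    have e2 : Real.exp (-(L * u) / 2) ^ 2 = (Real.exp (L * u))⁻¹ := by
      rw [← Real.exp_nat_mul, ← Real.exp_neg]
      congr 1
      push_cast
      ring
    rw [e1, mul_pow, e2]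
    field_simp
    ring
  · intro u _
    have h1 : HasDerivAt (fun u : ℝ => L * u) L u := by simpa using (hasDerivAt_id u).const_mul L
    have h2 := h1.exp
    apply HasDerivAt.hasDerivWithinAt
    apply h2.congr_deriv
    ring
  · intro u _ v _ huv
    have h1 : L * u = L * v := Real.exp_injective huv
    exact mul_left_cancel₀ hL.ne' h1

/-- Bookkeeping of main terms. -/
lemma budget {G P Q : ℝ → ℝ} (hG : Continuous G) (hP : Continuous P) (hQ : Continuous Q)
    (hGe : ∀ x, G (-x) = G x) (hQe : ∀ x, Q (-x) = Q x) (hPQ : ∀ x, P x + Q x = 1) {b0 c S : ℝ} (hb0 : b0 ≤ 1)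
    (hP0 : ∀ x, b0 ≤ |x| → P x = 0) (hQ0 : ∀ x, |x| ≤ c → Q x = 0) (hc : 0 < c)
    (hS : ∀ x, S ≤ |x| → G x = 0) {b' : ℝ} (hb' : c ≤ b') (hSb : S ≤ b') :
    ∫ u in c..b', (G u * Q u) * min u 1
      = ((∫ x, G x) - ∫ x, |x| * (G x * P x)) / 2 - (∫ x, G x * tri x) / 2 := by
  have hGc : HasCompactSupport G := hasCompactSupport_of_supp hS
  have hGi : Integrable G := hG.integrable_of_hasCompactSupport hGc
  have hm : Continuous fun x : ℝ => min |x| 1 := by fun_prop
  have i1 : Integrable (fun x => |x| * (G x * P x)) := by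
    apply Continuous.integrable_of_hasCompactSupport (by fun_prop)
    exact (hGc.mul_right).mul_left
  have i2 : Integrable (fun x => G x * tri x) := by
    have := continuous_tri
    apply Continuous.integrable_of_hasCompactSupport (by fun_prop)
    exact hGc.mul_right
  have e1 : ∫ x, (G x * Q x) * min |x| 1 = (∫ x, G x) - (∫ x, |x| * (G x * P x)) - ∫ x, G x * tri x := by
    have i3 : Integrable (fun x => G x - |x| * (G x * P x)) := hGi.sub i1
    rw [← integral_sub hGi i1, ← integral_sub i3 i2]
    congr 1
    ext x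
    have hq : Q x = 1 - P x := by linarith [hPQ x]
    have ht : tri x = 1 - min |x| 1 := by
      unfold tri
      rcases le_total |x| 1 with h | h
      · rw [min_eq_left h, max_eq_right (by linarith)]
      · rw [min_eq_right h, max_eq_left (by linarith)]
        ring
    rw [hq, ht]
    rcases le_total |x| 1 with h | h
    · rw [min_eq_left h]; ring
    · rw [hP0 x (hb0.trans h)]; ring
  have e2 : ∫ x, (G x * Q x) * min |x| 1 = 2 * ∫ x in Ioi 0, (G x * Q x) * min |x| 1 := by
    apply integral_even_eq (f := fun x => (G x * Q x) * min |x| 1)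
    intro y
    rw [hGe, hQe, abs_neg]
  have e3 : ∫ x in Ioi 0, (G x * Q x) * min |x| 1 = ∫ u in c..b', (G u * Q u) * min u 1 := by
    rw [intervalIntegral.integral_of_le hb']
    have e4 : ∫ u in Ioc c b', (G u * Q u) * min u 1 = ∫ u in Ioc c b', (G u * Q u) * min |u| 1 := by
      apply setIntegral_congr_fun measurableSet_Ioc
      intro u hu
      have hu1 : c < u := hu.1
      simp only
      rw [abs_of_pos (show (0 : ℝ) < u by linarith)]
    rw [e4]
    apply setIntegral_eq_of_subset_of_forall_sdiff_eq_zero measurableSet_Ioi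
    · intro u hu
      have hu1 : c < u := hu.1
      exact (show (0 : ℝ) < u by linarith)
    · intro u hu
      have hu0 : (0 : ℝ) < u := hu.1
      by_cases h : u ≤ c
      · rw [hQ0 u (by rw [abs_of_pos hu0]; exact h)]; ring
      · have : b' < u := by
          by_contra h'
          exact hu.2 ⟨not_le.mp h, not_lt.mp h'⟩
        rw [hS u (by rw [abs_of_pos hu0]; linarith)]; ring
  rw [← e3]
  linarith

lemma integral_tri : ∫ x, tri x = 1 := by
  have h := cosT_tri 0
  unfold cosT at h
  simpa using h

end Pool.Agent.H6
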