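import Mathlib
import Pool.Agent.H6.Low
import Pool.Agent.H6.NiceFT
import Pool.Agent.H6.Var

open MeasureTheory Set Filter Topology
open scoped Real Interval ContDiff

namespace Pool.Agent.H6

/-- Windows converge. -/
def Lim (m : ℝ → ℝ → ℝ) (a b : ℝ) : Prop :=
  Tendsto (fun T => ∫ u in a..b, m T u) atTop (𝓝 (∫ u in a..b, min u 1))

lemma lim_iff {m : ℝ → ℝ → ℝ} {a b : ℝ} : Lim m a b ↔ UB m a b ∧ LB m a b := by
  constructor
  · intro h
    constructor
    · intro ε hε
      filter_upwards [h.eventually (gt_mem_nhds (show (∫ u in a..b, min u 1) < (∫ u in a..b, min u 1) + ε by linarith))] with T hT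
      exact hT.le
    · intro ε hε
      filter_upwards [h.eventually (lt_mem_nhds (show (∫ u in a..b, min u 1) - ε < (∫ u in a..b, min u 1) by linarith))] with T hT
      exact hT.le
  · rintro ⟨h1, h2⟩
    unfold Lim
    rw [Metric.tendsto_nhds]
    intro ε hε
    filter_upwards [h1 (ε / 2) (by positivity), h2 (ε / 2) (by positivity)] with T a1 a2
    rw [Real.dist_eq, abs_lt]
    constructor <;> linarith

/-- Wide positive definite test functions close to `1` on `[-B, B]`. -/
lemma exists_wide (B : ℝ) (hB : 0 < B) {δ : ℝ} (hδ : 0 < δ) :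
    ∃ χ : ℝ → ℝ, Nice χ ∧ (∀ u, 0 ≤ cosT χ u) ∧ χ 0 = 1 ∧ (∀ x, |x| ≤ B → |χ x - 1| ≤ δ) := by
  obtain ⟨χ₀, h1, h2, h3⟩ := exists_posdef
  have hc := h1.continuous.continuousAt (x := 0)
  rw [Metric.continuousAt_iff] at hc
  obtain ⟨r, hr, hr2⟩ := hc δ hδ
  have hβ : 0 < 2 * B / r := by positivity
  refine ⟨fun x => χ₀ (x / (2 * B / r)), h1.comp_div hβ, fun u => ?_, by simp [h3], fun x hx => ?_⟩
  · rw [cosT_dilate χ₀ hβ]
    exact mul_nonneg hβ.le (h2 _)
  · have h4 : dist (x / (2 * B / r)) 0 < r := by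
      rw [Real.dist_eq, sub_zero, abs_div, abs_of_pos hβ, div_lt_iff₀ hβ]
      have : r * (2 * B / r) = 2 * B := by field_simp
      rw [this]
      linarith
    have h5 := hr2 h4
    rw [h3, Real.dist_eq] at h5
    exact h5.le

lemma tri_int_ge {G : ℝ → ℝ} (hG : Continuous G) {δ : ℝ} (h : ∀ x, |x| ≤ 1 → |G x - 1| ≤ δ) :
    ∫ x, G x * tri x ≤ 1 + δ ∧ 1 - δ ≤ ∫ x, G x * tri x := by
  have h0 := continuous_tri
  have hi : Integrable (fun x => G x * tri x) := by
    apply Continuous.integrable_of_hasCompactSupport (by fun_prop)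
    exact hasCompactSupport_tri.mul_left
  have hδ0 : 0 ≤ δ := (abs_nonneg _).trans (h 0 (by simp))
  have h1 : |(∫ x, G x * tri x) - 1| ≤ δ := by
    rw [← integral_tri, ← integral_sub hi integrable_tri]
    calc |∫ x, (G x * tri x - tri x)| ≤ ∫ x, |G x * tri x - tri x| := abs_integral_le_integral_abs
      _ ≤ ∫ x, δ * tri x := by
          apply integral_mono (hi.sub integrable_tri).abs (integrable_tri.const_mul δ)
          intro x
          simp only [Pi.sub_apply]
          have : G x * tri x - tri x = (G x - 1) * tri x := by ring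
          rw [this, abs_mul, abs_of_nonneg (tri_nonneg x)]
          rcases le_total |x| 1 with hx | hx
          · exact mul_le_mul_of_nonneg_right (h x hx) (tri_nonneg x)
          · rw [tri_eq_zero hx]; simp
      _ = δ := by rw [integral_const_mul, integral_tri, mul_one]
  rw [abs_le] at h1
  constructor <;> linarith

section
variable {F : ℝ → Finset PC.Z} {CR : ℝ} {γ w : PC.Z → ℝ} [Countable PC.Z]

/-- **Rigidity for the variance of primes in short intervals.** -/
theorem rigidity_V (I : Inputs γ w F CR) (hw1 : ∀ i, 1 ≤ w i) {a₀ : ℝ} (ha₀ : 1 / 2 < a₀)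
    (hP : PoissonInput γ w a₀ (PC.arch a₀)) (hU : ∀ a b, 0 < a → a < b → UB mV a b) {a b : ℝ} (ha : 0 < a) (hab : a < b) :
    LB mV a b := by
  apply rigidity_abs dns_mV hU _ ha hab
  intro a b ha hab
  refine ⟨1 / 4, by norm_num, fun δ hδ => ?_⟩
  set b0 := min a (1 / 2) with hb0
  have hb0pos : 0 < b0 := by rw [hb0]; positivity
  have hb0a : b0 ≤ a := min_le_left _ _
  have hb01 : b0 < 1 := lt_of_le_of_lt (min_le_right _ _) (by norm_num)
  obtain ⟨p, q, hp, hq, hpe, hqe, hpq, hp1, hq0, hp0, hq1⟩ := exists_pq (a := b0 / 2) (b := b0) (by positivity) (by linarith)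
  set B := max b 1 with hB
  have hB0 : 0 < B := by rw [hB]; positivity
  -- choose a small parameter
  set δ' := min (1 / 4) (δ / 3) with hδ'
  have hδ'0 : 0 < δ' := by rw [hδ']; positivity
  have hδ'1 : δ' ≤ 1 / 4 := min_le_left _ _
  have hδ'2 : δ' ≤ δ / 3 := min_le_right _ _
  obtain ⟨χ, nχ, hpos, hχ0, hχ1⟩ := exists_wide B hB0 hδ'0
  have hχc := nχ.continuous
  have hpc := hp.continuous
  have hqc := hq.continuous
  obtain ⟨s, hs0, hs⟩ := nχ.supp
  have hsq : ∀ x, |x| ≤ B → |χ x ^ 2 - 1| ≤ 3 * δ' := by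
    intro x hx
    have h1 := hχ1 x hx
    have h2 : |χ x + 1| ≤ 3 := by
      rw [abs_le] at h1 ⊢
      constructor <;> linarith
    calc |χ x ^ 2 - 1| = |χ x + 1| * |χ x - 1| := by rw [← abs_mul]; congr 1; ring
      _ ≤ 3 * δ' := mul_le_mul h2 h1 (abs_nonneg _) (by norm_num)
  set b' := max s b + 1 with hb'
  have hsb' : s ≤ b' := by rw [hb']; linarith [le_max_left s b]
  have hbb' : b < b' := by rw [hb']; linarith [le_max_right s b]
  refine ⟨fun u => (χ u * q u) ^ 2, b0 / 2, b', by fun_prop, by positivity, by linarith, hbb', fun u _ => sq_nonneg _,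
    fun u hu => ?_, ?_⟩
  · have hu0 : 0 < u := by linarith [hu.1]
    simp only
    rw [hq1 u (by rw [abs_of_pos hu0]; linarith [hu.1]), mul_one]
    have h1 := hsq u (by rw [abs_of_pos hu0]; exact hu.2.trans (le_max_left _ _))
    rw [abs_le] at h1
    linarith [h1.1]
  · -- the lower bound
    obtain ⟨mm, hmm, hmm2⟩ := MV_lower I hw1 ha₀ hP nχ hpos
    have hdec := MV_decomp I ha₀ hP nχ hp hq hpe hqe hpq (c := b0 / 2) (b := b0) (by positivity) (by linarith) hb01 hp1 hq0 hp0
    rw [hχ0, one_pow] at hdec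
    have hlim := hmm.sub hdec
    have hbud := budget (G := fun x => χ x ^ 2) (P := fun x => p x ^ 2) (Q := fun x => q x ^ 2) (by fun_prop) (by fun_prop)
      (by fun_prop) (fun x => by simp only [nχ.even]) (fun x => by simp only [hqe]) hpq (b0 := b0) (c := b0 / 2) (S := s) hb01.le
      (fun x hx => by simp only [hp0 x hx]; ring) (fun x hx => by simp only [hq0 x hx]; ring) (by positivity)
      (fun x hx => by simp only [hs x hx]; ring) (b' := b') (by linarith) hsb'
    have htri := (tri_int_ge (G := fun x => χ x ^ 2) (by fun_prop) (δ := 3 * δ')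
      (fun x hx => hsq x (hx.trans (le_max_right _ _)))).2
    have e1 : ∀ u, (χ u * q u) ^ 2 * min u 1 = χ u ^ 2 * q u ^ 2 * min u 1 := fun u => by ring
    have e2 : ∀ x : ℝ, |x| * (χ x * p x) ^ 2 = |x| * (χ x ^ 2 * p x ^ 2) := fun x => by ring
    simp_rw [e2] at hlim
    have hgap : (∫ u in (b0 / 2)..b', (χ u * q u) ^ 2 * min u 1) - δ
        < (∫ ξ, χ ξ ^ 2) / 2 - (1 + ∫ x, |x| * (χ x ^ 2 * p x ^ 2)) / 2 := by
      simp_rw [e1]
      rw [hbud]
      nlinarith
    filter_upwards [hlim.eventually (lt_mem_nhds hgap), hmm2, eventually_gt_atTop 1] with T h1 h2 hT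
    have hL := Real.log_pos hT
    have h3 : UT (fun ξ => (χ ξ * q ξ) ^ 2) T = ∫ u in (b0 / 2)..b', (χ u * q u) ^ 2 * mV T u := by
      rw [UT_eq _ hL, intervalIntegral.integral_of_le (by linarith)]
      apply setIntegral_eq_of_subset_of_forall_sdiff_eq_zero measurableSet_Ioi
      · intro u hu
        exact lt_trans (by positivity) hu.1
      · intro u hu
        have hu0 : (0 : ℝ) < u := hu.1
        by_cases h : u ≤ b0 / 2
        · rw [hq0 u (by rw [abs_of_pos hu0]; exact h)]; ring
        · have : b' < u := by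
            by_contra h'
            exact hu.2 ⟨not_le.mp h, not_lt.mp h'⟩
          rw [hs u (by rw [abs_of_pos hu0]; linarith)]; ring
    rw [← h3]
    linarith

end

end Pool.Agent.H6
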