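import Mathlib
import Pool.Agent.H6.RigV

open MeasureTheory Set Filter Topology
open scoped Real Interval ContDiff

namespace Pool.Agent.H6

/-- Convergence of windows implies convergence for continuous test functions. -/
theorem lim_cont {m : ℝ → ℝ → ℝ} (hm : Dns m) (hlim : ∀ a b, 0 < a → a < b → Lim m a b) {g : ℝ → ℝ} (hg : Continuous g)
    {a b M : ℝ} (ha : 0 < a) (hab : a < b) (hg0 : ∀ u ∈ Icc a b, 0 ≤ g u) (hgM : ∀ u ∈ Icc a b, g u ≤ M) :
    Tendsto (fun T => ∫ u in a..b, g u * m T u) atTop (𝓝 (∫ u in a..b, g u * min u 1)) := by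
  have hU : ∀ a b, 0 < a → a < b → UB m a b := fun a b h1 h2 => (lim_iff.mp (hlim a b h1 h2)).1
  have hmin : Continuous fun u : ℝ => min u 1 := by fun_prop
  have hM0 : 0 ≤ M := (hg0 a ⟨le_rfl, hab.le⟩).trans (hgM a ⟨le_rfl, hab.le⟩)
  have hLM := (hlim a b ha hab).const_mul M
  rw [Metric.tendsto_nhds] at hLM ⊢
  intro ε hε
  have u1 := ub_cont hm hU hg ha hab hg0 (ε := ε / 2) (by positivity)
  have u2 := ub_cont hm hU (g := fun u => M - g u) (by fun_prop) ha hab (fun u hu => by linarith [hgM u hu])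
    (ε := ε / 4) (by positivity)
  filter_upwards [hm.int, u1, u2, hLM (ε / 4) (by positivity)] with T hi h1 h2 h3
  have i1 : IntervalIntegrable (fun u => g u * m T u) volume a b := (hi _ _ ha hab.le).continuousOn_mul hg.continuousOn
  have hgm : Continuous fun u => g u * min u 1 := hg.mul hmin
  have e1 : ∫ u in a..b, (M - g u) * m T u = M * (∫ u in a..b, m T u) - ∫ u in a..b, g u * m T u := by
    rw [← intervalIntegral.integral_const_mul, ← intervalIntegral.integral_sub ((hi _ _ ha hab.le).const_mul _) i1]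
    congr 1
    ext u
    ring
  have e2 : ∫ u in a..b, (M - g u) * min u 1 = M * (∫ u in a..b, min u 1) - ∫ u in a..b, g u * min u 1 := by
    rw [← intervalIntegral.integral_const_mul, ← intervalIntegral.integral_sub ((hmin.intervalIntegrable _ _).const_mul _)
      (hgm.intervalIntegrable _ _)]
    congr 1
    ext u
    ring
  simp only [e1, e2] at h2
  rw [Real.dist_eq, abs_lt] at h3 ⊢
  constructor <;> linarith [h3.1, h3.2]

/-- The limiting quadratic form. -/
noncomputable def ell (χ : ℝ → ℝ) : ℝ := χ 0 ^ 2 + ∫ x, min |x| 1 * χ x ^ 2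

lemma Nice.integrable_min {χ : ℝ → ℝ} (h : Nice χ) : Integrable (fun x => min |x| 1 * χ x) := by
  have := h.continuous
  apply Continuous.integrable_of_hasCompactSupport (by fun_prop)
  exact h.hasCompactSupport.mul_left

lemma ell_nonneg (χ : ℝ → ℝ) : 0 ≤ ell χ := by
  unfold ell
  apply add_nonneg (sq_nonneg _)
  apply integral_nonneg
  intro x
  exact mul_nonneg (le_min (abs_nonneg _) zero_le_one) (sq_nonneg _)

section
variable {F : ℝ → Finset PC.Z} {CR : ℝ} {γ w : PC.Z → ℝ} [Countable PC.Z]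

theorem sharp_of_V (I : Inputs γ w F CR) {a₀ : ℝ} (ha₀ : 1 / 2 < a₀)
    (hP : PoissonInput γ w a₀ (PC.arch a₀)) (hlim : ∀ a b, 0 < a → a < b → Lim mV a b) {χ : ℝ → ℝ} (nχ : Nice χ) :
    Sharp γ w (cosT χ) (ell χ) := by
  obtain ⟨p, q, hp, hq, hpe, hqe, hpq, hp1, hq0, hp0, hq1⟩ := exists_pq (a := 1 / 4) (b := 1 / 2) (by norm_num) (by norm_num)
  have hχc := nχ.continuous
  have hpc := hp.continuous
  have hqc := hq.continuous
  obtain ⟨s, hs0, hs⟩ := nχ.supp
  obtain ⟨B, hB0, hB⟩ := nχ.bounded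
  have hdec := MV_decomp I ha₀ hP nχ hp hq hpe hqe hpq (c := 1 / 4) (b := 1 / 2) (by norm_num) (by norm_num) (by norm_num) hp1 hq0 hp0
  set b' := max s 1 + 1 with hb'
  have hsb' : s ≤ b' := by rw [hb']; linarith [le_max_left s 1]
  have hbb' : 1 < b' := by rw [hb']; linarith [le_max_right s 1]
  have hbud := budget (G := fun x => χ x ^ 2) (P := fun x => p x ^ 2) (Q := fun x => q x ^ 2) (by fun_prop) (by fun_prop)
    (by fun_prop) (fun x => by simp only [nχ.even]) (fun x => by simp only [hqe]) hpq (b0 := 1 / 2) (c := 1 / 4) (S := s) (by norm_num)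
    (fun x hx => by simp only [hp0 x hx]; ring) (fun x hx => by simp only [hq0 x hx]; ring) (by positivity)
    (fun x hx => by simp only [hs x hx]; ring) (b' := b') (by linarith) hsb'
  have hcont : Tendsto (fun T => ∫ u in (1 / 4 : ℝ)..b', (χ u * q u) ^ 2 * mV T u) atTop
      (𝓝 (∫ u in (1 / 4 : ℝ)..b', (χ u * q u) ^ 2 * min u 1)) := lim_cont dns_mV hlim (g := fun u => (χ u * q u) ^ 2) (by fun_prop) (a := 1 / 4) (b := b') (M := B ^ 2)
    (by norm_num) (by linarith) (fun u _ => sq_nonneg _) (fun u _ => by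
      rw [mul_pow]
      have h1 : χ u ^ 2 ≤ B ^ 2 := by
        rw [← sq_abs]
        exact pow_le_pow_left₀ (abs_nonneg _) (hB u) 2
      have h2 : q u ^ 2 ≤ 1 := by
        have := hpq u
        nlinarith [sq_nonneg (p u)]
      calc χ u ^ 2 * q u ^ 2 ≤ B ^ 2 * 1 := mul_le_mul h1 h2 (sq_nonneg _) (sq_nonneg _)
        _ = B ^ 2 := mul_one _)
  have hMV : Tendsto (MV γ w (cosT χ)) atTop (𝓝 (ell χ / 2)) := by
    have h1 := hdec.add hcont
    have e1 : ∀ u, (χ u * q u) ^ 2 * min u 1 = χ u ^ 2 * q u ^ 2 * min u 1 := fun u => by ring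
    have e2 : ∀ x : ℝ, |x| * (χ x * p x) ^ 2 = |x| * (χ x ^ 2 * p x ^ 2) := fun x => by ring
    simp_rw [e1] at h1
    rw [hbud] at h1
    simp_rw [e2] at h1
    have e3 : (χ 0 ^ 2 + ∫ ξ, |ξ| * (χ ξ ^ 2 * p ξ ^ 2)) / 2 + (((∫ x, χ x ^ 2) - ∫ x, |x| * (χ x ^ 2 * p x ^ 2)) / 2
        - (∫ x, χ x ^ 2 * tri x) / 2) = ell χ / 2 := by
      unfold ell
      have i2 : Integrable (fun x => χ x ^ 2 * tri x) := by
        have := continuous_tri
        apply Continuous.integrable_of_hasCompactSupport (by fun_prop)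
        exact hasCompactSupport_tri.mul_left
      have e4 : ∫ x, min |x| 1 * χ x ^ 2 = (∫ x, χ x ^ 2) - ∫ x, χ x ^ 2 * tri x := by
        rw [← integral_sub nχ.sq.integrable i2]
        congr 1
        ext x
        have ht : tri x = 1 - min |x| 1 := by
          unfold tri
          rcases le_total |x| 1 with h | h
          · rw [min_eq_left h, max_eq_right (by linarith)]
          · rw [min_eq_right h, max_eq_left (by linarith)]
            ring
        rw [ht]
        ring
      rw [e4]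
      ring
    rw [e3] at h1
    apply h1.congr'
    filter_upwards [eventually_gt_atTop 1] with T hT
    have hL := Real.log_pos hT
    have h3 : UT (fun ξ => (χ ξ * q ξ) ^ 2) T = ∫ u in (1 / 4)..b', (χ u * q u) ^ 2 * mV T u := by
      rw [UT_eq _ hL, intervalIntegral.integral_of_le (by linarith)]
      apply setIntegral_eq_of_subset_of_forall_sdiff_eq_zero measurableSet_Ioi
      · intro u hu
        exact lt_trans (by positivity) hu.1
      · intro u hu
        have hu0 : (0 : ℝ) < u := hu.1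
        by_cases h : u ≤ 1 / 4
        · rw [hq0 u (by rw [abs_of_pos hu0]; exact h)]; ring
        · have : b' < u := by
            by_contra h'
            exact hu.2 ⟨not_le.mp h, not_lt.mp h'⟩
          rw [hs u (by rw [abs_of_pos hu0]; linarith)]; ring
    rw [← h3]
    ring
  have hreg := nχ.reg hs
  exact I.sharp_of_mixK hreg hs0 (ell_nonneg χ) (mixK_of_MV I ha₀ hP hreg hs0 hMV)

end

section
variable {ι : Type*} [Countable ι] {γ w : ι → ℝ} {F : ℝ → Finset ι} {CR : ℝ}

/-- Asymptotics of smooth pair sums. -/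
def SFlim (γ w : ι → ℝ) (F : ℝ → Finset ι) (g : ℝ → ℝ) : Prop :=
  Tendsto (fun T => (1 / PC.norm T) * PS γ w (F T) (Real.log T) (cosT g)) atTop (𝓝 (g 0 + ∫ x, min |x| 1 * g x))

/-- Relation between sharp averages and pair sums. -/
theorem Inputs.avg_sub_PS (I : Inputs γ w F CR) {χ₁ χ₂ : ℝ → ℝ} (h₁ : Nice χ₁) (h₂ : Nice χ₂) :
    Tendsto (fun T => avg T (fun t => SS γ w (cosT χ₁) (Real.log T) t * SS γ w (cosT χ₂) (Real.log T) t)
      - (1 / PC.norm T) * PS γ w (F T) (Real.log T) (cosT (fun ξ => χ₁ ξ * χ₂ ξ))) atTop (𝓝 0) := by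
  obtain ⟨K, hK0, hK⟩ := I.sharp_mul h₁ h₂
  apply squeeze_zero_norm' _ (Inputs.tendsto_rpow_div (p := 1 / 2) (by norm_num) K)
  have hlog := Real.tendsto_log_atTop
  have hπ := Real.pi_gt_three
  filter_upwards [eventually_gt_atTop 0, hlog.eventually_ge_atTop (2 * π)] with T hT hL
  have h1 := hK (Real.log T) hL T hT.le
  have hL0 : 0 < Real.log T := by linarith
  have e : avg T (fun t => SS γ w (cosT χ₁) (Real.log T) t * SS γ w (cosT χ₂) (Real.log T) t)
      - (1 / PC.norm T) * PS γ w (F T) (Real.log T) (cosT (fun ξ => χ₁ ξ * χ₂ ξ))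
      = (1 / T) * ((∫ t in (0 : ℝ)..T, SS γ w (cosT χ₁) (Real.log T) t * SS γ w (cosT χ₂) (Real.log T) t)
        - (2 * π / Real.log T) * PS γ w (F T) (Real.log T) (cosT (fun ξ => χ₁ ξ * χ₂ ξ))) := by
    unfold avg PC.norm
    field_simp
  rw [e, Real.norm_eq_abs, abs_mul, abs_of_pos (by positivity : 0 < 1 / T)]
  exact mul_le_mul_of_nonneg_left h1 (by positivity)

theorem Inputs.sharp_of_SF (I : Inputs γ w F CR) (h : ∀ g, Nice g → SFlim γ w F g) {χ : ℝ → ℝ} (nχ : Nice χ) :
    Sharp γ w (cosT χ) (ell χ) := by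
  have h1 := I.avg_sub_PS nχ nχ
  have h2 := h _ nχ.sq
  unfold SFlim at h2
  simp_rw [pow_two] at h2
  have h3 := h1.add h2
  rw [zero_add] at h3
  unfold Sharp ell
  simp_rw [pow_two]
  apply h3.congr
  intro T
  ring

theorem Inputs.SF_of_sharp (I : Inputs γ w F CR) (h : ∀ χ, Nice χ → Sharp γ w (cosT χ) (ell χ)) {g : ℝ → ℝ} (ng : Nice g) :
    SFlim γ w F g := by
  obtain ⟨s, hs0, hs⟩ := ng.supp
  obtain ⟨θ, nθ, z, o, p, l⟩ := exists_nice_plateau hs0 (by linarith : s < s + 1)
  have hgθ : ∀ ξ, g ξ * θ ξ = g ξ := by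
    intro ξ
    rcases le_total |ξ| s with h | h
    · rw [o ξ h, mul_one]
    · rw [hs ξ h, zero_mul]
  have h1 := I.avg_sub_PS ng nθ
  simp_rw [hgθ] at h1
  have h2 := h _ (ng.add nθ)
  have h3 := h _ (ng.sub nθ)
  unfold Sharp at h2 h3
  have h4 := (h2.sub h3).const_mul (1 / 4)
  have hgs := (ng.reg hs).test
  have hθs := (nθ.reg z).test
  have hlog := Real.tendsto_log_atTop
  have hπ := Real.pi_gt_three
  have e1 : (1 / 4) * (ell (fun x => g x + θ x) - ell (fun x => g x - θ x)) = g 0 + ∫ x, min |x| 1 * g x := by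
    unfold ell
    have n1 := (ng.add nθ).sq.integrable_min
    have n2 := (ng.sub nθ).sq.integrable_min
    have e2 : ∫ x, min |x| 1 * (g x + θ x) ^ 2 = (∫ x, min |x| 1 * (g x - θ x) ^ 2) + 4 * ∫ x, min |x| 1 * g x := by
      rw [← integral_const_mul, ← integral_add n2 (ng.integrable_min.const_mul 4)]
      congr 1
      ext x
      have := hgθ x
      have e : 4 * (min |x| 1 * g x) = 4 * (min |x| 1 * (g x * θ x)) := by rw [this]
      rw [e]
      ring
    rw [e2]
    have := hgθ 0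
    nlinarith
  rw [e1] at h4
  have h5 := h4.sub h1
  rw [sub_zero] at h5
  unfold SFlim
  apply h5.congr'
  filter_upwards [hlog.eventually_ge_atTop (2 * π)] with T hT
  have hT1 : 1 ≤ Real.log T := by linarith
  have c1 := I.continuous_SS hgs hs0 hT1
  have c2 := I.continuous_SS hθs (by linarith) hT1
  have s1 : TestFn (s + 1) (cosT g) := hgs.mono (by linarith)
  have a1 : ∀ t, SS γ w (cosT fun x => g x + θ x) (Real.log T) t = SS γ w (cosT g) (Real.log T) t + SS γ w (cosT θ) (Real.log T) t := by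
    intro t
    rw [← I.SS_add s1 hθs hT]
    congr 1
    ext u
    exact cosT_add ng.integrable nθ.integrable u
  have a2 : ∀ t, SS γ w (cosT fun x => g x - θ x) (Real.log T) t = SS γ w (cosT g) (Real.log T) t - SS γ w (cosT θ) (Real.log T) t := by
    intro t
    rw [← I.SS_sub s1 hθs hT]
    congr 1
    ext u
    exact cosT_sub ng.integrable nθ.integrable u
  simp_rw [a1, a2]
  have e4 : avg T (fun t => (SS γ w (cosT g) (Real.log T) t + SS γ w (cosT θ) (Real.log T) t) ^ 2)
      = avg T (fun t => (SS γ w (cosT g) (Real.log T) t - SS γ w (cosT θ) (Real.log T) t) ^ 2)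
        + 4 * avg T (fun t => SS γ w (cosT g) (Real.log T) t * SS γ w (cosT θ) (Real.log T) t) := by
    rw [← avg_const_mul, ← avg_add (by fun_prop) (by fun_prop)]
    congr 1
    ext t
    ring
  rw [e4]
  ring

end

section
variable {F : ℝ → Finset PC.Z} {CR : ℝ} {γ w : PC.Z → ℝ} [Countable PC.Z]

/-- Smooth windows from sharp mean squares. -/
theorem UT_of_sharp (I : Inputs γ w F CR) {a₀ : ℝ} (ha₀ : 1 / 2 < a₀)
    (hP : PoissonInput γ w a₀ (PC.arch a₀)) (h : ∀ χ, Nice χ → Sharp γ w (cosT χ) (ell χ)) {χ : ℝ → ℝ} (nχ : Nice χ)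
    {c : ℝ} (hc : 0 < c) (hz : ∀ ξ, |ξ| ≤ c → χ ξ = 0) :
    Tendsto (UT (fun ξ => χ ξ ^ 2)) atTop (𝓝 (∫ x in Ioi 0, min x 1 * χ x ^ 2)) := by
  obtain ⟨s, hs0, hs⟩ := nχ.supp
  have hreg := nχ.reg hs
  have h1 := MV_of_mixK I ha₀ hP hreg hs0 (I.mixK_of_sharp hreg hs0 (h χ nχ))
  have h2 := (bridge I ha₀ hP nχ hc hz).add h1
  rw [zero_add] at h2
  have e : ell χ / 2 = ∫ x in Ioi 0, min x 1 * χ x ^ 2 := by
    unfold ell
    rw [hz 0 (by simpa using hc.le), integral_even_eq (f := fun x => min |x| 1 * χ x ^ 2) (fun x => by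
      rw [abs_neg, nχ.even])]
    have e2 : ∫ y in Ioi 0, min |y| 1 * χ y ^ 2 = ∫ y in Ioi 0, min y 1 * χ y ^ 2 := by
      apply setIntegral_congr_fun measurableSet_Ioi
      intro y hy
      simp only
      rw [abs_of_pos (show (0 : ℝ) < y from hy)]
    rw [e2]
    ring
  rw [e] at h2
  apply h2.congr
  intro T
  ring

end

end Pool.Agent.H6
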