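import Mathlib
import Pool.Agent.H6.SFn

open MeasureTheory Set Filter Topology
open scoped Real Interval ContDiff

namespace Pool.Agent.H6

lemma setIntegral_Ioi_eq_interval {f : ℝ → ℝ} {a b : ℝ} (ha : 0 < a) (hab : a ≤ b)
    (h1 : ∀ u, 0 < u → u ≤ a → f u = 0) (h2 : ∀ u, b < u → f u = 0) : ∫ u in Ioi 0, f u = ∫ u in a..b, f u := by
  rw [intervalIntegral.integral_of_le hab]
  apply setIntegral_eq_of_subset_of_forall_sdiff_eq_zero measurableSet_Ioi
  · intro u hu
    exact lt_trans ha hu.1
  · intro u hu
    have hu0 : (0 : ℝ) < u := hu.1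
    by_cases h : u ≤ a
    · exact h1 u hu0 h
    · apply h2
      by_contra h'
      exact hu.2 ⟨not_le.mp h, not_lt.mp h'⟩

lemma min_nonneg_of {u : ℝ} (hu : 0 ≤ u) : 0 ≤ min u 1 := le_min hu zero_le_one

lemma int_min_le {a b : ℝ} (hab : a ≤ b) : ∫ u in a..b, min u 1 ≤ b - a := by
  have h : ∫ u in a..b, (1 : ℝ) = b - a := by simp
  rw [← h]
  apply intervalIntegral.integral_mono_on hab
  · exact (by fun_prop : Continuous fun u : ℝ => min u 1).intervalIntegrable _ _
  · exact continuous_const.intervalIntegrable _ _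
  · intro u _
    exact min_le_right _ _

theorem lim_of_nice {m : ℝ → ℝ → ℝ} (hm : Dns m)
    (H : ∀ θ, Nice θ → ∀ c, 0 < c → (∀ ξ, |ξ| ≤ c → θ ξ = 0) →
      Tendsto (fun T => ∫ u in Ioi 0, θ u ^ 2 * m T u) atTop (𝓝 (∫ u in Ioi 0, min u 1 * θ u ^ 2)))
    {a b : ℝ} (ha : 0 < a) (hab : a < b) : Lim m a b := by
  have hmin : Continuous fun u : ℝ => min u 1 := by fun_prop
  rw [lim_iff]
  constructor
  · intro ε hε
    set δ := min (a / 2) (ε / 4) with hδ
    have hδ0 : 0 < δ := by rw [hδ]; positivity
    have hδa : δ ≤ a / 2 := min_le_left _ _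
    have hδε : δ ≤ ε / 4 := min_le_right _ _
    obtain ⟨θ, nθ, z1, z2, o, p, l⟩ := exists_annulus (a := a - δ) (b := a) (c := b) (d := b + δ)
      (by linarith) (by linarith) hab.le (by linarith)
    have hθc := nθ.continuous
    have h1 := H θ nθ (a - δ) (by linarith) z2
    have e1 : ∫ u in Ioi 0, min u 1 * θ u ^ 2 = ∫ u in (a - δ)..(b + δ), min u 1 * θ u ^ 2 :=
      setIntegral_Ioi_eq_interval (by linarith) (by linarith)
        (fun u hu0 hu => by rw [z2 u (by rw [abs_of_pos hu0]; exact hu)]; ring)
        (fun u hu => by rw [z1 u (by rw [abs_of_pos (by linarith)]; exact hu.le)]; ring)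
    have hle : ∫ u in (a - δ)..(b + δ), min u 1 * θ u ^ 2 ≤ (∫ u in a..b, min u 1) + 2 * δ := by
      have h2 : ∫ u in (a - δ)..(b + δ), min u 1 * θ u ^ 2 ≤ ∫ u in (a - δ)..(b + δ), min u 1 := by
        apply intervalIntegral.integral_mono_on (by linarith)
        · exact (hmin.mul (hθc.pow 2)).intervalIntegrable _ _
        · exact hmin.intervalIntegrable _ _
        · intro u hu
          apply mul_le_of_le_one_right (min_nonneg_of (by linarith [hu.1]))
          exact pow_le_one₀ (p u) (l u)
      have h3 : ∫ u in (a - δ)..(b + δ), min u 1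
          = (∫ u in (a - δ)..a, min u 1) + ((∫ u in a..b, min u 1) + ∫ u in b..(b + δ), min u 1) := by
        rw [intervalIntegral.integral_add_adjacent_intervals (hmin.intervalIntegrable _ _) (hmin.intervalIntegrable _ _),
          intervalIntegral.integral_add_adjacent_intervals (hmin.intervalIntegrable _ _) (hmin.intervalIntegrable _ _)]
      have h4 := int_min_le (show a - δ ≤ a by linarith)
      have h5 := int_min_le (show b ≤ b + δ by linarith)
      linarith
    filter_upwards [h1.eventually (gt_mem_nhds (show (∫ u in Ioi 0, min u 1 * θ u ^ 2) < (∫ u in a..b, min u 1) + ε by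
      rw [e1]; linarith)), hm.nonneg, hm.int] with T hT h0 hi
    refine le_trans ?_ hT.le
    rw [setIntegral_Ioi_eq_interval (a := a - δ) (b := b + δ) (by linarith) (by linarith)
        (fun u hu0 hu => by rw [z2 u (by rw [abs_of_pos hu0]; exact hu)]; ring)
        (fun u hu => by rw [z1 u (by rw [abs_of_pos (by linarith)]; exact hu.le)]; ring)]
    have i0 : ∀ x y, 0 < x → x ≤ y → IntervalIntegrable (fun u => θ u ^ 2 * m T u) volume x y := fun x y hx hxy =>
      (hi x y hx hxy).continuousOn_mul (hθc.pow 2).continuousOn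
    have i1 := i0 (a - δ) a (by linarith) (by linarith)
    have i2 := i0 a b ha hab.le
    have i3 := i0 b (b + δ) (by linarith) (by linarith)
    rw [← intervalIntegral.integral_add_adjacent_intervals i1 (i2.trans i3),
      ← intervalIntegral.integral_add_adjacent_intervals i2 i3]
    have j1 : 0 ≤ ∫ u in (a - δ)..a, θ u ^ 2 * m T u := intervalIntegral.integral_nonneg (by linarith) fun u hu =>
      mul_nonneg (sq_nonneg _) (h0 u (by linarith [hu.1]))
    have j3 : 0 ≤ ∫ u in b..(b + δ), θ u ^ 2 * m T u := intervalIntegral.integral_nonneg (by linarith) fun u hu =>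
      mul_nonneg (sq_nonneg _) (h0 u (by linarith [hu.1]))
    have j2 : ∫ u in a..b, θ u ^ 2 * m T u = ∫ u in a..b, m T u := by
      apply intervalIntegral.integral_congr
      intro u hu
      rw [uIcc_of_le hab.le] at hu
      have hu0 : 0 < u := by linarith [hu.1]
      simp only
      rw [o u (by rw [abs_of_pos hu0]; exact hu.1) (by rw [abs_of_pos hu0]; exact hu.2), one_pow, one_mul]
    rw [j2]
    linarith
  · intro ε hε
    set δ := min ((b - a) / 4) (ε / 4) with hδ
    have hba : 0 < b - a := by linarith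
    have hδ0 : 0 < δ := by rw [hδ]; positivity
    have hδa : δ ≤ (b - a) / 4 := min_le_left _ _
    have hδε : δ ≤ ε / 4 := min_le_right _ _
    obtain ⟨θ, nθ, z1, z2, o, p, l⟩ := exists_annulus (a := a) (b := a + δ) (c := b - δ) (d := b)
      ha (by linarith) (by linarith) (by linarith)
    have hθc := nθ.continuous
    have h1 := H θ nθ a ha z2
    have e1 : ∫ u in Ioi 0, min u 1 * θ u ^ 2 = ∫ u in a..b, min u 1 * θ u ^ 2 :=
      setIntegral_Ioi_eq_interval ha hab.le
        (fun u hu0 hu => by rw [z2 u (by rw [abs_of_pos hu0]; exact hu)]; ring)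
        (fun u hu => by rw [z1 u (by rw [abs_of_pos (by linarith)]; exact hu.le)]; ring)
    have hmt : Continuous fun u => min u 1 * θ u ^ 2 := hmin.mul (hθc.pow 2)
    have hge : (∫ u in a..b, min u 1) - 2 * δ ≤ ∫ u in a..b, min u 1 * θ u ^ 2 := by
      have h3 : ∫ u in a..b, min u 1
          = (∫ u in a..(a + δ), min u 1) + ((∫ u in (a + δ)..(b - δ), min u 1) + ∫ u in (b - δ)..b, min u 1) := by
        rw [intervalIntegral.integral_add_adjacent_intervals (hmin.intervalIntegrable _ _) (hmin.intervalIntegrable _ _),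
          intervalIntegral.integral_add_adjacent_intervals (hmin.intervalIntegrable _ _) (hmin.intervalIntegrable _ _)]
      have h3' : ∫ u in a..b, min u 1 * θ u ^ 2
          = (∫ u in a..(a + δ), min u 1 * θ u ^ 2) + ((∫ u in (a + δ)..(b - δ), min u 1 * θ u ^ 2) + ∫ u in (b - δ)..b, min u 1 * θ u ^ 2) := by
        rw [intervalIntegral.integral_add_adjacent_intervals (hmt.intervalIntegrable _ _) (hmt.intervalIntegrable _ _),
          intervalIntegral.integral_add_adjacent_intervals (hmt.intervalIntegrable _ _) (hmt.intervalIntegrable _ _)]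
      have h4 := int_min_le (show a ≤ a + δ by linarith)
      have h5 := int_min_le (show b - δ ≤ b by linarith)
      have h6 : 0 ≤ ∫ u in a..(a + δ), min u 1 * θ u ^ 2 := intervalIntegral.integral_nonneg (by linarith) fun u hu =>
        mul_nonneg (min_nonneg_of (by linarith [hu.1])) (sq_nonneg _)
      have h7 : 0 ≤ ∫ u in (b - δ)..b, min u 1 * θ u ^ 2 := intervalIntegral.integral_nonneg (by linarith) fun u hu =>
        mul_nonneg (min_nonneg_of (by linarith [hu.1])) (sq_nonneg _)
      have h8 : ∫ u in (a + δ)..(b - δ), min u 1 * θ u ^ 2 = ∫ u in (a + δ)..(b - δ), min u 1 := by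
        apply intervalIntegral.integral_congr
        intro u hu
        rw [uIcc_of_le (by linarith)] at hu
        have hu0 : 0 < u := by linarith [hu.1]
        simp only
        rw [o u (by rw [abs_of_pos hu0]; exact hu.1) (by rw [abs_of_pos hu0]; exact hu.2), one_pow, mul_one]
      linarith
    filter_upwards [h1.eventually (lt_mem_nhds (show (∫ u in a..b, min u 1) - ε < (∫ u in Ioi 0, min u 1 * θ u ^ 2) by
      rw [e1]; linarith)), hm.nonneg, hm.int] with T hT h0 hi
    refine hT.le.trans ?_
    rw [setIntegral_Ioi_eq_interval (a := a) (b := b) ha hab.le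
        (fun u hu0 hu => by rw [z2 u (by rw [abs_of_pos hu0]; exact hu)]; ring)
        (fun u hu => by rw [z1 u (by rw [abs_of_pos (by linarith)]; exact hu.le)]; ring)]
    apply intervalIntegral.integral_mono_on hab.le
    · exact (hi a b ha hab.le).continuousOn_mul (hθc.pow 2).continuousOn
    · exact hi a b ha hab.le
    · intro u hu
      apply mul_le_of_le_one_left (h0 u (by linarith [hu.1]))
      exact pow_le_one₀ (p u) (l u)

section
variable {F : ℝ → Finset PC.Z} {CR : ℝ} {γ w : PC.Z → ℝ} [Countable PC.Z]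

theorem lim_mV_of_sharp (I : Inputs γ w F CR) {a₀ : ℝ} (ha₀ : 1 / 2 < a₀)
    (hP : PoissonInput γ w a₀ (PC.arch a₀)) (h : ∀ χ, Nice χ → Sharp γ w (cosT χ) (ell χ)) {a b : ℝ}
    (ha : 0 < a) (hab : a < b) : Lim mV a b := by
  apply lim_of_nice dns_mV _ ha hab
  intro θ nθ c hc hz
  have h1 := UT_of_sharp I ha₀ hP h nθ hc hz
  apply h1.congr'
  filter_upwards [eventually_gt_atTop 1] with T hT
  exact UT_eq _ (Real.log_pos hT)

end

end Pool.Agent.H6
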