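import Mathlib
import Pool.Agent.H6.F1
import Pool.Agent.H6.VW

open MeasureTheory Set Filter Topology
open scoped Real Interval ContDiff

namespace Pool.Agent.H6

theorem lim_cont' {m : ℝ → ℝ → ℝ} (hm : Dns m) (hlim : ∀ a b, 0 < a → a < b → Lim m a b) {g : ℝ → ℝ} (hg : Continuous g)
    {a b M : ℝ} (ha : 0 < a) (hab : a < b) (hgM : ∀ u, |g u| ≤ M) :
    Tendsto (fun T => ∫ u in a..b, g u * m T u) atTop (𝓝 (∫ u in a..b, g u * min u 1)) := by
  have hmin : Continuous fun u : ℝ => min u 1 := by fun_prop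
  have h1 := lim_cont hm hlim (g := fun u => g u + M) (by fun_prop) (M := 2 * M) ha hab
    (fun u _ => by have := (abs_le.mp (hgM u)).1; linarith) (fun u _ => by have := (abs_le.mp (hgM u)).2; linarith)
  have h2 := (hlim a b ha hab).const_mul M
  have h3 := h1.sub h2
  have e : (∫ u in a..b, (g u + M) * min u 1) - M * (∫ u in a..b, min u 1) = ∫ u in a..b, g u * min u 1 := by
    have hgm : Continuous fun u => (g u + M) * min u 1 := by fun_prop
    rw [← intervalIntegral.integral_const_mul, ← intervalIntegral.integral_sub (hgm.intervalIntegrable _ _)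
      ((hmin.intervalIntegrable _ _).const_mul _)]
    congr 1
    ext u
    ring
  rw [e] at h3
  apply h3.congr'
  filter_upwards [hm.int] with T hi
  have i1 : IntervalIntegrable (fun u => (g u + M) * m T u) volume a b :=
    (hi _ _ ha hab.le).continuousOn_mul (hg.add continuous_const).continuousOn
  rw [← intervalIntegral.integral_const_mul, ← intervalIntegral.integral_sub i1 ((hi _ _ ha hab.le).const_mul _)]
  congr 1
  ext u
  ring

section
variable {ι : Type*} [Countable ι] {γ w : ι → ℝ} {F : ℝ → Finset ι} {CR : ℝ}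

/-- Montgomery's theorem in terms of pair sums. -/
theorem SF_inside (I : Inputs γ w F CR) {g : ℝ → ℝ} (ng : Nice g) {s : ℝ} (hs0 : 0 < s) (hs1 : s < 1)
    (hs : ∀ ξ, s ≤ |ξ| → g ξ = 0) :
    Tendsto (fun T => (1 / PC.norm T) * PS γ w (F T) (Real.log T) (cosT g)) atTop (𝓝 (g 0 + ∫ x, |x| * g x)) := by
  have h := I.montgomery (ng.reg hs).test hs0 hs1
  simp_rw [ng.inv] at h
  apply h.congr
  intro T
  unfold PS
  congr 1
  apply Finset.sum_congr rfl
  intro i _
  apply Finset.sum_congr rfl
  intro j _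
  rw [mul_comm (Real.log T)]

omit [Countable ι] in
lemma integral_FF_half {g : ℝ → ℝ} (hge : ∀ x, g (-x) = g x) (T : ℝ) :
    ∫ α, g α * FF γ w F T α = 2 * ∫ α in Ioi 0, g α * FF γ w F T α := by
  apply integral_even_eq (f := fun α => g α * FF γ w F T α)
  intro y
  rw [hge, FF_even]

omit [Countable ι] in
lemma integrable_FF {g : ℝ → ℝ} (ng : Nice g) (T : ℝ) : Integrable (fun α => g α * FF γ w F T α) := by
  have := ng.continuous
  have h2 := continuous_FF (γ := γ) (w := w) (F := F) T
  apply Continuous.integrable_of_hasCompactSupport (by fun_prop)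
  exact ng.hasCompactSupport.mul_right

/-- Windows of the form factor determine the smooth pair sums. -/
theorem SF_of_F (I : Inputs γ w F CR) (hlim : ∀ a b, 0 < a → a < b → Lim (FF γ w F) a b) {g : ℝ → ℝ} (ng : Nice g) :
    SFlim γ w F g := by
  obtain ⟨p, q, hp, hq, hpe, hqe, hpq, hp1, hq0, hp0, hq1⟩ := exists_pq (a := 1 / 4) (b := 1 / 2) (by norm_num) (by norm_num)
  have hgc := ng.continuous
  have hpc := hp.continuous
  have hqc := hq.continuous
  obtain ⟨s, hs0, hs⟩ := ng.supp
  obtain ⟨B, hB0, hB⟩ := ng.bounded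
  have hp2 : ContDiff ℝ ∞ (fun x => p x ^ 2) := hp.pow 2
  have hq2 : ContDiff ℝ ∞ (fun x => q x ^ 2) := hq.pow 2
  have nP := ng.mul hp2 (fun x => by simp only [hpe])
  have nQ := ng.mul hq2 (fun x => by simp only [hqe])
  set b' := max s 1 + 1 with hb'
  have hsb' : s ≤ b' := by rw [hb']; linarith [le_max_left s 1]
  have hbb' : 1 < b' := by rw [hb']; linarith [le_max_right s 1]
  have hbud := budget (G := g) (P := fun x => p x ^ 2) (Q := fun x => q x ^ 2) hgc (by fun_prop)
    (by fun_prop) ng.even (fun x => by simp only [hqe]) hpq (b0 := 1 / 2) (c := 1 / 4) (S := s) (by norm_num)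
    (fun x hx => by simp only [hp0 x hx]; ring) (fun x hx => by simp only [hq0 x hx]; ring) (by positivity)
    hs (b' := b') (by linarith) hsb'
  have hcont := lim_cont' dns_FF hlim (g := fun u => g u * q u ^ 2) (by fun_prop) (a := 1 / 4) (b := b') (M := B)
    (by norm_num) (by linarith) (fun u => by
      have h2 : q u ^ 2 ≤ 1 := by
        have := hpq u
        nlinarith [sq_nonneg (p u)]
      rw [abs_mul, abs_of_nonneg (sq_nonneg (q u))]
      calc |g u| * q u ^ 2 ≤ B * 1 := mul_le_mul (hB u) h2 (sq_nonneg _) hB0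
        _ = B := mul_one _)
  rw [hbud] at hcont
  have h1 := SF_inside I nP (s := 1 / 2) (by norm_num) (by norm_num) (fun ξ hξ => by rw [hp0 ξ hξ]; ring)
  have h2 := FF_sub_PS I nQ
  rw [hp1 0 (by norm_num), one_pow, mul_one] at h1
  have h3 := (h1.sub h2).add (hcont.const_mul 2)
  have e3 : g 0 + (∫ x, |x| * (g x * p x ^ 2)) - 0 + 2 * (((∫ x, g x) - ∫ x, |x| * (g x * p x ^ 2)) / 2 - (∫ x, g x * tri x) / 2)
      = g 0 + ∫ x, min |x| 1 * g x := by
    have i2 : Integrable (fun x => g x * tri x) := by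
      have := continuous_tri
      apply Continuous.integrable_of_hasCompactSupport (by fun_prop)
      exact hasCompactSupport_tri.mul_left
    have e4 : ∫ x, min |x| 1 * g x = (∫ x, g x) - ∫ x, g x * tri x := by
      rw [← integral_sub ng.integrable i2]
      congr 1
      ext x
      have ht : tri x = 1 - min |x| 1 := by
        unfold tri
        rcases le_total |x| 1 with h | h
        · rw [min_eq_left h, max_eq_right (by linarith)]
        · rw [min_eq_right h, max_eq_left (by linarith)]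
          ring
      rw [ht]
      ring
    rw [e4]
    ring
  rw [e3] at h3
  unfold SFlim
  apply h3.congr
  intro T
  have e5 : ∫ α, (g α * q α ^ 2) * FF γ w F T α = 2 * ∫ u in (1 / 4 : ℝ)..b', (g u * q u ^ 2) * FF γ w F T u := by
    rw [integral_FF_half (fun x => by simp only [ng.even, hqe])]
    congr 1
    apply setIntegral_Ioi_eq_interval (by norm_num) (by linarith)
    · intro u hu0 hu
      rw [hq0 u (by rw [abs_of_pos hu0]; exact hu)]; ring
    · intro u hu
      rw [hs u (by rw [abs_of_pos (by linarith)]; linarith)]; ring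
  have e6 : PS γ w (F T) (Real.log T) (cosT g) = PS γ w (F T) (Real.log T) (cosT fun x => g x * p x ^ 2)
      + PS γ w (F T) (Real.log T) (cosT fun x => g x * q x ^ 2) := by
    rw [← PS_add]
    congr 1
    ext u
    rw [← cosT_add nP.integrable nQ.integrable]
    congr 1
    ext x
    rw [← mul_add, hpq, mul_one]
  rw [e5, e6]
  ring

/-- Smooth pair sums determine the windows of the form factor. -/
theorem F_of_SF (I : Inputs γ w F CR) (h : ∀ g, Nice g → SFlim γ w F g) {a b : ℝ} (ha : 0 < a) (hab : a < b) :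
    Lim (FF γ w F) a b := by
  apply lim_of_nice dns_FF _ ha hab
  intro θ nθ c hc hz
  have h1 := (FF_sub_PS I nθ.sq).add (h _ nθ.sq)
  rw [zero_add, hz 0 (by simpa using hc.le)] at h1
  have h2 := h1.const_mul (1 / 2)
  have e : (1 / 2) * ((0 : ℝ) ^ 2 + ∫ x, min |x| 1 * θ x ^ 2) = ∫ u in Ioi 0, min u 1 * θ u ^ 2 := by
    rw [integral_even_eq (f := fun x => min |x| 1 * θ x ^ 2) (fun x => by rw [abs_neg, nθ.even])]
    have e2 : ∫ y in Ioi 0, min |y| 1 * θ y ^ 2 = ∫ y in Ioi 0, min y 1 * θ y ^ 2 := by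
      apply setIntegral_congr_fun measurableSet_Ioi
      intro y hy
      simp only
      rw [abs_of_pos (show (0 : ℝ) < y from hy)]
    rw [e2]
    ring
  rw [e] at h2
  apply h2.congr
  intro T
  rw [integral_FF_half (fun x => by simp only [nθ.even])]
  ring

/-- Lower bound for positive definite test functions. -/
lemma PS_lower (hw1 : ∀ i, 1 ≤ w i) {φ : ℝ → ℝ} (hφ0 : ∀ u, 0 ≤ φ u) (G : Finset ι) (L : ℝ) :
    φ 0 * ∑ i ∈ G, w i ≤ PS γ w G L φ := by
  have hw0 : ∀ i, 0 ≤ w i := fun i => by linarith [hw1 i]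
  unfold PS
  rw [Finset.mul_sum]
  apply Finset.sum_le_sum
  intro i hi
  have h1 : ∀ j ∈ G, 0 ≤ w i * w j * φ (L * (γ i - γ j) / (2 * π)) := fun j _ =>
    mul_nonneg (mul_nonneg (hw0 i) (hw0 j)) (hφ0 _)
  refine le_trans ?_ (Finset.single_le_sum h1 hi)
  rw [sub_self, mul_zero, zero_div]
  have h2 : w i ≤ w i * w i := by nlinarith [hw1 i]
  calc φ 0 * w i ≤ φ 0 * (w i * w i) := mul_le_mul_of_nonneg_left h2 (hφ0 0)
    _ = _ := by ring

/-- **Rigidity for the form factor.** -/
theorem rigidity_F (I : Inputs γ w F CR) (hw1 : ∀ i, 1 ≤ w i)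
    (hU : ∀ a b, 0 < a → a < b → UB (FF γ w F) a b) {a b : ℝ} (ha : 0 < a) (hab : a < b) :
    LB (FF γ w F) a b := by
  apply rigidity_abs dns_FF hU _ ha hab
  intro a b ha hab
  refine ⟨1 / 4, by norm_num, fun δ hδ => ?_⟩
  set b0 := min a (1 / 2) with hb0
  have hb0pos : 0 < b0 := by rw [hb0]; positivity
  have hb0a : b0 ≤ a := min_le_left _ _
  have hb01 : b0 < 1 := lt_of_le_of_lt (min_le_right _ _) (by norm_num)
  obtain ⟨p, q, hp, hq, hpe, hqe, hpq, hp1, hq0, hp0, hq1⟩ := exists_pq (a := b0 / 2) (b := b0) (by positivity) (by linarith)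
  set B := max b 1 with hB
  have hB0 : 0 < B := by rw [hB]; positivity
  set δ' := min (1 / 4) (δ / 3) with hδ'
  have hδ'0 : 0 < δ' := by rw [hδ']; positivity
  have hδ'1 : δ' ≤ 1 / 4 := min_le_left _ _
  have hδ'2 : δ' ≤ δ / 3 := min_le_right _ _
  obtain ⟨χ, nχ, hpos, hχ0, hχ1⟩ := exists_wide B hB0 hδ'0
  have hχc := nχ.continuous
  have hpc := hp.continuous
  have hqc := hq.continuous
  obtain ⟨s, hs0, hs⟩ := nχ.supp
  have hsq : ∀ x, |x| ≤ B → |χ x ^ 2 - 1| ≤ 3 * δ' := by
    intro x hx
    have h1 := hχ1 x hx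
    have h2 : |χ x + 1| ≤ 3 := by
      rw [abs_le] at h1 ⊢
      constructor <;> linarith
    calc |χ x ^ 2 - 1| = |χ x + 1| * |χ x - 1| := by rw [← abs_mul]; congr 1; ring
      _ ≤ 3 * δ' := mul_le_mul h2 h1 (abs_nonneg _) (by norm_num)
  set b' := max s b + 1 with hb'
  have hsb' : s ≤ b' := by rw [hb']; linarith [le_max_left s b]
  have hbb' : b < b' := by rw [hb']; linarith [le_max_right s b]
  refine ⟨fun u => (χ u * q u) ^ 2, b0 / 2, b', by fun_prop, by positivity, by linarith, hbb', fun u _ => sq_nonneg _,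
    fun u hu => ?_, ?_⟩
  · have hu0 : 0 < u := by linarith [hu.1]
    simp only
    rw [hq1 u (by rw [abs_of_pos hu0]; linarith [hu.1]), mul_one]
    have h1 := hsq u (by rw [abs_of_pos hu0]; exact hu.2.trans (le_max_left _ _))
    rw [abs_le] at h1
    linarith [h1.1]
  · have nP := (nχ.mul hp hpe).sq
    have nQ := (nχ.mul hq hqe).sq
    have hφ := (nχ.reg hs).test
    -- the autocorrelation is nonnegative
    have hac : ∀ y, cosT (fun x => χ x ^ 2) y = ∫ u, cosT χ u * cosT χ (u + y) := by
      intro y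
      rw [hφ.conv_general hχc nχ.integrable y]
      congr 1
      ext ξ
      rw [nχ.inv, pow_two]
    have hac0 : ∀ y, 0 ≤ cosT (fun x => χ x ^ 2) y := by
      intro y
      rw [hac]
      exact integral_nonneg fun u => mul_nonneg (hpos _) (hpos _)
    have hac1 : cosT (fun x => χ x ^ 2) 0 = ∫ x, χ x ^ 2 := by unfold cosT; simp
    have h1 := SF_inside I nP hb0pos hb01 (fun ξ hξ => by rw [hp0 ξ hξ]; ring)
    have h2 := FF_sub_PS I nQ
    have hcount := I.count
    have hlow := (hcount.const_mul (∫ x, χ x ^ 2))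
    rw [mul_one] at hlow
    simp only [hp1 0 (by simp; positivity), hχ0, mul_one, one_pow] at h1
    have hlim := (((hlow.sub h1).add h2).const_mul (1 / 2))
    rw [add_zero] at hlim
    have hbud := budget (G := fun x => χ x ^ 2) (P := fun x => p x ^ 2) (Q := fun x => q x ^ 2) (by fun_prop) (by fun_prop)
      (by fun_prop) (fun x => by simp only [nχ.even]) (fun x => by simp only [hqe]) hpq (b0 := b0) (c := b0 / 2) (S := s) hb01.le
      (fun x hx => by simp only [hp0 x hx]; ring) (fun x hx => by simp only [hq0 x hx]; ring) (by positivity)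
      (fun x hx => by simp only [hs x hx]; ring) (b' := b') (by linarith) hsb'
    have htri := (tri_int_ge (G := fun x => χ x ^ 2) (by fun_prop) (δ := 3 * δ')
      (fun x hx => hsq x (hx.trans (le_max_right _ _)))).2
    have e1 : ∀ u, (χ u * q u) ^ 2 * min u 1 = χ u ^ 2 * q u ^ 2 * min u 1 := fun u => by ring
    have e2 : ∀ x : ℝ, |x| * (χ x * p x) ^ 2 = |x| * (χ x ^ 2 * p x ^ 2) := fun x => by ring
    simp_rw [e2] at hlim
    have hgap : (∫ u in (b0 / 2)..b', (χ u * q u) ^ 2 * min u 1) - δ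
        < 1 / 2 * ((∫ ξ, χ ξ ^ 2) - (1 + ∫ x, |x| * (χ x ^ 2 * p x ^ 2))) := by
      simp_rw [e1]
      rw [hbud]
      nlinarith
    filter_upwards [hlim.eventually (lt_mem_nhds hgap), eventually_gt_atTop 1] with T h3 hT
    have hn := norm_pos hT
    have h4 : ∫ α, (χ α * q α) ^ 2 * FF γ w F T α = 2 * ∫ u in (b0 / 2)..b', (χ u * q u) ^ 2 * FF γ w F T u := by
      rw [integral_FF_half (fun x => by simp only [nχ.even, hqe])]
      congr 1
      apply setIntegral_Ioi_eq_interval (by positivity) (by linarith)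
      · intro u hu0 hu
        rw [hq0 u (by rw [abs_of_pos hu0]; exact hu)]; ring
      · intro u hu
        rw [hs u (by rw [abs_of_pos (by linarith)]; linarith)]; ring
    have e6 : PS γ w (F T) (Real.log T) (cosT fun x => χ x ^ 2) = PS γ w (F T) (Real.log T) (cosT fun x => (χ x * p x) ^ 2)
        + PS γ w (F T) (Real.log T) (cosT fun x => (χ x * q x) ^ 2) := by
      rw [← PS_add]
      congr 1
      ext u
      rw [← cosT_add nP.integrable nQ.integrable]
      congr 1
      ext x
      rw [mul_pow, mul_pow, ← mul_add, hpq, mul_one]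
    have h5 := PS_lower (γ := γ) hw1 hac0 (F T) (Real.log T)
    rw [hac1, e6] at h5
    have h6 := mul_le_mul_of_nonneg_left h5 (by positivity : 0 ≤ 1 / PC.norm T)
    rw [h4] at h3
    nlinarith

end

end Pool.Agent.H6
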