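import Mathlib
import Pool.Agent.H6.F2

open MeasureTheory Set Filter Topology
open scoped Real Interval ContDiff

namespace Pool.Agent.H6

theorem lim_of_nice_supp {m : ℝ → ℝ → ℝ} (hm : Dns m) {s : ℝ}
    (H : ∀ θ, Nice θ → (∀ ξ, s ≤ |ξ| → θ ξ = 0) → ∀ c, 0 < c → (∀ ξ, |ξ| ≤ c → θ ξ = 0) →
      Tendsto (fun T => ∫ u in Ioi 0, θ u ^ 2 * m T u) atTop (𝓝 (∫ u in Ioi 0, min u 1 * θ u ^ 2)))
    {a b : ℝ} (ha : 0 < a) (hab : a < b) (hbs : b < s) : Lim m a b := by
  have hmin : Continuous fun u : ℝ => min u 1 := by fun_prop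
  rw [lim_iff]
  constructor
  · intro ε hε
    have hsb : 0 < s - b := by linarith
    set δ := min (min (a / 2) (ε / 4)) (s - b) with hδ
    have hδ0 : 0 < δ := by rw [hδ]; positivity
    have hδa : δ ≤ a / 2 := (min_le_left _ _).trans (min_le_left _ _)
    have hδε : δ ≤ ε / 4 := (min_le_left _ _).trans (min_le_right _ _)
    have hδs : δ ≤ s - b := min_le_right _ _
    obtain ⟨θ, nθ, z1, z2, o, p, l⟩ := exists_annulus (a := a - δ) (b := a) (c := b) (d := b + δ)
      (by linarith) (by linarith) hab.le (by linarith)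
    have hθc := nθ.continuous
    have h1 := H θ nθ (fun ξ hξ => z1 ξ (by linarith)) (a - δ) (by linarith) z2
    have e1 : ∫ u in Ioi 0, min u 1 * θ u ^ 2 = ∫ u in (a - δ)..(b + δ), min u 1 * θ u ^ 2 :=
      setIntegral_Ioi_eq_interval (by linarith) (by linarith)
        (fun u hu0 hu => by rw [z2 u (by rw [abs_of_pos hu0]; exact hu)]; ring)
        (fun u hu => by rw [z1 u (by rw [abs_of_pos (by linarith)]; exact hu.le)]; ring)
    have hle : ∫ u in (a - δ)..(b + δ), min u 1 * θ u ^ 2 ≤ (∫ u in a..b, min u 1) + 2 * δ := by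
      have h2 : ∫ u in (a - δ)..(b + δ), min u 1 * θ u ^ 2 ≤ ∫ u in (a - δ)..(b + δ), min u 1 := by
        apply intervalIntegral.integral_mono_on (by linarith)
        · exact (hmin.mul (hθc.pow 2)).intervalIntegrable _ _
        · exact hmin.intervalIntegrable _ _
        · intro u hu
          apply mul_le_of_le_one_right (min_nonneg_of (by linarith [hu.1]))
          exact pow_le_one₀ (p u) (l u)
      have h3 : ∫ u in (a - δ)..(b + δ), min u 1
          = (∫ u in (a - δ)..a, min u 1) + ((∫ u in a..b, min u 1) + ∫ u in b..(b + δ), min u 1) := by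
        rw [intervalIntegral.integral_add_adjacent_intervals (hmin.intervalIntegrable _ _) (hmin.intervalIntegrable _ _),
          intervalIntegral.integral_add_adjacent_intervals (hmin.intervalIntegrable _ _) (hmin.intervalIntegrable _ _)]
      have h4 := int_min_le (show a - δ ≤ a by linarith)
      have h5 := int_min_le (show b ≤ b + δ by linarith)
      linarith
    filter_upwards [h1.eventually (gt_mem_nhds (show (∫ u in Ioi 0, min u 1 * θ u ^ 2) < (∫ u in a..b, min u 1) + ε by
      rw [e1]; linarith)), hm.nonneg, hm.int] with T hT h0 hi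
    refine le_trans ?_ hT.le
    rw [setIntegral_Ioi_eq_interval (a := a - δ) (b := b + δ) (by linarith) (by linarith)
        (fun u hu0 hu => by rw [z2 u (by rw [abs_of_pos hu0]; exact hu)]; ring)
        (fun u hu => by rw [z1 u (by rw [abs_of_pos (by linarith)]; exact hu.le)]; ring)]
    have i0 : ∀ x y, 0 < x → x ≤ y → IntervalIntegrable (fun u => θ u ^ 2 * m T u) volume x y := fun x y hx hxy =>
      (hi x y hx hxy).continuousOn_mul (hθc.pow 2).continuousOn
    have i1 := i0 (a - δ) a (by linarith) (by linarith)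
    have i2 := i0 a b ha hab.le
    have i3 := i0 b (b + δ) (by linarith) (by linarith)
    rw [← intervalIntegral.integral_add_adjacent_intervals i1 (i2.trans i3),
      ← intervalIntegral.integral_add_adjacent_intervals i2 i3]
    have j1 : 0 ≤ ∫ u in (a - δ)..a, θ u ^ 2 * m T u := intervalIntegral.integral_nonneg (by linarith) fun u hu =>
      mul_nonneg (sq_nonneg _) (h0 u (by linarith [hu.1]))
    have j3 : 0 ≤ ∫ u in b..(b + δ), θ u ^ 2 * m T u := intervalIntegral.integral_nonneg (by linarith) fun u hu =>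
      mul_nonneg (sq_nonneg _) (h0 u (by linarith [hu.1]))
    have j2 : ∫ u in a..b, θ u ^ 2 * m T u = ∫ u in a..b, m T u := by
      apply intervalIntegral.integral_congr
      intro u hu
      rw [uIcc_of_le hab.le] at hu
      have hu0 : 0 < u := by linarith [hu.1]
      simp only
      rw [o u (by rw [abs_of_pos hu0]; exact hu.1) (by rw [abs_of_pos hu0]; exact hu.2), one_pow, one_mul]
    rw [j2]
    linarith
  · intro ε hε
    set δ := min ((b - a) / 4) (ε / 4) with hδ
    have hba : 0 < b - a := by linarith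
    have hδ0 : 0 < δ := by rw [hδ]; positivity
    have hδa : δ ≤ (b - a) / 4 := min_le_left _ _
    have hδε : δ ≤ ε / 4 := min_le_right _ _
    obtain ⟨θ, nθ, z1, z2, o, p, l⟩ := exists_annulus (a := a) (b := a + δ) (c := b - δ) (d := b)
      ha (by linarith) (by linarith) (by linarith)
    have hθc := nθ.continuous
    have h1 := H θ nθ (fun ξ hξ => z1 ξ (by linarith)) a ha z2
    have e1 : ∫ u in Ioi 0, min u 1 * θ u ^ 2 = ∫ u in a..b, min u 1 * θ u ^ 2 :=
      setIntegral_Ioi_eq_interval ha hab.le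
        (fun u hu0 hu => by rw [z2 u (by rw [abs_of_pos hu0]; exact hu)]; ring)
        (fun u hu => by rw [z1 u (by rw [abs_of_pos (by linarith)]; exact hu.le)]; ring)
    have hmt : Continuous fun u => min u 1 * θ u ^ 2 := hmin.mul (hθc.pow 2)
    have hge : (∫ u in a..b, min u 1) - 2 * δ ≤ ∫ u in a..b, min u 1 * θ u ^ 2 := by
      have h3 : ∫ u in a..b, min u 1
          = (∫ u in a..(a + δ), min u 1) + ((∫ u in (a + δ)..(b - δ), min u 1) + ∫ u in (b - δ)..b, min u 1) := by
        rw [intervalIntegral.integral_add_adjacent_intervals (hmin.intervalIntegrable _ _) (hmin.intervalIntegrable _ _),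
          intervalIntegral.integral_add_adjacent_intervals (hmin.intervalIntegrable _ _) (hmin.intervalIntegrable _ _)]
      have h3' : ∫ u in a..b, min u 1 * θ u ^ 2
          = (∫ u in a..(a + δ), min u 1 * θ u ^ 2) + ((∫ u in (a + δ)..(b - δ), min u 1 * θ u ^ 2) + ∫ u in (b - δ)..b, min u 1 * θ u ^ 2) := by
        rw [intervalIntegral.integral_add_adjacent_intervals (hmt.intervalIntegrable _ _) (hmt.intervalIntegrable _ _),
          intervalIntegral.integral_add_adjacent_intervals (hmt.intervalIntegrable _ _) (hmt.intervalIntegrable _ _)]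
      have h4 := int_min_le (show a ≤ a + δ by linarith)
      have h5 := int_min_le (show b - δ ≤ b by linarith)
      have h6 : 0 ≤ ∫ u in a..(a + δ), min u 1 * θ u ^ 2 := intervalIntegral.integral_nonneg (by linarith) fun u hu =>
        mul_nonneg (min_nonneg_of (by linarith [hu.1])) (sq_nonneg _)
      have h7 : 0 ≤ ∫ u in (b - δ)..b, min u 1 * θ u ^ 2 := intervalIntegral.integral_nonneg (by linarith) fun u hu =>
        mul_nonneg (min_nonneg_of (by linarith [hu.1])) (sq_nonneg _)
      have h8 : ∫ u in (a + δ)..(b - δ), min u 1 * θ u ^ 2 = ∫ u in (a + δ)..(b - δ), min u 1 := by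
        apply intervalIntegral.integral_congr
        intro u hu
        rw [uIcc_of_le (by linarith)] at hu
        have hu0 : 0 < u := by linarith [hu.1]
        simp only
        rw [o u (by rw [abs_of_pos hu0]; exact hu.1) (by rw [abs_of_pos hu0]; exact hu.2), one_pow, mul_one]
      linarith
    filter_upwards [h1.eventually (lt_mem_nhds (show (∫ u in a..b, min u 1) - ε < (∫ u in Ioi 0, min u 1 * θ u ^ 2) by
      rw [e1]; linarith)), hm.nonneg, hm.int] with T hT h0 hi
    refine hT.le.trans ?_
    rw [setIntegral_Ioi_eq_interval (a := a) (b := b) ha hab.le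
        (fun u hu0 hu => by rw [z2 u (by rw [abs_of_pos hu0]; exact hu)]; ring)
        (fun u hu => by rw [z1 u (by rw [abs_of_pos (by linarith)]; exact hu.le)]; ring)]
    apply intervalIntegral.integral_mono_on hab.le
    · exact (hi a b ha hab.le).continuousOn_mul (hθc.pow 2).continuousOn
    · exact hi a b ha hab.le
    · intro u hu
      apply mul_le_of_le_one_left (h0 u (by linarith [hu.1]))
      exact pow_le_one₀ (p u) (l u)


lemma half_integral_inside {θ : ℝ → ℝ} (nθ : Nice θ) {s : ℝ} (hs1 : s < 1) (hs : ∀ ξ, s ≤ |ξ| → θ ξ = 0) :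
    (∫ ξ, |ξ| * θ ξ ^ 2) / 2 = ∫ u in Ioi 0, min u 1 * θ u ^ 2 := by
  rw [integral_even_eq (f := fun x => |x| * θ x ^ 2) (fun x => by rw [abs_neg, nθ.even])]
  have e2 : ∫ y in Ioi 0, |y| * θ y ^ 2 = ∫ y in Ioi 0, min y 1 * θ y ^ 2 := by
    apply setIntegral_congr_fun measurableSet_Ioi
    intro y hy
    have hy0 : (0 : ℝ) < y := hy
    simp only
    rw [abs_of_pos hy0]
    rcases le_total y 1 with h | h
    · rw [min_eq_left h]
    · rw [hs y (by rw [abs_of_pos hy0]; linarith)]
      ring
  rw [e2]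
  ring

section
variable {ι : Type*} [Countable ι] {γ w : ι → ℝ} {F : ℝ → Finset ι} {CR : ℝ}

/-- Montgomery's theorem for windows of the form factor. -/
theorem lim_FF_inside (I : Inputs γ w F CR) {a b : ℝ} (ha : 0 < a) (hab : a < b) (hb : b < 1) :
    Lim (FF γ w F) a b := by
  apply lim_of_nice_supp dns_FF (s := (1 + b) / 2) _ ha hab (by linarith)
  intro θ nθ hs c hc hz
  have h1 := (FF_sub_PS I nθ.sq).add (SF_inside I nθ.sq (s := (1 + b) / 2) (by linarith) (by linarith)
    (fun ξ hξ => by rw [hs ξ hξ]; ring))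
  rw [zero_add, hz 0 (by simpa using hc.le)] at h1
  have h2 := h1.const_mul (1 / 2)
  have e := half_integral_inside nθ (s := (1 + b) / 2) (by linarith) hs
  have e' : (1 / 2) * ((0 : ℝ) ^ 2 + ∫ x, |x| * θ x ^ 2) = ∫ u in Ioi 0, min u 1 * θ u ^ 2 := by
    rw [← e]; ring
  rw [e'] at h2
  apply h2.congr
  intro T
  rw [integral_FF_half (fun x => by simp only [nθ.even])]
  ring

end

section
variable {F : ℝ → Finset PC.Z} {CR : ℝ} {γ w : PC.Z → ℝ} [Countable PC.Z]

/-- The variance of primes for windows below `1`. -/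
theorem lim_mV_inside (I : Inputs γ w F CR) {a₀ : ℝ} (ha₀ : 1 / 2 < a₀)
    (hP : PoissonInput γ w a₀ (PC.arch a₀)) {a b : ℝ} (ha : 0 < a) (hab : a < b) (hb : b < 1) : Lim mV a b := by
  apply lim_of_nice_supp dns_mV (s := (1 + b) / 2) _ ha hab (by linarith)
  intro θ nθ hs c hc hz
  have h1 := (bridge I ha₀ hP nθ hc hz).add (MV_inside I ha₀ hP nθ (s := (1 + b) / 2) (by linarith) (by linarith) hs)
  rw [zero_add, hz 0 (by simpa using hc.le)] at h1
  have e := half_integral_inside nθ (s := (1 + b) / 2) (by linarith) hs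
  have e' : ((0 : ℝ) ^ 2 + ∫ x, |x| * θ x ^ 2) / 2 = ∫ u in Ioi 0, min u 1 * θ u ^ 2 := by
    rw [← e]; ring
  rw [e'] at h1
  apply h1.congr'
  filter_upwards [eventually_gt_atTop 1] with T hT
  rw [← UT_eq _ (Real.log_pos hT)]
  ring

end

/-- Upper bounds are only needed for windows beyond some `a₀ < 1`. -/
theorem ub_all {m : ℝ → ℝ → ℝ} (hm : Dns m) (hin : ∀ a b, 0 < a → a < b → b < 1 → Lim m a b) {a₀ : ℝ} (ha₀ : a₀ < 1)
    (hU : ∀ a b, a₀ < a → 0 < a → a < b → UB m a b) {a b : ℝ} (ha : 0 < a) (hab : a < b) : UB m a b := by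
  have hmin : Continuous fun u : ℝ => min u 1 := by fun_prop
  rcases lt_or_ge a₀ a with h | h
  · exact hU a b h ha hab
  rcases lt_or_ge b 1 with h1 | h1
  · exact (lim_iff.mp (hin a b ha hab h1)).1
  set c := (a₀ + 1) / 2 with hc
  have hc1 : a < c := by rw [hc]; linarith
  have hc2 : c < 1 := by rw [hc]; linarith
  have hc3 : a₀ < c := by rw [hc]; linarith
  have hc0 : 0 < c := by linarith
  intro ε hε
  filter_upwards [(lim_iff.mp (hin a c ha hc1 hc2)).1 (ε / 2) (by positivity),
    hU c b hc3 hc0 (by linarith) (ε / 2) (by positivity), hm.int] with T h2 h3 hi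
  rw [← intervalIntegral.integral_add_adjacent_intervals (hi a c ha hc1.le) (hi c b hc0 (by linarith)),
    ← intervalIntegral.integral_add_adjacent_intervals (hmin.intervalIntegrable a c) (hmin.intervalIntegrable c b)]
  linarith

/-- Lower bounds are only needed for windows beyond some `a₀ < 1`. -/
theorem lb_all {m : ℝ → ℝ → ℝ} (hm : Dns m) (hin : ∀ a b, 0 < a → a < b → b < 1 → Lim m a b) {a₀ : ℝ} (ha₀ : a₀ < 1)
    (hU : ∀ a b, a₀ < a → 0 < a → a < b → LB m a b) {a b : ℝ} (ha : 0 < a) (hab : a < b) : LB m a b := by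
  have hmin : Continuous fun u : ℝ => min u 1 := by fun_prop
  rcases lt_or_ge a₀ a with h | h
  · exact hU a b h ha hab
  rcases lt_or_ge b 1 with h1 | h1
  · exact (lim_iff.mp (hin a b ha hab h1)).2
  set c := (a₀ + 1) / 2 with hc
  have hc1 : a < c := by rw [hc]; linarith
  have hc2 : c < 1 := by rw [hc]; linarith
  have hc3 : a₀ < c := by rw [hc]; linarith
  have hc0 : 0 < c := by linarith
  intro ε hε
  filter_upwards [(lim_iff.mp (hin a c ha hc1 hc2)).2 (ε / 2) (by positivity),
    hU c b hc3 hc0 (by linarith) (ε / 2) (by positivity), hm.int] with T h2 h3 hi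
  rw [← intervalIntegral.integral_add_adjacent_intervals (hi a c ha hc1.le) (hi c b hc0 (by linarith)),
    ← intervalIntegral.integral_add_adjacent_intervals (hmin.intervalIntegrable a c) (hmin.intervalIntegrable c b)]
  linarith

end Pool.Agent.H6
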