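import Mathlib
import Pool.Agent.H6.F2
import Pool.Agent.H6.Local
import Pool.Agent.H6.Windows

open MeasureTheory Set Filter Topology
open scoped Real Interval ContDiff

namespace Pool.Agent.H6

variable {m : ℝ → ℝ → ℝ}

theorem lb_cont (hm : Dns m) (hL : ∀ a b, 0 < a → a < b → LB m a b) {g : ℝ → ℝ} (hg : Continuous g) {a b : ℝ}
    (ha : 0 < a) (hab : a < b) (hg0 : ∀ u ∈ Icc a b, 0 ≤ g u) {ε : ℝ} (hε : 0 < ε) :
    ∀ᶠ T in atTop, (∫ u in a..b, g u * min u 1) - ε ≤ ∫ u in a..b, g u * m T u := by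
  have hmin : Continuous fun u : ℝ => min u 1 := by fun_prop
  set J := ∫ u in a..b, min u 1 with hJ
  have hJ0 : 0 ≤ J := by
    apply intervalIntegral.integral_nonneg hab.le
    intro u hu
    exact le_min (by linarith [hu.1]) zero_le_one
  set δ : ℝ := ε / (8 * (J + 1)) with hδ
  have hδ0 : 0 < δ := by positivity
  have huc := (isCompact_Icc (a := a) (b := b)).uniformContinuousOn_of_continuous hg.continuousOn
  rw [Metric.uniformContinuousOn_iff] at huc
  obtain ⟨η, hη0, hη⟩ := huc δ hδ0
  obtain ⟨N, hN⟩ := exists_nat_gt ((b - a) / η)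
  have hba : 0 < b - a := by linarith
  have hN0 : (0 : ℝ) < N := lt_trans (by positivity) hN
  set h := (b - a) / N with hh
  have hh0 : 0 < h := by positivity
  have hhη : h < η := by
    rw [hh, div_lt_iff₀ hN0]
    rw [div_lt_iff₀ hη0] at hN
    linarith
  set x : ℕ → ℝ := fun i => a + i * h with hx
  have hx0 : x 0 = a := by simp [hx]
  have hxN : x N = b := by simp only [hx, hh]; field_simp; ring
  have hxs : ∀ i, x (i + 1) = x i + h := by intro i; simp only [hx]; push_cast; ring
  have hxle : ∀ i, x i ≤ x (i + 1) := by intro i; rw [hxs]; linarith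
  have hxpos : ∀ i, a ≤ x i := by
    intro i
    simp only [hx]
    have : 0 ≤ (i : ℝ) * h := by positivity
    linarith
  have hxb : ∀ i, i ≤ N → x i ≤ b := by
    intro i hi
    rw [← hxN]
    simp only [hx]
    have : (i : ℝ) ≤ N := by exact_mod_cast hi
    have := mul_le_mul_of_nonneg_right this hh0.le
    linarith
  have hcell : ∀ i < N, ∀ u ∈ Icc (x i) (x (i + 1)), |g u - g (x i)| ≤ δ := by
    intro i hi u hu
    have hu1 : u ∈ Icc a b := ⟨(hxpos i).trans hu.1, hu.2.trans (hxb (i + 1) hi)⟩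
    have hu2 : x i ∈ Icc a b := ⟨hxpos i, hxb i hi.le⟩
    have := hη u hu1 (x i) hu2 (by
      rw [Real.dist_eq, abs_of_nonneg (by linarith [hu.1])]
      have := hu.2
      rw [hxs] at this
      linarith)
    rw [Real.dist_eq] at this
    exact this.le
  set G : ℕ → ℝ := fun i => max (g (x i) - δ) 0 with hG
  have hGpos : ∀ i, 0 ≤ G i := fun i => le_max_right _ _
  -- cell estimates
  have hev : ∀ᶠ T in atTop, ∀ i < N, (∫ u in (x i)..(x (i + 1)), min u 1) - ε / (4 * N * (G i + 1))
      ≤ ∫ u in (x i)..(x (i + 1)), m T u := by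
    have h1 : ∀ i ∈ Finset.range N, ∀ᶠ T in atTop, (∫ u in (x i)..(x (i + 1)), min u 1) - ε / (4 * N * (G i + 1))
      ≤ ∫ u in (x i)..(x (i + 1)), m T u := by
      intro i hi
      rw [Finset.mem_range] at hi
      have hGi := hGpos i
      exact hL (x i) (x (i + 1)) (by linarith [hxpos i]) (by rw [hxs]; linarith) _ (by positivity)
    have h2 := (Finset.eventually_all (l := atTop) (Finset.range N)).mpr h1
    filter_upwards [h2] with T hT i hi
    exact hT i (Finset.mem_range.mpr hi)
  filter_upwards [hm.nonneg, hm.int, hev] with T h0 hi hT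
  have hint : ∀ i, IntervalIntegrable (m T) volume (x i) (x (i + 1)) := fun i =>
    hi _ _ (by linarith [hxpos i]) (hxle i)
  have hgint : ∀ i, IntervalIntegrable (fun u => g u * m T u) volume (x i) (x (i + 1)) := fun i =>
    (hint i).continuousOn_mul hg.continuousOn
  have hgm : Continuous fun u => g u * min u 1 := hg.mul hmin
  have e1 : ∫ u in a..b, g u * m T u = ∑ i ∈ Finset.range N, ∫ u in (x i)..(x (i + 1)), g u * m T u := by
    rw [intervalIntegral.sum_integral_adjacent_intervals (fun k _ => hgint k), hx0, hxN]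
  have e2 : ∫ u in a..b, g u * min u 1 = ∑ i ∈ Finset.range N, ∫ u in (x i)..(x (i + 1)), g u * min u 1 := by
    rw [intervalIntegral.sum_integral_adjacent_intervals (fun k _ => hgm.intervalIntegrable _ _), hx0, hxN]
  have e3 : J = ∑ i ∈ Finset.range N, ∫ u in (x i)..(x (i + 1)), min u 1 := by
    rw [intervalIntegral.sum_integral_adjacent_intervals (fun k _ => hmin.intervalIntegrable _ _), hx0, hxN]
  have hstep : ∀ i ∈ Finset.range N, (∫ u in (x i)..(x (i + 1)), g u * min u 1)
      - (2 * δ * (∫ u in (x i)..(x (i + 1)), min u 1) + ε / (4 * N)) ≤ ∫ u in (x i)..(x (i + 1)), g u * m T u := by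
    intro i hi
    rw [Finset.mem_range] at hi
    have hGi := hGpos i
    have hgu : ∀ u ∈ Icc (x i) (x (i + 1)), G i ≤ g u := by
      intro u hu
      apply max_le
      · have := (abs_le.mp (hcell i hi u hu)).1
        linarith
      · exact hg0 u ⟨(hxpos i).trans hu.1, hu.2.trans (hxb (i + 1) hi)⟩
    have a1 : ∫ u in (x i)..(x (i + 1)), G i * m T u ≤ ∫ u in (x i)..(x (i + 1)), g u * m T u := by
      apply intervalIntegral.integral_mono_on (hxle i) ((hint i).const_mul _) (hgint i)
      intro u hu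
      exact mul_le_mul_of_nonneg_right (hgu u hu) (h0 u (by linarith [hxpos i, hu.1]))
    rw [intervalIntegral.integral_const_mul] at a1
    have a2 := mul_le_mul_of_nonneg_left (hT i hi) hGi
    have a3 : G i * (ε / (4 * N * (G i + 1))) ≤ ε / (4 * N) := by
      have : G i * (ε / (4 * N * (G i + 1))) = (ε / (4 * N)) * (G i / (G i + 1)) := by
        field_simp
      rw [this]
      apply mul_le_of_le_one_right (by positivity)
      rw [div_le_one (by positivity)]
      linarith
    have a4 : (∫ u in (x i)..(x (i + 1)), g u * min u 1) - 2 * δ * (∫ u in (x i)..(x (i + 1)), min u 1)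
        ≤ G i * ∫ u in (x i)..(x (i + 1)), min u 1 := by
      rw [← intervalIntegral.integral_const_mul, ← intervalIntegral.integral_const_mul,
        ← intervalIntegral.integral_sub (hgm.intervalIntegrable _ _) ((hmin.intervalIntegrable _ _).const_mul _)]
      apply intervalIntegral.integral_mono_on (hxle i)
      · exact (hgm.intervalIntegrable _ _).sub ((hmin.intervalIntegrable _ _).const_mul _)
      · exact (hmin.intervalIntegrable _ _).const_mul _
      · intro u hu
        have hu0 : 0 ≤ min u 1 := le_min (by linarith [hxpos i, hu.1]) zero_le_one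
        have h4 := (abs_le.mp (hcell i hi u hu)).2
        have h5 : g u - 2 * δ ≤ G i := le_trans (by linarith) (le_max_left _ _)
        calc g u * min u 1 - 2 * δ * min u 1 = (g u - 2 * δ) * min u 1 := by ring
          _ ≤ G i * min u 1 := mul_le_mul_of_nonneg_right h5 hu0
    nlinarith
  rw [e1]
  refine le_trans ?_ (Finset.sum_le_sum hstep)
  rw [Finset.sum_sub_distrib, Finset.sum_add_distrib, ← e2, ← Finset.mul_sum, ← e3, Finset.sum_const, Finset.card_range,
    nsmul_eq_mul]
  have f1 : (N : ℝ) * (ε / (4 * N)) = ε / 4 := by field_simp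
  have f2 : 2 * δ * J ≤ ε / 4 := by
    have : δ * (8 * (J + 1)) = ε := by rw [hδ]; field_simp
    nlinarith
  rw [f1]
  linarith

/-- **Abstract rigidity from below**: asymptotic lower bounds plus nearly sharp global upper bounds give the
upper bounds for all windows. -/
theorem rigidity_low_abs (hm : Dns m) (hL : ∀ a b, 0 < a → a < b → LB m a b)
    (hU : ∀ a b, 0 < a → a < b → ∃ c > 0, ∀ δ > 0, ∃ (g : ℝ → ℝ) (a' b' : ℝ), Continuous g ∧ 0 < a' ∧ a' < a ∧ b < b' ∧
      (∀ u ∈ Icc a' b', 0 ≤ g u) ∧ (∀ u ∈ Icc a b, c ≤ g u) ∧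
      ∀ᶠ T in atTop, ∫ u in a'..b', g u * m T u ≤ (∫ u in a'..b', g u * min u 1) + δ)
    {a b : ℝ} (ha : 0 < a) (hab : a < b) : UB m a b := by
  intro ε hε
  obtain ⟨c, hc, hUc⟩ := hU a b ha hab
  obtain ⟨g, a', b', hg, ha', haa', hbb', hg0, hgc, hev⟩ := hUc (c * ε / 4) (by positivity)
  have hmin : Continuous fun u : ℝ => min u 1 := by fun_prop
  have hgm : Continuous fun u => g u * min u 1 := hg.mul hmin
  have hε' : 0 < c * ε / 4 := by positivity
  have u1 := lb_cont hm hL hg ha' haa' (fun u hu => hg0 u ⟨hu.1, by linarith [hu.2]⟩) hε'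
  have u2 := lb_cont hm hL (g := fun u => g u - c) (by fun_prop) ha hab (fun u hu => by
    have := hgc u hu
    linarith) hε'
  have u3 := lb_cont hm hL hg (by linarith : 0 < b) hbb' (fun u hu => hg0 u ⟨by linarith [hu.1], hu.2⟩) hε'
  filter_upwards [hm.int, hev, u1, u2, u3] with T hi h1 h2 h3 h4
  have i1 : IntervalIntegrable (fun u => g u * m T u) volume a' a := (hi _ _ ha' haa'.le).continuousOn_mul hg.continuousOn
  have i2 : IntervalIntegrable (fun u => g u * m T u) volume a b := (hi _ _ ha hab.le).continuousOn_mul hg.continuousOn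
  have i3 : IntervalIntegrable (fun u => g u * m T u) volume b b' := (hi _ _ (by linarith) hbb'.le).continuousOn_mul hg.continuousOn
  have j1 := hgm.intervalIntegrable (μ := volume) a' a
  have j2 := hgm.intervalIntegrable (μ := volume) a b
  have j3 := hgm.intervalIntegrable (μ := volume) b b'
  rw [← intervalIntegral.integral_add_adjacent_intervals i1 (i2.trans i3),
    ← intervalIntegral.integral_add_adjacent_intervals i2 i3,
    ← intervalIntegral.integral_add_adjacent_intervals j1 (j2.trans j3),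
    ← intervalIntegral.integral_add_adjacent_intervals j2 j3] at h1
  have e1 : ∫ u in a..b, (g u - c) * m T u = (∫ u in a..b, g u * m T u) - c * ∫ u in a..b, m T u := by
    rw [← intervalIntegral.integral_const_mul, ← intervalIntegral.integral_sub i2 ((hi _ _ ha hab.le).const_mul _)]
    congr 1
    ext u
    ring
  have e2 : ∫ u in a..b, (g u - c) * min u 1 = (∫ u in a..b, g u * min u 1) - c * ∫ u in a..b, min u 1 := by
    rw [← intervalIntegral.integral_const_mul, ← intervalIntegral.integral_sub j2 ((hmin.intervalIntegrable _ _).const_mul _)]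
    congr 1
    ext u
    ring
  simp only [e1, e2] at h3
  have h5 : c * (∫ u in a..b, m T u) ≤ c * ((∫ u in a..b, min u 1) + ε) := by
    have e : c * ((∫ u in a..b, min u 1) + ε) = c * (∫ u in a..b, min u 1) + 4 * (c * ε / 4) := by ring
    rw [e]
    linarith
  exact le_of_mul_le_mul_left h5 hc

section
variable {ι : Type*} {γ w : ι → ℝ} {F : ℝ → Finset ι} {CR : ℝ}

/-- Weak repulsion: along some sequence of small `β`, the pairs at distance at most `β` mean
spacings, diagonal included, number at most `1 + o(β)` in the normalised count. -/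
def WeakRep (γ w : ι → ℝ) (F : ℝ → Finset ι) : Prop :=
  ∀ ρ > 0, ∃ β, 0 < β ∧ β < ρ ∧ ∀ᶠ T in atTop, PW γ w F T (-β) β ≤ 1 + ρ * β

lemma PS_mono (hw : ∀ i, 0 ≤ w i) {φ ψ : ℝ → ℝ} (h : ∀ u, φ u ≤ ψ u) (G : Finset ι) (L : ℝ) :
    PS γ w G L φ ≤ PS γ w G L ψ := by
  unfold PS
  apply Finset.sum_le_sum
  intro i _
  apply Finset.sum_le_sum
  intro j _
  exact mul_le_mul_of_nonneg_left (h _) (mul_nonneg (hw i) (hw j))

lemma SF_eq_PS (T : ℝ) (f : ℝ → ℝ) : SF γ w F T f = (1 / PC.norm T) * PS γ w (F T) (Real.log T) f := by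
  unfold SF PS
  congr 1
  apply Finset.sum_congr rfl
  intro i _
  apply Finset.sum_congr rfl
  intro j _
  rw [mul_comm (Real.log T)]

lemma PS_const_mul (c : ℝ) (φ : ℝ → ℝ) (G : Finset ι) (L : ℝ) :
    PS γ w G L (fun u => c * φ u) = c * PS γ w G L φ := by
  unfold PS
  rw [Finset.mul_sum]
  apply Finset.sum_congr rfl
  intro i _
  rw [Finset.mul_sum]
  apply Finset.sum_congr rfl
  intro j _
  ring

/-- Test functions adapted to weak repulsion. -/
theorem weak_PS [Countable ι] (I : Inputs γ w F CR) (hW : WeakRep γ w F) {e B : ℝ} (he : 0 < e) (hB : 0 < B) :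
    ∃ χ : ℝ → ℝ, Nice χ ∧ (∀ u, 0 ≤ cosT χ u) ∧ χ 0 = 1 ∧ (∀ x, |χ x| ≤ 1) ∧ (∀ x, |x| ≤ B → 1 / 2 ≤ χ x) ∧
      ∀ᶠ T in atTop, (1 / PC.norm T) * PS γ w (F T) (Real.log T) (cosT fun x => χ x ^ 2) ≤ (∫ x, χ x ^ 2) + e := by
  obtain ⟨C₀, c₀, hC₀, hc₀, hloc⟩ := exists_local
  have hM := I.montgomery testFn_Maj (by norm_num) (by norm_num)
  set M₀ := cosT Maj 0 + ∫ ξ, |ξ| * cosT Maj ξ with hM₀
  have hMb : ∀ᶠ T in atTop, SF γ w F T Maj ≤ |M₀| + 1 := by
    filter_upwards [hM.eventually (gt_mem_nhds (show M₀ < |M₀| + 1 by linarith [le_abs_self M₀]))] with T hT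
    exact hT.le
  set ρ := min (c₀ / B) (e / (2 * C₀)) with hρ
  have hρ0 : 0 < ρ := by rw [hρ]; positivity
  have hρ1 : ρ ≤ c₀ / B := min_le_left _ _
  have hρ2 : ρ ≤ e / (2 * C₀) := min_le_right _ _
  obtain ⟨β, hβ, hβρ, hev⟩ := hW ρ hρ0
  set ε := e / (2 * (|M₀| + 1)) with hε
  have hε0 : 0 < ε := by positivity
  obtain ⟨χ, nχ, hpos, h0, h1, h2, h3, h4⟩ := hloc β B ε hβ hB (by
    have : β < c₀ / B := lt_of_lt_of_le hβρ hρ1
    rw [lt_div_iff₀ hB] at this
    exact this.le) hε0
  refine ⟨χ, nχ, hpos, h0, h1, h2, ?_⟩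
  filter_upwards [hev, hMb, eventually_gt_atTop 1] with T hT hMT hT1
  have hn := norm_pos hT1
  have hS0 : 0 ≤ ∫ x, χ x ^ 2 := integral_nonneg fun x => sq_nonneg _
  have hstep := PS_mono (γ := γ) I.ord.w_nonneg (φ := cosT fun x => χ x ^ 2)
    (ψ := fun u => (∫ x, χ x ^ 2) * (if -β ≤ u ∧ u ≤ β then 1 else 0) + ε * Maj u) (fun u => by
      refine (h4 u).trans (le_of_eq ?_)
      simp only [abs_le]
      split_ifs <;> ring) (F T) (Real.log T)
  rw [PS_add, PS_const_mul, PS_const_mul] at hstep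
  have h5 := mul_le_mul_of_nonneg_left hstep (by positivity : 0 ≤ 1 / PC.norm T)
  refine h5.trans ?_
  unfold PW at hT
  rw [SF_eq_PS] at hT hMT
  have e1 : 1 / PC.norm T * ((∫ x, χ x ^ 2) * PS γ w (F T) (Real.log T) (fun x => if -β ≤ x ∧ x ≤ β then 1 else 0)
      + ε * PS γ w (F T) (Real.log T) Maj)
      = (∫ x, χ x ^ 2) * (1 / PC.norm T * PS γ w (F T) (Real.log T) (fun x => if -β ≤ x ∧ x ≤ β then 1 else 0))
        + ε * (1 / PC.norm T * PS γ w (F T) (Real.log T) Maj) := by ring
  rw [e1]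
  have a1 := mul_le_mul_of_nonneg_left hT hS0
  have a2 := mul_le_mul_of_nonneg_left hMT hε0.le
  have a3 : ε * (|M₀| + 1) = e / 2 := by rw [hε]; field_simp
  have a4 : (∫ x, χ x ^ 2) * (ρ * β) ≤ e / 2 := by
    calc (∫ x, χ x ^ 2) * (ρ * β) ≤ (C₀ / β) * (ρ * β) := mul_le_mul_of_nonneg_right h3 (by positivity)
      _ = C₀ * ρ := by field_simp
      _ ≤ C₀ * (e / (2 * C₀)) := mul_le_mul_of_nonneg_left hρ2 hC₀.le
      _ = e / 2 := by field_simp
  have a5 : (∫ x, χ x ^ 2) * (1 + ρ * β) = (∫ x, χ x ^ 2) + (∫ x, χ x ^ 2) * (ρ * β) := by ring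
  linarith

/-- **Rigidity from below for the form factor.** -/
theorem rigidity_F_low [Countable ι] (I : Inputs γ w F CR) (hW : WeakRep γ w F)
    (hL : ∀ a b, 0 < a → a < b → LB (FF γ w F) a b) {a b : ℝ} (ha : 0 < a) (hab : a < b) :
    UB (FF γ w F) a b := by
  apply rigidity_low_abs dns_FF hL _ ha hab
  intro a b ha hab
  refine ⟨1 / 4, by norm_num, fun δ hδ => ?_⟩
  set b0 := min a (1 / 2) with hb0
  have hb0pos : 0 < b0 := by rw [hb0]; positivity
  have hb0a : b0 ≤ a := min_le_left _ _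
  have hb01 : b0 < 1 := lt_of_le_of_lt (min_le_right _ _) (by norm_num)
  obtain ⟨p, q, hp, hq, hpe, hqe, hpq, hp1, hq0, hp0, hq1⟩ := exists_pq (a := b0 / 2) (b := b0) (by positivity) (by linarith)
  obtain ⟨χ, nχ, hpos, hχ0, habs, hhalf, hev⟩ := weak_PS I hW hδ (by linarith : 0 < b)
  have hχc := nχ.continuous
  have hpc := hp.continuous
  have hqc := hq.continuous
  obtain ⟨s, hs0, hs⟩ := nχ.supp
  set b' := max s b + 1 with hb'
  have hsb' : s ≤ b' := by rw [hb']; linarith [le_max_left s b]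
  have hbb' : b < b' := by rw [hb']; linarith [le_max_right s b]
  refine ⟨fun u => (χ u * q u) ^ 2, b0 / 2, b', by fun_prop, by positivity, by linarith, hbb', fun u _ => sq_nonneg _,
    fun u hu => ?_, ?_⟩
  · have hu0 : 0 < u := by linarith [hu.1]
    simp only
    rw [hq1 u (by rw [abs_of_pos hu0]; linarith [hu.1]), mul_one]
    have h1 := hhalf u (by rw [abs_of_pos hu0]; exact hu.2)
    nlinarith
  · have nP := (nχ.mul hp hpe).sq
    have nQ := (nχ.mul hq hqe).sq
    have h1 := SF_inside I nP hb0pos hb01 (fun ξ hξ => by rw [hp0 ξ hξ]; ring)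
    have h2 := FF_sub_PS I nQ
    simp only [hp1 0 (by simp; positivity), hχ0, mul_one, one_pow] at h1
    have hlim := h2.sub h1
    rw [zero_sub] at hlim
    have hbud := budget (G := fun x => χ x ^ 2) (P := fun x => p x ^ 2) (Q := fun x => q x ^ 2) (by fun_prop) (by fun_prop)
      (by fun_prop) (fun x => by simp only [nχ.even]) (fun x => by simp only [hqe]) hpq (b0 := b0) (c := b0 / 2) (S := s) hb01.le
      (fun x hx => by simp only [hp0 x hx]; ring) (fun x hx => by simp only [hq0 x hx]; ring) (by positivity)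
      (fun x hx => by simp only [hs x hx]; ring) (b' := b') (by linarith) hsb'
    have htri : ∫ x, χ x ^ 2 * tri x ≤ 1 := by
      rw [← integral_tri]
      apply integral_mono _ integrable_tri
      · intro x
        simp only
        apply mul_le_of_le_one_left (tri_nonneg x)
        rw [← sq_abs]
        exact pow_le_one₀ (abs_nonneg _) (habs x)
      · have := continuous_tri
        apply Continuous.integrable_of_hasCompactSupport (by fun_prop)
        exact hasCompactSupport_tri.mul_left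
    have e1 : ∀ u, (χ u * q u) ^ 2 * min u 1 = χ u ^ 2 * q u ^ 2 * min u 1 := fun u => by ring
    have e2 : ∀ x : ℝ, |x| * (χ x * p x) ^ 2 = |x| * (χ x ^ 2 * p x ^ 2) := fun x => by ring
    simp_rw [e2] at hlim
    simp_rw [e1]
    rw [hbud]
    filter_upwards [hlim.eventually (gt_mem_nhds (show -(1 + ∫ x, |x| * (χ x ^ 2 * p x ^ 2))
      < -(1 + ∫ x, |x| * (χ x ^ 2 * p x ^ 2)) + δ by linarith)), hev, eventually_gt_atTop 1] with T h3 h5 hT
    have h4 : ∫ α, (χ α * q α) ^ 2 * FF γ w F T α = 2 * ∫ u in (b0 / 2)..b', (χ u * q u) ^ 2 * FF γ w F T u := by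
      rw [integral_FF_half (fun x => by simp only [nχ.even, hqe])]
      congr 1
      apply setIntegral_Ioi_eq_interval (by positivity) (by linarith)
      · intro u hu0 hu
        rw [hq0 u (by rw [abs_of_pos hu0]; exact hu)]; ring
      · intro u hu
        rw [hs u (by rw [abs_of_pos (by linarith)]; linarith)]; ring
    have e6 : PS γ w (F T) (Real.log T) (cosT fun x => χ x ^ 2) = PS γ w (F T) (Real.log T) (cosT fun x => (χ x * p x) ^ 2)
        + PS γ w (F T) (Real.log T) (cosT fun x => (χ x * q x) ^ 2) := by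
      rw [← PS_add]
      congr 1
      ext u
      rw [← cosT_add nP.integrable nQ.integrable]
      congr 1
      ext x
      rw [mul_pow, mul_pow, ← mul_add, hpq, mul_one]
    rw [e6] at h5
    rw [h4] at h3
    have h7 : ∫ u in (b0 / 2)..b', (χ u * q u) ^ 2 * FF γ w F T u = ∫ u in (b0 / 2)..b', χ u ^ 2 * q u ^ 2 * FF γ w F T u := by
      congr 1
      ext u
      ring
    rw [mul_add] at h5
    linarith

end

end Pool.Agent.H6
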