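import Mathlib
import Pool.Agent.H6.LowRig

open MeasureTheory Set Filter Topology
open scoped Real Interval ContDiff

namespace Pool.Agent.H6

section
variable {ι : Type*} [Countable ι] {γ w : ι → ℝ} {F : ℝ → Finset ι} {CR : ℝ}

/-- Tails for the linear sums. -/
theorem Inputs.equiTail_sq (I : Inputs γ w F CR) (hw1 : ∀ i, 1 ≤ w i) {χ : ℝ → ℝ} (h : Nice χ) (hpos : ∀ u, 0 ≤ cosT χ u) :
    EquiTail atTop (fun T y => SS γ w (fun u => cosT χ u ^ 2) (Real.log T) (T * y)) := by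
  obtain ⟨s, hs0, hs⟩ := h.supp
  have hφ := (h.reg hs).test
  have hψ := h.testFn_sq hs0 hs
  obtain ⟨C, hC0, hC⟩ := hφ.decay
  have hlog := Real.tendsto_log_atTop
  have hπ := Real.pi_gt_three
  have E := I.equiTail hφ hs0
  obtain ⟨C', hC'0, hC'⟩ := E.tail
  have hcψ : ∀ᶠ T in atTop, Continuous fun y => SS γ w (fun u => cosT χ u ^ 2) (Real.log T) (T * y) := by
    filter_upwards [hlog.eventually_ge_atTop 1] with T hT
    exact (I.continuous_SS hψ (by positivity) hT).comp (continuous_const.mul continuous_id)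
  have hnn : ∀ T y, 0 ≤ SS γ w (fun u => cosT χ u ^ 2) (Real.log T) (T * y) := fun T y =>
    tsum_nonneg fun i => mul_nonneg (I.ord.w_nonneg i) (sq_nonneg _)
  refine ⟨hcψ, hnn, C', hC'0, fun R hR => ?_⟩
  filter_upwards [hC' R hR, hcψ, hlog.eventually_ge_atTop (2 * π)] with T h1 h2 hL
  have hle : ∀ y ∈ Ioi R, SS γ w (fun u => cosT χ u ^ 2) (Real.log T) (T * y) / y ^ 2
      ≤ SS γ w (cosT χ) (Real.log T) (T * y) ^ 2 / y ^ 2 := fun y _ =>
    div_le_div_of_nonneg_right (SS_sq_ge I.ord hw1 hpos hC0 hC hL _) (sq_nonneg _)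
  have hi : IntegrableOn (fun y => SS γ w (fun u => cosT χ u ^ 2) (Real.log T) (T * y) / y ^ 2) (Ioi R) := by
    apply Integrable.mono' h1.1
    · apply ContinuousOn.aestronglyMeasurable _ measurableSet_Ioi
      apply ContinuousOn.div h2.continuousOn (by fun_prop)
      intro y hy
      have hy' : R < y := hy
      have : 0 < y := by linarith
      positivity
    · filter_upwards [ae_restrict_mem measurableSet_Ioi] with y hy
      rw [Real.norm_eq_abs, abs_of_nonneg (div_nonneg (hnn T y) (sq_nonneg _))]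
      exact hle y hy
  exact ⟨hi, (setIntegral_mono_on hi h1.1 measurableSet_Ioi hle).trans h1.2⟩

/-- Upper bound for the distribution function of the off-diagonal part. -/
theorem Inputs.dist_upper (I : Inputs γ w F CR) {χ : ℝ → ℝ} (h : Nice χ)
    {e : ℝ} (hev : ∀ᶠ T in atTop, (1 / PC.norm T) * PS γ w (F T) (Real.log T) (cosT fun x => χ x ^ 2) ≤ (∫ x, χ x ^ 2) + e)
    {y : ℝ} (hy : 0 < y) {δ : ℝ} (hδ : 0 < δ) :
    ∀ᶠ T in atTop, (∫ x in (0 : ℝ)..y, SS γ w (cosT χ) (Real.log T) (T * x) ^ 2)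
      - (∫ x in (0 : ℝ)..y, SS γ w (fun u => cosT χ u ^ 2) (Real.log T) (T * x)) ≤ (e + δ) * y := by
  obtain ⟨s, hs0, hs⟩ := h.supp
  have hψ := h.testFn_sq hs0 hs
  have hA : Tendsto (fun T : ℝ => y * T) atTop atTop := tendsto_id.const_mul_atTop hy
  have h1 := I.avg_scale (h.reg hs) hs0 hA (tendsto_log_ratio hy)
  have h2 := (I.avg_sub_PS h h).comp hA
  have h3 := hA.eventually hev
  have h4 := I.mean_dist hψ (by positivity) hy
  rw [h.plancherel] at h4
  have hδ3 : 0 < δ / 3 := by positivity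
  have hδy : 0 < δ / 3 * y := by positivity
  filter_upwards [h1.eventually (gt_mem_nhds hδ3), h2.eventually (gt_mem_nhds hδ3), h3,
    h4.eventually (lt_mem_nhds (show (∫ ξ, χ ξ ^ 2) * y - δ / 3 * y < (∫ ξ, χ ξ ^ 2) * y by linarith)),
    eventually_gt_atTop 0] with T a1 a2 a3 a4 hT
  simp only [Function.comp] at a2
  have e1 : ∫ x in (0 : ℝ)..y, SS γ w (cosT χ) (Real.log T) (T * x) ^ 2
      = y * avg (y * T) (fun t => SS γ w (cosT χ) (Real.log T) t ^ 2) := by
    rw [intervalIntegral_comp_mul (f := fun t => SS γ w (cosT χ) (Real.log T) t ^ 2) hT]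
    unfold avg
    rw [mul_comm y T]
    field_simp
  have e2 : avg (y * T) (fun t => SS γ w (cosT χ) (Real.log (y * T)) t * SS γ w (cosT χ) (Real.log (y * T)) t)
      = avg (y * T) (fun t => SS γ w (cosT χ) (Real.log (y * T)) t ^ 2) := by
    congr 1
    ext t
    ring
  have e3 : (fun ξ => χ ξ * χ ξ) = fun x => χ x ^ 2 := by
    ext x
    ring
  rw [e2, e3] at a2
  have h5 : avg (y * T) (fun t => SS γ w (cosT χ) (Real.log T) t ^ 2) ≤ (∫ x, χ x ^ 2) + e + 2 * (δ / 3) := by linarith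
  have h6 := mul_le_mul_of_nonneg_left h5 hy.le
  rw [e1]
  nlinarith

/-- Dyadic summation. -/
theorem Inputs.dyadic (I : Inputs γ w F CR) (hw1 : ∀ i, 1 ≤ w i) {χ : ℝ → ℝ} (h : Nice χ) (hpos : ∀ u, 0 ≤ cosT χ u)
    {e : ℝ} (hev : ∀ᶠ T in atTop, (1 / PC.norm T) * PS γ w (F T) (Real.log T) (cosT fun x => χ x ^ 2) ≤ (∫ x, χ x ^ 2) + e)
    (K : ℕ) : ∀ δ > 0,
    ∀ᶠ T in atTop, ∫ y in (0 : ℝ)..(2 ^ K), KK 1 y * (SS γ w (cosT χ) (Real.log T) (T * y) ^ 2
      - SS γ w (fun u => cosT χ u ^ 2) (Real.log T) (T * y)) ≤ 5 * e * (5 - 4 * (1 / 2) ^ K) + δ := by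
  obtain ⟨s, hs0, hs⟩ := h.supp
  have hφ := (h.reg hs).test
  have hψ := h.testFn_sq hs0 hs
  obtain ⟨C, hC0, hC⟩ := hφ.decay
  have hlog := Real.tendsto_log_atTop
  have hπ := Real.pi_gt_three
  have hcont : ∀ᶠ T in atTop, Continuous (fun y => SS γ w (cosT χ) (Real.log T) (T * y) ^ 2) ∧
      Continuous (fun y => SS γ w (fun u => cosT χ u ^ 2) (Real.log T) (T * y)) ∧
      ∀ y, 0 ≤ SS γ w (cosT χ) (Real.log T) (T * y) ^ 2 - SS γ w (fun u => cosT χ u ^ 2) (Real.log T) (T * y) := by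
    filter_upwards [hlog.eventually_ge_atTop (2 * π)] with T hT
    refine ⟨((I.continuous_SS hφ hs0 (by linarith)).comp (continuous_const.mul continuous_id)).pow 2,
      (I.continuous_SS hψ (by positivity) (by linarith)).comp (continuous_const.mul continuous_id), fun y => ?_⟩
    have := SS_sq_ge I.ord hw1 hpos hC0 hC hT (T * y)
    linarith
  -- bound on an interval
  have hstep : ∀ (a b k : ℝ), 0 ≤ a → a < b → 0 < b → 0 < k → (∀ y, a ≤ y → KK 1 y ≤ k) → ∀ δ > 0, ∀ᶠ T in atTop,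
      ∫ y in a..b, KK 1 y * (SS γ w (cosT χ) (Real.log T) (T * y) ^ 2
        - SS γ w (fun u => cosT χ u ^ 2) (Real.log T) (T * y)) ≤ k * b * e + δ := by
    intro a b k ha hab hb hk hkk δ hδ
    filter_upwards [I.dist_upper h hev hb (δ := δ / (k * b)) (by positivity), hcont] with T h1 ⟨c1, c2, c3⟩
    have cK := continuous_KK 1
    have c12 : Continuous (fun y => SS γ w (cosT χ) (Real.log T) (T * y) ^ 2
        - SS γ w (fun u => cosT χ u ^ 2) (Real.log T) (T * y)) := c1.sub c2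
    have i1 : ∫ y in a..b, KK 1 y * (SS γ w (cosT χ) (Real.log T) (T * y) ^ 2
        - SS γ w (fun u => cosT χ u ^ 2) (Real.log T) (T * y))
        ≤ ∫ y in a..b, k * (SS γ w (cosT χ) (Real.log T) (T * y) ^ 2
        - SS γ w (fun u => cosT χ u ^ 2) (Real.log T) (T * y)) := by
      apply intervalIntegral.integral_mono_on hab.le
      · exact (cK.mul (c1.sub c2)).intervalIntegrable _ _
      · exact (continuous_const.mul (c1.sub c2)).intervalIntegrable _ _
      · intro y hy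
        exact mul_le_mul_of_nonneg_right (hkk y hy.1) (c3 y)
    have i2 : ∫ y in a..b, (SS γ w (cosT χ) (Real.log T) (T * y) ^ 2
        - SS γ w (fun u => cosT χ u ^ 2) (Real.log T) (T * y))
        ≤ ∫ y in (0 : ℝ)..b, (SS γ w (cosT χ) (Real.log T) (T * y) ^ 2
        - SS γ w (fun u => cosT χ u ^ 2) (Real.log T) (T * y)) := by
      have i3 : 0 ≤ ∫ y in (0 : ℝ)..a, (SS γ w (cosT χ) (Real.log T) (T * y) ^ 2
        - SS γ w (fun u => cosT χ u ^ 2) (Real.log T) (T * y)) :=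
        intervalIntegral.integral_nonneg ha fun y _ => c3 y
      rw [← intervalIntegral.integral_add_adjacent_intervals (c12.intervalIntegrable 0 a)
        (c12.intervalIntegrable a b)]
      linarith
    have e0 : ∫ y in (0 : ℝ)..b, (SS γ w (cosT χ) (Real.log T) (T * y) ^ 2
        - SS γ w (fun u => cosT χ u ^ 2) (Real.log T) (T * y))
        = (∫ x in (0 : ℝ)..b, SS γ w (cosT χ) (Real.log T) (T * x) ^ 2)
      - (∫ x in (0 : ℝ)..b, SS γ w (fun u => cosT χ u ^ 2) (Real.log T) (T * x)) :=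
      intervalIntegral.integral_sub (c1.intervalIntegrable _ _) (c2.intervalIntegrable _ _)
    rw [e0] at i2
    rw [intervalIntegral.integral_const_mul] at i1
    refine i1.trans ?_
    calc k * _ ≤ k * ((e + δ / (k * b)) * b) := mul_le_mul_of_nonneg_left (i2.trans h1) hk.le
      _ = k * b * e + δ := by field_simp
  induction K with
  | zero =>
    intro δ hδ
    filter_upwards [hstep 0 1 5 le_rfl one_pos one_pos (by norm_num) (fun y _ => by
      refine (Inputs.KK_one_le y).trans ?_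
      rw [div_le_iff₀ (by positivity)]
      nlinarith [sq_nonneg y]) δ hδ] with T hT
    rw [pow_zero, pow_zero]
    refine hT.trans (le_of_eq ?_)
    ring
  | succ K ih =>
    intro δ hδ
    have h2K : (1 : ℝ) ≤ 2 ^ K := one_le_pow₀ (by norm_num)
    have h2K0 : (0 : ℝ) < 2 ^ K := by positivity
    have hk0 : (0 : ℝ) < 5 * (1 / 2) ^ K * (1 / 2) ^ K := by positivity
    have hpw : (2 : ℝ) ^ K * (1 / 2) ^ K = 1 := by rw [← mul_pow]; norm_num
    filter_upwards [ih (δ / 2) (by positivity), hstep (2 ^ K) (2 ^ (K + 1)) (5 * (1 / 2) ^ K * (1 / 2) ^ K) (by positivity)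
      (by rw [pow_succ]; linarith) (by positivity) hk0 (fun y hy => by
        refine (Inputs.KK_one_le y).trans ?_
        rw [div_le_iff₀ (by positivity)]
        have h3 : (2 : ℝ) ^ K * 2 ^ K ≤ 1 + y ^ 2 := by nlinarith
        calc (5 : ℝ) = 5 * (1 / 2) ^ K * (1 / 2) ^ K * (2 ^ K * 2 ^ K) := by
              have : 5 * (1 / 2 : ℝ) ^ K * (1 / 2) ^ K * (2 ^ K * 2 ^ K) = 5 * (2 ^ K * (1 / 2) ^ K) * (2 ^ K * (1 / 2) ^ K) := by ring
              rw [this, hpw]
              norm_num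
          _ ≤ _ := mul_le_mul_of_nonneg_left h3 hk0.le) (δ / 2) (by positivity), hcont] with T h1 h2 ⟨c1, c2, c3⟩
    have cK := continuous_KK 1
    have c4 : Continuous (fun y => KK 1 y * (SS γ w (cosT χ) (Real.log T) (T * y) ^ 2
        - SS γ w (fun u => cosT χ u ^ 2) (Real.log T) (T * y))) := cK.mul (c1.sub c2)
    rw [← intervalIntegral.integral_add_adjacent_intervals (c4.intervalIntegrable 0 (2 ^ K))
      (c4.intervalIntegrable (2 ^ K) (2 ^ (K + 1)))]
    have h4 : 5 * (1 / 2 : ℝ) ^ K * (1 / 2) ^ K * 2 ^ (K + 1) * e = 5 * e * (2 * (1 / 2) ^ K) := by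
      have : 5 * (1 / 2 : ℝ) ^ K * (1 / 2) ^ K * 2 ^ (K + 1) * e = 5 * e * (2 * (1 / 2) ^ K) * (2 ^ K * (1 / 2) ^ K) := by ring
      rw [this, hpw, mul_one]
    rw [h4] at h2
    have h5 : 5 * e * (5 - 4 * (1 / 2) ^ (K + 1)) = 5 * e * (5 - 4 * (1 / 2) ^ K) + 5 * e * (2 * (1 / 2) ^ K) := by
      rw [pow_succ]
      ring
    rw [h5]
    have h6 := add_le_add h1 h2
    refine le_trans h6 (le_of_eq ?_)
    ring

/-- Upper bound for the smoothed mean square. -/
theorem Inputs.KQ_upper (I : Inputs γ w F CR) (hw1 : ∀ i, 1 ≤ w i) {χ : ℝ → ℝ} (h : Nice χ) (hpos : ∀ u, 0 ≤ cosT χ u)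
    {e : ℝ} (he : 0 ≤ e) (hev : ∀ᶠ T in atTop, (1 / PC.norm T) * PS γ w (F T) (Real.log T) (cosT fun x => χ x ^ 2) ≤ (∫ x, χ x ^ 2) + e)
    {δ : ℝ} (hδ : 0 < δ) :
    ∀ᶠ T in atTop, KQ γ w (cosT χ) T ≤ (∫ ξ, χ ξ ^ 2) * π + 25 * e + δ := by
  obtain ⟨s, hs0, hs⟩ := h.supp
  have hφ := (h.reg hs).test
  have hψ := h.testFn_sq hs0 hs
  have hlog := Real.tendsto_log_atTop
  have hπ := Real.pi_gt_three
  have E := I.equiTail hφ hs0
  have E2 := I.equiTail_sq hw1 h hpos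
  obtain ⟨C', hC'0, hC'⟩ := E.tail
  have hKK : ∀ y, |KK 1 y| * y ^ 2 ≤ 4 := KK_bound 1
  have h3 := E2.tendsto (ℓ := ∫ u, cosT χ u ^ 2) (fun y hy => I.mean_dist hψ (by positivity) hy) (continuous_KK 1)
    (by norm_num : (0 : ℝ) ≤ 4) hKK
  rw [integral_Ioi_KK, abs_one, mul_one, h.plancherel] at h3
  -- choose the cut
  obtain ⟨K, hK⟩ := pow_unbounded_of_one_lt (4 * C' / (δ / 3)) (show (1 : ℝ) < 2 by norm_num)
  have h2K : (1 : ℝ) ≤ 2 ^ K := one_le_pow₀ (by norm_num)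
  have h2K0 : (0 : ℝ) < 2 ^ K := by positivity
  filter_upwards [hC' (2 ^ K) h2K, I.dyadic hw1 h hpos hev K (δ / 3) (by positivity),
    h3.eventually (gt_mem_nhds (show (∫ ξ, χ ξ ^ 2) * π < (∫ ξ, χ ξ ^ 2) * π + δ / 3 by linarith)),
    E.integrable (continuous_KK 1) hKK, E2.integrable (continuous_KK 1) hKK, E.cont, E2.cont] with T t1 t2 t3 i1 i2 c1 c2
  have cK := continuous_KK 1
  obtain ⟨j1, j2⟩ := integrableOn_of_sq cK c1 (fun y => sq_nonneg _) h2K hKK t1.1
  obtain ⟨j3, _⟩ : IntegrableOn (fun y => KK 1 y * SS γ w (fun u => cosT χ u ^ 2) (Real.log T) (T * y)) (Ioi (2 ^ K)) ∧ True :=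
    ⟨i2.mono_set (Ioi_subset_Ioi h2K0.le), trivial⟩
  have e1 : KQ γ w (cosT χ) T = (∫ y in (0 : ℝ)..(2 ^ K), KK 1 y * SS γ w (cosT χ) (Real.log T) (T * y) ^ 2)
      + ∫ y in Ioi (2 ^ K), KK 1 y * SS γ w (cosT χ) (Real.log T) (T * y) ^ 2 := by
    unfold KQ
    rw [intervalIntegral.integral_of_le h2K0.le, ← setIntegral_union (Ioc_disjoint_Ioi le_rfl) measurableSet_Ioi
      (i1.mono_set Ioc_subset_Ioi_self) j1, Ioc_union_Ioi_eq_Ioi h2K0.le]
  have e2 : ∫ y in Ioi 0, KK 1 y * SS γ w (fun u => cosT χ u ^ 2) (Real.log T) (T * y)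
      = (∫ y in (0 : ℝ)..(2 ^ K), KK 1 y * SS γ w (fun u => cosT χ u ^ 2) (Real.log T) (T * y))
      + ∫ y in Ioi (2 ^ K), KK 1 y * SS γ w (fun u => cosT χ u ^ 2) (Real.log T) (T * y) := by
    rw [intervalIntegral.integral_of_le h2K0.le, ← setIntegral_union (Ioc_disjoint_Ioi le_rfl) measurableSet_Ioi
      (i2.mono_set Ioc_subset_Ioi_self) j3, Ioc_union_Ioi_eq_Ioi h2K0.le]
  have e3 : 0 ≤ ∫ y in Ioi (2 ^ K), KK 1 y * SS γ w (fun u => cosT χ u ^ 2) (Real.log T) (T * y) :=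
    setIntegral_nonneg measurableSet_Ioi fun y _ => mul_nonneg (KK_nonneg _ _) (E2.nonneg T y)
  have e4 : ∫ y in (0 : ℝ)..(2 ^ K), KK 1 y * (SS γ w (cosT χ) (Real.log T) (T * y) ^ 2
      - SS γ w (fun u => cosT χ u ^ 2) (Real.log T) (T * y))
      = (∫ y in (0 : ℝ)..(2 ^ K), KK 1 y * SS γ w (cosT χ) (Real.log T) (T * y) ^ 2)
      - ∫ y in (0 : ℝ)..(2 ^ K), KK 1 y * SS γ w (fun u => cosT χ u ^ 2) (Real.log T) (T * y) := by
    have k1 : Continuous (fun y => KK 1 y * SS γ w (cosT χ) (Real.log T) (T * y) ^ 2) := cK.mul c1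
    have k2 : Continuous (fun y => KK 1 y * SS γ w (fun u => cosT χ u ^ 2) (Real.log T) (T * y)) := cK.mul c2
    rw [← intervalIntegral.integral_sub (k1.intervalIntegrable _ _) (k2.intervalIntegrable _ _)]
    congr 1
    ext y
    ring
  have e5 : ∫ y in Ioi (2 ^ K), KK 1 y * SS γ w (cosT χ) (Real.log T) (T * y) ^ 2 ≤ δ / 3 := by
    refine (le_abs_self _).trans (j2.trans ?_)
    have : 4 * (C' / 2 ^ K) ≤ δ / 3 := by
      rw [div_lt_iff₀ (by positivity)] at hK
      rw [← mul_div_assoc, div_le_iff₀ h2K0]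
      linarith
    exact (mul_le_mul_of_nonneg_left t1.2 (by norm_num)).trans this
  have e6 : 5 * e * (5 - 4 * (1 / 2) ^ K) ≤ 25 * e := by
    have : (0 : ℝ) ≤ (1 / 2) ^ K := by positivity
    nlinarith [mul_nonneg he this]
  rw [e4] at t2
  rw [e2] at t3
  rw [e1]
  linarith

end

section
variable {F : ℝ → Finset PC.Z} {CR : ℝ} {γ w : PC.Z → ℝ} [Countable PC.Z]

theorem MV_upper (I : Inputs γ w F CR) (hw1 : ∀ i, 1 ≤ w i) {a : ℝ} (ha : 1 / 2 < a)
    (hP : PoissonInput γ w a (PC.arch a)) {χ : ℝ → ℝ} (h : Nice χ) (hpos : ∀ u, 0 ≤ cosT χ u)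
    {e : ℝ} (he : 0 ≤ e) (hev : ∀ᶠ T in atTop, (1 / PC.norm T) * PS γ w (F T) (Real.log T) (cosT fun x => χ x ^ 2) ≤ (∫ x, χ x ^ 2) + e)
    {δ : ℝ} (hδ : 0 < δ) :
    ∀ᶠ T in atTop, MV γ w (cosT χ) T ≤ (∫ ξ, χ ξ ^ 2) / 2 + 5 * e + δ := by
  obtain ⟨s, hs0, hs⟩ := h.supp
  have hπ := Real.pi_gt_three
  have hπ0 := Real.pi_pos
  have h1 := MV_sub_KQ I ha hP (h.reg hs) hs0
  have h2 := tendsto_inv_eta.eventually (I.KQ_upper hw1 h hpos he hev (δ := δ) hδ)
  filter_upwards [h1.eventually (gt_mem_nhds (show 0 < δ / 2 by positivity)), h2] with T a1 a2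
  have a3 : 1 / (2 * π) * KQ γ w (cosT χ) ((eta T)⁻¹) ≤ 1 / (2 * π) * ((∫ ξ, χ ξ ^ 2) * π + 25 * e + δ) :=
    mul_le_mul_of_nonneg_left a2 (by positivity)
  have a4 : 1 / (2 * π) * ((∫ ξ, χ ξ ^ 2) * π + 25 * e + δ) = (∫ ξ, χ ξ ^ 2) / 2 + (25 / (2 * π)) * e + (1 / (2 * π)) * δ := by
    field_simp
  have a5 : 25 / (2 * π) ≤ 5 := by
    rw [div_le_iff₀ (by positivity)]
    linarith
  have a6 : 1 / (2 * π) ≤ 1 / 2 := by
    apply div_le_div_of_nonneg_left (by norm_num) (by norm_num)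
    linarith
  have a7 := mul_le_mul_of_nonneg_right a5 he
  have a8 := mul_le_mul_of_nonneg_right a6 hδ.le
  linarith

/-- **Rigidity from below for the variance of primes in short intervals.** -/
theorem rigidity_V_low (I : Inputs γ w F CR) (hw1 : ∀ i, 1 ≤ w i) {a₀ : ℝ} (ha₀ : 1 / 2 < a₀)
    (hP : PoissonInput γ w a₀ (PC.arch a₀)) (hW : WeakRep γ w F) (hL : ∀ a b, 0 < a → a < b → LB mV a b)
    {a b : ℝ} (ha : 0 < a) (hab : a < b) : UB mV a b := by
  apply rigidity_low_abs dns_mV hL _ ha hab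
  intro a b ha hab
  refine ⟨1 / 4, by norm_num, fun δ hδ => ?_⟩
  set b0 := min a (1 / 2) with hb0
  have hb0pos : 0 < b0 := by rw [hb0]; positivity
  have hb0a : b0 ≤ a := min_le_left _ _
  have hb01 : b0 < 1 := lt_of_le_of_lt (min_le_right _ _) (by norm_num)
  obtain ⟨p, q, hp, hq, hpe, hqe, hpq, hp1, hq0, hp0, hq1⟩ := exists_pq (a := b0 / 2) (b := b0) (by positivity) (by linarith)
  obtain ⟨χ, nχ, hpos, hχ0, habs, hhalf, hev⟩ := weak_PS I hW (e := δ / 20) (by positivity) (by linarith : 0 < b)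
  have hχc := nχ.continuous
  have hpc := hp.continuous
  have hqc := hq.continuous
  obtain ⟨s, hs0, hs⟩ := nχ.supp
  set b' := max s b + 1 with hb'
  have hsb' : s ≤ b' := by rw [hb']; linarith [le_max_left s b]
  have hbb' : b < b' := by rw [hb']; linarith [le_max_right s b]
  refine ⟨fun u => (χ u * q u) ^ 2, b0 / 2, b', by fun_prop, by positivity, by linarith, hbb', fun u _ => sq_nonneg _,
    fun u hu => ?_, ?_⟩
  · have hu0 : 0 < u := by linarith [hu.1]
    simp only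
    rw [hq1 u (by rw [abs_of_pos hu0]; linarith [hu.1]), mul_one]
    have h1 := hhalf u (by rw [abs_of_pos hu0]; exact hu.2)
    nlinarith
  · have hup := MV_upper I hw1 ha₀ hP nχ hpos (e := δ / 20) (by positivity) hev (δ := δ / 4) (by positivity)
    have hdec := MV_decomp I ha₀ hP nχ hp hq hpe hqe hpq (c := b0 / 2) (b := b0) (by positivity) (by linarith) hb01 hp1 hq0 hp0
    rw [hχ0, one_pow] at hdec
    have hbud := budget (G := fun x => χ x ^ 2) (P := fun x => p x ^ 2) (Q := fun x => q x ^ 2) (by fun_prop) (by fun_prop)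
      (by fun_prop) (fun x => by simp only [nχ.even]) (fun x => by simp only [hqe]) hpq (b0 := b0) (c := b0 / 2) (S := s) hb01.le
      (fun x hx => by simp only [hp0 x hx]; ring) (fun x hx => by simp only [hq0 x hx]; ring) (by positivity)
      (fun x hx => by simp only [hs x hx]; ring) (b' := b') (by linarith) hsb'
    have htri : ∫ x, χ x ^ 2 * tri x ≤ 1 := by
      rw [← integral_tri]
      apply integral_mono _ integrable_tri
      · intro x
        simp only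
        apply mul_le_of_le_one_left (tri_nonneg x)
        rw [← sq_abs]
        exact pow_le_one₀ (abs_nonneg _) (habs x)
      · have := continuous_tri
        apply Continuous.integrable_of_hasCompactSupport (by fun_prop)
        exact hasCompactSupport_tri.mul_left
    have e1 : ∀ u, (χ u * q u) ^ 2 * min u 1 = χ u ^ 2 * q u ^ 2 * min u 1 := fun u => by ring
    have e2 : ∀ x : ℝ, |x| * (χ x * p x) ^ 2 = |x| * (χ x ^ 2 * p x ^ 2) := fun x => by ring
    simp_rw [e2] at hdec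
    simp_rw [e1]
    rw [hbud]
    filter_upwards [hup, hdec.eventually (lt_mem_nhds (show (1 + ∫ ξ, |ξ| * (χ ξ ^ 2 * p ξ ^ 2)) / 2 - δ / 4
      < (1 + ∫ ξ, |ξ| * (χ ξ ^ 2 * p ξ ^ 2)) / 2 by linarith)), eventually_gt_atTop 1] with T h3 h5 hT
    have hUT : UT (fun ξ => (χ ξ * q ξ) ^ 2) T = ∫ u in (b0 / 2)..b', χ u ^ 2 * q u ^ 2 * mV T u := by
      rw [UT_eq _ (Real.log_pos hT)]
      have e3 : ∀ u, (χ u * q u) ^ 2 * mV T u = χ u ^ 2 * q u ^ 2 * mV T u := fun u => by ring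
      simp_rw [e3]
      apply setIntegral_Ioi_eq_interval (by positivity) (by linarith)
      · intro u hu0 hu
        rw [hq0 u (by rw [abs_of_pos hu0]; exact hu)]; ring
      · intro u hu
        rw [hs u (by rw [abs_of_pos (by linarith)]; linarith)]; ring
    rw [hUT] at h5
    have h7 : ∫ u in (b0 / 2)..b', (χ u * q u) ^ 2 * mV T u = ∫ u in (b0 / 2)..b', χ u ^ 2 * q u ^ 2 * mV T u := by
      congr 1
      ext u
      ring
    linarith

end

end Pool.Agent.H6
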