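import Mathlib
import Pool.Agent.H6.Bound
import Pool.Agent.H6.Nice

open MeasureTheory Set Filter Topology FourierTransform
open scoped Real Interval ContDiff SchwartzMap

namespace Pool.Agent.H6

/-- Layer cake form of the integral against the GUE measure. -/
lemma tail_limit {p : ℝ → ℝ} {C : ℝ} (hc : Continuous p) (hC0 : 0 ≤ C) (hC : ∀ u, |p u| ≤ C / (1 + u ^ 2) ^ 3) :
    tail p 0 + ∫ u, tail p u * (1 - (Real.sinc (π * u)) ^ 2) = ∫ β in Ioi 0, p β * G2 β := by
  have hi := integrable_of_decay3 hc hC hC0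
  have hcs : Continuous (fun u : ℝ => 1 - (Real.sinc (π * u)) ^ 2) := continuous_const.sub continuous_sinc_sq
  have h0 : tail p 0 = ∫ β in Ioi 0, p β := by
    unfold tail; rw [abs_zero]
  have hpb : Integrable (fun β => p β * β) := by
    apply Integrable.mono' (integrable_inv_one_add_sq.const_mul C) (hc.mul continuous_id).aestronglyMeasurable
    apply ae_of_all
    intro β
    simp only [Pi.mul_apply, id]
    rw [Real.norm_eq_abs, abs_mul]
    have h1 : |β| ≤ 1 + β ^ 2 := by nlinarith [sq_abs β, sq_nonneg (|β| - 1), abs_nonneg β]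
    calc |p β| * |β| ≤ (C / (1 + β ^ 2) ^ 3) * (1 + β ^ 2) := mul_le_mul (hC β) h1 (abs_nonneg _) (by positivity)
      _ = C / (1 + β ^ 2) ^ 2 := by
          have : 1 + β ^ 2 ≠ 0 := by positivity
          field_simp
      _ ≤ C * (1 + β ^ 2)⁻¹ := by
          rw [← div_eq_mul_inv]
          apply div_le_div_of_nonneg_left hC0 (by positivity)
          nlinarith [sq_nonneg β]
  have h1 : ∫ u, tail p u * (1 - (Real.sinc (π * u)) ^ 2)
      = ∫ u, ∫ β in Ioi 0, (if |u| ≤ β then p β else 0) * (1 - (Real.sinc (π * u)) ^ 2) := by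
    congr 1
    ext u
    rw [tail_eq_indicator, integral_mul_const]
  have hmeas : MeasurableSet {q : ℝ × ℝ | |q.1| ≤ q.2} :=
    measurableSet_le (continuous_abs.comp continuous_fst).measurable measurable_snd
  have hF : AEStronglyMeasurable (Function.uncurry fun (u β : ℝ) =>
      (if |u| ≤ β then p β else 0) * (1 - (Real.sinc (π * u)) ^ 2)) (volume.prod (volume.restrict (Ioi (0 : ℝ)))) := by
    have e : (Function.uncurry fun (u β : ℝ) =>
      (if |u| ≤ β then p β else 0) * (1 - (Real.sinc (π * u)) ^ 2))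
      = fun q : ℝ × ℝ => ({q : ℝ × ℝ | |q.1| ≤ q.2}.indicator (fun q => p q.2) q) * (1 - (Real.sinc (π * q.1)) ^ 2) := by
      ext ⟨u, β⟩
      simp only [Function.uncurry, indicator, mem_ofPred_eq]
    rw [e]
    apply Measurable.aestronglyMeasurable
    apply Measurable.mul
    · exact Measurable.indicator (by fun_prop) hmeas
    · exact (hcs.comp continuous_fst).measurable
  have hint : Integrable (Function.uncurry fun (u β : ℝ) =>
      (if |u| ≤ β then p β else 0) * (1 - (Real.sinc (π * u)) ^ 2)) (volume.prod (volume.restrict (Ioi (0 : ℝ)))) := by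
    rw [integrable_prod_iff' hF]
    constructor
    · apply ae_of_all
      intro β
      simp only [Function.uncurry]
      have e : (fun u : ℝ => (if |u| ≤ β then p β else 0) * (1 - (Real.sinc (π * u)) ^ 2))
          = (Icc (-β) β).indicator (fun u => p β * (1 - (Real.sinc (π * u)) ^ 2)) := by
        ext u
        simp only [indicator, mem_Icc, abs_le]
        split_ifs <;> ring
      rw [e, integrable_indicator_iff measurableSet_Icc]
      exact (continuous_const.mul hcs).integrableOn_Icc
    · simp only [Function.uncurry]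
      have hb : ∀ β : ℝ, 0 < β → ∫ u, ‖(if |u| ≤ β then p β else 0) * (1 - (Real.sinc (π * u)) ^ 2)‖ ≤ 2 * |p β * β| := by
        intro β hβ
        have e : ∀ u : ℝ, ‖(if |u| ≤ β then p β else 0) * (1 - (Real.sinc (π * u)) ^ 2)‖
            ≤ (Icc (-β) β).indicator (fun _ => |p β|) u := by
          intro u
          simp only [indicator, mem_Icc, ← abs_le]
          split_ifs
          · rw [Real.norm_eq_abs, abs_mul, abs_of_nonneg (one_sub_sinc_nonneg u)]
            apply mul_le_of_le_one_right (abs_nonneg _)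
            have := sq_nonneg (Real.sinc (π * u))
            linarith
          · simp
        have h2 : ∫ u, (Icc (-β) β).indicator (fun _ => |p β|) u = 2 * |p β * β| := by
          rw [integral_indicator measurableSet_Icc, setIntegral_const, smul_eq_mul, Measure.real,
            Real.volume_Icc, ENNReal.toReal_ofReal (by linarith), abs_mul, abs_of_pos hβ]
          ring
        rw [← h2]
        apply integral_mono_of_nonneg (ae_of_all _ fun u => norm_nonneg _) _ (ae_of_all _ e)
        rw [integrable_indicator_iff measurableSet_Icc]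
        exact continuous_const.integrableOn_Icc
      have hmeas2 := hF.norm.integral_prod_right'
      have hF2 : AEStronglyMeasurable (fun β => ∫ u, ‖(if |u| ≤ β then p β else 0) * (1 - (Real.sinc (π * u)) ^ 2)‖)
          (volume.restrict (Ioi (0 : ℝ))) := by
        have := (hF.norm.prod_swap).integral_prod_right'
        exact this
      apply Integrable.mono' ((hpb.abs.const_mul 2).integrableOn (s := Ioi 0)) hF2
      filter_upwards [ae_restrict_mem measurableSet_Ioi] with β hβ
      rw [Real.norm_eq_abs, abs_of_nonneg (integral_nonneg fun u => norm_nonneg _)]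
      exact hb β hβ
  rw [h0, h1, integral_integral_swap hint, ← integral_add hi.integrableOn]
  · apply setIntegral_congr_fun measurableSet_Ioi
    intro β hβ
    have hβ' : 0 < β := hβ
    simp only
    have e : ∀ u : ℝ, (if |u| ≤ β then p β else 0) * (1 - (Real.sinc (π * u)) ^ 2)
          = (Icc (-β) β).indicator (fun u => p β * (1 - (Real.sinc (π * u)) ^ 2)) u := by
        intro u
        simp only [indicator, mem_Icc, abs_le]
        split_ifs <;> ring
    simp_rw [e]
    rw [integral_indicator measurableSet_Icc, integral_const_mul]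
    unfold G2
    rw [intervalIntegral.integral_of_le (by linarith), integral_Icc_eq_integral_Ioc]
    ring
  · have := hint.integral_prod_right
    exact this


lemma integral_nice_eq {g : ℝ → ℝ} (ng : Nice g) :
    cosT g 0 + ∫ u, cosT g u * (1 - (Real.sinc (π * u)) ^ 2) = g 0 + ∫ x, min |x| 1 * g x := by
  obtain ⟨s, hs0, hs⟩ := ng.supp
  have hφ := (ng.reg hs).test
  have h1 : cosT g 0 = ∫ x, g x := by unfold cosT; simp
  have h2 : g 0 = ∫ u, cosT g u := by
    rw [← ng.inv 0]
    change ∫ ξ, cosT g ξ * Real.cos (2 * π * ξ * 0) = _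
    simp
  have h3 : ∫ u, cosT g u * (Real.sinc (π * u)) ^ 2 = ∫ x, g x * tri x := by
    have h4 := integral_mul_cosT hφ.integrable integrable_tri hφ.cont continuous_tri
    simp_rw [cosT_tri, ng.inv] at h4
    exact h4
  have hi : Integrable (fun u => cosT g u * (Real.sinc (π * u)) ^ 2) := by
    apply Integrable.mul_bdd (c := 1) hφ.integrable
    · exact continuous_sinc_sq.aestronglyMeasurable
    · exact ae_of_all _ fun u => by
        rw [Real.norm_eq_abs, abs_of_nonneg (sq_nonneg _)]
        exact abs_sinc_sq_le _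
  have e : ∀ u, cosT g u * (1 - (Real.sinc (π * u)) ^ 2) = cosT g u - cosT g u * (Real.sinc (π * u)) ^ 2 := by
    intro u; ring
  simp_rw [e]
  rw [integral_sub hφ.integrable hi, h1, h3, ← h2]
  have i2 : Integrable (fun x => g x * tri x) := by
    have := continuous_tri
    have := ng.continuous
    apply Continuous.integrable_of_hasCompactSupport (by fun_prop)
    exact hasCompactSupport_tri.mul_left
  have e4 : ∫ x, min |x| 1 * g x = (∫ x, g x) - ∫ x, g x * tri x := by
    rw [← integral_sub ng.integrable i2]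
    congr 1
    ext x
    have ht : tri x = 1 - min |x| 1 := by
      unfold tri
      rcases le_total |x| 1 with h | h
      · rw [min_eq_left h, max_eq_right (by linarith)]
      · rw [min_eq_right h, max_eq_left (by linarith)]
        ring
    rw [ht]
    ring
  rw [e4]
  ring

/-- The cosine transform of a nice function is a tail. -/
lemma exists_tail {g : ℝ → ℝ} (ng : Nice g) : ∃ (p : ℝ → ℝ) (C : ℝ), Continuous p ∧ 0 ≤ C ∧
    (∀ u, |p u| ≤ C / (1 + u ^ 2) ^ 3) ∧ ∀ u, tail p u = cosT g u := by
  have hint := ng.integrable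
  have hcC : HasCompactSupport (fun x => (g x : ℂ)) := ng.hasCompactSupport.comp_left (g := fun x : ℝ => (x : ℂ)) (by simp)
  have hgC : ContDiff ℝ ∞ (fun x => (g x : ℂ)) := Complex.ofRealCLM.contDiff.comp ng.smooth
  set f : 𝓢(ℝ, ℂ) := hcC.toSchwartzMap hgC with hf
  set Fs : 𝓢(ℝ, ℂ) := 𝓕 f with hFs
  have hval : ∀ u, Fs u = (cosT g u : ℂ) := by
    intro u
    rw [hFs, SchwartzMap.fourier_coe]
    have : (f : ℝ → ℂ) = fun x => (g x : ℂ) := rfl
    rw [this, fourier_ofReal_even hint ng.even]
  have heq : cosT g = fun ξ => (Fs ξ).re := by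
    ext ξ
    rw [hval, Complex.ofReal_re]
  have hsm : ContDiff ℝ ∞ (cosT g) := by
    rw [heq]
    exact Complex.reCLM.contDiff.comp (Fs.smooth ⊤)
  have hder : ∀ u, HasDerivAt (cosT g) (deriv (cosT g) u) u := fun u =>
    (hsm.differentiable (by norm_num) u).hasDerivAt
  have hdc : Continuous (deriv (cosT g)) := hsm.continuous_deriv (by norm_num)
  obtain ⟨D0, hD00, hD0⟩ := Fs.decay 0 1
  obtain ⟨D6, hD60, hD6⟩ := Fs.decay 6 1
  have hle : ∀ u, |deriv (cosT g) u| ≤ ‖fderiv ℝ Fs u‖ := by
    intro u
    have h1 : HasFDerivAt (Fs : ℝ → ℂ) (fderiv ℝ Fs u) u := (Fs.differentiableAt).hasFDerivAt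
    have h2 : HasDerivAt (fun x => (Fs x).re) (((fderiv ℝ Fs u) 1).re) u := by
      have h3 := (Complex.reCLM.hasFDerivAt (x := Fs u)).comp_hasDerivAt u h1.hasDerivAt
      exact h3
    have h3 : deriv (cosT g) u = ((fderiv ℝ Fs u) 1).re := by
      rw [heq]; exact h2.deriv
    rw [h3]
    calc |((fderiv ℝ Fs u) 1).re| ≤ ‖(fderiv ℝ Fs u) 1‖ := Complex.abs_re_le_norm _
      _ ≤ ‖fderiv ℝ Fs u‖ * ‖(1 : ℝ)‖ := (fderiv ℝ Fs u).le_opNorm 1
      _ = ‖fderiv ℝ Fs u‖ := by rw [norm_one, mul_one]
  have hdec : ∀ u, |-(deriv (cosT g) u)| ≤ (8 * (D0 + D6)) / (1 + u ^ 2) ^ 3 := by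
    intro u
    rw [abs_neg, le_div_iff₀ (by positivity)]
    have h0 := hD0 u
    have h6 := hD6 u
    rw [pow_zero, one_mul, norm_iteratedFDeriv_one] at h0
    rw [norm_iteratedFDeriv_one, Real.norm_eq_abs] at h6
    have hn := norm_nonneg (fderiv ℝ Fs u)
    have h7 := one_add_pow_le (sq_nonneg u) 3
    have h8 : (u ^ 2) ^ 3 = |u| ^ 6 := by
      rw [← sq_abs, ← pow_mul]
    rw [h8] at h7
    calc |deriv (cosT g) u| * (1 + u ^ 2) ^ 3 ≤ ‖fderiv ℝ Fs u‖ * (2 ^ 3 * (1 + |u| ^ 6)) :=
          mul_le_mul (hle u) h7 (by positivity) hn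
      _ = 8 * (‖fderiv ℝ Fs u‖ + |u| ^ 6 * ‖fderiv ℝ Fs u‖) := by ring
      _ ≤ _ := by linarith
  refine ⟨fun u => -(deriv (cosT g) u), 8 * (D0 + D6), hdc.neg, by positivity, hdec, fun u => ?_⟩
  have hip := integrable_of_decay3 (p := fun u => -(deriv (cosT g) u)) hdc.neg hdec (by positivity)
  unfold tail
  have hlim : Tendsto (fun x => -(cosT g x)) atTop (𝓝 0) := by
    obtain ⟨C, hC0, hC⟩ := cosT_decay ng.smooth ng.hasCompactSupport ng.even 1
    have h1 : Tendsto (fun x : ℝ => C / x) atTop (𝓝 0) := tendsto_id.const_div_atTop C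
    apply squeeze_zero_norm' _ h1
    filter_upwards [eventually_gt_atTop 0] with x hx
    rw [norm_neg, Real.norm_eq_abs, le_div_iff₀ hx]
    have := hC x
    rw [pow_one, abs_of_pos hx] at this
    linarith
  have h := integral_Ioi_of_hasDerivAt_of_tendsto' (a := |u|) (f := fun x => -(cosT g x))
    (f' := fun x => -(deriv (cosT g) x)) (fun x _ => (hder x).neg) hip.integrableOn hlim
  rw [h, zero_sub, neg_neg]
  rcases abs_choice u with h' | h'
  · rw [h']
  · rw [h', cosT_neg]

end Pool.Agent.H6
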