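import Mathlib
import Pool.Agent.H6.Limit
import Pool.Agent.H6.P1
import Pool.Agent.H6.SFn

open MeasureTheory Set Filter Topology
open scoped Real Interval ContDiff

namespace Pool.Agent.H6

section
variable {ι : Type*} [Countable ι] {γ w : ι → ℝ} {F : ℝ → Finset ι} {CR : ℝ}

omit [Countable ι] in
lemma PS_tail {p : ℝ → ℝ} (hp : Integrable p) {φ : ℝ → ℝ} (h : ∀ u, tail p u = φ u) (T : ℝ) :
    (1 / PC.norm T) * PS γ w (F T) (Real.log T) φ = ∫ β in Ioi 0, p β * MM γ w F T β := by
  rw [← sum_tail_eq hp]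
  unfold PS
  congr 1
  apply Finset.sum_congr rfl
  intro i _
  apply Finset.sum_congr rfl
  intro j _
  rw [h, mul_comm (Real.log T)]

lemma dens_integrable {p : ℝ → ℝ} (hc : Continuous p) {C : ℝ} (hC0 : 0 ≤ C)
    (hC : ∀ u, |p u| ≤ C / (1 + u ^ 2) ^ 3) {f : ℝ → ℝ} {K : ℝ}
    (hf : AEStronglyMeasurable f vpos) (hK : ∀ β, 0 < β → |f β| ≤ K * (1 + β)) :
    Integrable (fun β => p β * f β) vpos := by
  apply Integrable.mono' (integrable_inv_one_add_sq.const_mul (2 * C * |K|)).restrict
    ((hc.aestronglyMeasurable.restrict).mul hf)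
  filter_upwards [ae_restrict_mem measurableSet_Ioi] with β hβ
  have hβ' : 0 < β := hβ
  simp only [Pi.mul_apply]
  rw [Real.norm_eq_abs, abs_mul]
  have h1 : |f β| ≤ |K| * (2 * (1 + β ^ 2)) := by
    refine (hK β hβ).trans ?_
    calc K * (1 + β) ≤ |K| * (1 + β) := mul_le_mul_of_nonneg_right (le_abs_self K) (by positivity)
      _ ≤ |K| * (2 * (1 + β ^ 2)) := by
        apply mul_le_mul_of_nonneg_left _ (abs_nonneg _)
        nlinarith [sq_nonneg (β - 1)]
  calc |p β| * |f β| ≤ (C / (1 + β ^ 2) ^ 3) * (|K| * (2 * (1 + β ^ 2))) :=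
        mul_le_mul (hC β) h1 (abs_nonneg _) (by positivity)
    _ = (2 * C * |K|) / (1 + β ^ 2) ^ 2 := by
        have : 1 + β ^ 2 ≠ 0 := by positivity
        field_simp
    _ ≤ (2 * C * |K|) * (1 + β ^ 2)⁻¹ := by
        rw [← div_eq_mul_inv]
        apply div_le_div_of_nonneg_left (by positivity) (by positivity)
        nlinarith [sq_nonneg β]

/-- The pair correlation conjecture implies the smooth asymptotics. -/
theorem SF_of_MM (I : Inputs γ w F CR)
    (h : ∀ β, 0 < β → Tendsto (fun T => MM γ w F T β) atTop (𝓝 (G2 β))) {g : ℝ → ℝ} (ng : Nice g) :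
    SFlim γ w F g := by
  obtain ⟨p, C, hpc, hC0, hC, htail⟩ := exists_tail ng
  obtain ⟨T0, K, hT0, hK0, hK⟩ := MM_bound I
  have hw := I.ord.w_nonneg
  have hpi := integrable_of_decay3 hpc hC hC0
  have hlimit : g 0 + ∫ x, min |x| 1 * g x = ∫ β in Ioi 0, p β * G2 β := by
    rw [← integral_nice_eq ng, ← tail_limit hpc hC0 hC]
    simp_rw [htail]
  unfold SFlim
  rw [hlimit]
  simp_rw [PS_tail hpi htail]
  have hbi : Integrable (fun β => |p β * (K * (1 + β))|) vpos := by
    apply Integrable.abs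
    apply dens_integrable hpc hC0 hC (K := K) (by fun_prop)
    intro β hβ
    rw [abs_of_nonneg (by positivity)]
  apply tendsto_integral_filter_of_dominated_convergence (fun β => |p β * (K * (1 + β))|) _ _ hbi
  · filter_upwards [ae_restrict_mem measurableSet_Ioi] with β hβ
    exact (h β hβ).const_mul (p β)
  · filter_upwards [eventually_ge_atTop T0] with T hT
    exact (hpc.aestronglyMeasurable.restrict).mul
      (MM_mono hw (lt_of_lt_of_le hT0 hT)).measurable.aestronglyMeasurable
  · filter_upwards [eventually_ge_atTop T0] with T hT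
    filter_upwards [ae_restrict_mem measurableSet_Ioi] with β hβ
    have hβ' : 0 < β := hβ
    rw [Real.norm_eq_abs, abs_mul, abs_mul]
    apply mul_le_mul_of_nonneg_left _ (abs_nonneg _)
    rw [abs_of_nonneg (MM_nonneg hw (lt_of_lt_of_le hT0 hT) β), abs_of_nonneg (by positivity : 0 ≤ K * (1 + β))]
    exact hK _ hT β hβ'.le

/-- Subsequential limits under the smooth asymptotics. -/
theorem orth_of_SF (I : Inputs γ w F CR) (h : ∀ g, Nice g → SFlim γ w F g) {ns : ℕ → ℝ}
    (hns : Tendsto ns atTop atTop) {L : ℝ → ℝ} (hL : IsLimit γ w F ns L) {p : ℝ → ℝ} {C : ℝ} (hpc : Continuous p)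
    (hC0 : 0 ≤ C) (hC : ∀ u, |p u| ≤ C / (1 + u ^ 2) ^ 3) {g : ℝ → ℝ} (ng : Nice g) (htail : ∀ u, tail p u = cosT g u) :
    ∫ β in Ioi 0, p β * (L β - G2 β) = 0 := by
  obtain ⟨T0, K, hT0, hK0, hK⟩ := MM_bound I
  have hw := I.ord.w_nonneg
  have hpi := integrable_of_decay3 hpc hC hC0
  have hlimit : g 0 + ∫ x, min |x| 1 * g x = ∫ β in Ioi 0, p β * G2 β := by
    rw [← integral_nice_eq ng, ← tail_limit hpc hC0 hC]
    simp_rw [htail]
  have h1 := h g ng
  unfold SFlim at h1
  rw [hlimit] at h1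
  simp_rw [PS_tail hpi htail] at h1
  have h2 := h1.comp hns
  obtain ⟨K', hK'0, hgrow⟩ := hL.growth
  have hLm : AEStronglyMeasurable L vpos := hL.mono.measurable.aestronglyMeasurable
  have hGm : AEStronglyMeasurable G2 vpos := continuous_G2.aestronglyMeasurable
  have i1 : Integrable (fun β => p β * L β) vpos := dens_integrable hpc hC0 hC hLm (fun β hβ => hgrow β hβ.le)
  have i2 : Integrable (fun β => p β * G2 β) vpos := by
    apply dens_integrable hpc hC0 hC (K := 2) hGm
    intro β hβ
    have := G2_bounds hβ.le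
    rw [abs_of_nonneg this.1]
    exact this.2
  have hbi : Integrable (fun β => |p β * (K * (1 + β))|) vpos := by
    apply Integrable.abs
    apply dens_integrable hpc hC0 hC (K := K) (by fun_prop)
    intro β hβ
    rw [abs_of_nonneg (by positivity)]
  have h3 : Tendsto (fun n => ∫ β in Ioi 0, p β * MM γ w F (ns n) β) atTop (𝓝 (∫ β in Ioi 0, p β * L β)) := by
    apply tendsto_integral_filter_of_dominated_convergence (fun β => |p β * (K * (1 + β))|) _ _ hbi
    · filter_upwards [ae_restrict_of_ae hL.ae] with β hβ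
      exact hβ.const_mul (p β)
    · filter_upwards [hns.eventually_ge_atTop T0] with n hn
      exact (hpc.aestronglyMeasurable.restrict).mul
        (MM_mono hw (lt_of_lt_of_le hT0 hn)).measurable.aestronglyMeasurable
    · filter_upwards [hns.eventually_ge_atTop T0] with n hn
      filter_upwards [ae_restrict_mem measurableSet_Ioi] with β hβ
      have hβ' : 0 < β := hβ
      rw [Real.norm_eq_abs, abs_mul, abs_mul]
      apply mul_le_mul_of_nonneg_left _ (abs_nonneg _)
      rw [abs_of_nonneg (MM_nonneg hw (lt_of_lt_of_le hT0 hn) β), abs_of_nonneg (by positivity : 0 ≤ K * (1 + β))]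
      exact hK _ hn β hβ'.le
  have h4 := tendsto_nhds_unique h2 h3
  have e : ∀ β, p β * (L β - G2 β) = p β * L β - p β * G2 β := fun β => by ring
  simp_rw [e]
  rw [integral_sub i1 i2, h4, sub_self]

end

end Pool.Agent.H6
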