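import Mathlib
import Pool.Agent.H6.OneSided2
import Pool.Agent.H6.P2

open MeasureTheory Set Filter Topology
open scoped Real Interval ContDiff

namespace Pool.Agent.H6

/-- local odd weights -/
noncomputable def pw (κ : ℝ → ℝ) (R β u : ℝ) : ℝ := κ (R * (u - β)) - κ (R * (u + β))

section
variable {κ : ℝ → ℝ}

lemma continuous_pw (hκ : Continuous κ) (R β : ℝ) : Continuous (pw κ R β) := by
  unfold pw; fun_prop

lemma pw_odd (hκe : ∀ u, κ (-u) = κ u) (R β u : ℝ) : pw κ R β (-u) = -pw κ R β u := by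
  unfold pw
  rw [show R * (-u - β) = -(R * (u + β)) by ring, show R * (-u + β) = -(R * (u - β)) by ring, hκe, hκe]
  ring

lemma pw_decay (hκ0 : ∀ u, 0 ≤ κ u) (hκd : ∀ n : ℕ, ∃ C, 0 ≤ C ∧ ∀ u, κ u ≤ C / (1 + u ^ 2) ^ n) {R : ℝ} (hR : 0 < R)
    (β : ℝ) (n : ℕ) : ∃ C, 0 ≤ C ∧ ∀ u, |pw κ R β u| ≤ C / (1 + u ^ 2) ^ n := by
  obtain ⟨C, hC0, hC⟩ := hκd n
  set K := 1 + 2 * β ^ 2 + 2 / R ^ 2 with hK
  have hK0 : 0 < K := by positivity
  have h1 : ∀ u b : ℝ, b ^ 2 = β ^ 2 → κ (R * (u - b)) ≤ (C * K ^ n) / (1 + u ^ 2) ^ n := by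
    intro u b hb
    refine (hC _).trans ?_
    rw [div_le_div_iff₀ (by positivity) (by positivity)]
    have h2 : 1 + u ^ 2 ≤ K * (1 + (R * (u - b)) ^ 2) := by
      have e : K * (1 + (R * (u - b)) ^ 2) = K + K * R ^ 2 * (u - b) ^ 2 := by ring
      have e2 : 2 ≤ K * R ^ 2 := by
        have : K * R ^ 2 = R ^ 2 * (1 + 2 * β ^ 2) + 2 := by rw [hK]; field_simp
        rw [this]
        have : 0 ≤ R ^ 2 * (1 + 2 * β ^ 2) := by positivity
        linarith
      have e3 : u ^ 2 ≤ 2 * β ^ 2 + 2 * (u - b) ^ 2 := by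
        rw [← hb]
        nlinarith [sq_nonneg (u - 2 * b)]
      have e4 : 2 * (u - b) ^ 2 ≤ K * R ^ 2 * (u - b) ^ 2 := mul_le_mul_of_nonneg_right e2 (sq_nonneg _)
      have e5 : 1 + 2 * β ^ 2 ≤ K := by
        rw [hK]
        have : 0 ≤ 2 / R ^ 2 := by positivity
        linarith
      rw [e]
      linarith
    calc C * (1 + u ^ 2) ^ n ≤ C * (K * (1 + (R * (u - b)) ^ 2)) ^ n :=
          mul_le_mul_of_nonneg_left (pow_le_pow_left₀ (by positivity) h2 n) hC0
      _ = C * K ^ n * (1 + (R * (u - b)) ^ 2) ^ n := by rw [mul_pow]; ring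
  refine ⟨2 * (C * K ^ n), by positivity, fun u => ?_⟩
  unfold pw
  refine (abs_sub _ _).trans ?_
  rw [abs_of_nonneg (hκ0 _), abs_of_nonneg (hκ0 _)]
  have a1 := h1 u β rfl
  have a2 := h1 u (-β) (by ring)
  rw [sub_neg_eq_add] at a2
  have e : 2 * (C * K ^ n) / (1 + u ^ 2) ^ n = (C * K ^ n) / (1 + u ^ 2) ^ n + (C * K ^ n) / (1 + u ^ 2) ^ n := by ring
  rw [e]
  exact add_le_add a1 a2

lemma tail_decay {p : ℝ → ℝ} (hc : Continuous p) {C : ℝ} (hC0 : 0 ≤ C) {n : ℕ}
    (hC : ∀ u, |p u| ≤ C / (1 + u ^ 2) ^ (n + 1)) (u : ℝ) : |tail p u| ≤ (π * C) / (1 + u ^ 2) ^ n := by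
  unfold tail
  have hi0 : Integrable (fun v : ℝ => (C / (1 + u ^ 2) ^ n) * (1 + v ^ 2)⁻¹) := integrable_inv_one_add_sq.const_mul _
  have hle : ∀ v ∈ Ioi |u|, |p v| ≤ (C / (1 + u ^ 2) ^ n) * (1 + v ^ 2)⁻¹ := by
    intro v hv
    have hv' : |u| < v := hv
    refine (hC v).trans ?_
    rw [pow_succ, ← div_eq_mul_inv, div_div]
    apply div_le_div_of_nonneg_left hC0 (by positivity)
    apply mul_le_mul_of_nonneg_right _ (by positivity)
    apply pow_le_pow_left₀ (by positivity)
    have : u ^ 2 ≤ v ^ 2 := by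
      rw [← sq_abs u]
      exact pow_le_pow_left₀ (abs_nonneg _) hv'.le 2
    linarith
  have hpi : IntegrableOn p (Ioi |u|) := by
    apply Integrable.mono' hi0.integrableOn hc.aestronglyMeasurable.restrict
    filter_upwards [ae_restrict_mem measurableSet_Ioi] with v hv
    rw [Real.norm_eq_abs]
    exact hle v hv
  refine abs_integral_le_integral_abs.trans ?_
  calc ∫ v in Ioi |u|, |p v| ≤ ∫ v in Ioi |u|, (C / (1 + u ^ 2) ^ n) * (1 + v ^ 2)⁻¹ :=
        setIntegral_mono_on hpi.abs hi0.integrableOn measurableSet_Ioi hle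
    _ ≤ ∫ v, (C / (1 + u ^ 2) ^ n) * (1 + v ^ 2)⁻¹ := by
        apply setIntegral_le_integral hi0
        exact ae_of_all _ fun v => by simp only [Pi.zero_apply]; positivity
    _ = (π * C) / (1 + u ^ 2) ^ n := by
        rw [integral_const_mul, integral_univ_inv_one_add_sq]
        ring

lemma integral_pw_sin (hκi : Integrable κ) (hκe : ∀ u, κ (-u) = κ u)
    (hκs : ∀ ξ, 1 ≤ |ξ| → cosT κ ξ = 0) {R : ℝ} (hR : 0 < R) (β : ℝ) {ξ : ℝ} (hξ : R ≤ |ξ|) :
    ∫ u, pw κ R β u * Real.sin (2 * π * u * ξ) = 0 := by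
  -- the kernel `q v = κ (R v)`
  set q : ℝ → ℝ := fun v => κ (R * v) with hq
  have hqi : Integrable q := hκi.comp_mul_left' hR.ne'
  have hqe : ∀ u, q (-u) = q u := fun u => by simp only [hq]; rw [mul_neg, hκe]
  have hqc : ∫ v, q v * Real.cos (2 * π * v * ξ) = 0 := by
    have h1 : cosT (fun u => κ (u / R⁻¹)) ξ = R⁻¹ * cosT κ (R⁻¹ * ξ) := cosT_dilate κ (by positivity) ξ
    have h2 : cosT κ (R⁻¹ * ξ) = 0 := by
      apply hκs
      rw [abs_mul, abs_of_pos (by positivity), inv_mul_eq_div, le_div_iff₀ hR]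
      linarith
    rw [h2, mul_zero] at h1
    unfold cosT at h1
    rw [← h1]
    congr 1
    ext v
    simp only [hq]
    rw [div_inv_eq_mul, mul_comm v R]
  have hqs : ∫ v, q v * Real.sin (2 * π * v * ξ) = 0 := by
    have := integral_mul_sin_eq_zero hqe (2 * π * ξ)
    rw [← this]
    congr 1
    ext v
    rw [show 2 * π * v * ξ = 2 * π * ξ * v by ring]
  have ic : ∀ {f : ℝ → ℝ}, Integrable f → Integrable (fun v => f v * Real.cos (2 * π * v * ξ)) := fun {f} hf =>
    integrable_mul_cos hf ξ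
  have is : ∀ {f : ℝ → ℝ}, Integrable f → Integrable (fun v => f v * Real.sin (2 * π * v * ξ)) := by
    intro f hf
    apply Integrable.mul_bdd (c := 1) hf
    · exact (by fun_prop : Continuous fun u : ℝ => Real.sin (2 * π * u * ξ)).aestronglyMeasurable
    · exact ae_of_all _ fun u => by
        rw [Real.norm_eq_abs]; exact Real.abs_sin_le_one _
  have hshift : ∀ b : ℝ, ∫ u, q (u - b) * Real.sin (2 * π * u * ξ) = 0 := by
    intro b
    have h1 := integral_sub_right_eq_self (fun u => q u * Real.sin (2 * π * (u + b) * ξ)) (μ := volume) b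
    have e1 : ∀ u, q (u - b) * Real.sin (2 * π * (u - b + b) * ξ) = q (u - b) * Real.sin (2 * π * u * ξ) := by
      intro u; rw [sub_add_cancel]
    simp_rw [e1] at h1
    rw [h1]
    have e2 : ∀ u, q u * Real.sin (2 * π * (u + b) * ξ)
        = Real.cos (2 * π * b * ξ) * (q u * Real.sin (2 * π * u * ξ)) + Real.sin (2 * π * b * ξ) * (q u * Real.cos (2 * π * u * ξ)) := by
      intro u
      rw [show 2 * π * (u + b) * ξ = 2 * π * u * ξ + 2 * π * b * ξ by ring, Real.sin_add]
      ring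
    simp_rw [e2]
    rw [integral_add ((is hqi).const_mul _) ((ic hqi).const_mul _), integral_const_mul, integral_const_mul, hqs, hqc]
    ring
  have hi : ∀ b : ℝ, Integrable (fun u => q (u - b) * Real.sin (2 * π * u * ξ)) := fun b => is (hqi.comp_sub_right b)
  have e3 : ∀ u, pw κ R β u * Real.sin (2 * π * u * ξ)
      = q (u - β) * Real.sin (2 * π * u * ξ) - q (u - (-β)) * Real.sin (2 * π * u * ξ) := by
    intro u
    unfold pw
    simp only [hq]
    rw [sub_neg_eq_add]
    ring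
  simp_rw [e3]
  rw [integral_sub (hi β) (hi (-β)), hshift, hshift, sub_self]

/-- The tails of the local weights are cosine transforms of nice functions. -/
lemma nice_pw (hκc : Continuous κ) (hκ0 : ∀ u, 0 ≤ κ u) (hκi : Integrable κ) (hκe : ∀ u, κ (-u) = κ u)
    (hκd : ∀ n : ℕ, ∃ C, 0 ≤ C ∧ ∀ u, κ u ≤ C / (1 + u ^ 2) ^ n)
    (hκs : ∀ ξ, 1 ≤ |ξ| → cosT κ ξ = 0) {R : ℝ} (hR : 0 < R) (β : ℝ) :
    Nice (cosT (tail (pw κ R β))) ∧ ∀ u, tail (pw κ R β) u = cosT (cosT (tail (pw κ R β))) u := by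
  obtain ⟨C, hC0, hC⟩ := pw_decay hκ0 hκd hR β 3
  have hT := testFn_tail (continuous_pw hκc R β) hC0 hC (pw_odd hκe R β) hR
    (fun ξ hξ => integral_pw_sin hκi hκe hκs hR β hξ)
  have h := nice_cosT hT.cont hT.even (fun n => by
    obtain ⟨D, hD0, hD⟩ := pw_decay hκ0 hκd hR β (n + 1)
    exact ⟨π * D, by positivity, fun u => tail_decay (continuous_pw hκc R β) hD0 hD u⟩) hR hT.supp
  exact ⟨h.1, fun u => (h.2 u).symm⟩

omit κ in
lemma integral_Ioi_shift (f : ℝ → ℝ) (b : ℝ) : ∫ u in Ioi 0, f (u - b) = ∫ v in Ioi (-b), f v := by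
  rw [← integral_indicator measurableSet_Ioi, ← integral_indicator measurableSet_Ioi,
    ← integral_sub_right_eq_self ((Ioi (-b)).indicator f) b]
  congr 1
  ext u
  by_cases h : u ∈ Ioi (0 : ℝ)
  · have h' : u - b ∈ Ioi (-b) := by
      have : 0 < u := h
      simp only [mem_Ioi]
      linarith
    rw [indicator_of_mem h, indicator_of_mem h']
  · have h' : u - b ∉ Ioi (-b) := by
      intro h2
      apply h
      simp only [mem_Ioi] at h2 ⊢
      linarith
    rw [indicator_of_notMem h, indicator_of_notMem h']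

/-- A function orthogonal to all local weights vanishes at its points of continuity. -/
theorem eq_zero_of_orth (hκc : Continuous κ) (hκ0 : ∀ u, 0 ≤ κ u) (hκi : Integrable κ) (hκz : κ 0 = 1)
    (hκd : ∀ n : ℕ, ∃ C, 0 ≤ C ∧ ∀ u, κ u ≤ C / (1 + u ^ 2) ^ n) {D : ℝ → ℝ} {K : ℝ}
    (hDm : AEStronglyMeasurable D vpos) (hDK : ∀ u, 0 < u → |D u| ≤ K * (1 + u)) {β : ℝ} (hβ : 0 < β)
    (hD : ContinuousAt D β) (horth : ∀ R, 0 < R → ∫ u in Ioi 0, pw κ R β u * D u = 0) : D β = 0 := by
  obtain ⟨C, hC0, hC⟩ := hκd 3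
  have hK0 : 0 ≤ K := by
    have := (abs_nonneg _).trans (hDK 1 one_pos)
    linarith
  -- the constants
  set I := ∫ v, κ v with hI
  have hI0 : 0 ≤ I := integral_nonneg hκ0
  set c0 := ∫ v in (-β)..β, κ v with hc0
  have hc0pos : 0 < c0 := by
    apply intervalIntegral.integral_pos (by linarith) hκc.continuousOn (fun x _ => hκ0 x)
    exact ⟨0, ⟨by linarith, hβ.le⟩, by rw [hκz]; exact one_pos⟩
  set K' := K * (3 + 2 * β) with hK'
  have hK'0 : 0 ≤ K' := by positivity
  have hdiff : ∀ u, 0 < u → |D β - D u| ≤ K' * (1 + (u - β) ^ 2) := by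
    intro u hu
    have h1 := hDK u hu
    have h2 := hDK β hβ
    have h3 : 1 + u ≤ (2 + β) * (1 + (u - β) ^ 2) := by
      have : u ≤ β + (1 + (u - β) ^ 2) := by nlinarith [sq_nonneg (u - β - 1), sq_nonneg (u - β)]
      nlinarith [sq_nonneg (u - β)]
    calc |D β - D u| ≤ |D β| + |D u| := abs_sub _ _
      _ ≤ K * (1 + β) + K * ((2 + β) * (1 + (u - β) ^ 2)) :=
          add_le_add h2 (h1.trans (mul_le_mul_of_nonneg_left h3 hK0))
      _ ≤ K' * (1 + (u - β) ^ 2) := by
          have : K * (1 + β) ≤ K * (1 + β) * (1 + (u - β) ^ 2) := le_mul_of_one_le_right (by positivity)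
            (by nlinarith [sq_nonneg (u - β)])
          rw [hK']
          nlinarith
  have main : ∀ ε > 0, |D β| * c0 ≤ ε * (2 * I + 1) := by
    intro ε hε
    rw [Metric.continuousAt_iff] at hD
    obtain ⟨δ, hδ0, hδ⟩ := hD ε hε
    set M := 2 * π * C * K' / δ ^ 2 with hM
    have hM0 : 0 ≤ M := by positivity
    set R := max 1 (M / ε) with hR
    have hR1 : 1 ≤ R := le_max_left _ _
    have hR0 : 0 < R := by linarith
    have hRM : M / R ≤ ε := by
      rw [div_le_iff₀ hR0]
      have : M / ε ≤ R := le_max_right _ _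
      rw [div_le_iff₀ hε] at this
      linarith
    have hpt : ∀ u ∈ Ioi (0 : ℝ), |pw κ R β u * (D β - D u)| ≤ ε * (κ (R * (u - β)) + κ (R * (u + β)))
        + (2 * C * K' / (R ^ 2 * δ ^ 2)) * (1 + (u - β) ^ 2)⁻¹ := by
      intro u hu
      have hu0 : 0 < u := hu
      have hp1 : |pw κ R β u| ≤ κ (R * (u - β)) + κ (R * (u + β)) := by
        unfold pw
        refine (abs_sub _ _).trans ?_
        rw [abs_of_nonneg (hκ0 _), abs_of_nonneg (hκ0 _)]
      have hnn : 0 ≤ κ (R * (u - β)) + κ (R * (u + β)) := add_nonneg (hκ0 _) (hκ0 _)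
      rw [abs_mul]
      rcases lt_or_ge |u - β| δ with h | h
      · have h1 := hδ (show dist u β < δ by rw [Real.dist_eq]; exact h)
        rw [Real.dist_eq, abs_sub_comm] at h1
        have h2 : 0 ≤ (2 * C * K' / (R ^ 2 * δ ^ 2)) * (1 + (u - β) ^ 2)⁻¹ := by positivity
        calc |pw κ R β u| * |D β - D u| ≤ (κ (R * (u - β)) + κ (R * (u + β))) * ε :=
              mul_le_mul hp1 h1.le (abs_nonneg _) hnn
          _ ≤ _ := by linarith
      · set v := u - β with hv
        have hv2 : δ ^ 2 ≤ v ^ 2 := by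
          rw [← sq_abs v]
          exact pow_le_pow_left₀ hδ0.le h 2
        have hk1 : κ (R * v) ≤ C / (1 + (R * v) ^ 2) ^ 3 := hC _
        have hk2 : κ (R * (u + β)) ≤ C / (1 + (R * v) ^ 2) ^ 3 := by
          refine (hC _).trans ?_
          apply div_le_div_of_nonneg_left hC0 (by positivity)
          apply pow_le_pow_left₀ (by positivity)
          have : v ^ 2 ≤ (u + β) ^ 2 := by rw [hv]; nlinarith
          have := mul_le_mul_of_nonneg_left this (sq_nonneg R)
          nlinarith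
        have hden : (R ^ 2 * δ ^ 2) * (1 + v ^ 2) ^ 2 ≤ (1 + (R * v) ^ 2) ^ 3 := by
          have e1 : R ^ 2 * δ ^ 2 ≤ 1 + (R * v) ^ 2 := by
            have := mul_le_mul_of_nonneg_left hv2 (sq_nonneg R)
            nlinarith
          have e2 : 1 + v ^ 2 ≤ 1 + (R * v) ^ 2 := by
            have : 1 ≤ R ^ 2 := one_le_pow₀ hR1
            nlinarith [sq_nonneg v]
          calc (R ^ 2 * δ ^ 2) * (1 + v ^ 2) ^ 2 ≤ (1 + (R * v) ^ 2) * (1 + (R * v) ^ 2) ^ 2 :=
                mul_le_mul e1 (pow_le_pow_left₀ (by positivity) e2 2) (by positivity) (by positivity)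
            _ = _ := by ring
        have hp2 : |pw κ R β u| ≤ 2 * C / ((R ^ 2 * δ ^ 2) * (1 + v ^ 2) ^ 2) := by
          calc |pw κ R β u| ≤ κ (R * v) + κ (R * (u + β)) := hp1
            _ ≤ C / (1 + (R * v) ^ 2) ^ 3 + C / (1 + (R * v) ^ 2) ^ 3 := add_le_add hk1 hk2
            _ = 2 * C / (1 + (R * v) ^ 2) ^ 3 := by ring
            _ ≤ _ := div_le_div_of_nonneg_left (by positivity) (by positivity) hden
        calc |pw κ R β u| * |D β - D u| ≤ (2 * C / ((R ^ 2 * δ ^ 2) * (1 + v ^ 2) ^ 2)) * (K' * (1 + v ^ 2)) :=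
              mul_le_mul hp2 (hdiff u hu0) (abs_nonneg _) (by positivity)
          _ = (2 * C * K' / (R ^ 2 * δ ^ 2)) * (1 + v ^ 2)⁻¹ := by
              have : 1 + v ^ 2 ≠ 0 := by positivity
              field_simp
          _ ≤ _ := by
              have : 0 ≤ ε * (κ (R * v) + κ (R * (u + β))) := mul_nonneg hε.le hnn
              linarith
    -- integrability
    have hκ1 : ∀ b : ℝ, Integrable (fun u => κ (R * (u - b))) := fun b =>
      (hκi.comp_mul_left' hR0.ne').comp_sub_right b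
    have hκint : ∀ b : ℝ, ∫ u, κ (R * (u - b)) = I / R := by
      intro b
      rw [integral_sub_right_eq_self (fun u => κ (R * u)) b, Measure.integral_comp_mul_left, smul_eq_mul,
        abs_of_pos (by positivity)]
      rw [← hI]
      field_simp
    have hκ2 : Integrable (fun u => κ (R * (u + β))) := by
      have := hκ1 (-β)
      simpa [sub_neg_eq_add] using this
    have hκint2 : ∫ u, κ (R * (u + β)) = I / R := by
      have := hκint (-β)
      simpa [sub_neg_eq_add] using this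
    have hpwi : Integrable (pw κ R β) := (hκ1 β).sub hκ2
    obtain ⟨C3, hC30, hC3⟩ := pw_decay hκ0 hκd hR0 β 3
    have hpD : Integrable (fun u => pw κ R β u * D u) vpos :=
      dens_integrable (continuous_pw hκc R β) hC30 hC3 hDm hDK
    have hsh : Integrable (fun u : ℝ => (1 + (u - β) ^ 2)⁻¹) := integrable_inv_one_add_sq.comp_sub_right β
    have hshint : ∫ u : ℝ, (1 + (u - β) ^ 2)⁻¹ = π := by
      rw [integral_sub_right_eq_self (fun u : ℝ => (1 + u ^ 2)⁻¹) β, integral_univ_inv_one_add_sq]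
    have hbd : Integrable (fun u => ε * (κ (R * (u - β)) + κ (R * (u + β)))
        + (2 * C * K' / (R ^ 2 * δ ^ 2)) * (1 + (u - β) ^ 2)⁻¹) :=
      (((hκ1 β).add hκ2).const_mul ε).add (hsh.const_mul _)
    have h1 : |∫ u in Ioi 0, pw κ R β u * (D β - D u)| ≤ ε * (2 * I / R) + (2 * C * K' / (R ^ 2 * δ ^ 2)) * π := by
      refine abs_integral_le_integral_abs.trans ?_
      have e1 : ∀ u, pw κ R β u * (D β - D u) = pw κ R β u * D β - pw κ R β u * D u := fun u => by ring
      have hi3 : IntegrableOn (fun u => pw κ R β u * (D β - D u)) (Ioi 0) := by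
        simp_rw [e1]
        exact (hpwi.mul_const _).integrableOn.sub hpD
      calc ∫ u in Ioi 0, |pw κ R β u * (D β - D u)|
          ≤ ∫ u in Ioi 0, (ε * (κ (R * (u - β)) + κ (R * (u + β)))
            + (2 * C * K' / (R ^ 2 * δ ^ 2)) * (1 + (u - β) ^ 2)⁻¹) :=
            setIntegral_mono_on hi3.abs hbd.integrableOn measurableSet_Ioi hpt
        _ ≤ ∫ u, (ε * (κ (R * (u - β)) + κ (R * (u + β)))
            + (2 * C * K' / (R ^ 2 * δ ^ 2)) * (1 + (u - β) ^ 2)⁻¹) := by
            apply setIntegral_le_integral hbd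
            apply ae_of_all
            intro u
            have := hκ0 (R * (u - β))
            have := hκ0 (R * (u + β))
            simp only [Pi.zero_apply]
            positivity
        _ = _ := by
            have ha : Integrable (fun u => ε * (κ (R * (u - β)) + κ (R * (u + β)))) := ((hκ1 β).add hκ2).const_mul ε
            rw [integral_add ha (hsh.const_mul _), integral_const_mul, integral_const_mul, integral_add (hκ1 β) hκ2,
              hκint, hκint2, hshint]
            ring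
    have h2 : ∫ u in Ioi 0, pw κ R β u * (D β - D u) = D β * ∫ u in Ioi 0, pw κ R β u := by
      have e1 : ∀ u, pw κ R β u * (D β - D u) = pw κ R β u * D β - pw κ R β u * D u := fun u => by ring
      simp_rw [e1]
      rw [integral_sub (hpwi.mul_const _).integrableOn hpD, horth R hR0, sub_zero, integral_mul_const, mul_comm]
    have h3 : c0 / R ≤ ∫ u in Ioi 0, pw κ R β u := by
      have e2 : ∫ u in Ioi 0, pw κ R β u = ∫ v in (-β)..β, κ (R * v) := by
        have e3 : ∫ u in Ioi 0, pw κ R β u = (∫ u in Ioi 0, κ (R * (u - β))) - ∫ u in Ioi 0, κ (R * (u - (-β))) := by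
          rw [← integral_sub (hκ1 β).integrableOn (hκ1 (-β)).integrableOn]
          congr 1
          ext u
          unfold pw
          rw [sub_neg_eq_add]
        rw [e3, integral_Ioi_shift (fun v => κ (R * v)), integral_Ioi_shift (fun v => κ (R * v)), neg_neg]
        have hii : Integrable (fun v => κ (R * v)) := hκi.comp_mul_left' hR0.ne'
        rw [intervalIntegral.integral_of_le (by linarith), sub_eq_iff_eq_add,
          ← setIntegral_union (Ioc_disjoint_Ioi le_rfl) measurableSet_Ioi hii.integrableOn hii.integrableOn,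
          Ioc_union_Ioi_eq_Ioi (by linarith)]
      rw [e2]
      have e4 := intervalIntegral.integral_comp_mul_left (fun v => κ v) (a := -β) (b := β) hR0.ne'
      rw [e4, smul_eq_mul, div_eq_inv_mul]
      apply mul_le_mul_of_nonneg_left _ (by positivity)
      rw [hc0, intervalIntegral.integral_of_le (by linarith), intervalIntegral.integral_of_le (by nlinarith)]
      apply setIntegral_mono_set hκi.integrableOn
      · exact ae_of_all _ fun v => hκ0 v
      · have hsub : Ioc (-β) β ⊆ Ioc (R * -β) (R * β) := by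
          intro v hv
          exact ⟨by nlinarith [hv.1], by nlinarith [hv.2]⟩
        exact ae_of_all _ hsub
    rw [h2, abs_mul] at h1
    have h4 : 0 ≤ ∫ u in Ioi 0, pw κ R β u := le_trans (by positivity) h3
    rw [abs_of_nonneg h4] at h1
    have h5 : |D β| * (c0 / R) ≤ ε * (2 * I / R) + (2 * C * K' / (R ^ 2 * δ ^ 2)) * π :=
      (mul_le_mul_of_nonneg_left h3 (abs_nonneg _)).trans h1
    have h6 := mul_le_mul_of_nonneg_left h5 hR0.le
    have e5 : R * (|D β| * (c0 / R)) = |D β| * c0 := by field_simp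
    have e6 : R * (ε * (2 * I / R) + (2 * C * K' / (R ^ 2 * δ ^ 2)) * π) = ε * (2 * I) + M / R := by
      rw [hM]
      field_simp
    rw [e5, e6] at h6
    linarith
  by_contra hne
  have hpos : 0 < |D β| := abs_pos.mpr hne
  have h := main (|D β| * c0 / (2 * (2 * I + 1))) (by positivity)
  have e : |D β| * c0 / (2 * (2 * I + 1)) * (2 * I + 1) = |D β| * c0 / 2 := by field_simp
  rw [e] at h
  have : 0 < |D β| * c0 := by positivity
  linarith

end

section
variable {ι : Type*} [Countable ι] {γ w : ι → ℝ} {F : ℝ → Finset ι} {CR : ℝ}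

/-- The smooth asymptotics imply the pair correlation conjecture. -/
theorem allWindows_of_SF (I : Inputs γ w F CR) (hw1 : ∀ i, 1 ≤ w i) (h : ∀ g, Nice g → SFlim γ w F g) :
    AllWindows γ w F := by
  obtain ⟨κ, hκc, hκ0, hκ1, hκz, hκe, hκd, hκs⟩ := exists_kappa
  have hκi : Integrable κ := by
    have := integrable_pow_of_decay hκc (fun n => by
      obtain ⟨C, hC0, hC⟩ := hκd n
      exact ⟨C, hC0, fun u => by rw [abs_of_nonneg (hκ0 u)]; exact hC u⟩) 0
    simp only [pow_zero, one_mul] at this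
    exact (integrable_norm_iff hκc.aestronglyMeasurable).mp this
  apply allWindows_of_limits I hw1
  intro ns L hns hL
  filter_upwards [hL.ae_cont, ae_restrict_mem measurableSet_Ioi] with β hβc hβ
  have hβ0 : 0 < β := hβ
  obtain ⟨K, hK0, hK⟩ := hL.abs_D_le
  have hDc : ContinuousAt (fun x => L x - G2 x) β := hβc.sub continuous_G2.continuousAt
  have h0 := eq_zero_of_orth (D := fun x => L x - G2 x) (K := K) hκc hκ0 hκi hκz hκd hL.measurable_D.aestronglyMeasurable
    (fun u hu => hK u hu.le) hβ0 hDc (fun R hR => by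
      obtain ⟨C, hC0, hC⟩ := pw_decay hκ0 hκd hR β 3
      obtain ⟨hn, hinv⟩ := nice_pw hκc hκ0 hκi hκe hκd hκs hR β
      exact orth_of_SF I h hns hL (continuous_pw hκc R β) hC0 hC hn hinv)
  linarith

end

end Pool.Agent.H6
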