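import Mathlib
import Pool.Agent.H6.Glue
import Pool.Agent.H6.Inside
import Pool.Agent.H6.MVUp
import Pool.Agent.H6.P3

open MeasureTheory Set Filter Topology
open scoped Real Interval ContDiff

namespace Pool.Agent.H6

/-- One-sided upper bounds for all windows beyond some `a₀ < 1`. -/
def UBs (m : ℝ → ℝ → ℝ) : Prop := ∃ a₀ : ℝ, 0 < a₀ ∧ a₀ < 1 ∧ ∀ a b, a₀ < a → a < b → UB m a b

/-- One-sided lower bounds for all windows beyond some `a₀ < 1`. -/
def LBs (m : ℝ → ℝ → ℝ) : Prop := ∃ a₀ : ℝ, 0 < a₀ ∧ a₀ < 1 ∧ ∀ a b, a₀ < a → a < b → LB m a b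

/-- The asymptotics for all windows. -/
def Lims (m : ℝ → ℝ → ℝ) : Prop := ∀ a b, 0 < a → a < b → Lim m a b

lemma Lims.ubs {m : ℝ → ℝ → ℝ} (h : Lims m) : UBs m :=
  ⟨1 / 2, by norm_num, by norm_num, fun a b ha hab => (lim_iff.mp (h a b (by linarith) hab)).1⟩

lemma Lims.lbs {m : ℝ → ℝ → ℝ} (h : Lims m) : LBs m :=
  ⟨1 / 2, by norm_num, by norm_num, fun a b ha hab => (lim_iff.mp (h a b (by linarith) hab)).2⟩

section
variable {ι : Type*} [Countable ι] {γ w : ι → ℝ} {F : ℝ → Finset ι} {CR : ℝ}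

omit [Countable ι] in
/-- The pair correlation conjecture implies weak repulsion. -/
lemma weakRep_of_windows (h : AllWindows γ w F) : WeakRep γ w F := by
  intro ρ hρ
  have hc : Continuous (fun u : ℝ => 1 - (Real.sinc (π * u)) ^ 2) := continuous_const.sub continuous_sinc_sq
  have hc0 := hc.continuousAt (x := 0)
  rw [Metric.continuousAt_iff] at hc0
  obtain ⟨r, hr, hr'⟩ := hc0 (ρ / 4) (by positivity)
  set β := min (ρ / 2) (r / 2) with hβ
  have hβ0 : 0 < β := by rw [hβ]; positivity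
  have hβ1 : β ≤ ρ / 2 := min_le_left _ _
  have hβ2 : β ≤ r / 2 := min_le_right _ _
  refine ⟨β, hβ0, by linarith, ?_⟩
  have hg : PC.gue (-β) β < 1 + ρ * β := by
    unfold PC.gue
    rw [if_pos ⟨by linarith, hβ0.le⟩]
    have h1 : ∫ u in (-β)..β, (1 - (Real.sinc (π * u)) ^ 2) ≤ ∫ u in (-β)..β, ρ / 4 := by
      apply intervalIntegral.integral_mono_on (by linarith)
      · exact hc.intervalIntegrable _ _
      · exact continuous_const.intervalIntegrable _ _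
      · intro u hu
        have h2 : dist u 0 < r := by
          rw [Real.dist_eq, sub_zero, abs_lt]
          exact ⟨by linarith [hu.1], by linarith [hu.2]⟩
        have h3 := hr' h2
        rw [mul_zero, Real.sinc_zero, one_pow, sub_self, Real.dist_eq, sub_zero] at h3
        exact (le_abs_self _).trans h3.le
    rw [intervalIntegral.integral_const, smul_eq_mul] at h1
    have h2 : 0 < ρ * β := by positivity
    nlinarith
  filter_upwards [(h (-β) β (by linarith)).eventually (gt_mem_nhds hg)] with T hT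
  exact hT.le

lemma SF_of_windows (I : Inputs γ w F CR) (h : AllWindows γ w F) {g : ℝ → ℝ} (ng : Nice g) : SFlim γ w F g := by
  apply SF_of_MM I _ ng
  intro β hβ
  have h1 := h (-β) β (by linarith)
  simp_rw [PW_symm_eq_MM] at h1
  rwa [← G2_eq hβ.le] at h1

end

section
variable {F : ℝ → Finset PC.Z} {CR : ℝ} {γ w : PC.Z → ℝ} [Countable PC.Z]

/-- The abstract form of the main theorem. -/
theorem core (I : Inputs γ w F CR) (hw1 : ∀ i, 1 ≤ w i) {a₀ : ℝ} (ha₀ : 1 / 2 < a₀)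
    (hP : PoissonInput γ w a₀ (PC.arch a₀)) :
    [ AllWindows γ w F, Lims mV, UBs mV, LBs mV ∧ WeakRep γ w F,
      Lims (FF γ w F), UBs (FF γ w F), LBs (FF γ w F) ∧ WeakRep γ w F ].TFAE := by
  tfae_have 1 → 2 := fun h a b ha hab =>
    lim_mV_of_sharp I ha₀ hP (fun χ nχ => I.sharp_of_SF (fun g ng => SF_of_windows I h ng) nχ) ha hab
  tfae_have 1 → 5 := fun h a b ha hab => F_of_SF I (fun g ng => SF_of_windows I h ng) ha hab
  tfae_have 2 → 3 := fun h => h.ubs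
  tfae_have 5 → 6 := fun h => h.ubs
  tfae_have 2 → 1 := fun h =>
    allWindows_of_SF I hw1 (fun g ng => I.SF_of_sharp (fun χ nχ => sharp_of_V I ha₀ hP h nχ) ng)
  tfae_have 5 → 1 := fun h => allWindows_of_SF I hw1 (fun g ng => SF_of_F I h ng)
  tfae_have 1 → 4 := fun h => ⟨(tfae_1_to_2 h).lbs, weakRep_of_windows h⟩
  tfae_have 1 → 7 := fun h => ⟨(tfae_1_to_5 h).lbs, weakRep_of_windows h⟩
  tfae_have 3 → 2 := by
    rintro ⟨a₁, h0, h1, hU⟩
    have hall : ∀ a b, 0 < a → a < b → UB mV a b := fun a b ha hab =>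
      ub_all dns_mV (fun a b ha hab hb => lim_mV_inside I ha₀ hP ha hab hb) h1 (fun a b h _ hab => hU a b h hab) ha hab
    exact fun a b ha hab => lim_iff.mpr ⟨hall a b ha hab, rigidity_V I hw1 ha₀ hP hall ha hab⟩
  tfae_have 6 → 5 := by
    rintro ⟨a₁, h0, h1, hU⟩
    have hall : ∀ a b, 0 < a → a < b → UB (FF γ w F) a b := fun a b ha hab =>
      ub_all dns_FF (fun a b ha hab hb => lim_FF_inside I ha hab hb) h1 (fun a b h _ hab => hU a b h hab) ha hab
    exact fun a b ha hab => lim_iff.mpr ⟨hall a b ha hab, rigidity_F I hw1 hall ha hab⟩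
  tfae_have 4 → 2 := by
    rintro ⟨⟨a₁, h0, h1, hU⟩, hW⟩
    have hall : ∀ a b, 0 < a → a < b → LB mV a b := fun a b ha hab =>
      lb_all dns_mV (fun a b ha hab hb => lim_mV_inside I ha₀ hP ha hab hb) h1 (fun a b h _ hab => hU a b h hab) ha hab
    exact fun a b ha hab => lim_iff.mpr ⟨rigidity_V_low I hw1 ha₀ hP hW hall ha hab, hall a b ha hab⟩
  tfae_have 7 → 5 := by
    rintro ⟨⟨a₁, h0, h1, hU⟩, hW⟩
    have hall : ∀ a b, 0 < a → a < b → LB (FF γ w F) a b := fun a b ha hab =>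
      lb_all dns_FF (fun a b ha hab hb => lim_FF_inside I ha hab hb) h1 (fun a b h _ hab => hU a b h hab) ha hab
    exact fun a b ha hab => lim_iff.mpr ⟨rigidity_F_low I hW hall ha hab, hall a b ha hab⟩
  tfae_finish

end

open Classical in
/-- Ordered pairs of zeros up to height `T`. -/
lemma zerosProd_eq (RH : RiemannHypothesis) (T : ℝ) :
    {p : ℂ × ℂ | p.1 ∈ PC.zerosUpTo T ∧ p.2 ∈ PC.zerosUpTo T} = toPair '' ((FZ T ×ˢ FZ T : Finset (PC.Z × PC.Z)) : Set (PC.Z × PC.Z)) := by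
  ext ⟨ρ, ρ'⟩
  simp only [Set.mem_ofPred_eq, Set.mem_image, Finset.coe_product, Set.mem_prod, Finset.mem_coe, mem_FZ]
  constructor
  · rintro ⟨h1, h2⟩
    obtain ⟨a1, a2, a3, a4, a5⟩ := h1
    obtain ⟨b1, b2, b3, b4, b5⟩ := h2
    have e1 := re_eq_half RH a1 a2 a3
    have e2 := re_eq_half RH b1 b2 b3
    have z1 : ρ.im ∈ PC.Z := by unfold PC.Z; simp only [Set.mem_ofPred_eq]; rw [← e1]; exact a1
    have z2 : ρ'.im ∈ PC.Z := by unfold PC.Z; simp only [Set.mem_ofPred_eq]; rw [← e2]; exact b1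
    refine ⟨(⟨ρ.im, z1⟩, ⟨ρ'.im, z2⟩), ⟨⟨a4, a5⟩, ⟨b4, b5⟩⟩, ?_⟩
    unfold toPair
    simp only
    rw [← e1, ← e2]
  · rintro ⟨⟨i, j⟩, ⟨⟨a1, a2⟩, ⟨b1, b2⟩⟩, h⟩
    unfold toPair at h
    simp only [Prod.mk.injEq] at h
    obtain ⟨rfl, rfl⟩ := h
    have him : ∀ i : PC.Z, ((1 / 2 : ℂ) + ((i : ℝ) : ℂ) * Complex.I).im = gZ i := by
      intro i; simp [gZ]
    have hre : ∀ i : PC.Z, ((1 / 2 : ℂ) + ((i : ℝ) : ℂ) * Complex.I).re = 1 / 2 := by
      intro i; simp
    refine ⟨⟨i.2, ?_, ?_, ?_, ?_⟩, ⟨j.2, ?_, ?_, ?_, ?_⟩⟩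
    · rw [hre]; norm_num
    · rw [hre]; norm_num
    · rw [him]; exact a1
    · rw [him]; exact a2
    · rw [hre]; norm_num
    · rw [hre]; norm_num
    · rw [him]; exact b1
    · rw [him]; exact b2

/-- Sums over pairs of zeros as double sums over ordinates. -/
theorem finsum_zeros_eq (RH : RiemannHypothesis) (T : ℝ) (f : ℝ → ℝ) :
    ∑ᶠ p ∈ {p : ℂ × ℂ | p.1 ∈ PC.zerosUpTo T ∧ p.2 ∈ PC.zerosUpTo T},
      (analyticOrderNatAt riemannZeta p.1 : ℝ) * (analyticOrderNatAt riemannZeta p.2 : ℝ) * f (p.1.im - p.2.im)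
      = ∑ i ∈ FZ T, ∑ j ∈ FZ T, wZ i * wZ j * f (gZ i - gZ j) := by
  rw [zerosProd_eq RH, finsum_mem_image toPair_injective.injOn, finsum_mem_coe_finset, Finset.sum_product]
  apply Finset.sum_congr rfl
  intro i _
  apply Finset.sum_congr rfl
  intro j _
  have him : ∀ i : PC.Z, ((1 / 2 : ℂ) + ((i : ℝ) : ℂ) * Complex.I).im = gZ i := by
    intro i; simp [gZ]
  unfold toPair
  simp only
  rw [him, him]
  rfl

end Pool.Agent.H6
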