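import Mathlib
import Pool.Agent.H6.Windows

open MeasureTheory Set Filter Topology FourierTransform
open scoped Real Interval ContDiff SchwartzMap

namespace Pool.Agent.H6

/-- Sine transform. -/
noncomputable def sinT (f : ℝ → ℝ) (u : ℝ) : ℝ := ∫ x, f x * Real.sin (2 * π * x * u)

lemma fourier_ofReal_odd {f : ℝ → ℝ} (hf : Integrable f) (hodd : ∀ u, f (-u) = -f u) (ξ : ℝ) :
    𝓕 (fun u => (f u : ℂ)) ξ = -Complex.I * (sinT f ξ : ℂ) := by
  rw [Real.fourier_real_eq_integral_exp_smul]
  have hint : Integrable (fun v : ℝ => Complex.exp (↑(-2 * π * v * ξ) * Complex.I) * (f v : ℂ)) := by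
    have h1 : Integrable (fun u : ℝ => (f u : ℂ)) := hf.ofReal
    have h2 := h1.bdd_mul (c := 1) (f := fun u : ℝ => Complex.exp (↑(-2 * π * u * ξ) * Complex.I))
      ((by fun_prop : Continuous fun u : ℝ => Complex.exp (↑(-2 * π * u * ξ) * Complex.I)).aestronglyMeasurable)
      (ae_of_all _ fun u => by rw [Complex.norm_exp_ofReal_mul_I])
    exact h2
  have hcos : ∫ v, f v * Real.cos (2 * π * v * ξ) = 0 := by
    have h1 := integral_neg_eq_self (fun v => f v * Real.cos (2 * π * v * ξ)) volume
    have h2 : ∀ v, f (-v) * Real.cos (2 * π * (-v) * ξ) = -(f v * Real.cos (2 * π * v * ξ)) := by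
      intro v
      rw [hodd, show 2 * π * (-v) * ξ = -(2 * π * v * ξ) by ring, Real.cos_neg]
      ring
    simp_rw [h2] at h1
    rw [integral_neg] at h1
    linarith
  apply Complex.ext
  · have h8 := integral_re hint
    have h9 : ∀ v : ℝ, RCLike.re (Complex.exp (↑(-2 * π * v * ξ) * Complex.I) * ((f v : ℝ) : ℂ))
        = (f v * Real.cos (2 * π * v * ξ)) := by
      intro v
      have : (Complex.exp (↑(-2 * π * v * ξ) * Complex.I) * ((f v : ℝ) : ℂ)).re
        = (f v * Real.cos (2 * π * v * ξ)) := by
        rw [Complex.re_mul_ofReal, Complex.exp_ofReal_mul_I_re, show -2 * π * v * ξ = -(2 * π * v * ξ) by ring,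
          Real.cos_neg]
        ring
      exact this
    simp_rw [h9] at h8
    rw [hcos] at h8
    have h10 : (∫ v : ℝ, Complex.exp (↑(-2 * π * v * ξ) * Complex.I) • (f v : ℂ)).re = 0 := h8.symm
    rw [h10]
    simp
  · have h8 := integral_im hint
    have h9 : ∀ v : ℝ, RCLike.im (Complex.exp (↑(-2 * π * v * ξ) * Complex.I) * ((f v : ℝ) : ℂ))
        = -(f v * Real.sin (2 * π * v * ξ)) := by
      intro v
      have : (Complex.exp (↑(-2 * π * v * ξ) * Complex.I) * ((f v : ℝ) : ℂ)).im
        = -(f v * Real.sin (2 * π * v * ξ)) := by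
        rw [Complex.im_mul_ofReal, Complex.exp_ofReal_mul_I_im, show -2 * π * v * ξ = -(2 * π * v * ξ) by ring,
          Real.sin_neg]
        ring
      exact this
    simp_rw [h9] at h8
    rw [integral_neg] at h8
    have h10 : (∫ v : ℝ, Complex.exp (↑(-2 * π * v * ξ) * Complex.I) • (f v : ℂ)).im
      = -∫ v, f v * Real.sin (2 * π * v * ξ) := h8.symm
    rw [h10]
    simp [sinT]

lemma sinT_decay {g : ℝ → ℝ} (hg : ContDiff ℝ ∞ g) (hc : HasCompactSupport g) (hodd : ∀ x, g (-x) = -g x)
    (k : ℕ) : ∃ C, 0 < C ∧ ∀ u, |u| ^ k * |sinT g u| ≤ C := by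
  have hcC : HasCompactSupport (fun x => (g x : ℂ)) := hc.comp_left (g := fun x : ℝ => (x : ℂ)) (by simp)
  have hgC : ContDiff ℝ ∞ (fun x => (g x : ℂ)) := Complex.ofRealCLM.contDiff.comp hg
  have hint : Integrable g := hg.continuous.integrable_of_hasCompactSupport hc
  set f : 𝓢(ℝ, ℂ) := hcC.toSchwartzMap hgC with hf
  obtain ⟨C, hC0, hC⟩ := (𝓕 f).decay k 0
  refine ⟨C, hC0, fun u => ?_⟩
  have h1 := hC u
  rw [norm_iteratedFDeriv_zero, Real.norm_eq_abs] at h1
  have h2 : (𝓕 f : 𝓢(ℝ, ℂ)) u = -Complex.I * (sinT g u : ℂ) := by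
    rw [SchwartzMap.fourier_coe]
    have : (f : ℝ → ℂ) = fun x => (g x : ℂ) := rfl
    rw [this, fourier_ofReal_odd hint hodd]
  rw [h2, norm_mul, norm_neg, Complex.norm_I, one_mul, Complex.norm_real, Real.norm_eq_abs] at h1
  exact h1

lemma decay_of_pow {h : ℝ → ℝ} (hh : ∀ k : ℕ, ∃ C, 0 < C ∧ ∀ u, |u| ^ k * |h u| ≤ C) (n : ℕ) :
    ∃ C, 0 ≤ C ∧ ∀ u, |h u| ≤ C / (1 + u ^ 2) ^ n := by
  obtain ⟨C0, h0, hC0⟩ := hh 0
  obtain ⟨C2, h2, hC2⟩ := hh (2 * n)
  refine ⟨2 ^ n * (C0 + C2), by positivity, fun u => ?_⟩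
  rw [le_div_iff₀ (by positivity)]
  have e0 := hC0 u
  have e2 := hC2 u
  rw [pow_zero, one_mul] at e0
  rw [pow_mul, sq_abs] at e2
  have h3 := one_add_pow_le (sq_nonneg u) n
  calc |h u| * (1 + u ^ 2) ^ n ≤ |h u| * (2 ^ n * (1 + (u ^ 2) ^ n)) :=
        mul_le_mul_of_nonneg_left h3 (abs_nonneg _)
    _ = 2 ^ n * (|h u| + (u ^ 2) ^ n * |h u|) := by ring
    _ ≤ 2 ^ n * (C0 + C2) := by
        apply mul_le_mul_of_nonneg_left _ (by positivity)
        linarith

/-- Smooth even functions supported in `(-s, s)`, `s < 1`, are transforms of admissible test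
functions. -/
lemma dens_of_smooth {ψ : ℝ → ℝ} (hψ : ContDiff ℝ ∞ ψ) (heven : ∀ x, ψ (-x) = ψ x) {s : ℝ} (hs : 0 < s)
    (hs1 : s < 1) (hsupp : ∀ x, s ≤ |x| → ψ x = 0) :
    Dens (sinT (fun ξ => 2 * π * ξ * ψ ξ)) ∧ ∀ u, tail (sinT (fun ξ => 2 * π * ξ * ψ ξ)) u = cosT ψ u := by
  have hc : HasCompactSupport ψ := by
    apply HasCompactSupport.intro (K := Icc (-s) s) isCompact_Icc
    intro x hx
    apply hsupp
    by_contra h
    rw [not_le, abs_lt] at h
    exact hx ⟨h.1.le, h.2.le⟩
  have hint : Integrable ψ := hψ.continuous.integrable_of_hasCompactSupport hc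
  set h : ℝ → ℝ := fun ξ => 2 * π * ξ * ψ ξ with hh
  have hhs : ContDiff ℝ ∞ h := by
    apply ContDiff.mul _ hψ
    fun_prop
  have hhc : HasCompactSupport h := hc.mul_left
  have hhi : Integrable h := hhs.continuous.integrable_of_hasCompactSupport hhc
  have hhodd : ∀ x, h (-x) = -h x := by
    intro x
    simp only [hh, heven]
    ring
  have hT := testFn_cosT hψ heven hsupp
  have hder : ∀ u, HasDerivAt (cosT ψ) (-(sinT h u)) u := by
    intro u
    have hb : Integrable (fun ξ => |h ξ|) := hhi.abs
    have hψc := hψ.continuous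
    have hhcont := hhs.continuous
    have := hasDerivAt_integral_of_dominated_loc_of_deriv_le (μ := volume) (𝕜 := ℝ)
      (F := fun u ξ => ψ ξ * Real.cos (2 * π * ξ * u))
      (F' := fun u ξ => (-(h ξ)) * Real.sin (2 * π * ξ * u))
      (x₀ := u) (s := univ) (bound := fun ξ => |h ξ|) univ_mem
      (Eventually.of_forall fun x => (integrable_mul_cos hint x).aestronglyMeasurable)
      (integrable_mul_cos hint u)
      ((by fun_prop : Continuous fun ξ : ℝ => (-(h ξ)) * Real.sin (2 * π * ξ * u)).aestronglyMeasurable)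
      (ae_of_all _ fun ξ x _ => by
        rw [Real.norm_eq_abs, abs_mul, abs_neg]
        exact mul_le_of_le_one_right (by positivity) (Real.abs_sin_le_one _))
      hb
      (ae_of_all _ fun ξ x _ => by
        have h2 : HasDerivAt (fun x : ℝ => 2 * π * ξ * x) (2 * π * ξ) x := by
          simpa using (hasDerivAt_id x).const_mul (2 * π * ξ)
        have h3 := (h2.cos).const_mul (ψ ξ)
        exact h3.congr_deriv (by simp only [hh]; ring))
    have h4 := this.2
    have e : ∫ ξ, (-(h ξ)) * Real.sin (2 * π * ξ * u) = -(sinT h u) := by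
      unfold sinT
      rw [← integral_neg]
      congr 1
      ext ξ
      ring
    rw [e] at h4
    exact h4
  have hdec := decay_of_pow (sinT_decay hhs hhc hhodd)
  obtain ⟨C, hC0, hC⟩ := hdec 3
  have hcont : Continuous (sinT h) := by
    unfold sinT
    apply continuous_of_dominated (bound := fun u => |h u|)
    · intro x
      exact (hhs.continuous.mul (by fun_prop)).aestronglyMeasurable
    · intro x
      exact ae_of_all _ fun u => by
        rw [Real.norm_eq_abs, abs_mul]
        exact mul_le_of_le_one_right (abs_nonneg _) (Real.abs_sin_le_one _)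
    · exact hhi.abs
    · exact ae_of_all _ fun u => by fun_prop
  have hi := integrable_of_decay3 hcont hC hC0
  have htail : ∀ u, tail (sinT h) u = cosT ψ u := by
    intro u
    unfold tail
    have hlim : Tendsto (cosT ψ) atTop (𝓝 0) := by
      obtain ⟨D, hD0, hD⟩ := hT.decay
      have h1 : Tendsto (fun u : ℝ => D * (1 + u ^ 2)⁻¹) atTop (𝓝 0) := by
        have h2 : Tendsto (fun u : ℝ => 1 + u ^ 2) atTop atTop :=
          tendsto_atTop_add_const_left _ _ (tendsto_pow_atTop (by norm_num))
        simpa using (h2.inv_tendsto_atTop).const_mul D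
      apply squeeze_zero_norm _ h1
      intro x
      rw [Real.norm_eq_abs, ← div_eq_mul_inv]
      refine (hD x).trans ?_
      apply div_le_div_of_nonneg_left hD0 (by positivity)
      nlinarith [sq_nonneg x]
    have h1 := integral_Ioi_of_hasDerivAt_of_tendsto' (a := |u|) (fun x _ => hder x) (hi.neg.integrableOn) hlim
    rw [integral_neg] at h1
    have h2 : cosT ψ |u| = cosT ψ u := by
      rcases abs_choice u with h | h <;> rw [h]
      rw [cosT_neg]
    rw [h2] at h1
    linarith
  refine ⟨⟨hcont, ⟨C, hC0, hC⟩, ⟨s, hs, hs1, ?_⟩⟩, htail⟩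
  have e : tail (sinT h) = cosT ψ := funext htail
  rw [e]
  exact hT

/-- Fubini for tails. -/
lemma tail_fubini {p f : ℝ → ℝ} {K : ℝ} (hp : Dens p) (hf : Continuous f) (hK : ∀ u, |f u| ≤ K) :
    ∫ u, tail p u * f u = ∫ β in Ioi 0, p β * ∫ u in (-β)..β, f u := by
  obtain ⟨C, hC0, hC⟩ := hp.decay
  have hc := hp.cont
  have hi := hp.integrable
  have hK0 : 0 ≤ K := (abs_nonneg _).trans (hK 0)
  have hpb : Integrable (fun β => p β * β) := by
    apply Integrable.mono' (integrable_inv_one_add_sq.const_mul C) (hc.mul continuous_id).aestronglyMeasurable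
    apply ae_of_all
    intro β
    simp only [Pi.mul_apply, id]
    rw [Real.norm_eq_abs, abs_mul]
    have h1 : |β| ≤ 1 + β ^ 2 := by nlinarith [sq_abs β, sq_nonneg (|β| - 1), abs_nonneg β]
    calc |p β| * |β| ≤ (C / (1 + β ^ 2) ^ 3) * (1 + β ^ 2) := mul_le_mul (hC β) h1 (abs_nonneg _) (by positivity)
      _ = C / (1 + β ^ 2) ^ 2 := by
          have : 1 + β ^ 2 ≠ 0 := by positivity
          field_simp
      _ ≤ C * (1 + β ^ 2)⁻¹ := by
          rw [← div_eq_mul_inv]
          apply div_le_div_of_nonneg_left hC0 (by positivity)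
          nlinarith [sq_nonneg β]
  have h1 : ∫ u, tail p u * f u
      = ∫ u, ∫ β in Ioi 0, (if |u| ≤ β then p β else 0) * f u := by
    congr 1
    ext u
    rw [tail_eq_indicator, integral_mul_const]
  have hmeas : MeasurableSet {q : ℝ × ℝ | |q.1| ≤ q.2} :=
    measurableSet_le (continuous_abs.comp continuous_fst).measurable measurable_snd
  have hF : AEStronglyMeasurable (Function.uncurry fun (u β : ℝ) =>
      (if |u| ≤ β then p β else 0) * f u) (volume.prod (volume.restrict (Ioi (0 : ℝ)))) := by
    have e : (Function.uncurry fun (u β : ℝ) =>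
      (if |u| ≤ β then p β else 0) * f u)
      = fun q : ℝ × ℝ => ({q : ℝ × ℝ | |q.1| ≤ q.2}.indicator (fun q => p q.2) q) * f q.1 := by
      ext ⟨u, β⟩
      simp only [Function.uncurry, indicator, mem_ofPred_eq]
    rw [e]
    apply Measurable.aestronglyMeasurable
    apply Measurable.mul
    · exact Measurable.indicator (by fun_prop) hmeas
    · exact (hf.comp continuous_fst).measurable
  have hint : Integrable (Function.uncurry fun (u β : ℝ) =>
      (if |u| ≤ β then p β else 0) * f u) (volume.prod (volume.restrict (Ioi (0 : ℝ)))) := by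
    rw [integrable_prod_iff' hF]
    constructor
    · apply ae_of_all
      intro β
      simp only [Function.uncurry]
      have e : (fun u : ℝ => (if |u| ≤ β then p β else 0) * f u)
          = (Icc (-β) β).indicator (fun u => p β * f u) := by
        ext u
        simp only [indicator, mem_Icc, abs_le]
        split_ifs <;> ring
      rw [e, integrable_indicator_iff measurableSet_Icc]
      exact (continuous_const.mul hf).integrableOn_Icc
    · simp only [Function.uncurry]
      have hb : ∀ β : ℝ, 0 < β → ∫ u, ‖(if |u| ≤ β then p β else 0) * f u‖ ≤ 2 * K * |p β * β| := by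
        intro β hβ
        have e : ∀ u : ℝ, ‖(if |u| ≤ β then p β else 0) * f u‖
            ≤ (Icc (-β) β).indicator (fun _ => |p β| * K) u := by
          intro u
          simp only [indicator, mem_Icc, ← abs_le]
          split_ifs
          · rw [Real.norm_eq_abs, abs_mul]
            exact mul_le_mul_of_nonneg_left (hK u) (abs_nonneg _)
          · simp
        have h2 : ∫ u, (Icc (-β) β).indicator (fun _ => |p β| * K) u = 2 * K * |p β * β| := by
          rw [integral_indicator measurableSet_Icc, setIntegral_const, smul_eq_mul, Measure.real,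
            Real.volume_Icc, ENNReal.toReal_ofReal (by linarith), abs_mul, abs_of_pos hβ]
          ring
        rw [← h2]
        apply integral_mono_of_nonneg (ae_of_all _ fun u => norm_nonneg _) _ (ae_of_all _ e)
        rw [integrable_indicator_iff measurableSet_Icc]
        exact continuous_const.integrableOn_Icc
      have hF2 : AEStronglyMeasurable (fun β => ∫ u, ‖(if |u| ≤ β then p β else 0) * f u‖)
          (volume.restrict (Ioi (0 : ℝ))) := by
        have := (hF.norm.prod_swap).integral_prod_right'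
        exact this
      apply Integrable.mono' ((hpb.abs.const_mul (2 * K)).integrableOn (s := Ioi 0)) hF2
      filter_upwards [ae_restrict_mem measurableSet_Ioi] with β hβ
      rw [Real.norm_eq_abs, abs_of_nonneg (integral_nonneg fun u => norm_nonneg _)]
      exact hb β hβ
  rw [h1, integral_integral_swap hint]
  apply setIntegral_congr_fun measurableSet_Ioi
  intro β hβ
  have hβ' : 0 < β := hβ
  simp only
  have e : ∀ u : ℝ, (if |u| ≤ β then p β else 0) * f u
        = (Icc (-β) β).indicator (fun u => p β * f u) u := by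
      intro u
      simp only [indicator, mem_Icc, abs_le]
      split_ifs <;> ring
  simp_rw [e]
  rw [integral_indicator measurableSet_Icc, integral_const_mul]
  rw [intervalIntegral.integral_of_le (by linarith), integral_Icc_eq_integral_Ioc]

end Pool.Agent.H6
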