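import Mathlib
import Pool.Agent.H6.Deter
import Pool.Agent.H6.OneSided

open MeasureTheory Set Filter Topology FourierTransform
open scoped Real Interval ContDiff

namespace Pool.Agent.H6

/-- Real Fourier transform (characteristic function) of a measure. -/
noncomputable def chf (g : Measure ℝ) (u : ℝ) : ℝ := ∫ ξ, Real.cos (2 * π * u * ξ) ∂g

section
variable (g : Measure ℝ) [IsFiniteMeasure g]

lemma integrable_cos (u : ℝ) : Integrable (fun ξ => Real.cos (2 * π * u * ξ)) g := by
  apply Integrable.of_bound (C := 1)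
  · exact (by fun_prop : Continuous fun ξ : ℝ => Real.cos (2 * π * u * ξ)).aestronglyMeasurable
  · exact ae_of_all _ fun ξ => by rw [Real.norm_eq_abs]; exact Real.abs_cos_le_one _

lemma continuous_chf : Continuous (chf g) := by
  unfold chf
  apply continuous_of_dominated (bound := fun _ => 1)
  · intro x
    exact (by fun_prop : Continuous fun ξ : ℝ => Real.cos (2 * π * x * ξ)).aestronglyMeasurable
  · intro x
    exact ae_of_all _ fun u => by rw [Real.norm_eq_abs]; exact Real.abs_cos_le_one _
  · exact integrable_const _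
  · exact ae_of_all _ fun u => by fun_prop

lemma abs_chf_le (u : ℝ) : |chf g u| ≤ g.real univ := by
  unfold chf
  calc |∫ ξ, Real.cos (2 * π * u * ξ) ∂g| ≤ ∫ ξ, |Real.cos (2 * π * u * ξ)| ∂g := abs_integral_le_integral_abs
    _ ≤ ∫ ξ, (1 : ℝ) ∂g := by
        apply integral_mono (integrable_cos g u).abs (integrable_const _)
        intro ξ
        exact Real.abs_cos_le_one _
    _ = g.real univ := by simp

lemma integral_mul_chf {φ : ℝ → ℝ} (hφ : Integrable φ) (hc : Continuous φ) :
    ∫ u, φ u * chf g u = ∫ ξ, cosT φ ξ ∂g := by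
  unfold chf
  have h1 : ∀ u, φ u * ∫ ξ, Real.cos (2 * π * u * ξ) ∂g = ∫ ξ, φ u * Real.cos (2 * π * u * ξ) ∂g := by
    intro u
    rw [integral_const_mul]
  simp_rw [h1]
  rw [integral_integral_swap]
  · rfl
  · have h6 : Integrable (Function.uncurry fun (u ξ : ℝ) => φ u * (1 : ℝ)) (volume.prod g) :=
      hφ.mul_prod (integrable_const 1)
    have hcont : Continuous (Function.uncurry fun (u ξ : ℝ) => φ u * Real.cos (2 * π * u * ξ)) := by
      unfold Function.uncurry
      fun_prop
    apply h6.mono hcont.aestronglyMeasurable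
    apply ae_of_all
    rintro ⟨u, ξ⟩
    simp only [Function.uncurry]
    rw [norm_mul, norm_mul]
    apply mul_le_mul_of_nonneg_left _ (norm_nonneg _)
    rw [Real.norm_eq_abs, norm_one]
    exact Real.abs_cos_le_one _

end

section
variable {ι : Type*} {γ w : ι → ℝ} {F : ℝ → Finset ι} {CR : ℝ} {ns : ℕ → ℝ} {L : ℝ → ℝ}

/-- Main identity: if the limit has density `1 - chf g` and mass `m` at zero. -/
lemma chf_identity (hL : IsLimit γ w F ns L) (g : Measure ℝ) [IsFiniteMeasure g] {m : ℝ}
    (hae : ∀ᵐ β ∂vpos, L β = m + ∫ u in (-β)..β, (1 - chf g u))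
    {ψ : ℝ → ℝ} (hψ : ContDiff ℝ ∞ ψ) (heven : ∀ x, ψ (-x) = ψ x) {s : ℝ} (hs : 0 < s)
    (hs1 : s < 1) (hsupp : ∀ x, s ≤ |x| → ψ x = 0) :
    ∫ ξ, ψ ξ ∂g = (m - 1) * (∫ ξ, ψ ξ) + ∫ ξ, ψ ξ * tri ξ := by
  obtain ⟨hd, htail⟩ := dens_of_smooth hψ heven hs hs1 hsupp
  set p := sinT (fun ξ => 2 * π * ξ * ψ ξ) with hp
  have hpc : HasCompactSupport ψ := by
    apply HasCompactSupport.intro (K := Icc (-s) s) isCompact_Icc
    intro x hx
    apply hsupp
    by_contra h
    rw [not_le, abs_lt] at h
    exact hx ⟨h.1.le, h.2.le⟩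
  have hψi : Integrable ψ := hψ.continuous.integrable_of_hasCompactSupport hpc
  have hT := testFn_cosT hψ heven hsupp
  have horth := hL.orth p hd
  have hchc := continuous_chf g
  have hdiff : Continuous (fun u => (Real.sinc (π * u)) ^ 2 - chf g u) := continuous_sinc_sq.sub hchc
  have hbd : ∀ u, |(Real.sinc (π * u)) ^ 2 - chf g u| ≤ 1 + g.real univ := by
    intro u
    have h1 := abs_chf_le g u
    have h2 := abs_sinc_sq_le (π * u)
    have h3 := sq_nonneg (Real.sinc (π * u))
    rw [abs_le] at h1 ⊢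
    constructor <;> linarith [h1.1, h1.2]
  have hii1 : ∀ a b, IntervalIntegrable (fun u => 1 - chf g u) volume a b :=
    fun a b => (continuous_const.sub hchc).intervalIntegrable a b
  have h1 : ∫ β in Ioi 0, p β * (L β - G2 β)
      = (m - 1) * (∫ β in Ioi 0, p β) + ∫ β in Ioi 0, p β * ∫ u in (-β)..β, ((Real.sinc (π * u)) ^ 2 - chf g u) := by
    have e1 : ∫ β in Ioi 0, p β * (L β - G2 β)
        = ∫ β in Ioi 0, ((m - 1) * p β + p β * ∫ u in (-β)..β, ((Real.sinc (π * u)) ^ 2 - chf g u)) := by
      apply integral_congr_ae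
      filter_upwards [hae] with β hβ
      rw [hβ]
      unfold G2
      have e2 : ∫ u in (-β)..β, ((Real.sinc (π * u)) ^ 2 - chf g u)
          = (∫ u in (-β)..β, (1 - chf g u)) - ∫ u in (-β)..β, (1 - (Real.sinc (π * u)) ^ 2) := by
        rw [← intervalIntegral.integral_sub (hii1 _ _) (intervalIntegrable_gue _ _)]
        congr 1
        ext u
        ring
      rw [e2]
      ring
    rw [e1, integral_add, integral_const_mul]
    · exact hd.integrable.integrableOn.const_mul _
    · have hprim : Continuous fun β => ∫ u in (-β)..β, ((Real.sinc (π * u)) ^ 2 - chf g u) := by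
        have h2 : Continuous fun β => ∫ u in (0 : ℝ)..β, ((Real.sinc (π * u)) ^ 2 - chf g u) :=
          intervalIntegral.continuous_primitive (fun a b => hdiff.intervalIntegrable a b) 0
        have h3 : (fun β => ∫ u in (-β)..β, ((Real.sinc (π * u)) ^ 2 - chf g u))
            = fun β => (∫ u in (0 : ℝ)..β, ((Real.sinc (π * u)) ^ 2 - chf g u))
              - ∫ u in (0 : ℝ)..(-β), ((Real.sinc (π * u)) ^ 2 - chf g u) := by
          ext β
          rw [intervalIntegral.integral_interval_sub_left (hdiff.intervalIntegrable _ _) (hdiff.intervalIntegrable _ _)]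
        rw [h3]
        exact h2.sub (h2.comp continuous_neg)
      apply hd.integrable_mul (K := 2 * (1 + g.real univ)) hprim.aestronglyMeasurable
      intro β hβ
      have h2 := intervalIntegral.norm_integral_le_of_norm_le_const (C := 1 + g.real univ) (a := -β) (b := β)
        (f := fun u => (Real.sinc (π * u)) ^ 2 - chf g u) (fun u _ => by rw [Real.norm_eq_abs]; exact hbd u)
      rw [Real.norm_eq_abs] at h2
      refine h2.trans ?_
      rw [sub_neg_eq_add, abs_of_nonneg (by linarith)]
      have h3 : 0 ≤ g.real univ := measureReal_nonneg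
      nlinarith
  rw [h1, ← tail_fubini hd hdiff hbd] at horth
  have h2 : ∫ β in Ioi 0, p β = ∫ ξ, ψ ξ := by
    have := htail 0
    unfold tail at this
    rw [abs_zero] at this
    rw [this]
    unfold cosT
    simp
  have h3 : ∫ u, tail p u * ((Real.sinc (π * u)) ^ 2 - chf g u)
      = (∫ ξ, ψ ξ * tri ξ) - ∫ ξ, ψ ξ ∂g := by
    simp_rw [htail]
    have hinv : ∀ ξ, cosT (cosT ψ) ξ = ψ ξ := fun ξ =>
      cosT_cosT hψ.continuous hψi heven hT.integrable ξ
    have e1 : ∫ u, cosT ψ u * (Real.sinc (π * u)) ^ 2 = ∫ x, ψ x * tri x := by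
      simp_rw [← cosT_tri]
      rw [integral_mul_cosT hT.integrable integrable_tri hT.cont continuous_tri]
      simp_rw [hinv]
    have e2 : ∫ u, cosT ψ u * chf g u = ∫ ξ, ψ ξ ∂g := by
      rw [integral_mul_chf g hT.integrable hT.cont]
      simp_rw [hinv]
    rw [← e1, ← e2, ← integral_sub]
    · congr 1
      ext u
      ring
    · apply Integrable.mul_bdd (c := 1) hT.integrable continuous_sinc_sq.aestronglyMeasurable
      exact ae_of_all _ fun u => by
        rw [Real.norm_eq_abs, abs_of_nonneg (sq_nonneg _)]; exact abs_sinc_sq_le _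
    · apply Integrable.mul_bdd (c := g.real univ) hT.integrable hchc.aestronglyMeasurable
      exact ae_of_all _ fun u => by
        rw [Real.norm_eq_abs]; exact abs_chf_le g u
  rw [h2, h3] at horth
  linarith

/-- lower bounds for plateau integrals -/
lemma plateau_integrals {ψ : ℝ → ℝ} (hψc : Continuous ψ) (hψ0 : ∀ x, 0 ≤ ψ x) {s : ℝ} (hs : 0 < s) (hs1 : s < 1)
    (h1 : ∀ x, |x| ≤ s → ψ x = 1) (hi : Integrable ψ) :
    2 * s ≤ ∫ x, ψ x ∧ 2 * s - s ^ 2 ≤ ∫ x, ψ x * tri x := by
  have hit : Integrable (fun x => ψ x * tri x) := by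
    apply (hψc.mul continuous_tri).integrable_of_hasCompactSupport
    exact hasCompactSupport_tri.mul_left
  constructor
  · have h2 : ∫ x in Icc (-s) s, ψ x ≤ ∫ x, ψ x := setIntegral_le_integral hi (ae_of_all _ hψ0)
    have h3 : ∫ x in Icc (-s) s, ψ x = 2 * s := by
      have : ∫ x in Icc (-s) s, ψ x = ∫ x in Icc (-s) s, (1 : ℝ) := by
        apply setIntegral_congr_fun measurableSet_Icc
        intro x hx
        exact h1 x (abs_le.mpr hx)
      rw [this, setIntegral_const, smul_eq_mul, mul_one, Measure.real, Real.volume_Icc,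
        ENNReal.toReal_ofReal (by linarith)]
      ring
    linarith
  · have h2 : ∫ x in Icc (-s) s, ψ x * tri x ≤ ∫ x, ψ x * tri x :=
      setIntegral_le_integral hit (ae_of_all _ fun x => mul_nonneg (hψ0 x) (tri_nonneg x))
    have h3 : ∫ x in Icc (-s) s, ψ x * tri x = 2 * s - s ^ 2 := by
      have : ∫ x in Icc (-s) s, ψ x * tri x = ∫ x in Icc (-s) s, (1 - |x|) := by
        apply setIntegral_congr_fun measurableSet_Icc
        intro x hx
        have hx' : |x| ≤ s := abs_le.mpr hx
        simp only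
        rw [h1 x hx', tri_eq (by linarith), one_mul]
      rw [this, integral_Icc_eq_integral_Ioc, ← intervalIntegral.integral_of_le (by linarith)]
      have hc : Continuous fun x : ℝ => 1 - |x| := by fun_prop
      rw [← intervalIntegral.integral_add_adjacent_intervals (b := 0) (hc.intervalIntegrable _ _)
        (hc.intervalIntegrable _ _)]
      have e1 : ∫ x in (-s)..0, (1 - |x|) = ∫ x in (-s)..0, (1 + x) := by
        apply intervalIntegral.integral_congr
        intro x hx
        rw [uIcc_of_le (by linarith)] at hx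
        simp only
        rw [abs_of_nonpos hx.2]
        ring
      have e2 : ∫ x in (0 : ℝ)..s, (1 - |x|) = ∫ x in (0 : ℝ)..s, (1 - x) := by
        apply intervalIntegral.integral_congr
        intro x hx
        rw [uIcc_of_le hs.le] at hx
        simp only
        rw [abs_of_nonneg hx.1]
      rw [e1, e2, intervalIntegral.integral_add (by simp) (by simp), intervalIntegral.integral_sub (by simp) (by simp)]
      simp
      ring
    linarith

/-- The total mass of the hole is at most one, since the density is nonnegative. -/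
lemma mass_le_one (hL : IsLimit γ w F ns L) (g : Measure ℝ) [IsFiniteMeasure g] {m : ℝ}
    (hae : ∀ᵐ β ∂vpos, L β = m + ∫ u in (-β)..β, (1 - chf g u)) : g.real univ ≤ 1 := by
  by_contra hcon
  rw [not_le] at hcon
  have hchc := continuous_chf g
  have hc : Continuous (fun u => 1 - chf g u) := continuous_const.sub hchc
  have h0 : (1 : ℝ) - chf g 0 < 0 := by
    have : chf g 0 = g.real univ := by
      unfold chf; simp
    rw [this]; linarith
  have h1 : ∀ᶠ u in 𝓝 (0 : ℝ), 1 - chf g u < 0 := hc.continuousAt.eventually (gt_mem_nhds h0)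
  obtain ⟨ε, hε, h2⟩ := Metric.eventually_nhds_iff.mp h1
  -- two good points
  rw [ae_restrict_iff' measurableSet_Ioi] at hae
  have hdense : ∀ a b : ℝ, 0 ≤ a → a < b → ∃ c, a < c ∧ c < b ∧ L c = m + ∫ u in (-c)..c, (1 - chf g u) := by
    intro a b ha hab
    by_contra hcon
    push Not at hcon
    have hsub : Ioo a b ⊆ {x | ¬ (x ∈ Ioi (0 : ℝ) → L x = m + ∫ u in (-x)..x, (1 - chf g u))} := by
      intro x hx hx2
      exact hcon x hx.1 hx.2 (hx2 (lt_of_le_of_lt ha hx.1))
    have h1 : volume (Ioo a b) = 0 := measure_mono_null hsub hae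
    rw [Real.volume_Ioo, ENNReal.ofReal_eq_zero] at h1
    linarith
  obtain ⟨c, hc0, hc1, hc2⟩ := hdense 0 (ε / 2) le_rfl (by positivity)
  obtain ⟨d, hd0, hd1, hd2⟩ := hdense c (ε / 2) hc0.le hc1
  have h3 := hL.mono hd0.le
  rw [hc2, hd2] at h3
  have hii : ∀ a b, IntervalIntegrable (fun u => 1 - chf g u) volume a b := fun a b => hc.intervalIntegrable a b
  have h4 : ∫ u in (-d)..d, (1 - chf g u) = (∫ u in (-d)..(-c), (1 - chf g u)) + ((∫ u in (-c)..c, (1 - chf g u))
      + ∫ u in c..d, (1 - chf g u)) := by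
    rw [intervalIntegral.integral_add_adjacent_intervals (hii _ _) (hii _ _),
      intervalIntegral.integral_add_adjacent_intervals (hii _ _) (hii _ _)]
  have hneg : ∀ a b : ℝ, a < b → -(ε / 2) < a → b < ε / 2 → ∫ u in a..b, (1 - chf g u) < 0 := by
    intro a b hab ha hb
    have h5 : 0 < ∫ u in a..b, -(1 - chf g u) := by
      apply intervalIntegral.intervalIntegral_pos_of_pos_on (hii a b).neg _ hab
      intro x hx
      have := h2 (y := x) (by rw [Real.dist_eq, sub_zero, abs_lt]; constructor <;> linarith [hx.1, hx.2])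
      change 0 < -(1 - chf g x)
      linarith
    rw [intervalIntegral.integral_neg] at h5
    linarith
  have h5 := hneg c d hd0 (by linarith) hd1
  have h6 := hneg (-d) (-c) (by linarith) (by linarith) (by linarith)
  linarith

/-- **Rigidity of positive definite holes.** -/
theorem chf_eq_sinc (hL : IsLimit γ w F ns L) (g : Measure ℝ) [IsFiniteMeasure g] {m : ℝ} (hm : 1 ≤ m)
    (hae : ∀ᵐ β ∂vpos, L β = m + ∫ u in (-β)..β, (1 - chf g u)) :
    m = 1 ∧ ∀ u, chf g u = (Real.sinc (π * u)) ^ 2 := by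
  have hg1 := mass_le_one hL g hae
  -- step 1: m ≤ 1
  have hm1 : m ≤ 1 ∧ 1 ≤ g.real univ := by
    have key : ∀ s : ℝ, 0 < s → s < 1 → (m - 1) * (2 * s) + (2 * s - s ^ 2) ≤ g.real univ := by
      intro s hs hs1
      obtain ⟨ψ, hψs, hψe, hψ0, hψ1, hψn, hψl⟩ := exists_plateau (s := s) (s' := (1 + s) / 2) hs (by linarith)
      have hpc : HasCompactSupport ψ := by
        apply HasCompactSupport.intro (K := Icc (-((1 + s) / 2)) ((1 + s) / 2)) isCompact_Icc
        intro x hx
        apply hψ0
        by_contra h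
        rw [not_le, abs_lt] at h
        exact hx ⟨h.1.le, h.2.le⟩
      have hψi : Integrable ψ := hψs.continuous.integrable_of_hasCompactSupport hpc
      have h1 := chf_identity hL g hae hψs hψe (by linarith) (by linarith) hψ0
      have h2 := plateau_integrals hψs.continuous hψn hs hs1 hψ1 hψi
      have h3 : ∫ ξ, ψ ξ ∂g ≤ g.real univ := by
        calc ∫ ξ, ψ ξ ∂g ≤ ∫ ξ, (1 : ℝ) ∂g := by
              apply integral_mono_of_nonneg (ae_of_all _ hψn) (integrable_const _) (ae_of_all _ hψl)
          _ = g.real univ := by simp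
      have h4 : (m - 1) * (2 * s) ≤ (m - 1) * ∫ ξ, ψ ξ := mul_le_mul_of_nonneg_left h2.1 (by linarith)
      linarith [h2.2]
    have hlim : Tendsto (fun s : ℝ => (m - 1) * (2 * s) + (2 * s - s ^ 2)) (𝓝[<] 1) (𝓝 ((m - 1) * (2 * 1) + (2 * 1 - 1 ^ 2))) := by
      apply Tendsto.mono_left _ nhdsWithin_le_nhds
      exact (by fun_prop : Continuous fun s : ℝ => (m - 1) * (2 * s) + (2 * s - s ^ 2)).tendsto 1
    have h5 : (m - 1) * (2 * 1) + (2 * 1 - 1 ^ 2) ≤ g.real univ := by
      apply le_of_tendsto hlim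
      have h6 : ∀ᶠ s : ℝ in 𝓝[<] 1, 0 < s := nhdsWithin_le_nhds (lt_mem_nhds one_pos)
      filter_upwards [self_mem_nhdsWithin, h6] with s h7 h8
      exact key s h8 h7
    constructor <;> linarith
  have hg : g.real univ = 1 := le_antisymm hg1 hm1.2
  have hm' : m = 1 := le_antisymm hm1.1 hm
  refine ⟨hm', fun u => ?_⟩
  have key : ∀ s : ℝ, 0 < s → s < 1 → |chf g u - (Real.sinc (π * u)) ^ 2| ≤ 2 * (1 - s) ^ 2 := by
    intro s hs hs1
    obtain ⟨ψ, hψs, hψe, hψ0, hψ1, hψn, hψl⟩ := exists_plateau (s := s) (s' := (1 + s) / 2) hs (by linarith)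
    have hpc : HasCompactSupport ψ := by
      apply HasCompactSupport.intro (K := Icc (-((1 + s) / 2)) ((1 + s) / 2)) isCompact_Icc
      intro x hx
      apply hψ0
      by_contra h
      rw [not_le, abs_lt] at h
      exact hx ⟨h.1.le, h.2.le⟩
    have hψi : Integrable ψ := hψs.continuous.integrable_of_hasCompactSupport hpc
    have h1 := chf_identity hL g hae hψs hψe (by linarith) (by linarith) hψ0
    rw [hm', sub_self, zero_mul, zero_add] at h1
    have h2 := (plateau_integrals hψs.continuous hψn hs hs1 hψ1 hψi).2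
    -- the test function ψ cos
    have h3 := chf_identity (ψ := fun ξ => ψ ξ * Real.cos (2 * π * u * ξ)) (s := (1 + s) / 2) hL g hae
      (hψs.mul (Real.contDiff_cos.comp (by fun_prop))) (by
        intro x
        rw [hψe, show 2 * π * u * -x = -(2 * π * u * x) by ring, Real.cos_neg]) (by linarith) (by linarith)
      (fun x hx => by rw [hψ0 x hx, zero_mul])
    rw [hm', sub_self, zero_mul, zero_add] at h3
    have hψg : Integrable ψ g := by
      apply Integrable.of_bound (C := 1) hψs.continuous.aestronglyMeasurable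
      exact ae_of_all _ fun ξ => by rw [Real.norm_eq_abs, abs_of_nonneg (hψn ξ)]; exact hψl ξ
    have hcg := integrable_cos g u
    have hψcg : Integrable (fun ξ => ψ ξ * Real.cos (2 * π * u * ξ)) g := by
      apply Integrable.mul_bdd (c := 1) hψg
        (by fun_prop : Continuous fun ξ : ℝ => Real.cos (2 * π * u * ξ)).aestronglyMeasurable
      exact ae_of_all _ fun ξ => by rw [Real.norm_eq_abs]; exact Real.abs_cos_le_one _
    have h4 : |chf g u - ∫ ξ, ψ ξ * Real.cos (2 * π * u * ξ) ∂g| ≤ 1 - ∫ ξ, ψ ξ ∂g := by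
      unfold chf
      rw [← integral_sub hcg hψcg]
      have e : (1 : ℝ) - ∫ ξ, ψ ξ ∂g = ∫ ξ, (1 - ψ ξ) ∂g := by
        rw [integral_sub (integrable_const _) hψg]; simp [hg]
      rw [e]
      refine abs_integral_le_integral_abs.trans ?_
      apply integral_mono (hcg.sub hψcg).abs ((integrable_const _).sub hψg)
      intro ξ
      simp only [Pi.sub_apply]
      rw [show Real.cos (2 * π * u * ξ) - ψ ξ * Real.cos (2 * π * u * ξ) = (1 - ψ ξ) * Real.cos (2 * π * u * ξ) by ring,
        abs_mul, abs_of_nonneg (by linarith [hψl ξ] : 0 ≤ 1 - ψ ξ)]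
      exact mul_le_of_le_one_right (by linarith [hψl ξ]) (Real.abs_cos_le_one _)
    have htc : (Real.sinc (π * u)) ^ 2 = ∫ ξ, tri ξ * Real.cos (2 * π * u * ξ) := by
      rw [← cosT_tri]
      unfold cosT
      congr 1
      ext x
      rw [show 2 * π * x * u = 2 * π * u * x by ring]
    have hitc : Integrable (fun ξ => tri ξ * Real.cos (2 * π * u * ξ)) := by
      apply Integrable.mul_bdd (c := 1) integrable_tri
        (by fun_prop : Continuous fun ξ : ℝ => Real.cos (2 * π * u * ξ)).aestronglyMeasurable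
      exact ae_of_all _ fun ξ => by rw [Real.norm_eq_abs]; exact Real.abs_cos_le_one _
    have hψt : Integrable (fun ξ => ψ ξ * tri ξ) := by
      apply (hψs.continuous.mul continuous_tri).integrable_of_hasCompactSupport
      exact hasCompactSupport_tri.mul_left
    have hψtc : Integrable (fun ξ => ψ ξ * Real.cos (2 * π * u * ξ) * tri ξ) := by
      have hcont : Continuous (fun ξ => ψ ξ * Real.cos (2 * π * u * ξ) * tri ξ) :=
        (hψs.continuous.mul (by fun_prop)).mul continuous_tri
      apply hcont.integrable_of_hasCompactSupport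
      exact hasCompactSupport_tri.mul_left
    have htri1 : ∫ ξ, tri ξ = 1 := by
      have := cosT_tri 0
      unfold cosT at this
      simpa using this
    have h5 : |(Real.sinc (π * u)) ^ 2 - ∫ ξ, ψ ξ * Real.cos (2 * π * u * ξ) * tri ξ| ≤ 1 - ∫ ξ, ψ ξ * tri ξ := by
      rw [htc, ← integral_sub hitc hψtc]
      have e : (1 : ℝ) - ∫ ξ, ψ ξ * tri ξ = ∫ ξ, (tri ξ - ψ ξ * tri ξ) := by
        rw [integral_sub integrable_tri hψt, htri1]
      rw [e]
      refine abs_integral_le_integral_abs.trans ?_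
      apply integral_mono (hitc.sub hψtc).abs (integrable_tri.sub hψt)
      intro ξ
      simp only [Pi.sub_apply]
      have h6 : 0 ≤ tri ξ - ψ ξ * tri ξ := by nlinarith [hψl ξ, tri_nonneg ξ]
      rw [show tri ξ * Real.cos (2 * π * u * ξ) - ψ ξ * Real.cos (2 * π * u * ξ) * tri ξ
        = (tri ξ - ψ ξ * tri ξ) * Real.cos (2 * π * u * ξ) by ring,
        abs_mul, abs_of_nonneg h6]
      exact mul_le_of_le_one_right h6 (Real.abs_cos_le_one _)
    rw [h3] at h4
    rw [h1] at h4
    have h7 : |chf g u - (Real.sinc (π * u)) ^ 2| ≤ |chf g u - ∫ ξ, ψ ξ * Real.cos (2 * π * u * ξ) * tri ξ|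
        + |(Real.sinc (π * u)) ^ 2 - ∫ ξ, ψ ξ * Real.cos (2 * π * u * ξ) * tri ξ| := by
      have := abs_sub (chf g u - ∫ ξ, ψ ξ * Real.cos (2 * π * u * ξ) * tri ξ)
        ((Real.sinc (π * u)) ^ 2 - ∫ ξ, ψ ξ * Real.cos (2 * π * u * ξ) * tri ξ)
      rwa [sub_sub_sub_cancel_right] at this
    nlinarith
  have hlim : Tendsto (fun s : ℝ => 2 * (1 - s) ^ 2) (𝓝[<] 1) (𝓝 (2 * (1 - 1) ^ 2)) := by
    apply Tendsto.mono_left _ nhdsWithin_le_nhds
    exact (by fun_prop : Continuous fun s : ℝ => 2 * (1 - s) ^ 2).tendsto 1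
  have h5 : |chf g u - (Real.sinc (π * u)) ^ 2| ≤ 2 * (1 - 1) ^ 2 := by
    apply ge_of_tendsto hlim
    have h6 : ∀ᶠ s : ℝ in 𝓝[<] 1, 0 < s := nhdsWithin_le_nhds (lt_mem_nhds one_pos)
    filter_upwards [self_mem_nhdsWithin, h6] with s h7 h8
    exact key s h8 h7
  have h6 : |chf g u - (Real.sinc (π * u)) ^ 2| ≤ 0 := by linarith
  have := abs_nonpos_iff.mp h6
  linarith

end

end Pool.Agent.H6
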