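import Mathlib
import Pool.Agent.H6.Deter2
import Pool.Agent.H6.Final

open MeasureTheory Set Filter Topology FourierTransform
open scoped Real Interval ContDiff

namespace Pool.Agent.H6

section
variable {ι : Type*} {γ w : ι → ℝ} {F : ℝ → Finset ι} {CR : ℝ} {ns : ℕ → ℝ} {L : ℝ → ℝ}

lemma IsLimit.dense_cont (hL : IsLimit γ w F ns L) {a b : ℝ} (hab : a < b) :
    ∃ c, a < c ∧ c < b ∧ ContinuousAt L c := by
  have hcount := hL.mono.countable_not_continuousAt
  by_contra h
  push Not at h
  have hsub : Ioo a b ⊆ {x | ¬ContinuousAt L x} := fun x hx => h x hx.1 hx.2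
  have := hcount.mono hsub
  exact (Cardinal.Real.Ioo_countable_iff.mp this).not_gt hab

/-- If the window counts converge, along a sequence, to a continuous density `r`, then the limit has
the form `m + ∫_{-β}^{β} r`. -/
lemma IsLimit.eq_of_density (hL : IsLimit γ w F ns L) (hw : ∀ i, 0 ≤ w i) (hns : Tendsto ns atTop atTop)
    {r : ℝ → ℝ} (hr : Continuous r) (hre : ∀ u, r (-u) = r u)
    (h : ∀ α β, 0 < α → α < β → Tendsto (fun n => PW γ w F (ns n) α β) atTop (𝓝 (∫ u in α..β, r u))) :
    ∃ m, 1 ≤ m ∧ ∀ᵐ β ∂vpos, L β = m + ∫ u in (-β)..β, r u := by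
  set R : ℝ → ℝ := fun β => ∫ u in (-β)..β, r u with hR
  have hri : ∀ a b, IntervalIntegrable r volume a b := fun a b => hr.intervalIntegrable a b
  have hRsub : ∀ c d : ℝ, R d - R c = 2 * ∫ u in c..d, r u := by
    intro c d
    simp only [hR]
    have h1 : ∀ x : ℝ, ∫ u in (-x)..x, r u = 2 * ∫ u in (0 : ℝ)..x, r u := by
      intro x
      rw [← intervalIntegral.integral_add_adjacent_intervals (hri (-x) 0) (hri 0 x)]
      have h2 := intervalIntegral.integral_comp_neg (f := r) (a := -x) (b := 0)
      simp only [neg_zero, neg_neg] at h2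
      rw [← h2]
      have h3 : ∫ u in (-x)..0, r (-u) = ∫ u in (-x)..0, r u := by
        apply intervalIntegral.integral_congr
        intro u _
        exact hre u
      have h4 := intervalIntegral.integral_comp_neg (f := r) (a := 0) (b := x)
      simp only [neg_zero] at h4
      rw [h3, ← h4]
      have h5 : ∫ u in (0 : ℝ)..x, r (-u) = ∫ u in (0 : ℝ)..x, r u := by
        apply intervalIntegral.integral_congr
        intro u _
        exact hre u
      rw [h5] at h4 ⊢
      ring
    rw [h1, h1, ← intervalIntegral.integral_interval_sub_left (hri 0 d) (hri 0 c)]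
    ring
  have hRc : Continuous R := by
    have h1 : R = fun β => R 0 + 2 * ∫ u in (0 : ℝ)..β, r u := by
      ext β
      rw [← hRsub 0 β]
      ring
    rw [h1]
    exact continuous_const.add (continuous_const.mul (intervalIntegral.continuous_primitive hri 0))
  -- differences at continuity points
  have hdiff : ∀ c d, 0 < c → c < d → ContinuousAt L c → ContinuousAt L d → L d - L c = R d - R c := by
    intro c d hc hcd hcc hcd'
    have hlim := (hL.conv d hcd').sub (hL.conv c hcc)
    have hev : ∀ᶠ n in atTop, 1 < ns n := hns.eventually_gt_atTop 1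
    apply le_antisymm
    · rw [hRsub]
      apply le_of_tendsto_of_tendsto hlim ((h c d hc hcd).const_mul 2)
      filter_upwards [hev] with n h4
      have h5 := HW_le_PW_sub (γ := γ) (w := w) (F := F) hw h4 c d
      have h6 := MM_eq_HW (γ := γ) (w := w) (F := F) (ns n) (β := c) (by linarith)
      have h7 := MM_eq_HW (γ := γ) (w := w) (F := F) (ns n) (β := d) (by linarith)
      linarith
    · have key : ∀ α, c < α → α < d → R d - R α ≤ L d - L c := by
        intro α hα hαd
        rw [hRsub]
        apply le_of_tendsto_of_tendsto ((h α d (by linarith) hαd).const_mul 2) hlim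
        filter_upwards [hev] with n h4
        have h5 := PW_le_HW_sub (γ := γ) (w := w) (F := F) hw h4 (by linarith : 0 ≤ c) hα hαd.le
        have h6 := MM_eq_HW (γ := γ) (w := w) (F := F) (ns n) (β := c) (by linarith)
        have h7 := MM_eq_HW (γ := γ) (w := w) (F := F) (ns n) (β := d) (by linarith)
        linarith
      have hlim2 : Tendsto (fun α => R d - R α) (𝓝[>] c) (𝓝 (R d - R c)) :=
        ((continuous_const.sub hRc).tendsto c).mono_left nhdsWithin_le_nhds
      apply le_of_tendsto hlim2
      have h4 : ∀ᶠ α in 𝓝[>] c, α < d := nhdsWithin_le_nhds (gt_mem_nhds hcd)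
      filter_upwards [self_mem_nhdsWithin, h4] with α h1 h2
      exact key α h1 h2
  obtain ⟨c0, hc0, hc01, hcc0⟩ := hL.dense_cont (show (0 : ℝ) < 1 by norm_num)
  set m := L c0 - R c0 with hm
  have hform : ∀ c, 0 < c → ContinuousAt L c → L c = m + R c := by
    intro c hc hcc
    rcases lt_trichotomy c c0 with h1 | h1 | h1
    · have := hdiff c c0 hc h1 hcc hcc0
      linarith
    · subst h1; linarith
    · have := hdiff c0 c hc0 h1 hcc0 hcc
      linarith
  refine ⟨m, ?_, ?_⟩
  · have hR0 : Tendsto (fun c => 1 - R c) (𝓝[>] 0) (𝓝 (1 - R 0)) :=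
      ((continuous_const.sub hRc).tendsto 0).mono_left nhdsWithin_le_nhds
    have hR00 : R 0 = 0 := by simp [hR]
    rw [hR00, sub_zero] at hR0
    by_contra hcon
    rw [not_le] at hcon
    have h1 := hR0.eventually (lt_mem_nhds hcon)
    rw [eventually_nhdsWithin_iff, Metric.eventually_nhds_iff] at h1
    obtain ⟨ε, hε, h2⟩ := h1
    obtain ⟨c, hc1, hc2, hc3⟩ := hL.dense_cont hε
    have h3 := h2 (y := c) (by rw [Real.dist_eq, sub_zero, abs_of_pos hc1]; exact hc2) hc1
    have h4 := hform c hc1 hc3
    have h5 := hL.ge_one c hc1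
    linarith
  · filter_upwards [hL.ae_cont, ae_restrict_mem measurableSet_Ioi] with c hc hc0
    exact hform c hc0 hc

end

end Pool.Agent.H6
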